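import Mathlib

/-! Real central hyperplane arrangements. -/

set_option autoImplicit false

namespace Pool.Agent.SimpArr

variable {r : ℕ}

/-- A central arrangement of rank `r`: finitely many linear hyperplanes of `ℝ^r` whose common
intersection is `0`. -/
def IsArrangement (A : Finset (Submodule ℝ (Fin r → ℝ))) : Prop :=
  (∀ H ∈ A, Module.finrank ℝ H + 1 = r) ∧ ∀ v : Fin r → ℝ, (∀ H ∈ A, v ∈ H) → v = 0

/-- The complement of the union of the hyperplanes. -/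
def Complement (A : Finset (Submodule ℝ (Fin r → ℝ))) : Set (Fin r → ℝ) :=
  {v | ∀ H ∈ A, v ∉ H}

/-- The regions are the closures of the connected components of the complement. -/
def IsRegion (A : Finset (Submodule ℝ (Fin r → ℝ))) (K : Set (Fin r → ℝ)) : Prop :=
  ∃ v ∈ Complement A, K = closure (connectedComponentIn (Complement A) v)

/-- Every region is a simplicial cone bounded by `r` hyperplanes of the arrangement. -/
def IsSimplicial (A : Finset (Submodule ℝ (Fin r → ℝ))) : Prop :=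
  ∀ K, IsRegion A K → ∃ f : Fin r → ((Fin r → ℝ) →ₗ[ℝ] ℝ), LinearIndependent ℝ f ∧
    (∀ i, LinearMap.ker (f i) ∈ A) ∧ K = {y | ∀ i, 0 ≤ f i y}

/-- The arrangement is not a direct sum of two arrangements of positive rank. -/
def IsIrreducible (A : Finset (Submodule ℝ (Fin r → ℝ))) : Prop :=
  ¬ ∃ V₁ V₂ : Submodule ℝ (Fin r → ℝ), IsCompl V₁ V₂ ∧ V₁ ≠ ⊥ ∧ V₂ ≠ ⊥ ∧
    ∀ H ∈ A, V₁ ≤ H ∨ V₂ ≤ H

/-- `A` is linearly isomorphic to the reflection arrangement of type `A_r`: the hyperplanes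
`z i = z j` of the space of vectors `z` in `ℝ^(r+1)` with coordinate sum `0`. -/
def IsTypeA (A : Finset (Submodule ℝ (Fin r → ℝ))) : Prop :=
  ∃ g : (Fin r → ℝ) →ₗ[ℝ] (Fin (r + 1) → ℝ), Function.Injective g ∧ (∀ v, ∑ i, g v i = 0) ∧
    ∀ H : Submodule ℝ (Fin r → ℝ), H ∈ A ↔ ∃ i j, i ≠ j ∧ ∀ v, v ∈ H ↔ g v i = g v j

/-- `A` is linearly isomorphic to the arrangement of the hyperplanes `x i = x j`, `x i = - x j`
(`i ≠ j`) and the first `k` coordinate hyperplanes. -/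
def IsTypeDB (k : ℕ) (A : Finset (Submodule ℝ (Fin r → ℝ))) : Prop :=
  ∃ g : (Fin r → ℝ) ≃ₗ[ℝ] (Fin r → ℝ), ∀ H : Submodule ℝ (Fin r → ℝ), H ∈ A ↔
    (∃ i j, i ≠ j ∧ ((∀ v, v ∈ H ↔ g v i = g v j) ∨ (∀ v, v ∈ H ↔ g v i = -g v j))) ∨
      ∃ i : Fin r, i.val < k ∧ ∀ v, v ∈ H ↔ g v i = 0

end Pool.Agent.SimpArr
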