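import Pool.Agent.P.MP_0b4c38_co.Arr

/-! Face posets, the known families and sporadic simplicial arrangements. -/

set_option autoImplicit false

namespace Pool.Agent.SimpArr

open Real

variable {r s : ℕ}

/-- The relatively open cell of `v`: the points on which every linear form defining a hyperplane
of `A` has the same sign as at `v`. -/
def cell (A : Finset (Submodule ℝ (Fin r → ℝ))) (v : Fin r → ℝ) : Set (Fin r → ℝ) :=
  {w | ∀ f : (Fin r → ℝ) →ₗ[ℝ] ℝ, LinearMap.ker f ∈ A → SignType.sign (f w) = SignType.sign (f v)}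

/-- The faces of `A`: the closures of the cells. They are ordered by inclusion. -/
def Face (A : Finset (Submodule ℝ (Fin r → ℝ))) : Set (Set (Fin r → ℝ)) :=
  {F | ∃ v, F = closure (cell A v)}

/-- Combinatorial equivalence: the face posets are isomorphic. -/
def CombEq (A : Finset (Submodule ℝ (Fin r → ℝ))) (B : Finset (Submodule ℝ (Fin s → ℝ))) : Prop :=
  Nonempty (Face A ≃o Face B)

/-- `g` is the orthogonal reflection in the hyperplane `H`. -/
def IsRefl (g : (Fin r → ℝ) ≃ₗ[ℝ] (Fin r → ℝ)) (H : Submodule ℝ (Fin r → ℝ)) : Prop :=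
  ∃ a : Fin r → ℝ, a ≠ 0 ∧ (∀ v, g v = v - (2 * (a ⬝ᵥ v) / (a ⬝ᵥ a)) • a) ∧
    ∀ v, v ∈ H ↔ a ⬝ᵥ v = 0

/-- `A` is the set of all reflecting hyperplanes of a finite group generated by orthogonal
reflections whose only common fixed point is `0`. -/
def IsReflArr (A : Finset (Submodule ℝ (Fin r → ℝ))) : Prop :=
  ∃ G : Subgroup ((Fin r → ℝ) ≃ₗ[ℝ] (Fin r → ℝ)), Finite G ∧
    G = Subgroup.closure {g | g ∈ G ∧ ∃ H, IsRefl g H} ∧
    (∀ v : Fin r → ℝ, (∀ g ∈ G, g v = v) → v = 0) ∧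
    ∀ H, H ∈ A ↔ ∃ g ∈ G, IsRefl g H

/-- `A` consists of the hyperplanes `x i = x j`, `x i = - x j` (`i ≠ j`) and the first `k`
coordinate hyperplanes. -/
def IsArk (k : ℕ) (A : Finset (Submodule ℝ (Fin r → ℝ))) : Prop :=
  ∀ H : Submodule ℝ (Fin r → ℝ), H ∈ A ↔
    (∃ i j, i ≠ j ∧ ((∀ v, v ∈ H ↔ v i = v j) ∨ (∀ v, v ∈ H ↔ v i = -v j))) ∨
      ∃ i : Fin r, i.val < k ∧ ∀ v, v ∈ H ↔ v i = 0

/-- `H` is a side line or a symmetry axis of the regular `m`-gon circumscribed about the unit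
circle of the affine chart `v 2 = 1`. -/
def PolyLine (m : ℕ) (H : Submodule ℝ (Fin 3 → ℝ)) : Prop :=
  ∃ j < m, (∀ v, v ∈ H ↔ cos (2 * π * j / m) * v 0 + sin (2 * π * j / m) * v 1 = v 2) ∨
    (∀ v, v ∈ H ↔ sin (π * j / m) * v 0 = cos (π * j / m) * v 1)

/-- `A` is `R(2m)` with `m ≥ 3` or `R(4m+1)` with `m ≥ 2`. -/
def IsRegular (A : Finset (Submodule ℝ (Fin 3 → ℝ))) : Prop :=
  (∃ m, 3 ≤ m ∧ ∀ H, H ∈ A ↔ PolyLine m H) ∨
    ∃ m, 2 ≤ m ∧ ∀ H, H ∈ A ↔ PolyLine (2 * m) H ∨ ∀ v, v ∈ H ↔ v 2 = 0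

/-- A simplicial arrangement is sporadic if it is irreducible and not combinatorially equivalent
to a reflection arrangement, to some `A_r^k` with `0 < k < r`, or to a member of the regular
polygon families. -/
def IsSporadic (A : Finset (Submodule ℝ (Fin r → ℝ))) : Prop :=
  IsArrangement A ∧ IsSimplicial A ∧ IsIrreducible A ∧
    (¬ ∃ B : Finset (Submodule ℝ (Fin r → ℝ)),
      (IsReflArr B ∨ ∃ k, 0 < k ∧ k < r ∧ IsArk k B) ∧ CombEq A B) ∧
    ¬ ∃ B : Finset (Submodule ℝ (Fin 3 → ℝ)), IsRegular B ∧ CombEq A B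

/-- Up to combinatorial equivalence there are only finitely many sporadic simplicial
arrangements whose rank satisfies `p`. -/
def FinitelyManySporadic (p : ℕ → Prop) : Prop :=
  ∃ L : Set (Σ n : ℕ, Finset (Submodule ℝ (Fin n → ℝ))), L.Finite ∧
    ∀ n, p n → ∀ A : Finset (Submodule ℝ (Fin n → ℝ)), IsSporadic A → ∃ B ∈ L, CombEq A B.2

end Pool.Agent.SimpArr
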