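import Pool.Agent.P.MP_0b4c38_co.Growth

/-! Simplicial root systems: the gluing lemma and the recognition of type `B`. -/

set_option autoImplicit false

open Classical

namespace Pool.Agent.SimpArr

variable {V : Type} [AddCommGroup V] [Module ℝ V] {ι : Type}
variable {R : Set V} {S : Finset ι} {κ : Fam ι V}

theorem glue (hR : Sys R) (h : IsCh R S κ) {c t0 t1 : ι} {A : Finset ι}
    (hS : S = insert c (insert t0 A)) (hct : c ≠ t0) (hcA : c ∉ A) (htA : t0 ∉ A) (ht1 : t1 ∈ A)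
    (hsep : Sep R S κ {c} A)
    (hA : ∀ ρ ∈ R, κ.x c ρ = 0 → 0 < κ.x t0 ρ → κ.x t1 ρ = κ.x t0 ρ ∨ ∀ i ∈ A, κ.x i ρ = 0)
    (h01 : κ.B t0 + κ.B t1 ∈ R) {l : ℝ} (hcl : κ.B c + l • κ.B t0 ∈ R)
    (hC : ∀ ρ ∈ R, Sup S κ {c, t0, t1} ρ → 0 < κ.x c ρ → κ.x t0 ρ ≤ l * κ.x c ρ) :
    ∀ ρ ∈ R, 0 < κ.x c ρ → κ.x t0 ρ ≤ l * κ.x c ρ := by
  have hcS : c ∈ S := by rw [hS]; simp
  have h0S : t0 ∈ S := by rw [hS]; simp
  have hAS : ∀ i ∈ A, i ∈ S := fun i hi => by rw [hS]; simp [hi]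
  have h1S : t1 ∈ S := hAS t1 ht1
  have hA0 : ∀ i ∈ A, i ≠ t0 := fun i hi e => htA (e ▸ hi)
  have hAc : ∀ i ∈ A, i ≠ c := fun i hi e => hcA (e ▸ hi)
  have hmem : ∀ i ∈ S, i = c ∨ i = t0 ∨ i ∈ A := fun i hi => by
    rw [hS] at hi
    simpa using hi
  obtain ⟨κ', co, h', -, hB, hx, hx0⟩ := cross hR h h0S
  have her : S.erase t0 = insert c A := by
    ext i
    simp only [Finset.mem_erase, Finset.mem_insert]
    constructor
    · rintro ⟨h1, h2⟩
      rcases hmem i h2 with h3 | h3 | h3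
      · exact Or.inl h3
      · exact absurd h3 h1
      · exact Or.inr h3
    · rintro (rfl | h1)
      · exact ⟨hct, hcS⟩
      · exact ⟨hA0 i h1, hAS i h1⟩
  -- the coefficients on `A`
  have hcoA : ∀ i ∈ A, 0 < co i → i = t1 ∧ co i = 1 := by
    intro i hi hp
    have hm := h'.mem i (hAS i hi)
    rw [(hB i (hAS i hi) (hA0 i hi)).2] at hm
    have e0 : κ.x t0 (κ.B i + co i • κ.B t0) = co i := by
      simp [h.x_self h0S, h.x_ne h0S (hAS i hi) (hA0 i hi).symm]
    rcases hA _ hm (by simp [h.x_ne hcS (hAS i hi) (hAc i hi).symm, h.x_ne hcS h0S hct])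
      (by rwa [e0]) with h1 | h1
    · rw [e0] at h1
      by_cases hi1 : i = t1
      · subst hi1
        refine ⟨rfl, ?_⟩
        simpa [h.x_self h1S, h.x_ne h1S h0S (hA0 i hi)] using h1.symm
      · exfalso
        simp [h.x_ne h1S (hAS i hi) (Ne.symm hi1), h.x_ne h1S h0S (hA0 t1 ht1)] at h1
        exact hp.ne h1
    · have := h1 i hi
      simp [h.x_self (hAS i hi), h.x_ne (hAS i hi) h0S (hA0 i hi)] at this
  have hco0 : ∀ i ∈ A, i ≠ t1 → co i = 0 := fun i hi hi1 => by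
    by_contra hne
    exact hi1 (hcoA i hi (lt_of_le_of_ne (hB i (hAS i hi) (hA0 i hi)).1 (Ne.symm hne))).1
  have hx1 : ∀ ρ ∈ R, κ'.x t0 ρ = co c * κ.x c ρ + co t1 * κ.x t1 ρ - κ.x t0 ρ := by
    intro ρ hρ
    rw [hx0 ρ hρ, her, Finset.sum_insert hcA, Finset.sum_eq_single t1]
    · intro i hi hi1
      rw [hco0 i hi hi1, zero_mul]
    · intro hn
      exact absurd ht1 hn
  have hco1 : co t1 = 1 := by
    have e1 := h'.nonneg h01 h1S (by
      rw [hx t1 h1S (hA0 t1 ht1)]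
      simp [h.x_self h1S, h.x_ne h1S h0S (hA0 t1 ht1)]) t0 h0S
    rw [hx1 _ h01] at e1
    simp [h.x_self h1S, h.x_self h0S, h.x_ne h1S h0S (hA0 t1 ht1), h.x_ne hcS h0S hct,
      h.x_ne hcS h1S (hAc t1 ht1).symm, h.x_ne h0S h1S (hA0 t1 ht1).symm] at e1
    exact (hcoA t1 ht1 (by linarith)).2
  have hcoc : co c = l := by
    apply le_antisymm
    · have hm := h'.mem c hcS
      rw [(hB c hcS hct).2] at hm
      have := hC _ hm (by
        intro i hi hi'
        simp only [Finset.mem_insert, Finset.mem_singleton, not_or] at hi'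
        simp [h.x_ne hi hcS hi'.1, h.x_ne hi h0S hi'.2.1])
        (by simp [h.x_self hcS, h.x_ne hcS h0S hct])
      simpa [h.x_self hcS, h.x_self h0S, h.x_ne hcS h0S hct, h.x_ne h0S hcS hct.symm] using this
    · have e1 := h'.nonneg hcl hcS (by
        rw [hx c hcS hct]
        simp [h.x_self hcS, h.x_ne hcS h0S hct]) t0 h0S
      rw [hx1 _ hcl] at e1
      simpa [h.x_self hcS, h.x_self h0S, h.x_ne hcS h0S hct, h.x_ne h0S hcS hct.symm,
        h.x_ne h1S h0S (hA0 t1 ht1), h.x_ne h1S hcS (hAc t1 ht1)] using e1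
  rw [hco1, hcoc] at hx1
  simp only [one_mul] at hx1
  have hnadj : ∀ i ∈ A, i ≠ t1 → ¬ Adj R S κ i t0 := by
    rintro i hi hi1 ⟨-, ρ, hρ, p1, p2, hs⟩
    have ec : κ.x c ρ = 0 := hs c hcS (by simp [(hAc i hi).symm, hct])
    have e1 : κ.x t1 ρ = 0 := hs t1 h1S (by simp [Ne.symm hi1, hA0 t1 ht1])
    rcases hA ρ hρ ec p2 with h1 | h1
    · linarith
    · linarith [h1 i hi]
  have hsep' : Sep R S κ' {c} A := by
    rintro c' hc' i hi ⟨-, ρ, hρ, p1, p2, hs⟩
    obtain rfl : c = c' := (Finset.mem_singleton.mp hc').symm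
    rw [hx c hcS hct] at p1
    rw [hx i (hAS i hi) (hA0 i hi)] at p2
    have e0 : κ'.x t0 ρ = 0 := hs t0 h0S (by simp [hct.symm, (hA0 i hi).symm])
    have hs' : ∀ j ∈ S, j ≠ c → j ≠ i → j ≠ t0 → κ.x j ρ = 0 := fun j hj h1 h2 h3 => by
      rw [← hx j hj h3]
      exact hs j hj (by simp [h1, h2])
    by_cases hi1 : i = t1
    · subst hi1
      have := hC ρ hρ (by
        intro j hj hj'
        simp only [Finset.mem_insert, Finset.mem_singleton, not_or] at hj'
        exact hs' j hj hj'.1 hj'.2.2 hj'.2.1) p1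
      rw [hx1 ρ hρ] at e0
      linarith
    · have hsp : Sep R S κ {i} {c, t0} := by
        intro i' hi' j hj
        rw [Finset.mem_singleton.mp hi']
        rcases Finset.mem_insert.mp hj with rfl | hj
        · exact fun ha => hsep j (Finset.mem_singleton_self _) i hi ha.symm
        · rw [Finset.mem_singleton.mp hj]
          exact hnadj i hi hi1
      have := sup_of_sep hR h (A := {i}) (A' := {c, t0})
        (by simp [hAc i hi, hA0 i hi]) hsp hρ (by
          intro j hj hj'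
          simp only [Finset.mem_union, Finset.mem_insert, Finset.mem_singleton, not_or] at hj'
          exact hs' j hj hj'.2.1 hj'.1 hj'.2.2) (hAS i hi) (Finset.mem_singleton_self _) p2.ne'
      exact p1.ne' (this c hcS (by simp [(hAc i hi).symm]))
  obtain ⟨β, hβ, b1, b2, b3⟩ := prod hR h' h0S (A := A) (hsep'.symm.mono subset_rfl (by
    intro j hj
    rw [her] at hj
    simp only [Finset.mem_sdiff, Finset.mem_insert] at hj
    exact Finset.mem_singleton.mpr (hj.1.resolve_right hj.2)))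
  have bc : κ.x c β = 0 := by rw [← hx c hcS hct]; exact b2 c hcS hct hcA
  have b4 : κ.x t1 β ≤ 1 := by
    rw [hx1 β hβ, bc] at b1
    by_contra hn
    rcases hA β hβ bc (by linarith [not_le.mp hn]) with h1 | h1
    · linarith
    · linarith [h1 t1 ht1, not_le.mp hn]
  intro ρ hρ hp
  have e0 := h'.nonneg hρ hcS (by rwa [hx c hcS hct]) t0 h0S
  rcases e0.lt_or_eq with e1 | e1
  · have e2 := b3 ρ hρ t1 h1S (hA0 t1 ht1) ht1 e1
    rw [hx t1 h1S (hA0 t1 ht1), hx t1 h1S (hA0 t1 ht1)] at e2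
    have e3 : κ'.x t0 ρ * κ.x t1 β ≤ κ'.x t0 ρ := by nlinarith
    have e4 := hx1 ρ hρ
    linarith
  · have := sup_of_sep hR h' (A := {c}) (A' := A) (by simpa using hcA) hsep' hρ (by
      intro j hj hj'
      simp only [Finset.mem_union, Finset.mem_singleton, not_or] at hj'
      rcases hmem j hj with h1 | h1 | h1
      · exact absurd h1 hj'.1
      · rw [h1]; exact e1.symm
      · exact absurd h1 hj'.2) hcS (Finset.mem_singleton_self _)
      (by rw [hx c hcS hct]; exact hp.ne')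
    have e2 := this t1 h1S (by simp [hAc t1 ht1])
    rw [hx t1 h1S (hA0 t1 ht1)] at e2
    have e4 := hx1 ρ hρ
    linarith

namespace BType

variable {m : ℕ} {e : ℕ → V} {y : ℕ → V →ₗ[ℝ] ℝ}

/-- Sum of the coordinates over a set of indices. -/
noncomputable def sm (I : Finset ℕ) (y : ℕ → V →ₗ[ℝ] ℝ) : V →ₗ[ℝ] ℝ := ∑ p ∈ I, y p

theorem sm_apply (I : Finset ℕ) (v : V) : sm I y v = ∑ p ∈ I, y p v := by
  simp [sm, LinearMap.sum_apply]

theorem sm_e (h : Smp R m e y) {I : Finset ℕ} (hI : I ⊆ Finset.range m) {q : ℕ} (hq : q < m) :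
    sm I y (e q) = if q ∈ I then 1 else 0 := by
  rw [sm_apply, Finset.sum_congr rfl fun p hp => h.dual p (Finset.mem_range.mp (hI hp)) q hq,
    Finset.sum_ite_eq']

theorem tot_e (h : Smp R m e y) {q : ℕ} (hq : q < m) : sm (Finset.range m) y (e q) = 1 := by
  rw [sm_e h subset_rfl hq, if_pos (Finset.mem_range.mpr hq)]

theorem pos' (h : Smp R m e y) {ρ : V} (hρ : ρ ∈ R) (hp : 0 < sm (Finset.range m) y ρ) {p : ℕ}
    (hp' : p < m) : 0 ≤ y p ρ := h.pos ρ hρ (by rwa [← sm_apply]) p hp'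

theorem neg' (h : Smp R m e y) {ρ : V} (hρ : ρ ∈ R) (hp : sm (Finset.range m) y ρ < 0) {p : ℕ}
    (hp' : p < m) : y p ρ ≤ 0 := by
  have := pos' h (h.sys.neg_mem hρ) (by rw [map_neg]; linarith) hp'
  rw [map_neg] at this
  linarith

/-- A permutation of the indices preserving `range m`. -/
def Pres (m : ℕ) (σ : Equiv.Perm ℕ) : Prop := ∀ i, σ i < m ↔ i < m

theorem Pres.sum {M : Type} [AddCommMonoid M] {σ : Equiv.Perm ℕ} (hσ : Pres m σ) (f : ℕ → M) :
    ∑ p ∈ Finset.range m, f (σ p) = ∑ p ∈ Finset.range m, f p :=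
  Finset.sum_equiv σ (fun i => by simp [hσ i]) fun _ _ => rfl

theorem Pres.symm_lt {σ : Equiv.Perm ℕ} (hσ : Pres m σ) {p : ℕ} (hp : p < m) : σ.symm p < m := by
  rw [← hσ, Equiv.apply_symm_apply]
  exact hp

theorem Pres.sm {σ : Equiv.Perm ℕ} (hσ : Pres m σ) (v : V) :
    sm (Finset.range m) (fun i => y (σ i)) v = sm (Finset.range m) y v := by
  rw [sm_apply, sm_apply]
  exact hσ.sum fun p => y p v

theorem perm (h : Smp R m e y) {σ : Equiv.Perm ℕ} (hσ : Pres m σ) :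
    Smp R m (fun i => e (σ i)) (fun i => y (σ i)) where
  sys := h.sys
  dual := fun p hp q hq => by
    rw [h.dual _ ((hσ p).mpr hp) _ ((hσ q).mpr hq)]
    simp
  repr := fun ρ hρ => by
    rw [hσ.sum fun p => y p ρ • e p]
    exact h.repr ρ hρ
  root := fun p hp q hq hpq => h.root _ ((hσ p).mpr hp) _ ((hσ q).mpr hq) (σ.injective.ne hpq)
  zero := fun ρ hρ h0 => by
    rw [hσ.sum fun p => y p ρ] at h0
    obtain ⟨p, hp, q, hq, c, hc⟩ := h.zero ρ hρ h0
    exact ⟨σ.symm p, hσ.symm_lt hp, σ.symm q, hσ.symm_lt hq, c, by simpa using hc⟩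
  vert := fun p hp => h.vert _ ((hσ p).mpr hp)
  pos := fun ρ hρ h0 p hp => by
    rw [hσ.sum fun p => y p ρ] at h0
    exact h.pos ρ hρ h0 _ ((hσ p).mpr hp)

theorem Pres.step {σ : Equiv.Perm ℕ} (hσ : Pres m σ) {j b : ℕ} (hj : j < m) (hb : b < m) :
    ∃ τ : Equiv.Perm ℕ, Pres m τ ∧ τ j = b ∧ ∀ i, i ≠ j → σ i ≠ b → τ i = σ i := by
  refine ⟨σ * Equiv.swap j (σ.symm b), fun i => ?_, by simp, fun i h1 h2 => ?_⟩
  · rw [Equiv.Perm.mul_apply, hσ, Equiv.swap_apply_def]
    have := hσ.symm_lt hb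
    split_ifs with h1 h2
    · rw [h1]; exact ⟨fun _ => hj, fun _ => this⟩
    · rw [h2]; exact ⟨fun _ => this, fun _ => hj⟩
    · rfl
  · rw [Equiv.Perm.mul_apply, Equiv.swap_apply_of_ne_of_ne h1]
    rintro rfl
    simp at h2

theorem exists_perm2 {k q : ℕ} (hk : k < m) (hq : q < m) (hkq : k ≠ q) :
    ∃ σ : Equiv.Perm ℕ, Pres m σ ∧ σ 0 = k ∧ σ 1 = q := by
  obtain ⟨σ, h1, h2, -⟩ := Pres.step (m := m) (σ := 1) (fun _ => Iff.rfl) (j := 0) (by omega) hk
  obtain ⟨τ, h3, h4, h5⟩ := h1.step (j := 1) (by omega) hq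
  exact ⟨τ, h3, by rw [h5 0 (by omega) (by rwa [h2]), h2], h4⟩

theorem exists_perm3 {k q r : ℕ} (hk : k < m) (hq : q < m) (hr : r < m) (hkq : k ≠ q)
    (hkr : k ≠ r) (hqr : q ≠ r) :
    ∃ σ : Equiv.Perm ℕ, Pres m σ ∧ σ 0 = k ∧ σ 1 = q ∧ σ 2 = r := by
  obtain ⟨σ, h1, h2, h2'⟩ := exists_perm2 hk hq hkq
  obtain ⟨τ, h3, h4, h5⟩ := h1.step (j := 2) (by omega) hr
  exact ⟨τ, h3, by rw [h5 0 (by omega) (by rwa [h2]), h2],
    by rw [h5 1 (by omega) (by rwa [h2']), h2'], h4⟩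

/-- The standard chamber. -/
noncomputable def ch (m : ℕ) (e : ℕ → V) (y : ℕ → V →ₗ[ℝ] ℝ) : Fam ℕ V :=
  ⟨fun i => if i = 0 then e 0 else e i - e (i - 1), fun i => sm (Finset.Ico i m) y⟩

theorem ch_B0 : (ch m e y).B 0 = e 0 := rfl

theorem ch_B (i : ℕ) : (ch m e y).B (i + 1) = e (i + 1) - e i := rfl

theorem ch_x (i : ℕ) : (ch m e y).x i = sm (Finset.Ico i m) y := rfl

theorem Ico_e (h : Smp R m e y) (i : ℕ) {q : ℕ} (hq : q < m) :
    sm (Finset.Ico i m) y (e q) = if i ≤ q then 1 else 0 := by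
  rw [sm_e h (fun p hp => Finset.mem_range.mpr (Finset.mem_Ico.mp hp).2) hq]
  simp [hq]

theorem Ico_succ {i : ℕ} (hi : i < m) (v : V) :
    sm (Finset.Ico i m) y v = y i v + sm (Finset.Ico (i + 1) m) y v := by
  rw [sm_apply, sm_apply, Finset.sum_eq_sum_Ico_succ_bot hi]

theorem tot_eq (hm : 0 < m) (v : V) :
    sm (Finset.range m) y v = y 0 v + sm (Finset.Ico 1 m) y v := by
  rw [Finset.range_eq_Ico]
  exact Ico_succ hm v

theorem sum_B (n : ℕ) : ∑ i ∈ Finset.range (n + 1), (ch m e y).B i = e n := by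
  induction n with
  | zero => simp [ch_B0]
  | succ n ih => rw [Finset.sum_range_succ, ih, ch_B]; abel

theorem abel_sum (a : ℕ → ℝ) (n : ℕ) :
    ∑ i ∈ Finset.range n, (∑ j ∈ Finset.Ico i n, a j) • (ch m e y).B i =
      ∑ p ∈ Finset.range n, a p • e p := by
  induction n with
  | zero => simp
  | succ n ih =>
    have : ∀ i ∈ Finset.range (n + 1), (∑ j ∈ Finset.Ico i (n + 1), a j) • (ch m e y).B i =
        (∑ j ∈ Finset.Ico i n, a j) • (ch m e y).B i + a n • (ch m e y).B i := by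
      intro i hi
      rw [Finset.sum_Ico_succ_top (Nat.lt_succ_iff.mp (Finset.mem_range.mp hi)), add_smul]
    rw [Finset.sum_congr rfl this, Finset.sum_add_distrib, ← Finset.smul_sum, sum_B,
      Finset.sum_range_succ, ih, Finset.sum_range_succ]
    simp

theorem isCh (h : Smp R m e y) : IsCh R (Finset.range m) (ch m e y) where
  dual := fun i _ j hj => by
    have hj := Finset.mem_range.mp hj
    rcases j with _ | j
    · rw [ch_B0, ch_x, Ico_e h i hj]
      simp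
    · rw [ch_B, ch_x, map_sub, Ico_e h i hj, Ico_e h i (by omega)]
      split_ifs <;> first | omega | simp
  mem := fun i hi => by
    have hi := Finset.mem_range.mp hi
    rcases i with _ | i
    · exact h.vert 0 hi
    · exact h.root _ hi _ (by omega) (by omega)
  repr := fun ρ hρ => by
    simp only [ch_x, sm_apply]
    rw [abel_sum fun p => y p ρ]
    exact h.repr ρ hρ
  sign := fun ρ hρ => by
    simp only [ch_x]
    rcases lt_trichotomy (sm (Finset.range m) y ρ) 0 with h0 | h0 | h0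
    · refine Or.inr fun i _ => ?_
      rw [sm_apply]
      exact Finset.sum_nonpos fun p hp => neg' h hρ h0 (Finset.mem_Ico.mp hp).2
    · obtain ⟨p, hp, q, hq, c, rfl⟩ := h.zero ρ hρ (by rwa [← sm_apply])
      simp only [map_smul, map_sub, Ico_e h _ hp, Ico_e h _ hq, smul_eq_mul]
      rcases le_total p q with h1 | h1 <;> rcases le_total c 0 with h2 | h2
      · refine Or.inl fun i _ => ?_
        split_ifs <;> first | omega | linarith
      · refine Or.inr fun i _ => ?_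
        split_ifs <;> first | omega | linarith
      · refine Or.inr fun i _ => ?_
        split_ifs <;> first | omega | linarith
      · refine Or.inl fun i _ => ?_
        split_ifs <;> first | omega | linarith
    · refine Or.inl fun i _ => ?_
      rw [sm_apply]
      exact Finset.sum_nonneg fun p hp => pos' h hρ h0 (Finset.mem_Ico.mp hp).2

/-- Crossing the wall `e 0` of the standard chamber. -/
theorem cross0 (h : Smp R m e y) (hm : 2 ≤ m) :
    ∃ (κ : Fam ℕ V) (co : ℝ), IsCh R (Finset.range m) κ ∧ 1 ≤ co ∧ κ.B 0 = -e 0 ∧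
      κ.B 1 = e 1 + (co - 1) • e 0 ∧ (∀ i, 1 ≤ i → i + 1 < m → κ.B (i + 1) = e (i + 1) - e i) ∧
      (∀ i, 1 ≤ i → i < m → ∀ v, κ.x i v = sm (Finset.Ico i m) y v) ∧
      ∀ ρ ∈ R, κ.x 0 ρ = co * sm (Finset.Ico 1 m) y ρ - sm (Finset.range m) y ρ := by
  have h0 : 0 ∈ Finset.range m := Finset.mem_range.mpr (by omega)
  have h1 : 1 ∈ Finset.range m := Finset.mem_range.mpr (by omega)
  obtain ⟨κ, co, h', hB0, hB, hx, hx0⟩ := cross h.sys (isCh h) h0
  have hz : ∀ i, 1 ≤ i → i + 1 < m → co (i + 1) = 0 := by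
    intro i hi hi'
    obtain ⟨c1, c2⟩ := hB (i + 1) (Finset.mem_range.mpr hi') (by omega)
    by_contra hne
    have hp : 0 < co (i + 1) := lt_of_le_of_ne c1 (Ne.symm hne)
    have hm' := h'.mem (i + 1) (Finset.mem_range.mpr hi')
    rw [c2, ch_B, ch_B0] at hm'
    have := pos' h hm' (by
      simpa [tot_e h hi', tot_e h (show i < m by omega), tot_e h (show 0 < m by omega)] using hp)
      (show i < m by omega)
    rw [map_add, map_sub, map_smul, h.dual i (by omega) _ hi', h.dual i (by omega) i (by omega),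
      h.dual i (by omega) 0 (by omega), if_neg (by omega), if_pos rfl, if_neg (by omega)] at this
    norm_num at this
  have hx0' : ∀ ρ ∈ R, κ.x 0 ρ = co 1 * sm (Finset.Ico 1 m) y ρ - sm (Finset.range m) y ρ := by
    intro ρ hρ
    rw [hx0 ρ hρ, Finset.sum_eq_single 1, ch_x, ch_x, Finset.range_eq_Ico]
    · intro j hj hj1
      simp only [Finset.mem_erase] at hj
      obtain ⟨hj0, hj⟩ := hj
      obtain ⟨i, rfl⟩ : ∃ i, j = i + 1 := ⟨j - 1, by omega⟩
      rw [hz i (by omega) (Finset.mem_range.mp hj), zero_mul]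
    · intro hn
      exact absurd (by simp only [Finset.mem_erase]; exact ⟨one_ne_zero, h1⟩) hn
  refine ⟨κ, co 1, h', ?_, hB0, ?_, fun i hi hi' => ?_,
    fun i hi hi' v => hx i (Finset.mem_range.mpr hi') (by omega) v, hx0'⟩
  · have hm' := h.vert 1 (by omega)
    have := h'.nonneg hm' h1 (by
      rw [hx 1 h1 one_ne_zero, ch_x, Ico_e h 1 (by omega)]
      simp) 0 h0
    rw [hx0' _ hm', Ico_e h 1 (by omega), tot_e h (by omega)] at this
    simpa using this
  · rw [(hB 1 h1 one_ne_zero).2, ch_B, ch_B0, sub_smul, one_smul]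
    abel
  · rw [(hB (i + 1) (Finset.mem_range.mpr hi') (by omega)).2, hz i hi hi', ch_B, zero_smul,
      add_zero]

/-- The roots nearest to the vertex `k`. -/
def Near (R : Set V) (m : ℕ) (e : ℕ → V) (y : ℕ → V →ₗ[ℝ] ℝ) (k : ℕ) (lam : ℝ) : Prop :=
  0 < lam ∧ lam ≤ 1 ∧ (∀ q < m, q ≠ k → e k + lam • (e q - e k) ∈ R) ∧
    ∀ ρ ∈ R, sm (Finset.range m) y ρ = 1 → y k ρ = 1 ∨ y k ρ ≤ 1 - lam

theorem near01 (h : Smp R m e y) (hm : 2 ≤ m) :
    ∃ lam : ℝ, 0 < lam ∧ lam ≤ 1 ∧ e 0 + lam • (e 1 - e 0) ∈ R ∧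
      ∀ ρ ∈ R, sm (Finset.range m) y ρ = 1 → y 0 ρ = 1 ∨ y 0 ρ ≤ 1 - lam := by
  obtain ⟨κ, co, h', hco, -, hB1, -, hx, hx0⟩ := cross0 h hm
  have h0 : 0 ∈ Finset.range m := Finset.mem_range.mpr (by omega)
  have h1 : 1 ∈ Finset.range m := Finset.mem_range.mpr (by omega)
  have hp : 0 < co := by linarith
  refine ⟨co⁻¹, inv_pos.mpr hp, inv_le_one_of_one_le₀ hco, ?_, fun ρ hρ ht => ?_⟩
  · have := h.sys.smul _ (h'.mem 1 h1) co⁻¹ (inv_pos.mpr hp).ne'
    rw [hB1] at this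
    have e1 : e 0 + co⁻¹ • (e 1 - e 0) = co⁻¹ • (e 1 + (co - 1) • e 0) := by
      rw [smul_add, smul_smul, mul_sub, inv_mul_cancel₀ hp.ne', mul_one, sub_smul, one_smul,
        smul_sub]
      abel
    rwa [e1]
  · have e1 := tot_eq (y := y) (show 0 < m by omega) ρ
    have e2 : 0 ≤ sm (Finset.Ico 1 m) y ρ := by
      rw [sm_apply]
      exact Finset.sum_nonneg fun p hp =>
        pos' h hρ (by rw [ht]; exact one_pos) (Finset.mem_Ico.mp hp).2
    rcases e2.lt_or_eq with e3 | e3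
    · right
      have := h'.nonneg hρ h1 (by rwa [hx 1 le_rfl (by omega)]) 0 h0
      rw [hx0 ρ hρ, ht] at this
      have e4 : co⁻¹ ≤ sm (Finset.Ico 1 m) y ρ := by
        rw [inv_le_iff_one_le_mul₀ hp]
        linarith
      linarith
    · left
      linarith

theorem near2 (h : Smp R m e y) {k q : ℕ} (hk : k < m) (hq : q < m) (hkq : k ≠ q) :
    ∃ lam : ℝ, 0 < lam ∧ lam ≤ 1 ∧ e k + lam • (e q - e k) ∈ R ∧
      ∀ ρ ∈ R, sm (Finset.range m) y ρ = 1 → y k ρ = 1 ∨ y k ρ ≤ 1 - lam := by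
  obtain ⟨σ, hσ, rfl, rfl⟩ := exists_perm2 hk hq hkq
  have := near01 (perm h hσ) (by omega)
  simpa only [hσ.sm] using this

theorem tot_edge (h : Smp R m e y) {k q : ℕ} (hk : k < m) (hq : q < m) (lam : ℝ) :
    sm (Finset.range m) y (e k + lam • (e q - e k)) = 1 := by
  simp [tot_e h hk, tot_e h hq]

theorem y_edge (h : Smp R m e y) {k q p : ℕ} (hk : k < m) (hq : q < m) (hp : p < m) (lam : ℝ) :
    y p (e k + lam • (e q - e k)) =
      (if p = k then 1 else 0) + lam * ((if p = q then 1 else 0) - if p = k then 1 else 0) := by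
  simp only [map_add, map_smul, map_sub, h.dual p hp k hk, h.dual p hp q hq, smul_eq_mul]

theorem near (h : Smp R m e y) {k q : ℕ} (hk : k < m) (hq : q < m) (hkq : k ≠ q) :
    ∃ lam : ℝ, Near R m e y k lam := by
  obtain ⟨lam, h1, h2, h3, h4⟩ := near2 h hk hq hkq
  refine ⟨lam, h1, h2, fun q' hq' hq'k => ?_, h4⟩
  obtain ⟨lam', h1', -, h3', h4'⟩ := near2 h hk hq' hq'k.symm
  have e1 := h4 _ h3' (tot_edge h hk hq' _)
  have e2 := h4' _ h3 (tot_edge h hk hq _)
  rw [y_edge h hk hq' hk, if_pos rfl, if_neg hq'k.symm] at e1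
  rw [y_edge h hk hq hk, if_pos rfl, if_neg hkq] at e2
  have : lam = lam' := by
    rcases e1 with e1 | e1 <;> rcases e2 with e2 | e2 <;> linarith
  rwa [this]

theorem Near.perm {σ : Equiv.Perm ℕ} (hσ : Pres m σ) {k : ℕ} {lam : ℝ}
    (hn : Near R m e y (σ k) lam) : Near R m (fun i => e (σ i)) (fun i => y (σ i)) k lam := by
  obtain ⟨h1, h2, h3, h4⟩ := hn
  refine ⟨h1, h2, fun q hq hqk => h3 _ ((hσ q).mpr hq) (σ.injective.ne hqk), ?_⟩
  simpa only [hσ.sm] using h4

theorem Near.add (h : Smp R m e y) {k q : ℕ} (hn : Near R m e y k (1 / 2)) (hq : q < m)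
    (hqk : q ≠ k) : e k + e q ∈ R := by
  have := h.sys.smul _ (hn.2.2.1 q hq hqk) 2 two_ne_zero
  have e1 : e k + e q = (2 : ℝ) • (e k + (1 / 2 : ℝ) • (e q - e k)) := by module
  rwa [e1]

/-- The subsystem of the points halfway to the vertex `0`. -/
theorem sub_smp (h : Smp R (m + 1) e y) (hn : Near R (m + 1) e y 0 (1 / 2)) :
    Smp {ρ | ρ ∈ R ∧ (sm (Finset.range (m + 1)) y - (2 : ℝ) • y 0) ρ = 0} m
      (fun i => e 0 + e (i + 1)) (fun i => y (i + 1)) := by
  have hd : ∀ p < m, ∀ q < m, y (p + 1) (e 0 + e (q + 1)) = if p = q then 1 else 0 := by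
    intro p hp q hq
    rw [map_add, h.dual _ (by omega) 0 (by omega), h.dual _ (by omega) _ (by omega)]
    simp
  have hs : ∀ v, sm (Finset.range (m + 1)) y v = ∑ p ∈ Finset.range m, y (p + 1) v + y 0 v :=
    fun v => by rw [sm_apply, Finset.sum_range_succ']
  have hk : ∀ v, (sm (Finset.range (m + 1)) y - (2 : ℝ) • y 0) v = 0 ↔
      ∑ p ∈ Finset.range m, y (p + 1) v = y 0 v := fun v => by
    rw [LinearMap.sub_apply, LinearMap.smul_apply, hs, smul_eq_mul]
    constructor <;> intro h <;> linarith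
  have h0 : ∀ q < m, y 0 (e (q + 1)) = 0 := fun q hq => by
    rw [h.dual 0 (by omega) _ (by omega), if_neg (by omega)]
  have h00 : y 0 (e 0) = 1 := by rw [h.dual 0 (by omega) 0 (by omega), if_pos rfl]
  refine ⟨h.sys.ker _, hd, fun ρ hρ => ?_, fun p hp q hq hpq => ⟨?_, ?_⟩, fun ρ hρ hz => ?_,
    fun p hp => ⟨hn.add h (by omega) (by omega), ?_⟩, fun ρ hρ hp p hp' => ?_⟩
  · have e1 := (hk ρ).mp hρ.2
    conv_lhs => rw [h.repr ρ hρ.1, Finset.sum_range_succ', ← e1]
    simp only [smul_add, Finset.sum_add_distrib, Finset.sum_smul]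
    abel
  · rw [add_sub_add_left_eq_sub]
    exact h.root _ (by omega) _ (by omega) (by omega)
  · simp [tot_e h (show p + 1 < m + 1 by omega), tot_e h (show q + 1 < m + 1 by omega),
      h0 p hp, h0 q hq]
  · have e1 := (hk ρ).mp hρ.2
    rw [hz] at e1
    obtain ⟨p, hp, q, hq, c, hc⟩ := h.zero ρ hρ.1 (by rw [← sm_apply, hs, hz, ← e1, add_zero])
    have hne := h.sys.ne ρ hρ.1
    have hc0 : c ≠ 0 := by rintro rfl; simp at hc; exact hne hc
    have hpq : p ≠ q := by rintro rfl; simp at hc; exact hne hc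
    rw [hc, map_smul, map_sub, h.dual 0 (by omega) p hp, h.dual 0 (by omega) q hq] at e1
    have hp0 : p ≠ 0 := by
      rintro rfl
      simp [hpq] at e1
      exact hc0 e1.symm
    have hq0 : q ≠ 0 := by
      rintro rfl
      simp [hp0.symm, hc0] at e1
    obtain ⟨p, rfl⟩ : ∃ i, p = i + 1 := ⟨p - 1, by omega⟩
    obtain ⟨q, rfl⟩ : ∃ i, q = i + 1 := ⟨q - 1, by omega⟩
    exact ⟨p, by omega, q, by omega, c, by rw [hc, add_sub_add_left_eq_sub]⟩
  · simp [tot_e h (show p + 1 < m + 1 by omega), tot_e h (show 0 < m + 1 by omega), h0 p hp, h00]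
    norm_num
  · have e1 := (hk ρ).mp hρ.2
    exact pos' h hρ.1 (by rw [hs, ← e1]; linarith) (by omega)

theorem sub012 (h : Smp R m e y) (hm : 3 ≤ m) (hn : Near R m e y 0 (1 / 2))
    (hno : ∀ μ : ℝ, 0 < μ → μ < 1 → e 0 + e 1 + μ • (e 2 - e 1) ∉ R) :
    ∀ ρ ∈ R, sm (Finset.range m) y ρ = 1 → y 0 ρ = 1 / 2 → y 1 ρ = 0 ∨ y 1 ρ = 1 / 2 := by
  obtain ⟨m, rfl⟩ : ∃ n, m = n + 1 := ⟨m - 1, by omega⟩
  obtain ⟨μ, h1, h2, h3, h4⟩ := near01 (sub_smp h hn) (by omega)
  have hμ : μ = 1 := by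
    by_contra hne
    apply hno μ h1 (lt_of_le_of_ne h2 hne)
    have := h3.1
    simp only [zero_add, add_sub_add_left_eq_sub] at this
    exact this
  intro ρ hρ ht hy
  have e0 := pos' h hρ (by rw [ht]; exact one_pos) (show 1 < m + 1 by omega)
  have := h4 ((2 : ℝ) • ρ) ⟨h.sys.smul _ hρ _ two_ne_zero, by simp [ht, hy]⟩ (by
    have e1 := ht
    rw [sm_apply, Finset.sum_range_succ', hy] at e1
    rw [map_smul, sm_apply, smul_eq_mul]
    linarith)
  simp only [zero_add, map_smul, smul_eq_mul, hμ] at this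
  rcases this with e1 | e1
  · right; linarith
  · left; linarith

theorem sub3 (h : Smp R m e y) {k q r : ℕ} (hk : k < m) (hq : q < m) (hr : r < m) (hkq : k ≠ q)
    (hkr : k ≠ r) (hqr : q ≠ r) (hn : Near R m e y k (1 / 2))
    (hno : ∀ μ : ℝ, 0 < μ → μ < 1 → e k + e q + μ • (e r - e q) ∉ R) :
    ∀ ρ ∈ R, sm (Finset.range m) y ρ = 1 → y k ρ = 1 / 2 → y q ρ = 0 ∨ y q ρ = 1 / 2 := by
  obtain ⟨σ, hσ, rfl, rfl, rfl⟩ := exists_perm3 hk hq hr hkq hkr hqr
  have := sub012 (perm h hσ) (by omega) (hn.perm hσ) hno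
  simpa only [hσ.sm] using this

theorem norm_mem (h : Smp R m e y) {ρ : V} (hρ : ρ ∈ R) (hp : 0 < sm (Finset.range m) y ρ) :
    (sm (Finset.range m) y ρ)⁻¹ • ρ ∈ R ∧
      sm (Finset.range m) y ((sm (Finset.range m) y ρ)⁻¹ • ρ) = 1 :=
  ⟨h.sys.smul _ hρ _ (inv_pos.mpr hp).ne', by
    rw [map_smul, smul_eq_mul, inv_mul_cancel₀ hp.ne']⟩

theorem int012 (h : Smp R m e y) (hm : 3 ≤ m) (hn : Near R m e y 0 (1 / 2))
    (hmid : ∀ ρ ∈ R, sm (Finset.range m) y ρ = 1 → y 0 ρ = 1 / 2 → y 1 ρ = 0 ∨ y 1 ρ = 1 / 2)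
    (h3 : ∀ ρ ∈ R, sm (Finset.range m) y ρ = 1 → (∀ p < m, p ≠ 0 → p ≠ 1 → p ≠ 2 → y p ρ = 0) →
      y 0 ρ = 0 ∨ y 0 ρ = 1 / 2 ∨ y 0 ρ = 1) :
    ∀ ρ ∈ R, sm (Finset.range m) y ρ = 1 → y 0 ρ = 0 ∨ y 0 ρ = 1 / 2 ∨ y 0 ρ = 1 := by
  obtain ⟨κ, co, h', hco, hB0, hB1, hB, hx, hx0⟩ := cross0 h (by omega)
  have h0 : 0 ∈ Finset.range m := Finset.mem_range.mpr (by omega)
  have h1 : 1 ∈ Finset.range m := Finset.mem_range.mpr (by omega)
  have t0 := tot_e h (show 0 < m by omega)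
  have t1 := tot_e h (show 1 < m by omega)
  have h00 : y 0 (e 0) = 1 := by rw [h.dual 0 (by omega) 0 (by omega), if_pos rfl]
  have h01 : y 0 (e 1) = 0 := by rw [h.dual 0 (by omega) 1 (by omega), if_neg (by omega)]
  have hco2 : co = 2 := by
    apply le_antisymm
    · have hm' := h'.mem 1 h1
      rw [hB1] at hm'
      have e1 : sm (Finset.range m) y (e 1 + (co - 1) • e 0) = co := by simp [t0, t1]
      have hp : 0 < co := by linarith
      obtain ⟨e2, e3⟩ := norm_mem h hm' (by rwa [e1])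
      have e4 := hn.2.2.2 _ e2 e3
      rw [e1] at e4
      simp only [map_smul, map_add, h00, h01, smul_eq_mul, mul_one, zero_add, mul_sub,
        inv_mul_cancel₀ hp.ne'] at e4
      have e5 := inv_pos.mpr hp
      rcases e4 with e4 | e4
      · linarith
      · have e6 : 1 / 2 ≤ co⁻¹ := by linarith
        rw [le_inv_comm₀ (by norm_num) hp] at e6
        linarith
    · have hm' := hn.add h (show 1 < m by omega) one_ne_zero
      have e1 : sm (Finset.Ico 1 m) y (e 0 + e 1) = 1 := by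
        rw [map_add, Ico_e h 1 (by omega), Ico_e h 1 (by omega)]
        simp
      have := h'.nonneg hm' h1 (by rw [hx 1 le_rfl (by omega), e1]; exact one_pos) 0 h0
      rw [hx0 _ hm', e1, map_add, t0, t1] at this
      linarith
  subst hco2
  have hx0' : ∀ ρ ∈ R, κ.x 0 ρ = sm (Finset.range m) y ρ - 2 * y 0 ρ := fun ρ hρ => by
    rw [hx0 ρ hρ, tot_eq (by omega)]
    ring
  have hx1' : ∀ v, κ.x 1 v = sm (Finset.range m) y v - y 0 v := fun v => by
    rw [hx 1 le_rfl (by omega), tot_eq (by omega)]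
    ring
  have key := glue h.sys h' (c := 0) (t0 := 1) (t1 := 2) (A := Finset.Ico 2 m) (l := 1)
    (by
      ext i
      simp only [Finset.mem_insert, Finset.mem_range, Finset.mem_Ico]
      omega) (by omega) (by simp) (by simp) (by simp; omega)
    (by
      intro i hi j hj ha
      obtain rfl := Finset.mem_singleton.mp hi
      obtain ⟨j1, j2⟩ := Finset.mem_Ico.mp hj
      obtain ⟨d, hd, hm'⟩ := h'.add_of_adj h.sys h0 (Finset.mem_range.mpr j2) ha
      obtain ⟨i, rfl⟩ : ∃ i, j = i + 1 := ⟨j - 1, by omega⟩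
      rw [hB0, hB i (by omega) j2] at hm'
      have := neg' h hm' (by simp [t0, tot_e h j2, tot_e h (show i < m by omega)]) j2
      rw [map_add, map_neg, map_smul, map_sub, h.dual _ j2 0 (by omega), h.dual _ j2 _ j2,
        h.dual _ j2 i (by omega), if_neg (by omega), if_pos rfl, if_neg (by omega)] at this
      norm_num at this
      linarith)
    (by
      intro ρ hρ e0 e1
      rw [hx0' ρ hρ] at e0
      have e1' := e1
      rw [hx1'] at e1'
      have hp : 0 < sm (Finset.range m) y ρ := by linarith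
      obtain ⟨e2, e3⟩ := norm_mem h hρ hp
      have e4 := hmid _ e2 e3 (by
        rw [map_smul, smul_eq_mul, inv_mul_eq_iff_eq_mul₀ hp.ne']
        linarith)
      simp only [map_smul, smul_eq_mul, inv_mul_eq_iff_eq_mul₀ hp.ne'] at e4
      have e5 := Ico_succ (y := y) (show 1 < m by omega) ρ
      rw [← hx 1 le_rfl (by omega), ← hx 2 (by omega) (by omega)] at e5
      rcases e4 with e4 | e4
      · left
        linarith
      · right
        intro i hi
        obtain ⟨j1, j2⟩ := Finset.mem_Ico.mp hi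
        have e6 : κ.x 2 ρ = 0 := by rw [hx1'] at e5; linarith
        rw [hx 2 (by omega) (by omega), sm_apply, Finset.sum_eq_zero_iff_of_nonneg
          fun p hp' => pos' h hρ hp (Finset.mem_Ico.mp hp').2] at e6
        rw [hx i (by omega) j2, sm_apply]
        exact Finset.sum_eq_zero fun p hp' => e6 p (by
          rw [Finset.mem_Ico] at hp' ⊢
          omega))
    (by
      rw [hB1, hB 1 le_rfl (by omega)]
      have e1 : e 1 + ((2 : ℝ) - 1) • e 0 + (e (1 + 1) - e 1) = e 0 + e 2 := by module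
      rw [e1]
      exact hn.add h (by omega) (by omega))
    (by
      rw [hB0, hB1]
      have e1 : -e 0 + (1 : ℝ) • (e 1 + ((2 : ℝ) - 1) • e 0) = e 1 := by module
      rw [e1]
      exact h.vert 1 (by omega))
    (by
      intro ρ hρ hs e0
      rw [hx0' ρ hρ] at e0 ⊢
      rw [hx1']
      rcases le_or_gt (sm (Finset.range m) y ρ) 0 with hp | hp
      · linarith
      · obtain ⟨e2, e3⟩ := norm_mem h hρ hp
        have hz : ∀ i, 3 ≤ i → sm (Finset.Ico i m) y ρ = 0 := by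
          intro i hi
          by_cases him : i < m
          · rw [← hx i (by omega) him]
            apply hs i (Finset.mem_range.mpr him)
            simp only [Finset.mem_insert, Finset.mem_singleton]
            omega
          · rw [Finset.Ico_eq_empty him, sm_apply, Finset.sum_empty]
        have e4 := h3 _ e2 e3 (by
          intro p hp' p0 p1 p2
          have e5 := Ico_succ (y := y) hp' ρ
          rw [hz p (by omega), hz (p + 1) (by omega), add_zero] at e5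
          rw [map_smul, ← e5, smul_zero])
        simp only [map_smul, smul_eq_mul, inv_mul_eq_iff_eq_mul₀ hp.ne'] at e4
        rcases e4 with e4 | e4 | e4 <;> linarith)
  intro ρ hρ ht
  rcases hn.2.2.2 ρ hρ ht with e1 | e1
  · exact Or.inr (Or.inr e1)
  · rcases e1.lt_or_eq with e2 | e2
    · left
      have := key ρ hρ (by rw [hx0' ρ hρ]; linarith)
      rw [hx0' ρ hρ, hx1'] at this
      have e0 := pos' h hρ (by rw [ht]; exact one_pos) (show 0 < m by omega)
      linarith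
    · exact Or.inr (Or.inl (by linarith))

theorem int3 (h : Smp R m e y) {k q r : ℕ} (hk : k < m) (hq : q < m) (hr : r < m) (hkq : k ≠ q)
    (hkr : k ≠ r) (hqr : q ≠ r) (hn : Near R m e y k (1 / 2))
    (hmid : ∀ ρ ∈ R, sm (Finset.range m) y ρ = 1 → y k ρ = 1 / 2 → y q ρ = 0 ∨ y q ρ = 1 / 2)
    (h3 : ∀ ρ ∈ R, sm (Finset.range m) y ρ = 1 → (∀ p < m, p ≠ k → p ≠ q → p ≠ r → y p ρ = 0) →
      y k ρ = 0 ∨ y k ρ = 1 / 2 ∨ y k ρ = 1) :
    ∀ ρ ∈ R, sm (Finset.range m) y ρ = 1 → y k ρ = 0 ∨ y k ρ = 1 / 2 ∨ y k ρ = 1 := by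
  obtain ⟨σ, hσ, rfl, rfl, rfl⟩ := exists_perm3 hk hq hr hkq hkr hqr
  have := int012 (perm h hσ) (by omega) (hn.perm hσ) (by simpa only [hσ.sm] using hmid) (by
    simp only [hσ.sm]
    intro ρ hρ ht hz
    refine h3 ρ hρ ht fun p hp p0 p1 p2 => ?_
    have := hz (σ.symm p) (hσ.symm_lt hp) (fun e => p0 (by rw [← e]; simp))
      (fun e => p1 (by rw [← e]; simp)) (fun e => p2 (by rw [← e]; simp))
    simpa using this)
  simpa only [hσ.sm] using this

theorem sum3 {ρ : V} {k q r : ℕ} (hk : k < m) (hq : q < m) (hr : r < m) (hkq : k ≠ q)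
    (hkr : k ≠ r) (hqr : q ≠ r) (hz : ∀ p < m, p ≠ k → p ≠ q → p ≠ r → y p ρ = 0) :
    sm (Finset.range m) y ρ = y k ρ + y q ρ + y r ρ := by
  rw [sm_apply, ← Finset.sum_subset (s₁ := {k, q, r})]
  · rw [Finset.sum_insert (by simp [hkq, hkr]), Finset.sum_pair hqr, add_assoc]
  · intro p hp
    simp only [Finset.mem_insert, Finset.mem_singleton] at hp
    rcases hp with rfl | rfl | rfl <;> simpa
  · intro p hp hp'
    simp only [Finset.mem_insert, Finset.mem_singleton, not_or] at hp'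
    exact hz p (Finset.mem_range.mp hp) hp'.1 hp'.2.1 hp'.2.2

theorem le_tot (h : Smp R m e y) {ρ : V} (hρ : ρ ∈ R) (ht : sm (Finset.range m) y ρ = 1)
    {I : Finset ℕ} (hI : ∀ p ∈ I, p < m) : ∑ p ∈ I, y p ρ ≤ 1 := by
  rw [← ht, sm_apply]
  exact Finset.sum_le_sum_of_subset_of_nonneg (fun p hp => Finset.mem_range.mpr (hI p hp))
    fun p hp _ => pos' h hρ (by rw [ht]; exact one_pos) (Finset.mem_range.mp hp)

theorem classify (h : Smp R m e y) {ρ : V} (hρ : ρ ∈ R) (ht : sm (Finset.range m) y ρ = 1)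
    (hy : ∀ p < m, y p ρ = 0 ∨ y p ρ = 1 / 2 ∨ y p ρ = 1) :
    (∃ p < m, ρ = e p) ∨ ∃ p < m, ∃ q < m, p ≠ q ∧ ρ = (1 / 2 : ℝ) • (e p + e q) := by
  have h0 : ∀ p < m, 0 ≤ y p ρ := fun p hp => pos' h hρ (by rw [ht]; exact one_pos) hp
  have hex : ∀ I : Finset ℕ, (∀ p ∈ I, p < m) → ∑ p ∈ I, y p ρ ≠ 1 →
      ∃ q < m, q ∉ I ∧ y q ρ ≠ 0 := by
    intro I hI hne
    by_contra hc
    push Not at hc
    apply hne
    rw [← ht, sm_apply]
    exact Finset.sum_subset (fun p hp => Finset.mem_range.mpr (hI p hp))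
      fun p hp hp' => hc p (Finset.mem_range.mp hp) hp'
  have hrep : ∀ I : Finset ℕ, (∀ p ∈ I, p < m) → ∑ p ∈ I, y p ρ = 1 →
      ρ = ∑ p ∈ I, y p ρ • e p := by
    intro I hI he
    conv_lhs => rw [h.repr ρ hρ]
    symm
    refine Finset.sum_subset (fun p hp => Finset.mem_range.mpr (hI p hp)) fun p hp hp' => ?_
    have hp := Finset.mem_range.mp hp
    have := le_tot h hρ ht (I := insert p I) (by
      intro q hq
      rcases Finset.mem_insert.mp hq with rfl | hq
      · exact hp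
      · exact hI q hq)
    rw [Finset.sum_insert hp', he] at this
    rw [le_antisymm (by linarith) (h0 p hp), zero_smul]
  by_cases h1 : ∃ p < m, y p ρ = 1
  · obtain ⟨p, hp, e1⟩ := h1
    refine Or.inl ⟨p, hp, ?_⟩
    have := hrep {p} (by simpa using hp) (by simpa using e1)
    rwa [Finset.sum_singleton, e1, one_smul] at this
  · push Not at h1
    have hh : ∀ p < m, y p ρ ≠ 0 → y p ρ = 1 / 2 := fun p hp hne =>
      ((hy p hp).resolve_left hne).resolve_right (h1 p hp)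
    obtain ⟨p, hp, -, e1⟩ := hex ∅ (by simp) (by simp)
    obtain ⟨q, hq, hqp, e2⟩ := hex {p} (by simpa using hp) (by simpa using h1 p hp)
    have hpq : p ≠ q := fun e => hqp (by simp [e])
    refine Or.inr ⟨p, hp, q, hq, hpq, ?_⟩
    have := hrep {p, q} (by simp [hp, hq]) (by
      rw [Finset.sum_pair hpq, hh p hp e1, hh q hq e2]
      norm_num)
    rwa [Finset.sum_pair hpq, hh p hp e1, hh q hq e2, ← smul_add] at this

end BType

open BType in
theorem btype {m : ℕ} {e : ℕ → V} {y : ℕ → V →ₗ[ℝ] ℝ} (h : Smp R m e y) {I1 I2 : Finset ℕ}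
    (h1 : I1 ⊆ Finset.range m) (h2 : I2 ⊆ Finset.range m) (hd : Disjoint I1 I2)
    (c1 : 2 ≤ I1.card) (c2 : 2 ≤ I2.card) {φ : ℝ} (hφ0 : 0 < φ) (hφ1 : φ < 1)
    (hs : ∀ ρ ∈ R, ∑ p ∈ Finset.range m, y p ρ = 1 → (∀ p < m, p ∉ I1 → p ∉ I2 → y p ρ = 0) →
      ∑ p ∈ I2, y p ρ = 0 ∨ ∑ p ∈ I2, y p ρ = φ ∨ ∑ p ∈ I2, y p ρ = 1)
    (hφ : ∃ ρ ∈ R, ∑ p ∈ Finset.range m, y p ρ = 1 ∧ (∀ p < m, p ∉ I1 → p ∉ I2 → y p ρ = 0) ∧
      ∑ p ∈ I2, y p ρ = φ) :
    φ = 1 / 2 ∧ (∀ p < m, ∀ q < m, p ≠ q → e p + e q ∈ R) ∧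
      ∀ ρ ∈ R, ∑ p ∈ Finset.range m, y p ρ = 1 →
        (∃ p < m, ρ = e p) ∨ ∃ p < m, ∃ q < m, p ≠ q ∧ ρ = (1 / 2 : ℝ) • (e p + e q) := by
  simp only [← sm_apply] at hs hφ ⊢
  obtain ⟨a, ha, a', ha', haa⟩ := Finset.one_lt_card.mp c1
  obtain ⟨b, hb, b', hb', hbb⟩ := Finset.one_lt_card.mp c2
  have l1 : ∀ p ∈ I1, p < m := fun p hp => Finset.mem_range.mp (h1 hp)
  have l2 : ∀ p ∈ I2, p < m := fun p hp => Finset.mem_range.mp (h2 hp)
  have n12 : ∀ p ∈ I1, p ∉ I2 := fun p hp => Finset.disjoint_left.mp hd hp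
  have ne12 : ∀ p ∈ I1, ∀ q ∈ I2, p ≠ q := fun p hp q hq e => n12 p hp (e ▸ hq)
  have hnear : ∀ k < m, ∃ lam, Near R m e y k lam := by
    intro k hk
    by_cases hka : k = a
    · exact near h hk (l1 a' ha') (hka ▸ haa)
    · exact near h hk (l1 a ha) hka
  choose! lam hlam using hnear
  have hedge : ∀ k < m, ∀ q < m, q ≠ k → lam q = 1 ∨ lam q ≤ 1 - lam k := by
    intro k hk q hq hqk
    have := (hlam k hk).2.2.2 _ ((hlam q hq).2.2.1 k hk hqk.symm) (tot_edge h hq hk _)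
    rw [y_edge h hq hk hk, if_neg hqk.symm, if_pos rfl] at this
    simpa using this
  have hlt : ∀ k < m, lam k ≠ 1 := by
    intro k hk e1
    have hall : ∀ q < m, lam q = 1 := by
      intro q hq
      by_cases hqk : q = k
      · rwa [hqk]
      · refine (hedge k hk q hq hqk).resolve_right fun e2 => ?_
        linarith [(hlam q hq).1]
    obtain ⟨ρ, hρ, ht, -, e2⟩ := hφ
    have h0 : ∀ p < m, 0 ≤ y p ρ := fun p hp => pos' h hρ (by rw [ht]; exact one_pos) hp
    rw [sm_apply] at e2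
    obtain ⟨p, hp, e3⟩ := Finset.exists_ne_zero_of_sum_ne_zero (e2 ▸ hφ0.ne')
    have e4 : y p ρ = 1 := ((hlam p (l2 p hp)).2.2.2 ρ hρ ht).resolve_right fun e5 => by
      rw [hall p (l2 p hp)] at e5
      exact e3 (le_antisymm (by linarith) (h0 p (l2 p hp)))
    have := Finset.single_le_sum (f := fun p => y p ρ) (fun q hq => h0 q (l2 q hq)) hp
    simp only [e2, e4] at this
    linarith
  have hze : ∀ q, q ∈ I1 ∨ q ∈ I2 → ∀ p < m, p ∉ I1 → p ∉ I2 → y p (e q) = 0 := by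
    intro q hq p hp p1 p2
    rw [h.dual p hp q (hq.elim (l1 q) (l2 q)), if_neg]
    rintro rfl
    exact hq.elim p1 p2
  have s1 : ∀ p ∈ I1, sm I2 y (e p) = 0 := fun p hp => by
    rw [sm_e h h2 (l1 p hp), if_neg (n12 p hp)]
  have s2 : ∀ p ∈ I2, sm I2 y (e p) = 1 := fun p hp => by rw [sm_e h h2 (l2 p hp), if_pos hp]
  have lam1 : ∀ k ∈ I1, lam k = φ := by
    intro k hk
    have := hs _ ((hlam k (l1 k hk)).2.2.1 b (l2 b hb) (ne12 k hk b hb).symm)
      (tot_edge h (l1 k hk) (l2 b hb) _) (by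
        intro p hp p1 p2
        simp [hze k (Or.inl hk) p hp p1 p2, hze b (Or.inr hb) p hp p1 p2])
    simp only [map_add, map_smul, map_sub, s1 k hk, s2 b hb, smul_eq_mul, zero_add, sub_zero,
      mul_one] at this
    exact (this.resolve_left (hlam k (l1 k hk)).1.ne').resolve_right (hlt k (l1 k hk))
  have lam2 : ∀ k ∈ I2, lam k = 1 - φ := by
    intro k hk
    have := hs _ ((hlam k (l2 k hk)).2.2.1 a (l1 a ha) (ne12 a ha k hk))
      (tot_edge h (l2 k hk) (l1 a ha) _) (by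
        intro p hp p1 p2
        simp [hze k (Or.inr hk) p hp p1 p2, hze a (Or.inl ha) p hp p1 p2])
    simp only [map_add, map_smul, map_sub, s1 a ha, s2 k hk, smul_eq_mul] at this
    have e1 := (hlam k (l2 k hk)).1
    rcases this with e2 | e2 | e2
    · exact absurd (by linarith) (hlt k (l2 k hk))
    · linarith
    · linarith
  have hhalf : φ = 1 / 2 := by
    have e1 := (hedge a (l1 a ha) a' (l1 a' ha') haa.symm).resolve_left (hlt _ (l1 a' ha'))
    have e2 := (hedge b (l2 b hb) b' (l2 b' hb') hbb.symm).resolve_left (hlt _ (l2 b' hb'))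
    rw [lam1 a ha, lam1 a' ha'] at e1
    rw [lam2 b hb, lam2 b' hb'] at e2
    linarith
  subst hhalf
  have hf1 : ∀ k ∈ I1, Near R m e y k (1 / 2) := fun k hk => lam1 k hk ▸ hlam k (l1 k hk)
  have hfb : Near R m e y b (1 / 2) := by
    have := hlam b (l2 b hb)
    rwa [lam2 b hb, show (1 : ℝ) - 1 / 2 = 1 / 2 by norm_num] at this
  have htot3 : ∀ k < m, ∀ q < m, ∀ r < m, ∀ μ : ℝ,
      sm (Finset.range m) y ((1 / 2 : ℝ) • (e k + e q + μ • (e r - e q))) = 1 := by
    intro k hk q hq r hr μ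
    simp only [map_add, map_smul, map_sub, tot_e h hk, tot_e h hq, tot_e h hr, smul_eq_mul]
    ring
  have hs3 : ∀ k q r, k ∈ I1 ∨ k ∈ I2 → q ∈ I1 ∨ q ∈ I2 → r ∈ I1 ∨ r ∈ I2 → ∀ μ : ℝ,
      e k + e q + μ • (e r - e q) ∈ R →
      sm I2 y (e k + e q + μ • (e r - e q)) = 0 ∨ sm I2 y (e k + e q + μ • (e r - e q)) = 1 ∨
        sm I2 y (e k + e q + μ • (e r - e q)) = 2 := by
    intro k q r hk hq hr μ hm
    have := hs _ (h.sys.smul _ hm (1 / 2) (by norm_num))
      (htot3 k (hk.elim (l1 k) (l2 k)) q (hq.elim (l1 q) (l2 q)) r (hr.elim (l1 r) (l2 r)) μ) (by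
        intro p hp p1 p2
        simp [hze k hk p hp p1 p2, hze q hq p hp p1 p2, hze r hr p hp p1 p2])
    rw [map_smul, smul_eq_mul] at this
    rcases this with e1 | e1 | e1
    · left; linarith
    · right; left; linarith
    · right; right; linarith
  have int1 : ∀ k ∈ I1, ∀ r ∈ I1, k ≠ r → ∀ ρ ∈ R, sm (Finset.range m) y ρ = 1 →
      y k ρ = 0 ∨ y k ρ = 1 / 2 ∨ y k ρ = 1 := by
    intro k hk r hr hkr
    have hkb := ne12 k hk b hb
    have hrb := ne12 r hr b hb
    refine int3 h (l1 k hk) (l2 b hb) (l1 r hr) hkb hkr hrb.symm (hf1 k hk)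
      (sub3 h (l1 k hk) (l2 b hb) (l1 r hr) hkb hkr hrb.symm (hf1 k hk) fun μ m0 m1 hm => ?_)
      fun ρ hρ ht hz => ?_
    · have := hs3 k b r (Or.inl hk) (Or.inr hb) (Or.inl hr) μ hm
      simp only [map_add, map_smul, map_sub, s1 k hk, s1 r hr, s2 b hb, smul_eq_mul] at this
      rcases this with e1 | e1 | e1 <;> linarith
    · have e0 := sum3 (l1 k hk) (l2 b hb) (l1 r hr) hkb hkr hrb.symm hz
      rw [ht] at e0
      have h0 : ∀ p < m, 0 ≤ y p ρ := fun p hp => pos' h hρ (by rw [ht]; exact one_pos) hp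
      have e1 : sm I2 y ρ = y b ρ := by
        rw [sm_apply]
        refine Finset.sum_eq_single b (fun p hp hpb => ?_) fun hn => absurd hb hn
        exact hz p (l2 p hp) (ne12 k hk p hp).symm hpb (ne12 r hr p hp).symm
      have e2 := hs ρ hρ ht fun p hp p1 p2 => hz p hp (fun e => p1 (e ▸ hk))
        (fun e => p2 (e ▸ hb)) fun e => p1 (e ▸ hr)
      rw [e1] at e2
      have k0 := h0 k (l1 k hk)
      have r0 := h0 r (l1 r hr)
      rcases e2 with e2 | e2 | e2
      · rcases (hf1 k hk).2.2.2 ρ hρ ht with e3 | e3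
        · exact Or.inr (Or.inr e3)
        · rcases (hf1 r hr).2.2.2 ρ hρ ht with e4 | e4
          · left; linarith
          · right; left; linarith
      · rcases sub3 h (l2 b hb) (l1 k hk) (l2 b' hb') hkb.symm hbb (ne12 k hk b' hb') hfb
          (fun μ m0 m1 hm => by
            have := hs3 b k b' (Or.inr hb) (Or.inl hk) (Or.inr hb') μ hm
            simp only [map_add, map_smul, map_sub, s1 k hk, s2 b' hb', s2 b hb,
              smul_eq_mul] at this
            rcases this with e1 | e1 | e1 <;> linarith) ρ hρ ht e2 with e3 | e3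
        · exact Or.inl e3
        · exact Or.inr (Or.inl e3)
      · left; linarith
  have inta := int1 a ha a' ha' haa
  have inta' := int1 a' ha' a ha haa.symm
  have hf : ∀ k < m, Near R m e y k (1 / 2) := by
    intro k hk
    by_cases hka : k = a
    · exact hka ▸ hf1 a ha
    · have := inta _ ((hlam k hk).2.2.1 a (l1 a ha) (Ne.symm hka)) (tot_edge h hk (l1 a ha) _)
      rw [y_edge h hk (l1 a ha) (l1 a ha), if_neg (Ne.symm hka), if_pos rfl] at this
      simp only [zero_add, sub_zero, mul_one] at this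
      have e1 := (this.resolve_left (hlam k hk).1.ne').resolve_right (hlt k hk)
      exact e1 ▸ hlam k hk
  have int : ∀ k < m, ∀ ρ ∈ R, sm (Finset.range m) y ρ = 1 →
      y k ρ = 0 ∨ y k ρ = 1 / 2 ∨ y k ρ = 1 := by
    intro k hk
    by_cases hka : k = a
    · exact hka ▸ inta
    by_cases hka' : k = a'
    · exact hka' ▸ inta'
    refine int3 h hk (l1 a ha) (l1 a' ha') hka hka' haa (hf k hk)
      (sub3 h hk (l1 a ha) (l1 a' ha') hka hka' haa (hf k hk) fun μ m0 m1 hm => ?_)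
      fun ρ hρ ht hz => ?_
    · have := inta' _ (h.sys.smul _ hm (1 / 2) (by norm_num))
        (htot3 k hk a (l1 a ha) a' (l1 a' ha') μ)
      simp only [map_add, map_smul, map_sub, h.dual a' (l1 a' ha') k hk,
        h.dual a' (l1 a' ha') a (l1 a ha), h.dual a' (l1 a' ha') a' (l1 a' ha'),
        if_neg (Ne.symm hka'), if_neg haa.symm, if_true, smul_eq_mul] at this
      rcases this with e1 | e1 | e1 <;> linarith
    · have e0 := sum3 hk (l1 a ha) (l1 a' ha') hka hka' haa hz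
      rw [ht] at e0
      have k0 := pos' h hρ (by rw [ht]; exact one_pos) hk
      rcases inta ρ hρ ht with e1 | e1 | e1 <;> rcases inta' ρ hρ ht with e2 | e2 | e2 <;>
        first
        | (left; linarith)
        | (right; left; linarith)
        | (right; right; linarith)
  exact ⟨rfl, fun p hp q hq hpq => (hf p hp).add h hq hpq.symm,
    fun ρ hρ ht => classify h hρ ht fun p hp => int p hp ρ hρ ht⟩

end Pool.Agent.SimpArr
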