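import Pool.Agent.P.MP_0b4c38_co.BVBr2

/-! The chart around a line which lies in `m` planes. -/

set_option autoImplicit false

open Classical

namespace Pool.Agent.SimpArr.BV.Br

open Final

theorem exists_coord {A : Finset (Submodule ℝ (Fin 3 → ℝ))} (hA : IsArrangement A)
    {w : Fin 3 → ℝ} (hw : w ≠ 0) :
    ∃ e : ((ℝ × ℝ) × ℝ) ≃ₗ[ℝ] (Fin 3 → ℝ), e ((0, 0), 1) = w ∧ e ((0, 1), 0) ∈ Complement A := by
  obtain ⟨v, hv'⟩ := Submodule.exists_forall_notMem_of_forall_ne_top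
    (fun H : (insert (ℝ ∙ w) A : Finset _) => (H : Submodule ℝ (Fin 3 → ℝ))) fun H h => by
      rcases Finset.mem_insert.1 H.2 with h1 | h1
      · have h2 := finrank_span_singleton (K := ℝ) hw
        rw [← h1, h, finrank_top] at h2
        simp at h2
      · have h2 := hA.1 H h1
        rw [h, finrank_top] at h2
        simp at h2
  have hv : v ∈ Complement A := fun H hH => hv' ⟨H, Finset.mem_insert_of_mem hH⟩
  have h1 : LinearIndependent ℝ ![v, w] := by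
    rw [LinearIndependent.pair_iff]
    intro s t h
    have hs : s = 0 := by
      by_contra hn
      refine hv' ⟨_, Finset.mem_insert_self _ _⟩ (((ℝ ∙ w).smul_mem_iff hn).1 ?_)
      rw [eq_neg_of_add_eq_zero_left h]
      exact neg_mem (Submodule.smul_mem _ _ (Submodule.mem_span_singleton_self w))
    rw [hs, zero_smul, zero_add] at h
    exact ⟨hs, (smul_eq_zero.1 h).resolve_right hw⟩
  obtain ⟨x, hx⟩ := exists_linearIndependent_cons_of_lt_finrank h1 (by simp)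
  let L : ((ℝ × ℝ) × ℝ) →ₗ[ℝ] (Fin 3 → ℝ) :=
    { toFun := fun y => y.1.1 • x + y.1.2 • v + y.2 • w
      map_add' := fun y y' => by
        simp only [Prod.fst_add, Prod.snd_add, add_smul]
        abel
      map_smul' := fun c y => by
        simp only [Prod.smul_fst, Prod.smul_snd, smul_eq_mul, mul_smul, RingHom.id_apply,
          smul_add] }
  have hL : Function.Injective L := by
    rw [← LinearMap.ker_eq_bot, LinearMap.ker_eq_bot']
    rintro ⟨⟨a, b⟩, c⟩ hy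
    have := Fintype.linearIndependent_iff.1 hx ![a, b, c] (by
      rw [Fin.sum_univ_three]
      exact hy)
    have e1 : a = 0 := this 0
    have e2 : b = 0 := this 1
    have e3 : c = 0 := this 2
    rw [e1, e2, e3]
    rfl
  refine ⟨LinearMap.linearEquivOfInjective L hL (by simp), ?_, ?_⟩
  · simp [L]
  · simpa [L] using hv

/-- The chart: wires `P`, verticals `X`. -/
structure Crd (A : Finset (Submodule ℝ (Fin 3 → ℝ))) (e : ((ℝ × ℝ) × ℝ) ≃ₗ[ℝ] (Fin 3 → ℝ))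
    (P : Finset (ℝ × ℝ)) (X : Finset ℝ) : Prop where
  mem : ∀ H, H ∈ A ↔ (∃ x ∈ X, ∀ n z, e (n, z) ∈ H ↔ n.2 = x * n.1) ∨
    ∃ p ∈ P, ∀ n z, e (n, z) ∈ H ↔ z = p.1 * n.1 + p.2 * n.2
  root : ∀ g ∈ Rt A, (∃ x ∈ X, ∃ c : ℝ, c ≠ 0 ∧ ∀ n z, g (e (n, z)) = c * (n.2 - x * n.1)) ∨
    ∃ p ∈ P, ∃ c : ℝ, c ≠ 0 ∧ ∀ n z, g (e (n, z)) = c * (z - (p.1 * n.1 + p.2 * n.2))
  vert : ∀ x ∈ X, ∃ g ∈ Rt A, ∃ c : ℝ, c ≠ 0 ∧ ∀ n z, g (e (n, z)) = c * (n.2 - x * n.1)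
  wire : ∀ p ∈ P, ∃ g ∈ Rt A, ∃ c : ℝ, c ≠ 0 ∧
    ∀ n z, g (e (n, z)) = c * (z - (p.1 * n.1 + p.2 * n.2))

theorem exists_chart {A : Finset (Submodule ℝ (Fin 3 → ℝ))} (hA : IsArrangement A)
    {w : Fin 3 → ℝ} (hw : w ≠ 0) :
    ∃ e P X, Crd A e P X ∧ X.card = (A.filter fun H => w ∈ H).card ∧
      P.card + X.card = A.card := by
  obtain ⟨e, ew, ev⟩ := exists_coord hA hw
  have hlin : ∀ (g : Du 3) (n : ℝ × ℝ) (z : ℝ), g (e (n, z)) =
      n.1 * g (e ((1, 0), 0)) + n.2 * g (e ((0, 1), 0)) + z * g w := fun g n z => by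
    have : ((n, z) : (ℝ × ℝ) × ℝ) =
        n.1 • ((1, 0), 0) + n.2 • ((0, 1), 0) + z • ((0, 0), 1) := by simp
    rw [this, ← ew]
    simp only [map_add, map_smul, smul_eq_mul]
  have hV : ∀ H : Submodule ℝ (Fin 3 → ℝ), ∃ x : ℝ, H ∈ A → w ∈ H →
      ∀ n z, e (n, z) ∈ H ↔ n.2 = x * n.1 := fun H => by
    by_cases hH : H ∈ A
    · obtain ⟨g, hg, rfl⟩ := (mem_iff hA H).1 hH
      have h1 : g (e ((0, 1), 0)) ≠ 0 := ev _ hH
      refine ⟨-g (e ((1, 0), 0)) / g (e ((0, 1), 0)), fun _ h2 n z => ?_⟩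
      rw [LinearMap.mem_ker] at h2 ⊢
      rw [hlin g n z, h2, div_mul_eq_mul_div, eq_div_iff h1]
      constructor <;> intro h <;> linarith
    · exact ⟨0, fun h => (hH h).elim⟩
  have hW : ∀ H : Submodule ℝ (Fin 3 → ℝ), ∃ p : ℝ × ℝ, H ∈ A → w ∉ H →
      ∀ n z, e (n, z) ∈ H ↔ z = p.1 * n.1 + p.2 * n.2 := fun H => by
    by_cases hH : H ∈ A
    · obtain ⟨g, hg, rfl⟩ := (mem_iff hA H).1 hH
      refine ⟨(-g (e ((1, 0), 0)) / g w, -g (e ((0, 1), 0)) / g w), fun _ h2 n z => ?_⟩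
      rw [LinearMap.mem_ker] at h2 ⊢
      rw [hlin g n z, div_mul_eq_mul_div, div_mul_eq_mul_div, ← add_div, eq_div_iff h2]
      constructor <;> intro h <;> linarith
    · exact ⟨0, fun h => (hH h).elim⟩
  choose sl hsl using hV
  choose pt hpt using hW
  have hext : ∀ H H' : Submodule ℝ (Fin 3 → ℝ), (∀ n z, e (n, z) ∈ H ↔ e (n, z) ∈ H') → H = H' :=
    fun H H' h => Submodule.ext fun v => by
      obtain ⟨⟨n, z⟩, rfl⟩ := e.surjective v
      exact h n z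
  have hr1 : ∀ g ∈ Rt A, g w = 0 → ∃ c : ℝ, c ≠ 0 ∧
      ∀ n z, g (e (n, z)) = c * (n.2 - sl (LinearMap.ker g) * n.1) := fun g hg h => by
    have h1 : g (e ((1, sl (LinearMap.ker g)), 0)) = 0 := (hsl _ hg.2 h _ _).2 (by simp)
    rw [hlin] at h1
    refine ⟨g (e ((0, 1), 0)), ev _ hg.2, fun n z => ?_⟩
    rw [hlin g n z, h]
    simp only at h1
    linear_combination n.1 * h1
  have hr2 : ∀ g ∈ Rt A, g w ≠ 0 → ∀ n z, g (e (n, z)) =
      g w * (z - ((pt (LinearMap.ker g)).1 * n.1 + (pt (LinearMap.ker g)).2 * n.2)) :=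
    fun g hg h n z => by
    have h1 : g (e ((1, 0), (pt (LinearMap.ker g)).1)) = 0 := (hpt _ hg.2 h _ _).2 (by simp)
    have h2 : g (e ((0, 1), (pt (LinearMap.ker g)).2)) = 0 := (hpt _ hg.2 h _ _).2 (by simp)
    rw [hlin] at h1 h2
    rw [hlin g n z]
    simp only at h1 h2
    linear_combination n.1 * h1 + n.2 * h2
  have c1 : ((A.filter fun H => w ∈ H).image sl).card = (A.filter fun H => w ∈ H).card := by
    refine Finset.card_image_of_injOn fun H hH H' hH' h => hext _ _ fun n z => ?_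
    rw [Finset.mem_coe, Finset.mem_filter] at hH hH'
    rw [hsl _ hH.1 hH.2, hsl _ hH'.1 hH'.2, h]
  have c2 : ((A.filter fun H => w ∉ H).image pt).card = (A.filter fun H => w ∉ H).card := by
    refine Finset.card_image_of_injOn fun H hH H' hH' h => hext _ _ fun n z => ?_
    rw [Finset.mem_coe, Finset.mem_filter] at hH hH'
    rw [hpt _ hH.1 hH.2, hpt _ hH'.1 hH'.2, h]
  refine ⟨e, (A.filter fun H => w ∉ H).image pt, (A.filter fun H => w ∈ H).image sl,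
    ⟨fun H => ⟨fun hH => ?_, ?_⟩, fun g hg => ?_, fun x hx => ?_, fun p hp => ?_⟩, c1, ?_⟩
  · by_cases h : w ∈ H
    · exact Or.inl ⟨_, Finset.mem_image_of_mem _ (Finset.mem_filter.2 ⟨hH, h⟩), hsl _ hH h⟩
    · exact Or.inr ⟨_, Finset.mem_image_of_mem _ (Finset.mem_filter.2 ⟨hH, h⟩), hpt _ hH h⟩
  · rintro (⟨x, hx, h⟩ | ⟨p, hp, h⟩)
    · obtain ⟨H', hH', rfl⟩ := Finset.mem_image.1 hx
      rw [Finset.mem_filter] at hH'
      rw [hext H H' fun n z => by rw [h, hsl _ hH'.1 hH'.2]]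
      exact hH'.1
    · obtain ⟨H', hH', rfl⟩ := Finset.mem_image.1 hp
      rw [Finset.mem_filter] at hH'
      rw [hext H H' fun n z => by rw [h, hpt _ hH'.1 hH'.2]]
      exact hH'.1
  · by_cases h : g w = 0
    · exact Or.inl ⟨_, Finset.mem_image_of_mem _ (Finset.mem_filter.2 ⟨hg.2, h⟩), hr1 g hg h⟩
    · exact Or.inr ⟨_, Finset.mem_image_of_mem _ (Finset.mem_filter.2 ⟨hg.2, h⟩), _, h,
        hr2 g hg h⟩
  · obtain ⟨H, hH, rfl⟩ := Finset.mem_image.1 hx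
    rw [Finset.mem_filter] at hH
    obtain ⟨g, hg, rfl⟩ := (mem_iff hA H).1 hH.1
    exact ⟨g, hg, hr1 g hg hH.2⟩
  · obtain ⟨H, hH, rfl⟩ := Finset.mem_image.1 hp
    rw [Finset.mem_filter] at hH
    obtain ⟨g, hg, rfl⟩ := (mem_iff hA H).1 hH.1
    exact ⟨g, hg, _, hH.2, hr2 g hg hH.2⟩
  · rw [c1, c2, add_comm]
    exact Finset.card_filter_add_card_filter_not _

theorem Crd.tri {A : Finset (Submodule ℝ (Fin 3 → ℝ))} (hA : IsArrangement A)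
    (hs : IsSimplicial A) {e : ((ℝ × ℝ) × ℝ) ≃ₗ[ℝ] (Fin 3 → ℝ)} {P : Finset (ℝ × ℝ)}
    {X : Finset ℝ} (h : Crd A e P X) {n n' : ℝ × ℝ} (h1 : ∃ x ∈ X, n.2 = x * n.1)
    (h2 : ∃ x ∈ X, n'.2 = x * n'.1) (hd : n.1 * n'.2 - n.2 * n'.1 ≠ 0)
    (h3 : ∀ x ∈ X, 0 ≤ (n.2 - x * n.1) * (n'.2 - x * n'.1)) :
    Tri P (fun p => p.1 * n.1 + p.2 * n.2) fun p => p.1 * n'.1 + p.2 * n'.2 := by
  have hne : ∀ x : ℝ, n.2 - x * n.1 ≠ 0 ∨ n'.2 - x * n'.1 ≠ 0 := fun x => by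
    by_contra hn
    push Not at hn
    exact hd (by linear_combination n.1 * hn.2 - n'.1 * hn.1)
  have hwire : ∀ {g : Du 3} {p : ℝ × ℝ} {c : ℝ},
      (∀ n z, g (e (n, z)) = c * (z - (p.1 * n.1 + p.2 * n.2))) → ∀ a b z : ℝ,
      g (e (a • n + b • n', z)) =
        c * (z - (a * (p.1 * n.1 + p.2 * n.2) + b * (p.1 * n'.1 + p.2 * n'.2))) :=
    fun hg a b z => by
      rw [hg]
      simp only [Prod.fst_add, Prod.snd_add, Prod.smul_fst, Prod.smul_snd, smul_eq_mul]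
      ring
  have hvert : ∀ {g : Du 3} {x : ℝ} {c : ℝ},
      (∀ n z, g (e (n, z)) = c * (n.2 - x * n.1)) → ∀ a b z : ℝ,
      g (e (a • n + b • n', z)) = c * (n.2 - x * n.1) * a + c * (n'.2 - x * n'.1) * b :=
    fun hg a b z => by
      rw [hg]
      simp only [Prod.fst_add, Prod.snd_add, Prod.smul_fst, Prod.smul_snd, smul_eq_mul]
      ring
  refine tri_of hA hs (fun a b z => e (a • n + b • n', z)) (fun y => ?_) (fun g hg => ?_) ?_ ?_
    fun p hp => ?_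
  · obtain ⟨⟨x, z⟩, rfl⟩ := e.surjective y
    refine ⟨(x.1 * n'.2 - x.2 * n'.1) / (n.1 * n'.2 - n.2 * n'.1),
      (n.1 * x.2 - n.2 * x.1) / (n.1 * n'.2 - n.2 * n'.1), z, ?_⟩
    congr 2
    ext
    · simp only [Prod.fst_add, Prod.smul_fst, smul_eq_mul]
      rw [div_mul_eq_mul_div, div_mul_eq_mul_div, ← add_div, div_eq_iff hd]
      ring
    · simp only [Prod.snd_add, Prod.smul_snd, smul_eq_mul]
      rw [div_mul_eq_mul_div, div_mul_eq_mul_div, ← add_div, div_eq_iff hd]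
      ring
  · rcases h.root g hg with ⟨x, hx, c, hc, e1⟩ | ⟨p, hp, c, hc, e1⟩
    · refine Or.inr ⟨_, _, ?_, ?_, hvert e1⟩
      · have := mul_nonneg (mul_self_nonneg c) (h3 x hx)
        linarith
      · exact (hne x).imp (mul_ne_zero hc) (mul_ne_zero hc)
    · exact Or.inl ⟨p, hp, c, hc, hwire e1⟩
  · obtain ⟨x, hx, e0⟩ := h2
    obtain ⟨g, hg, c, hc, e1⟩ := h.vert x hx
    refine ⟨g, hg, c * (n.2 - x * n.1),
      mul_ne_zero hc ((hne x).resolve_right fun h => h (sub_eq_zero.2 e0)), fun a b z => ?_⟩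
    rw [hvert e1, e0]
    ring
  · obtain ⟨x, hx, e0⟩ := h1
    obtain ⟨g, hg, c, hc, e1⟩ := h.vert x hx
    refine ⟨g, hg, c * (n'.2 - x * n'.1),
      mul_ne_zero hc ((hne x).resolve_left fun h => h (sub_eq_zero.2 e0)), fun a b z => ?_⟩
    rw [hvert e1, e0]
    ring
  · obtain ⟨g, hg, c, hc, e1⟩ := h.wire p hp
    exact ⟨g, hg, c, hc, hwire e1⟩

theorem Crd.two {A : Finset (Submodule ℝ (Fin 3 → ℝ))} (hi : IsIrreducible A)
    {e : ((ℝ × ℝ) × ℝ) ≃ₗ[ℝ] (Fin 3 → ℝ)} {P : Finset (ℝ × ℝ)}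
    {X : Finset ℝ} (h : Crd A e P X) : 2 ≤ P.card := by
  by_contra hn
  obtain ⟨p, hp⟩ : ∃ p : ℝ × ℝ, ∀ q ∈ P, q = p := by
    rcases P.eq_empty_or_nonempty with rfl | ⟨p, hp⟩
    · exact ⟨0, by simp⟩
    · exact ⟨p, fun q hq => Finset.card_le_one.1 (by omega) q hq p hp⟩
  let f1 : ((ℝ × ℝ) × ℝ) →ₗ[ℝ] ℝ × ℝ := LinearMap.fst ℝ _ _
  let f2 : ((ℝ × ℝ) × ℝ) →ₗ[ℝ] ℝ := LinearMap.snd ℝ _ _ -
    (p.1 • LinearMap.fst ℝ ℝ ℝ + p.2 • LinearMap.snd ℝ ℝ ℝ) ∘ₗ LinearMap.fst ℝ _ _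
  have m1 : ∀ n z, e (n, z) ∈ LinearMap.ker (f1 ∘ₗ e.symm.toLinearMap) ↔ n = 0 := fun n z => by
    simp [f1]
  have m2 : ∀ n z, e (n, z) ∈ LinearMap.ker (f2 ∘ₗ e.symm.toLinearMap) ↔
      z = p.1 * n.1 + p.2 * n.2 := fun n z => by
    simp [f2, sub_eq_zero]
  refine hi ⟨LinearMap.ker (f1 ∘ₗ e.symm.toLinearMap), LinearMap.ker (f2 ∘ₗ e.symm.toLinearMap),
    ⟨?_, ?_⟩, fun hb => ?_, fun hb => ?_, fun H hH => ?_⟩
  · rw [Submodule.disjoint_def]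
    intro v h1 h2
    obtain ⟨⟨n, z⟩, rfl⟩ := e.surjective v
    rw [m1] at h1
    rw [m2, h1] at h2
    rw [h1, h2]
    simp
  · rw [codisjoint_iff, eq_top_iff]
    intro v _
    obtain ⟨⟨n, z⟩, rfl⟩ := e.surjective v
    refine Submodule.mem_sup.2 ⟨e (0, z - (p.1 * n.1 + p.2 * n.2)), (m1 _ _).2 rfl,
      e (n, p.1 * n.1 + p.2 * n.2), (m2 _ _).2 rfl, ?_⟩
    rw [← map_add]
    simp
  · have := (m1 0 1).2 rfl
    rw [hb, Submodule.mem_bot, e.map_eq_zero_iff] at this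
    simp at this
  · have := (m2 (1, 0) _).2 rfl
    rw [hb, Submodule.mem_bot, e.map_eq_zero_iff] at this
    simp at this
  · rcases (h.mem H).1 hH with ⟨x, -, h1⟩ | ⟨q, hq, h1⟩
    · refine Or.inl fun v hv => ?_
      obtain ⟨⟨n, z⟩, rfl⟩ := e.surjective v
      rw [m1] at hv
      rw [h1, hv]
      simp
    · refine Or.inr fun v hv => ?_
      obtain ⟨⟨n, z⟩, rfl⟩ := e.surjective v
      rw [m2] at hv
      rw [h1, hp q hq, hv]

end Pool.Agent.SimpArr.BV.Br
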