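import Pool.Agent.P.MP_0b4c38_co.BVIface
import Pool.Agent.P.MP_0b4c38_co.BVBr3

/-! The bridge to the planar model and the final identification. -/

set_option autoImplicit false

open Classical Real

namespace Pool.Agent.SimpArr.BV

namespace Br

variable {α β : P → ℝ}

theorem mix_div (x : P) {v w : ℝ} (h : 0 < v + w) :
    mix α β x (w / (v + w)) = (v * α x + w * β x) / (v + w) := by
  unfold mix
  field_simp
  ring

theorem loc_of_tri {A : Finset P} (h : Tri A α β)
    (inj : ∀ a b, α a = α b → β a = β b → a = b) : Loc A α β := by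
  refine ⟨inj, fun a ha h1 h2 c hc => ?_, fun a ha b hb hab h1 h2 h3 => ?_,
    fun s s0 s1 a ha b hb hab e h1 => ?_⟩
  · obtain ⟨q, hq, hm⟩ := h.star ⟨a, ha⟩
    exact (hm c hc).2.trans (h2 q hq (le_antisymm (h1 q hq) (hm a ha).1))
  · obtain ⟨p, hp, q, hq, p1, q1, pq, hu, hl⟩ := h.edge (z := (α a + α b) / 2)
      (fun p hp e => by rcases h1 p hp with h | h <;> linarith) ha hb (by linarith) (by linarith)
    have e1 : α p = α a := le_antisymm (hu a ha (by linarith)).1
      ((h1 p hp).resolve_right fun h => by linarith)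
    have e2 : α q = α b := le_antisymm ((h1 q hq).resolve_left fun h => by linarith)
      (hl b hb (by linarith)).1
    have d0 : 0 < α p - α q := by linarith
    have e3 : p = a := inj _ _ e1 (le_antisymm (by
      have := (hu a ha (by linarith)).2
      rw [← e1] at this
      exact le_of_mul_le_mul_left (by linarith) d0) (h2 p hp e1))
    have e4 : q = b := inj _ _ e2 (le_antisymm (h3 q hq e2) (by
      have := (hl b hb (by linarith)).2
      rw [← e2] at this
      exact le_of_mul_le_mul_left (by linarith) d0))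
    subst e3 e4
    have D : 0 < β q - β p + (α p - α q) := by linarith
    refine ⟨(α p - α q) / (β q - β p + (α p - α q)), div_pos d0 D,
      (div_le_one D).2 (by linarith), ?_, fun c hc hc' => ?_, fun c hc hc' => ?_⟩
    · rw [mix_div _ D, mix_div _ D]
      ring
    · rw [mix_div _ D, mix_div _ D]
      exact div_le_div_of_nonneg_right (hu c hc (by linarith)).2 D.le
    · rw [mix_div _ D, mix_div _ D]
      exact div_le_div_of_nonneg_right (by linarith [(hl c hc (by linarith)).2]) D.le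
  · have s2 : 0 < 1 - s := by linarith
    obtain ⟨t, ht, hm⟩ := h.star ⟨a, ha⟩
    have top : ∀ x ∈ A, mix α β t s ≤ mix α β x s → x = t := fun x hx hh => by
      unfold mix at hh
      have a1 := mul_nonneg s2.le (sub_nonneg.2 (hm x hx).1)
      have a2 := mul_nonneg s0.le (sub_nonneg.2 (hm x hx).2)
      exact inj _ _ (le_antisymm (hm x hx).1 (le_of_mul_le_mul_left (by linarith) s2))
        (le_antisymm (hm x hx).2 (le_of_mul_le_mul_left (by linarith) s0))
    have hz : mix α β a s < mix α β t s := by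
      by_contra hn
      exact hab ((top a ha (not_lt.1 hn)).trans (top b hb (e ▸ not_lt.1 hn)).symm)
    have hβ : β a < β b := lt_of_le_of_ne (h1 a ha rfl).2 fun hh => hab (inj _ _ (by
      unfold mix at e
      rw [hh] at e
      exact mul_left_cancel₀ s2.ne' (by linarith)) hh)
    obtain ⟨c, hc, p, hp, q, hq, c1, p1, q1, pq, cp, pc, cq, qc, hx⟩ :=
      h.bottom (z := mix α β a s) s2 s0 ha hb ht rfl e.symm hβ hz
    have za : (1 - s) * α a + s * β a = mix α β a s := rfl
    have zb : (1 - s) * α b + s * β b = mix α β a s := e.symm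
    have e3 : p = a := by
      have a1 := (h1 p hp p1).1
      have a2 := ((hx a ha).2 le_rfl).1
      have a3 : α a ≤ α p := by
        by_contra hn
        have a4 := mul_pos (sub_pos.2 (not_le.1 hn)) (sub_pos.2 (p1.trans_lt c1))
        have a5 := mul_le_mul_of_nonneg_left a2 s0.le
        have a6 : s * β a = s * β p - (1 - s) * (α a - α p) := by linarith
        have a7 : (α p - α c) * (s * β a) =
          (α p - α c) * (s * β p - (1 - s) * (α a - α p)) := by rw [a6]
        linarith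
      have a4 := le_antisymm a1 a3
      refine inj _ _ a4 (mul_left_cancel₀ s0.ne' ?_)
      rw [a4] at p1
      linarith
    have e4 : q = b := by
      have a1 := (h1 q hq q1).2
      have a2 := ((hx b hb).2 zb.le).2
      have a3 : β b ≤ β q := by
        by_contra hn
        have a4 := mul_pos (sub_pos.2 (not_le.1 hn)) (sub_pos.2 (q1.trans_lt c1))
        have a5 := mul_le_mul_of_nonneg_left a2 s2.le
        have a6 : (1 - s) * α b = (1 - s) * α q - s * (β b - β q) := by linarith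
        have a7 : (β q - β c) * ((1 - s) * α b) =
          (β q - β c) * ((1 - s) * α q - s * (β b - β q)) := by rw [a6]
        linarith
      have a4 := le_antisymm a1 a3
      refine inj _ _ (mul_left_cancel₀ s2.ne' ?_) a4
      rw [a4] at q1
      linarith
    subst e3 e4
    have D : 0 < β c - β p + (α p - α c) := by linarith
    have D' : 0 < β q - β c + (α c - α q) := by linarith
    refine ⟨c, hc, (α p - α c) / (β c - β p + (α p - α c)), (α c - α q) / (β q - β c + (α c - α q)),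
      div_nonneg (by linarith) D.le, (div_lt_iff₀ D).2 (by linarith),
      (lt_div_iff₀ D').2 (by linarith), (div_le_one D').2 (by linarith), c1, ?_, ?_,
      fun x hxA hh => ?_, fun x hxA hh => ?_⟩
    · rw [mix_div _ D, mix_div _ D]
      ring
    · rw [mix_div _ D', mix_div _ D']
      ring
    · rw [mix_div _ D, mix_div _ D, mix_div _ D', mix_div _ D']
      exact ⟨div_le_div_of_nonneg_right ((hx x hxA).1 hh).1 D.le,
        div_le_div_of_nonneg_right ((hx x hxA).1 hh).2 D'.le⟩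
    · rw [mix_div _ D, mix_div _ D, mix_div _ D', mix_div _ D']
      exact ⟨div_le_div_of_nonneg_right (by linarith [((hx x hxA).2 hh).1]) D.le,
        div_le_div_of_nonneg_right (by linarith [((hx x hxA).2 hh).2]) D'.le⟩

theorem Crd.model {A3 : Finset (Submodule ℝ (Fin 3 → ℝ))} (hA : IsArrangement A3)
    (hs : IsSimplicial A3) {e : ((ℝ × ℝ) × ℝ) ≃ₗ[ℝ] (Fin 3 → ℝ)} {A : Finset P}
    {X : Finset ℝ} (h : Crd A3 e A X) : Model A X := by
  rintro n n' ⟨h1, h2, hd, h3⟩
  unfold det at hd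
  refine loc_of_tri (h.tri hA hs h1.2 h2.2 hd fun x hx => ?_) fun a b e1 e2 => ?_
  · by_contra hn
    have hn' := not_le.1 hn
    have D : n.2 - x * n.1 - (n'.2 - x * n'.1) ≠ 0 := fun h0 => by
      rw [sub_eq_zero.1 h0] at hn'
      exact hn'.not_ge (mul_self_nonneg _)
    have D2 := mul_self_pos.2 D
    have es : (n.2 - x * n.1) / (n.2 - x * n.1 - (n'.2 - x * n'.1)) =
        (n.2 - x * n.1) * (n.2 - x * n.1 - (n'.2 - x * n'.1)) /
          ((n.2 - x * n.1 - (n'.2 - x * n'.1)) * (n.2 - x * n.1 - (n'.2 - x * n'.1))) :=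
      (mul_div_mul_right _ _ D).symm
    have s0 : 0 < (n.2 - x * n.1) / (n.2 - x * n.1 - (n'.2 - x * n'.1)) := by
      rw [es]
      exact div_pos (by linarith [mul_self_nonneg (n.2 - x * n.1)]) D2
    have s1 : (n.2 - x * n.1) / (n.2 - x * n.1 - (n'.2 - x * n'.1)) < 1 := by
      rw [es, div_lt_one D2]
      linarith [mul_self_nonneg (n'.2 - x * n'.1)]
    have s2 := div_mul_cancel₀ (n.2 - x * n.1) D
    generalize (n.2 - x * n.1) / (n.2 - x * n.1 - (n'.2 - x * n'.1)) = s at s0 s1 s2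
    refine h3 s s0 s1 ⟨fun h0 => ?_, x, hx, ?_⟩
    · have a1 := congrArg Prod.fst h0
      have a2 := congrArg Prod.snd h0
      simp only [Prod.fst_add, Prod.snd_add, Prod.smul_fst, Prod.smul_snd, smul_eq_mul,
        Prod.fst_zero, Prod.snd_zero] at a1 a2
      exact mul_ne_zero s0.ne' hd (by linear_combination n.1 * a2 - n.2 * a1)
    · simp only [Prod.fst_add, Prod.snd_add, Prod.smul_fst, Prod.smul_snd, smul_eq_mul]
      linarith
  · simp only [dot] at e1 e2
    ext
    · exact mul_left_cancel₀ hd (by linear_combination n'.2 * e1 - n.2 * e2)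
    · exact mul_left_cancel₀ hd (by linear_combination n.1 * e2 - n'.1 * e1)

theorem line {e1 e2 : P} (hd : det e1 e2 ≠ 0) (t : ℝ) :
    (sin t * e1.2 - cos t * e2.2, -(sin t * e1.1 - cos t * e2.1)) ≠ (0 : P) ∧
    ∀ x : ℝ, -(sin t * e1.1 - cos t * e2.1) = x * (sin t * e1.2 - cos t * e2.2) →
      ∀ n : P, n.2 = x * n.1 ↔ sin t * dot e1 n = cos t * dot e2 n := by
  have key : ¬ (sin t * e1.2 - cos t * e2.2 = 0 ∧ -(sin t * e1.1 - cos t * e2.1) = 0) := by
    rintro ⟨a1, a2⟩
    unfold det at hd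
    have b1 : sin t = 0 := mul_left_cancel₀ hd (by linear_combination -e2.1 * a1 - e2.2 * a2)
    have b2 : cos t = 0 := mul_left_cancel₀ hd (by linear_combination -e1.1 * a1 - e1.2 * a2)
    have := sin_sq_add_cos_sq t
    rw [b1, b2] at this
    simp at this
  refine ⟨fun h => key (Prod.mk_eq_zero.1 h), fun x hx n => ?_⟩
  have h0 : sin t * e1.2 - cos t * e2.2 ≠ 0 := fun h => key ⟨h, by rw [hx, h, mul_zero]⟩
  unfold dot
  refine ⟨fun h => ?_, fun h => mul_left_cancel₀ h0 ?_⟩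
  · rw [h]
    linear_combination -n.1 * hx
  · linear_combination h + n.1 * hx

theorem Crd.linReg {A3 : Finset (Submodule ℝ (Fin 3 → ℝ))}
    {e : ((ℝ × ℝ) × ℝ) ≃ₗ[ℝ] (Fin 3 → ℝ)} {A : Finset P} {X : Finset ℝ} (h : Crd A3 e A X)
    (hR : Reg A X) : LinReg A3 := by
  obtain ⟨M, e1, e2, b, hM, hd, hP, hT⟩ := hR
  let L : ((ℝ × ℝ) × ℝ) →ₗ[ℝ] (Fin 3 → ℝ) :=
    { toFun := fun y => ![dot e1 y.1, dot e2 y.1, y.2 - dot b y.1]
      map_add' := fun y y' => by
        ext i
        fin_cases i <;> simp [dot] <;> ring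
      map_smul' := fun c y => by
        ext i
        fin_cases i <;> simp [dot] <;> ring }
  have hL : Function.Injective L := by
    rw [← LinearMap.ker_eq_bot, LinearMap.ker_eq_bot']
    rintro ⟨⟨x, y⟩, z⟩ hy
    have a1 : e1.1 * x + e1.2 * y = 0 := congrFun hy 0
    have a2 : e2.1 * x + e2.2 * y = 0 := congrFun hy 1
    have a3 : z - (b.1 * x + b.2 * y) = 0 := congrFun hy 2
    unfold det at hd
    have b1 : x = 0 := mul_left_cancel₀ hd (by linear_combination e2.2 * a1 - e1.2 * a2)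
    have b2 : y = 0 := mul_left_cancel₀ hd (by linear_combination e1.1 * a2 - e2.1 * a1)
    rw [b1, b2] at a3 ⊢
    rw [show z = 0 by simpa using a3]
    rfl
  let T := LinearMap.linearEquivOfInjective L hL (by simp)
  have hall : ∀ (K : Submodule ℝ (Fin 3 → ℝ)) (Q : (Fin 3 → ℝ) → Prop), (∀ v, v ∈ K ↔ Q v) ↔
      ∀ n z, T (n, z) ∈ K ↔ Q ![dot e1 n, dot e2 n, z - dot b n] := fun K Q =>
    ⟨fun h n z => h _, fun h v => by
      obtain ⟨⟨n, z⟩, rfl⟩ := T.surjective v
      exact h n z⟩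
  let g := e.symm.trans T
  have hg : ∀ y, g (e y) = T y := fun y => by simp [g]
  let B := A3.image (Submodule.map (g : (Fin 3 → ℝ) →ₗ[ℝ] (Fin 3 → ℝ)))
  have hmap : ∀ (H : Submodule ℝ (Fin 3 → ℝ)) v,
      g v ∈ H.map (g : (Fin 3 → ℝ) →ₗ[ℝ] (Fin 3 → ℝ)) ↔ v ∈ H := fun H v => by
    rw [Submodule.mem_map_equiv, g.symm_apply_apply]
  have hB : ∀ K, K ∈ B ↔ (∃ x ∈ X, ∀ n z, T (n, z) ∈ K ↔ n.2 = x * n.1) ∨
      ∃ p ∈ A, ∀ n z, T (n, z) ∈ K ↔ z = p.1 * n.1 + p.2 * n.2 := fun K => by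
    have e0 : K ∈ B ↔ K.comap (g : (Fin 3 → ℝ) →ₗ[ℝ] (Fin 3 → ℝ)) ∈ A3 := by
      refine ⟨fun hK => ?_, fun hK => Finset.mem_image.2 ⟨_, hK,
        Submodule.map_comap_eq_of_surjective g.surjective _⟩⟩
      obtain ⟨H, hH, rfl⟩ := Finset.mem_image.1 hK
      rwa [Submodule.comap_map_eq_of_injective g.injective]
    rw [e0, h.mem]
    simp only [Submodule.mem_comap, LinearEquiv.coe_coe, hg]
  have hax : ∀ K : Submodule ℝ (Fin 3 → ℝ), (∃ x ∈ X, ∀ n z, T (n, z) ∈ K ↔ n.2 = x * n.1) ↔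
      ∃ j < M, ∀ v, v ∈ K ↔ sin (π * j / M) * v 0 = cos (π * j / M) * v 1 := fun K => by
    constructor
    · rintro ⟨x, hx, hK⟩
      obtain ⟨-, j, hj, e0⟩ := (hT (1, x)).1 ⟨by simp, x, hx, by simp⟩
      refine ⟨j, hj, (hall _ _).2 fun n z => ?_⟩
      rw [hK]
      refine (line hd _).2 x ?_ n
      simp only [dot] at e0
      linarith
    · rintro ⟨j, hj, hK⟩
      obtain ⟨-, x, hx, e0⟩ := (hT _).2 ⟨(line hd (π * j / M)).1, j, hj, by
        simp only [dot]
        ring⟩
      refine ⟨x, hx, fun n z => ?_⟩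
      rw [(hall _ _).1 hK, (line hd _).2 x e0 n]
      rfl
  have hsd : ∀ (K : Submodule ℝ (Fin 3 → ℝ)) (c s : ℝ),
      (∀ n z, T (n, z) ∈ K ↔ z = (b + c • e1 + s • e2).1 * n.1 + (b + c • e1 + s • e2).2 * n.2) ↔
      ∀ v, v ∈ K ↔ c * v 0 + s * v 1 = v 2 := fun K c s => by
    rw [hall]
    refine forall_congr' fun n => forall_congr' fun z => iff_congr Iff.rfl ?_
    change _ ↔ c * dot e1 n + s * dot e2 n = z - dot b n
    simp only [dot, Prod.fst_add, Prod.snd_add, Prod.smul_fst, Prod.smul_snd, smul_eq_mul]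
    constructor <;> intro h <;> linarith
  have hpl : ∀ K : Submodule ℝ (Fin 3 → ℝ), PolyLine M K ↔
      (∃ x ∈ X, ∀ n z, T (n, z) ∈ K ↔ n.2 = x * n.1) ∨ ∃ p : P,
        (∃ j < M, p = b + cos (2 * π * j / M) • e1 + sin (2 * π * j / M) • e2) ∧
          ∀ n z, T (n, z) ∈ K ↔ z = p.1 * n.1 + p.2 * n.2 := fun K => by
    rw [hax]
    constructor
    · rintro ⟨j, hj, h1 | h1⟩
      · exact Or.inr ⟨_, ⟨j, hj, rfl⟩, (hsd _ _ _).2 h1⟩
      · exact Or.inl ⟨j, hj, h1⟩
    · rintro (⟨j, hj, h1⟩ | ⟨_, ⟨j, hj, rfl⟩, h1⟩)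
      · exact ⟨j, hj, Or.inr h1⟩
      · exact ⟨j, hj, Or.inl ((hsd _ _ _).1 h1)⟩
  refine ⟨B, g, ?_, fun H => ⟨fun hH => ⟨_, Finset.mem_image_of_mem _ hH, fun v =>
    (hmap H v).symm⟩, ?_⟩⟩
  · rcases hP with hP | ⟨⟨k, hk⟩, hP⟩
    · refine Or.inl ⟨M, hM, fun K => ?_⟩
      rw [hB, hpl]
      simp only [hP]
    · refine Or.inr ⟨k, by omega, fun K => ?_⟩
      have hb : (∀ n z, T (n, z) ∈ K ↔ z = b.1 * n.1 + b.2 * n.2) ↔ ∀ v, v ∈ K ↔ v 2 = 0 := by
        rw [hall]
        exact forall_congr' fun n => forall_congr' fun z => iff_congr Iff.rfl sub_eq_zero.symm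
      rw [hB, show 2 * k = M by omega, hpl, ← hb, or_assoc]
      refine or_congr Iff.rfl ⟨?_, ?_⟩
      · rintro ⟨p, hp, h1⟩
        rcases (hP p).1 hp with h2 | rfl
        · exact Or.inl ⟨p, h2, h1⟩
        · exact Or.inr h1
      · rintro (⟨p, hp, h1⟩ | h1)
        · exact ⟨p, (hP p).2 (Or.inl hp), h1⟩
        · exact ⟨b, (hP b).2 (Or.inr rfl), h1⟩
  · rintro ⟨K, hK, h1⟩
    obtain ⟨H', hH', rfl⟩ := Finset.mem_image.1 hK
    rwa [show H = H' from Submodule.ext fun v => (h1 v).trans (hmap H' v)]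

end Br

theorem t_Bridge : S_Bridge := by
  intro A3 hA hs hi v hv
  obtain ⟨e, A, X, h, h1, h2⟩ := Br.exists_chart hA hv
  exact ⟨A, X, h.model hA hs, h1, h2, fun _ => h.two hi, h.linReg⟩

end Pool.Agent.SimpArr.BV
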