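import Pool.Agent.P.MP_0b4c38_co.BVStep

/-! The next ray, transport of the local data, stacked vertices. -/

set_option autoImplicit false

open Classical Real

namespace Pool.Agent.SimpArr.BV

open Step

theorem t_Map : S_Map := by
  intro A α β α' β' ψ ρ k1 k2 hρ hα hβ h
  have hmix : ∀ a t, mix α β a t = ρ * mix α' β' (ψ a) t + ((1 - t) * k1 + t * k2) := by
    intro a t
    simp only [mix, hα, hβ]
    ring
  have le1 : ∀ (x y k : ℝ), ρ * x + k ≤ ρ * y + k ↔ x ≤ y := fun x y k => by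
    rw [add_le_add_iff_right, mul_le_mul_iff_right₀ hρ]
  have lt1 : ∀ (x y k : ℝ), ρ * x + k < ρ * y + k ↔ x < y := fun x y k => by
    rw [add_lt_add_iff_right, mul_lt_mul_iff_right₀ hρ]
  have eq1 : ∀ (x y k : ℝ), ρ * x + k = ρ * y + k ↔ x = y := fun x y k => by
    rw [add_left_inj, mul_right_inj' hρ.ne']
  have all : ∀ p : P → Prop, (∀ c ∈ A.map ψ.toEmbedding, p c) ↔ ∀ c ∈ A, p (ψ c) := fun p =>
    Finset.forall_mem_map
  have mem : ∀ c ∈ A, ψ c ∈ A.map ψ.toEmbedding := fun c hc => Finset.mem_map_of_mem _ hc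
  have h1 := h.inj
  have h2 := h.star
  have h3 := h.edge
  have h4 := h.bottom
  simp only [hmix] at h3 h4
  simp only [hα, hβ, le1, lt1, eq1] at h1 h2 h3 h4
  refine ⟨fun a b ha hb => ?_, ?_, ?_, ?_⟩
  · obtain ⟨a, rfl⟩ := ψ.surjective a
    obtain ⟨b, rfl⟩ := ψ.surjective b
    rw [h1 a b ha hb]
  · simp only [all]
    exact h2
  · simp only [all]
    exact h3
  · intro t h0 h1'
    rw [all]
    intro a ha
    rw [all]
    intro b hb hab ht hth
    rw [all] at hth
    obtain ⟨w, hw, p, q, e1, e2, e3, e4, e5, e6, e7, e8, e9⟩ :=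
      h4 t h0 h1' a ha b hb (fun e => hab (by rw [e])) ht hth
    refine ⟨ψ w, mem w hw, p, q, e1, e2, e3, e4, e5, e6, e7, ?_, ?_⟩
    · rw [all]
      exact e8
    · rw [all]
      exact e9

namespace Ch

theorem eq_of_two {A : Finset P} {α β : P → ℝ} (h : Loc A α β) {a b : P} {p q : ℝ} (hpq : p ≠ q)
    (hp : mix α β a p = mix α β b p) (hq : mix α β a q = mix α β b q) : a = b := by
  unfold mix at hp hq
  have h1 : (p - q) * ((β a - α a) - (β b - α b)) = 0 := by linarith
  have h2 : (β a - α a) - (β b - α b) = 0 := (mul_eq_zero.1 h1).resolve_left (sub_ne_zero.2 hpq)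
  have h3 : α a = α b := by
    have : β a = β b + α a - α b := by linarith
    rw [this] at hp
    linarith
  exact h.inj a b h3 (by linarith)

theorem mix_between {α β : P → ℝ} {a b : P} {p s q : ℝ} (h1 : p < s) (h2 : s < q)
    (hp : mix α β a p ≤ mix α β b p) (hq : mix α β a q ≤ mix α β b q)
    (hs : mix α β b s ≤ mix α β a s) :
    mix α β a p = mix α β b p ∧ mix α β a q = mix α β b q := by
  have key : (q - p) * (mix α β b s - mix α β a s) =
      (q - s) * (mix α β b p - mix α β a p) + (s - p) * (mix α β b q - mix α β a q) := by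
    unfold mix
    ring
  have a1 := mul_nonneg (sub_pos.2 h2).le (sub_nonneg.2 hp)
  have a2 := mul_nonneg (sub_pos.2 h1).le (sub_nonneg.2 hq)
  have a3 := mul_nonpos_of_nonneg_of_nonpos (sub_pos.2 (h1.trans h2)).le (sub_nonpos.2 hs)
  have a4 : (q - s) * (mix α β b p - mix α β a p) = 0 := by linarith
  have a5 : (s - p) * (mix α β b q - mix α β a q) = 0 := by linarith
  have a6 := (mul_eq_zero.1 a4).resolve_left (sub_pos.2 h2).ne'
  have a7 := (mul_eq_zero.1 a5).resolve_left (sub_pos.2 h1).ne'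
  exact ⟨by linarith, by linarith⟩

end Ch

open Ch

theorem t_NoStack : S_NoStack := by
  intro A α β h s h0 h1 a ha b hb a' ha' b' hb' hab hab' ht ht' hlt hgap
  set TH := A.filter (fun x => mix α β x s = mix α β a s) with hTH
  have haT : a ∈ TH := Finset.mem_filter.2 ⟨ha, rfl⟩
  have hbT : b ∈ TH := Finset.mem_filter.2 ⟨hb, ht.symm⟩
  obtain ⟨a1, ha1, ha1m⟩ := TH.exists_max_image α ⟨a, haT⟩
  obtain ⟨b1, hb1, hb1m⟩ := TH.exists_max_image β ⟨a, haT⟩
  obtain ⟨ha1A, ha1s⟩ := Finset.mem_filter.1 ha1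
  obtain ⟨hb1A, hb1s⟩ := Finset.mem_filter.1 hb1
  have hne : a1 ≠ b1 := by
    rintro rfl
    have key : ∀ x ∈ TH, x = a1 := fun x hx => by
      have hxs : mix α β x s = mix α β a1 s := (Finset.mem_filter.1 hx).2.trans ha1s.symm
      have e1 : α x = α a1 := by
        by_contra hn
        exact absurd hxs (mix_lt_left h0.le h1 (lt_of_le_of_ne (ha1m x hx) hn) (hb1m x hx)).ne
      have e2 : β x = β a1 := by
        by_contra hn
        exact absurd hxs (mix_lt_right h0 h1.le (ha1m x hx) (lt_of_le_of_ne (hb1m x hx) hn)).ne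
      exact h.inj _ _ e1 e2
    exact hab ((key a haT).trans (key b hbT).symm)
  obtain ⟨w, hw, p, q, -, e2, e3, -, e5, -, -, e8, -⟩ :=
    h.bottom s h0 h1 a1 ha1A b1 hb1A hne (ha1s.trans hb1s.symm) (fun x hx e =>
      ⟨ha1m x (Finset.mem_filter.2 ⟨hx, e.trans ha1s⟩),
        hb1m x (Finset.mem_filter.2 ⟨hx, e.trans ha1s⟩)⟩)
  rw [ha1s] at e5 e8
  have hws : mix α β a' s ≤ mix α β w s := (hgap w hw).resolve_left (not_le.2 e5)
  have k1 := mix_between e2 e3 (e8 a' ha' hlt).1 (e8 a' ha' hlt).2 hws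
  have k2 := mix_between e2 e3 (e8 b' hb' (ht' ▸ hlt)).1 (e8 b' hb' (ht' ▸ hlt)).2 (ht' ▸ hws)
  exact hab' ((eq_of_two h (e2.trans e3).ne k1.1 k1.2).symm.trans
    (eq_of_two h (e2.trans e3).ne k2.1 k2.2))

theorem t_Next : S_Next := by
  intro X n hX hn
  obtain ⟨hn0, x0, hx0, hnx⟩ := hn
  have hn1 : n.1 ≠ 0 := fun h => hn0 (Prod.ext h (by rw [hnx, h]; simp))
  set D : Finset P := (X.image (fun x => ((1 : ℝ), x)) ∪ X.image (fun x => ((-1 : ℝ), -x))).filter
    (fun t => 0 < det n t) with hD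
  have hmemD : ∀ x ∈ X, x ≠ x0 → (((1 : ℝ), x) ∈ D ∨ ((-1 : ℝ), -x) ∈ D) := by
    intro x hx hne
    have h1 : det n (1, x) ≠ 0 := by
      have : det n (1, x) = n.1 * (x - x0) := by
        simp only [det, hnx]
        ring
      rw [this]
      exact mul_ne_zero hn1 (sub_ne_zero.2 hne)
    rcases lt_or_gt_of_ne h1 with h | h
    · refine Or.inr (Finset.mem_filter.2 ⟨Finset.mem_union_right _
        (Finset.mem_image_of_mem _ hx), ?_⟩)
      simp only [det] at h ⊢
      linarith
    · exact Or.inl (Finset.mem_filter.2 ⟨Finset.mem_union_left _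
        (Finset.mem_image_of_mem _ hx), h⟩)
  have hDne : D.Nonempty := by
    obtain ⟨x, hx, hne⟩ := Finset.exists_mem_ne (show 1 < X.card by omega) x0
    rcases hmemD x hx hne with h | h <;> exact ⟨_, h⟩
  obtain ⟨t, ht, htm⟩ := D.exists_max_image (fun t => dot n t / det n t) hDne
  obtain ⟨htU, htd⟩ := Finset.mem_filter.1 ht
  have htT : IsT X t := by
    rcases Finset.mem_union.1 htU with h | h <;> obtain ⟨x, hx, rfl⟩ := Finset.mem_image.1 h
    · exact ⟨by simp, x, hx, by simp⟩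
    · exact ⟨by simp, x, hx, by simp⟩
  refine ⟨t, htd, ⟨hn0, x0, hx0, hnx⟩, htT, htd.ne', fun s h0 h1 hν => ?_⟩
  set ν : P := (1 - s) • n + s • t with hνd
  have hdet : det n ν = s * det n t := by
    simp only [hνd, det, Prod.fst_add, Prod.snd_add, Prod.smul_fst, Prod.smul_snd, smul_eq_mul]
    ring
  have hdot : dot n ν = (1 - s) * dot n n + s * dot n t := by
    simp only [hνd, dot, Prod.fst_add, Prod.snd_add, Prod.smul_fst, Prod.smul_snd, smul_eq_mul]
    ring
  have hnn : 0 < dot n n := by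
    unfold dot
    nlinarith [mul_self_pos.2 hn1, mul_self_nonneg n.2]
  have hνpos : 0 < det n ν := by rw [hdet]; exact mul_pos h0 htd
  have hq : dot n t / det n t < dot n ν / det n ν := by
    rw [div_lt_div_iff₀ htd hνpos, hdot, hdet]
    nlinarith [mul_pos (mul_pos (sub_pos.2 h1) hnn) htd]
  obtain ⟨hν0, x, hx, hνx⟩ := hν
  have hν1 : ν.1 ≠ 0 := fun h => hν0 (Prod.ext h (by rw [hνx, h]; simp))
  have e1 : det n ν = ν.1 * det n (1, x) := by
    simp only [det, hνx]
    ring
  have e2 : dot n ν = ν.1 * dot n (1, x) := by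
    simp only [dot, hνx]
    ring
  have hxne : x ≠ x0 := by
    rintro rfl
    have : det n (1, x) = 0 := by
      simp only [det, hnx]
      ring
    rw [e1, this, mul_zero] at hνpos
    exact lt_irrefl _ hνpos
  have e3 : dot n ν / det n ν = dot n (1, x) / det n (1, x) := by
    rw [e1, e2, mul_div_mul_left _ _ hν1]
  have e4 : dot n (-1, -x) / det n (-1, -x) = dot n (1, x) / det n (1, x) := by
    have a1 : dot n (-1, -x) = -dot n (1, x) := by simp only [dot]; ring
    have a2 : det n (-1, -x) = -det n (1, x) := by simp only [det]; ring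
    rw [a1, a2, neg_div_neg_eq]
  rcases hmemD x hx hxne with h | h
  · exact absurd (htm _ h) (not_le.2 (e3 ▸ hq))
  · have := htm _ h
    rw [e4, ← e3] at this
    exact absurd this (not_le.2 hq)

end Pool.Agent.SimpArr.BV
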