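import Pool.Agent.P.MP_0b4c38_co.BVStep

/-! The affine chart. -/

set_option autoImplicit false

open Classical Real

namespace Pool.Agent.SimpArr.BV

namespace Cht

open Step

theorem dot_one' (a : P) (x : ℝ) : dot a (1, x) = f a x := by
  simp [dot, f]

theorem f_add (a : P) (x t : ℝ) : f a (x + t) = f a x + a.2 * t := by
  unfold f
  ring

theorem f_sub (a : P) (x y : ℝ) : f a y = f a x + a.2 * (y - x) := by
  unfold f
  ring

theorem loc_of {A : Finset P} {X : Finset ℝ} (hM : Model A X) {x x' : ℝ} (hx : x ∈ X)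
    (hx' : x' ∈ X) (hne : x ≠ x')
    (hb : ∀ s : ℝ, 0 < s → s < 1 → x + s * (x' - x) ∉ X) :
    Loc A (fun a => f a x) (fun a => f a x') := by
  have := hM (1, x) (1, x') ⟨⟨by simp, x, hx, by simp⟩, ⟨by simp, x', hx', by simp⟩, ?_, ?_⟩
  · simpa only [dot_one'] using this
  · simp only [det]
    intro h
    exact hne (by linarith)
  · rintro s h0 h1 ⟨-, y, hy, h⟩
    simp only [Prod.fst_add, Prod.snd_add, Prod.smul_fst, Prod.smul_snd, smul_eq_mul] at h
    refine hb s h0 h1 ?_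
    have : x + s * (x' - x) = y := by linarith
    rwa [this]

theorem mix_f (a : P) (x x' s : ℝ) :
    mix (fun a => f a x) (fun a => f a x') a s = f a (x + s * (x' - x)) := by
  unfold mix f
  ring

theorem loc_right {A : Finset P} {X : Finset ℝ} (hM : Model A X) {x x' : ℝ} (hx : x ∈ X)
    (hx' : x' ∈ X) (hlt : x < x') (hb : ∀ y ∈ X, y ≤ x ∨ x' ≤ y) :
    Loc A (fun a => f a x) (fun a => f a x') :=
  loc_of hM hx hx' hlt.ne fun s h0 h1 h => by
    rcases hb _ h with h | h <;> nlinarith [mul_pos h0 (sub_pos.2 hlt),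
      mul_pos (sub_pos.2 h1) (sub_pos.2 hlt)]

theorem loc_left {A : Finset P} {X : Finset ℝ} (hM : Model A X) {x x' : ℝ} (hx : x ∈ X)
    (hx' : x' ∈ X) (hlt : x' < x) (hb : ∀ y ∈ X, y ≤ x' ∨ x ≤ y) :
    Loc A (fun a => f a x) (fun a => f a x') :=
  loc_of hM hx hx' hlt.ne' fun s h0 h1 h => by
    rcases hb _ h with h | h <;> nlinarith [mul_pos h0 (sub_pos.2 hlt),
      mul_pos (sub_pos.2 h1) (sub_pos.2 hlt)]

theorem exists_succ {X : Finset ℝ} {x hi : ℝ} (hhi : hi ∈ X) (h : x < hi) :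
    ∃ x' ∈ X, x < x' ∧ ∀ y ∈ X, x < y → x' ≤ y := by
  obtain ⟨x', hx', hm⟩ := (X.filter (fun y => x < y)).exists_min_image id
    ⟨hi, Finset.mem_filter.2 ⟨hhi, h⟩⟩
  obtain ⟨h1, h2⟩ := Finset.mem_filter.1 hx'
  exact ⟨x', h1, h2, fun y hy hxy => hm y (Finset.mem_filter.2 ⟨hy, hxy⟩)⟩

theorem exists_pred {X : Finset ℝ} {x lo : ℝ} (hlo : lo ∈ X) (h : lo < x) :
    ∃ x' ∈ X, x' < x ∧ ∀ y ∈ X, y < x → y ≤ x' := by
  obtain ⟨x', hx', hm⟩ := (X.filter (fun y => y < x)).exists_max_image id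
    ⟨lo, Finset.mem_filter.2 ⟨hlo, h⟩⟩
  obtain ⟨h1, h2⟩ := Finset.mem_filter.1 hx'
  exact ⟨x', h1, h2, fun y hy hxy => hm y (Finset.mem_filter.2 ⟨hy, hxy⟩)⟩

end Cht

open Cht Step

theorem t_Chart : S_Chart := by
  intro A X hM hA hX
  refine ⟨X.min' hX, X.max' hX, X.min'_mem hX, X.max'_mem hX,
    fun x hx => ⟨X.min'_le x hx, X.le_max' x hx⟩, ?_, ?_, ?_, ?_⟩
  · intro x hx x' hx' hlt hb
    obtain ⟨a, ha, h1, h2⟩ := exists_lexmax A hA (fun a => f a x) (fun a => f a x')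
    exact ⟨a, ha, fun c hc => ⟨h1 c hc, (loc_right hM hx hx' hlt hb).star a ha h1 h2 c hc⟩⟩
  · intro x hx hlt a ha b hb h1 h2 h3 h4
    obtain ⟨x', hx', hxx, hm⟩ := exists_succ (X.max'_mem hX) hlt
    obtain ⟨s, s0, s1, e1, e2, e3⟩ := (loc_right hM hx hx' hxx fun y hy =>
      (le_or_gt y x).imp id (hm y hy)).edge a ha b hb h1 h2
      (fun c hc h => by
        have h : f c x = f a x := h
        show f a x' ≤ f c x'
        rw [f_sub a x x', f_sub c x x', h]
        nlinarith [mul_le_mul_of_nonneg_right (h3 c hc h) (sub_pos.2 hxx).le])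
      (fun c hc h => by
        have h : f c x = f b x := h
        show f c x' ≤ f b x'
        rw [f_sub b x x', f_sub c x x', h]
        nlinarith [mul_le_mul_of_nonneg_right (h4 c hc h) (sub_pos.2 hxx).le])
    simp only [mix_f] at e1 e2 e3
    refine ⟨x + s * (x' - x), by nlinarith [mul_pos s0 (sub_pos.2 hxx)], fun t ht hxt => ?_,
      e1, e2, e3⟩
    nlinarith [hm t ht hxt, mul_nonneg (sub_nonneg.2 s1) (sub_pos.2 hxx).le]
  · intro x hx hlt a ha b hb h1 h2 h3 h4
    obtain ⟨x', hx', hxx, hm⟩ := exists_pred (X.min'_mem hX) hlt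
    obtain ⟨s, s0, s1, e1, e2, e3⟩ := (loc_left hM hx hx' hxx fun y hy =>
      (lt_or_ge y x).imp (hm y hy) id).edge a ha b hb h1 h2
      (fun c hc h => by
        have h : f c x = f a x := h
        show f a x' ≤ f c x'
        rw [f_sub a x x', f_sub c x x', h]
        nlinarith [mul_le_mul_of_nonneg_right (h3 c hc h) (sub_pos.2 hxx).le])
      (fun c hc h => by
        have h : f c x = f b x := h
        show f c x' ≤ f b x'
        rw [f_sub b x x', f_sub c x x', h]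
        nlinarith [mul_le_mul_of_nonneg_right (h4 c hc h) (sub_pos.2 hxx).le])
    simp only [mix_f] at e1 e2 e3
    refine ⟨x + s * (x' - x), by nlinarith [mul_pos s0 (sub_pos.2 hxx)], fun t ht hxt => ?_,
      e1, e2, e3⟩
    nlinarith [hm t ht hxt, mul_nonneg (sub_nonneg.2 s1) (sub_pos.2 hxx).le]
  · intro x hlo hhi hx a ha b hb hab ht hth
    obtain ⟨x1, hx1, h1, m1⟩ := exists_pred (X.min'_mem hX) hlo
    obtain ⟨x2, hx2, h2, m2⟩ := exists_succ (X.max'_mem hX) hhi
    have h12 : 0 < x2 - x1 := by linarith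
    have hloc := loc_right hM hx1 hx2 (h1.trans h2) fun y hy => by
      rcases lt_trichotomy y x with h | h | h
      · exact Or.inl (m1 y hy h)
      · exact absurd (h ▸ hy) hx
      · exact Or.inr (m2 y hy h)
    have hs : x1 + (x - x1) / (x2 - x1) * (x2 - x1) = x := by
      field_simp
      ring
    have hb' := hloc.bottom ((x - x1) / (x2 - x1)) (div_pos (by linarith) h12)
      ((div_lt_one h12).2 (by linarith)) a ha b hb hab
    simp only [mix_f, hs] at hb'
    obtain ⟨w, hw, p, q, e1, e2, e3, e4, e5, e6, e7, e8, e9⟩ := hb' ht fun c hc h => by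
      obtain ⟨k1, k2⟩ := hth c hc h
      constructor
      · rw [f_sub a x x1, f_sub c x x1, h]
        nlinarith [mul_le_mul_of_nonneg_right k1 (sub_pos.2 h1).le]
      · rw [f_sub b x x2, f_sub c x x2, h, ht]
        nlinarith [mul_le_mul_of_nonneg_right k2 (sub_pos.2 h2).le]
    have e2' := (lt_div_iff₀ h12).1 e2
    have e3' := (div_lt_iff₀ h12).1 e3
    refine ⟨w, hw, x1 + p * (x2 - x1), x1 + q * (x2 - x1), ?_, by linarith, by linarith, ?_,
      e5, e6, e7, e8, e9⟩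
    · nlinarith [X.min'_le x1 hx1, mul_nonneg e1 h12.le]
    · nlinarith [X.le_max' x2 hx2, mul_nonneg (sub_nonneg.2 e4) h12.le]

end Pool.Agent.SimpArr.BV
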