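import Pool.Agent.P.MP_0b4c38_co.BVIface

/-! The lattice closes up. -/

set_option autoImplicit false

open Classical Real

namespace Pool.Agent.SimpArr.BV

namespace CloseAux

theorem sol {h : ℝ} (hs : sin h ≠ 0) {f : ℤ → ℝ}
    (hf : ∀ c, f (c + 1) + f (c - 1) = 2 * cos h * f c) (c : ℤ) :
    f c = f 0 * cos (c * h) + (f 1 - f 0 * cos h) / sin h * sin (c * h) := by
  obtain ⟨B, hB⟩ : ∃ B, B = (f 1 - f 0 * cos h) / sin h := ⟨_, rfl⟩
  rw [← hB]
  have hB' : f 1 = f 0 * cos h + B * sin h := by rw [hB]; field_simp; ring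
  have key : ∀ x : ℝ, (f 0 * cos ((x + 1) * h) + B * sin ((x + 1) * h)) +
      (f 0 * cos ((x - 1) * h) + B * sin ((x - 1) * h)) =
      2 * cos h * (f 0 * cos (x * h) + B * sin (x * h)) := fun x => by
    rw [add_mul, sub_mul, one_mul, cos_add, cos_sub, sin_add, sin_sub]; ring
  have main : ∀ c : ℤ, f c = f 0 * cos (c * h) + B * sin (c * h) ∧
      f (c + 1) = f 0 * cos ((c + 1) * h) + B * sin ((c + 1) * h) := by
    intro c
    induction c using Int.induction_on with
    | zero => simpa using hB'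
    | succ i ih =>
      refine ⟨by exact_mod_cast ih.2, ?_⟩
      have a := hf (i + 1)
      have b := key ((i : ℝ) + 1)
      rw [add_sub_cancel_right] at a b
      have c1 := ih.1
      have c2 := ih.2
      push_cast at c1 c2 ⊢
      rw [c1, c2] at a
      linarith
    | pred i ih =>
      have a := hf (-i)
      have b := key (-(i : ℝ))
      have c1 := ih.1
      have c2 := ih.2
      rw [sub_add_cancel]
      push_cast at c1 c2 ⊢
      rw [sub_add_cancel]
      refine ⟨?_, c1⟩
      rw [c1, c2] at a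
      linarith
  exact (main c).1

theorem isT_of_det {X : Finset ℝ} {m ν : P} (h : IsT X m) (hd : det m ν = 0) (hν : ν ≠ 0) :
    IsT X ν := by
  obtain ⟨h0, x, hx, h1⟩ := h
  refine ⟨hν, x, hx, ?_⟩
  have h2 : m.1 ≠ 0 := fun k => h0 (Prod.ext k (by rw [h1, k, mul_zero]; rfl))
  unfold det at hd
  rw [h1] at hd
  exact mul_left_cancel₀ h2 (by linarith)

theorem nosign {X : Finset ℝ} {m m' ν : P} (h : Slab X m m') (hν : IsT X ν) :
    ¬ det m ν * det m' ν < 0 := by
  intro k
  obtain ⟨-, -, h1, h2⟩ := h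
  obtain ⟨a, ha⟩ : ∃ a, a = det m ν := ⟨_, rfl⟩
  obtain ⟨b, hb⟩ : ∃ b, b = det m' ν := ⟨_, rfl⟩
  rw [← ha, ← hb] at k
  have hab : a - b ≠ 0 := fun e => by
    rw [show a = b by linarith] at k
    nlinarith [sq_nonneg b]
  have e : a / (a - b) = a * (a - b) / (a - b) ^ 2 := by field_simp
  have p : 0 < (a - b) ^ 2 := by positivity
  have s0 : 0 < a / (a - b) := by
    rw [e]; exact div_pos (by nlinarith [sq_nonneg a]) p
  have s1 : a / (a - b) < 1 := by
    rw [e, div_lt_one p]; nlinarith [sq_nonneg b]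
  have s2 : (1 - a / (a - b)) * a + a / (a - b) * b = 0 := by field_simp; ring
  generalize a / (a - b) = s at s0 s1 s2
  refine h2 s s0 s1 (isT_of_det hν ?_ fun z => ?_)
  · rw [ha, hb] at s2
    simp only [det, Prod.fst_add, Prod.snd_add, Prod.smul_fst, Prod.smul_snd, smul_eq_mul] at s2 ⊢
    linarith
  · have z1 := congrArg Prod.fst z
    have z2 := congrArg Prod.snd z
    simp only [Prod.fst_add, Prod.snd_add, Prod.smul_fst, Prod.smul_snd, smul_eq_mul,
      Prod.fst_zero, Prod.snd_zero] at z1 z2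
    refine mul_ne_zero s0.ne' h1 ?_
    unfold det
    linear_combination m.1 * z2 - m.2 * z1

theorem kappa_lt {X : Finset ℝ} {κ : ℝ} {n : ℤ → P} (hR : Rays κ n)
    (hT : ∀ c, 12 ≤ c → IsT X (n c)) : κ < 1 := by
  by_contra hk
  rw [not_lt] at hk
  have pos : ∀ (c : ℤ) (k : ℕ), 0 ≤ det (n c) (n (c + k)) ∧
      det (n c) (n (c + k)) < det (n c) (n (c + k + 1)) := by
    intro c k
    induction k with
    | zero =>
      have := hR.det c
      simp only [Nat.cast_zero, add_zero]
      rw [show det (n c) (n c) = 0 by unfold det; ring]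
      exact ⟨le_rfl, this⟩
    | succ k ih =>
      have a := hR.nrec (c + k + 1)
      rw [add_sub_cancel_right] at a
      have a1 := congrArg Prod.fst a
      have a2 := congrArg Prod.snd a
      simp only [Prod.fst_add, Prod.snd_add, Prod.smul_fst, Prod.smul_snd, smul_eq_mul] at a1 a2
      have b : det (n c) (n (c + k + 1 + 1)) + det (n c) (n (c + k)) =
          2 * κ * det (n c) (n (c + k + 1)) := by
        unfold det
        linear_combination (n c).1 * a2 - (n c).2 * a1
      push_cast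
      rw [← add_assoc]
      refine ⟨by linarith [ih.1, ih.2], ?_⟩
      nlinarith [ih.1, ih.2]
  choose x hx using fun k : ℕ => (hT (12 + k) (by omega)).2
  have inj : ∀ k l : ℕ, k < l → x k ≠ x l := fun k l hkl e => by
    obtain ⟨j, rfl⟩ : ∃ j, l = k + j + 1 := ⟨l - k - 1, by omega⟩
    have a := pos (12 + k) j
    have b := (hx (k + j + 1)).2
    rw [show (12 : ℤ) + (k + j + 1 : ℕ) = 12 + k + j + 1 by push_cast; ring, ← e] at b
    have c : det (n (12 + k)) (n (12 + k + j + 1)) = 0 := by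
      unfold det
      rw [b, (hx k).2]; ring
    linarith [a.1, a.2]
  refine Set.infinite_of_injective_forall_mem (s := (X : Set ℝ)) (f := x) (fun k l e => ?_)
    (fun k => (hx k).1) X.finite_toSet
  rcases lt_trichotomy k l with m | m | m
  exacts [absurd e (inj k l m), m, absurd e.symm (inj l k m)]

end CloseAux

open CloseAux

theorem t_Close : S_Close := by
  intro X κ n s lam g hR hL hC hS
  have k1 := kappa_lt hR fun c hc => (hS c hc).1
  have k0 := hR.pos
  obtain ⟨h, hκ, h0, h1⟩ : ∃ h, κ = cos h ∧ 0 < h ∧ h < π / 2 :=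
    ⟨arccos κ, (cos_arccos (by linarith) k1.le).symm, arccos_pos.2 k1, arccos_lt_pi_div_two.2 k0⟩
  subst hκ
  have hπ := pi_pos
  have hs : 0 < sin h := sin_pos_of_pos_of_lt_pi h0 (by linarith)
  obtain ⟨a1, a2, b1, b2, hn⟩ : ∃ a1 a2 b1 b2 : ℝ, ∀ c : ℤ,
      (n c).1 = a1 * cos (c * h) + b1 * sin (c * h) ∧
        (n c).2 = a2 * cos (c * h) + b2 * sin (c * h) :=
    ⟨_, _, _, _, fun c => ⟨sol hs.ne' (f := fun c => (n c).1)
      (fun c => by simpa using congrArg Prod.fst (hR.nrec c)) c,
      sol hs.ne' (f := fun c => (n c).2)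
      (fun c => by simpa using congrArg Prod.snd (hR.nrec c)) c⟩⟩
  obtain ⟨δ, hδ⟩ : ∃ δ, δ = a1 * b2 - a2 * b1 := ⟨_, rfl⟩
  have hdet : ∀ c c' : ℤ, det (n c) (n c') = δ * sin (c' * h - c * h) := fun c c' => by
    rw [det, (hn c).1, (hn c).2, (hn c').1, (hn c').2, sin_sub, hδ]; ring
  have δ0 : 0 < δ := by
    have a := hR.det 0
    rw [hdet] at a
    norm_num at a
    exact (mul_pos_iff_of_pos_right hs).1 a
  obtain ⟨γ, hγ⟩ : ∃ γ, γ = (g (0 + 1) + g (0 - 1) - 2 * cos h * g 0) / (2 - 2 * cos h) := ⟨_, rfl⟩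
  have hγ' : g (0 + 1) + g (0 - 1) - 2 * cos h * g 0 = γ * (2 - 2 * cos h) := by
    rw [hγ, div_mul_cancel₀ _ (by linarith)]
  obtain ⟨ρ, B, hg⟩ : ∃ ρ B : ℝ, ∀ d : ℤ, g d - γ = -ρ * cos (d * h) + B * sin (d * h) :=
    ⟨-(g 0 - γ), _, fun d => by
      rw [neg_neg]
      exact sol hs.ne' (f := fun d => g d - γ)
        (fun d => by linarith [hL.grec 0 d, hL.grec 0 0]) d⟩
  have hB : B = 0 := by
    have a := hg 1
    have b := hg (-1)
    rw [hL.even] at b
    push_cast at a b
    rw [neg_mul, neg_mul, cos_neg, sin_neg] at b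
    have : B * sin (1 * h) = 0 := by linarith
    rw [one_mul] at this
    exact (mul_eq_zero.1 this).resolve_right hs.ne'
  simp only [hB, zero_mul, add_zero] at hg
  have ρ0 : 0 < ρ := by
    have a := hC 0 le_rfl (by norm_num)
    have b := hg (0 + 1)
    have c := hg (0 - 1)
    have d := hg 0
    norm_num at a b c d
    nlinarith
  obtain ⟨α, β, hl⟩ : ∃ α β : ℝ, ∀ c : ℤ, lam c - γ = α * cos (c * h) + β * sin (c * h) :=
    ⟨_, _, fun c => sol hs.ne' (f := fun c => lam c - γ) (fun c => by linarith [hL.grec c 0]) c⟩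
  have ex : ∃ M : ℕ, π ≤ M * h := (exists_nat_ge (π / h)).imp fun M k => (div_le_iff₀ h0).1 k
  obtain ⟨M, m1, m2⟩ : ∃ M : ℕ, π ≤ M * h ∧ ∀ k < M, ¬ π ≤ (k : ℕ) * h :=
    ⟨Nat.find ex, Nat.find_spec ex, fun k => Nat.find_min ex⟩
  have m3 : (2 : ℝ) < M := by nlinarith
  have m4 : 2 < M := by exact_mod_cast m3
  have m5 : ((M : ℝ) - 1) * h < π := by
    have := m2 (M - 1) (by omega)
    rw [Nat.cast_sub (by omega)] at this
    simpa using this
  have hM : M * h = π := by
    refine (m1.eq_or_lt.resolve_right fun k => ?_).symm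
    refine nosign (hS (11 + M) (by omega)) (hS 12 le_rfl).1 ?_
    rw [hdet, hdet]
    push_cast
    have e1 : sin (12 * h - (11 + M) * h) < 0 :=
      sin_neg_of_neg_of_neg_pi_lt (by nlinarith) (by linarith)
    have e2 : 0 < sin (12 * h - (11 + M + 1) * h) := by
      rw [← sin_add_two_pi]
      exact sin_pos_of_pos_of_lt_pi (by linarith) (by linarith)
    nlinarith [mul_pos (mul_pos δ0 δ0) (mul_pos (neg_pos.2 e1) e2)]
  have hh : h = π / M := by rw [← hM]; field_simp
  have ang : ∀ c : ℤ, (c : ℝ) * π / M = c * h := fun c => by rw [hh, mul_div_assoc]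
  have ang' : ∀ j : ℕ, π * j / M = ((j : ℤ) : ℝ) * h := fun j => by rw [hh]; push_cast; ring
  have per : ∀ c : ℤ, n (c + 24 * M) = n c := fun c => by
    have e : ((c + 24 * M : ℤ) : ℝ) * h = c * h + (12 : ℕ) * (2 * π) := by
      rw [← hM]; push_cast; ring
    refine Prod.ext ?_ ?_
    · rw [(hn _).1, (hn _).1, e, cos_add_nat_mul_two_pi, sin_add_nat_mul_two_pi]
    · rw [(hn _).2, (hn _).2, e, cos_add_nat_mul_two_pi, sin_add_nat_mul_two_pi]
  have sl : ∀ j : ℕ, Slab X (n j) (n (j + 1)) := fun j => by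
    have := hS (j + 24 * M) (by omega)
    rwa [add_right_comm, per, per] at this
  have zero : ∀ ν, IsT X ν → ∃ j < M, det (n (j : ℕ)) ν = 0 := by
    intro ν hν
    by_contra hz
    push Not at hz
    have e : det (n (M : ℕ)) ν = -det (n (0 : ℕ)) ν := by
      rw [det, det, (hn _).1, (hn _).2, (hn _).1, (hn _).2]
      push_cast
      rw [hM]
      simp
      ring
    have z0 := hz 0 (by omega)
    have ind : ∀ j ≤ M, 0 < det (n (0 : ℕ)) ν * det (n (j : ℕ)) ν := by
      intro j
      induction j with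
      | zero => exact fun _ => mul_self_pos.2 z0
      | succ j ih =>
        intro hj
        have a := ih (by omega)
        have b := not_lt.1 (nosign (sl j) hν)
        have c : det (n (j + 1 : ℕ)) ν ≠ 0 := by
          rcases hj.lt_or_eq with k | k
          · exact hz _ k
          · rw [k, e]; exact neg_ne_zero.2 z0
        push_cast at c ⊢
        have d := hz j (by omega)
        have f := b.lt_of_ne (mul_ne_zero d c).symm
        have p := mul_pos a f
        have q : 0 < det (n j) ν ^ 2 := by positivity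
        push_cast at p
        refine (mul_pos_iff_of_pos_right q).1 ?_
        linarith
    have := ind M le_rfl
    rw [e] at this
    nlinarith [sq_nonneg (det (n (0 : ℕ)) ν)]
  refine ⟨M, (ρ * b2 / δ, -(ρ * b1) / δ), (-(ρ * a2) / δ, ρ * a1 / δ),
    ((α * b2 - β * a2) / δ, (β * a1 - α * b1) / δ), ρ, ?_, by omega, ρ0, ?_, fun c => ?_,
    fun i => ?_, fun c d => ?_, fun ν => ?_⟩
  · choose! J hJ using fun x (hx : x ∈ X) =>
      zero (1, x) ⟨fun k => one_ne_zero (congrArg Prod.fst k), x, hx, (mul_one x).symm⟩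
    rw [← Finset.card_range M]
    refine Finset.card_le_card_of_injOn J (fun x hx => Finset.mem_coe.2
      (Finset.mem_range.2 (hJ x hx).1)) fun x hx y hy e => ?_
    have a := (hJ x hx).2
    have b := (hJ y hy).2
    have c := hR.det (J y)
    rw [e] at a
    simp only [det] at a b c
    by_contra k
    have d : (n (J y)).1 = 0 :=
      (mul_eq_zero.1 (show (n (J y)).1 * (x - y) = 0 by linarith)).resolve_right (sub_ne_zero.2 k)
    have d' : (n (J y)).2 = 0 := by rw [d] at a; linarith
    rw [d, d'] at c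
    simp at c
  · have : det (ρ * b2 / δ, -(ρ * b1) / δ) (-(ρ * a2) / δ, ρ * a1 / δ) = ρ ^ 2 / δ := by
      simp only [det]
      field_simp
      rw [hδ]; ring
    rw [this]
    positivity
  · simp only [dot, u, ang, (hn c).1, (hn c).2]
    constructor <;> field_simp <;> rw [hδ] <;> ring
  · have key : ∀ c : ℤ, dot (s i) (n c) = dot (((α * b2 - β * a2) / δ, (β * a1 - α * b1) / δ) +
        (u M (2 * i)).1 • (ρ * b2 / δ, -(ρ * b1) / δ) +
        (u M (2 * i)).2 • (-(ρ * a2) / δ, ρ * a1 / δ)) (n c) := fun c => by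
      have a := hL.sval i c
      have b := hg (c - 2 * i)
      have d := hl c
      have e : lam c - g (c - 2 * i) = α * cos (c * h) + β * sin (c * h) +
          ρ * cos (((c - 2 * i : ℤ) : ℝ) * h) := by linarith
      rw [a, e, Int.cast_sub, sub_mul, cos_sub]
      simp only [dot, u, ang, (hn c).1, (hn c).2, Prod.fst_add, Prod.snd_add, Prod.smul_fst,
        Prod.smul_snd, smul_eq_mul]
      field_simp
      rw [hδ]; ring
    exact hL.inj _ _ 0 (key 0) (key (0 + 1))
  · have e : lam c - g d = α * cos (c * h) + β * sin (c * h) + ρ * cos (d * h) := by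
      linarith [hg d, hl c]
    rw [e, ang]
    simp only [dot, (hn c).1, (hn c).2]
    field_simp
    rw [hδ]; ring
  · have eq : ∀ j : ℕ, sin (π * j / M) * dot (ρ * b2 / δ, -(ρ * b1) / δ) ν =
        cos (π * j / M) * dot (-(ρ * a2) / δ, ρ * a1 / δ) ν ↔ det (n j) ν = 0 := fun j => by
      have : det (n j) ν * (ρ / δ) = cos (π * j / M) * dot (-(ρ * a2) / δ, ρ * a1 / δ) ν -
          sin (π * j / M) * dot (ρ * b2 / δ, -(ρ * b1) / δ) ν := by
        simp only [dot, det, ang', (hn j).1, (hn j).2]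
        field_simp
        ring
      rw [eq_comm, ← sub_eq_zero, ← this, mul_eq_zero, or_iff_left (by positivity)]
    simp only [eq]
    exact ⟨fun k => ⟨k.1, zero ν k⟩, fun ⟨k, j, _, m⟩ => isT_of_det (sl j).1 m k⟩

end Pool.Agent.SimpArr.BV
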