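import Pool.Agent.P.MP_0b4c38_co.BVStep

/-! Constant depth of the extra wires. -/

set_option autoImplicit false

open Classical Real

namespace Pool.Agent.SimpArr.BV

namespace DepthAux

noncomputable def G (M : ℕ) (d : ℤ) : ℝ := cos (d * π / M)

theorem dot_u (M : ℕ) (j c : ℤ) : dot (u M j) (u M c) = G M (c - j) := by
  have h : ((c - j : ℤ) : ℝ) * π / M = (c : ℝ) * π / M - (j : ℝ) * π / M := by
    push_cast; ring
  simp only [dot, u, G]
  rw [h, cos_sub]
  ring

theorem G_neg (M : ℕ) (d : ℤ) : G M (-d) = G M d := by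
  have h : ((-d : ℤ) : ℝ) * π / M = -((d : ℝ) * π / M) := by push_cast; ring
  simp only [G]
  rw [h, cos_neg]

theorem G_abs (M : ℕ) (d : ℤ) : G M |d| = G M d := by
  rcases abs_choice d with h | h
  · rw [h]
  · rw [h, G_neg]

theorem G_lt {M : ℕ} {d d' : ℤ} (h0 : 0 ≤ d) (h : d < d') (h1 : d' ≤ M) : G M d' < G M d := by
  have hM : (0 : ℝ) < M := by
    have : (0 : ℤ) < M := by omega
    exact_mod_cast this
  have h0' : (0 : ℝ) ≤ d := by exact_mod_cast h0
  have h' : (d : ℝ) < d' := by exact_mod_cast h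
  have h1' : (d' : ℝ) ≤ M := by exact_mod_cast h1
  refine cos_lt_cos_of_nonneg_of_le_pi (by positivity) ?_ ?_
  · rw [div_le_iff₀ hM]
    nlinarith [pi_pos]
  · exact div_lt_div_of_pos_right (by nlinarith [pi_pos]) hM

theorem G_le {M : ℕ} {d d' : ℤ} (h0 : 0 ≤ d) (h : d ≤ d') (h1 : d' ≤ M) : G M d' ≤ G M d := by
  rcases h.lt_or_eq with h | rfl
  · exact (G_lt h0 h h1).le
  · exact le_rfl

theorem lt_of_G_lt {M : ℕ} {d d' : ℤ} (h0 : 0 ≤ d) (h1 : d' ≤ M) (h : G M d < G M d') :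
    d' < d := by
  by_contra hn
  exact absurd h (not_lt.2 (G_le h0 (not_lt.1 hn) h1))

theorem le_of_G_le {M : ℕ} {d d' : ℤ} (h0 : 0 ≤ d) (h1 : d' ≤ M) (h : G M d ≤ G M d') :
    d' ≤ d := by
  by_contra hn
  exact absurd h (not_le.2 (G_lt h0 (not_le.1 hn) h1))

theorem ang_succ (M : ℕ) (c : ℤ) :
    ((c + 1 : ℤ) : ℝ) * π / M = (c : ℝ) * π / M + π / M := by
  push_cast; ring

theorem ang_pred (M : ℕ) (c : ℤ) :
    ((c - 1 : ℤ) : ℝ) * π / M = (c : ℝ) * π / M - π / M := by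
  push_cast; ring

theorem G_rec (M : ℕ) (d : ℤ) : G M (d + 1) + G M (d - 1) = 2 * cos (π / M) * G M d := by
  simp only [G]
  rw [ang_succ, ang_pred, cos_add, cos_sub]
  ring

theorem val_rec (M : ℕ) (a : P) (c : ℤ) :
    dot a (u M (c + 1)) + dot a (u M (c - 1)) = 2 * cos (π / M) * dot a (u M c) := by
  simp only [dot, u]
  rw [ang_succ, ang_pred, cos_add, cos_sub, sin_add, sin_sub]
  ring

theorem sin_h_pos {M : ℕ} (hM : 2 ≤ M) : 0 < sin (π / M) := by
  have hM' : (2 : ℝ) ≤ M := by exact_mod_cast hM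
  refine sin_pos_of_pos_of_lt_pi (div_pos pi_pos (by linarith)) ?_
  rw [div_lt_iff₀ (by linarith)]
  nlinarith [pi_pos]

theorem cos_h_pos {M : ℕ} (hM : 3 ≤ M) : 0 < cos (π / M) := by
  have hM' : (3 : ℝ) ≤ M := by exact_mod_cast hM
  have h0 : 0 < π / M := div_pos pi_pos (by linarith)
  refine cos_pos_of_mem_Ioo ⟨by linarith [pi_pos], ?_⟩
  rw [div_lt_div_iff₀ (by linarith) (by norm_num)]
  nlinarith [pi_pos]

theorem val_inj {M : ℕ} (hM : 2 ≤ M) (a b : P) (c : ℤ) (h1 : dot a (u M c) = dot b (u M c))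
    (h2 : dot a (u M (c + 1)) = dot b (u M (c + 1))) : a = b := by
  have hs := sin_h_pos hM
  simp only [dot, u] at h1 h2
  rw [ang_succ, cos_add, sin_add] at h2
  have hp := sin_sq_add_cos_sq ((c : ℝ) * π / M)
  set C := cos ((c : ℝ) * π / M)
  set S := sin ((c : ℝ) * π / M)
  set ch := cos (π / M)
  set sh := sin (π / M)
  have h3 : sh * (-(a.1 - b.1) * S + (a.2 - b.2) * C) = 0 := by
    linear_combination h2 - ch * h1
  have h4 : -(a.1 - b.1) * S + (a.2 - b.2) * C = 0 := by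
    rcases mul_eq_zero.1 h3 with h | h
    · exact absurd h hs.ne'
    · exact h
  refine Prod.ext ?_ ?_
  · linear_combination C * h1 - S * h4 - (a.1 - b.1) * hp
  · linear_combination S * h1 + C * h4 - (a.2 - b.2) * hp

theorem val_add_M {M : ℕ} (hM : 0 < M) (a : P) (c : ℤ) :
    dot a (u M (c + M)) = -dot a (u M c) := by
  have hM' : (M : ℝ) ≠ 0 := by exact_mod_cast hM.ne'
  have h : ((c + M : ℤ) : ℝ) * π / M = (c : ℝ) * π / M + π := by
    push_cast; field_simp
  simp only [dot, u]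
  rw [h, cos_add_pi, sin_add_pi]
  ring

theorem G_M_sub {M : ℕ} (hM : 0 < M) (d : ℤ) : G M (M - d) = -G M d := by
  have hM' : (M : ℝ) ≠ 0 := by exact_mod_cast hM.ne'
  have h : ((M - d : ℤ) : ℝ) * π / M = π - (d : ℝ) * π / M := by
    push_cast; field_simp
  simp only [G]
  rw [h, cos_pi_sub]

theorem u_per {M : ℕ} (hM : 0 < M) (c t : ℤ) : u M (c + 2 * M * t) = u M c := by
  have hM' : (M : ℝ) ≠ 0 := by exact_mod_cast hM.ne'
  have h : ((c + 2 * M * t : ℤ) : ℝ) * π / M = (c : ℝ) * π / M + (t : ℝ) * (2 * π) := by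
    push_cast; field_simp
  simp only [u]
  rw [h, cos_add_int_mul_two_pi, sin_add_int_mul_two_pi]

theorem rep {M : ℕ} (hM : 0 < M) (j c : ℤ) :
    ∃ l : ℤ, u M (2 * j) = u M (2 * l) ∧ -(M : ℤ) ≤ c - 2 * l ∧ c - 2 * l < M := by
  have hM' : (0 : ℤ) < 2 * M := by omega
  have h1 := Int.emod_nonneg (c - 2 * j + M) hM'.ne'
  have h2 := Int.emod_lt_of_pos (c - 2 * j + M) hM'
  have h3 := Int.emod_add_mul_ediv (c - 2 * j + M) (2 * M)
  refine ⟨j + M * ((c - 2 * j + M) / (2 * M)), ?_, ?_, ?_⟩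
  · rw [show 2 * (j + M * ((c - 2 * j + M) / (2 * M))) =
      2 * j + 2 * M * ((c - 2 * j + M) / (2 * M)) by ring, u_per hM]
  · nlinarith
  · nlinarith

theorem lat {M : ℕ} (hM : 2 ≤ M) : Lat (cos (π / M)) (fun a c => dot a (u M c))
    (fun i => u M (2 * i)) (fun _ => 0) (fun d => -G M d) where
  vrec a c := val_rec M a c
  inj a b c := val_inj hM a b c
  sval i c := by
    simp only [dot_u]
    ring
  even d := by simp only [G_neg]
  grec c d := by
    have := G_rec M d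
    linarith

theorem cone {M : ℕ} (hM : 2 ≤ M) (ν : P) (hν : ν ≠ 0) :
    ∃ (c : ℤ) (x y : ℝ), 0 < x ∧ 0 ≤ y ∧
      ∀ a, dot a ν = x * dot a (u M c) + y * dot a (u M (c + 1)) := by
  have hs := sin_h_pos hM
  have hM' : (2 : ℝ) ≤ M := by exact_mod_cast hM
  have hh : 0 < π / M := div_pos pi_pos (by linarith)
  have hh2 : π / M < π := by
    rw [div_lt_iff₀ (by linarith)]
    nlinarith [pi_pos]
  set z : ℂ := ⟨ν.1, ν.2⟩ with hz
  have hz0 : z ≠ 0 := by
    intro h
    apply hν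
    have h1 : z.re = 0 := by rw [h]; rfl
    have h2 : z.im = 0 := by rw [h]; rfl
    exact Prod.ext h1 h2
  have hρ : 0 < ‖z‖ := norm_pos_iff.2 hz0
  have h1 : ‖z‖ * cos (Complex.arg z) = ν.1 := Complex.norm_mul_cos_arg z
  have h2 : ‖z‖ * sin (Complex.arg z) = ν.2 := Complex.norm_mul_sin_arg z
  set θ := Complex.arg z
  set ρ := ‖z‖
  set h := π / M with hdef
  have hf1 := Int.floor_le (θ / h)
  have hf2 := Int.lt_floor_add_one (θ / h)
  set c : ℤ := ⌊θ / h⌋
  rw [le_div_iff₀ hh] at hf1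
  rw [div_lt_iff₀ hh] at hf2
  obtain ⟨φ, hφ⟩ : ∃ φ : ℝ, φ = θ - c * h := ⟨_, rfl⟩
  have hφ0 : 0 ≤ φ := by linarith
  have hφ1 : φ < h := by linarith
  have hθ : θ = c * h + φ := by linarith
  have hs1 : 0 < sin (h - φ) := sin_pos_of_pos_of_lt_pi (by linarith) (by linarith)
  have hs2 : 0 ≤ sin φ := sin_nonneg_of_nonneg_of_le_pi hφ0 (by linarith)
  refine ⟨c, ρ * sin (h - φ) / sin h, ρ * sin φ / sin h, by positivity, by positivity, fun a => ?_⟩
  have hc : (c : ℝ) * π / M = c * h := by rw [hdef]; ring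
  simp only [dot, u]
  rw [ang_succ, hc, ← hdef, ← h1, ← h2, sin_sub, hθ]
  simp only [cos_add, sin_add]
  field_simp
  ring

/-- The wires that are not vertices of the polygon. -/
def Ex (M : ℕ) (A : Finset P) (e : P) : Prop := e ∈ A ∧ ∀ i : ℤ, e ≠ u M (2 * i)

theorem ex_or {M : ℕ} (hM : 0 < M) {A : Finset P} {a : P} (ha : a ∈ A) (c : ℤ) :
    Ex M A a ∨ ∃ l : ℤ, a = u M (2 * l) ∧ -(M : ℤ) ≤ c - 2 * l ∧ c - 2 * l < M := by
  by_cases h : ∀ i : ℤ, a ≠ u M (2 * i)
  · exact Or.inl ⟨ha, h⟩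
  · push Not at h
    obtain ⟨j, hj⟩ := h
    obtain ⟨l, h1, h2, h3⟩ := rep hM j c
    exact Or.inr ⟨l, hj.trans h1, h2, h3⟩

/-- An extra wire is not on the boundary of the convex hull. -/
theorem not_hull {M : ℕ} {A : Finset P} (hN : Norm M A) {e : P} (he : Ex M A e) (ν : P)
    (hν : ν ≠ 0) (h : ∀ b ∈ A, dot b ν ≤ dot e ν) : False := by
  have hM := hN.big
  obtain ⟨c, x, y, hx, hy, hd⟩ := cone (M := M) (by omega) ν hν
  have hl : ∀ c : ℤ, dot e (u M c) ≤ G M 12 := fun c => by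
    have := hN.low e he.1 he.2 c
    simpa [G] using this
  have h12 : G M 12 < G M 1 := G_lt (by omega) (by omega) (by omega)
  have hb := h _ (hN.mem ((c + 1) / 2))
  rw [hd, hd, dot_u, dot_u] at hb
  have g1 : G M 1 ≤ G M (c - 2 * ((c + 1) / 2)) := by
    rw [← G_abs M (c - _)]
    exact G_le (abs_nonneg _) (abs_le.2 ⟨by omega, by omega⟩) (by omega)
  have g2 : G M 1 ≤ G M (c + 1 - 2 * ((c + 1) / 2)) := by
    rw [← G_abs M (c + 1 - _)]
    exact G_le (abs_nonneg _) (abs_le.2 ⟨by omega, by omega⟩) (by omega)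
  nlinarith [mul_le_mul_of_nonneg_left (hl c) hx.le, mul_le_mul_of_nonneg_left (hl (c + 1)) hy,
    mul_le_mul_of_nonneg_left g1 hx.le, mul_le_mul_of_nonneg_left g2 hy,
    mul_pos hx (sub_pos.2 h12), mul_nonneg hy (sub_pos.2 h12).le]

/-- The depth of the extra wires is at least `r - 1`. -/
theorem box_depth {M : ℕ} {A : Finset P} {r : ℕ} (hN : Norm M A) (hB : Box A r) {d : ℕ}
    (hd : d + 1 ≤ M)
    (hc : ∀ c : ℤ, ∃ e, Ex M A e ∧ G M (d + 1) ≤ dot e (u M c) ∧
      G M (d + 1) ≤ dot e (u M (c + 1))) : r ≤ d + 1 := by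
  have hM := hN.big
  by_contra hr
  obtain ⟨ν, hν, hb⟩ := hB
  obtain ⟨c, x, y, hx, hy, hdot⟩ := cone (M := M) (by omega) ν hν
  obtain ⟨e0, he0, h1, h2⟩ := hc c
  obtain ⟨e, he, hmax⟩ := (A.filter (Ex M A)).exists_max_image (fun a => dot a ν)
    ⟨e0, Finset.mem_filter.2 ⟨he0.1, he0⟩⟩
  have heE : Ex M A e := (Finset.mem_filter.1 he).2
  have hsub : A.filter (fun b => dot e ν < dot b ν) ⊆
      (Finset.Icc ((c - d) / 2) ((c - d) / 2 + d + 1)).image (fun l : ℤ => u M (2 * l)) := by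
    intro b hbm
    obtain ⟨hbA, hlt⟩ := Finset.mem_filter.1 hbm
    rcases ex_or (M := M) (by omega) hbA c with h | ⟨l, rfl, hl1, hl2⟩
    · exact absurd hlt (not_lt.2 (hmax b (Finset.mem_filter.2 ⟨hbA, h⟩)))
    · refine Finset.mem_image.2 ⟨l, Finset.mem_Icc.2 ?_, rfl⟩
      have h3 : dot e0 ν < dot (u M (2 * l)) ν :=
        lt_of_le_of_lt (hmax e0 (Finset.mem_filter.2 ⟨he0.1, he0⟩)) hlt
      rw [hdot, hdot, dot_u, dot_u] at h3
      have h4 : G M (d + 1) < G M (c - 2 * l) ∨ G M (d + 1) < G M (c + 1 - 2 * l) := by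
        by_contra hn
        push Not at hn
        nlinarith [mul_le_mul_of_nonneg_left (hn.1.trans h1) hx.le,
          mul_le_mul_of_nonneg_left (hn.2.trans h2) hy]
      rcases h4 with h4 | h4
      · rw [← G_abs M (c - _)] at h4
        have := abs_lt.1 (lt_of_G_lt (by omega) (abs_le.2 ⟨by omega, by omega⟩) h4)
        omega
      · rw [← G_abs M (c + 1 - _)] at h4
        have := abs_lt.1 (lt_of_G_lt (by omega) (abs_le.2 ⟨by omega, by omega⟩) h4)
        omega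
  have hcard : (A.filter (fun b => dot e ν < dot b ν)).card ≤ r := by
    refine (Finset.card_le_card hsub).trans (Finset.card_image_le.trans ?_)
    rw [Int.card_Icc]
    omega
  obtain ⟨ν', hν', h'⟩ := hb e heE.1 hcard
  exact not_hull hN heE ν' hν' h'

/-- One step from a ray of depth `d - 1`. -/
theorem step (hS : S_Step) {M : ℕ} {A : Finset P} (hN : Norm M A) {d : ℤ} (h3 : 3 ≤ d)
    (_hd : d ≤ M)
    (h1 : ∀ e, Ex M A e → ∀ k : ℤ, dot e (u M (d - 1 + 2 * k)) < G M (d - 1))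
    (h2 : ∀ e, Ex M A e → ∀ k : ℤ, dot e (u M (d - 2 + 2 * k)) < G M (d - 2)) (k : ℤ) :
    (∀ e, Ex M A e → dot e (u M (d + 2 * k)) ≤ G M d) ∧
      ∀ a ∈ A, dot a (u M (d - 1 + 2 * k)) < G M (d - 1) →
        ∃ b ∈ A, dot a (u M (d - 1 + 2 * k)) ≤ dot b (u M (d - 1 + 2 * k)) ∧
          dot b (u M (d - 1 + 2 * k)) < G M (d - 1) ∧ dot b (u M (d + 2 * k)) = G M d := by
  have hM := hN.big
  have hmono : Mono (fun d => -G M d) (d - 1 + 1) := fun a b h0 hab hb =>
    neg_lt_neg (G_lt h0 hab (by omega))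
  have hJ : JJ A (fun a c => dot a (u M c)) (fun i => u M (2 * i)) (fun _ => 0)
      (fun d => -G M d) (d - 1 + 2 * k) (d - 1) := by
    refine ⟨fun i _ => hN.mem i, fun a ha hne => ?_⟩
    simp only [zero_sub, neg_neg]
    rcases ex_or (M := M) (by omega) ha (d - 1 + 2 * k) with h | ⟨l, rfl, hl1, hl2⟩
    · exact h1 a h k
    · rw [dot_u, ← G_abs M (d - 1 + 2 * k - _)]
      refine G_lt (by omega) ?_ (abs_le.2 ⟨by omega, by omega⟩)
      by_contra hn
      exact hne l (not_lt.1 hn) rfl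
  have e1 : d - 1 + 2 * k + 1 = d + 2 * k := by ring
  have e2 : d - 1 + 1 = d := by ring
  rcases hS A _ _ _ _ _ (d - 1 + 2 * k) (d - 1) k (lat (by omega)) hmono (by omega) (by ring)
    (hN.loc _) hJ with ⟨hK, hb⟩ | ⟨-, e, heA, he1, he2⟩
  · simp only [zero_sub, neg_neg, e1, e2] at hb
    refine ⟨fun e he => ?_, hb⟩
    have := hK.2 e he.1 (fun i _ _ => he.2 i)
    simpa only [zero_sub, neg_neg, e1, e2] using this
  · exfalso
    simp only [zero_sub, neg_neg, e1] at he1 he2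
    rw [show d - 1 - 1 = d - 2 by ring] at he2
    rcases ex_or (M := M) (by omega) heA (d + 2 * k) with h | ⟨l, rfl, hl1, hl2⟩
    · have := h2 e h (k + 1)
      rw [show d - 2 + 2 * (k + 1) = d + 2 * k by ring, he2] at this
      exact lt_irrefl _ this
    · rw [dot_u] at he1 he2
      rw [← G_abs M (d + 2 * k - _)] at he2
      rw [← G_abs M (d - 1 + 2 * k - _)] at he1
      have h4 := abs_le.1 (le_of_G_le (by omega) (abs_le.2 ⟨by omega, by omega⟩) he2.ge)
      exact absurd he1 (not_lt.2 (G_le (abs_nonneg _) (abs_le.2 ⟨by omega, by omega⟩) (by omega)))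

end DepthAux

open DepthAux

theorem t_Depth (hS : S_Step) (hM : S_Metric) : S_Depth := by
  intro M A r hN hB hr hcard e0 he0A
  have hbig := hN.big
  have hM0 : 0 < M := by omega
  by_cases hlat : ∃ i : ℤ, e0 = u M (2 * i)
  · exact Or.inl hlat
  refine Or.inr ?_
  have he0 : Ex M A e0 := ⟨he0A, fun i h => hlat ⟨i, h⟩⟩
  have hl : ∀ e, Ex M A e → ∀ c : ℤ, dot e (u M c) ≤ G M 12 := fun e he c => by
    have := hN.low e he.1 he.2 c
    simpa [G] using this
  have hTM : ∃ e, Ex M A e ∧ ∃ k : ℤ, G M (M : ℕ) ≤ dot e (u M ((M : ℕ) + 2 * k)) := by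
    refine ⟨e0, he0, 0, ?_⟩
    have h1 := val_add_M hM0 e0 0
    have h2 := G_M_sub hM0 0
    have h3 := hl e0 he0 0
    have h4 : G M 12 ≤ G M 0 := G_le le_rfl (by omega) (by omega)
    rw [zero_add] at h1
    rw [sub_zero] at h2
    rw [mul_zero, add_zero, h1, h2]
    linarith
  have hex : ∃ d : ℕ, ∃ e, Ex M A e ∧ ∃ k : ℤ, G M d ≤ dot e (u M (d + 2 * k)) := ⟨M, hTM⟩
  obtain ⟨d, hdT, hdM, hmin⟩ : ∃ d : ℕ,
      (∃ e, Ex M A e ∧ ∃ k : ℤ, G M d ≤ dot e (u M (d + 2 * k))) ∧ d ≤ M ∧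
      ∀ d' : ℤ, 0 ≤ d' → d' < d → ∀ e, Ex M A e → ∀ k : ℤ,
        dot e (u M (d' + 2 * k)) < G M d' := by
    refine ⟨Nat.find hex, Nat.find_spec hex, Nat.find_min' hex hTM, fun d' h0 h1 e he k => ?_⟩
    obtain ⟨n, rfl⟩ := Int.eq_ofNat_of_zero_le h0
    by_contra hn
    exact Nat.find_min hex (by exact_mod_cast h1) ⟨e, he, k, not_lt.1 hn⟩
  obtain ⟨e1, he1, k1, hk1⟩ := hdT
  have h12 : (12 : ℤ) ≤ d :=
    le_of_G_le (M := M) (by omega) (by omega) (hk1.trans (hl e1 he1 _))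
  have hst := step hS hN (d := d) (by omega) (by omega) (hmin _ (by omega) (by omega))
    (hmin _ (by omega) (by omega))
  have hlt : ∀ e, Ex M A e → ∀ c : ℤ, dot e (u M c) < G M (d - 1) := by
    intro e he c
    rcases Int.emod_two_eq_zero_or_one (c - d) with h | h
    · have h1 := (hst ((c - d) / 2)).1 e he
      rw [show (d : ℤ) + 2 * ((c - d) / 2) = c by omega] at h1
      exact h1.trans_lt (G_lt (by omega) (by omega) (by omega))
    · have h1 := hmin (d - 1) (by omega) (by omega) e he ((c - d + 1) / 2)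
      rwa [show (d : ℤ) - 1 + 2 * ((c - d + 1) / 2) = c by omega] at h1
  have ht1 : dot e1 (u M (d + 2 * k1)) = G M d := le_antisymm ((hst k1).1 e1 he1) hk1
  have h2d : 2 * d ≤ M := by
    have h1 := hlt e1 he1 (d + 2 * k1 + M)
    rw [val_add_M hM0, ht1, ← G_M_sub hM0] at h1
    have := lt_of_G_lt (by omega) (by omega) h1
    omega
  have hnb : ∀ e, Ex M A e → ∀ c : ℤ, dot e (u M c) = G M d →
      G M (d + 1) < dot e (u M (c + 1)) ∧ G M (d + 1) < dot e (u M (c - 1)) := by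
    intro e he c h
    have h1 := val_rec M e c
    have h2 := G_rec M d
    have h3 := hlt e he (c + 1)
    have h4 := hlt e he (c - 1)
    rw [h] at h1
    constructor <;> linarith
  have hnext : ∀ k : ℤ, (∃ e, Ex M A e ∧ dot e (u M (d + 2 * k)) = G M d) →
      ∃ e, Ex M A e ∧ dot e (u M (d + 2 * (k + 1))) = G M d := by
    rintro k ⟨e, he, ht⟩
    have h1 := (hnb e he _ ht).1
    rw [show (d : ℤ) + 2 * k + 1 = d - 1 + 2 * (k + 1) by ring] at h1
    obtain ⟨b, hbA, hb1, hb2, hb3⟩ := (hst (k + 1)).2 e he.1 (hlt e he _)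
    refine ⟨b, ?_, hb3⟩
    rcases ex_or hM0 hbA (d - 1 + 2 * (k + 1)) with h | ⟨l, rfl, hl1, hl2⟩
    · exact h
    · exfalso
      have h4 := h1.trans_le hb1
      rw [dot_u, ← G_abs M (d - 1 + 2 * (k + 1) - _)] at h4 hb2
      have h5 := lt_of_G_lt (by omega) (abs_le.2 ⟨by omega, by omega⟩) h4
      have h6 := lt_of_G_lt (abs_nonneg _) (by omega) hb2
      rcases abs_choice ((d : ℤ) - 1 + 2 * (k + 1) - 2 * l) with h | h <;> omega
  have hall : ∀ k : ℤ, ∃ e, Ex M A e ∧ dot e (u M (d + 2 * k)) = G M d := by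
    have hn : ∀ n : ℕ, ∃ e, Ex M A e ∧ dot e (u M (d + 2 * (k1 + n))) = G M d := by
      intro n
      induction n with
      | zero => exact ⟨e1, he1, by simpa using ht1⟩
      | succ n ih =>
        have := hnext _ ih
        rwa [show k1 + (n : ℤ) + 1 = k1 + ((n + 1 : ℕ) : ℤ) by push_cast; ring] at this
    intro k
    have hnn : 0 ≤ k + M * |k1 - k| - k1 := by
      have h1 := le_abs_self (k1 - k)
      have h2 := abs_nonneg (k1 - k)
      have h3 : (1 : ℤ) ≤ M := by omega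
      nlinarith
    obtain ⟨n, hn'⟩ := Int.eq_ofNat_of_zero_le hnn
    obtain ⟨e, he, ht⟩ := hn n
    refine ⟨e, he, ?_⟩
    rwa [← hn', show (d : ℤ) + 2 * (k1 + (k + M * |k1 - k| - k1)) =
      d + 2 * k + 2 * M * |k1 - k| by ring, u_per hM0] at ht
  rcases h2d.lt_or_eq with h2d | h2d
  · exfalso
    have hr1 : r ≤ d + 1 := by
      refine box_depth hN hB (by omega) fun c => ?_
      have hG : G M (d + 1) ≤ G M d := G_le (by omega) (by omega) (by omega)
      rcases Int.emod_two_eq_zero_or_one (c - d) with h | h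
      · obtain ⟨e, he, ht⟩ := hall ((c - d) / 2)
        rw [show (d : ℤ) + 2 * ((c - d) / 2) = c by omega] at ht
        exact ⟨e, he, hG.trans ht.ge, (hnb e he c ht).1.le⟩
      · obtain ⟨e, he, ht⟩ := hall ((c - d + 1) / 2)
        rw [show (d : ℤ) + 2 * ((c - d + 1) / 2) = c + 1 by omega] at ht
        have := (hnb e he _ ht).2
        rw [add_sub_cancel_right] at this
        exact ⟨e, he, this.le, hG.trans ht.ge⟩
    have hGd : G M d = cos (d * π / M) := by simp [G]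
    have hmet := hM M A d hN (by omega) h2d fun k =>
      ⟨fun e heA he => hGd ▸ (hst k).1 e ⟨heA, he⟩, by
        obtain ⟨e, he, ht⟩ := hall k
        exact ⟨e, he.1, he.2, hGd ▸ ht⟩⟩
    have : M * (r - 1) ≤ M * d := Nat.mul_le_mul_left _ (by omega)
    omega
  · refine ⟨⟨d, by omega⟩, ?_⟩
    have hG0 : G M d = 0 := by
      have h1 := G_M_sub hM0 d
      rw [show (M : ℤ) - d = d by omega] at h1
      linarith
    have hz : ∀ k : ℤ, dot e0 (u M (d + 2 * k)) = 0 := by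
      intro k
      have h1 := (hst k).1 e0 he0
      have h2 := (hst (k + d)).1 e0 he0
      rw [show (d : ℤ) + 2 * (k + d) = d + 2 * k + M by omega, val_add_M hM0] at h2
      linarith
    have h0 := hz 0
    have h1 := hz 1
    have h2 := val_rec M e0 (d + 1)
    rw [mul_zero, add_zero] at h0
    rw [show (d : ℤ) + 1 + 1 = d + 2 * 1 by ring, add_sub_cancel_right, h0, h1] at h2
    have hc := cos_h_pos (M := M) (by omega)
    have h3 : dot e0 (u M (d + 1)) = 0 := by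
      have h4 : 2 * cos (π / M) * dot e0 (u M (d + 1)) = 0 := by linarith
      rcases mul_eq_zero.1 h4 with h | h
      · exact absurd h (by positivity)
      · exact h
    refine val_inj (M := M) (by omega) e0 0 d ?_ ?_
    · rw [h0]; simp [dot]
    · rw [h3]; simp [dot]

end Pool.Agent.SimpArr.BV
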