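import Pool.Agent.P.MP_0b4c38_co.BVIface

/-! Normalisation and conclusion. -/

set_option autoImplicit false

open Classical Real

namespace Pool.Agent.SimpArr.BV

namespace FinAux

/-- The point with coordinates `y` in the affine frame `b, e1, e2`. -/
def phi (b e1 e2 y : P) : P := b + y.1 • e1 + y.2 • e2

/-- Coordinates in the affine frame `b, e1, e2`. -/
noncomputable def psi (b e1 e2 : P) (h : det e1 e2 ≠ 0) : P ≃ P where
  toFun a := (det (a - b) e2 / det e1 e2, det e1 (a - b) / det e1 e2)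
  invFun y := phi b e1 e2 y
  left_inv a := by
    obtain ⟨w, hw⟩ : ∃ w, w * det e1 e2 = 1 := ⟨(det e1 e2)⁻¹, inv_mul_cancel₀ h⟩
    have hi : (det e1 e2)⁻¹ = w := (eq_inv_of_mul_eq_one_left hw).symm
    ext
    · simp only [phi, div_eq_mul_inv, hi]
      simp only [det, Prod.fst_add, Prod.smul_fst, smul_eq_mul, Prod.fst_sub, Prod.snd_sub] at hw ⊢
      linear_combination (a.1 - b.1) * hw
    · simp only [phi, div_eq_mul_inv, hi]
      simp only [det, Prod.snd_add, Prod.smul_snd, smul_eq_mul, Prod.fst_sub, Prod.snd_sub] at hw ⊢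
      linear_combination (a.2 - b.2) * hw
  right_inv y := by
    obtain ⟨w, hw⟩ : ∃ w, w * det e1 e2 = 1 := ⟨(det e1 e2)⁻¹, inv_mul_cancel₀ h⟩
    have hi : (det e1 e2)⁻¹ = w := (eq_inv_of_mul_eq_one_left hw).symm
    ext
    · simp only [phi, div_eq_mul_inv, hi]
      simp only [det, Prod.fst_add, Prod.smul_fst, smul_eq_mul, Prod.fst_sub, Prod.snd_sub,
        Prod.snd_add, Prod.smul_snd] at hw ⊢
      linear_combination y.1 * hw
    · simp only [phi, div_eq_mul_inv, hi]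
      simp only [det, Prod.fst_add, Prod.smul_fst, smul_eq_mul, Prod.fst_sub, Prod.snd_sub,
        Prod.snd_add, Prod.smul_snd] at hw ⊢
      linear_combination y.2 * hw

theorem phi_psi (b e1 e2 : P) (h : det e1 e2 ≠ 0) (a : P) :
    phi b e1 e2 (psi b e1 e2 h a) = a := (psi b e1 e2 h).left_inv a

theorem psi_phi (b e1 e2 : P) (h : det e1 e2 ≠ 0) (y : P) :
    psi b e1 e2 h (phi b e1 e2 y) = y := (psi b e1 e2 h).right_inv y

theorem dot_phi (b e1 e2 y ν : P) :
    dot (phi b e1 e2 y) ν = dot y (dot e1 ν, dot e2 ν) + dot b ν := by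
  simp only [phi, dot, Prod.fst_add, Prod.smul_fst, smul_eq_mul, Prod.snd_add, Prod.smul_snd]
  ring

theorem dot_psi (b e1 e2 : P) (h : det e1 e2 ≠ 0) (a ν : P) :
    dot a ν = dot (psi b e1 e2 h a) (dot e1 ν, dot e2 ν) + dot b ν := by
  rw [← dot_phi, phi_psi]

theorem dual_ne (e1 e2 ν : P) (h : det e1 e2 ≠ 0) (hν : ν ≠ 0) :
    ((dot e1 ν, dot e2 ν) : P) ≠ 0 := by
  intro h0
  have h1 : dot e1 ν = 0 := congrArg Prod.fst h0
  have h2 : dot e2 ν = 0 := congrArg Prod.snd h0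
  apply hν
  unfold dot at h1 h2
  unfold det at h
  ext
  · have : (e1.1 * e2.2 - e1.2 * e2.1) * ν.1 = 0 := by
      linear_combination e2.2 * h1 - e1.2 * h2
    exact (mul_eq_zero.1 this).resolve_left h
  · have : (e1.1 * e2.2 - e1.2 * e2.1) * ν.2 = 0 := by
      linear_combination e1.1 * h2 - e2.1 * h1
    exact (mul_eq_zero.1 this).resolve_left h

theorem u_per (M : ℕ) (hM : 0 < M) (c k : ℤ) : u M (c + 2 * M * k) = u M c := by
  have hM' : (M : ℝ) ≠ 0 := by exact_mod_cast hM.ne'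
  have : ((c + 2 * M * k : ℤ) : ℝ) * π / M = c * π / M + k * (2 * π) := by
    push_cast
    field_simp
  unfold u
  rw [this, cos_add_int_mul_two_pi, sin_add_int_mul_two_pi]

theorem exists_shift (M : ℕ) (hM : 0 < M) (c : ℤ) : ∃ k : ℤ, 12 ≤ c + 2 * M * k := by
  refine ⟨|c| + 12, ?_⟩
  have h1 : (1 : ℤ) ≤ M := by exact_mod_cast hM
  have h2 := neg_abs_le c
  have h3 := abs_nonneg c
  nlinarith

theorem u_nat (M : ℕ) (j : ℕ) :
    u M (2 * (j : ℤ)) = (cos (2 * π * j / M), sin (2 * π * j / M)) := by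
  have : ((2 * (j : ℤ) : ℤ) : ℝ) * π / M = 2 * π * j / M := by
    push_cast
    ring
  unfold u
  rw [this]

theorem u_mod (M : ℕ) (hM : 0 < M) (i : ℤ) :
    ∃ j : ℕ, j < M ∧ u M (2 * i) = u M (2 * (j : ℤ)) := by
  have h1 : (0 : ℤ) < M := by exact_mod_cast hM
  have h2 := Int.emod_nonneg i h1.ne'
  have h3 := Int.emod_lt_of_pos i h1
  refine ⟨(i % M).toNat, by omega, ?_⟩
  rw [Int.toNat_of_nonneg h2]
  have h4 : 2 * i = 2 * (i % M) + 2 * M * (i / M) := by
    have := Int.emod_add_mul_ediv i M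
    linear_combination (-2) * this
  rw [h4, u_per M hM]

theorem box_map (A : Finset P) (r : ℕ) (b e1 e2 : P) (h : det e1 e2 ≠ 0) (hB : Box A r) :
    Box (A.map (psi b e1 e2 h).toEmbedding) r := by
  obtain ⟨ν, hν, hB⟩ := hB
  refine ⟨(dot e1 ν, dot e2 ν), dual_ne e1 e2 ν h hν, fun e he hc => ?_⟩
  obtain ⟨a, ha, rfl⟩ := Finset.mem_map.1 he
  have hcard : (A.filter (fun x => dot a ν < dot x ν)).card ≤ r := by
    rw [Finset.filter_map, Finset.card_map] at hc
    refine le_trans (le_of_eq ?_) hc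
    congr 1
    refine Finset.filter_congr fun x _ => ?_
    simp only [Function.comp, Equiv.coe_toEmbedding]
    rw [dot_psi b e1 e2 h a ν, dot_psi b e1 e2 h x ν]
    exact add_lt_add_iff_right _
  obtain ⟨ν', hν', h'⟩ := hB a ha hcard
  refine ⟨(dot e1 ν', dot e2 ν'), dual_ne e1 e2 ν' h hν', fun y hy => ?_⟩
  obtain ⟨x, hx, rfl⟩ := Finset.mem_map.1 hy
  have := h' x hx
  rw [dot_psi b e1 e2 h a ν', dot_psi b e1 e2 h x ν'] at this
  simp only [Equiv.coe_toEmbedding]
  linarith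

end FinAux

open FinAux

theorem t_Fin (hC : S_Close) (hMap : S_Map) (hD : S_Depth) : S_Fin := by
  intro A X κ n s lam g r hmod hX hR hL hcvx hF hB hr hcard
  obtain ⟨M, e1, e2, b, ρ, hXM, hM, hρ, hdet, he, hs, hlam, hT⟩ :=
    hC X κ n s lam g hR hL hcvx hF.slab
  have hdot : ∀ (a : P) (c : ℤ),
      dot a (n c) = ρ * dot (psi b e1 e2 hdet a) (u M c) + dot b (n c) := by
    intro a c
    rw [dot_psi b e1 e2 hdet a (n c), (he c).1, (he c).2]
    simp only [dot]
    ring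
  have hsphi : ∀ i : ℤ, s i = phi b e1 e2 (u M (2 * i)) := fun i => hs i
  have hmem : ∀ i : ℤ, phi b e1 e2 (u M (2 * i)) ∈ A := by
    intro i
    obtain ⟨k, hk⟩ := exists_shift M hM (2 * i)
    have h1 : s (i + M * k) ∈ A := hF.mem _ (by linarith)
    rw [hsphi, show 2 * (i + M * k) = 2 * i + 2 * M * k by ring, u_per M hM] at h1
    exact h1
  have hN : Norm M (A.map (psi b e1 e2 hdet).toEmbedding) := by
    refine ⟨le_trans hX hXM, fun c => ?_, fun i => ?_, fun e hea hne c => ?_⟩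
    · obtain ⟨k, hk⟩ := exists_shift M hM c
      have h1 := hMap A _ _ (fun a => dot a (u M (c + 2 * M * k)))
        (fun a => dot a (u M (c + 2 * M * k + 1))) (psi b e1 e2 hdet) ρ
        (dot b (n (c + 2 * M * k))) (dot b (n (c + 2 * M * k + 1))) hρ
        (fun a => hdot a _) (fun a => hdot a _) (hmod _ _ (hF.slab _ hk))
      rw [show c + 2 * (M : ℤ) * k + 1 = c + 1 + 2 * M * k by ring, u_per M hM, u_per M hM] at h1
      exact h1
    · exact Finset.mem_map.2 ⟨_, hmem i, psi_phi b e1 e2 hdet _⟩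
    · obtain ⟨a, ha, rfl⟩ := Finset.mem_map.1 hea
      obtain ⟨k, hk⟩ := exists_shift M hM c
      have h1 := hF.low _ hk a ha (fun i hi => hne i (by
        rw [hi, hsphi]
        exact psi_phi b e1 e2 hdet _))
      rw [hlam, hdot a, u_per M hM] at h1
      have h2 : ρ * dot (psi b e1 e2 hdet a) (u M c) ≤ ρ * cos (12 * π / M) := by
        have h3 : (((12 : ℤ) : ℝ)) = 12 := by norm_num
        rw [h3] at h1
        linarith
      exact le_of_mul_le_mul_left h2 hρ
  have hdep := hD M _ r hN (box_map A r b e1 e2 hdet hB) hr (by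
    rw [Finset.card_map]
    exact lt_of_lt_of_le hcard (Nat.mul_le_mul_right _ hXM))
  have hcl : ∀ a ∈ A, (∃ j < M, a = b + cos (2 * π * j / M) • e1 + sin (2 * π * j / M) • e2) ∨
      (Even M ∧ a = b) := by
    intro a ha
    rcases hdep (psi b e1 e2 hdet a) (Finset.mem_map.2 ⟨a, ha, rfl⟩) with ⟨i, hi⟩ | ⟨hev, h0⟩
    · obtain ⟨j, hj, hu⟩ := u_mod M hM i
      refine Or.inl ⟨j, hj, ?_⟩
      rw [← phi_psi b e1 e2 hdet a, hi, hu, u_nat]
      rfl
    · refine Or.inr ⟨hev, ?_⟩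
      rw [← phi_psi b e1 e2 hdet a, h0]
      simp [phi]
  have hin : ∀ j : ℕ, b + cos (2 * π * j / M) • e1 + sin (2 * π * j / M) • e2 ∈ A := by
    intro j
    have h1 := hmem j
    rw [u_nat] at h1
    exact h1
  refine ⟨M, e1, e2, b, by omega, hdet, ?_, hT⟩
  by_cases hb : Even M ∧ b ∈ A
  · refine Or.inr ⟨hb.1, fun a => ⟨fun ha => ?_, fun ha => ?_⟩⟩
    · rcases hcl a ha with h | h
      · exact Or.inl h
      · exact Or.inr h.2
    · rcases ha with ⟨j, -, rfl⟩ | rfl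
      · exact hin j
      · exact hb.2
  · refine Or.inl fun a => ⟨fun ha => ?_, fun ha => ?_⟩
    · rcases hcl a ha with h | h
      · exact h
      · exact absurd ⟨h.1, h.2 ▸ ha⟩ hb
    · obtain ⟨j, -, rfl⟩ := ha
      exact hin j

end Pool.Agent.SimpArr.BV
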