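import Pool.Agent.P.MP_0b4c38_co.BVLev

/-! The first level count. -/

set_option autoImplicit false

open Classical Real

namespace Pool.Agent.SimpArr.BV

namespace LA1Aux

open Lev

/-- The wires that enter the top `k + 1` at `x`. -/
noncomputable def Ent (A : Finset P) (k : ℕ) (x : ℝ) : Finset P :=
  A.filter (fun a => rkP A x a ≤ k ∧ k < rkM A x a)

/-- The wires that leave the top `k + 1` at `x`. -/
noncomputable def Exi (A : Finset P) (k : ℕ) (x : ℝ) : Finset P :=
  A.filter (fun a => rkM A x a ≤ k ∧ k < rkP A x a)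

/-- The events strictly inside the interval. -/
noncomputable def EE (A : Finset P) (lo hi : ℝ) : Finset ℝ :=
  (Ev A).filter (fun x => lo < x ∧ x < hi)

theorem card_ent (A : Finset P) (k : ℕ) (x : ℝ) : (Ent A k x).card = (Exi A k x).card := by
  have e1 : Ent A k x = A.filter (fun a => rk A (AbP x) a ≤ k) \
      A.filter (fun a => rk A (AbM x) a ≤ k) := by
    ext a
    simp only [Ent, Finset.mem_filter, Finset.mem_sdiff, rkP_eq, rkM_eq]
    constructor
    · rintro ⟨h1, h2, h3⟩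
      exact ⟨⟨h1, h2⟩, fun h => absurd h.2 (not_le.2 h3)⟩
    · rintro ⟨⟨h1, h2⟩, h3⟩
      exact ⟨h1, h2, not_le.1 fun h => h3 ⟨h1, h⟩⟩
  have e2 : Exi A k x = A.filter (fun a => rk A (AbM x) a ≤ k) \
      A.filter (fun a => rk A (AbP x) a ≤ k) := by
    ext a
    simp only [Exi, Finset.mem_filter, Finset.mem_sdiff, rkP_eq, rkM_eq]
    constructor
    · rintro ⟨h1, h2, h3⟩
      exact ⟨⟨h1, h2⟩, fun h => absurd h.2 (not_le.2 h3)⟩
    · rintro ⟨⟨h1, h2⟩, h3⟩
      exact ⟨h1, h2, not_le.1 fun h => h3 ⟨h1, h⟩⟩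
  rw [e1, e2]
  exact Finset.card_sdiff_comm (by rw [(stoP x).card_top, (stoM x).card_top])

theorem ws_sub (A : Finset P) (lo hi : ℝ) (k : ℕ) :
    WS A lo hi k ⊆ A.filter (fun a => rk A (AbP lo) a ≤ k) ∪ (EE A lo hi).biUnion (Ent A k) := by
  intro a ha
  obtain ⟨ha, x, x1, x2, x3⟩ := Finset.mem_filter.1 ha
  by_cases h0 : rkP A lo a ≤ k
  · exact Finset.mem_union_left _ (Finset.mem_filter.2 ⟨ha, h0⟩)
  refine Finset.mem_union_right _ ?_
  have prev : ∀ t, lo < t → t < hi → rkM A t a ≤ k →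
      ∃ y ∈ (EE A lo hi).filter (fun y => rkP A y a ≤ k), y < t := by
    intro t t1 t2 t3
    obtain ⟨y, y1, y2, y3, y4⟩ := exists_prev (Ev A) t1
    rw [rkM_eq_rkP ha y2 y4] at t3
    have hy : y ≠ lo := fun e => h0 (e ▸ t3)
    exact ⟨y, Finset.mem_filter.2 ⟨Finset.mem_filter.2
      ⟨y3.resolve_left hy, lt_of_le_of_ne y1 hy.symm, y2.trans t2⟩, t3⟩, y2⟩
  have hx : lo < x := lt_of_le_of_ne x1 fun e => h0 (e ▸ x3)
  have hne : ((EE A lo hi).filter (fun y => rkP A y a ≤ k)).Nonempty := by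
    by_cases hE : x ∈ Ev A
    · exact ⟨x, Finset.mem_filter.2 ⟨Finset.mem_filter.2 ⟨hE, hx, x2⟩, x3⟩⟩
    · obtain ⟨y, hy, -⟩ := prev x hx x2 (rkP_eq_rkM ha hE ▸ x3)
      exact ⟨y, hy⟩
  obtain ⟨z, hz, hm⟩ := Finset.exists_min_image _ id hne
  obtain ⟨z1, z2⟩ := Finset.mem_filter.1 hz
  obtain ⟨-, z3, z4⟩ := Finset.mem_filter.1 z1
  refine Finset.mem_biUnion.2 ⟨z, z1, Finset.mem_filter.2 ⟨ha, z2, not_le.1 fun h => ?_⟩⟩
  obtain ⟨y, hy, hyz⟩ := prev z z3 z4 h
  exact absurd (hm y hy) (not_le.2 hyz)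

theorem ws_le (A : Finset P) (lo hi : ℝ) (k : ℕ) :
    (WS A lo hi k).card ≤ (k + 1) + ∑ x ∈ EE A lo hi, (Ent A k x).card := by
  refine (Finset.card_le_card (ws_sub A lo hi k)).trans ((Finset.card_union_le _ _).trans ?_)
  refine Nat.add_le_add ?_ Finset.card_biUnion_le
  rw [(stoP lo).card_top]
  exact min_le_left _ _

theorem ent_le {A : Finset P} (xa : P → ℝ) {k : ℕ} {x : ℝ} {g : P} (hg : g ∈ A)
    (hk : rkP A x g = k) : (Ent A k x).card ≤ 1 + (bad A xa g x).card := by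
  have key : ∀ a ∈ Ent A k x, ∀ b ∈ Exi A k x,
      (f a x = f g x ∧ (a = g ∨ g.2 < a.2)) ∧ f b x = f g x ∧ b.2 < g.2 := by
    intro a ha b hb
    obtain ⟨ha, a1, a2⟩ := Finset.mem_filter.1 ha
    obtain ⟨hb, b1, b2⟩ := Finset.mem_filter.1 hb
    have h1 : AbM x a b := (stoM x).of_rk_lt ha (b1.trans_lt a2)
    have h2 : AbP x b g := (stoP x).of_rk_lt (A := A) hb (by
      rw [← rkP_eq, ← rkP_eq, hk]; exact b2)
    have h3 : g = a ∨ AbP x g a := (stoP x).of_rk_le (A := A) hg (by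
      rw [← rkP_eq, ← rkP_eq, hk]; exact a1)
    have e1 := AbM_le h1
    have e2 := AbP_le h2
    have e3 : f g x ≤ f a x := h3.elim (fun e => e ▸ le_rfl) AbP_le
    refine ⟨⟨le_antisymm (e1.trans e2) e3, ?_⟩, le_antisymm e2 (e3.trans e1), ?_⟩
    · rcases h3 with h3 | h3 | h3
      · exact Or.inl h3.symm
      · exact absurd h3 (not_lt.2 (e1.trans e2))
      · exact Or.inr h3.2
    · rcases h2 with h2 | h2
      · exact absurd h2 (not_lt.2 (e3.trans e1))
      · exact h2.2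
  rcases (Ent A k x).eq_empty_or_nonempty with h0 | ⟨a0, ha0⟩
  · rw [h0]
    exact Nat.zero_le _
  obtain ⟨b0, hb0⟩ : (Exi A k x).Nonempty := by
    rw [← Finset.card_pos, ← card_ent, Finset.card_pos]
    exact ⟨a0, ha0⟩
  rcases le_or_gt x (xa g) with hx | hx
  · have hs : Ent A k x ⊆ insert g (bad A xa g x) := by
      intro a ha
      obtain ⟨⟨h1, h2 | h2⟩, -⟩ := key a ha b0 hb0
      · exact h2 ▸ Finset.mem_insert_self _ _
      · exact Finset.mem_insert_of_mem (Finset.mem_filter.2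
          ⟨(Finset.mem_filter.1 ha).1, h1, Or.inr ⟨hx, h2⟩⟩)
    refine (Finset.card_le_card hs).trans ((Finset.card_insert_le _ _).trans ?_)
    omega
  · have hs : Exi A k x ⊆ bad A xa g x := by
      intro b hb
      obtain ⟨-, h1, h2⟩ := key a0 ha0 b hb
      exact Finset.mem_filter.2 ⟨(Finset.mem_filter.1 hb).1, h1, Or.inl ⟨hx, h2⟩⟩
    rw [card_ent]
    exact (Finset.card_le_card hs).trans (Nat.le_add_left _ _)

theorem ent_le_sum {A : Finset P} (xa : P → ℝ) {lo hi x : ℝ} {k J : ℕ} (hk : k < J)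
    (h1 : lo < x) (h2 : x < hi) :
    (Ent A k x).card ≤ (if Pinch A k x then 1 else 0) +
      ∑ g ∈ WS A lo hi J, if rkP A x g = k then (bad A xa g x).card else 0 := by
  by_cases hp : Pinch A k x
  · rw [if_pos hp]
    obtain ⟨g, hg, hr⟩ := (stoP x).exists_rk (A := A)
      (Nat.lt_of_succ_lt (pinch_height hp).1)
    have hr' : rkP A x g = k := hr
    refine (ent_le xa hg hr').trans (Nat.add_le_add_left ?_ _)
    have hw : g ∈ WS A lo hi J := mem_WS_of_rkP hg h1.le h2 (by omega)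
    have := Finset.single_le_sum
      (f := fun g => if rkP A x g = k then (bad A xa g x).card else 0)
      (fun _ _ => Nat.zero_le _) hw
    simpa only [if_pos hr'] using this
  · have : Ent A k x = ∅ := Finset.filter_eq_empty_iff.2 fun a ha h => hp ⟨a, ha, h⟩
    rw [this]
    exact Nat.zero_le _

theorem pin_card (A : Finset P) (lo hi : ℝ) (J : ℕ) :
    ∑ k ∈ Finset.range J, ∑ x ∈ EE A lo hi, (if Pinch A k x then 1 else 0) =
      (Pin A lo hi J).card := by
  unfold Pin EE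
  rw [Finset.card_filter, Finset.sum_product]
  refine Finset.sum_congr rfl fun k _ => ?_
  rw [Finset.sum_filter]
  refine Finset.sum_congr rfl fun x _ => ?_
  by_cases h1 : lo < x <;> by_cases h2 : x < hi <;> simp [h1, h2]

theorem bad_sum (A : Finset P) (lo hi : ℝ) (xa : P → ℝ) (J : ℕ) :
    ∑ k ∈ Finset.range J, ∑ x ∈ EE A lo hi, ∑ g ∈ WS A lo hi J,
      (if rkP A x g = k then (bad A xa g x).card else 0) ≤ RR A lo hi xa J := by
  rw [Finset.sum_comm]
  calc ∑ x ∈ EE A lo hi, ∑ k ∈ Finset.range J, ∑ g ∈ WS A lo hi J,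
        (if rkP A x g = k then (bad A xa g x).card else 0)
      ≤ ∑ x ∈ EE A lo hi, ∑ g ∈ WS A lo hi J, (bad A xa g x).card := by
        refine Finset.sum_le_sum fun x _ => ?_
        rw [Finset.sum_comm]
        refine Finset.sum_le_sum fun g _ => ?_
        rw [Finset.sum_ite_eq]
        split_ifs
        · exact le_rfl
        · exact Nat.zero_le _
    _ = ∑ g ∈ WS A lo hi J, ∑ x ∈ EE A lo hi, (bad A xa g x).card := Finset.sum_comm
    _ ≤ RR A lo hi xa J := Finset.sum_le_sum fun g _ => sum_bad_le A xa g _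

theorem gauss (J : ℕ) : 2 * ∑ k ∈ Finset.range J, (k + 1) = J * (J + 1) := by
  induction J with
  | zero => simp
  | succ n ih => rw [Finset.sum_range_succ, mul_add, ih]; ring

end LA1Aux

open LA1Aux in
theorem t_LA1 : S_LA1 := by
  intro A lo hi xa J _ _
  have h1 : ∑ k ∈ Finset.range J, (WS A lo hi k).card ≤
      ∑ k ∈ Finset.range J, ((k + 1) + (∑ x ∈ EE A lo hi, (if Pinch A k x then 1 else 0) +
        ∑ x ∈ EE A lo hi, ∑ g ∈ WS A lo hi J,
          (if rkP A x g = k then (Lev.bad A xa g x).card else 0))) := by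
    refine Finset.sum_le_sum fun k hk => (ws_le A lo hi k).trans (Nat.add_le_add_left ?_ _)
    rw [← Finset.sum_add_distrib]
    refine Finset.sum_le_sum fun x hx => ?_
    obtain ⟨-, x1, x2⟩ := Finset.mem_filter.1 hx
    exact ent_le_sum xa (Finset.mem_range.1 hk) x1 x2
  rw [Finset.sum_add_distrib (f := fun k => k + 1),
    Finset.sum_add_distrib (f := fun k => ∑ x ∈ EE A lo hi, (if Pinch A k x then 1 else 0)),
    pin_card] at h1
  have h2 := bad_sum A lo hi xa J
  have h3 := gauss J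
  omega

end Pool.Agent.SimpArr.BV
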