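import Pool.Agent.P.MP_0b4c38_co.BVLev

/-! Pinches on and off the verticals. -/

set_option autoImplicit false

open Classical Real

namespace Pool.Agent.SimpArr.BV

namespace LA2Aux

open Lev Finset

/-- Between two pinches of the same level there is a crossing on a wire of that level. -/
theorem gap {A : Finset P} {k : ℕ} {c c' : ℝ} (h : Pinch A k c) (h' : Pinch A k c') (hc : c < c') :
    ∃ g ∈ A, ∃ x, c < x ∧ x < c' ∧ x ∈ Ev A ∧ (rkM A x g = k ∨ rkM A x g = k + 1) ∧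
      ∃ b ∈ A, b ≠ g ∧ f b x = f g x := by
  obtain ⟨hk, v, hv⟩ := pinch_height h
  obtain ⟨-, v', hv'⟩ := pinch_height h'
  obtain ⟨a, ha, ea⟩ := (stoP c).exists_rk (A := A) (k := k) (by omega)
  obtain ⟨b, hb, eb⟩ := (stoP c).exists_rk (A := A) (k := k + 1) hk
  rw [← rkP_eq] at ea eb
  obtain ⟨y, y1, y2, y3, y4⟩ := exists_next ((Ev A).filter fun t =>
    ∃ g, (g = a ∨ g = b) ∧ ∃ e ∈ A, e ≠ g ∧ f e t = f g t) hc
  have key : ∀ g ∈ A, g = a ∨ g = b → rkM A y g = rkP A c g := fun g hg hg' =>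
    rkM_eq_rkP_of_pair y1 fun e he hne t t1 t2 ht => y4 t (mem_filter.2
      ⟨tie_mem_Ev hg he hne ht, g, hg', e, he, hne.symm, ht.symm⟩) ⟨t1, t2⟩
  have ka := (key a ha (.inl rfl)).trans ea
  have kb := (key b hb (.inr rfl)).trans eb
  rcases y2.lt_or_eq with y2 | rfl
  · obtain ⟨m1, g, m2, m3⟩ := mem_filter.1 (y3.resolve_left y2.ne)
    rcases m2 with rfl | rfl
    exacts [⟨g, ha, y, y1, y2, m1, .inl ka, m3⟩, ⟨g, hb, y, y1, y2, m1, .inr kb, m3⟩]
  · have e : a = b := eq_of_two hc.ne ((hv a ha (.inl ea)).trans (hv b hb (.inr (.inl eb))).symm)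
      ((hv' a ha (.inr (.inr (.inl ka)))).trans (hv' b hb (.inr (.inr (.inr kb)))).symm)
    rw [e] at ea
    omega

theorem off {A : Finset P} (X : Finset ℝ) (lo hi : ℝ) (J : ℕ) :
    ((Pin A lo hi J).filter fun p => ¬ p.2 ∈ X).card ≤ (ZZ A X lo hi J).card := by
  refine (card_le_card fun p hp => ?_).trans
    (card_image_le (f := fun q : P × ℝ => (rkM A q.2 q.1, q.2)))
  obtain ⟨h1, h2⟩ := mem_filter.1 hp
  obtain ⟨h3, h4, h5, h6⟩ := mem_filter.1 h1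
  obtain ⟨h7, h8⟩ := mem_product.1 h3
  obtain ⟨hk, v, hv⟩ := pinch_height h6
  obtain ⟨a, ha, ea⟩ := (stoM p.2).exists_rk (A := A) (k := p.1) (by omega)
  obtain ⟨b, hb, eb⟩ := (stoM p.2).exists_rk (A := A) (k := p.1 + 1) hk
  rw [← rkM_eq] at ea eb
  refine mem_image.2 ⟨(a, p.2), mem_filter.2 ⟨mem_product.2 ⟨ha, h8⟩, h4, h5, h2,
    ea.le.trans (mem_range.1 h7).le, b, hb, fun e => ?_,
    (hv b hb (.inr (.inr (.inr eb)))).trans (hv a ha (.inr (.inr (.inl ea)))).symm⟩,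
    Prod.ext ea rfl⟩
  rw [show b = a from e] at eb
  omega

end LA2Aux

open Lev Finset LA2Aux

theorem t_LA2 : S_LA2 := by
  intro A X lo hi J _ hhi _
  choose! sc s1 s2 s3 s4 using fun x (h : x < hi) => exists_next X h
  have s5 : ∀ x < hi, sc x ∈ X := fun x h => (s3 x h).elim (fun e => e ▸ hhi) id
  set Q := (Pin A lo hi J).filter fun p => p.2 ∈ X with hQ
  have mQ : ∀ p ∈ Q, p.1 < J ∧ lo < p.2 ∧ p.2 < hi ∧ Pinch A p.1 p.2 ∧ p.2 ∈ X := fun p hp => by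
    obtain ⟨h1, h2⟩ := mem_filter.1 hp
    obtain ⟨h3, h4, h5, h6⟩ := mem_filter.1 h1
    exact ⟨mem_range.1 (mem_product.1 h3).1, h4, h5, h6, h2⟩
  let φ : ℕ × ℝ → ℕ × ℝ := fun p => (p.1, sc p.2)
  have h1 : (Q.image φ).card = Q.card := card_image_of_injOn fun p hp q hq e => by
    obtain ⟨-, -, a1, -, a2⟩ := mQ p hp
    obtain ⟨-, -, b1, -, b2⟩ := mQ q hq
    have e2 : sc p.2 = sc q.2 := congrArg Prod.snd e
    refine Prod.ext (congrArg Prod.fst e :) ?_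
    rcases lt_trichotomy p.2 q.2 with k | k | k
    · exact absurd ⟨k, e2 ▸ s1 _ b1⟩ (s4 _ a1 _ b2)
    · exact k
    · exact absurd ⟨k, e2 ▸ s1 _ a1⟩ (s4 _ b1 _ a2)
  have h2 : (Q ∪ Q.image φ).card ≤ J * X.card := by
    rw [← card_range J, ← card_product]
    refine card_le_card (union_subset (fun p hp => ?_) fun p hp => ?_)
    · exact mem_product.2 ⟨mem_range.2 (mQ p hp).1, (mQ p hp).2.2.2.2⟩
    · obtain ⟨q, hq, rfl⟩ := mem_image.1 hp
      exact mem_product.2 ⟨mem_range.2 (mQ q hq).1, s5 _ (mQ q hq).2.2.1⟩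
  have h3 : (Q ∩ Q.image φ).card ≤ (ZZ A X lo hi J).card * 2 := by
    rw [← card_range 2, ← card_product]
    refine (card_le_card fun p hp => ?_).trans (card_image_le
      (f := fun q : (P × ℝ) × ℕ => (rkM A q.1.2 q.1.1 - q.2, sc q.1.2)))
    obtain ⟨q, hq, rfl⟩ := mem_image.1 (mem_inter.1 hp).2
    obtain ⟨a1, a2, a3, a4, -⟩ := mQ q hq
    obtain ⟨-, -, b3, b4, b5⟩ := mQ _ (mem_inter.1 hp).1
    obtain ⟨g, hg, x, x1, x2, x3, x4, x5⟩ := gap a4 b4 (s1 _ a3)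
    have x6 : x < hi := x2.trans b3
    have hZ : (g, x) ∈ ZZ A X lo hi J := mem_filter.2 ⟨mem_product.2 ⟨hg, x3⟩, a2.trans x1, x6,
      fun e => s4 _ a3 _ e ⟨x1, x2⟩, by change rkM A x g ≤ J; omega, x5⟩
    have e : sc x = sc q.2 := by
      rcases lt_trichotomy (sc x) (sc q.2) with k | k | k
      · exact absurd ⟨x1.trans (s1 _ x6), k⟩ (s4 _ a3 _ (s5 _ x6))
      · exact k
      · exact absurd ⟨x2, k⟩ (s4 _ x6 _ b5)
    rcases x4 with x4 | x4
    · exact mem_image.2 ⟨((g, x), 0), mem_product.2 ⟨hZ, by simp⟩, Prod.ext (by simp [φ, x4]) e⟩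
    · exact mem_image.2 ⟨((g, x), 1), mem_product.2 ⟨hZ, by simp⟩, Prod.ext (by simp [φ, x4]) e⟩
  have h4 := card_union_add_card_inter Q (Q.image φ)
  have h5 := off (A := A) X lo hi J
  have h6 := card_filter_add_card_filter_not (s := Pin A lo hi J) fun p => p.2 ∈ X
  rw [← hQ] at h6
  omega

end Pool.Agent.SimpArr.BV
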