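import Pool.Agent.P.MP_0b4c38_co.BVLev

/-! The count of the crossings on low levels. -/

set_option autoImplicit false

open Classical Real

namespace Pool.Agent.SimpArr.BV

namespace LA3Aux

open Finset

theorem split_exists (A : Finset P) {lo hi : ℝ} (h : lo < hi) : ∃ xa, Split A lo hi xa := by
  have key : ∀ a : P, ∃ x, lo ≤ x ∧ x < hi ∧ ∀ y, lo ≤ y → y < hi → rkP A x a ≤ rkP A y a := by
    intro a
    obtain ⟨x, hx, hm⟩ := (InvImage.wf (fun x => rkP A x a) wellFounded_lt).has_min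
      {x | lo ≤ x ∧ x < hi} ⟨lo, le_rfl, h⟩
    exact ⟨x, hx.1, hx.2, fun y h1 h2 => not_lt.1 (hm y ⟨h1, h2⟩)⟩
  choose xa hxa using key
  exact ⟨xa, fun a _ => hxa a⟩

variable {A : Finset P} {X : Finset ℝ} {lo hi : ℝ} {xa : P → ℝ} {J : ℕ}

theorem mem_WS (h : Split A lo hi xa) {a : P} {k : ℕ} :
    a ∈ WS A lo hi k ↔ a ∈ A ∧ rkP A (xa a) a ≤ k := by
  rw [WS, mem_filter]
  refine and_congr_right fun ha => ⟨?_, fun hk => ⟨_, (h a ha).1, (h a ha).2.1, hk⟩⟩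
  rintro ⟨x, h1, h2, h3⟩
  exact ((h a ha).2.2 x h1 h2).trans h3

theorem ident (h : Split A lo hi xa) :
    RR A lo hi xa J + ∑ k ∈ range J, (WS A lo hi k).card = J * (WS A lo hi J).card := by
  have e : ∀ k ∈ range J, (WS A lo hi k).card =
      ∑ a ∈ WS A lo hi J, if rkP A (xa a) a ≤ k then 1 else 0 := fun k hk => by
    rw [← card_filter]
    congr 1
    ext a
    have := mem_range.1 hk
    rw [mem_filter, mem_WS h, mem_WS h]
    exact ⟨fun q => ⟨⟨q.1, by omega⟩, q.2⟩, fun q => ⟨q.1.1, q.2⟩⟩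
  rw [sum_congr rfl e, sum_comm, RR, ← sum_add_distrib, mul_comm, ← smul_eq_mul, ← sum_const]
  refine sum_congr rfl fun a ha => ?_
  have h1 := ((mem_WS h).1 ha).2
  have h2 : (range J).filter (fun k => rkP A (xa a) a ≤ k) = Ico (rkP A (xa a) a) J := by
    ext k
    simp [and_comm]
  rw [← card_filter, h2, Nat.card_Ico]
  omega

theorem mid_le : ((ZZ A X lo hi J).filter fun p => (Lev.bad A xa p.1 p.2).Nonempty).card ≤
    RR A lo hi xa J := by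
  refine le_trans ?_ (sum_le_sum fun a _ => Lev.sum_bad_le A xa a (Ev A))
  rw [← sum_product', card_eq_sum_ones]
  refine (sum_le_sum fun p hp => (mem_filter.1 hp).2.card_pos).trans
    (sum_le_sum_of_subset fun p hp => ?_)
  obtain ⟨h1, h2, h3, -, h4, -⟩ := mem_filter.1 (mem_filter.1 hp).1
  exact mem_product.2 ⟨Lev.mem_WS_of_rkM (mem_product.1 h1).1 h2 h3.le h4, (mem_product.1 h1).2⟩

theorem top_le : ((ZZ A X lo hi J).filter fun p =>
    ∀ c ∈ A, f c p.2 = f p.1 p.2 → c.2 ≤ p.1.2).card ≤ (Vx A X lo hi J).card := by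
  refine card_le_card_of_forall_subsingleton (fun p q => q.2 = p.2 ∧ f q.1 p.2 = f p.1 p.2) ?_ ?_
  · rintro ⟨g, x⟩ hp
    obtain ⟨h1, h2, h3, h4, h5, b, hb, h6, h7⟩ := mem_filter.1 (mem_filter.1 hp).1
    obtain ⟨hg, hx⟩ := mem_product.1 h1
    obtain ⟨a, ha, hm⟩ := (A.filter fun c => f c x = f g x).exists_min_image (fun c => c.2)
      ⟨g, mem_filter.2 ⟨hg, rfl⟩⟩
    obtain ⟨ha1, ha2⟩ := mem_filter.1 ha
    refine ⟨(a, x), mem_filter.2 ⟨mem_filter.2 ⟨mem_product.2 ⟨ha1, hx⟩, h2, h3, h4, ?_⟩,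
      fun c hc e => hm c (mem_filter.2 ⟨hc, e.trans ha2⟩)⟩, rfl, ha2⟩
    by_cases e : a = g
    · subst e
      exact ⟨h5, b, hb, h6, h7⟩
    · refine ⟨((Lev.stoM x).rk_lt ha1 (Or.inr ⟨ha2.symm, ?_⟩)).le.trans h5, g, hg, Ne.symm e,
        ha2.symm⟩
      exact (hm g (mem_filter.2 ⟨hg, rfl⟩)).lt_of_ne (Lev.tie_slope e ha2)
  · rintro ⟨a, x⟩ - ⟨g, y⟩ ⟨hp, e1, e2⟩ ⟨g', y'⟩ ⟨hp', e1', e2'⟩
    dsimp only at e1 e2 e1' e2'
    subst e1 e1'
    obtain ⟨h1, h2⟩ := mem_filter.1 hp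
    obtain ⟨h1', h2'⟩ := mem_filter.1 hp'
    have e := e2.symm.trans e2'
    rw [Lev.eq_of_f e (le_antisymm (h2' g (mem_product.1 (mem_filter.1 h1).1).1 e)
      (h2 g' (mem_product.1 (mem_filter.1 h1').1).1 e.symm))]

theorem zz_le : (ZZ A X lo hi J).card ≤ RR A lo hi xa J + 2 * (Vx A X lo hi J).card := by
  have hs : ZZ A X lo hi J ⊆ (((ZZ A X lo hi J).filter fun p => (Lev.bad A xa p.1 p.2).Nonempty) ∪
      Vx A X lo hi J) ∪ (ZZ A X lo hi J).filter fun p =>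
        ∀ c ∈ A, f c p.2 = f p.1 p.2 → c.2 ≤ p.1.2 := by
    intro p hp
    by_cases h1 : ∀ c ∈ A, f c p.2 = f p.1 p.2 → c.2 ≤ p.1.2
    · exact mem_union_right _ (mem_filter.2 ⟨hp, h1⟩)
    by_cases h2 : ∀ c ∈ A, f c p.2 = f p.1 p.2 → p.1.2 ≤ c.2
    · exact mem_union_left _ (mem_union_right _ (mem_filter.2 ⟨hp, h2⟩))
    push Not at h1 h2
    obtain ⟨c, c1, c2, c3⟩ := h1
    obtain ⟨d, d1, d2, d3⟩ := h2
    refine mem_union_left _ (mem_union_left _ (mem_filter.2 ⟨hp, ?_⟩))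
    rcases lt_or_ge (xa p.1) p.2 with k | k
    · exact ⟨d, mem_filter.2 ⟨d1, d2, Or.inl ⟨k, d3⟩⟩⟩
    · exact ⟨c, mem_filter.2 ⟨c1, c2, Or.inr ⟨k, c3⟩⟩⟩
  have h1 := (card_le_card hs).trans ((card_union_le _ _).trans
    (add_le_add ((card_union_le _ _).trans (add_le_add mid_le le_rfl)) top_le))
  omega

end LA3Aux

theorem t_LA3 : S_LA3 := fun A _ _ _ _ h =>
  ⟨LA3Aux.split_exists A h, fun _ hx => ⟨LA3Aux.zz_le, LA3Aux.ident hx⟩⟩

end Pool.Agent.SimpArr.BV
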