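import Pool.Agent.P.MP_0b4c38_co.BVLev

/-! Vertices away from the verticals are charged to bad crossings. -/

set_option autoImplicit false

open Classical Real

namespace Pool.Agent.SimpArr.BV

namespace LA4Aux

open Lev

/-- The triangle above the vertex `(a, x)`. -/
structure Tr (A : Finset P) (lo hi : ℝ) (a : P) (x : ℝ) (b g : P) (p q : ℝ) : Prop where
  ha : a ∈ A
  hb : b ∈ A
  hg : g ∈ A
  tie : f a x = f b x
  thr : ∀ c ∈ A, f c x = f a x → a.2 ≤ c.2 ∧ c.2 ≤ b.2
  ne : a ≠ b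
  lop : lo ≤ p
  px : p < x
  xq : x < q
  qhi : q ≤ hi
  up : f a x < f g x
  gp : f g p = f a p
  gq : f g q = f b q
  upper : ∀ c ∈ A, f a x < f c x → f g p ≤ f c p ∧ f g q ≤ f c q
  lower : ∀ c ∈ A, f c x ≤ f a x → f c p ≤ f a p ∧ f c q ≤ f b q

theorem f_between {a b : P} {p y q : ℝ} (h1 : p ≤ y) (h2 : y ≤ q) (hp : f a p ≤ f b p)
    (hq : f a q ≤ f b q) : f a y ≤ f b y := by
  rcases le_total a.2 b.2 with h | h
  · rw [f_sub a p y, f_sub b p y]
    nlinarith [mul_le_mul_of_nonneg_right h (sub_nonneg.2 h1)]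
  · rw [f_sub a q y, f_sub b q y]
    nlinarith [mul_le_mul_of_nonneg_right h (sub_nonneg.2 h2)]

variable {A : Finset P} {lo hi : ℝ} {a b g a' b' : P} {x p q x' p' q' : ℝ}

theorem Tr.ab (h : Tr A lo hi a x b g p q) : a.2 < b.2 :=
  lt_of_le_of_ne (h.thr b h.hb h.tie.symm).1 (tie_slope h.ne h.tie)

theorem Tr.ag (h : Tr A lo hi a x b g p q) : a.2 < g.2 := by
  have h1 := h.up
  rw [f_sub a p x, f_sub g p x, h.gp] at h1
  by_contra hn
  nlinarith [mul_le_mul_of_nonneg_right (not_lt.1 hn) (sub_pos.2 h.px).le]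

theorem Tr.gb (h : Tr A lo hi a x b g p q) : g.2 < b.2 := by
  have h1 := h.up
  rw [h.tie, f_sub b q x, f_sub g q x, h.gq] at h1
  by_contra hn
  nlinarith [mul_le_mul_of_nonneg_right (not_lt.1 hn) (sub_pos.2 h.xq).le]

theorem Tr.ga_ne (h : Tr A lo hi a x b g p q) : g ≠ a := fun e => by
  have := h.ag
  rw [e] at this
  exact lt_irrefl _ this

theorem Tr.gb_ne (h : Tr A lo hi a x b g p q) : g ≠ b := fun e => by
  have := h.gb
  rw [e] at this
  exact lt_irrefl _ this

theorem Tr.no_tie (h : Tr A lo hi a x b g p q) {c : P} (hc : c ∈ A) (hne : c ≠ g) {y : ℝ}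
    (h1 : p < y) (h2 : y < q) : f c y ≠ f g y := by
  intro e
  rcases lt_or_ge (f a x) (f c x) with k | k
  · obtain ⟨k1, k2⟩ := h.upper c hc k
    rcases lt_trichotomy c.2 g.2 with s | s | s
    · exact absurd (lt_after e s h2) (not_lt.2 k2)
    · exact hne (eq_of_f e s)
    · exact absurd (lt_before e s h1) (not_lt.2 k1)
  · obtain ⟨k1, k2⟩ := h.lower c hc k
    rcases le_total y x with s | s
    · have a1 := f_between h1.le s k1 k
      have a2 := lt_after h.gp.symm h.ag h1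
      linarith
    · have a1 := f_between s h2.le (h.tie ▸ k) k2
      have a2 := lt_before h.gq.symm h.gb h2
      linarith

theorem inj_ga_lt (h : Tr A lo hi a x b g p q) (h' : Tr A lo hi a x' b' g p' q') (hx : x < x') :
    False := by
  have e : p = p' := by
    by_contra hn
    exact h.ga_ne (eq_of_two hn h.gp h'.gp)
  obtain ⟨k1, k2⟩ := h'.upper b h.hb (lt_after h.tie h.ab hx)
  have := f_between (e ▸ h.px.le) (hx.le.trans h'.xq.le) k1 k2
  have h3 := h.up
  rw [h.tie] at h3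
  linarith

theorem inj_ga (h : Tr A lo hi a x b g p q) (h' : Tr A lo hi a x' b' g p' q') : x = x' := by
  rcases lt_trichotomy x x' with k | k | k
  · exact (inj_ga_lt h h' k).elim
  · exact k
  · exact (inj_ga_lt h' h k).elim

theorem inj_gb_lt (h : Tr A lo hi a x b g p q) (h' : Tr A lo hi a' x' b g p' q') (hx : x < x') :
    False := by
  have e : q = q' := by
    by_contra hn
    exact h.gb_ne (eq_of_two hn h.gq h'.gq)
  have h1 : f a x < f a' x := by
    rw [h.tie]
    exact lt_before h'.tie.symm h'.ab hx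
  obtain ⟨k1, k2⟩ := h.upper a' h'.ha h1
  have := f_between (h.px.le.trans hx.le) (e ▸ h'.xq.le) k1 k2
  have h3 := h'.up
  linarith

theorem inj_gb (h : Tr A lo hi a x b g p q) (h' : Tr A lo hi a' x' b g p' q') :
    a = a' ∧ x = x' := by
  rcases lt_trichotomy x x' with k | rfl | k
  · exact (inj_gb_lt h h' k).elim
  · have e : f a' x = f a x := h'.tie.trans h.tie.symm
    exact ⟨eq_of_f e.symm (le_antisymm (h.thr a' h'.ha e).1 (h'.thr a h.ha e.symm).1), rfl⟩
  · exact (inj_gb_lt h' h k).elim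

theorem slope_le (h : Tr A lo hi a x b g p q) (h' : Tr A lo hi a' x' b' g p q') : a'.2 ≤ a.2 := by
  have h1 : f a' x ≤ f a x := by
    by_contra hn
    have := (h.upper a' h'.ha (not_le.1 hn)).2
    exact absurd (lt_after h'.gp.symm h'.ag (h.px.trans h.xq)) (not_lt.2 this)
  by_contra hn
  exact absurd (lt_after (h.gp.symm.trans h'.gp) (not_le.1 hn) h.px) (not_lt.2 h1)

theorem inj_g (h : Tr A lo hi a x b g p q) (h' : Tr A lo hi a' x' b' g p' q') {y : ℝ}
    (h1 : p ≤ y) (h2 : y < q) (h3 : p' ≤ y) (h4 : y < q') : a = a' ∧ x = x' := by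
  have e : p = p' := by
    rcases lt_trichotomy p p' with k | k | k
    · exact absurd h'.gp.symm (h.no_tie h'.ha h'.ga_ne.symm k (h3.trans_lt h2))
    · exact k
    · exact absurd h.gp.symm (h'.no_tie h.ha h.ga_ne.symm k (h1.trans_lt h4))
  subst e
  have e2 : a = a' := eq_of_f (h.gp.symm.trans h'.gp) (le_antisymm (slope_le h' h) (slope_le h h'))
  subst e2
  exact ⟨rfl, inj_ga h h'⟩

theorem Tr.rank (h : Tr A lo hi a x b g p q) : rkP A x g ≤ rkM A x a := by
  refine Finset.card_le_card fun c hc => ?_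
  obtain ⟨h1, h2⟩ := Finset.mem_filter.1 hc
  exact Finset.mem_filter.2 ⟨h1, Or.inl (h.up.trans_le (AbP_le h2))⟩

end LA4Aux

open LA4Aux Lev

theorem t_LA4 : S_LA4 := by
  intro A X lo hi xa J hc _
  have hex : ∀ v : P × ℝ, ∃ b g : P, ∃ p q : ℝ, v ∈ Vx A X lo hi J →
      Tr A lo hi v.1 v.2 b g p q ∧ g ∈ WS A lo hi J := by
    rintro ⟨a, x⟩
    by_cases hv : (a, x) ∈ Vx A X lo hi J
    swap
    · exact ⟨a, a, 0, 0, fun h => absurd h hv⟩
    obtain ⟨hz, hmin⟩ := Finset.mem_filter.1 hv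
    obtain ⟨hp, h1, h2, h3, h4, b0, hb0, hne, ht⟩ := Finset.mem_filter.1 hz
    have ha : a ∈ A := (Finset.mem_product.1 hp).1
    obtain ⟨b, hb, hbm⟩ := (A.filter (fun c => f c x = f a x)).exists_max_image Prod.snd
      ⟨a, Finset.mem_filter.2 ⟨ha, rfl⟩⟩
    obtain ⟨hbA, hbt⟩ := Finset.mem_filter.1 hb
    have hthr : ∀ c ∈ A, f c x = f a x → a.2 ≤ c.2 ∧ c.2 ≤ b.2 := fun c hc' e =>
      ⟨hmin c hc' e, hbm c (Finset.mem_filter.2 ⟨hc', e⟩)⟩
    have hab : a ≠ b := by
      rintro rfl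
      exact hne (eq_of_f ht (le_antisymm (hthr b0 hb0 ht).2 (hthr b0 hb0 ht).1))
    obtain ⟨g, hg, p, q, e1, e2, e3, e4, e5, e6, e7, e8, e9⟩ :=
      hc.bottom x h1 h2 h3 a ha b hbA hab hbt.symm hthr
    have hT : Tr A lo hi a x b g p q :=
      ⟨ha, hbA, hg, hbt.symm, hthr, hab, e1, e2, e3, e4, e5, e6, e7, e8, e9⟩
    exact ⟨b, g, p, q, fun _ => ⟨hT, mem_WS_of_rkP hg h1.le h2 (hT.rank.trans h4)⟩⟩
  choose b g p q hT using hex
  set V := Vx A X lo hi J with hV
  set S : Finset (Σ _ : P, P) :=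
    (WS A lo hi J).sigma (fun w => A.filter (AbP (xa w) w)) with hS
  have hScard : S.card = RR A lo hi xa J := by
    rw [hS, Finset.card_sigma]
    rfl
  have h1 : (V.filter (fun v => xa (g v) < p v)).card ≤ S.card := by
    refine Finset.card_le_card_of_injOn (fun v => ⟨g v, v.1⟩) (fun v hv => ?_) ?_
    · obtain ⟨hv1, hv2⟩ := Finset.mem_filter.1 hv
      obtain ⟨t1, t2⟩ := hT v hv1
      exact Finset.mem_sigma.2 ⟨t2, Finset.mem_filter.2 ⟨t1.ha, abP_of_over t1.gp.symm hv2 t1.ag⟩⟩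
    · intro v hv w hw e
      obtain ⟨e1, e2⟩ := Sigma.mk.inj_iff.1 e
      have e2 : v.1 = w.1 := eq_of_heq e2
      have t1 := (hT v (Finset.mem_filter.1 hv).1).1
      have t2 := (hT w (Finset.mem_filter.1 hw).1).1
      rw [← e1, ← e2] at t2
      exact Prod.ext e2 (inj_ga t1 t2)
  have h2 : (V.filter (fun v => q v ≤ xa (g v))).card ≤ S.card := by
    refine Finset.card_le_card_of_injOn (fun v => ⟨g v, b v⟩) (fun v hv => ?_) ?_
    · obtain ⟨hv1, hv2⟩ := Finset.mem_filter.1 hv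
      obtain ⟨t1, t2⟩ := hT v hv1
      exact Finset.mem_sigma.2 ⟨t2, Finset.mem_filter.2 ⟨t1.hb, abP_of_under t1.gq.symm hv2 t1.gb⟩⟩
    · intro v hv w hw e
      obtain ⟨e1, e2⟩ := Sigma.mk.inj_iff.1 e
      have e2 : b v = b w := eq_of_heq e2
      have t1 := (hT v (Finset.mem_filter.1 hv).1).1
      have t2 := (hT w (Finset.mem_filter.1 hw).1).1
      rw [← e1, ← e2] at t2
      exact Prod.ext (inj_gb t1 t2).1 (inj_gb t1 t2).2
  have h3 : (V.filter (fun v => p v ≤ xa (g v) ∧ xa (g v) < q v)).card ≤ (WS A lo hi J).card := by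
    refine Finset.card_le_card_of_injOn g (fun v hv => (hT v (Finset.mem_filter.1 hv).1).2) ?_
    intro v hv w hw e
    obtain ⟨hv1, hv2⟩ := Finset.mem_filter.1 hv
    obtain ⟨hw1, hw2⟩ := Finset.mem_filter.1 hw
    have t1 := (hT v hv1).1
    have t2 := (hT w hw1).1
    rw [← e] at t2 hw2
    have := inj_g t1 t2 hv2.1 hv2.2 hw2.1 hw2.2
    exact Prod.ext this.1 this.2
  have hsub : V ⊆ V.filter (fun v => xa (g v) < p v) ∪ V.filter (fun v => q v ≤ xa (g v)) ∪
      V.filter (fun v => p v ≤ xa (g v) ∧ xa (g v) < q v) := by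
    intro v hv
    simp only [Finset.mem_union, Finset.mem_filter, hv, true_and]
    rcases lt_or_ge (xa (g v)) (p v) with k | k
    · exact Or.inl (Or.inl k)
    · rcases lt_or_ge (xa (g v)) (q v) with k' | k'
      · exact Or.inr ⟨k, k'⟩
      · exact Or.inl (Or.inr k')
  have h4 := (Finset.card_le_card hsub).trans (Finset.card_union_le _ _)
  have h5 := Finset.card_union_le (V.filter (fun v => xa (g v) < p v))
    (V.filter (fun v => q v ≤ xa (g v)))
  omega

end Pool.Agent.SimpArr.BV
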