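import Pool.Agent.P.MP_0b4c38_co.BVStep

/-! The wedge estimate. -/

set_option autoImplicit false

open Classical Real

namespace Pool.Agent.SimpArr.BV

namespace MetricAux

/-- The tangential component of `a` on ray `c`. -/
noncomputable def tg (M : ℕ) (a : P) (c : ℤ) : ℝ :=
  -a.1 * sin (c * π / M) + a.2 * cos (c * π / M)

theorem rot (M : ℕ) (a : P) (c j c' : ℤ) (h : c' = c + j) :
    dot a (u M c') = dot a (u M c) * cos (j * (π / M)) + tg M a c * sin (j * (π / M)) := by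
  subst h
  simp only [dot, u, tg]
  rw [show ((c + j : ℤ) : ℝ) * π / M = c * π / M + j * (π / M) by push_cast; ring, cos_add,
    sin_add]
  ring

theorem lat (M : ℕ) (i c : ℤ) :
    dot (u M (2 * i)) (u M c) = cos ((c - 2 * i : ℤ) * (π / M)) := by
  simp only [dot, u]
  rw [show ((c - 2 * i : ℤ) : ℝ) * (π / M) = c * π / M - (2 * i : ℤ) * π / M by push_cast; ring,
    cos_sub]
  ring

theorem cosle {M : ℕ} (hM : 0 < M) {a b : ℤ} (h1 : |a| ≤ |b|) (h2 : |b| ≤ M) :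
    cos (b * (π / M)) ≤ cos (a * (π / M)) := by
  have hM' : (0 : ℝ) < M := by exact_mod_cast hM
  have hh : 0 < π / M := div_pos pi_pos hM'
  rw [← cos_abs (b * _), ← cos_abs (a * _), abs_mul, abs_mul, abs_of_pos hh]
  have h1' : |(a : ℝ)| ≤ |(b : ℝ)| := by exact_mod_cast h1
  have h2' : |(b : ℝ)| ≤ M := by exact_mod_cast h2
  refine cos_le_cos_of_nonneg_of_le_pi (by positivity) ?_ (by gcongr)
  calc |(b : ℝ)| * (π / M) ≤ M * (π / M) := by gcongr
    _ = π := by field_simp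

theorem latlow {M d : ℕ} (hM : 1000 ≤ M) (hd : 2 * d < M) {m l : ℤ} (hm : m = d + 2 * l)
    (h : cos (m * (π / M)) < cos ((d : ℤ) * (π / M))) :
    cos (m * (π / M)) ≤ cos ((d + 2 : ℤ) * (π / M)) ∧
      cos ((m + 1 : ℤ) * (π / M)) ≤ cos ((d + 1 : ℤ) * (π / M)) := by
  have hM0 : 0 < M := by omega
  have hM' : (M : ℝ) ≠ 0 := by exact_mod_cast hM0.ne'
  obtain ⟨q, r, h1, h2, h3⟩ : ∃ q r : ℤ, m = r + 2 * (M * q) ∧ -(M : ℤ) ≤ r ∧ r < M := by
    have e1 := Int.emod_add_mul_ediv (m + M) (2 * M)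
    have e2 := Int.emod_nonneg (m + M) (b := 2 * M) (by omega)
    have e3 := Int.emod_lt_of_pos (m + M) (b := 2 * M) (by omega)
    exact ⟨(m + M) / (2 * M), (m + M) % (2 * M) - M, by linarith, by omega, by omega⟩
  have per : ∀ t : ℤ, cos ((t + 2 * (M * q) : ℤ) * (π / M)) = cos (t * (π / M)) := fun t => by
    rw [← cos_add_int_mul_two_pi (t * (π / M)) q]
    congr 1
    push_cast
    field_simp
  have hr : (d : ℤ) + 2 ≤ |r| := by
    by_contra hc
    have : |r| ≤ |(d : ℤ)| := by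
      rw [Nat.abs_cast]
      rcases abs_cases r with h' | h' <;> omega
    rw [h1, per] at h
    exact absurd h (not_lt.2 (cosle hM0 this (by rw [Nat.abs_cast]; omega)))
  constructor
  · rw [h1, per]
    refine cosle hM0 ?_ (abs_le.2 ⟨by omega, by omega⟩)
    rwa [abs_of_nonneg (by omega)]
  · rw [show m + 1 = r + 1 + 2 * (M * q) by omega, per]
    refine cosle hM0 ?_ (abs_le.2 ⟨by omega, by omega⟩)
    rw [abs_of_nonneg (by omega)]
    rcases abs_cases r with h' | h' <;> rcases abs_cases (r + 1) with h'' | h'' <;> omega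

theorem trig {M : ℕ} (hM : 1000 ≤ M) : 0 < sin (π / M) ∧ sin (π / M) ≤ 1 / 250 ∧
    1 / 2 ≤ cos (π / M) ∧ ∀ k : ℤ, 0 ≤ k → 2 * k ≤ M → k * sin (π / M) ≤ 2 * sin (k * (π / M)) := by
  have hM' : (1000 : ℝ) ≤ M := by exact_mod_cast hM
  have hM0 : (0 : ℝ) < M := by linarith
  have hh : 0 < π / M := div_pos pi_pos hM0
  have h4 : π / M ≤ 4 / M := by gcongr; exact pi_le_four
  have h5 : (4 : ℝ) / M ≤ 1 / 250 := by
    rw [div_le_div_iff₀ hM0 (by norm_num)]
    linarith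
  have h6 := sin_le hh.le
  refine ⟨sin_pos_of_pos_of_lt_pi hh (by linarith [pi_gt_three]), by linarith, ?_,
    fun k h1 h2 => ?_⟩
  · have := one_sub_sq_div_two_le_cos (x := π / M)
    nlinarith
  · have h1' : (0 : ℝ) ≤ k := by exact_mod_cast h1
    have h2' : 2 * (k : ℝ) ≤ M := by exact_mod_cast h2
    have h7 := mul_le_sin (x := k * (π / M)) (by positivity) (by
      rw [← mul_div_assoc, div_le_div_iff₀ hM0 two_pos]
      nlinarith [pi_pos])
    have h8 : 2 / π * (k * (π / M)) = k * (4 / M) / 2 := by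
      field_simp
      ring
    nlinarith [mul_le_mul_of_nonneg_left (h6.trans h4) h1']

theorem grow {y y' s Q σ2 d βa βb : ℝ} (hy : 0 < y) (hy' : y < y') (h24 : y ≤ 24 * σ2)
    (hs : 0 < s) (hd : 299 ≤ d) (hQ : (d / 2 - 50) * σ2 ≤ Q) (h1 : s * Q ≤ (1 - s) * y)
    (h2 : (1 - s) * (y' - y) = s * (βb - βa)) (h3 : βb - βa ≤ 28 * σ2 + y') :
    d * (y' - y) ≤ 208 * y := by
  have hσ : 0 < σ2 := by linarith
  have hQ0 : 0 < Q := lt_of_lt_of_le (mul_pos (by linarith) hσ) hQ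
  have hs1 : 0 < 1 - s := by
    by_contra h
    nlinarith [mul_pos hs hQ0, mul_nonneg (neg_nonneg.2 (not_lt.1 h)) hy.le]
  have h4 : (1 - s) * ((y' - y) * Q) ≤ (1 - s) * (y * (28 * σ2 + y')) := by
    calc (1 - s) * ((y' - y) * Q) = s * Q * (βb - βa) := by linear_combination Q * h2
      _ ≤ s * Q * (28 * σ2 + y') := by gcongr
      _ ≤ (1 - s) * y * (28 * σ2 + y') := by gcongr; linarith
      _ = _ := by ring
  have h5 := le_of_mul_le_mul_left h4 hs1
  have h6 : 0 < y' - y := by linarith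
  have h7 : σ2 * (d * (y' - y)) ≤ σ2 * (208 * y) := by
    nlinarith [mul_le_mul_of_nonneg_left hQ h6.le, mul_le_mul_of_nonneg_left h24 h6.le,
      mul_le_mul_of_nonneg_left h24 hy.le, mul_nonneg (mul_pos hσ h6).le (sub_nonneg.2 hd),
      mul_pos hσ h6]
  exact le_of_mul_le_mul_left h7 hσ

/-- The hypotheses. -/
structure Hyp (M : ℕ) (A : Finset P) (d : ℕ) : Prop where
  norm : Norm M A
  lo : 299 ≤ d
  hi : 2 * d < M
  le : ∀ k : ℤ, ∀ e ∈ A, (∀ i : ℤ, e ≠ u M (2 * i)) →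
    dot e (u M (d + 2 * k)) ≤ cos ((d : ℤ) * (π / M))
  touch : ∀ k : ℤ, ∃ e ∈ A, (∀ i : ℤ, e ≠ u M (2 * i)) ∧
    dot e (u M (d + 2 * k)) = cos ((d : ℤ) * (π / M))

variable {M d : ℕ} {A : Finset P}

theorem Hyp.pos (H : Hyp M A d) : 0 < cos ((d : ℤ) * (π / M)) := by
  have h1 : 2 * (d : ℝ) < M := by exact_mod_cast H.hi
  have h2 : (0 : ℝ) ≤ d := Nat.cast_nonneg d
  have hM0 : (0 : ℝ) < M := by linarith
  rw [Int.cast_natCast]
  refine cos_pos_of_mem_Ioo ⟨lt_of_lt_of_le (by linarith [pi_pos]) (by positivity : (0 : ℝ) ≤ _),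
    ?_⟩
  rw [← mul_div_assoc, div_lt_div_iff₀ hM0 two_pos]
  nlinarith [pi_pos]

theorem Hyp.bnd (H : Hyp M A d) (k : ℤ) {e : P} (he : e ∈ A) (hx : ∀ i : ℤ, e ≠ u M (2 * i)) :
    |tg M e (d + 2 * k)| * (2 * sin (π / M) * cos (π / M)) ≤
      2 * cos ((d : ℤ) * (π / M)) * sin (π / M) ^ 2 +
        (cos ((d : ℤ) * (π / M)) - dot e (u M (d + 2 * k))) := by
  obtain ⟨s0, -, k0, -⟩ := trig H.norm.big
  have h0 := H.le k e he hx
  have h1 := H.le (k + 1) e he hx
  have h2 := H.le (k - 1) e he hx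
  rw [rot M e (d + 2 * k) 2 _ (by ring)] at h1
  rw [rot M e (d + 2 * k) (-2) _ (by ring)] at h2
  rw [Int.cast_neg, neg_mul, cos_neg, sin_neg] at h2
  rw [Int.cast_ofNat, cos_two_mul', sin_two_mul, cos_sq'] at h1 h2
  have h3 := mul_nonneg (sub_nonneg.2 h0) (sq_nonneg (sin (π / M)))
  rcases abs_cases (tg M e (d + 2 * k)) with h | h <;> rw [h.1] <;> nlinarith

theorem Hyp.bnd' (H : Hyp M A d) (k : ℤ) {e : P} (he : e ∈ A) (hx : ∀ i : ℤ, e ≠ u M (2 * i)) :
    |tg M e (d + 2 * k)| * sin (π / M) ≤ 2 * cos ((d : ℤ) * (π / M)) * sin (π / M) ^ 2 +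
      (cos ((d : ℤ) * (π / M)) - dot e (u M (d + 2 * k))) := by
  obtain ⟨s0, -, k0, -⟩ := trig H.norm.big
  refine le_trans ?_ (H.bnd k he hx)
  refine mul_le_mul_of_nonneg_left ?_ (abs_nonneg _)
  nlinarith

theorem Hyp.deep (H : Hyp M A d) : cos ((d + 2 : ℤ) * (π / M)) <
    cos ((d : ℤ) * (π / M)) - 24 * (cos ((d : ℤ) * (π / M)) * sin (π / M) ^ 2) := by
  obtain ⟨s0, -, k0, hj⟩ := trig H.norm.big
  have h1 := hj d (by omega) (by have := H.hi; omega)
  have h2 : (299 : ℝ) ≤ (d : ℤ) := by exact_mod_cast H.lo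
  have h3 := H.pos
  have h4 := cos_le_one ((d : ℤ) * (π / M))
  rw [Int.cast_add, add_mul, cos_add, Int.cast_ofNat, cos_two_mul', sin_two_mul, cos_sq']
  have h5 : 0 < sin (π / M) ^ 2 := by positivity
  have h6 : 299 * sin (π / M) ≤ 2 * sin ((d : ℤ) * (π / M)) := by nlinarith
  have h7 : sin (π / M) ≤ 2 * sin (π / M) * cos (π / M) := by nlinarith
  have h8 : 299 * sin (π / M) * sin (π / M) ≤
      2 * sin ((d : ℤ) * (π / M)) * (2 * sin (π / M) * cos (π / M)) :=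
    mul_le_mul h6 h7 s0.le (by linarith)
  nlinarith [mul_le_mul_of_nonneg_right h4 h5.le, mul_pos h3 h5]

theorem Hyp.extra (H : Hyp M A d) (k : ℤ) {e : P}
    (h1 : cos ((d : ℤ) * (π / M)) - 24 * (cos ((d : ℤ) * (π / M)) * sin (π / M) ^ 2) ≤
      dot e (u M (d + 2 * k))) (h2 : dot e (u M (d + 2 * k)) < cos ((d : ℤ) * (π / M))) (i : ℤ) :
    e ≠ u M (2 * i) := by
  rintro rfl
  rw [lat] at h1 h2
  have := (latlow H.norm.big H.hi (l := k - i) (by ring) h2).1
  linarith [H.deep]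

theorem Hyp.start (H : Hyp M A d) (k : ℤ) : ∃ e ∈ A,
    dot e (u M (d + 2 * k)) < cos ((d : ℤ) * (π / M)) ∧
      cos ((d : ℤ) * (π / M)) - dot e (u M (d + 2 * k)) ≤
        12 * (cos ((d : ℤ) * (π / M)) * sin (π / M) ^ 2) := by
  obtain ⟨s0, s1, k0, -⟩ := trig H.norm.big
  obtain ⟨e, he, hx, ht⟩ := H.touch (k - 2)
  have h1 := H.bnd (k - 2) he hx
  have h3 := H.pos
  refine ⟨e, he, ?_⟩
  rw [rot M e (d + 2 * (k - 2)) 4 _ (by ring), Int.cast_ofNat,
    show (4 : ℝ) * (π / M) = 2 * (2 * (π / M)) by ring, cos_two_mul' (2 * _), cos_sq' (2 * _),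
    sin_two_mul (2 * _), cos_two_mul', sin_two_mul, cos_sq' (π / M)]
  rw [ht] at h1 ⊢
  have hk : cos (π / M) ^ 2 = 1 - sin (π / M) ^ 2 := cos_sq' _
  generalize cos ((d : ℤ) * (π / M)) = U at *
  generalize tg M e (d + 2 * (k - 2)) = B at *
  generalize sin (π / M) = σ at *
  generalize cos (π / M) = κ at *
  have h5 : 0 < σ ^ 2 := by positivity
  have h6 : σ ^ 2 ≤ 1 / 100 := by nlinarith
  have h7 : |B * (2 * σ * κ)| ≤ 2 * U * σ ^ 2 := by
    rw [abs_mul, abs_of_nonneg (by positivity : 0 ≤ 2 * σ * κ)]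
    linarith
  obtain ⟨h8, h9⟩ := abs_le.1 h7
  have e1 : (2 * σ * κ) ^ 2 = 4 * σ ^ 2 * (1 - σ ^ 2) := by rw [← hk]; ring
  have h10 := mul_pos h3 h5
  have h11 : 0 ≤ 1 - 2 * σ ^ 2 := by linarith
  rw [e1]
  constructor
  · nlinarith [mul_le_mul_of_nonneg_left h9 h11, mul_le_mul_of_nonneg_left h6 h10.le,
      mul_pos h10 h5]
  · nlinarith [mul_le_mul_of_nonneg_left h8 h11, mul_pos h10 h5]

theorem Hyp.step (H : Hyp M A d) (k : ℤ) {e : P} (he : e ∈ A)
    (h1 : cos ((d : ℤ) * (π / M)) - 24 * (cos ((d : ℤ) * (π / M)) * sin (π / M) ^ 2) ≤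
      dot e (u M (d + 2 * k))) (h2 : dot e (u M (d + 2 * k)) < cos ((d : ℤ) * (π / M))) :
    ∃ b ∈ A, dot b (u M (d + 2 * k)) < dot e (u M (d + 2 * k)) ∧
      d * (dot e (u M (d + 2 * k)) - dot b (u M (d + 2 * k))) ≤
        4992 * (cos ((d : ℤ) * (π / M)) * sin (π / M) ^ 2) := by
  obtain ⟨s0, s1, k0, hj⟩ := trig H.norm.big
  set α : P → ℝ := fun a => dot a (u M (d + 2 * k)) with hα
  set β : P → ℝ := fun a => dot a (u M (d + 2 * k + 1)) with hβ
  obtain ⟨a, ha, hamin⟩ := (A.filter fun x => α x = α e).exists_min_image β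
    ⟨e, Finset.mem_filter.2 ⟨he, rfl⟩⟩
  obtain ⟨haA, hae⟩ := Finset.mem_filter.1 ha
  change _ ≤ α e at h1
  change α e < _ at h2
  change ∃ b ∈ A, α b < α e ∧ d * (α e - α b) ≤ _
  rw [← hae] at h1 h2 ⊢
  have hax := H.extra k h1 h2
  obtain ⟨b, hb, hb1, hb2⟩ := Step.exists_lexmax (A.filter fun x => α x < α a)
    ⟨u M (2 * (k - 1)), Finset.mem_filter.2 ⟨H.norm.mem _, by
      simp only [hα] at h1 ⊢
      rw [lat, show (d : ℤ) + 2 * k - 2 * (k - 1) = d + 2 by ring]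
      linarith [H.deep]⟩⟩ α β
  obtain ⟨hbA, hba⟩ := Finset.mem_filter.1 hb
  obtain ⟨s, hs0, -, htie, hup, -⟩ := (H.norm.loc (d + 2 * k)).edge a haA b hbA hba
    (fun x hx => by
      by_cases h : α x < α a
      · exact Or.inr (hb1 x (Finset.mem_filter.2 ⟨hx, h⟩))
      · exact Or.inl (not_lt.1 h))
    (fun x hx h => hamin x (Finset.mem_filter.2 ⟨hx, Eq.trans h hae⟩))
    (fun x hx h => hb2 x (Finset.mem_filter.2 ⟨hx, lt_of_eq_of_lt h hba⟩) h)
  have e1 : α (u M (2 * k)) = cos ((d : ℤ) * (π / M)) := by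
    simp only [hα]
    rw [lat, add_sub_cancel_right]
  have e2 : β (u M (2 * k)) = cos ((d + 1 : ℤ) * (π / M)) := by
    simp only [hβ]
    rw [lat, show (d : ℤ) + 2 * k + 1 - 2 * k = d + 1 by ring]
  have hup' : mix α β a s ≤ mix α β (u M (2 * k)) s := hup _ (H.norm.mem k) (by
    change α a ≤ α _
    rw [e1]
    exact h2.le)
  change mix α β a s = mix α β b s at htie
  simp only [mix] at hup' htie
  rw [e1, e2] at hup'
  have e3 : ∀ x, β x = α x * cos (π / M) + tg M x (d + 2 * k) * sin (π / M) := fun x => by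
    simp only [hα, hβ]
    rw [rot M x (d + 2 * k) 1 _ rfl, Int.cast_one, one_mul]
  have e4 : cos ((d + 1 : ℤ) * (π / M)) = cos ((d : ℤ) * (π / M)) * cos (π / M) -
      sin ((d : ℤ) * (π / M)) * sin (π / M) := by
    rw [Int.cast_add, add_mul, cos_add, Int.cast_one, one_mul]
  have hU := H.pos
  have hU1 := cos_le_one ((d : ℤ) * (π / M))
  have hk1 := cos_le_one (π / M)
  have hJ := hj d (by omega) (by have := H.hi; omega)
  have hd : (299 : ℝ) ≤ d := by exact_mod_cast H.lo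
  have hσ : 0 < sin (π / M) ^ 2 := by positivity
  have hw := mul_le_mul_of_nonneg_right hU1 hσ.le
  have hBa : |tg M a (d + 2 * k)| * sin (π / M) ≤ _ + (_ - α a) := H.bnd' k haA hax
  have hBa' := mul_le_mul_of_nonneg_right (neg_abs_le (tg M a (d + 2 * k))) s0.le
  have hQ : ((d : ℝ) / 2 - 50) * sin (π / M) ^ 2 ≤ β a - cos ((d + 1 : ℤ) * (π / M)) := by
    rw [e3, e4]
    have := mul_le_mul_of_nonneg_right hJ s0.le
    rw [Int.cast_natCast] at *
    nlinarith [mul_le_mul_of_nonneg_left hk1 (sub_nonneg.2 h2.le)]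
  have hQ0 : 0 < β a - cos ((d + 1 : ℤ) * (π / M)) :=
    lt_of_lt_of_le (mul_pos (by linarith) hσ) hQ
  have hs1 : 0 < 1 - s := by
    by_contra h
    nlinarith [mul_pos hs0 hQ0, mul_nonneg (neg_nonneg.2 (not_lt.1 h)) (sub_nonneg.2 h2.le)]
  have hbx : ∀ i : ℤ, b ≠ u M (2 * i) := by
    rintro i rfl
    have h3 : α (u M (2 * i)) < cos ((d : ℤ) * (π / M)) := hba.trans h2
    simp only [hα] at h3
    rw [lat] at h3
    have h4 := (latlow H.norm.big H.hi (l := k - i) (by ring) h3).2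
    have h5 : β (u M (2 * i)) = cos ((d + 2 * k - 2 * i + 1 : ℤ) * (π / M)) := by
      simp only [hβ]
      rw [lat, show (d : ℤ) + 2 * k + 1 - 2 * i = d + 2 * k - 2 * i + 1 by ring]
    rw [← h5] at h4
    nlinarith [mul_pos hs1 (sub_pos.2 hba), mul_pos hs0 hQ0,
      mul_nonneg hs0.le (sub_nonneg.2 h4)]
  have hBb : |tg M b (d + 2 * k)| * sin (π / M) ≤ _ + (_ - α b) := H.bnd' k hbA hbx
  have hBb' := mul_le_mul_of_nonneg_right (le_abs_self (tg M b (d + 2 * k))) s0.le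
  have hg := grow (y := cos ((d : ℤ) * (π / M)) - α a) (y' := cos ((d : ℤ) * (π / M)) - α b)
    (βa := β a) (βb := β b) (by linarith) (by linarith) (by linarith) hs0 hd hQ (by linarith)
    (by linarith) (by
      rw [e3, e3]
      nlinarith [mul_pos (sub_pos.2 hba) (by linarith : 0 < cos (π / M))])
  exact ⟨b, hbA, hba, by linarith⟩

theorem Hyp.many (H : Hyp M A d) (k : ℤ) (n : ℕ) : 416 * n ≤ d → ∃ e ∈ A,
    dot e (u M (d + 2 * k)) < cos ((d : ℤ) * (π / M)) ∧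
      cos ((d : ℤ) * (π / M)) - 24 * (cos ((d : ℤ) * (π / M)) * sin (π / M) ^ 2) ≤
        dot e (u M (d + 2 * k)) ∧
      d * (cos ((d : ℤ) * (π / M)) - dot e (u M (d + 2 * k))) ≤
        (12 * d + 4992 * n) * (cos ((d : ℤ) * (π / M)) * sin (π / M) ^ 2) ∧
      n + 1 ≤ (A.filter fun x => dot e (u M (d + 2 * k)) ≤ dot x (u M (d + 2 * k)) ∧
        dot x (u M (d + 2 * k)) < cos ((d : ℤ) * (π / M))).card := by
  have hd : (299 : ℝ) ≤ d := by exact_mod_cast H.lo
  have hw : 0 < cos ((d : ℤ) * (π / M)) * sin (π / M) ^ 2 :=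
    mul_pos H.pos (pow_pos (trig H.norm.big).1 2)
  induction n with
  | zero =>
    intro _
    obtain ⟨e, he, h1, h2⟩ := H.start k
    refine ⟨e, he, h1, by linarith, ?_, Finset.card_pos.2 ⟨e, Finset.mem_filter.2
      ⟨he, le_rfl, h1⟩⟩⟩
    have := mul_le_mul_of_nonneg_left h2 (by linarith : (0 : ℝ) ≤ d)
    push_cast at this ⊢
    linarith
  | succ n ih =>
    intro hn
    obtain ⟨e, he, h1, h2, h3, h4⟩ := ih (by omega)
    obtain ⟨b, hb, h5, h6⟩ := H.step k he h2 h1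
    have hn' : 416 * ((n : ℝ) + 1) ≤ d := by exact_mod_cast hn
    have h7 : d * (cos ((d : ℤ) * (π / M)) - dot b (u M (d + 2 * k))) ≤
        (12 * d + 4992 * (n + 1 : ℕ)) * (cos ((d : ℤ) * (π / M)) * sin (π / M) ^ 2) := by
      rw [Nat.cast_succ]
      linarith
    refine ⟨b, hb, h5.trans h1, ?_, h7, ?_⟩
    · rw [Nat.cast_succ] at h7
      have h8 : d * (cos ((d : ℤ) * (π / M)) - dot b (u M (d + 2 * k))) ≤
          d * (24 * (cos ((d : ℤ) * (π / M)) * sin (π / M) ^ 2)) := by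
        nlinarith [mul_le_mul_of_nonneg_right hn' hw.le]
      have := le_of_mul_le_mul_left h8 (by linarith)
      linarith
    · refine Nat.succ_le_of_lt (lt_of_le_of_lt h4 (Finset.card_lt_card ⟨fun x hx => ?_, fun h => ?_⟩))
      · obtain ⟨x1, x2, x3⟩ := Finset.mem_filter.1 hx
        exact Finset.mem_filter.2 ⟨x1, h5.le.trans x2, x3⟩
      · have := Finset.mem_filter.1 (h (Finset.mem_filter.2 ⟨hb, le_rfl, h5.trans h1⟩))
        exact absurd this.2.1 (not_le.2 h5)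

theorem Hyp.apart (H : Hyp M A d) (k j : ℤ) (hj1 : 60 ≤ j) (hj2 : 2 * j ≤ M) {e : P} (he : e ∈ A)
    (h1 : cos ((d : ℤ) * (π / M)) - 24 * (cos ((d : ℤ) * (π / M)) * sin (π / M) ^ 2) ≤
      dot e (u M (d + 2 * k))) (h2 : dot e (u M (d + 2 * k)) < cos ((d : ℤ) * (π / M)))
    (h3 : cos ((d : ℤ) * (π / M)) - 24 * (cos ((d : ℤ) * (π / M)) * sin (π / M) ^ 2) ≤
      dot e (u M (d + 2 * (k + j)))) : False := by
  obtain ⟨s0, -, -, hj⟩ := trig H.norm.big
  have hB := H.bnd' k he (H.extra k h1 h2)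
  have hJ := hj j (by omega) hj2
  have hj' : (60 : ℝ) ≤ j := by exact_mod_cast hj1
  have hU := H.pos
  rw [rot M e (d + 2 * k) (2 * j) _ (by ring), Int.cast_mul, Int.cast_ofNat, mul_assoc,
    cos_two_mul', sin_two_mul, cos_sq'] at h3
  have hc := abs_cos_le_one (j * (π / M))
  have ht := sin_sq_le_one (j * (π / M))
  generalize cos ((d : ℤ) * (π / M)) = U at *
  generalize tg M e (d + 2 * k) = B at *
  generalize dot e (u M (d + 2 * k)) = R at *
  generalize sin (j * (π / M)) = t at *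
  generalize cos (j * (π / M)) = c at *
  generalize sin (π / M) = σ at *
  have h4 : 30 * σ ≤ t := by nlinarith
  have h5 : |B| ≤ 26 * U * σ := le_of_mul_le_mul_right (by nlinarith) s0
  have h6 : B * c ≤ 26 * U * σ := by
    refine (le_abs_self _).trans ?_
    rw [abs_mul]
    nlinarith [abs_nonneg B]
  have ht0 : 0 < t := by linarith
  have h7 : U * (2 * t ^ 2) ≤ U * (48 * σ ^ 2 + 52 * σ * t) := by
    nlinarith [mul_le_mul_of_nonneg_left h6 ht0.le,
      mul_nonneg (sub_nonneg.2 h2.le) (sub_nonneg.2 ht)]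
  have h8 := le_of_mul_le_mul_left h7 hU
  nlinarith [mul_le_mul_of_nonneg_right h4 ht0.le, mul_le_mul_of_nonneg_left h4 s0.le,
    mul_pos s0 s0]

end MetricAux

open MetricAux

theorem t_Metric : S_Metric := by
  intro M A d hN hd hdM h
  have e : (d : ℝ) * π / M = ((d : ℤ) : ℝ) * (π / M) := by rw [Int.cast_natCast, mul_div_assoc]
  rw [e] at h
  have H : Hyp M A d := ⟨hN, hd, hdM, fun k => (h k).1, fun k => (h k).2⟩
  let G : ℕ → Finset P := fun j => A.filter fun x =>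
    cos ((d : ℤ) * (π / M)) - 24 * (cos ((d : ℤ) * (π / M)) * sin (π / M) ^ 2) ≤
      dot x (u M (d + 2 * (60 * j))) ∧ dot x (u M (d + 2 * (60 * j))) < cos ((d : ℤ) * (π / M))
  have h1 : ∀ j, d / 416 + 1 ≤ (G j).card := fun j => by
    obtain ⟨e, -, -, h2, -, h4⟩ := H.many (60 * j) (d / 416) (Nat.mul_div_le d 416)
    refine h4.trans (Finset.card_le_card fun x hx => ?_)
    obtain ⟨x1, x2, x3⟩ := Finset.mem_filter.1 hx
    exact Finset.mem_filter.2 ⟨x1, h2.trans x2, x3⟩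
  have h2 : ∀ i j, i < j → j < M / 120 + 1 → Disjoint (G i) (G j) := fun i j hij hj => by
    refine Finset.disjoint_left.2 fun x hi hj' => ?_
    obtain ⟨x1, x2, x3⟩ := Finset.mem_filter.1 hi
    refine H.apart (60 * i) (60 * j - 60 * i) (by omega) (by omega) x1 x2 x3 ?_
    rw [add_sub_cancel]
    exact (Finset.mem_filter.1 hj').2.1
  have h3 : (M / 120 + 1) * (d / 416 + 1) ≤ A.card := by
    calc (M / 120 + 1) * (d / 416 + 1) ≤ ∑ j ∈ Finset.range (M / 120 + 1), (G j).card := by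
          have := Finset.card_nsmul_le_sum (Finset.range (M / 120 + 1)) (fun j => (G j).card) _
            fun j _ => h1 j
          rwa [Finset.card_range, smul_eq_mul] at this
      _ = ((Finset.range (M / 120 + 1)).biUnion G).card := by
          refine (Finset.card_biUnion fun i hi j hj hij => ?_).symm
          rcases lt_or_gt_of_ne hij with h | h
          · exact h2 i j h (Finset.mem_range.1 hj)
          · exact (h2 j i h (Finset.mem_range.1 hi)).symm
      _ ≤ A.card := Finset.card_le_card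
          (Finset.biUnion_subset.2 fun j _ => Finset.filter_subset _ _)
  calc M * d ≤ (120 * (M / 120 + 1)) * (416 * (d / 416 + 1)) :=
        Nat.mul_le_mul (by omega) (by omega)
    _ = 49920 * ((M / 120 + 1) * (d / 416 + 1)) := by ring
    _ ≤ 100000 * A.card := Nat.mul_le_mul (by norm_num) h3

end Pool.Agent.SimpArr.BV
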