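import Pool.Agent.P.MP_0b4c38_co.BVStep

/-! The next ray of the arrangement is the next lattice ray. -/

set_option autoImplicit false

open Classical Real

namespace Pool.Agent.SimpArr.BV

namespace NextTAux

theorem exists_coord {n m : P} (h : 0 < det n m) (ν : P) :
    ∃ x y : ℝ, det n ν = y * det n m ∧ ν = x • n + y • m := by
  refine ⟨det ν m / det n m, det n ν / det n m, by field_simp, ?_⟩
  have h' := h.ne'
  ext
  · simp only [Prod.fst_add, Prod.smul_fst, smul_eq_mul]
    field_simp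
    unfold det
    ring
  · simp only [Prod.snd_add, Prod.smul_snd, smul_eq_mul]
    field_simp
    unfold det
    ring

theorem dot_comb (a n m : P) (x y : ℝ) : dot a (x • n + y • m) = x * dot a n + y * dot a m := by
  simp only [dot, Prod.fst_add, Prod.snd_add, Prod.smul_fst, Prod.smul_snd, smul_eq_mul]
  ring

theorem isT_smul {X : Finset ℝ} {n : P} {c : ℝ} (hc : c ≠ 0) (h : IsT X n) : IsT X (c • n) := by
  obtain ⟨h0, x, hx, e⟩ := h
  refine ⟨smul_ne_zero hc h0, x, hx, ?_⟩
  simp only [Prod.smul_fst, Prod.smul_snd, smul_eq_mul, e]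
  ring

theorem slab_scale {X : Finset ℝ} {n m : P} {y : ℝ} (hy : 0 < y) (h : Slab X n (y • m)) :
    Slab X n m := by
  obtain ⟨h1, h2, h3, h4⟩ := h
  refine ⟨h1, ?_, fun e => h3 ?_, fun s s0 s1 hT => ?_⟩
  · have := isT_smul (inv_ne_zero hy.ne') h2
    rwa [smul_smul, inv_mul_cancel₀ hy.ne', one_smul] at this
  · have : det n (y • m) = y * det n m := by
      simp only [det, Prod.smul_fst, Prod.smul_snd, smul_eq_mul]
      ring
    rw [this, e, mul_zero]
  · have hD : 0 < (1 - s) * y + s := by nlinarith [mul_pos (sub_pos.2 s1) hy]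
    refine h4 (s / ((1 - s) * y + s)) (div_pos s0 hD)
      ((div_lt_one hD).2 (by nlinarith [mul_pos (sub_pos.2 s1) hy])) ?_
    have := isT_smul (div_pos hy hD).ne' hT
    convert this using 1
    have hD' := hD.ne'
    ext
    · simp only [Prod.fst_add, Prod.smul_fst, smul_eq_mul]
      field_simp
      ring
    · simp only [Prod.snd_add, Prod.smul_snd, smul_eq_mul]
      field_simp
      ring

end NextTAux

open NextTAux Step

theorem t_NextT (hNx : S_Next) (hNS : S_NoStack) : S_NextT := by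
  intro A X κ n s lam g c d i0 hM hX hR hL hm hd hc hT hJ
  obtain ⟨n', hdet, hsl⟩ := hNx X (n c) hX hT
  obtain ⟨x, y, hy, hn'⟩ := exists_coord (hR.det c) n'
  have hy0 : 0 < y := by
    rw [hy] at hdet
    exact (mul_pos_iff_of_pos_right (hR.det c)).1 hdet
  have hloc := hM _ _ hsl
  set α : P → ℝ := fun a => dot a (n c) with hα
  set γ : P → ℝ := fun a => dot a (n (c + 1)) with hγ
  set β : P → ℝ := fun a => dot a n' with hβ
  have hβe : ∀ a, β a = x * α a + y * γ a := fun a => by
    simp only [hβ, hα, hγ, hn', dot_comb]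
  have he := hL.even
  have hαs : ∀ l, α (s l) = lam c - g (c - 2 * l) := fun l => hL.sval l c
  have hγs : ∀ l, γ (s l) = lam (c + 1) - g (c + 1 - 2 * l) := fun l => hL.sval l (c + 1)
  have glt : ∀ u v w : ℤ, 0 ≤ w → w ≤ d + 1 → (v = w ∨ v = -w) → -w < u → u < w → g u < g v := by
    intro u v w h0 h1 h2 h3 h4
    have hv : |v| = w := by
      rcases h2 with rfl | rfl
      · exact abs_of_nonneg h0
      · rw [abs_neg, abs_of_nonneg h0]
    exact g_lt he hm (by rw [hv]; exact abs_lt.2 ⟨h3, h4⟩) (by rw [hv]; exact h1)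
  have gle : ∀ u v w : ℤ, 0 ≤ w → w ≤ d + 1 → (v = w ∨ v = -w) → -w ≤ u → u ≤ w → g u ≤ g v := by
    intro u v w h0 h1 h2 h3 h4
    have hv : |v| = w := by
      rcases h2 with rfl | rfl
      · exact abs_of_nonneg h0
      · rw [abs_neg, abs_of_nonneg h0]
    exact g_le he hm (by rw [hv]; exact abs_le.2 ⟨h3, h4⟩) (by rw [hv]; exact h1)
  have hmem : ∀ l, i0 ≤ l → l ≤ i0 + d → s l ∈ A := fun l h1 h2 =>
    hJ.1 l (abs_le.2 ⟨by omega, by omega⟩)
  have hcl : ∀ z ∈ A, (∃ l, i0 ≤ l ∧ l ≤ i0 + d ∧ z = s l) ∨ α z < lam c - g d := by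
    intro z hz
    by_cases h : ∃ l, i0 ≤ l ∧ l ≤ i0 + d ∧ z = s l
    · exact Or.inl h
    · refine Or.inr (hJ.2 z hz fun i hi hzi => h ⟨i, ?_, ?_, hzi⟩) <;>
        obtain ⟨h1, h2⟩ := abs_le.1 hi <;> omega
  have hb0 : α (s (i0 + d)) = lam c - g d := by
    rw [hαs, show c - 2 * (i0 + d) = -d by omega, he]
  have h00 : α (s i0) = lam c - g d := by rw [hαs, hc]
  have hab : α (s (i0 + d)) < α (s (i0 + 1)) := by
    rw [hαs, hαs]
    have := glt (c - 2 * (i0 + 1)) (c - 2 * (i0 + d)) d (by omega) (by omega) (by omega)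
      (by omega) (by omega)
    linarith
  have hin : ∀ l, i0 < l → l < i0 + d → α (s (i0 + 1)) ≤ α (s l) := fun l h1 h2 => by
    rw [hαs, hαs]
    have := gle (c - 2 * l) (c - 2 * (i0 + 1)) (d - 2) (by omega) (by omega) (by omega)
      (by omega) (by omega)
    linarith
  have hcl2 : ∀ z ∈ A, (∃ l, i0 < l ∧ l < i0 + d ∧ z = s l) ∨ α z ≤ α (s (i0 + d)) := by
    intro z hz
    rcases hcl z hz with ⟨l, h1, h2, rfl⟩ | h
    · rcases h1.lt_or_eq with h1 | rfl
      · rcases h2.lt_or_eq with h2 | rfl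
        · exact Or.inl ⟨l, h1, h2, rfl⟩
        · exact Or.inr le_rfl
      · exact Or.inr (by rw [h00, hb0])
    · exact Or.inr (by rw [hb0]; exact h.le)
  obtain ⟨t, t0, t1, htie, -, hlo⟩ := hloc.edge (s (i0 + 1)) (hmem _ (by omega) (by omega))
    (s (i0 + d)) (hmem _ (by omega) le_rfl) hab
    (fun z hz => (hcl2 z hz).imp (fun ⟨l, h1, h2, e⟩ => e ▸ hin l h1 h2) id)
    (fun z hz e => by
      have e : α z = α (s (i0 + 1)) := e
      rcases hcl2 z hz with ⟨l, h1, h2, rfl⟩ | h
      · show β (s (i0 + 1)) ≤ β (s l)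
        rw [hβe, hβe, e, hγs, hγs]
        have := gle (c + 1 - 2 * l) (c + 1 - 2 * (i0 + 1)) (d - 1) (by omega) (by omega)
          (by omega) (by omega) (by omega)
        nlinarith
      · exact absurd (e ▸ h) (not_le.2 hab))
    (fun z hz e => by
      have e : α z = α (s (i0 + d)) := e
      show β z ≤ β (s (i0 + d))
      rcases hcl z hz with ⟨l, h1, h2, rfl⟩ | h
      · rcases h1.lt_or_eq with h1 | rfl
        · rcases h2.lt_or_eq with h2 | rfl
          · exact absurd (e ▸ hin l h1 h2) (not_le.2 hab)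
          · exact le_rfl
        · rw [hβe, hβe, e, hγs, hγs]
          have := gle (c + 1 - 2 * (i0 + d)) (c + 1 - 2 * i0) (d + 1) (by omega) (by omega)
            (by omega) (by omega) (by omega)
          nlinarith
      · rw [e, hb0] at h
        exact absurd h (lt_irrefl _))
  have hmix : ∀ a, mix α β a t = ((1 - t) + t * x) * α a + t * y * γ a := fun a => by
    rw [mix, hβe]
    ring
  have hγab : γ (s (i0 + 1)) = γ (s (i0 + d)) := by
    rw [hγs, hγs, show c + 1 - 2 * (i0 + d) = -(c + 1 - 2 * (i0 + 1)) by omega, he]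
  have hco : (1 - t) + t * x = 0 := by
    have h1 : mix α β (s (i0 + 1)) t = mix α β (s (i0 + d)) t := htie
    rw [hmix, hmix, hγab] at h1
    exact (mul_eq_zero.1 (by linarith :
      ((1 - t) + t * x) * (α (s (i0 + 1)) - α (s (i0 + d))) = 0)).resolve_right (sub_pos.2 hab).ne'
  have hmix2 : ∀ a, mix α β a t = t * y * γ a := fun a => by rw [hmix, hco, zero_mul, zero_add]
  have hty : 0 < t * y := mul_pos t0 hy0
  rcases t1.lt_or_eq with t1 | rfl
  · exfalso
    have hne : ∀ k l : ℤ, α (s k) < α (s l) → s k ≠ s l := fun k l h e => by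
      rw [e] at h
      exact lt_irrefl _ h
    refine hNS A α β hloc t t0 t1 (s (i0 + 1)) (hmem _ (by omega) (by omega)) (s (i0 + d))
      (hmem _ (by omega) le_rfl) (s (i0 + 2)) (hmem _ (by omega) (by omega)) (s (i0 + d - 1))
      (hmem _ (by omega) (by omega)) (hne _ _ hab).symm (hne _ _ ?_).symm htie ?_ ?_ ?_
    · rw [hαs, hαs]
      have := glt (c - 2 * (i0 + 2)) (c - 2 * (i0 + d - 1)) (d - 2) (by omega) (by omega)
        (by omega) (by omega) (by omega)
      linarith
    · rw [hmix2, hmix2, hγs, hγs,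
        show c + 1 - 2 * (i0 + d - 1) = -(c + 1 - 2 * (i0 + 2)) by omega, he]
    · rw [hmix2, hmix2, hγs, hγs]
      have := glt (c + 1 - 2 * (i0 + 2)) (c + 1 - 2 * (i0 + 1)) (d - 1) (by omega) (by omega)
        (by omega) (by omega) (by omega)
      exact mul_lt_mul_of_pos_left (by linarith) hty
    · intro z hz
      rcases hcl2 z hz with ⟨l, h1, h2, rfl⟩ | h
      · by_cases hl : l = i0 + 1
        · exact Or.inl (by rw [hl])
        · refine Or.inr ?_
          rw [hmix2, hmix2, hγs, hγs]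
          have := gle (c + 1 - 2 * l) (c + 1 - 2 * (i0 + 2)) (d - 3) (by omega) (by omega)
            (by omega) (by omega) (by omega)
          exact mul_le_mul_of_nonneg_left (by linarith) hty.le
      · exact Or.inl (hlo z hz h)
  · have hx : x = 0 := by linarith
    rw [hn', hx, zero_smul, zero_add] at hsl
    exact slab_scale hy0 hsl

end Pool.Agent.SimpArr.BV
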