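import Pool.Agent.P.MP_0b4c38_co.BVStep

/-! Propagation of the lattice around the big vertex. -/

set_option autoImplicit false

open Classical Real

namespace Pool.Agent.SimpArr.BV

namespace Prp

open Step

theorem mono_of_cvx {g : ℤ → ℝ} (he : ∀ d, g (-d) = g d) (hc : Cvx g) : Mono g 14 := by
  have h0 : 0 < g 1 - g 0 := by
    have := hc 0 le_rfl (by norm_num)
    have h1 := he 1
    norm_num at this
    linarith
  have hs : ∀ k : ℕ, k ≤ 13 → g 1 - g 0 ≤ g (k + 1) - g k := by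
    intro k
    induction k with
    | zero => intro _; simp
    | succ k ih =>
      intro hk
      have h1 := ih (by omega)
      have h2 := hc (k + 1) (by omega) (by omega)
      rw [add_sub_cancel_right] at h2
      push_cast
      linarith
  have hs' : ∀ d : ℤ, 0 ≤ d → d ≤ 13 → g d < g (d + 1) := by
    intro d h1 h2
    obtain ⟨k, rfl⟩ := Int.eq_ofNat_of_zero_le h1
    have := hs k (by omega)
    linarith
  intro d d' h1 h2 h3
  obtain ⟨j, rfl⟩ : ∃ j : ℕ, d' = d + 1 + j := ⟨(d' - d - 1).toNat, by omega⟩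
  induction j with
  | zero => simpa using hs' d h1 (by omega)
  | succ j ih =>
    have h4 := ih (by omega) (by push_cast at h3; omega)
    have h5 := hs' (d + 1 + j) (by omega) (by push_cast at h3; omega)
    push_cast
    rw [← add_assoc]
    exact h4.trans h5

theorem mono_le {g : ℤ → ℝ} {D D' : ℤ} (h : Mono g D) (hD : D' ≤ D) : Mono g D' :=
  fun d d' h1 h2 h3 => h d d' h1 h2 (h3.trans hD)

variable {A : Finset P} {κ : ℝ} {val : P → ℤ → ℝ} {s : ℤ → P} {lam g : ℤ → ℝ}

theorem refl_eq (hL : Lat κ val s lam g) {e : P} {c0 c1 c2 d0 d1 d2 : ℤ} (h1 : c1 = c0 + 1)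
    (h2 : c2 = c0 + 2) (h3 : d1 = d0 + 1) (h4 : d2 = d0 + 2) (he : val e c1 = lam c1 - g d1) :
    (val e c2 - lam c2) + (val e c0 - lam c0) = -g d2 - g d0 := by
  have a1 := hL.vrec e c1
  have a2 := hL.grec c1 d1
  rw [show c1 + 1 = c2 by omega, show c1 - 1 = c0 by omega] at a1 a2
  rw [show d1 + 1 = d2 by omega, show d1 - 1 = d0 by omega] at a2
  rw [he] at a1
  linarith

theorem kk_le (hL : Lat κ val s lam g) {D c d i0 : ℤ} (hm : Mono g D) (hd : 2 ≤ d) (hD : d ≤ D)
    (hc : c - 2 * i0 = d) (hK : KK A val s lam g c d) {a : P} (ha : a ∈ A)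
    (h : val a c < lam c - g (d - 2)) : val a c ≤ lam c - g d := by
  by_cases hi : ∃ i, -d < c - 2 * i ∧ c - 2 * i ≤ d ∧ a = s i
  · obtain ⟨i, h1, h2, rfl⟩ := hi
    rw [hL.sval] at h ⊢
    rcases h2.lt_or_eq with h2 | h2
    · have := g_le hL.even hm (x := c - 2 * i) (y := d - 2)
        (by rw [abs_of_nonneg (a := d - 2) (by omega)]; exact abs_le.2 ⟨by omega, by omega⟩)
        (by rw [abs_of_nonneg (a := d - 2) (by omega)]; omega)
      linarith
    · rw [h2]
  · exact hK.2 a ha fun i h1 h2 h3 => hi ⟨i, h1, h2, h3⟩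

theorem kk_jj (hL : Lat κ val s lam g) {D c d i0 : ℤ} (hm : Mono g D) (hd : 2 ≤ d) (hD : d ≤ D)
    (hc : c - 2 * i0 = d) (hK : KK A val s lam g c d) : JJ A val s lam g c (d - 2) := by
  have hg : g (d - 2) < g d := hm _ _ (by omega) (by omega) hD
  refine ⟨fun i hi => ?_, fun a ha hne => ?_⟩
  · obtain ⟨h1, h2⟩ := abs_le.1 hi
    exact hK.1 i (by omega) (by omega)
  · by_cases hi : ∃ i, -d < c - 2 * i ∧ c - 2 * i ≤ d ∧ a = s i
    · obtain ⟨i, h1, h2, rfl⟩ := hi
      rcases h2.lt_or_eq with h2 | h2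
      · exact absurd rfl (hne i (abs_le.2 ⟨by omega, by omega⟩))
      · rw [hL.sval, h2]
        linarith
    · have := hK.2 a ha fun i h1 h2 h3 => hi ⟨i, h1, h2, h3⟩
      linarith

/-- The boundary of the lattice zone descends. -/
def Desc (A : Finset P) (val : P → ℤ → ℝ) (s : ℤ → P) (lam g : ℤ → ℝ) (c d : ℤ) : Prop :=
  KK A val s lam g c d ∧
    ∃ e ∈ A, val e c = lam c - g d ∧ lam (c + 1) - g (d - 1) < val e (c + 1)

theorem step2 (hS : S_Step) (hL : Lat κ val s lam g) {D c d i0 : ℤ} (hm : Mono g D) (hd : 4 ≤ d)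
    (hD : d ≤ D) (hc : c - 2 * i0 = d)
    (hloc : Loc A (fun a => val a c) (fun a => val a (c + 1))) (hK : KK A val s lam g c d) :
    (KK A val s lam g (c + 1) (d - 1) ∧
      (JJ A val s lam g (c + 1) (d - 1) ∨ Desc A val s lam g (c + 1) (d - 1))) ∨
    (KK A val s lam g (c + 1) (d - 3) ∧
      ∃ e ∈ A, val e c ≤ lam c - g d ∧ val e (c + 1) = lam (c + 1) - g (d - 3)) := by
  have hg : g (d - 2) < g d := hm _ _ (by omega) (by omega) hD
  have hJ := kk_jj hL hm (by omega) hD hc hK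
  rcases hS A κ val s lam g c (d - 2) (i0 + 1) hL (mono_le hm (by omega)) (by omega) (by omega)
    hloc hJ with ⟨hK1, hb⟩ | ⟨hK1, e, he, h1, h2⟩
  · rw [show d - 2 + 1 = d - 1 by omega] at hK1 hb
    refine Or.inl ⟨hK1, ?_⟩
    have ha0 : val (s i0) c = lam c - g d := by rw [hL.sval, hc]
    have hj0 : val (s (i0 + d)) c = lam c - g d := by
      rw [hL.sval, show c - 2 * (i0 + d) = -d by omega, hL.even]
    have hj1 : val (s (i0 + d)) (c + 1) = lam (c + 1) - g (d - 1) := by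
      rw [hL.sval, show c + 1 - 2 * (i0 + d) = -(d - 1) by omega, hL.even]
    obtain ⟨b, hbA, hb1, hb2, hb3⟩ := hb (s i0) (hK.1 i0 (by omega) (by omega))
      (by rw [ha0]; linarith)
    have hb4 : val b c = lam c - g d :=
      le_antisymm (kk_le hL hm (by omega) hD hc hK hbA hb2) (ha0 ▸ hb1)
    have hbj : b = s (i0 + d) := hL.inj _ _ c (hb4.trans hj0.symm) (hb3.trans hj1.symm)
    by_cases hex : ∃ e ∈ A, (∀ i, |c + 1 - 2 * i| ≤ d - 1 → e ≠ s i) ∧
        val e (c + 1) = lam (c + 1) - g (d - 1)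
    · obtain ⟨e, he, hne, he1⟩ := hex
      refine Or.inr ⟨hK1, e, he, he1, ?_⟩
      have h1 : val e c ≤ lam c - g d := by
        by_cases hi : e = s i0
        · rw [hi, ha0]
        · refine hK.2 e he fun i h1 h2 h3 => ?_
          rcases h2.lt_or_eq with h2 | h2
          · exact hne i (abs_le.2 ⟨by omega, by omega⟩) h3
          · exact hi (by rw [h3, show i = i0 by omega])
      have h2 : val e c ≠ lam c - g d := fun h =>
        hne (i0 + d) (abs_le.2 ⟨by omega, by omega⟩)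
          (hL.inj _ _ c (h.trans hj0.symm) (he1.trans hj1.symm))
      have h3 := refl_eq hL (c0 := c) (c2 := c + 1 + 1) (d0 := d - 1 - 1) (d2 := d) rfl (by omega)
        (by omega) (by omega) he1
      have h4 := lt_of_le_of_ne h1 h2
      linarith
    · refine Or.inl ⟨fun i hi => ?_, fun a ha hne => ?_⟩
      · obtain ⟨h1, h2⟩ := abs_le.1 hi
        by_cases h : i = i0 + d
        · rw [h, ← hbj]
          exact hbA
        · exact hK.1 i (by omega) (by omega)
      · refine lt_of_le_of_ne (hK1.2 a ha fun i h1 h2 => hne i (abs_le.2 ⟨by omega, by omega⟩))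
          fun h => hex ⟨a, ha, hne, h⟩
  · rw [show d - 2 - 1 = d - 3 by omega] at hK1 h2
    exact Or.inr ⟨hK1, e, he, kk_le hL hm (by omega) hD hc hK he h1, h2⟩

theorem desc_step (hS : S_Step) (hL : Lat κ val s lam g) {D c d i0 : ℤ} (hm : Mono g D)
    (hd : 4 ≤ d) (hD : d ≤ D) (hc : c - 2 * i0 = d)
    (hloc : Loc A (fun a => val a c) (fun a => val a (c + 1))) (h : Desc A val s lam g c d) :
    KK A val s lam g (c + 1) (d - 3) ∧
      ∃ e ∈ A, val e c ≤ lam c - g d ∧ val e (c + 1) = lam (c + 1) - g (d - 3) := by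
  obtain ⟨hK, e, he, h1, h2⟩ := h
  rcases step2 hS hL hm hd hD hc hloc hK with ⟨hK1, -⟩ | h3
  · refine absurd (hK1.2 e he fun i h4 h5 h6 => ?_) (not_le.2 h2)
    rw [h6, hL.sval] at h1
    have := g_lt hL.even hm (x := c - 2 * i) (y := d)
      (by rw [abs_of_nonneg (a := d) (by omega)]; exact abs_lt.2 ⟨by omega, by omega⟩)
      (by rw [abs_of_nonneg (a := d) (by omega)]; omega)
    linarith
  · exact h3

theorem no_desc (hS : S_Step) (hL : Lat κ val s lam g) (hcv : Cvx g) {T : ℤ → Prop}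
    (H : ∀ c d i0, 4 ≤ d → d ≤ 13 → c - 2 * i0 = d → T c → JJ A val s lam g c d →
      T (c + 1) ∧ Loc A (fun a => val a c) (fun a => val a (c + 1)))
    {c d i0 : ℤ} (hd : 9 ≤ d) (hD : d ≤ 12) (hc : c - 2 * i0 = d) (hT : T c)
    (h : Desc A val s lam g c d) : False := by
  have hm := mono_of_cvx hL.even hcv
  obtain ⟨hT1, hloc⟩ := H c (d - 2) (i0 + 1) (by omega) (by omega) (by omega) hT
    (kk_jj hL hm (by omega) (by omega) hc h.1)
  obtain ⟨hK1, e, he, h1, h2⟩ := desc_step hS hL hm (by omega) (by omega) hc hloc h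
  have h3 := refl_eq hL (c0 := c) (c2 := c + 1 + 1) (d0 := d - 4) (d2 := d - 2) rfl (by omega)
    (by omega) (by omega) h2
  have hg : g (d - 2) < g d := hm _ _ (by omega) (by omega) (by omega)
  have hD1 : Desc A val s lam g (c + 1) (d - 3) := by
    refine ⟨hK1, e, he, h2, ?_⟩
    rw [show d - 3 - 1 = d - 4 by omega]
    linarith
  obtain ⟨-, hloc1⟩ := H (c + 1) (d - 3 - 2) (i0 + 3) (by omega) (by omega) (by omega) hT1
    (kk_jj hL hm (i0 := i0 + 2) (by omega) (by omega) (by omega) hK1)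
  obtain ⟨hK2, -⟩ := desc_step hS hL hm (i0 := i0 + 2) (by omega) (by omega) (by omega) hloc1 hD1
  have h4 := hK2.2 e he fun i h4 h5 h6 => by
    rw [h6, hL.sval] at h1
    have := g_lt hL.even hm (x := c - 2 * i) (y := d)
      (by rw [abs_of_nonneg (a := d) (by omega)]; exact abs_lt.2 ⟨by omega, by omega⟩)
      (by rw [abs_of_nonneg (a := d) (by omega)]; omega)
    linarith
  rw [show d - 3 - 3 = d - 6 by omega] at h4
  have c1 := hcv (d - 1) (by omega) (by omega)
  have c2 := hcv (d - 2) (by omega) (by omega)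
  have c3 := hcv (d - 3) (by omega) (by omega)
  have c4 := hcv (d - 4) (by omega) (by omega)
  have c5 := hcv (d - 5) (by omega) (by omega)
  rw [show d - 1 + 1 = d by omega, show d - 1 - 1 = d - 2 by omega] at c1
  rw [show d - 2 + 1 = d - 1 by omega, show d - 2 - 1 = d - 3 by omega] at c2
  rw [show d - 3 + 1 = d - 2 by omega, show d - 3 - 1 = d - 4 by omega] at c3
  rw [show d - 4 + 1 = d - 3 by omega, show d - 4 - 1 = d - 5 by omega] at c4
  rw [show d - 5 + 1 = d - 4 by omega, show d - 5 - 1 = d - 6 by omega] at c5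
  linarith

theorem two_steps (hS : S_Step) (hL : Lat κ val s lam g) (hcv : Cvx g) {T : ℤ → Prop}
    (H : ∀ c d i0, 4 ≤ d → d ≤ 13 → c - 2 * i0 = d → T c → JJ A val s lam g c d →
      T (c + 1) ∧ Loc A (fun a => val a c) (fun a => val a (c + 1)))
    {c i0 : ℤ} (hc : c - 2 * i0 = 12) (hT : T c) (hJ : JJ A val s lam g c 12) :
    T (c + 1) ∧ KK A val s lam g (c + 1) 13 ∧ T (c + 1 + 1) ∧ JJ A val s lam g (c + 1 + 1) 12 := by
  have hm := mono_of_cvx hL.even hcv
  obtain ⟨hT1, hloc⟩ := H c 12 i0 (by norm_num) (by norm_num) hc hT hJ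
  rcases hS A κ val s lam g c 12 i0 hL (mono_le hm (by norm_num)) (by norm_num) hc hloc hJ with
    ⟨hK1, -⟩ | ⟨hK1, e, he, h1, h2⟩
  · have hK1' : KK A val s lam g (c + 1) 13 := hK1
    obtain ⟨hT2, hloc1⟩ := H (c + 1) (13 - 2) (i0 + 1) (by norm_num) (by norm_num) (by omega) hT1
      (kk_jj hL hm (i0 := i0) (by norm_num) (by norm_num) (by omega) hK1')
    refine ⟨hT1, hK1', hT2, ?_⟩
    rcases step2 hS hL hm (i0 := i0) (by norm_num) (by norm_num) (by omega) hloc1 hK1' with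
      ⟨-, h | h⟩ | ⟨hK2, e, he, h1, h2⟩
    · exact h
    · exact (no_desc hS hL hcv H (i0 := i0 + 1) (by norm_num) (by norm_num) (by omega) hT2 h).elim
    · refine (no_desc hS hL hcv H (d := 13 - 3) (i0 := i0 + 2) (by norm_num) (by norm_num)
        (by omega) hT2 ⟨hK2, e, he, h2, ?_⟩).elim
      have h3 := refl_eq hL (c0 := c + 1) (c2 := c + 1 + 1 + 1) (d0 := 13 - 3 - 1) (d2 := 11) rfl
        (by omega) (by norm_num) (by norm_num) h2
      have hg : g 11 < g 13 := hm _ _ (by norm_num) (by norm_num) (by norm_num)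
      linarith
  · refine (no_desc hS hL hcv H (d := 12 - 1) (i0 := i0 + 1) (by norm_num) (by norm_num)
      (by omega) hT1 ⟨hK1, e, he, h2, ?_⟩).elim
    have h3 := refl_eq hL (c0 := c) (c2 := c + 1 + 1) (d0 := 12 - 1 - 1) (d2 := 12) rfl
      (by omega) (by norm_num) (by norm_num) h2
    linarith

end Prp

open Prp

theorem t_Prop (hS : S_Step) (hN : S_NextT) : S_Prop := by
  intro A X κ n s lam g hM hX hR hL hcv hT hJ
  have hm := mono_of_cvx hL.even hcv
  have H0 : ∀ c d i0, 4 ≤ d → d ≤ 13 → c - 2 * i0 = d → IsT X (n c) →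
      JJ A (fun a c => dot a (n c)) s lam g c d → Slab X (n c) (n (c + 1)) :=
    fun c d i0 h1 h2 h3 h4 h5 =>
      hN A X κ n s lam g c d i0 hM hX hR hL (mono_le hm (by omega)) h1 h3 h4 h5
  have H : ∀ c d i0, 4 ≤ d → d ≤ 13 → c - 2 * i0 = d → IsT X (n c) →
      JJ A (fun a c => dot a (n c)) s lam g c d →
      IsT X (n (c + 1)) ∧ Loc A (fun a => dot a (n c)) (fun a => dot a (n (c + 1))) :=
    fun c d i0 h1 h2 h3 h4 h5 => ⟨(H0 c d i0 h1 h2 h3 h4 h5).2.1, hM _ _ (H0 c d i0 h1 h2 h3 h4 h5)⟩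
  have main : ∀ k : ℕ, IsT X (n (12 + 2 * k)) ∧
      JJ A (fun a c => dot a (n c)) s lam g (12 + 2 * k) 12 := by
    intro k
    induction k with
    | zero => simpa using ⟨hT, hJ⟩
    | succ k ih =>
      obtain ⟨-, -, h1, h2⟩ := two_steps hS hL hcv (T := fun c => IsT X (n c)) H (i0 := k)
        (by omega) ih.1 ih.2
      rw [show (12 : ℤ) + 2 * ((k + 1 : ℕ) : ℤ) = 12 + 2 * k + 1 + 1 by push_cast; ring]
      exact ⟨h1, h2⟩
  have cases : ∀ c : ℤ, 12 ≤ c → ∃ k : ℕ, c = 12 + 2 * k ∨ c = 12 + 2 * k + 1 := fun c hc =>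
    ⟨((c - 12) / 2).toNat, by omega⟩
  refine ⟨fun c hc => ?_, fun i hi => ?_, fun c hc a ha hne => ?_⟩
  · obtain ⟨k, rfl | rfl⟩ := cases c hc
    · exact H0 _ 12 k (by norm_num) (by norm_num) (by omega) (main k).1 (main k).2
    · obtain ⟨h1, h2, -, -⟩ := two_steps hS hL hcv (T := fun c => IsT X (n c)) H (i0 := k)
        (by omega) (main k).1 (main k).2
      exact H0 _ (13 - 2) (k + 1) (by norm_num) (by norm_num) (by omega) h1
        (kk_jj hL hm (i0 := k) (by norm_num) (by norm_num) (by omega) h2)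
  · obtain ⟨k, rfl⟩ := Int.eq_ofNat_of_zero_le hi
    exact (main k).2.1 k (abs_le.2 ⟨by omega, by omega⟩)
  · obtain ⟨k, rfl | rfl⟩ := cases c hc
    · exact ((main k).2.2 a ha fun i _ => hne i).le
    · obtain ⟨-, h2, -, -⟩ := two_steps hS hL hcv (T := fun c => IsT X (n c)) H (i0 := k)
        (by omega) (main k).1 (main k).2
      have h3 := h2.2 a ha fun i _ _ => hne i
      have hg : g 12 < g 13 := hm _ _ (by norm_num) (by norm_num) (by norm_num)
      exact h3.trans (by linarith)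

end Pool.Agent.SimpArr.BV
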