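import Pool.Agent.P.MP_0b4c38_co.BVIface

/-! A clean run of top wires is affinely regular. -/

set_option autoImplicit false

namespace Pool.Agent.SimpArr.BV

namespace RecAux

variable {A : Finset P} {X : Finset ℝ} {lo hi : ℝ} {p : ℕ → P} {z : ℕ → ℝ}

theorem diff (a b : P) (x y : ℝ) : f b y - f a y = f b x - f a x + (b.2 - a.2) * (y - x) := by
  unfold f
  ring

theorem slope (h : Run A lo hi p z) {i j : ℕ} (hij : i < j) (hj : j ≤ 16) : (p i).2 < (p j).2 := by
  have a1 := h.top i (by omega) _ (h.mem j hj) (h.inj i j hij hj).symm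
  have a2 := h.top j hj _ (h.mem i (by omega)) (h.inj i j hij hj)
  have a3 := diff (p i) (p j) (z i) (z j)
  by_contra hn
  nlinarith [mul_nonneg (sub_nonneg.2 (not_lt.1 hn)) (sub_pos.2 (h.mono i j hij hj)).le]

theorem idx (h : Run A lo hi p z) {i j : ℕ} (hi' : i ≤ 16) (hj : j ≤ 16) (e : p i = p j) :
    i = j := by
  rcases lt_trichotomy i j with h1 | h1 | h1
  · exact (h.inj i j h1 hj e).elim
  · exact h1
  · exact (h.inj j i h1 hi' e.symm).elim

theorem ex (h : Run A lo hi p z) {i j : ℕ} (hij : i < j) (hj : j ≤ 16) :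
    ∃ x, f (p i) x = f (p j) x := by
  have := (sub_pos.2 (slope h hij hj)).ne'
  refine ⟨((p i).1 - (p j).1) / ((p j).2 - (p i).2), ?_⟩
  unfold f
  field_simp
  ring

theorem inside (h : Run A lo hi p z) {i j : ℕ} (hij : i < j) (hj : j ≤ 16) {x : ℝ}
    (e : f (p i) x = f (p j) x) : lo < x ∧ x < hi := by
  have a1 := h.top i (by omega) _ (h.mem j hj) (h.inj i j hij hj).symm
  have a2 := h.top j hj _ (h.mem i (by omega)) (h.inj i j hij hj)
  have a3 := sub_pos.2 (slope h hij hj)
  have a4 := diff (p i) (p j) x (z i)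
  have a5 := diff (p i) (p j) x (z j)
  have b1 : z 0 ≤ z i := by
    rcases Nat.eq_zero_or_pos i with rfl | h0
    · exact le_rfl
    · exact (h.mono 0 i h0 (by omega)).le
  have b2 : z j ≤ z 16 := by
    rcases hj.eq_or_lt with rfl | h0
    · exact le_rfl
    · exact (h.mono j 16 h0 le_rfl).le
  have c1 : z i < x := by
    by_contra hn
    nlinarith [mul_nonneg a3.le (sub_nonneg.2 (not_lt.1 hn))]
  have c2 : x < z j := by
    by_contra hn
    nlinarith [mul_nonneg a3.le (sub_nonneg.2 (not_lt.1 hn))]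
  exact ⟨by linarith [h.lo_lt], by linarith [h.lt_hi]⟩

theorem above (h : Run A lo hi p z) {i l j : ℕ} (hil : i < l) (hlj : l < j) (hj : j ≤ 16) {x : ℝ}
    (e : f (p i) x = f (p j) x) : f (p i) x < f (p l) x := by
  have a1 := h.top l (by omega) _ (h.mem j hj) (h.inj l j hlj hj).symm
  have a2 := h.top l (by omega) _ (h.mem i (by omega)) (h.inj i l hil (by omega))
  rcases le_total x (z l) with h1 | h1
  · have := diff (p l) (p j) x (z l)
    linarith [mul_nonneg (sub_pos.2 (slope h hlj hj)).le (sub_nonneg.2 h1)]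
  · have := diff (p i) (p l) (z l) x
    linarith [mul_nonneg (sub_pos.2 (slope h hil (by omega))).le (sub_nonneg.2 h1)]

theorem among (h : Run A lo hi p z) {i j : ℕ} (hij : i < j) (hj : j ≤ 16) (h12 : j ≤ i + 12)
    {x : ℝ} (e : f (p i) x = f (p j) x) {c : P} (hc : c ∈ A) (hx : f (p i) x ≤ f c x) :
    ∃ l, i ≤ l ∧ l ≤ j ∧ c = p l := by
  by_contra hn
  push Not at hn
  exact (h.clean i j hij hj h12 x e c hc hn).not_ge hx

theorem tie (h : Run A lo hi p z) {i j : ℕ} (hij : i < j) (hj : j ≤ 16) (h12 : j ≤ i + 12)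
    {x : ℝ} (e : f (p i) x = f (p j) x) {c : P} (hc : c ∈ A) (hx : f c x = f (p i) x) :
    (p i).2 ≤ c.2 ∧ c.2 ≤ (p j).2 := by
  obtain ⟨l, h1, h2, rfl⟩ := among h hij hj h12 e hc hx.ge
  constructor
  · rcases h1.eq_or_lt with rfl | h3
    · exact le_rfl
    · exact (slope h h3 (by omega)).le
  · rcases h2.eq_or_lt with rfl | h3
    · exact le_rfl
    · exact (slope h h3 hj).le

theorem upper (h : Run A lo hi p z) {i j : ℕ} (hij : i < j) (hj : j ≤ 16) (h12 : j ≤ i + 12)
    {x : ℝ} (e : f (p i) x = f (p j) x) {c : P} (hc : c ∈ A) (hx : f (p i) x < f c x) :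
    ∃ l, i < l ∧ l < j ∧ c = p l := by
  obtain ⟨l, h1, h2, rfl⟩ := among h hij hj h12 e hc hx.le
  refine ⟨l, lt_of_le_of_ne h1 ?_, lt_of_le_of_ne h2 ?_, rfl⟩
  · rintro rfl
    exact hx.false
  · rintro rfl
    exact hx.ne e

theorem inX (hC : Chart A X lo hi) (h : Run A lo hi p z) {i j : ℕ} (hij : i + 3 ≤ j) (hj : j ≤ 16)
    (h12 : j ≤ i + 12) {x : ℝ} (e : f (p i) x = f (p j) x) : x ∈ X := by
  by_contra hn
  have hij' : i < j := by omega
  obtain ⟨b1, b2⟩ := inside h hij' hj e
  obtain ⟨g, hg, s, t, -, -, -, -, g1, g2, g3, g4, -⟩ := hC.bottom x b1 b2 hn _ (h.mem i (by omega))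
    _ (h.mem j hj) (h.inj i j hij' hj) e fun c hc hx => tie h hij' hj h12 e hc hx
  obtain ⟨l, l1, l2, rfl⟩ := upper h hij' hj h12 e hg g1
  obtain ⟨k, k1, k2, k3⟩ : ∃ k, i < k ∧ k < j ∧ k ≠ l := by
    by_cases hl : l = i + 1
    · exact ⟨i + 2, by omega, by omega, by omega⟩
    · exact ⟨i + 1, by omega, by omega, by omega⟩
  have hk := h.mem k (by omega)
  obtain ⟨c1, c2⟩ := g4 _ hk (above h k1 k2 hj e)
  obtain ⟨m, -, m2, m3⟩ := among h l1 (by omega) (by omega) g2.symm hk (g2 ▸ c1)
  obtain ⟨m', m1, m4, m5⟩ := among h l2 hj (by omega) g3 hk c2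
  have := idx h (by omega) (by omega) m3
  have := idx h (by omega) (by omega) m5
  omega

theorem same (hC : Chart A X lo hi) (h : Run A lo hi p z) {i k : ℕ} (hik : i + 2 ≤ k)
    (hk : k + 1 ≤ 16) (h12 : k + 1 ≤ i + 12) {x : ℝ} (e : f (p i) x = f (p (k + 1)) x) :
    f (p (i + 1)) x = f (p k) x := by
  have hij : i < k + 1 := by omega
  have hX := inX hC h (by omega) hk h12 e
  obtain ⟨b1, b2⟩ := inside h hij hk e
  obtain ⟨y, hy⟩ := ex h (show i + 1 < k by omega) (by omega)
  have d0 := diff (p (i + 1)) (p k) x y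
  have s0 := sub_pos.2 (slope h (show i + 1 < k by omega) (by omega))
  have u1 := above h (show i < i + 1 by omega) (by omega) hk e
  have u2 := above h (show i < k by omega) (by omega) hk e
  rcases lt_trichotomy (f (p (i + 1)) x) (f (p k) x) with h1 | h1 | h1
  · exfalso
    have hyx : y < x := by
      by_contra hn
      linarith [mul_nonneg s0.le (sub_nonneg.2 (not_lt.1 hn))]
    have key : ∀ c ∈ A, f (p i) x < f c x → c = p (i + 1) ∨ f (p (i + 1)) x < f c x :=
      fun c hc hx => by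
      obtain ⟨l, l1, l2, rfl⟩ := upper h hij hk h12 e hc hx
      rcases (show l = i + 1 ∨ l = k ∨ (i + 1 < l ∧ l < k) by omega) with rfl | rfl | ⟨l3, l4⟩
      · exact Or.inl rfl
      · exact Or.inr h1
      · have a1 := above h l3 l4 (by omega) hy
        have a2 := diff (p (i + 1)) (p l) y x
        exact Or.inr (by
          linarith [mul_pos (sub_pos.2 (slope h l3 (by omega))) (sub_pos.2 hyx)])
    obtain ⟨t, -, -, t1, t2, -⟩ := hC.edgeL x hX b1 _ (h.mem (i + 1) (by omega)) _
      (h.mem i (by omega)) u1 (fun c hc => by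
        rcases le_or_gt (f c x) (f (p i) x) with hx | hx
        · exact Or.inr hx
        · rcases key c hc hx with rfl | h2
          · exact Or.inl le_rfl
          · exact Or.inl h2.le)
      (fun c hc hx => by
        rcases key c hc (hx ▸ u1) with rfl | h2
        · exact le_rfl
        · exact (h2.ne' hx).elim)
      fun c hc hx => (tie h hij hk h12 e hc hx).1
    obtain ⟨l, -, l2, l3⟩ := among h (show i < i + 1 by omega) (by omega) (by omega) t1.symm
      (h.mem k (by omega)) (t1 ▸ t2 _ (h.mem k (by omega)) h1.le)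
    have := idx h (by omega) (by omega) l3
    omega
  · exact h1
  · exfalso
    have hyx : x < y := by
      by_contra hn
      nlinarith [mul_nonneg s0.le (sub_nonneg.2 (not_lt.1 hn))]
    have key : ∀ c ∈ A, f (p i) x < f c x → c = p k ∨ f (p k) x < f c x :=
      fun c hc hx => by
      obtain ⟨l, l1, l2, rfl⟩ := upper h hij hk h12 e hc hx
      rcases (show l = i + 1 ∨ l = k ∨ (i + 1 < l ∧ l < k) by omega) with rfl | rfl | ⟨l3, l4⟩
      · exact Or.inr h1
      · exact Or.inl rfl
      · have a1 := above h l3 l4 (by omega) hy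
        have a2 := diff (p l) (p k) x y
        exact Or.inr (by
          linarith [mul_pos (sub_pos.2 (slope h l4 (by omega))) (sub_pos.2 hyx)])
    obtain ⟨t, -, -, t1, t2, -⟩ := hC.edgeR x hX b2 _ (h.mem k (by omega)) _
      (h.mem (k + 1) hk) (e ▸ u2) (fun c hc => by
        rcases le_or_gt (f c x) (f (p i) x) with hx | hx
        · exact Or.inr (e ▸ hx)
        · rcases key c hc hx with rfl | h2
          · exact Or.inl le_rfl
          · exact Or.inl h2.le)
      (fun c hc hx => by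
        rcases key c hc (hx ▸ u2) with rfl | h2
        · exact le_rfl
        · exact (h2.ne' hx).elim)
      fun c hc hx => (tie h hij hk h12 e hc (hx.trans e.symm)).2
    obtain ⟨l, l1, l2, l3⟩ := among h (show k < k + 1 by omega) hk (by omega) t1
      (h.mem (i + 1) (by omega)) (t2 _ (h.mem (i + 1) (by omega)) h1.le)
    have := idx h (by omega) (by omega) l3
    omega

theorem par (hC : Chart A X lo hi) (h : Run A lo hi p z) (i : ℕ) : ∃ τ : ℝ, i + 3 ≤ 16 →
    (p (i + 3) - p (i + 2)) + (p (i + 1) - p i) = τ • (p (i + 2) - p (i + 1)) := by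
  refine ⟨((p (i + 3)).2 - (p (i + 2)).2 + ((p (i + 1)).2 - (p i).2)) /
    ((p (i + 2)).2 - (p (i + 1)).2), fun hi' => ?_⟩
  obtain ⟨x, e⟩ := ex h (show i < i + 3 by omega) hi'
  have e' := same hC h (k := i + 2) le_rfl hi' (by omega) e
  have d := div_mul_cancel₀ ((p (i + 3)).2 - (p (i + 2)).2 + ((p (i + 1)).2 - (p i).2))
    (sub_pos.2 (slope h (show i + 1 < i + 2 by omega) (by omega))).ne'
  generalize ((p (i + 3)).2 - (p (i + 2)).2 + ((p (i + 1)).2 - (p i).2)) /
    ((p (i + 2)).2 - (p (i + 1)).2) = τ at d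
  unfold f at e e'
  ext
  · simp only [Prod.fst_add, Prod.fst_sub, Prod.smul_fst, smul_eq_mul]
    linear_combination x * d - e + (1 + τ) * e'
  · simp only [Prod.snd_add, Prod.snd_sub, Prod.smul_snd, smul_eq_mul]
    exact d.symm

end RecAux

open RecAux

theorem t_Rec : S_Rec := by
  intro A X lo hi p z hC h
  refine ⟨?_, fun x e => inX hC h (by norm_num) (by norm_num) (by norm_num) e⟩
  choose τ hτ using par hC h
  have step : ∀ i, i + 4 ≤ 16 → τ (i + 1) = τ i := fun i hi' => by
    obtain ⟨x, e⟩ := ex h (show i < i + 4 by omega) hi'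
    have e' := same hC h (i := i) (k := i + 3) (by omega) hi' (by omega) e
    have a0 := sub_pos.2 (above h (show i + 1 < i + 2 by omega) (show i + 2 < i + 3 by omega)
      (by omega) e')
    have a1 := congrArg (fun v => f v x) (hτ i (by omega))
    have a2 := congrArg (fun v => f v x) (hτ (i + 1) (by omega))
    refine mul_left_cancel₀ a0.ne' ?_
    simp only [f, Prod.fst_add, Prod.fst_sub, Prod.smul_fst, Prod.snd_add, Prod.snd_sub,
      Prod.smul_snd, smul_eq_mul, add_assoc, Nat.reduceAdd] at a1 a2 e e' ⊢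
    linear_combination a1 + a2 + e - τ (i + 1) * e'
  have all : ∀ i, i + 3 ≤ 16 → τ i = τ 0 := fun i hi' => by
    induction i with
    | zero => rfl
    | succ i ih => rw [step i hi', ih (by omega)]
  refine ⟨τ 0, fun i hi' => all i hi' ▸ hτ i hi', fun i hi' => slope h (by omega) hi', ?_⟩
  obtain ⟨x, e⟩ := ex h (show 0 < 2 by norm_num) (by norm_num)
  have a1 := mul_pos (sub_pos.2 (above h (show 0 < 1 by norm_num) (show 1 < 2 by norm_num)
    (by norm_num) e)) (sub_pos.2 (slope h (show 0 < 2 by norm_num) (by norm_num)))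
  simp only [f, det, Prod.fst_sub, Prod.snd_sub] at a1 e ⊢
  have a2 : ((p 1).2 - (p 0).2) * ((p 0).1 + (p 0).2 * x) =
    ((p 1).2 - (p 0).2) * ((p 2).1 + (p 2).2 * x) := by rw [e]
  linarith

end Pool.Agent.SimpArr.BV
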