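import Pool.Agent.P.MP_0b4c38_co.BVLev

/-! The clean run of top wires. -/

set_option autoImplicit false

open Classical Real

namespace Pool.Agent.SimpArr.BV

namespace RunAux

open Lev

/-- Every top wire is strictly highest at a generic point. -/
theorem exists_top {A : Finset P} {lo hi : ℝ} {a : P} (ha : a ∈ WS A lo hi 0) :
    ∃ y, lo < y ∧ y < hi ∧ y ∉ Ev A ∧ ∀ c ∈ A, c ≠ a → f c y < f a y := by
  obtain ⟨haA, x, h1, h2, h3⟩ := Finset.mem_filter.1 ha
  obtain ⟨y, y1, y2, y3, y4⟩ := exists_right A h2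
  refine ⟨y, h1.trans_lt y1, y2, y3, fun c hc hca => ?_⟩
  have hn : ¬ AbP x a c := fun k => by
    have h4 : (A.filter (AbP x a)).card = 0 := Nat.le_zero.1 h3
    rw [Finset.card_eq_zero] at h4
    have h5 : c ∈ A.filter (AbP x a) := Finset.mem_filter.2 ⟨hc, k⟩
    rw [h4] at h5
    exact Finset.notMem_empty _ h5
  exact (y4 c hc a haA).1 (((stoP x).total c a hca).resolve_right hn)

/-- Enumeration of a finite set in the order of an injective real function. -/
theorem enum (S : Finset P) (Z : P → ℝ) (hinj : Set.InjOn Z S) :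
    ∃ s : ℕ → P, (∀ i < S.card, s i ∈ S) ∧ (∀ i j, i < j → j < S.card → Z (s i) < Z (s j)) ∧
      ∀ a ∈ S, ∃ i < S.card, s i = a := by
  have hT : (S.image Z).card = S.card := Finset.card_image_of_injOn hinj
  have h1 : ∀ i : Fin S.card, ∃ a ∈ S, Z a = (S.image Z).orderEmbOfFin hT i := fun i =>
    Finset.mem_image.1 (Finset.orderEmbOfFin_mem _ hT i)
  choose g hg1 hg2 using h1
  refine ⟨fun i => if h : i < S.card then g ⟨i, h⟩ else 0, fun i hi => ?_, fun i j hij hj => ?_,
    fun a ha => ?_⟩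
  · simp only [dif_pos hi]
    exact hg1 _
  · simp only [dif_pos hj, dif_pos (hij.trans hj), hg2]
    exact ((S.image Z).orderEmbOfFin hT).strictMono (Fin.mk_lt_mk.2 hij)
  · have h2 : Z a ∈ Set.range ((S.image Z).orderEmbOfFin hT) := by
      rw [Finset.range_orderEmbOfFin]
      exact Finset.mem_coe.2 (Finset.mem_image_of_mem Z ha)
    obtain ⟨i, hi⟩ := h2
    refine ⟨i.1, i.2, ?_⟩
    simp only [dif_pos i.2]
    exact hinj (hg1 _) ha ((hg2 _).trans hi)

/-- The upper envelope, listed from left to right. -/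
structure Env (A : Finset P) (N : ℕ) (s : ℕ → P) (z : ℕ → ℝ) : Prop where
  mem : ∀ i < N, s i ∈ A
  inj : ∀ i j, i < j → j < N → s i ≠ s j
  mono : ∀ i j, i < j → j < N → z i < z j
  top : ∀ i < N, ∀ c ∈ A, c ≠ s i → f c (z i) < f (s i) (z i)

variable {A : Finset P} {N : ℕ} {s : ℕ → P} {z : ℕ → ℝ}

theorem Env.mono' (h : Env A N s z) {i j : ℕ} (hij : i ≤ j) (hj : j < N) : z i ≤ z j := by
  rcases hij.lt_or_eq with k | rfl
  · exact (h.mono i j k hj).le
  · exact le_rfl

theorem Env.slope (h : Env A N s z) {i j : ℕ} (hij : i < j) (hj : j < N) : (s i).2 < (s j).2 := by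
  have hi := hij.trans hj
  have h1 := h.top i hi (s j) (h.mem j hj) (h.inj i j hij hj).symm
  have h2 := h.top j hj (s i) (h.mem i hi) (h.inj i j hij hj)
  have h3 := h.mono i j hij hj
  rw [f_sub (s i) (z i) (z j), f_sub (s j) (z i) (z j)] at h2
  by_contra hn
  nlinarith [mul_nonneg (sub_nonneg.2 (not_lt.1 hn)) (sub_pos.2 h3).le]

theorem Env.cross (h : Env A N s z) {i j : ℕ} (hij : i < j) (hj : j < N) {x : ℝ}
    (hx : f (s i) x = f (s j) x) : z i < x ∧ x < z j := by
  have hi := hij.trans hj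
  have h1 := h.top i hi (s j) (h.mem j hj) (h.inj i j hij hj).symm
  have h2 := h.top j hj (s i) (h.mem i hi) (h.inj i j hij hj)
  have h3 := h.slope hij hj
  constructor
  · by_contra hn
    rw [f_sub (s i) x (z i), f_sub (s j) x (z i), hx] at h1
    nlinarith [mul_nonneg (sub_pos.2 h3).le (sub_nonneg.2 (not_lt.1 hn))]
  · by_contra hn
    rw [f_sub (s i) x (z j), f_sub (s j) x (z j), hx] at h2
    nlinarith [mul_nonneg (sub_pos.2 h3).le (sub_nonneg.2 (not_lt.1 hn))]

theorem Env.lower (h : Env A N s z) {i j l : ℕ} (hij : i < j) (hj : j < N) (hl : l < N) {x : ℝ}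
    (hx : f (s i) x = f (s j) x) (ho : l < i ∨ j < l) : f (s l) x < f (s i) x := by
  have hi := hij.trans hj
  obtain ⟨x1, x2⟩ := h.cross hij hj hx
  rcases ho with ho | ho
  · have h1 := h.top i hi (s l) (h.mem l hl) (h.inj l i ho hi)
    have h2 := h.slope ho hi
    rw [f_sub (s l) (z i) x, f_sub (s i) (z i) x]
    nlinarith [mul_pos (sub_pos.2 h2) (sub_pos.2 x1)]
  · have h1 := h.top j hj (s l) (h.mem l hl) (h.inj j l ho hl).symm
    have h2 := h.slope ho hl
    rw [hx, f_sub (s l) (z j) x, f_sub (s j) (z j) x]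
    nlinarith [mul_pos (sub_pos.2 h2) (sub_pos.2 x2)]

theorem Env.injOn (h : Env A N s z) {I : Finset ℕ} (hI : ∀ l ∈ I, l < N) : Set.InjOn s I := by
  intro a ha b hb e
  rcases lt_trichotomy a b with k | k | k
  · exact absurd e (h.inj a b k (hI b hb))
  · exact k
  · exact absurd e.symm (h.inj b a k (hI a ha))

/-- An affine function positive between two points is positive at one of them. -/
theorem ends {a b : P} {x1 x2 y : ℝ} (h1 : x1 ≤ y) (h2 : y ≤ x2) (h : f a y < f b y) :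
    f a x1 < f b x1 ∨ f a x2 < f b x2 := by
  rw [f_sub a y x1, f_sub b y x1, f_sub a y x2, f_sub b y x2]
  rcases le_total a.2 b.2 with k | k
  · right
    nlinarith [mul_nonneg (sub_nonneg.2 k) (sub_nonneg.2 h2)]
  · left
    nlinarith [mul_nonneg (sub_nonneg.2 k) (sub_nonneg.2 h1)]

/-- The wire `e` comes near the top in gap `i`. -/
def Spoil (A : Finset P) (z : ℕ → ℝ) (r : ℕ) (e : P) (i : ℕ) : Prop :=
  ∃ x, z i ≤ x ∧ x ≤ z (i + 1) ∧ rkP A x e ≤ r

theorem Env.spoil_le (h : Env A N s z) {r : ℕ} {e : P} (he : e ∈ A) (hes : ∀ l < N, e ≠ s l)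
    {i j : ℕ} (hj : j + 1 < N) (h1 : Spoil A z r e i) (h2 : Spoil A z r e j) :
    j ≤ i + 2 * r := by
  obtain ⟨x1, -, a2, a3⟩ := h1
  obtain ⟨x2, b1, -, b3⟩ := h2
  have hI : ∀ l ∈ Finset.Ioc i j, l < N := fun l hl => by
    have := Finset.mem_Ioc.1 hl
    omega
  have hsub : (Finset.Ioc i j).image s ⊆ A.filter (AbP x1 e) ∪ A.filter (AbP x2 e) := by
    intro c hc
    obtain ⟨l, hl, rfl⟩ := Finset.mem_image.1 hc
    have hlN := hI l hl
    obtain ⟨l1, l2⟩ := Finset.mem_Ioc.1 hl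
    have k1 : x1 ≤ z l := a2.trans (h.mono' l1 hlN)
    have k2 : z l ≤ x2 := (h.mono' l2 (by omega)).trans b1
    rcases ends k1 k2 (h.top l hlN e he (hes l hlN)) with k | k
    · exact Finset.mem_union_left _ (Finset.mem_filter.2 ⟨h.mem l hlN, Or.inl k⟩)
    · exact Finset.mem_union_right _ (Finset.mem_filter.2 ⟨h.mem l hlN, Or.inl k⟩)
  have hc := (Finset.card_le_card hsub).trans (Finset.card_union_le _ _)
  rw [Finset.card_image_of_injOn (h.injOn hI), Nat.card_Ioc] at hc
  unfold rkP at a3 b3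
  omega

theorem card_le_of_close (G : Finset ℕ) (d : ℕ) (h : ∀ i ∈ G, ∀ j ∈ G, j ≤ i + d) :
    G.card ≤ d + 1 := by
  rcases G.eq_empty_or_nonempty with rfl | hne
  · simp
  · have hsub : G ⊆ Finset.Icc (G.min' hne) (G.min' hne + d) := fun j hj =>
      Finset.mem_Icc.2 ⟨G.min'_le j hj, h _ (G.min'_mem hne) j hj⟩
    have hc := Finset.card_le_card hsub
    rw [Nat.card_Icc] at hc
    omega

theorem exists_gap (z : ℕ → ℝ) (x : ℝ) (m : ℕ) (h1 : z m ≤ x) :
    ∀ n, x ≤ z (m + n + 1) → ∃ i, m ≤ i ∧ i ≤ m + n ∧ z i ≤ x ∧ x ≤ z (i + 1) := by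
  intro n
  induction n with
  | zero => exact fun h2 => ⟨m, le_rfl, le_rfl, h1, h2⟩
  | succ n ih =>
    intro h2
    rcases le_total x (z (m + n + 1)) with k | k
    · obtain ⟨i, i1, i2, i3⟩ := ih k
      exact ⟨i, i1, by omega, i3⟩
    · exact ⟨m + n + 1, by omega, by omega, k, h2⟩

/-- A block of sixteen gaps that no wire of `B` spoils. -/
theorem Env.exists_block (h : Env A N s z) (r : ℕ) (B : Finset P) (hB : ∀ e ∈ B, e ∈ A)
    (hBs : ∀ e ∈ B, ∀ l < N, e ≠ s l) (hN : 16 * ((2 * r + 1) * B.card + 1) + 1 ≤ N) :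
    ∃ m, m + 16 < N ∧ ∀ e ∈ B, ∀ i, m ≤ i → i ≤ m + 15 → ¬ Spoil A z r e i := by
  have hG : (B.biUnion fun e => (Finset.range (N - 1)).filter (Spoil A z r e)).card ≤
      B.card * (2 * r + 1) := by
    refine Finset.card_biUnion_le_card_mul _ _ _ fun e he => card_le_of_close _ _ ?_
    intro i hi j hj
    obtain ⟨-, hi2⟩ := Finset.mem_filter.1 hi
    obtain ⟨hj1, hj2⟩ := Finset.mem_filter.1 hj
    have := Finset.mem_range.1 hj1
    exact h.spoil_le (hB e he) (hBs e he) (by omega) hi2 hj2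
  have hlt : ((B.biUnion fun e => (Finset.range (N - 1)).filter (Spoil A z r e)).image
      (fun i => i / 16)).card < (Finset.range ((2 * r + 1) * B.card + 1)).card := by
    rw [Finset.card_range, Nat.lt_succ_iff, mul_comm]
    exact Finset.card_image_le.trans hG
  obtain ⟨b, hb1, hb2⟩ := Finset.exists_mem_notMem_of_card_lt_card hlt
  have hb3 := Finset.mem_range.1 hb1
  refine ⟨16 * b, by omega, fun e he i i1 i2 hs => hb2 ?_⟩
  refine Finset.mem_image.2 ⟨i, Finset.mem_biUnion.2 ⟨e, he, Finset.mem_filter.2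
    ⟨Finset.mem_range.2 (by omega), hs⟩⟩, by omega⟩

/-- Below a vertex of a clean stretch lie all other wires. -/
theorem Env.clean (h : Env A N s z) {r : ℕ} (hr : 13 ≤ r) {i j : ℕ} (hij : i < j) (hj : j < N)
    (hd : j ≤ i + 12) {x : ℝ} (hx : f (s i) x = f (s j) x)
    (hc : ∀ e ∈ A, rkP A x e ≤ r → ∃ l < N, s l = e) {c : P} (hcA : c ∈ A)
    (hne : ∀ l, i ≤ l → l ≤ j → c ≠ s l) : f c x < f (s i) x := by
  by_cases hS : ∃ l < N, s l = c
  · obtain ⟨l, hl, rfl⟩ := hS
    refine h.lower hij hj hl hx ?_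
    by_contra hn
    exact hne l (by omega) (by omega) rfl
  · by_contra hn
    obtain ⟨e, he, hm⟩ := (A.filter fun e => (¬ ∃ l < N, s l = e) ∧
      f (s i) x ≤ f e x).exists_min_image (rkP A x) ⟨c, Finset.mem_filter.2 ⟨hcA, hS, not_lt.1 hn⟩⟩
    obtain ⟨heA, he1, he2⟩ := Finset.mem_filter.1 he
    have hsub : A.filter (AbP x e) ⊆ (Finset.Icc i j).image s := by
      intro b hb
      obtain ⟨hbA, hb1⟩ := Finset.mem_filter.1 hb
      have hb2 : f (s i) x ≤ f b x := he2.trans (AbP_le hb1)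
      by_cases hbS : ∃ l < N, s l = b
      · obtain ⟨l, hl, rfl⟩ := hbS
        refine Finset.mem_image.2 ⟨l, Finset.mem_Icc.2 ?_, rfl⟩
        by_contra hk
        exact absurd (h.lower hij hj hl hx (by omega)) (not_lt.2 hb2)
      · exact absurd (hm b (Finset.mem_filter.2 ⟨hbA, hbS, hb2⟩))
          (not_le.2 ((stoP x).rk_lt hbA hb1))
    have hcard := (Finset.card_le_card hsub).trans Finset.card_image_le
    rw [Nat.card_Icc] at hcard
    exact he1 (hc e heA (by unfold rkP; omega))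

theorem dot_one (a : P) (x : ℝ) : dot a (1, x) = f a x := by
  simp [dot, f]

end RunAux

open Lev RunAux in
theorem t_Run : S_Run := by
  intro A lo hi r hr hN
  have h0 : ∀ a, ∃ y, a ∈ WS A lo hi 0 →
      lo < y ∧ y < hi ∧ y ∉ Ev A ∧ ∀ c ∈ A, c ≠ a → f c y < f a y := fun a => by
    by_cases ha : a ∈ WS A lo hi 0
    · obtain ⟨y, hy⟩ := exists_top ha
      exact ⟨y, fun _ => hy⟩
    · exact ⟨0, fun k => absurd k ha⟩
  choose Z hZ using h0
  have hSA : ∀ a ∈ WS A lo hi 0, a ∈ A := fun a ha => (Finset.mem_filter.1 ha).1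
  have hinj : Set.InjOn Z (WS A lo hi 0) := by
    intro a ha b hb e
    by_contra hne
    have k1 := (hZ a ha).2.2.2 b (hSA b hb) (Ne.symm hne)
    have k2 := (hZ b hb).2.2.2 a (hSA a ha) hne
    rw [e] at k1
    exact lt_asymm k1 k2
  obtain ⟨s, s1, s2, s3⟩ := enum (WS A lo hi 0) Z hinj
  have hE : Env A (WS A lo hi 0).card s (fun i => Z (s i)) :=
    { mem := fun i hi => hSA _ (s1 i hi)
      inj := fun i j hij hj e => by
        have := s2 i j hij hj
        rw [e] at this
        exact lt_irrefl _ this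
      mono := s2
      top := fun i hi => (hZ _ (s1 i hi)).2.2.2 }
  have hsub : WS A lo hi 0 ⊆ WS A lo hi r := fun a ha => by
    obtain ⟨k1, x, k2, k3, k4⟩ := Finset.mem_filter.1 ha
    exact mem_WS_of_rkP k1 k2 k3 (k4.trans (Nat.zero_le _))
  obtain ⟨m, hm, hcl⟩ := hE.exists_block r (WS A lo hi r \ WS A lo hi 0)
    (fun e he => (Finset.mem_filter.1 (Finset.mem_sdiff.1 he).1).1)
    (fun e he l hl k => (Finset.mem_sdiff.1 he).2 (k ▸ s1 l hl))
    (by rw [Finset.card_sdiff_of_subset hsub]; exact hN)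
  have hlo : lo < Z (s m) := (hZ _ (s1 m (by omega))).1
  have hhi : Z (s (m + 16)) < hi := (hZ _ (s1 _ hm)).2.1
  have key : ∀ x, Z (s m) ≤ x → x ≤ Z (s (m + 16)) → ∀ e ∈ A, rkP A x e ≤ r →
      e ∈ WS A lo hi 0 := by
    intro x x1 x2 e he hk
    by_contra hn
    obtain ⟨i, i1, i2, i3, i4⟩ := exists_gap (fun i => Z (s i)) x m x1 15 x2
    exact hcl e (Finset.mem_sdiff.2 ⟨mem_WS_of_rkP he (hlo.le.trans x1) (x2.trans_lt hhi) hk, hn⟩)
      i i1 i2 ⟨x, i3, i4, hk⟩
  refine ⟨⟨fun i => s (m + i), fun i => Z (s (m + i)), ?_⟩, ?_⟩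
  · exact
      { mem := fun i hi => hE.mem _ (by omega)
        inj := fun i j hij hj => hE.inj _ _ (by omega) (by omega)
        lo_lt := hlo
        lt_hi := hhi
        mono := fun i j hij hj => hE.mono _ _ (by omega) (by omega)
        top := fun i hi => hE.top _ (by omega)
        clean := fun i j hij hj hd x hx c hc hne => by
          have hij' : m + i < m + j := by omega
          have hj' : m + j < (WS A lo hi 0).card := by omega
          obtain ⟨x1, x2⟩ := hE.cross hij' hj' hx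
          have x3 : Z (s m) ≤ x := (hE.mono' (Nat.le_add_right m i) (by omega)).trans x1.le
          have x4 : x ≤ Z (s (m + 16)) := x2.le.trans (hE.mono' (by omega) hm)
          refine hE.clean hr hij' hj' (by omega) hx (fun e he hk => s3 e (key x x3 x4 e he hk)) hc
            fun l l1 l2 => ?_
          have := hne (l - m) (by omega) (by omega)
          rwa [show m + (l - m) = l by omega] at this }
  · refine ⟨(1, Z (s m)), fun k => one_ne_zero (congrArg Prod.fst k), fun e he hk => ?_⟩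
    have hEv : Z (s m) ∉ Ev A := (hZ _ (s1 m (by omega))).2.2.1
    have hrk : rkP A (Z (s m)) e ≤ r := by
      refine le_trans (Finset.card_le_card fun b hb => ?_) hk
      obtain ⟨hbA, hb1⟩ := Finset.mem_filter.1 hb
      refine Finset.mem_filter.2 ⟨hbA, ?_⟩
      rw [dot_one, dot_one]
      refine hb1.elim id fun k => absurd (tie_mem_Ev he hbA (fun e' => ?_) k.1) hEv
      rw [e'] at k
      exact lt_irrefl _ k.2
    have heS := key _ le_rfl (hE.mono' (Nat.le_add_right m 16) hm) e he hrk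
    refine ⟨(1, Z e), fun k => one_ne_zero (congrArg Prod.fst k), fun b hb => ?_⟩
    rw [dot_one, dot_one]
    by_cases hbe : b = e
    · rw [hbe]
    · exact ((hZ e heS).2.2.2 b hb hbe).le

end Pool.Agent.SimpArr.BV
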