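import Pool.Agent.P.MP_0b4c38_co.BVIface

/-! The growth of the level counts. -/

set_option autoImplicit false

namespace Pool.Agent.SimpArr.BV

namespace SeqAux

variable {W : ℕ → ℕ} {m n : ℕ}

lemma sum_low (hW : Monotone W) (j : ℕ) :
    j * W 0 + 23 * j * W j ≤ ∑ k ∈ Finset.range (24 * j), W k := by
  rw [show 24 * j = j + 23 * j by ring, Finset.sum_range_add]
  refine Nat.add_le_add ?_ ?_
  · simpa using Finset.card_nsmul_le_sum (Finset.range j) W (W 0) fun k _ => hW (Nat.zero_le k)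
  · simpa using Finset.card_nsmul_le_sum (Finset.range (23 * j)) (fun k => W (j + k)) (W j)
      fun k _ => hW (Nat.le_add_right j k)

lemma step (hW : Monotone W) (hn : ∀ k, W k ≤ n) (hm : m ≤ 2 * W 0 + 1)
    (H : ∀ J, 24 * ∑ k ∈ Finset.range J, W k ≤ J * (J + 1) + J * m + (22 * J + 8) * W J)
    {j : ℕ} (hj : 1 ≤ j) {δ : ℝ} (h1 : δ ≤ (W j : ℝ) - m / 2) (h2 : 104 * (j : ℝ) ≤ δ)
    (h3 : 4 * (n : ℝ) ≤ 3 * j * δ) :
    45 / 44 * ((W j : ℝ) - m / 2) ≤ (W (24 * j) : ℝ) - m / 2 := by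
  have a1 : 24 * (j * W 0 + 23 * j * W j)
      ≤ 24 * j * (24 * j + 1) + 24 * j * m + (22 * (24 * j) + 8) * W (24 * j) :=
    (Nat.mul_le_mul_left 24 (sum_low hW j)).trans (H (24 * j))
  have a2 : (24 : ℝ) * (j * W 0 + 23 * j * W j)
      ≤ 24 * j * (24 * j + 1) + 24 * j * m + (22 * (24 * j) + 8) * W (24 * j) := by
    exact_mod_cast a1
  have a3 : (W (24 * j) : ℝ) ≤ n := by exact_mod_cast hn _
  have a4 : (m : ℝ) ≤ 2 * W 0 + 1 := by exact_mod_cast hm
  have a5 : (1 : ℝ) ≤ j := by exact_mod_cast hj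
  have a6 : (0 : ℝ) < j := by linarith
  apply le_of_mul_le_mul_left _ a6
  have b1 := mul_le_mul_of_nonneg_left a4 a6.le
  have b2 := mul_le_mul_of_nonneg_left h1 a6.le
  have b3 := mul_le_mul_of_nonneg_left h2 a6.le
  have b4 := mul_le_mul_of_nonneg_left a5 a6.le
  nlinarith

lemma core (hW : Monotone W) (hn : ∀ k, W k ≤ n) (hm : m ≤ 2 * W 0 + 1)
    (H : ∀ J, 24 * ∑ k ∈ Finset.range J, W k ≤ J * (J + 1) + J * m + (22 * J + 8) * W J)
    {r : ℕ} {ρ δ : ℝ} (e : ρ * δ = n) (h1 : 1 ≤ ρ) (hr : (r : ℝ) ≤ ρ)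
    (h2 : δ ≤ (W r : ℝ) - m / 2) (h3 : 312 * ρ ^ 151 ≤ δ) : False := by
  have hρ : 0 < ρ := by linarith
  have hδ : 0 < δ := lt_of_lt_of_le (by positivity) h3
  obtain ⟨t, t1, t2⟩ := exists_nat_pow_near h1 (show (1 : ℝ) < 45 / 44 by norm_num)
  obtain ⟨j, j1, j2⟩ : ∃ j : ℕ, 2 * ρ ≤ j ∧ (j : ℝ) ≤ 3 * ρ :=
    ⟨⌈2 * ρ⌉₊, Nat.le_ceil _, by
      have := Nat.ceil_lt_add_one (show 0 ≤ 2 * ρ by linarith)
      linarith⟩
  have hrj : r ≤ j := by exact_mod_cast (show (r : ℝ) ≤ j by linarith)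
  have hj : 1 ≤ j := by exact_mod_cast (show (1 : ℝ) ≤ j by linarith)
  have p1 : (24 : ℝ) ^ t ≤ ρ ^ 150 := by
    calc (24 : ℝ) ^ t ≤ ((45 / 44) ^ 150) ^ t := pow_le_pow_left₀ (by norm_num) (by norm_num) t
      _ = ((45 / 44) ^ t) ^ 150 := by rw [← pow_mul, ← pow_mul, mul_comm]
      _ ≤ ρ ^ 150 := pow_le_pow_left₀ (by positivity) t1 150
  have key : ∀ i, i ≤ t + 1 → (45 / 44) ^ i * δ ≤ (W (24 ^ i * j) : ℝ) - m / 2 := by
    intro i
    induction i with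
    | zero =>
      intro _
      have : (W r : ℝ) ≤ W j := by exact_mod_cast hW hrj
      simp only [pow_zero, one_mul]
      linarith
    | succ i ih =>
      intro hi
      have q1 := ih (by omega)
      have q2 : (1 : ℝ) ≤ (45 / 44) ^ i := one_le_pow₀ (by norm_num)
      have q3 : (1 : ℝ) ≤ 24 ^ i := one_le_pow₀ (by norm_num)
      have q4 : (24 : ℝ) ^ i ≤ ρ ^ 150 := (pow_le_pow_right₀ (by norm_num) (by omega)).trans p1
      have q5 := step hW hn hm H (j := 24 ^ i * j) (δ := δ)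
        (Nat.mul_pos (pow_pos (by norm_num) i) hj) (by nlinarith) (by
          push_cast
          have : (24 : ℝ) ^ i * j ≤ ρ ^ 150 * (3 * ρ) :=
            mul_le_mul q4 j2 (by positivity) (by positivity)
          rw [pow_succ] at h3
          linarith) (by
          push_cast
          have : 2 * ρ ≤ (24 : ℝ) ^ i * j := by nlinarith
          nlinarith)
      rw [pow_succ' 24 i, mul_assoc, pow_succ']
      linarith
  have f1 := key (t + 1) le_rfl
  have f2 : (W (24 ^ (t + 1) * j) : ℝ) ≤ n := by exact_mod_cast hn _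
  have f3 : (0 : ℝ) ≤ m := Nat.cast_nonneg m
  have f4 := mul_lt_mul_of_pos_right t2 hδ
  linarith

lemma main (B : ℕ) (hB : 22000000 ≤ B) (hW : Monotone W) (hn : ∀ k, W k ≤ n)
    (hm : m ≤ 2 * W 0 + 1) (hmn : m ≤ n) (h0 : 0 < n) {r : ℕ} (hr : 1 ≤ r)
    (hrm : r * m ≤ 110000 * n)
    (H : ∀ J, 24 * ∑ k ∈ Finset.range J, W k ≤ J * (J + 1) + J * m + (22 * J + 8) * W J)
    (hC : 1000 * B ^ 152 * n ^ 304 ≤ m ^ (304 + 1)) :
    16 * ((2 * r + 1) * (W r - W 0) + 1) + 1 ≤ W 0 := by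
  by_contra hc
  have hm0 : 0 < m := by
    rcases Nat.eq_zero_or_pos m with rfl | h
    · have : 0 < 1000 * B ^ 152 * n ^ 304 := by
        have : 0 < B := by omega
        positivity
      rw [zero_pow (by norm_num)] at hC
      omega
    · exact h
  obtain ⟨d, hd⟩ := Nat.exists_eq_add_of_le (hW (Nat.zero_le r))
  rw [hd, Nat.add_sub_cancel_left] at hc
  have c1 : W 0 ≤ 48 * r * d + 16 := by nlinarith [Nat.zero_le d]
  have c2 : (m : ℝ) ≤ 96 * r * d + 33 := by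
    exact_mod_cast (show m ≤ 96 * r * d + 33 by nlinarith)
  have M0 : (0 : ℝ) < m := by exact_mod_cast hm0
  have R1 : (1 : ℝ) ≤ r := by exact_mod_cast hr
  have R0 : (0 : ℝ) < r := by linarith
  obtain ⟨l, hl⟩ : ∃ l : ℝ, (n : ℝ) = l * m := ⟨n / m, by field_simp⟩
  have l1 : 1 ≤ l := by
    have : (m : ℝ) ≤ n := by exact_mod_cast hmn
    rw [hl] at this
    exact le_of_mul_le_mul_right (by linarith) M0
  have l2 : (r : ℝ) ≤ 110000 * l := by
    have : (r : ℝ) * m ≤ 110000 * n := by exact_mod_cast hrm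
    rw [hl] at this
    exact le_of_mul_le_mul_right (by linarith) M0
  have l3 : 1000 * ((B : ℝ) * l ^ 2) ^ 152 ≤ m := by
    have : 1000 * (B : ℝ) ^ 152 * n ^ 304 ≤ m ^ (304 + 1) := by exact_mod_cast hC
    rw [hl, mul_pow, pow_succ' (m : ℝ) 304] at this
    refine le_of_mul_le_mul_right ?_ (pow_pos M0 304)
    rw [mul_pow, ← pow_mul, show 2 * 152 = 304 from rfl]
    generalize l ^ 304 = u, (m : ℝ) ^ 304 = v, (B : ℝ) ^ 152 = w at this ⊢
    linarith
  have B1 : (22000000 : ℝ) ≤ B := by exact_mod_cast hB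
  have r1 : 200 * r * l ≤ B * l ^ 2 := by nlinarith
  have r2 : 200 * (r : ℝ) ≤ 200 * r * l := by nlinarith
  have r3 : 1000 * (200 * r * l) ^ 152 ≤ m :=
    le_trans (mul_le_mul_of_nonneg_left (pow_le_pow_left₀ (by positivity) r1 152) (by norm_num)) l3
  have r4 : 1 ≤ 200 * r * l := by linarith
  have r5 : (1 : ℝ) ≤ (200 * r * l) ^ 151 := one_le_pow₀ r4
  rw [pow_succ] at r3
  generalize hx : (200 * r * l) ^ 151 = x at r3 r5
  have r6 : 200000 * (r : ℝ) ≤ m := by nlinarith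
  refine core hW hn hm H (r := r) (ρ := 200 * r * l) (δ := m / (200 * r)) ?_ r4 (by linarith) ?_ ?_
  · rw [hl]; field_simp
  · have a4 : (m : ℝ) ≤ 2 * W 0 + 1 := by exact_mod_cast hm
    rw [hd, div_le_iff₀ (by positivity)]
    push_cast
    nlinarith
  · rw [hx, le_div_iff₀ (by positivity)]
    nlinarith

end SeqAux

theorem t_Seq : S_Seq :=
  ⟨304, 1000 * 22000000 ^ 152, Nat.le_mul_of_pos_right _ (pow_pos (by norm_num) _),
    fun _ _ _ _ hW hn hm hmn h0 hr hrm H hC =>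
      SeqAux.main 22000000 le_rfl hW hn hm hmn h0 hr hrm H hC⟩

end Pool.Agent.SimpArr.BV
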