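import Pool.Agent.P.MP_0b4c38_co.BVStep

/-! At least half as many top wires as verticals. -/

set_option autoImplicit false

open Classical Real

namespace Pool.Agent.SimpArr.BV

namespace TopAux

theorem notie {a c : P} {x w t : ℝ} (h1 : x < t) (h2 : t < w) (hx : f c x ≤ f a x)
    (hw : f c w ≤ f a w) (hne : c ≠ a) : f c t < f a t := by
  by_contra hn
  have hn' := not_lt.1 hn
  unfold f at hx hw hn'
  have e1 : c.2 ≤ a.2 := by
    by_contra h
    nlinarith [mul_pos (sub_pos.2 (not_le.1 h)) (sub_pos.2 h2)]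
  have e2 : a.2 ≤ c.2 := by
    by_contra h
    nlinarith [mul_pos (sub_pos.2 (not_le.1 h)) (sub_pos.2 h1)]
  have e3 : c.2 = a.2 := le_antisymm e1 e2
  rw [e3] at hx hn'
  exact hne (Prod.ext (by linarith) e3)

theorem three {A : Finset P} {X : Finset ℝ} {lo hi : ℝ} (hC : Chart A X lo hi) (hA : 2 ≤ A.card)
    {a : P} (ha : a ∈ A) {x y z w : ℝ} (hy : y ∈ X) (hz : z ∈ X) (h1 : x < y) (h2 : y < z)
    (h3 : z < w) (hx : ∀ c ∈ A, f c x ≤ f a x) (hw : ∀ c ∈ A, f c w ≤ f a w) : False := by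
  have hne : (A.erase a).Nonempty := by
    rw [← Finset.card_pos, Finset.card_erase_of_mem ha]
    omega
  obtain ⟨b, hb, hb1, hb2⟩ := Step.exists_lexmax _ hne (fun c => f c y) (fun c => c.2)
  obtain ⟨hba, hbA⟩ := Finset.mem_erase.1 hb
  have hlt : ∀ c ∈ A, c ≠ a → f c y < f a y := fun c hc h =>
    notie h1 (h2.trans h3) (hx c hc) (hw c hc) h
  obtain ⟨t, ht1, ht2, ht3, -⟩ := hC.edgeR y hy (h2.trans_le (hC.bd z hz).2) a ha b hbA
    (hlt b hbA hba)
    (fun c hc => by
      by_cases h : c = a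
      · exact Or.inl (h ▸ le_rfl)
      · exact Or.inr (hb1 c (Finset.mem_erase.2 ⟨h, hc⟩)))
    (fun c hc h => by
      by_cases h' : c = a
      · exact h' ▸ le_rfl
      · exact absurd h (hlt c hc h').ne)
    (fun c hc h => by
      by_cases h' : c = a
      · rw [h'] at h
        exact absurd h (hlt b hbA hba).ne'
      · exact hb2 c (Finset.mem_erase.2 ⟨h', hc⟩) h)
  exact absurd ht3 (notie (h1.trans ht1) ((ht2 z hz h2).trans_lt h3) (hx b hbA) (hw b hbA) hba).ne'

end TopAux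

open TopAux

theorem t_Top : S_Top := by
  intro A X lo hi hC hA
  have H : ∀ x ∈ X.erase hi, ∃ a ∈ A, (∀ c ∈ A, f c x ≤ f a x) ∧
      ∃ w, x < w ∧ ∀ c ∈ A, f c w ≤ f a w := by
    intro x hx
    obtain ⟨hxh, hxX⟩ := Finset.mem_erase.1 hx
    obtain ⟨w, hw, hmin⟩ := (X.filter (fun y => x < y)).exists_min_image id
      ⟨hi, Finset.mem_filter.2 ⟨hC.hi_mem, lt_of_le_of_ne (hC.bd x hxX).2 hxh⟩⟩
    obtain ⟨hwX, hxw⟩ := Finset.mem_filter.1 hw
    obtain ⟨a, ha, h⟩ := hC.star x hxX w hwX hxw fun y hy => by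
      by_cases h : x < y
      · exact Or.inr (hmin y (Finset.mem_filter.2 ⟨hy, h⟩))
      · exact Or.inl (not_lt.1 h)
    exact ⟨a, ha, fun c hc => (h c hc).1, w, hxw, fun c hc => (h c hc).2⟩
  choose! t htA ht1 w hw ht2 using H
  have h1 : (X.erase hi).card ≤ 2 * (WS A lo hi 0).card := by
    refine Finset.card_le_mul_card_image_of_maps_to (f := t) (fun x hx => ?_) 2 fun a _ => ?_
    · obtain ⟨hxh, hxX⟩ := Finset.mem_erase.1 hx
      refine Finset.mem_filter.2 ⟨htA x hx, x, (hC.bd x hxX).1,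
        lt_of_le_of_ne (hC.bd x hxX).2 hxh, ?_⟩
      rw [rkP, Nat.le_zero, Finset.card_eq_zero, Finset.filter_eq_empty_iff]
      rintro b hb (h | ⟨h, h'⟩)
      · exact absurd h (not_lt.2 (ht1 x hx b hb))
      · have := ht2 x hx b hb
        unfold f at h this
        nlinarith [mul_pos (sub_pos.2 h') (sub_pos.2 (hw x hx))]
    · by_contra hn
      have key : ∀ x y z, x ∈ (X.erase hi).filter (fun x => t x = a) →
          y ∈ (X.erase hi).filter (fun x => t x = a) →
          z ∈ (X.erase hi).filter (fun x => t x = a) → x < y → y < z → False := by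
        intro x y z hx hy hz hxy hyz
        obtain ⟨hx1, hx2⟩ := Finset.mem_filter.1 hx
        obtain ⟨hy1, -⟩ := Finset.mem_filter.1 hy
        obtain ⟨hz1, hz2⟩ := Finset.mem_filter.1 hz
        exact three hC hA (hx2 ▸ htA x hx1) (Finset.mem_of_mem_erase hy1)
          (Finset.mem_of_mem_erase hz1) hxy hyz (hw z hz1) (hx2 ▸ ht1 x hx1) (hz2 ▸ ht2 z hz1)
      obtain ⟨x, y, z, hx, hy, hz, hxy, hxz, hyz⟩ := Finset.two_lt_card_iff.1 (not_le.1 hn)
      rcases lt_or_gt_of_ne hxy with h1 | h1 <;> rcases lt_or_gt_of_ne hxz with h2 | h2 <;>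
        rcases lt_or_gt_of_ne hyz with h3 | h3
      · exact key x y z hx hy hz h1 h3
      · exact key x z y hx hz hy h2 h3
      · exact key x y z hx hy hz h1 h3
      · exact key z x y hz hx hy h2 h1
      · exact key y x z hy hx hz h1 h2
      · exact key z y x hz hy hx h3 h1
      · exact key y z x hy hz hx h3 h2
      · exact key z y x hz hy hx h3 h1
  have h2 := Finset.card_erase_of_mem hC.hi_mem
  omega

end Pool.Agent.SimpArr.BV
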