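import Pool.Agent.P.MP_0b4c38_co.BVGlue
import Pool.Agent.P.MP_0b4c38_co.BVBr
import Pool.Agent.P.MP_0b4c38_co.BVCh
import Pool.Agent.P.MP_0b4c38_co.BVChart
import Pool.Agent.P.MP_0b4c38_co.BVClose
import Pool.Agent.P.MP_0b4c38_co.BVDepth
import Pool.Agent.P.MP_0b4c38_co.BVFin
import Pool.Agent.P.MP_0b4c38_co.BVLA1
import Pool.Agent.P.MP_0b4c38_co.BVLA2
import Pool.Agent.P.MP_0b4c38_co.BVLA3
import Pool.Agent.P.MP_0b4c38_co.BVLA4
import Pool.Agent.P.MP_0b4c38_co.BVLat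
import Pool.Agent.P.MP_0b4c38_co.BVMetric
import Pool.Agent.P.MP_0b4c38_co.BVNextT
import Pool.Agent.P.MP_0b4c38_co.BVProp
import Pool.Agent.P.MP_0b4c38_co.BVRec
import Pool.Agent.P.MP_0b4c38_co.BVRun
import Pool.Agent.P.MP_0b4c38_co.BVSeq
import Pool.Agent.P.MP_0b4c38_co.BVTop

/-! All parts supplied. -/

set_option autoImplicit false

open Classical

namespace Pool.Agent.SimpArr.BV

theorem bigVertex_all :
    ∃ K C : ℕ, ∀ A : Finset (Submodule ℝ (Fin 3 → ℝ)), IsArrangement A → IsSimplicial A →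
      IsIrreducible A → ∀ (v : Fin 3 → ℝ) (T : Finset (Submodule ℝ (Fin 3 → ℝ))), v ≠ 0 → T ⊆ A →
      (∀ H ∈ T, v ∈ H) → C * A.card ^ K ≤ T.card ^ (K + 1) → LinReg A := by
  obtain ⟨K, C, h⟩ := bigVertex t_Bridge t_Chart t_LA1 t_LA2 t_LA3 t_LA4 t_Seq t_Top t_Run t_Rec
    t_Lat (t_Prop t_Step (t_NextT t_Next t_NoStack))
    (t_Fin t_Close t_Map (t_Depth t_Step t_Metric))
  refine ⟨K, C, fun A hA hs hi v T hv hT hTv hK => h A hA hs hi v hv (hK.trans ?_)⟩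
  exact Nat.pow_le_pow_left (Finset.card_le_card fun H hH =>
    Finset.mem_filter.2 ⟨hT hH, hTv H hH⟩) _

end Pool.Agent.SimpArr.BV
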