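import Mathlib

/-! A slab between two neighbouring planes through the hub: all cells are triangles. -/

set_option autoImplicit false

namespace Pool.Agent.SimpArr.BV.Br

variable {κ : Type} {P : Finset κ} {α β : κ → ℝ}

/-- the half spaces which contain the point `(a, b, z)`: two walls and one for each wire -/
def Con (α β : κ → ℝ) (a b z a' b' z' : ℝ) : Bool ⊕ κ → Prop
  | Sum.inl true => 0 ≤ a'
  | Sum.inl false => 0 ≤ b'
  | Sum.inr p => 0 ≤ (z - (a * α p + b * β p)) * (z' - (a' * α p + b' * β p))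

/-- every cell of the wires `z = a * α p + b * β p` over the quadrant is cut out by three half
spaces -/
def Tri (P : Finset κ) (α β : κ → ℝ) : Prop :=
  ∀ a b z : ℝ, 0 < a → 0 < b → (∀ p ∈ P, a * α p + b * β p ≠ z) →
    ∃ φ : Fin 3 → Bool ⊕ κ, (∀ k p, φ k = Sum.inr p → p ∈ P) ∧
      ∀ a' b' z' : ℝ, (∀ k, Con α β a b z a' b' z' (φ k)) →
        0 ≤ a' ∧ 0 ≤ b' ∧ ∀ p ∈ P, Con α β a b z a' b' z' (Sum.inr p)

theorem three {T : Type} {φ : Fin 3 → T} {x y w : T} (hx : ∃ k, φ k = x) (hy : ∃ k, φ k = y)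
    (hw : ∃ k, φ k = w) (h1 : x ≠ y) (h2 : x ≠ w) (h3 : y ≠ w) (k : Fin 3) :
    φ k = x ∨ φ k = y ∨ φ k = w := by
  obtain ⟨i, rfl⟩ := hx
  obtain ⟨j, rfl⟩ := hy
  obtain ⟨l, rfl⟩ := hw
  have e1 : i ≠ j := fun h => h1 (by rw [h])
  have e2 : i ≠ l := fun h => h2 (by rw [h])
  have e3 : j ≠ l := fun h => h3 (by rw [h])
  have : k = i ∨ k = j ∨ k = l := by omega
  rcases this with rfl | rfl | rfl <;> simp

theorem Tri.swap (h : Tri P α β) : Tri P β α := by
  intro a b z ha hb hz
  obtain ⟨φ, h1, h2⟩ := h b a z hb ha fun p hp => by rw [add_comm]; exact hz p hp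
  refine ⟨fun k => Sum.map not id (φ k), fun k p hk => h1 k p ?_, fun a' b' z' hc => ?_⟩
  · rcases hφ : φ k with x | x <;> simp_all
  · obtain ⟨e1, e2, e3⟩ := h2 b' a' z' fun k => by
      have : Con β α a b z a' b' z' (Sum.map not id (φ k)) := hc k
      rcases hφ : φ k with (_ | _) | x <;> rw [hφ] at this
      · exact this
      · exact this
      · simp only [Con, Sum.map_inr, id] at this ⊢
        linarith
    refine ⟨e2, e1, fun p hp => ?_⟩
    have := e3 p hp
    simp only [Con] at this ⊢
    linarith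

theorem Tri.neg (h : Tri P α β) : Tri P (fun p => -α p) fun p => -β p := by
  intro a b z ha hb hz
  obtain ⟨φ, h1, h2⟩ := h a b (-z) ha hb fun p hp e => hz p hp (by linarith)
  have key : ∀ a' b' z' p, Con (fun p => -α p) (fun p => -β p) a b z a' b' z' (Sum.inr p) ↔
      Con α β a b (-z) a' b' (-z') (Sum.inr p) := fun a' b' z' p => by
    simp only [Con]
    constructor <;> intro e <;> linarith
  refine ⟨φ, h1, fun a' b' z' hc => ?_⟩
  obtain ⟨e1, e2, e3⟩ := h2 a' b' (-z') fun k => by
    have := hc k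
    rcases hφ : φ k with (_ | _) | x
    · rw [hφ] at this
      exact this
    · rw [hφ] at this
      exact this
    · rw [hφ] at this
      exact (key _ _ _ _).1 this
  exact ⟨e1, e2, fun p hp => (key _ _ _ _).2 (e3 p hp)⟩

theorem pos_of {x y : ℝ} (h : 0 < x * y) (hx : 0 ≤ x) : 0 < y := by
  by_contra hn
  nlinarith [mul_nonneg hx (neg_nonneg.2 (not_lt.1 hn))]

theorem nn_of {x y : ℝ} (h : 0 ≤ x * y) (hx : 0 < x) : 0 ≤ y := nonneg_of_mul_nonneg_right h hx

theorem np_of {x y : ℝ} (h : 0 ≤ x * y) (hx : x < 0) : y ≤ 0 := by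
  by_contra hn
  nlinarith [mul_pos (neg_pos.2 hx) (not_le.1 hn)]

/-- small perturbations keep finitely many strict inequalities -/
theorem small (P : Finset κ) (c d : κ → ℝ) :
    ∃ ε : ℝ, 0 < ε ∧ ∀ δ : ℝ, |δ| ≤ ε → ∀ p ∈ P, c p ≠ 0 → 0 < c p * (c p + δ * d p) := by
  have : ∀ᶠ δ : ℝ in nhds 0, ∀ p ∈ P, c p ≠ 0 → 0 < c p * (c p + δ * d p) := by
    refine (Filter.eventually_all_finset P).2 fun p _ => ?_
    by_cases hc : c p = 0
    · exact Filter.Eventually.of_forall fun _ h => (h hc).elim
    · have h1 : Continuous fun δ : ℝ => c p * (c p + δ * d p) := by fun_prop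
      have h2 : (0 : ℝ) < c p * (c p + 0 * d p) := by
        rw [zero_mul, add_zero]
        exact mul_self_pos.2 hc
      exact (h1.continuousAt.eventually (lt_mem_nhds h2)).mono fun _ h _ => h
  obtain ⟨ε, hε, h⟩ := Metric.eventually_nhds_iff.1 this
  exact ⟨ε / 2, by positivity, fun δ hδ => h (by rw [Real.dist_eq, sub_zero]; linarith)⟩

section cell

variable {a b z : ℝ} {φ : Fin 3 → Bool ⊕ κ}

theorem has_up (h2 : ∀ a' b' z' : ℝ, (∀ k, Con α β a b z a' b' z' (φ k)) →
      0 ≤ a' ∧ 0 ≤ b' ∧ ∀ p ∈ P, Con α β a b z a' b' z' (Sum.inr p))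
    {r : κ} (hr : r ∈ P) (hz : z < a * α r + b * β r) :
    ∃ p, (∃ k, φ k = Sum.inr p) ∧ z < a * α p + b * β p := by
  by_contra hn
  push Not at hn
  have := (h2 0 0 1 fun k => by
    rcases hφ : φ k with (_ | _) | x
    · exact le_rfl
    · exact le_rfl
    · have := hn x ⟨k, hφ⟩
      simp only [Con]
      nlinarith).2.2 r hr
  simp only [Con] at this
  nlinarith

theorem has_down (h2 : ∀ a' b' z' : ℝ, (∀ k, Con α β a b z a' b' z' (φ k)) →
      0 ≤ a' ∧ 0 ≤ b' ∧ ∀ p ∈ P, Con α β a b z a' b' z' (Sum.inr p))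
    {r : κ} (hr : r ∈ P) (hz : a * α r + b * β r < z) :
    ∃ p, (∃ k, φ k = Sum.inr p) ∧ a * α p + b * β p < z := by
  by_contra hn
  push Not at hn
  have := (h2 0 0 (-1) fun k => by
    rcases hφ : φ k with (_ | _) | x
    · exact le_rfl
    · exact le_rfl
    · have := hn x ⟨k, hφ⟩
      simp only [Con]
      nlinarith).2.2 r hr
  simp only [Con] at this
  nlinarith

end cell

/-- one wire is on top over the whole closed slab -/
theorem Tri.star (h : Tri P α β) (hP : P.Nonempty) :
    ∃ q ∈ P, ∀ p ∈ P, α p ≤ α q ∧ β p ≤ β q := by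
  obtain ⟨z, hz⟩ : ∃ z : ℝ, ∀ p ∈ P, |α p| + |β p| < z := by
    obtain ⟨M, hM⟩ := (P.finite_toSet.image fun p => |α p| + |β p|).bddAbove
    exact ⟨M + 1, fun p hp => lt_of_le_of_lt (hM ⟨p, hp, rfl⟩) (by linarith)⟩
  have hz' : ∀ p ∈ P, 1 * α p + 1 * β p < z := fun p hp => by
    linarith [hz p hp, le_abs_self (α p), le_abs_self (β p)]
  obtain ⟨φ, h1, h2⟩ := h 1 1 z one_pos one_pos fun p hp => (hz' p hp).ne
  obtain ⟨r, hr⟩ := hP
  obtain ⟨q, hq, -⟩ := has_down h2 hr (hz' r hr)
  have hqP : q ∈ P := by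
    obtain ⟨k, hk⟩ := hq
    exact h1 k q hk
  have hL : ∃ k, φ k = Sum.inl true := by
    by_contra hn
    have := (h2 (-1) 0 z fun k => by
      rcases hφ : φ k with (_ | _) | x
      · exact le_rfl
      · exact (hn ⟨k, hφ⟩).elim
      · have hx := h1 k x hφ
        refine mul_nonneg (by linarith [hz' x hx]) ?_
        linarith [hz x hx, neg_abs_le (α x), abs_nonneg (β x)]).1
    linarith
  have hR : ∃ k, φ k = Sum.inl false := by
    by_contra hn
    have := (h2 0 (-1) z fun k => by
      rcases hφ : φ k with (_ | _) | x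
      · exact (hn ⟨k, hφ⟩).elim
      · exact le_rfl
      · have hx := h1 k x hφ
        refine mul_nonneg (by linarith [hz' x hx]) ?_
        linarith [hz x hx, neg_abs_le (β x), abs_nonneg (α x)]).2.1
    linarith
  have h3 := three hL hR hq (by simp) (by simp) (by simp)
  refine ⟨q, hqP, fun p hp => ⟨?_, ?_⟩⟩
  · have := (h2 1 0 (α q) fun k => by
      rcases h3 k with e | e | e <;> rw [e] <;> simp [Con]).2.2 p hp
    simp only [Con] at this
    nlinarith [hz' p hp]
  · have := (h2 0 1 (β q) fun k => by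
      rcases h3 k with e | e | e <;> rw [e] <;> simp [Con]).2.2 p hp
    simp only [Con] at this
    nlinarith [hz' p hp]

/-- the cell at an edge of the wall `b = 0` is closed by two wires inside the slab; they meet over
the point `(β q - β p, α p - α q)` -/
theorem Tri.edge (h : Tri P α β) {z : ℝ} (hz : ∀ p ∈ P, α p ≠ z) {r s : κ} (hr : r ∈ P)
    (hs : s ∈ P) (hr' : z < α r) (hs' : α s < z) :
    ∃ p ∈ P, ∃ q ∈ P, z < α p ∧ α q < z ∧ β p ≤ β q ∧
      (∀ x ∈ P, z < α x → α p ≤ α x ∧ (β q - β p) * α p + (α p - α q) * β p ≤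
        (β q - β p) * α x + (α p - α q) * β x) ∧
      ∀ x ∈ P, α x < z → α x ≤ α q ∧ (β q - β p) * α x + (α p - α q) * β x ≤
        (β q - β p) * α q + (α p - α q) * β q := by
  obtain ⟨ε, hε, hsm⟩ := small P (fun p => z - α p) fun p => -β p
  have hs1 : ∀ p ∈ P, 0 < (z - α p) * (z - (1 * α p + ε * β p)) := fun p hp => by
    have := hsm ε (abs_of_pos hε).le p hp (sub_ne_zero.2 (hz p hp).symm)
    linarith
  have hs2 : ∀ p ∈ P, 0 < (z - α p) * (z - (1 * α p + -ε * β p)) := fun p hp => by
    have := hsm (-ε) (by rw [abs_neg, abs_of_pos hε]) p hp (sub_ne_zero.2 (hz p hp).symm)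
    linarith
  have up : ∀ p ∈ P, z < α p ↔ z < 1 * α p + ε * β p := fun p hp =>
    ⟨fun e => by nlinarith [hs1 p hp], fun e => by nlinarith [hs1 p hp]⟩
  have dn : ∀ p ∈ P, α p < z ↔ 1 * α p + ε * β p < z := fun p hp =>
    ⟨fun e => by nlinarith [hs1 p hp], fun e => by nlinarith [hs1 p hp]⟩
  obtain ⟨φ, h1, h2⟩ := h 1 ε z one_pos hε fun p hp e => by
    have := hs1 p hp
    rw [e, sub_self, mul_zero] at this
    exact lt_irrefl _ this
  obtain ⟨p, hp, hp'⟩ := has_up h2 hr ((up r hr).1 hr')
  obtain ⟨q, hq, hq'⟩ := has_down h2 hs ((dn s hs).1 hs')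
  have hpP : p ∈ P := by
    obtain ⟨k, hk⟩ := hp
    exact h1 k p hk
  have hqP : q ∈ P := by
    obtain ⟨k, hk⟩ := hq
    exact h1 k q hk
  have hR : ∃ k, φ k = Sum.inl false := by
    by_contra hn
    have := (h2 1 (-ε) z fun k => by
      rcases hφ : φ k with (_ | _) | x
      · exact (hn ⟨k, hφ⟩).elim
      · exact zero_le_one
      · have hx := h1 k x hφ
        have e1 := hs1 x hx
        have e2 := hs2 x hx
        have e3 : 0 < (z - α x) * (z - α x) := mul_self_pos.2 (sub_ne_zero.2 (hz x hx).symm)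
        have e4 := mul_pos e1 e2
        simp only [Con]
        by_contra e5
        nlinarith).2.1
    linarith
  have h3 := three hR hp hq (by simp) (by simp) fun e => by
    rw [Sum.inr.injEq] at e
    rw [e] at hp'
    linarith
  have zp := (up p hpP).2 hp'
  have zq := (dn q hqP).2 hq'
  have k1 := h2 (β q - β p) (α p - α q) ((β q - β p) * α p + (α p - α q) * β p) fun k => by
    rcases h3 k with e | e | e <;> rw [e] <;> simp only [Con]
    · linarith
    · rw [sub_self, mul_zero]
    · exact le_of_eq (by ring)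
  have k2 := h2 1 0 (α p) fun k => by
    rcases h3 k with e | e | e <;> rw [e] <;> simp only [Con]
    · exact le_rfl
    · exact le_of_eq (by ring)
    · exact mul_nonneg (by linarith) (by linarith)
  have k3 := h2 1 0 (α q) fun k => by
    rcases h3 k with e | e | e <;> rw [e] <;> simp only [Con]
    · exact le_rfl
    · exact mul_nonneg_of_nonpos_of_nonpos (by linarith) (by linarith)
    · exact le_of_eq (by ring)
  refine ⟨p, hpP, q, hqP, zp, zq, by linarith [k1.1], fun x hx e => ⟨?_, ?_⟩, fun x hx e => ⟨?_, ?_⟩⟩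
  · have := k2.2.2 x hx
    simp only [Con] at this
    nlinarith [(up x hx).1 e]
  · have := k1.2.2 x hx
    simp only [Con] at this
    nlinarith [(up x hx).1 e]
  · have := k3.2.2 x hx
    simp only [Con] at this
    nlinarith [(dn x hx).1 e]
  · have := k1.2.2 x hx
    simp only [Con] at this
    nlinarith [(dn x hx).1 e]

/-- the cell above a crossing point inside the slab is closed by a third wire inside the slab -/
theorem Tri.bottom (h : Tri P α β) {a b z : ℝ} (ha : 0 < a) (hb : 0 < b) {r s c₀ : κ} (hr : r ∈ P)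
    (hs : s ∈ P) (hc₀ : c₀ ∈ P) (hrz : a * α r + b * β r = z) (hsz : a * α s + b * β s = z)
    (hrs : β r < β s) (hcz : z < a * α c₀ + b * β c₀) :
    ∃ c ∈ P, ∃ p ∈ P, ∃ q ∈ P, z < a * α c + b * β c ∧ a * α p + b * β p = z ∧
      a * α q + b * β q = z ∧ β p < β q ∧ α c ≤ α p ∧ β p < β c ∧ β c ≤ β q ∧ α q < α c ∧
      ∀ x ∈ P, (z < a * α x + b * β x →
        (β c - β p) * α c + (α p - α c) * β c ≤ (β c - β p) * α x + (α p - α c) * β x ∧
        (β q - β c) * α c + (α c - α q) * β c ≤ (β q - β c) * α x + (α c - α q) * β x) ∧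
      (a * α x + b * β x ≤ z →
        (β c - β p) * α x + (α p - α c) * β x ≤ (β c - β p) * α c + (α p - α c) * β c ∧
        (β q - β c) * α x + (α c - α q) * β x ≤ (β q - β c) * α c + (α c - α q) * β c) := by
  obtain ⟨ε, hε, hsm⟩ := small P (fun p => z - (a * α p + b * β p)) fun _ => 1
  have up : ∀ p ∈ P, z < a * α p + b * β p → z + ε < a * α p + b * β p := fun p hp e => by
    have := hsm ε (abs_of_pos hε).le p hp (by linarith)
    nlinarith
  have dn : ∀ p ∈ P, a * α p + b * β p < z + ε → a * α p + b * β p ≤ z := fun p hp e => by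
    by_contra hn
    linarith [up p hp (not_le.1 hn)]
  obtain ⟨φ, h1, h2⟩ := h a b (z + ε) ha hb fun p hp e => by
    rcases le_or_gt (a * α p + b * β p) z with e' | e'
    · linarith
    · linarith [up p hp e']
  obtain ⟨c, hc, hc'⟩ := has_up h2 hc₀ (up _ hc₀ hcz)
  have hP : ∀ x, (∃ k, φ k = Sum.inr x) → x ∈ P := fun x ⟨k, hk⟩ => h1 k x hk
  have key : ∀ (t : κ) (σ : ℝ), a * α t + b * β t = z →
      (∀ x, (∃ k, φ k = Sum.inr x) → a * α x + b * β x = z →
        0 ≤ σ * (-b * (α t - α x) + a * (β t - β x))) →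
      ∀ x ∈ P, a * α x + b * β x = z → 0 ≤ σ * (-b * (α t - α x) + a * (β t - β x)) := by
    intro t σ ht hx x hxP hxz
    obtain ⟨η, hη, hsm'⟩ := small P (fun p => z - (a * α p + b * β p))
      fun p => σ * (-b * (α t - α p) + a * (β t - β p))
    obtain ⟨η', hη', hw⟩ := small (Finset.univ : Finset Bool) (fun i => if i then a else b)
      fun i => if i then -(σ * b) else σ * a
    have hδ : 0 < min η η' := lt_min hη hη'
    have w1 := hw (min η η') ((abs_of_pos hδ).le.trans (min_le_right _ _)) true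
      (Finset.mem_univ _) ha.ne'
    have w2 := hw (min η η') ((abs_of_pos hδ).le.trans (min_le_right _ _)) false
      (Finset.mem_univ _) hb.ne'
    simp only [if_true, Bool.false_eq_true, if_false] at w1 w2
    have hsm2 := hsm' (min η η') ((abs_of_pos hδ).le.trans (min_le_left _ _))
    generalize min η η' = δ at hδ w1 w2 hsm2
    have e0 : ∀ y, ((a + δ * -(σ * b)) * α t + (b + δ * (σ * a)) * β t) -
        ((a + δ * -(σ * b)) * α y + (b + δ * (σ * a)) * β y) =
        z - (a * α y + b * β y) + δ * (σ * (-b * (α t - α y) + a * (β t - β y))) := fun y => by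
      rw [← ht]
      ring
    have := (h2 (a + δ * -(σ * b)) (b + δ * (σ * a))
      ((a + δ * -(σ * b)) * α t + (b + δ * (σ * a)) * β t) fun k => by
        rcases hφ : φ k with (_ | _) | y
        · exact (pos_of w2 hb.le).le
        · exact (pos_of w1 ha.le).le
        · have hy := h1 k y hφ
          simp only [Con]
          rw [e0]
          rcases lt_trichotomy (a * α y + b * β y) z with e | e | e
          · have := hsm2 y hy (by linarith)
            exact mul_nonneg (by linarith) (pos_of this (by linarith)).le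
          · rw [e, sub_self, zero_add]
            exact mul_nonneg (by linarith) (mul_nonneg hδ.le (hx y ⟨k, hφ⟩ e))
          · have := hsm2 y hy (by linarith)
            refine mul_nonneg_of_nonpos_of_nonpos (by linarith [up y hy e]) ?_
            by_contra hn
            nlinarith).2.2 x hxP
    simp only [Con] at this
    rw [e0, hxz, sub_self, zero_add] at this
    have e1 : 0 ≤ δ * (σ * (-b * (α t - α x) + a * (β t - β x))) :=
      nonneg_of_mul_nonneg_right this (by linarith)
    exact nonneg_of_mul_nonneg_right e1 hδ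
  have sl : ∀ x y, a * α x + b * β x = z → a * α y + b * β y = z →
      a * (-b * (α x - α y) + a * (β x - β y)) = (a * a + b * b) * (β x - β y) := fun x y e1 e2 => by
    have : a * (α x - α y) = -b * (β x - β y) := by linarith
    linear_combination (-b) * this
  have hab : 0 < a * a + b * b := by positivity
  obtain ⟨q, hq, hqz, hq'⟩ : ∃ q, (∃ k, φ k = Sum.inr q) ∧ a * α q + b * β q = z ∧
      β r < β q := by
    by_contra hn
    push Not at hn
    have := key r 1 hrz (fun x hx e => by
      have e1 := sl r x hrz e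
      have e2 := mul_nonneg hab.le (sub_nonneg.2 (hn x hx e))
      rw [one_mul]
      exact nonneg_of_mul_nonneg_right (e1 ▸ e2) ha) s hs hsz
    have e1 := sl r s hrz hsz
    nlinarith [mul_pos hab (sub_pos.2 hrs), mul_nonneg ha.le this]
  obtain ⟨p, hp, hpz, hp'⟩ : ∃ p, (∃ k, φ k = Sum.inr p) ∧ a * α p + b * β p = z ∧
      β p < β q := by
    by_contra hn
    push Not at hn
    have := key q (-1) hqz (fun x hx e => by
      have e1 := sl q x hqz e
      have e2 := mul_nonneg hab.le (sub_nonneg.2 (hn x hx e))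
      by_contra hneg
      nlinarith) r hr hrz
    have e1 := sl q r hqz hrz
    nlinarith [mul_pos hab (sub_pos.2 hq'), mul_nonneg ha.le this]
  have h3 := three hc hp hq
    (fun e => by
      rw [Sum.inr.injEq] at e
      rw [e] at hc'
      linarith)
    (fun e => by
      rw [Sum.inr.injEq] at e
      rw [e] at hc'
      linarith)
    fun e => by
      rw [Sum.inr.injEq] at e
      rw [e] at hp'
      exact lt_irrefl _ hp'
  have hpq : a * (α p - α q) = b * (β q - β p) := by linarith
  have D1 : a * ((β c - β p) * (α c - α q) + (α p - α c) * (β c - β q)) =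
      (β q - β p) * (a * α c + b * β c - z) := by
    rw [← hpz]
    linear_combination (β c - β p) * hpq
  have D0 : 0 < (β c - β p) * (α c - α q) + (α p - α c) * (β c - β q) := by
    refine pos_of (x := a) ?_ ha.le
    rw [D1]
    exact mul_pos (by linarith) (by linarith)
  have k1 := h2 (β c - β p) (α p - α c) ((β c - β p) * α c + (α p - α c) * β c) fun k => by
    rcases h3 k with e | e | e <;> rw [e] <;> simp only [Con]
    · rw [sub_self, mul_zero]
    · exact le_of_eq (by ring)
    · exact mul_nonneg (by linarith) (by linarith)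
  have k2 := h2 (β q - β c) (α c - α q) ((β q - β c) * α c + (α c - α q) * β c) fun k => by
    rcases h3 k with e | e | e <;> rw [e] <;> simp only [Con]
    · rw [sub_self, mul_zero]
    · exact mul_nonneg (by linarith) (by linarith)
    · exact le_of_eq (by ring)
  have i1 : β p < β c := by
    by_contra hn
    nlinarith [k1.2.1, mul_nonneg ha.le k1.2.1, mul_nonneg hb.le (sub_nonneg.2 (not_lt.1 hn))]
  have i2 : α q < α c := by
    by_contra hn
    nlinarith [k2.1, mul_nonneg hb.le k2.1, mul_nonneg ha.le (sub_nonneg.2 (not_lt.1 hn))]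
  refine ⟨c, hP c hc, p, hP p hp, q, hP q hq, by linarith, hpz, hqz, hp', by linarith [k1.2.1], i1,
    by linarith [k2.1], i2, fun x hx => ⟨fun e => ?_, fun e => ?_⟩⟩
  · have e1 := k1.2.2 x hx
    have e2 := k2.2.2 x hx
    simp only [Con] at e1 e2
    have e3 := up x hx e
    exact ⟨by linarith [np_of e1 (by linarith)], by linarith [np_of e2 (by linarith)]⟩
  · have e1 := k1.2.2 x hx
    have e2 := k2.2.2 x hx
    simp only [Con] at e1 e2
    exact ⟨by linarith [nn_of e1 (by linarith)], by linarith [nn_of e2 (by linarith)]⟩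

end Pool.Agent.SimpArr.BV.Br
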