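import Pool.Agent.P.MP_0b4c38_co.Final
import Pool.Agent.P.MP_0b4c38_co.BVBr1

/-! From a simplicial arrangement to the slab property. -/

set_option autoImplicit false

namespace Pool.Agent.SimpArr.BV.Br

open Final

variable {κ : Type} {P : Finset κ} {α β : κ → ℝ}

theorem same_sign {A : Finset (Submodule ℝ (Fin 3 → ℝ))} {f : Fin 3 → Du 3}
    {w : Fin 3 → Fin 3 → ℝ} (hw : DB f w) {v : Fin 3 → ℝ} (hv : ∀ i, 0 < f i v)
    (hs : ∀ g ∈ Rt A, (∀ i, 0 ≤ g (w i)) ∨ ∀ i, g (w i) ≤ 0) {g : Du 3} (hg : g ∈ Rt A)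
    {y : Fin 3 → ℝ} (hy : ∀ i, 0 ≤ f i y) : 0 ≤ g v * g y := by
  rw [hw.fun_eq g v, hw.fun_eq g y]
  rcases hs g hg with h | h
  · exact mul_nonneg (Finset.sum_nonneg fun i _ => mul_nonneg (h i) (hv i).le)
      (Finset.sum_nonneg fun i _ => mul_nonneg (h i) (hy i))
  · exact mul_nonneg_of_nonpos_of_nonpos
      (Finset.sum_nonpos fun i _ => mul_nonpos_of_nonpos_of_nonneg (h i) (hv i).le)
      (Finset.sum_nonpos fun i _ => mul_nonpos_of_nonpos_of_nonneg (h i) (hy i))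

theorem sq_cancel {c x y : ℝ} (hc : c ≠ 0) (h : 0 ≤ c * x * (c * y)) : 0 ≤ x * y := by
  have h1 : 0 < c * c := mul_self_pos.2 hc
  exact nn_of (show 0 ≤ c * c * (x * y) by linarith) h1

theorem tri_of {A : Finset (Submodule ℝ (Fin 3 → ℝ))} (hA : IsArrangement A) (hs : IsSimplicial A)
    (E : ℝ → ℝ → ℝ → Fin 3 → ℝ) (hE : ∀ y, ∃ a b z, E a b z = y)
    (h1 : ∀ g ∈ Rt A, (∃ p ∈ P, ∃ c : ℝ, c ≠ 0 ∧
        ∀ a b z, g (E a b z) = c * (z - (a * α p + b * β p))) ∨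
      ∃ s t : ℝ, 0 ≤ s * t ∧ (s ≠ 0 ∨ t ≠ 0) ∧ ∀ a b z, g (E a b z) = s * a + t * b)
    (ha : ∃ g ∈ Rt A, ∃ c : ℝ, c ≠ 0 ∧ ∀ a b z, g (E a b z) = c * a)
    (hb : ∃ g ∈ Rt A, ∃ c : ℝ, c ≠ 0 ∧ ∀ a b z, g (E a b z) = c * b)
    (hp : ∀ p ∈ P, ∃ g ∈ Rt A, ∃ c : ℝ, c ≠ 0 ∧
      ∀ a b z, g (E a b z) = c * (z - (a * α p + b * β p))) : Tri P α β := by
  intro a b z a0 b0 hz
  have hv : E a b z ∈ Complement A := by
    intro H hH hm
    obtain ⟨g, hg, rfl⟩ := (mem_iff hA H).1 hH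
    rw [LinearMap.mem_ker] at hm
    rcases h1 g hg with ⟨p, hp, c, hc, e⟩ | ⟨s, t, hst, hne, e⟩
    · rw [e] at hm
      exact mul_ne_zero hc (sub_ne_zero.2 (hz p hp).symm) hm
    · rw [e] at hm
      have e1 : s * s * a + s * t * b = 0 := by linear_combination s * hm
      have e2 : s * t * a + t * t * b = 0 := by linear_combination t * hm
      rcases hne with h | h
      · nlinarith [mul_pos (mul_self_pos.2 h) a0, mul_nonneg hst b0.le]
      · nlinarith [mul_pos (mul_self_pos.2 h) b0, mul_nonneg hst a0.le]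
  obtain ⟨f, w, hw, hf, hfv, hsg⟩ := chamber hs hv
  have hab : ∀ a' b' z', (∀ i, 0 ≤ f i (E a' b' z')) → 0 ≤ a' ∧ 0 ≤ b' := fun a' b' z' hy => by
    obtain ⟨g, hg, c, hc, e⟩ := ha
    obtain ⟨g', hg', c', hc', e'⟩ := hb
    have e1 := same_sign hw hfv hsg hg hy
    have e2 := same_sign hw hfv hsg hg' hy
    rw [e, e] at e1
    rw [e', e'] at e2
    exact ⟨nn_of (sq_cancel hc e1) a0, nn_of (sq_cancel hc' e2) b0⟩
  have key : ∀ k, ∃ x : Bool ⊕ κ, (∀ p, x = Sum.inr p → p ∈ P) ∧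
      ∀ a' b' z', Con α β a b z a' b' z' x → 0 ≤ f k (E a' b' z') := by
    intro k
    have hk := hfv k
    rcases h1 _ (hf k) with ⟨p, hp, c, hc, e⟩ | ⟨s, t, hst, hne, e⟩
    · refine ⟨Sum.inr p, fun q hq => Sum.inr.inj hq ▸ hp, fun a' b' z' hc' => ?_⟩
      rw [e] at hk ⊢
      simp only [Con] at hc'
      refine nn_of ?_ hk
      have := mul_nonneg (mul_self_nonneg c) hc'
      linarith
    · rw [e] at hk
      have s0 : 0 ≤ s := by
        by_contra hn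
        have : t ≤ 0 := np_of hst (not_le.1 hn)
        nlinarith [mul_pos (neg_pos.2 (not_le.1 hn)) a0, mul_nonneg (neg_nonneg.2 this) b0.le]
      have t0 : 0 ≤ t := by
        by_contra hn
        have : s ≤ 0 := np_of (mul_comm s t ▸ hst) (not_le.1 hn)
        nlinarith [mul_pos (neg_pos.2 (not_le.1 hn)) b0, mul_nonneg (neg_nonneg.2 this) a0.le]
      rcases t0.eq_or_lt with rfl | t1
      · refine ⟨Sum.inl true, fun q hq => by simp at hq, fun a' b' z' hc' => ?_⟩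
        rw [e, zero_mul, add_zero]
        exact mul_nonneg s0 hc'
      rcases s0.eq_or_lt with rfl | s1
      · refine ⟨Sum.inl false, fun q hq => by simp at hq, fun a' b' z' hc' => ?_⟩
        rw [e, zero_mul, zero_add]
        exact mul_nonneg t0 hc'
      exfalso
      have hl : ∀ l, l ≠ k → ∃ z', E 0 0 z' = w l := fun l hl => by
        obtain ⟨a', b', z', h⟩ := hE (w l)
        obtain ⟨e1, e2⟩ := hab a' b' z' fun i => by
          rw [h, hw.dual]
          split_ifs <;> norm_num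
        have e3 := hw.dual l k
        rw [if_neg hl.symm, ← h, e] at e3
        have e4 : a' = 0 := by
          by_contra hn
          nlinarith [mul_pos s1 (lt_of_le_of_ne e1 (Ne.symm hn)), mul_nonneg t0 e2]
        have e5 : b' = 0 := by
          by_contra hn
          nlinarith [mul_pos t1 (lt_of_le_of_ne e2 (Ne.symm hn)), mul_nonneg s0 e1]
        exact ⟨z', by rw [← h, e4, e5]⟩
      obtain ⟨l1, l2, n1, n2, n3⟩ :=
        (by decide : ∀ k : Fin 3, ∃ l1 l2 : Fin 3, l1 ≠ k ∧ l2 ≠ k ∧ l1 ≠ l2) k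
      obtain ⟨z1, e1⟩ := hl l1 n1
      obtain ⟨z2, e2⟩ := hl l2 n2
      have d1 := hw.dual l1 l1
      have d2 := hw.dual l2 l1
      have d3 := hw.dual l2 l2
      rw [if_pos rfl, ← e1] at d1
      rw [if_neg n3, ← e2] at d2
      rw [if_pos rfl, ← e2] at d3
      have hz2 : z2 = 0 := by
        rcases h1 _ (hf l1) with ⟨p, -, c, hc, e⟩ | ⟨s, t, -, -, e⟩
        · rw [e] at d2
          simpa [hc] using d2
        · rw [e] at d1
          simp at d1
      rcases h1 _ (hf l2) with ⟨p, -, c, hc, e⟩ | ⟨s, t, -, -, e⟩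
      · rw [e, hz2] at d3
        simp at d3
      · rw [e] at d3
        simp at d3
  choose φ hφ1 hφ2 using key
  refine ⟨φ, hφ1, fun a' b' z' hc => ?_⟩
  have hy : ∀ i, 0 ≤ f i (E a' b' z') := fun i => hφ2 i _ _ _ (hc i)
  refine ⟨(hab _ _ _ hy).1, (hab _ _ _ hy).2, fun p hpP => ?_⟩
  obtain ⟨g, hg, c, hc, e⟩ := hp p hpP
  have e1 := same_sign hw hfv hsg hg hy
  rw [e, e] at e1
  exact sq_cancel hc e1

end Pool.Agent.SimpArr.BV.Br
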