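import Pool.Agent.P.MP_0b4c38_co.BVIface

/-! The parts put together. -/

set_option autoImplicit false

open Classical Real

namespace Pool.Agent.SimpArr.BV

theorem dot_one (a : P) (x : ℝ) : dot a (1, x) = f a x := by
  simp [dot, f]

theorem model_main (hCh : S_Chart) (h1 : S_LA1) (h2 : S_LA2) (h3 : S_LA3) (h4 : S_LA4)
    (hSeq : S_Seq) (hTop : S_Top) (hRun : S_Run) (hRec : S_Rec) (hLat : S_Lat) (hProp : S_Prop)
    (hFin : S_Fin) :
    ∃ K C : ℕ, 1000 ≤ C ∧ ∀ (A : Finset P) (X : Finset ℝ), Model A X →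
      (2 ≤ X.card → 2 ≤ A.card) → 0 < A.card + X.card →
      C * (A.card + X.card) ^ K ≤ X.card ^ (K + 1) → Reg A X := by
  obtain ⟨K, C, hC, hS⟩ := hSeq
  refine ⟨K, C, hC, fun A X hM hA2 hn hK => ?_⟩
  set m := X.card with hm
  set n := A.card + X.card with hn'
  have hmn : m ≤ n := Nat.le_add_left _ _
  have hCm : C ≤ m := by
    have h0 : m ^ (K + 1) ≤ m * n ^ K := by
      rw [pow_succ, mul_comm]
      exact Nat.mul_le_mul_left _ (Nat.pow_le_pow_left hmn K)
    exact Nat.le_of_mul_le_mul_right (hK.trans h0) (Nat.pow_pos hn)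
  have hm1000 : 1000 ≤ m := hC.trans hCm
  have hA : 2 ≤ A.card := hA2 (by omega)
  obtain ⟨lo, hi, hc⟩ := hCh A X hM (Finset.card_pos.1 (by omega)) (Finset.card_pos.1 (by omega))
  have hlt : lo < hi := by
    by_contra hle
    have : X ⊆ {lo} := fun x hx => by
      have := hc.bd x hx
      have h' := not_lt.1 hle
      exact Finset.mem_singleton.2 (le_antisymm (this.2.trans h') this.1)
    have := Finset.card_le_card this
    simp at this
    omega
  set r := 302 + 100000 * n / m with hr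
  have hm0 : 0 < m := by omega
  have hdiv : 100000 * n / m * m ≤ 100000 * n := Nat.div_mul_le_self _ _
  have hdiv2 : 100000 * n < m * (100000 * n / m + 1) := Nat.lt_mul_div_succ _ hm0
  have hr1 : 302 ≤ r := Nat.le_add_right _ _
  have hbox := hS (fun k => (WS A lo hi k).card) m n r
    (fun k l hkl => Finset.card_le_card fun a ha => by
      obtain ⟨ha, x, hx1, hx2, hx3⟩ := Finset.mem_filter.1 ha
      exact Finset.mem_filter.2 ⟨ha, x, hx1, hx2, hx3.trans hkl⟩)
    (fun k => (Finset.card_filter_le _ _).trans (Nat.le_add_right _ _))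
    (hTop A X lo hi hc hA) hmn hn (by omega)
    (by rw [hr, add_mul]; omega)
    (fun J => by
      obtain ⟨⟨xa, hxa⟩, h3'⟩ := h3 A X lo hi J hlt
      obtain ⟨h3a, h3b⟩ := h3' xa hxa
      have e1 := h1 A lo hi xa J hlt hxa
      have e2 := h2 A X lo hi J hc.lo_mem hc.hi_mem hc.bd
      have e4 := h4 A X lo hi xa J hc hxa
      have e5 : (22 * J + 8) * (WS A lo hi J).card =
          22 * (J * (WS A lo hi J).card) + 8 * (WS A lo hi J).card := by ring
      simp only [e5, ← hm] at *
      omega) hK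
  obtain ⟨⟨p, z, hrun⟩, hB⟩ := hRun A lo hi r (by omega) hbox
  obtain ⟨⟨τ, hch⟩, hX⟩ := hRec A X lo hi p z hc hrun
  obtain ⟨κ, nn, s, lam, g, hray, hlat, hcv, hsp, hpos⟩ := hLat p τ hch
  have hs0 : s 0 = p 0 := by simpa using hsp 0 (by norm_num)
  have hs12 : s 12 = p 12 := by simpa using hsp 12 (by norm_num)
  have key : ∀ a : P, dot a (nn 12) = (nn 12).1 * f a ((nn 12).2 / (nn 12).1) := fun a => by
    simp only [dot, f]
    field_simp
  have htie : f (p 0) ((nn 12).2 / (nn 12).1) = f (p 12) ((nn 12).2 / (nn 12).1) := by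
    have a1 := hlat.sval 0 12
    have a2 := hlat.sval 12 12
    have a3 := hlat.even 12
    simp only [hs0, hs12, key] at a1 a2
    norm_num at a1 a2
    rw [a3] at a2
    exact mul_left_cancel₀ hpos.ne' (a1.trans a2.symm)
  have hT : IsT X (nn 12) := by
    refine ⟨fun h => ?_, _, hX _ htie, ?_⟩
    · rw [h] at hpos
      simp at hpos
    · field_simp
  have hJ : JJ A (fun a c => dot a (nn c)) s lam g 12 12 := by
    refine ⟨fun i hi => ?_, fun a ha hne => ?_⟩
    · obtain ⟨h1', h2'⟩ := abs_le.1 hi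
      obtain ⟨l, rfl⟩ := Int.eq_ofNat_of_zero_le (show 0 ≤ i by omega)
      rw [hsp l (by omega)]
      exact hrun.mem l (by omega)
    · have := hrun.clean 0 12 (by norm_num) (by norm_num) (by norm_num) _ htie a ha
        (fun l _ hl => by
          rw [← hsp l (by omega)]
          exact hne l (abs_le.2 ⟨by omega, by omega⟩))
      have a1 := hlat.sval 0 12
      simp only [hs0, key] at a1
      norm_num at a1
      show dot a (nn 12) < lam 12 - g 12
      rw [key, ← a1]
      exact mul_lt_mul_of_pos_left this hpos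
  have hF := hProp A X κ nn s lam g hM (by omega) hray hlat hcv hT hJ
  refine hFin A X κ nn s lam g r hM hm1000 hray hlat hcv hF hB (by omega) ?_
  have : r - 1 = 301 + 100000 * n / m := by omega
  rw [this, ← hm]
  have hAn : A.card ≤ n := Nat.le_add_right _ _
  nlinarith

theorem bigVertex (hBr : S_Bridge) (hCh : S_Chart) (h1 : S_LA1) (h2 : S_LA2) (h3 : S_LA3)
    (h4 : S_LA4) (hSeq : S_Seq) (hTop : S_Top) (hRun : S_Run) (hRec : S_Rec) (hLat : S_Lat)
    (hProp : S_Prop) (hFin : S_Fin) :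
    ∃ K C : ℕ, ∀ A : Finset (Submodule ℝ (Fin 3 → ℝ)), IsArrangement A → IsSimplicial A →
      IsIrreducible A → ∀ v : Fin 3 → ℝ, v ≠ 0 →
      C * A.card ^ K ≤ (A.filter (fun H => v ∈ H)).card ^ (K + 1) → LinReg A := by
  obtain ⟨K, C, -, h⟩ := model_main hCh h1 h2 h3 h4 hSeq hTop hRun hRec hLat hProp hFin
  refine ⟨K, C, fun A3 hA hs hi v hv hK => ?_⟩
  obtain ⟨A, X, hM, hX, hn, h2', hR⟩ := hBr A3 hA hs hi v hv
  refine hR (h A X hM h2' ?_ ?_)
  · rw [hn]
    refine Finset.card_pos.2 (Finset.nonempty_iff_ne_empty.2 fun h0 => hv (hA.2 v ?_))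
    simp [h0]
  · rw [hn, hX]
    exact hK

end Pool.Agent.SimpArr.BV
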