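import Pool.Agent.P.MP_0b4c38_co.Arr2

/-! Interface for the theorem on simplicial arrangements with a vertex of large multiplicity. -/

set_option autoImplicit false

open Classical Real

namespace Pool.Agent.SimpArr.BV

abbrev P := ℝ × ℝ

def dot (a n : P) : ℝ := a.1 * n.1 + a.2 * n.2

def det (n n' : P) : ℝ := n.1 * n'.2 - n.2 * n'.1

/-- The direction `n` lies on one of the lines through the big vertex. -/
def IsT (X : Finset ℝ) (n : P) : Prop := n ≠ 0 ∧ ∃ x ∈ X, n.2 = x * n.1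

/-- Two neighbouring rays at the big vertex (in either orientation). -/
def Slab (X : Finset ℝ) (n n' : P) : Prop :=
  IsT X n ∧ IsT X n' ∧ det n n' ≠ 0 ∧
    ∀ s : ℝ, 0 < s → s < 1 → ¬ IsT X ((1 - s) • n + s • n')

def mix (α β : P → ℝ) (a : P) (s : ℝ) : ℝ := (1 - s) * α a + s * β a

/-- The local consequences of simpliciality in one slab. `α` and `β` are the heights of the wires
on the two walls. -/
structure Loc (A : Finset P) (α β : P → ℝ) : Prop where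
  inj : ∀ a b, α a = α b → β a = β b → a = b
  star : ∀ a ∈ A, (∀ c ∈ A, α c ≤ α a) → (∀ c ∈ A, α c = α a → β c ≤ β a) →
    ∀ c ∈ A, β c ≤ β a
  edge : ∀ a ∈ A, ∀ b ∈ A, α b < α a → (∀ c ∈ A, α a ≤ α c ∨ α c ≤ α b) →
    (∀ c ∈ A, α c = α a → β a ≤ β c) → (∀ c ∈ A, α c = α b → β c ≤ β b) →
    ∃ s : ℝ, 0 < s ∧ s ≤ 1 ∧ mix α β a s = mix α β b s ∧
      (∀ c ∈ A, α a ≤ α c → mix α β a s ≤ mix α β c s) ∧
      ∀ c ∈ A, α c ≤ α b → mix α β c s ≤ mix α β a s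
  bottom : ∀ s : ℝ, 0 < s → s < 1 → ∀ a ∈ A, ∀ b ∈ A, a ≠ b → mix α β a s = mix α β b s →
    (∀ c ∈ A, mix α β c s = mix α β a s → α c ≤ α a ∧ β c ≤ β b) →
    ∃ g ∈ A, ∃ p q : ℝ, 0 ≤ p ∧ p < s ∧ s < q ∧ q ≤ 1 ∧ mix α β a s < mix α β g s ∧
      mix α β g p = mix α β a p ∧ mix α β g q = mix α β b q ∧
      (∀ c ∈ A, mix α β a s < mix α β c s →
        mix α β g p ≤ mix α β c p ∧ mix α β g q ≤ mix α β c q) ∧
      ∀ c ∈ A, mix α β c s ≤ mix α β a s →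
        mix α β c p ≤ mix α β a p ∧ mix α β c q ≤ mix α β b q

/-- The planar model of a simplicial arrangement seen from the big vertex. -/
def Model (A : Finset P) (X : Finset ℝ) : Prop :=
  ∀ n n', Slab X n n' → Loc A (fun a => dot a n) (fun a => dot a n')

/-- The model is an affinely regular polygon with all its directions, perhaps with its centre. -/
def Reg (A : Finset P) (X : Finset ℝ) : Prop :=
  ∃ (M : ℕ) (e1 e2 b : P), 3 ≤ M ∧ det e1 e2 ≠ 0 ∧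
    ((∀ a, a ∈ A ↔ ∃ j < M, a = b + cos (2 * π * j / M) • e1 + sin (2 * π * j / M) • e2) ∨
      (Even M ∧ ∀ a, a ∈ A ↔
        (∃ j < M, a = b + cos (2 * π * j / M) • e1 + sin (2 * π * j / M) • e2) ∨ a = b)) ∧
    ∀ n, IsT X n ↔ n ≠ 0 ∧ ∃ j < M, sin (π * j / M) * dot e1 n = cos (π * j / M) * dot e2 n

/-- `A` is linearly isomorphic to `R(2m)` or `R(4m+1)`. -/
def LinReg (A : Finset (Submodule ℝ (Fin 3 → ℝ))) : Prop :=
  ∃ (B : Finset (Submodule ℝ (Fin 3 → ℝ))) (g : (Fin 3 → ℝ) ≃ₗ[ℝ] (Fin 3 → ℝ)), IsRegular B ∧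
    ∀ H, H ∈ A ↔ ∃ K ∈ B, ∀ v, v ∈ H ↔ g v ∈ K

/-- BR (helper90): bridge and final identification. -/
def S_Bridge : Prop :=
  ∀ A3 : Finset (Submodule ℝ (Fin 3 → ℝ)), IsArrangement A3 → IsSimplicial A3 →
    IsIrreducible A3 → ∀ v : Fin 3 → ℝ, v ≠ 0 →
    ∃ (A : Finset P) (X : Finset ℝ), Model A X ∧
      X.card = (A3.filter (fun H => v ∈ H)).card ∧ A.card + X.card = A3.card ∧
      (2 ≤ X.card → 2 ≤ A.card) ∧ (Reg A X → LinReg A3)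

/-! ### The affine chart -/

def f (a : P) (x : ℝ) : ℝ := a.1 + a.2 * x

structure Chart (A : Finset P) (X : Finset ℝ) (lo hi : ℝ) : Prop where
  lo_mem : lo ∈ X
  hi_mem : hi ∈ X
  bd : ∀ x ∈ X, lo ≤ x ∧ x ≤ hi
  star : ∀ x ∈ X, ∀ x' ∈ X, x < x' → (∀ y ∈ X, y ≤ x ∨ x' ≤ y) →
    ∃ a ∈ A, ∀ c ∈ A, f c x ≤ f a x ∧ f c x' ≤ f a x'
  edgeR : ∀ x ∈ X, x < hi → ∀ a ∈ A, ∀ b ∈ A, f b x < f a x →
    (∀ c ∈ A, f a x ≤ f c x ∨ f c x ≤ f b x) →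
    (∀ c ∈ A, f c x = f a x → a.2 ≤ c.2) → (∀ c ∈ A, f c x = f b x → c.2 ≤ b.2) →
    ∃ y, x < y ∧ (∀ t ∈ X, x < t → y ≤ t) ∧ f a y = f b y ∧
      (∀ c ∈ A, f a x ≤ f c x → f a y ≤ f c y) ∧ ∀ c ∈ A, f c x ≤ f b x → f c y ≤ f a y
  edgeL : ∀ x ∈ X, lo < x → ∀ a ∈ A, ∀ b ∈ A, f b x < f a x →
    (∀ c ∈ A, f a x ≤ f c x ∨ f c x ≤ f b x) →
    (∀ c ∈ A, f c x = f a x → c.2 ≤ a.2) → (∀ c ∈ A, f c x = f b x → b.2 ≤ c.2) →
    ∃ y, y < x ∧ (∀ t ∈ X, t < x → t ≤ y) ∧ f a y = f b y ∧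
      (∀ c ∈ A, f a x ≤ f c x → f a y ≤ f c y) ∧ ∀ c ∈ A, f c x ≤ f b x → f c y ≤ f a y
  bottom : ∀ x, lo < x → x < hi → x ∉ X → ∀ a ∈ A, ∀ b ∈ A, a ≠ b → f a x = f b x →
    (∀ c ∈ A, f c x = f a x → a.2 ≤ c.2 ∧ c.2 ≤ b.2) →
    ∃ g ∈ A, ∃ p q : ℝ, lo ≤ p ∧ p < x ∧ x < q ∧ q ≤ hi ∧ f a x < f g x ∧
      f g p = f a p ∧ f g q = f b q ∧
      (∀ c ∈ A, f a x < f c x → f g p ≤ f c p ∧ f g q ≤ f c q) ∧
      ∀ c ∈ A, f c x ≤ f a x → f c p ≤ f a p ∧ f c q ≤ f b q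

/-- CH 1: the chart. -/
def S_Chart : Prop :=
  ∀ (A : Finset P) (X : Finset ℝ), Model A X → A.Nonempty → X.Nonempty →
    ∃ lo hi, Chart A X lo hi

/-- CH 2: the next ray. -/
def S_Next : Prop :=
  ∀ (X : Finset ℝ) (n : P), 2 ≤ X.card → IsT X n → ∃ n', 0 < det n n' ∧ Slab X n n'

/-- CH 3: transport of the local data along a bijection and an affine change of heights. -/
def S_Map : Prop :=
  ∀ (A : Finset P) (α β α' β' : P → ℝ) (ψ : P ≃ P) (ρ k1 k2 : ℝ), 0 < ρ →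
    (∀ a, α a = ρ * α' (ψ a) + k1) → (∀ a, β a = ρ * β' (ψ a) + k2) →
    Loc A α β → Loc (A.map ψ.toEmbedding) α' β'

/-- CH 4: two vertices directly above one another inside a slab are impossible. -/
def S_NoStack : Prop :=
  ∀ (A : Finset P) (α β : P → ℝ), Loc A α β → ∀ s : ℝ, 0 < s → s < 1 →
    ∀ a ∈ A, ∀ b ∈ A, ∀ a' ∈ A, ∀ b' ∈ A, a ≠ b → a' ≠ b' → mix α β a s = mix α β b s →
      mix α β a' s = mix α β b' s → mix α β a s < mix α β a' s →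
      (∀ c ∈ A, mix α β c s ≤ mix α β a s ∨ mix α β a' s ≤ mix α β c s) → False

/-! ### Levels -/

/-- `b` is above `a` just after `x`. -/
def AbP (x : ℝ) (a b : P) : Prop := f a x < f b x ∨ (f a x = f b x ∧ a.2 < b.2)

/-- `b` is above `a` just before `x`. -/
def AbM (x : ℝ) (a b : P) : Prop := f a x < f b x ∨ (f a x = f b x ∧ b.2 < a.2)

noncomputable def rkP (A : Finset P) (x : ℝ) (a : P) : ℕ := (A.filter (AbP x a)).card

noncomputable def rkM (A : Finset P) (x : ℝ) (a : P) : ℕ := (A.filter (AbM x a)).card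

/-- The wires that reach rank at most `k`. -/
noncomputable def WS (A : Finset P) (lo hi : ℝ) (k : ℕ) : Finset P :=
  A.filter (fun a => ∃ x, lo ≤ x ∧ x < hi ∧ rkP A x a ≤ k)

/-- `xa a` is a place where the rank of `a` is smallest. -/
def Split (A : Finset P) (lo hi : ℝ) (xa : P → ℝ) : Prop :=
  ∀ a ∈ A, lo ≤ xa a ∧ xa a < hi ∧ ∀ x, lo ≤ x → x < hi → rkP A (xa a) a ≤ rkP A x a

/-- The sum of the smallest ranks. -/
noncomputable def RR (A : Finset P) (lo hi : ℝ) (xa : P → ℝ) (J : ℕ) : ℕ :=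
  ∑ a ∈ WS A lo hi J, rkP A (xa a) a

/-- The abscissae of all crossings. -/
noncomputable def Ev (A : Finset P) : Finset ℝ :=
  ((A ×ˢ A).filter (fun p => p.1.2 ≠ p.2.2)).image
    (fun p => (p.2.1 - p.1.1) / (p.1.2 - p.2.2))

/-- The set of the `k + 1` highest wires changes at `x`. -/
def Pinch (A : Finset P) (k : ℕ) (x : ℝ) : Prop := ∃ a ∈ A, rkP A x a ≤ k ∧ k < rkM A x a

noncomputable def Pin (A : Finset P) (lo hi : ℝ) (J : ℕ) : Finset (ℕ × ℝ) :=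
  (Finset.range J ×ˢ Ev A).filter (fun p => lo < p.2 ∧ p.2 < hi ∧ Pinch A p.1 p.2)

/-- Pairs (wire, crossing on it) away from the verticals. -/
noncomputable def ZZ (A : Finset P) (X : Finset ℝ) (lo hi : ℝ) (J : ℕ) : Finset (P × ℝ) :=
  (A ×ˢ Ev A).filter (fun p => lo < p.2 ∧ p.2 < hi ∧ p.2 ∉ X ∧ rkM A p.2 p.1 ≤ J ∧
    ∃ b ∈ A, b ≠ p.1 ∧ f b p.2 = f p.1 p.2)

/-- Vertices away from the verticals, named by their wire of smallest slope. -/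
noncomputable def Vx (A : Finset P) (X : Finset ℝ) (lo hi : ℝ) (J : ℕ) : Finset (P × ℝ) :=
  (ZZ A X lo hi J).filter (fun p => ∀ c ∈ A, f c p.2 = f p.1 p.2 → p.1.2 ≤ c.2)

/-- LA 1 (no simpliciality). -/
def S_LA1 : Prop :=
  ∀ (A : Finset P) (lo hi : ℝ) (xa : P → ℝ) (J : ℕ), lo < hi → Split A lo hi xa →
    2 * ∑ k ∈ Finset.range J, (WS A lo hi k).card ≤
      J * (J + 1) + 2 * (Pin A lo hi J).card + 2 * RR A lo hi xa J

/-- LA 2 (no simpliciality). -/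
def S_LA2 : Prop :=
  ∀ (A : Finset P) (X : Finset ℝ) (lo hi : ℝ) (J : ℕ), lo ∈ X → hi ∈ X →
    (∀ x ∈ X, lo ≤ x ∧ x ≤ hi) →
    2 * (Pin A lo hi J).card ≤ J * X.card + 4 * (ZZ A X lo hi J).card

/-- LA 3 (no simpliciality). -/
def S_LA3 : Prop :=
  ∀ (A : Finset P) (X : Finset ℝ) (lo hi : ℝ) (J : ℕ), lo < hi →
    (∃ xa, Split A lo hi xa) ∧ ∀ xa, Split A lo hi xa →
      (ZZ A X lo hi J).card ≤ RR A lo hi xa J + 2 * (Vx A X lo hi J).card ∧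
      RR A lo hi xa J + ∑ k ∈ Finset.range J, (WS A lo hi k).card = J * (WS A lo hi J).card

/-- LA 4. -/
def S_LA4 : Prop :=
  ∀ (A : Finset P) (X : Finset ℝ) (lo hi : ℝ) (xa : P → ℝ) (J : ℕ), Chart A X lo hi →
    Split A lo hi xa → (Vx A X lo hi J).card ≤ 2 * RR A lo hi xa J + (WS A lo hi J).card

/-- SQ: the growth of the level counts. -/
def S_Seq : Prop :=
  ∃ K C : ℕ, 1000 ≤ C ∧ ∀ (W : ℕ → ℕ) (m n r : ℕ), Monotone W → (∀ k, W k ≤ n) →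
    m ≤ 2 * W 0 + 1 → m ≤ n → 0 < n → 1 ≤ r → r * m ≤ 110000 * n →
    (∀ J, 24 * ∑ k ∈ Finset.range J, W k ≤ J * (J + 1) + J * m + (22 * J + 8) * W J) →
    C * n ^ K ≤ m ^ (K + 1) → 16 * ((2 * r + 1) * (W r - W 0) + 1) + 1 ≤ W 0

/-- TP: at least half as many top wires as verticals. -/
def S_Top : Prop :=
  ∀ (A : Finset P) (X : Finset ℝ) (lo hi : ℝ), Chart A X lo hi → 2 ≤ A.card →
    X.card ≤ 2 * (WS A lo hi 0).card + 1

/-! ### The clean run -/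

structure Run (A : Finset P) (lo hi : ℝ) (p : ℕ → P) (z : ℕ → ℝ) : Prop where
  mem : ∀ i ≤ 16, p i ∈ A
  inj : ∀ i j, i < j → j ≤ 16 → p i ≠ p j
  lo_lt : lo < z 0
  lt_hi : z 16 < hi
  mono : ∀ i j, i < j → j ≤ 16 → z i < z j
  top : ∀ i ≤ 16, ∀ c ∈ A, c ≠ p i → f c (z i) < f (p i) (z i)
  clean : ∀ i j, i < j → j ≤ 16 → j ≤ i + 12 → ∀ x, f (p i) x = f (p j) x →
    ∀ c ∈ A, (∀ l, i ≤ l → l ≤ j → c ≠ p l) → f c x < f (p i) x

/-- In some direction all points of rank at most `r` lie on the boundary of the convex hull. -/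
def Box (A : Finset P) (r : ℕ) : Prop :=
  ∃ ν : P, ν ≠ 0 ∧ ∀ e ∈ A, (A.filter (fun b => dot e ν < dot b ν)).card ≤ r →
    ∃ ν' : P, ν' ≠ 0 ∧ ∀ b ∈ A, dot b ν' ≤ dot e ν'

/-- RN (no simpliciality). -/
def S_Run : Prop :=
  ∀ (A : Finset P) (lo hi : ℝ) (r : ℕ), 13 ≤ r →
    16 * ((2 * r + 1) * ((WS A lo hi r).card - (WS A lo hi 0).card) + 1) + 1 ≤
      (WS A lo hi 0).card →
    (∃ p z, Run A lo hi p z) ∧ Box A r

/-- The recurrence of an affinely regular chain. -/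
structure Chain (p : ℕ → P) (τ : ℝ) : Prop where
  step : ∀ i, i + 3 ≤ 16 → (p (i + 3) - p (i + 2)) + (p (i + 1) - p i) = τ • (p (i + 2) - p (i + 1))
  slope : ∀ i, i + 1 ≤ 16 → (p i).2 < (p (i + 1)).2
  turn : 0 < det (p 1 - p 0) (p 2 - p 1)

/-- RC: the run is affinely regular. -/
def S_Rec : Prop :=
  ∀ (A : Finset P) (X : Finset ℝ) (lo hi : ℝ) (p : ℕ → P) (z : ℕ → ℝ), Chart A X lo hi →
    Run A lo hi p z → (∃ τ, Chain p τ) ∧ ∀ x, f (p 0) x = f (p 12) x → x ∈ X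

/-! ### The lattice -/

structure Lat (κ : ℝ) (val : P → ℤ → ℝ) (s : ℤ → P) (lam g : ℤ → ℝ) : Prop where
  vrec : ∀ a c, val a (c + 1) + val a (c - 1) = 2 * κ * val a c
  inj : ∀ a b c, val a c = val b c → val a (c + 1) = val b (c + 1) → a = b
  sval : ∀ i c, val (s i) c = lam c - g (c - 2 * i)
  even : ∀ d, g (-d) = g d
  grec : ∀ c d, lam (c + 1) + lam (c - 1) - 2 * κ * lam c = g (d + 1) + g (d - 1) - 2 * κ * g d

structure Rays (κ : ℝ) (n : ℤ → P) : Prop where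
  pos : 0 < κ
  nrec : ∀ c, n (c + 1) + n (c - 1) = (2 * κ) • n c
  det : ∀ c, 0 < det (n c) (n (c + 1))

def Cvx (g : ℤ → ℝ) : Prop := ∀ d, 0 ≤ d → d ≤ 13 → 2 * g d < g (d + 1) + g (d - 1)

def Mono (g : ℤ → ℝ) (D : ℤ) : Prop := ∀ d d', 0 ≤ d → d < d' → d' ≤ D → g d < g d'

/-- LT: the lattice attached to a chain. -/
def S_Lat : Prop :=
  ∀ (p : ℕ → P) (τ : ℝ), Chain p τ →
    ∃ (κ : ℝ) (n s : ℤ → P) (lam g : ℤ → ℝ), Rays κ n ∧
      Lat κ (fun a c => dot a (n c)) s lam g ∧ Cvx g ∧ (∀ i : ℕ, i ≤ 16 → s i = p i) ∧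
      0 < (n 12).1

/-- On ray `c` the lattice wires of depth at most `d` are present and all others are lower. -/
def JJ (A : Finset P) (val : P → ℤ → ℝ) (s : ℤ → P) (lam g : ℤ → ℝ) (c d : ℤ) : Prop :=
  (∀ i, |c - 2 * i| ≤ d → s i ∈ A) ∧
    ∀ a ∈ A, (∀ i, |c - 2 * i| ≤ d → a ≠ s i) → val a c < lam c - g d

/-- The same without the rising wire of depth `d` and with a weak inequality. -/
def KK (A : Finset P) (val : P → ℤ → ℝ) (s : ℤ → P) (lam g : ℤ → ℝ) (c d : ℤ) : Prop :=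
  (∀ i, -d < c - 2 * i → c - 2 * i ≤ d → s i ∈ A) ∧
    ∀ a ∈ A, (∀ i, -d < c - 2 * i → c - 2 * i ≤ d → a ≠ s i) → val a c ≤ lam c - g d

/-- ST: the step from one ray to the next. -/
def S_Step : Prop :=
  ∀ (A : Finset P) (κ : ℝ) (val : P → ℤ → ℝ) (s : ℤ → P) (lam g : ℤ → ℝ) (c d i0 : ℤ),
    Lat κ val s lam g → Mono g (d + 1) → 2 ≤ d → c - 2 * i0 = d →
    Loc A (fun a => val a c) (fun a => val a (c + 1)) → JJ A val s lam g c d →
    (KK A val s lam g (c + 1) (d + 1) ∧ ∀ a ∈ A, val a c < lam c - g d →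
        ∃ b ∈ A, val a c ≤ val b c ∧ val b c < lam c - g d ∧
          val b (c + 1) = lam (c + 1) - g (d + 1)) ∨
      (KK A val s lam g (c + 1) (d - 1) ∧
        ∃ e ∈ A, val e c < lam c - g d ∧ val e (c + 1) = lam (c + 1) - g (d - 1))

/-- NX: the next ray of the arrangement is the next lattice ray. -/
def S_NextT : Prop :=
  ∀ (A : Finset P) (X : Finset ℝ) (κ : ℝ) (n s : ℤ → P) (lam g : ℤ → ℝ) (c d i0 : ℤ),
    Model A X → 2 ≤ X.card → Rays κ n → Lat κ (fun a c => dot a (n c)) s lam g → Mono g (d + 1) →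
    4 ≤ d → c - 2 * i0 = d → IsT X (n c) → JJ A (fun a c => dot a (n c)) s lam g c d →
    Slab X (n c) (n (c + 1))

/-- The output of the propagation. -/
structure Fwd (A : Finset P) (X : Finset ℝ) (n s : ℤ → P) (lam g : ℤ → ℝ) : Prop where
  slab : ∀ c, 12 ≤ c → Slab X (n c) (n (c + 1))
  mem : ∀ i, 0 ≤ i → s i ∈ A
  low : ∀ c, 12 ≤ c → ∀ a ∈ A, (∀ i, a ≠ s i) → dot a (n c) ≤ lam c - g 12

/-- PR: propagation. -/
def S_Prop : Prop :=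
  ∀ (A : Finset P) (X : Finset ℝ) (κ : ℝ) (n s : ℤ → P) (lam g : ℤ → ℝ),
    Model A X → 2 ≤ X.card → Rays κ n → Lat κ (fun a c => dot a (n c)) s lam g → Cvx g →
    IsT X (n 12) → JJ A (fun a c => dot a (n c)) s lam g 12 12 → Fwd A X n s lam g

/-- The unit vector of angle `c π / M`. -/
noncomputable def u (M : ℕ) (c : ℤ) : P := (cos (c * π / M), sin (c * π / M))

/-- CL: the lattice closes up. -/
def S_Close : Prop :=
  ∀ (X : Finset ℝ) (κ : ℝ) (n s : ℤ → P) (lam g : ℤ → ℝ),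
    Rays κ n → Lat κ (fun a c => dot a (n c)) s lam g → Cvx g →
    (∀ c, 12 ≤ c → Slab X (n c) (n (c + 1))) →
    ∃ (M : ℕ) (e1 e2 b : P) (ρ : ℝ), X.card ≤ M ∧ 0 < M ∧ 0 < ρ ∧ det e1 e2 ≠ 0 ∧
      (∀ c, dot e1 (n c) = ρ * (u M c).1 ∧ dot e2 (n c) = ρ * (u M c).2) ∧
      (∀ i, s i = b + (u M (2 * i)).1 • e1 + (u M (2 * i)).2 • e2) ∧
      (∀ c d, lam c - g d = dot b (n c) + ρ * cos (d * π / M)) ∧
      ∀ ν, IsT X ν ↔ ν ≠ 0 ∧ ∃ j < M, sin (π * j / M) * dot e1 ν = cos (π * j / M) * dot e2 ν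

/-- The normalised model: the regular polygon is present. -/
structure Norm (M : ℕ) (A : Finset P) : Prop where
  big : 1000 ≤ M
  loc : ∀ c : ℤ, Loc A (fun a => dot a (u M c)) (fun a => dot a (u M (c + 1)))
  mem : ∀ i : ℤ, u M (2 * i) ∈ A
  low : ∀ e ∈ A, (∀ i : ℤ, e ≠ u M (2 * i)) → ∀ c : ℤ, dot e (u M c) ≤ cos (12 * π / M)

/-- MT: the wedge estimate. -/
def S_Metric : Prop :=
  ∀ (M : ℕ) (A : Finset P) (d : ℕ), Norm M A → 299 ≤ d → 2 * d < M →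
    (∀ k : ℤ, (∀ e ∈ A, (∀ i : ℤ, e ≠ u M (2 * i)) → dot e (u M (d + 2 * k)) ≤ cos (d * π / M)) ∧
      ∃ e ∈ A, (∀ i : ℤ, e ≠ u M (2 * i)) ∧ dot e (u M (d + 2 * k)) = cos (d * π / M)) →
    M * d ≤ 100000 * A.card

/-- DP: constant depth. -/
def S_Depth : Prop :=
  ∀ (M : ℕ) (A : Finset P) (r : ℕ), Norm M A → Box A r → 301 ≤ r →
    100000 * A.card < M * (r - 1) →
    ∀ e ∈ A, (∃ i : ℤ, e = u M (2 * i)) ∨ (Even M ∧ e = 0)

/-- NM: normalisation and conclusion. -/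
def S_Fin : Prop :=
  ∀ (A : Finset P) (X : Finset ℝ) (κ : ℝ) (n s : ℤ → P) (lam g : ℤ → ℝ) (r : ℕ),
    Model A X → 1000 ≤ X.card → Rays κ n → Lat κ (fun a c => dot a (n c)) s lam g → Cvx g →
    Fwd A X n s lam g → Box A r → 301 ≤ r → 100000 * A.card < X.card * (r - 1) → Reg A X

end Pool.Agent.SimpArr.BV
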