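import Pool.Agent.P.MP_0b4c38_co.BVIface

/-! The lattice attached to an affinely regular chain. -/

set_option autoImplicit false

namespace Pool.Agent.SimpArr.BV

namespace LatAux

variable {V : Type} [AddCommGroup V] [Module ℝ V]

theorem exists_rec (t : ℝ) (k x0 x1 : V) (c0 : ℤ) :
    ∃ y : ℤ → V, y c0 = x0 ∧ y (c0 + 1) = x1 ∧ ∀ c, y (c + 1) + y (c - 1) = t • y c + k := by
  let φ : Equiv.Perm (V × V) :=
    { toFun := fun x => (x.2, t • x.2 + k - x.1)
      invFun := fun x => (t • x.1 + k - x.2, x.1)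
      left_inv := fun x => by simp
      right_inv := fun x => by simp }
  have h : ∀ c : ℤ, (φ ^ (c + 1)) (x0, x1) = φ ((φ ^ c) (x0, x1)) := fun c => by
    rw [add_comm, zpow_one_add, Equiv.Perm.mul_apply]
  refine ⟨fun c => ((φ ^ (c - c0)) (x0, x1)).1, by simp, by simp [φ], fun c => ?_⟩
  have e1 : c + 1 - c0 = c - 1 - c0 + 1 + 1 := by ring
  have e2 : c - c0 = c - 1 - c0 + 1 := by ring
  simp only [e1, e2, h]
  simp [φ]

theorem rec_zero {t : ℝ} {y : ℤ → V} (h : ∀ c, y (c + 1) + y (c - 1) = t • y c) {c0 : ℤ}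
    (h0 : y c0 = 0) (h1 : y (c0 + 1) = 0) (c : ℤ) : y c = 0 := by
  have : ∀ k : ℤ, y (c0 + k) = 0 ∧ y (c0 + k + 1) = 0 := fun k => by
    induction k using Int.induction_on with
    | zero => simpa using ⟨h0, h1⟩
    | succ k ih =>
      have := h (c0 + k + 1)
      rw [add_sub_cancel_right, ih.1, ih.2, smul_zero, add_zero] at this
      rw [← add_assoc]
      exact ⟨ih.2, this⟩
    | pred k ih =>
      have := h (c0 + -k)
      rw [ih.1, ih.2, smul_zero, zero_add] at this
      rw [show c0 + (-k - 1) + 1 = c0 + -k by ring, show c0 + (-k - 1) = c0 + -k - 1 by ring]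
      exact ⟨this, ih.1⟩
  have := (this (c - c0)).1
  rwa [add_sub_cancel] at this

theorem const {T : Type} {F : ℤ → T} (h : ∀ c, F (c + 1) = F c) (c d : ℤ) : F c = F d := by
  have : ∀ k : ℤ, F k = F 0 := fun k => by
    induction k using Int.induction_on with
    | zero => rfl
    | succ k ih => rw [h, ih]
    | pred k ih => rw [← h, sub_add_cancel, ih]
  rw [this c, this d]

end LatAux

open LatAux

theorem t_Lat : S_Lat := by
  intro p τ h
  have y0 := h.slope 0 (by norm_num)
  have y1 := h.slope 1 (by norm_num)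
  have y2 := h.slope 2 (by norm_num)
  have hτ : 0 < τ := by
    have := congrArg Prod.snd (h.step 0 (by norm_num))
    simp only [Prod.snd_add, Prod.snd_sub, Prod.smul_snd, smul_eq_mul, zero_add] at this y0 y1 y2
    norm_num at y1 y2
    by_contra hn
    nlinarith [mul_nonneg (neg_nonneg.2 (not_lt.1 hn)) (sub_pos.2 y1).le]
  obtain ⟨κ, hκ, hκτ⟩ : ∃ κ : ℝ, 0 < κ ∧ τ = 4 * κ * κ - 2 :=
    ⟨√(τ + 2) / 2, by positivity, by
      have := Real.mul_self_sqrt (show 0 ≤ τ + 2 by linarith)
      linarith⟩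
  obtain ⟨s, s0, s1, hs⟩ := exists_rec τ (p 2 + p 0 - τ • p 1) (p 0) (p 1) 0
  rw [zero_add] at s1
  have hk : ∀ i : ℕ, i + 2 ≤ 16 → p (i + 2) + p i - τ • p (i + 1) = p 2 + p 0 - τ • p 1 := by
    intro i hi
    induction i with
    | zero => rfl
    | succ i ih =>
      rw [← ih (by omega)]
      have := h.step i (by omega)
      linear_combination (norm := module) this
  have hsp2 : ∀ i : ℕ, i + 1 ≤ 16 → s i = p i ∧ s (i + 1) = p (i + 1) := by
    intro i hi
    induction i with
    | zero => exact ⟨s0, by simpa using s1⟩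
    | succ i ih =>
      obtain ⟨e1, e2⟩ := ih (by omega)
      have e3 := hs (i + 1)
      rw [add_sub_cancel_right, e1, e2, ← hk i (by omega)] at e3
      push_cast
      exact ⟨e2, by linear_combination (norm := module) e3⟩
  have hsp : ∀ i : ℕ, i ≤ 16 → s i = p i := fun i hi => by
    rcases i with _ | i
    · exact s0
    · push_cast
      exact (hsp2 i hi).2
  obtain ⟨n, n1, n2, hn⟩ := exists_rec (V := P) (2 * κ) 0 ((p 1 - p 0).2, -(p 1 - p 0).1)
    ((p 2 - p 0).2 / (2 * κ), -(p 2 - p 0).1 / (2 * κ)) 1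
  simp only [add_zero] at hn
  have hn1 : ∀ c, (n (c + 1)).1 + (n (c - 1)).1 = 2 * κ * (n c).1 := fun c =>
    congrArg Prod.fst (hn c)
  have hn2 : ∀ c, (n (c + 1)).2 + (n (c - 1)).2 = 2 * κ * (n c).2 := fun c =>
    congrArg Prod.snd (hn c)
  have hκ2 : 2 * κ ≠ 0 := by positivity
  obtain ⟨ε, hε, hdet⟩ : ∃ ε : ℝ, 0 < ε ∧ ∀ c, det (n c) (n (c + 1)) = ε := by
    refine ⟨det (n 1) (n (1 + 1)), ?_, fun c => const (F := fun c => det (n c) (n (c + 1)))
      (fun c => ?_) c 1⟩
    · have := div_pos h.turn (show 0 < 2 * κ by positivity)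
      rw [n1, n2]
      refine this.trans_eq ?_
      simp only [det, Prod.fst_sub, Prod.snd_sub]
      field_simp
      ring
    · have a1 := hn1 (c + 1)
      have a2 := hn2 (c + 1)
      rw [add_sub_cancel_right] at a1 a2
      simp only [det]
      linear_combination (n (c + 1)).1 * a2 - (n (c + 1)).2 * a1
  have hodd : ∀ i : ℤ, n (2 * i + 1) = ((s (i + 1) - s i).2, -(s (i + 1) - s i).1) := by
    intro i
    refine sub_eq_zero.1 (rec_zero (t := τ) (c0 := 0)
      (y := fun i => n (2 * i + 1) - ((s (i + 1) - s i).2, -(s (i + 1) - s i).1))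
      (fun c => ?_) ?_ ?_ i)
    · have a1 := hn (2 * c + 1 + 1)
      have a2 := hn (2 * c + 1)
      have a3 := hn (2 * c + 1 - 1)
      have b1 := hs (c + 1)
      have b2 := hs c
      simp only [add_sub_cancel_right, sub_add_cancel] at a1 a2 a3 b1 ⊢
      rw [show 2 * (c + 1) + 1 = 2 * c + 1 + 1 + 1 by ring, show 2 * (c - 1) + 1 = 2 * c - 1 by ring]
      have a4 : n (2 * c + 1 + 1 + 1) + n (2 * c - 1) = τ • n (2 * c + 1) := by
        rw [hκτ]
        linear_combination (norm := module) a1 + a3 + (2 * κ) • a2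
      have b3 : s (c + 1 + 1) - s (c + 1) + (s c - s (c - 1)) = τ • (s (c + 1) - s c) := by
        linear_combination (norm := module) b1 - b2
      have c1 := congrArg Prod.fst a4
      have c2 := congrArg Prod.snd a4
      have c3 := congrArg Prod.fst b3
      have c4 := congrArg Prod.snd b3
      simp only [Prod.fst_add, Prod.snd_add, Prod.smul_fst, Prod.smul_snd, smul_eq_mul,
        Prod.fst_sub, Prod.snd_sub] at c1 c2 c3 c4
      ext
      · simp only [Prod.fst_add, Prod.smul_fst, smul_eq_mul, Prod.fst_sub, Prod.snd_sub]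
        linarith
      · simp only [Prod.snd_add, Prod.smul_snd, smul_eq_mul, Prod.fst_sub, Prod.snd_sub]
        linarith
    · simp only [mul_zero, zero_add, n1, s0, s1, sub_self]
    · have a1 := hn (1 + 1)
      have a2 : s 2 = p 2 := hsp 2 (by norm_num)
      rw [add_sub_cancel_right, n1, n2] at a1
      have c1 := congrArg Prod.fst a1
      have c2 := congrArg Prod.snd a1
      simp only [Prod.fst_add, Prod.snd_add, Prod.smul_fst, Prod.smul_snd, smul_eq_mul,
        Prod.fst_sub, Prod.snd_sub, mul_div_cancel₀ _ hκ2] at c1 c2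
      norm_num at c1 c2 ⊢
      rw [a2, s1, sub_eq_zero]
      ext
      · simp only
        linarith
      · simp only
        linarith
  obtain ⟨g, g0, g1, hg⟩ := exists_rec (V := ℝ) (2 * κ) (ε / (κ + 1)) 0 (ε / (κ + 1) / 2) 0
  simp only [smul_eq_mul, zero_add] at hg g1
  have hγ : 0 < ε / (κ + 1) := by positivity
  have hγε : ε / (κ + 1) * (κ + 1) = ε := div_mul_cancel₀ _ (by positivity)
  generalize ε / (κ + 1) = γ at hg g1 hγ hγε
  have gm : g (-1) = γ / 2 := by
    have := hg 0
    rw [zero_add, zero_sub, g0, g1] at this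
    linarith
  have g2 : g 2 = ε := by
    have := hg 1
    norm_num [g0, g1] at this
    linarith
  have hev : ∀ d, g (-d) = g d := fun d =>
    sub_eq_zero.1 (rec_zero (t := 2 * κ) (c0 := 0) (y := fun d => g (-d) - g d) (fun c => by
      have a1 := hg c
      have a2 := hg (-c)
      rw [show -(c + 1) = -c - 1 by ring, show -(c - 1) = -c + 1 by ring, smul_eq_mul]
      linarith) (by simp) (by simp [gm, g1]) d)
  have hv : ∀ (a : P) c, dot a (n (c + 1)) + dot a (n (c - 1)) = 2 * κ * dot a (n c) :=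
    fun a c => by
      simp only [dot]
      linear_combination a.1 * hn1 c + a.2 * hn2 c
  have hD : ∀ i c : ℤ, dot (s (i + 1)) (n c) + g (c - 2 * (i + 1)) =
      dot (s i) (n c) + g (c - 2 * i) := fun i c =>
    sub_eq_zero.1 (rec_zero (t := 2 * κ) (c0 := 2 * i + 1) (y := fun c =>
      dot (s (i + 1)) (n c) + g (c - 2 * (i + 1)) - (dot (s i) (n c) + g (c - 2 * i))) (fun c => by
      have a1 := hg (c - 2 * (i + 1))
      have a2 := hg (c - 2 * i)
      have a3 := hv (s (i + 1)) c
      have a4 := hv (s i) c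
      rw [show c + 1 - 2 * (i + 1) = c - 2 * (i + 1) + 1 by ring,
        show c - 1 - 2 * (i + 1) = c - 2 * (i + 1) - 1 by ring,
        show c + 1 - 2 * i = c - 2 * i + 1 by ring, show c - 1 - 2 * i = c - 2 * i - 1 by ring,
        smul_eq_mul]
      linarith) (by
      rw [show 2 * i + 1 - 2 * (i + 1) = -1 by ring, show 2 * i + 1 - 2 * i = 1 by ring, gm, g1,
        hodd]
      simp only [dot, Prod.fst_sub, Prod.snd_sub]
      ring) (by
      have a1 := hdet (2 * i + 1)
      rw [show 2 * i + 1 + 1 - 2 * (i + 1) = 0 by ring, show 2 * i + 1 + 1 - 2 * i = 2 by ring, g0,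
        g2]
      rw [hodd] at a1
      simp only [dot, det, Prod.fst_sub, Prod.snd_sub] at a1 ⊢
      linarith) c)
  have hp1 : ∀ i : ℤ, 0 ≤ i → i ≤ 15 → 0 < (n (2 * i + 1)).1 := fun i h0 h1 => by
    obtain ⟨k, rfl⟩ := Int.eq_ofNat_of_zero_le h0
    obtain ⟨e1, e2⟩ := hsp2 k (by omega)
    rw [hodd, e1, e2]
    exact sub_pos.2 (h.slope k (by omega))
  have hpos : ∀ c : ℤ, 1 ≤ c → c ≤ 31 → 0 < (n c).1 := fun c h0 h1 => by
    rcases Int.even_or_odd' c with ⟨i, rfl | rfl⟩
    · have a1 := hn1 (2 * i)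
      have a2 := hp1 i (by omega) (by omega)
      have a3 := hp1 (i - 1) (by omega) (by omega)
      rw [show 2 * (i - 1) + 1 = 2 * i - 1 by ring] at a3
      exact (mul_pos_iff_of_pos_left (show 0 < 2 * κ by positivity)).1 (by linarith)
    · exact hp1 i (by omega) (by omega)
  refine ⟨κ, n, s, fun c => dot (s 0) (n c) + g c, g, ⟨hκ, hn, fun c => hdet c ▸ hε⟩,
    ⟨hv, fun a b c e1 e2 => ?_, fun i c => ?_, hev, fun c d => ?_⟩, fun d h0 h1 => ?_, hsp,
    hpos 12 (by norm_num) (by norm_num)⟩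
  · have hd : (n c).1 * (n (c + 1)).2 - (n c).2 * (n (c + 1)).1 ≠ 0 := (hdet c).trans_ne hε.ne'
    simp only [dot] at e1 e2
    ext
    · exact mul_left_cancel₀ hd (by linear_combination (n (c + 1)).2 * e1 - (n c).2 * e2)
    · exact mul_left_cancel₀ hd (by linear_combination (n c).1 * e2 - (n (c + 1)).1 * e1)
  · have := const (F := fun i => dot (s i) (n c) + g (c - 2 * i)) (fun i => hD i c) i 0
    simp only [mul_zero, sub_zero] at this ⊢
    linarith
  · linarith [hv (s 0) c, hg c, hg d]
  · have key : γ * ((n (15 + d)).1 + (n (15 - d)).1) -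
        (2 * γ - 4 * (1 - κ) * g d) * (n 15).1 = 0 :=
      rec_zero (t := 2 * κ) (c0 := 0) (y := fun d => γ * ((n (15 + d)).1 + (n (15 - d)).1) -
        (2 * γ - 4 * (1 - κ) * g d) * (n 15).1) (fun c => by
        have a1 := hn1 (15 + c)
        have a2 := hn1 (15 - c)
        have a3 := hg c
        rw [show 15 + (c + 1) = 15 + c + 1 by ring, show 15 - (c + 1) = 15 - c - 1 by ring,
          show 15 + (c - 1) = 15 + c - 1 by ring, show 15 - (c - 1) = 15 - c + 1 by ring,
          smul_eq_mul]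
        linear_combination γ * a1 + γ * a2 + 4 * (1 - κ) * (n 15).1 * a3) (by
        simp only [add_zero, sub_zero, g0]
        ring) (by
        have a1 := hn1 15
        simp only [zero_add, g1]
        linear_combination γ * a1) d
    have a1 := mul_pos hγ (add_pos (hpos (15 + d) (by omega) (by omega))
      (hpos (15 - d) (by omega) (by omega)))
    have a2 := hpos 15 (by norm_num) (by norm_num)
    have a3 : 0 < 2 * γ - 4 * (1 - κ) * g d := by
      by_contra hn
      nlinarith [mul_nonneg (neg_nonneg.2 (not_lt.1 hn)) a2.le]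
    linarith [hg d]

end Pool.Agent.SimpArr.BV
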