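import Pool.Agent.P.MP_0b4c38_co.BVIface

/-! Shared lemmas on ranks and crossings. -/

set_option autoImplicit false

open Classical Real

namespace Pool.Agent.SimpArr.BV

namespace Lev

/-- A strict total order. -/
structure STO (R : P → P → Prop) : Prop where
  irrefl : ∀ a, ¬ R a a
  trans : ∀ a b c, R a b → R b c → R a c
  total : ∀ a b, a ≠ b → R a b ∨ R b a

/-- The number of elements above `a`. -/
noncomputable def rk (A : Finset P) (R : P → P → Prop) (a : P) : ℕ := (A.filter (R a)).card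

theorem rkP_eq (A : Finset P) (x : ℝ) (a : P) : rkP A x a = rk A (AbP x) a := rfl

theorem rkM_eq (A : Finset P) (x : ℝ) (a : P) : rkM A x a = rk A (AbM x) a := rfl

theorem eq_of_f {a b : P} {x : ℝ} (h : f a x = f b x) (h2 : a.2 = b.2) : a = b := by
  unfold f at h
  rw [h2] at h
  exact Prod.ext (by linarith) h2

theorem stoP (x : ℝ) : STO (AbP x) where
  irrefl a := by simp [AbP]
  trans a b c := by
    rintro (h | ⟨h, h'⟩) (k | ⟨k, k'⟩)
    · exact Or.inl (h.trans k)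
    · exact Or.inl (k ▸ h)
    · exact Or.inl (h ▸ k)
    · exact Or.inr ⟨h.trans k, h'.trans k'⟩
  total a b hab := by
    rcases lt_trichotomy (f a x) (f b x) with h | h | h
    · exact Or.inl (Or.inl h)
    · rcases lt_trichotomy a.2 b.2 with k | k | k
      · exact Or.inl (Or.inr ⟨h, k⟩)
      · exact absurd (eq_of_f h k) hab
      · exact Or.inr (Or.inr ⟨h.symm, k⟩)
    · exact Or.inr (Or.inl h)

theorem stoM (x : ℝ) : STO (AbM x) where
  irrefl a := by simp [AbM]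
  trans a b c := by
    rintro (h | ⟨h, h'⟩) (k | ⟨k, k'⟩)
    · exact Or.inl (h.trans k)
    · exact Or.inl (k ▸ h)
    · exact Or.inl (h ▸ k)
    · exact Or.inr ⟨h.trans k, k'.trans h'⟩
  total a b hab := by
    rcases lt_trichotomy (f a x) (f b x) with h | h | h
    · exact Or.inl (Or.inl h)
    · rcases lt_trichotomy a.2 b.2 with k | k | k
      · exact Or.inr (Or.inr ⟨h.symm, k⟩)
      · exact absurd (eq_of_f h k) hab
      · exact Or.inl (Or.inr ⟨h, k⟩)
    · exact Or.inr (Or.inl h)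

theorem AbP_le {x : ℝ} {a b : P} (h : AbP x a b) : f a x ≤ f b x := h.elim le_of_lt fun h => h.1.le

theorem AbM_le {x : ℝ} {a b : P} (h : AbM x a b) : f a x ≤ f b x := h.elim le_of_lt fun h => h.1.le

section order

variable {R : P → P → Prop} {A : Finset P}

theorem STO.asymm (h : STO R) {a b : P} (h1 : R a b) : ¬ R b a :=
  fun h2 => h.irrefl a (h.trans _ _ _ h1 h2)

theorem STO.rk_lt (h : STO R) {a b : P} (hb : b ∈ A) (hab : R a b) : rk A R b < rk A R a := by
  refine Finset.card_lt_card ⟨fun c hc => ?_, fun hs => ?_⟩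
  · obtain ⟨h1, h2⟩ := Finset.mem_filter.1 hc
    exact Finset.mem_filter.2 ⟨h1, h.trans _ _ _ hab h2⟩
  · exact h.irrefl b (Finset.mem_filter.1 (hs (Finset.mem_filter.2 ⟨hb, hab⟩))).2

theorem STO.rk_inj (h : STO R) {a b : P} (ha : a ∈ A) (hb : b ∈ A) (e : rk A R a = rk A R b) :
    a = b := by
  by_contra hne
  rcases h.total a b hne with k | k
  · exact (h.rk_lt hb k).ne' e
  · exact (h.rk_lt ha k).ne e

theorem STO.of_rk_lt (h : STO R) {a b : P} (ha : a ∈ A) (e : rk A R b < rk A R a) : R a b := by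
  have hne : a ≠ b := fun k => by rw [k] at e; exact lt_irrefl _ e
  exact (h.total a b hne).resolve_right fun k => lt_asymm e (h.rk_lt ha k)

theorem STO.of_rk_le (h : STO R) {a b : P} (ha : a ∈ A) (e : rk A R b ≤ rk A R a) :
    a = b ∨ R a b := by
  by_cases hne : a = b
  · exact Or.inl hne
  · exact Or.inr ((h.total a b hne).resolve_right fun k => absurd (h.rk_lt ha k) (not_lt.2 e))

theorem STO.rk_lt_card (h : STO R) {a : P} (ha : a ∈ A) : rk A R a < A.card :=
  Finset.card_lt_card ⟨Finset.filter_subset _ _,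
    fun hs => h.irrefl a (Finset.mem_filter.1 (hs ha)).2⟩

theorem STO.image_rk (h : STO R) : A.image (rk A R) = Finset.range A.card := by
  refine Finset.eq_of_subset_of_card_le (fun k hk => ?_) ?_
  · obtain ⟨a, ha, rfl⟩ := Finset.mem_image.1 hk
    exact Finset.mem_range.2 (h.rk_lt_card ha)
  · rw [Finset.card_range, Finset.card_image_of_injOn fun a ha b hb e => h.rk_inj ha hb e]

theorem STO.exists_rk (h : STO R) {k : ℕ} (hk : k < A.card) : ∃ a ∈ A, rk A R a = k := by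
  have : k ∈ A.image (rk A R) := by rw [h.image_rk]; exact Finset.mem_range.2 hk
  exact Finset.mem_image.1 this

theorem STO.card_top (h : STO R) (k : ℕ) :
    (A.filter (fun a => rk A R a ≤ k)).card = min (k + 1) A.card := by
  rw [← Finset.card_image_of_injOn (f := rk A R) fun a ha b hb e =>
    h.rk_inj (Finset.mem_filter.1 ha).1 (Finset.mem_filter.1 hb).1 e, ← Finset.card_range (min _ _)]
  congr 1
  ext j
  simp only [Finset.mem_image, Finset.mem_filter, Finset.mem_range, lt_min_iff]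
  constructor
  · rintro ⟨a, ⟨ha, h1⟩, rfl⟩
    exact ⟨Nat.lt_succ_of_le h1, h.rk_lt_card ha⟩
  · rintro ⟨h1, h2⟩
    obtain ⟨a, ha, rfl⟩ := h.exists_rk h2
    exact ⟨a, ⟨ha, Nat.le_of_lt_succ h1⟩, rfl⟩

end order

theorem f_sub (a : P) (x y : ℝ) : f a y = f a x + a.2 * (y - x) := by
  unfold f
  ring

theorem tie_slope {a b : P} {x : ℝ} (hab : a ≠ b) (h : f a x = f b x) : a.2 ≠ b.2 :=
  fun k => hab (eq_of_f h k)

theorem eq_of_two {a b : P} {x y : ℝ} (hxy : x ≠ y) (h : f a x = f b x) (k : f a y = f b y) :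
    a = b := by
  rw [f_sub a x y, f_sub b x y, h] at k
  exact eq_of_f h (mul_right_cancel₀ (sub_ne_zero.2 hxy.symm) (add_left_cancel k))

theorem tie_mem_Ev {A : Finset P} {a b : P} {x : ℝ} (ha : a ∈ A) (hb : b ∈ A) (hab : a ≠ b)
    (h : f a x = f b x) : x ∈ Ev A := by
  have hs := tie_slope hab h
  refine Finset.mem_image.2 ⟨(a, b), Finset.mem_filter.2 ⟨Finset.mem_product.2 ⟨ha, hb⟩, hs⟩, ?_⟩
  rw [div_eq_iff (sub_ne_zero.2 hs)]
  unfold f at h
  linarith

/-- After a tie the wire of larger slope is higher. -/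
theorem lt_after {a b : P} {x y : ℝ} (h : f a x = f b x) (hs : a.2 < b.2) (hxy : x < y) :
    f a y < f b y := by
  rw [f_sub a x y, f_sub b x y, h]
  nlinarith [mul_pos (sub_pos.2 hs) (sub_pos.2 hxy)]

/-- Before a tie the wire of smaller slope is higher. -/
theorem lt_before {a b : P} {x y : ℝ} (h : f a x = f b x) (hs : b.2 < a.2) (hxy : y < x) :
    f a y < f b y := by
  rw [f_sub a x y, f_sub b x y, h]
  nlinarith [mul_pos (sub_pos.2 hs) (sub_pos.2 hxy)]

theorem exists_tie {a b : P} {x y : ℝ} (hxy : y < x) (h1 : f a y < f b y) (h2 : f b x < f a x) :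
    ∃ t, y < t ∧ t < x ∧ f a t = f b t := by
  have hs : 0 < a.2 - b.2 := by
    rw [f_sub a y x, f_sub b y x] at h2
    by_contra hn
    nlinarith [mul_nonneg (neg_nonneg.2 (not_lt.1 hn)) (sub_pos.2 hxy).le]
  refine ⟨y + (f b y - f a y) / (a.2 - b.2), ?_, ?_, ?_⟩
  · linarith [div_pos (sub_pos.2 h1) hs]
  · rw [← lt_sub_iff_add_lt', div_lt_iff₀ hs]
    rw [f_sub a y x, f_sub b y x] at h2
    linarith
  · rw [f_sub a y, f_sub b y (y + _), add_sub_cancel_left]
    field_simp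
    ring

theorem pair_imp {a b : P} {x y : ℝ} (hxy : y < x)
    (h : ∀ t, y < t → t < x → f a t ≠ f b t) (h1 : AbP y a b) : AbM x a b := by
  rcases h1 with h1 | ⟨h1, h2⟩
  · rcases lt_trichotomy (f a x) (f b x) with k | k | k
    · exact Or.inl k
    · refine Or.inr ⟨k, ?_⟩
      by_contra hn
      rw [f_sub a x y, f_sub b x y, k] at h1
      nlinarith [mul_nonneg (sub_nonneg.2 (not_lt.1 hn)) (sub_pos.2 hxy).le]
    · obtain ⟨t, t1, t2, t3⟩ := exists_tie hxy h1 k
      exact absurd t3 (h t t1 t2)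
  · exact Or.inl (lt_after h1 h2 hxy)

/-- The pair lemma. -/
theorem pair {a b : P} {x y : ℝ} (hxy : y < x)
    (h : a ≠ b → ∀ t, y < t → t < x → f a t ≠ f b t) : AbP y a b ↔ AbM x a b := by
  by_cases hab : a = b
  · rw [hab]
    exact iff_of_false ((stoP y).irrefl b) ((stoM x).irrefl b)
  · refine ⟨pair_imp hxy (h hab), fun k => ((stoP y).total a b hab).resolve_right fun k' => ?_⟩
    exact (stoM x).asymm k (pair_imp hxy (fun t t1 t2 => (h hab t t1 t2).symm) k')

theorem abP_iff_abM {a b : P} {x : ℝ} (h : a ≠ b → f a x ≠ f b x) : AbP x a b ↔ AbM x a b := by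
  by_cases hab : a = b
  · rw [hab]
    exact iff_of_false ((stoP x).irrefl b) ((stoM x).irrefl b)
  · simp [AbP, AbM, h hab]

theorem rkM_eq_rkP_of_pair {A : Finset P} {a : P} {x y : ℝ} (hxy : y < x)
    (h : ∀ b ∈ A, a ≠ b → ∀ t, y < t → t < x → f a t ≠ f b t) : rkM A x a = rkP A y a := by
  unfold rkM rkP
  rw [Finset.filter_congr fun b hb => pair hxy (h b hb)]

theorem rkM_eq_rkP {A : Finset P} {a : P} {x y : ℝ} (ha : a ∈ A) (hxy : y < x)
    (h : ∀ t ∈ Ev A, ¬ (y < t ∧ t < x)) : rkM A x a = rkP A y a :=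
  rkM_eq_rkP_of_pair hxy fun _ hb hab t t1 t2 e => h t (tie_mem_Ev ha hb hab e) ⟨t1, t2⟩

theorem rkP_eq_rkM {A : Finset P} {a : P} {x : ℝ} (ha : a ∈ A) (h : x ∉ Ev A) :
    rkP A x a = rkM A x a := by
  unfold rkM rkP
  rw [Finset.filter_congr fun b hb => abP_iff_abM fun hab e => h (tie_mem_Ev ha hb hab e)]

theorem exists_prev (E : Finset ℝ) {lo x : ℝ} (h : lo < x) :
    ∃ y, lo ≤ y ∧ y < x ∧ (y = lo ∨ y ∈ E) ∧ ∀ t ∈ E, ¬ (y < t ∧ t < x) := by
  obtain ⟨y, hy, hm⟩ := (insert lo (E.filter (fun t => lo < t ∧ t < x))).exists_max_image id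
    (Finset.insert_nonempty _ _)
  have hlo : lo ≤ y := hm lo (Finset.mem_insert_self _ _)
  refine ⟨y, hlo, ?_, ?_, fun t ht k => ?_⟩
  · rcases Finset.mem_insert.1 hy with rfl | k
    · exact h
    · exact (Finset.mem_filter.1 k).2.2
  · exact (Finset.mem_insert.1 hy).imp id fun k => (Finset.mem_filter.1 k).1
  · exact absurd (hm t (Finset.mem_insert_of_mem
      (Finset.mem_filter.2 ⟨ht, hlo.trans_lt k.1, k.2⟩))) (not_le.2 k.1)

theorem exists_next (E : Finset ℝ) {x hi : ℝ} (h : x < hi) :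
    ∃ y, x < y ∧ y ≤ hi ∧ (y = hi ∨ y ∈ E) ∧ ∀ t ∈ E, ¬ (x < t ∧ t < y) := by
  obtain ⟨y, hy, hm⟩ := (insert hi (E.filter (fun t => x < t ∧ t < hi))).exists_min_image id
    (Finset.insert_nonempty _ _)
  have hhi : y ≤ hi := hm hi (Finset.mem_insert_self _ _)
  refine ⟨y, ?_, hhi, ?_, fun t ht k => ?_⟩
  · rcases Finset.mem_insert.1 hy with rfl | k
    · exact h
    · exact (Finset.mem_filter.1 k).2.1
  · exact (Finset.mem_insert.1 hy).imp id fun k => (Finset.mem_filter.1 k).1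
  · exact absurd (hm t (Finset.mem_insert_of_mem
      (Finset.mem_filter.2 ⟨ht, k.1, k.2.trans_le hhi⟩))) (not_le.2 k.2)

theorem mem_WS_of_rkP {A : Finset P} {lo hi x : ℝ} {J : ℕ} {g : P} (hg : g ∈ A) (h1 : lo ≤ x)
    (h2 : x < hi) (h : rkP A x g ≤ J) : g ∈ WS A lo hi J :=
  Finset.mem_filter.2 ⟨hg, x, h1, h2, h⟩

theorem mem_WS_of_rkM {A : Finset P} {lo hi x : ℝ} {J : ℕ} {g : P} (hg : g ∈ A) (h1 : lo < x)
    (h2 : x ≤ hi) (h : rkM A x g ≤ J) : g ∈ WS A lo hi J := by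
  obtain ⟨y, y1, y2, -, y4⟩ := exists_prev (Ev A) h1
  exact mem_WS_of_rkP hg y1 (y2.trans_le h2) (rkM_eq_rkP hg y2 y4 ▸ h)

/-- A generic point just to the right of `x`. -/
theorem exists_right (A : Finset P) {x hi : ℝ} (h : x < hi) :
    ∃ y, x < y ∧ y < hi ∧ y ∉ Ev A ∧ ∀ a ∈ A, ∀ b ∈ A, (AbP x a b ↔ f a y < f b y) := by
  obtain ⟨z, z1, z2, -, z4⟩ := exists_next (Ev A) h
  have y1 : x < (x + z) / 2 := by linarith
  have y2 : (x + z) / 2 < z := by linarith
  have hy : (x + z) / 2 ∉ Ev A := fun k => z4 _ k ⟨y1, y2⟩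
  refine ⟨(x + z) / 2, y1, y2.trans_le z2, hy, fun a ha b hb => ?_⟩
  rw [pair y1 fun hab t t1 t2 e => z4 t (tie_mem_Ev ha hb hab e) ⟨t1, t2.trans y2⟩]
  refine ⟨fun k => k.elim id fun k' => ?_, Or.inl⟩
  exact absurd (tie_mem_Ev ha hb (fun e => by rw [e] at k'; exact lt_irrefl _ k'.2) k'.1) hy

/-- The bad crossings of `a` at `x`. -/
noncomputable def bad (A : Finset P) (xa : P → ℝ) (a : P) (x : ℝ) : Finset P :=
  A.filter (fun b => f b x = f a x ∧ ((xa a < x ∧ b.2 < a.2) ∨ (x ≤ xa a ∧ a.2 < b.2)))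

theorem abP_of_over {a b : P} {x y : ℝ} (h : f b x = f a x) (h1 : y < x) (h2 : b.2 < a.2) :
    AbP y a b := Or.inl (lt_before h.symm h2 h1)

theorem abP_of_under {a b : P} {x y : ℝ} (h : f b x = f a x) (h1 : x ≤ y) (h2 : a.2 < b.2) :
    AbP y a b := by
  rcases h1.lt_or_eq with h1 | rfl
  · exact Or.inl (lt_after h.symm h2 h1)
  · exact Or.inr ⟨h.symm, h2⟩

theorem bad_sub (A : Finset P) (xa : P → ℝ) (a : P) (x : ℝ) :
    bad A xa a x ⊆ A.filter (AbP (xa a) a) := by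
  intro b hb
  obtain ⟨hb, h, ⟨h1, h2⟩ | ⟨h1, h2⟩⟩ := Finset.mem_filter.1 hb
  · exact Finset.mem_filter.2 ⟨hb, abP_of_over h h1 h2⟩
  · exact Finset.mem_filter.2 ⟨hb, abP_of_under h h1 h2⟩

theorem sum_bad_le (A : Finset P) (xa : P → ℝ) (a : P) (E : Finset ℝ) :
    ∑ x ∈ E, (bad A xa a x).card ≤ rkP A (xa a) a := by
  rw [← Finset.card_biUnion]
  · exact Finset.card_le_card (Finset.biUnion_subset.2 fun x _ => bad_sub A xa a x)
  · intro x _ y _ hxy
    refine Finset.disjoint_left.2 fun b hb hb' => ?_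
    obtain ⟨-, h, h'⟩ := Finset.mem_filter.1 hb
    obtain ⟨-, k, -⟩ := Finset.mem_filter.1 hb'
    have := eq_of_two hxy h k
    rw [this] at h'
    rcases h' with h' | h' <;> exact lt_irrefl _ h'.2

/-- At a pinch the wires of rank `k` and `k + 1` have the same height, in both orders. -/
theorem pinch_height {A : Finset P} {k : ℕ} {x : ℝ} (h : Pinch A k x) :
    k + 1 < A.card ∧ ∃ v, ∀ g ∈ A, (rkP A x g = k ∨ rkP A x g = k + 1 ∨ rkM A x g = k ∨
      rkM A x g = k + 1) → f g x = v := by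
  obtain ⟨a, ha, h1, h2⟩ := h
  have hk : k + 1 < A.card := lt_of_le_of_lt h2 ((stoM x).rk_lt_card ha)
  obtain ⟨b, hb, k1, k2⟩ : ∃ b ∈ A, rkM A x b ≤ k ∧ k < rkP A x b := by
    by_contra hn
    push Not at hn
    have hsub : A.filter (fun b => rk A (AbM x) b ≤ k) ⊆ A.filter (fun b => rk A (AbP x) b ≤ k) :=
      fun b hb => Finset.mem_filter.2 ⟨(Finset.mem_filter.1 hb).1,
        hn b (Finset.mem_filter.1 hb).1 (Finset.mem_filter.1 hb).2⟩
    have := Finset.eq_of_subset_of_card_le hsub (by rw [(stoP x).card_top, (stoM x).card_top])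
    have h3 : a ∈ A.filter (fun b => rk A (AbM x) b ≤ k) := by
      rw [this]
      exact Finset.mem_filter.2 ⟨ha, h1⟩
    exact absurd (Finset.mem_filter.1 h3).2 (not_le.2 h2)
  have e1 : f b x ≤ f a x := AbP_le ((stoP x).of_rk_lt hb (h1.trans_lt k2))
  have e2 : f a x ≤ f b x := AbM_le ((stoM x).of_rk_lt ha (k1.trans_lt h2))
  have leP : ∀ c ∈ A, ∀ c', rkP A x c' ≤ rkP A x c → f c x ≤ f c' x := fun c hc c' e =>
    ((stoP x).of_rk_le hc e).elim (fun e' => e' ▸ le_rfl) AbP_le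
  have leM : ∀ c ∈ A, ∀ c', rkM A x c' ≤ rkM A x c → f c x ≤ f c' x := fun c hc c' e =>
    ((stoM x).of_rk_le hc e).elim (fun e' => e' ▸ le_rfl) AbM_le
  refine ⟨hk, f a x, fun g hg hr => ?_⟩
  rcases hr with hr | hr | hr | hr
  · exact le_antisymm (leP g hg a (by omega)) (e2.trans (leP b hb g (by omega)))
  · exact le_antisymm (leP g hg a (by omega)) (e2.trans (leP b hb g (by omega)))
  · exact le_antisymm ((leM g hg b (by omega)).trans e1) (leM a ha g (by omega))
  · exact le_antisymm ((leM g hg b (by omega)).trans e1) (leM a ha g (by omega))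

end Lev

end Pool.Agent.SimpArr.BV
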