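import Pool.Agent.P.MP_0b4c38_co.BVIface

/-! The step from one ray to the next. -/

set_option autoImplicit false

open Classical Real

namespace Pool.Agent.SimpArr.BV

namespace Step

theorem g_abs {g : ℤ → ℝ} (he : ∀ d, g (-d) = g d) (d : ℤ) : g |d| = g d := by
  rcases abs_choice d with h | h
  · rw [h]
  · rw [h, he]

theorem g_lt {g : ℤ → ℝ} {D : ℤ} (he : ∀ d, g (-d) = g d) (hm : Mono g D) {x y : ℤ}
    (h : |x| < |y|) (hy : |y| ≤ D) : g x < g y := by
  rw [← g_abs he x, ← g_abs he y]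
  exact hm _ _ (abs_nonneg _) h hy

theorem g_le {g : ℤ → ℝ} {D : ℤ} (he : ∀ d, g (-d) = g d) (hm : Mono g D) {x y : ℤ}
    (h : |x| ≤ |y|) (hy : |y| ≤ D) : g x ≤ g y := by
  rcases h.lt_or_eq with h | h
  · exact (g_lt he hm h hy).le
  · rw [← g_abs he x, ← g_abs he y, h]

theorem exists_lexmax (L : Finset P) (hL : L.Nonempty) (α β : P → ℝ) :
    ∃ b ∈ L, (∀ x ∈ L, α x ≤ α b) ∧ ∀ x ∈ L, α x = α b → β x ≤ β b := by
  obtain ⟨b1, hb1, h1⟩ := L.exists_max_image α hL
  obtain ⟨b, hb, h2⟩ := (L.filter (fun x => α x = α b1)).exists_max_image β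
    ⟨b1, Finset.mem_filter.2 ⟨hb1, rfl⟩⟩
  obtain ⟨hbL, hbe⟩ := Finset.mem_filter.1 hb
  exact ⟨b, hbL, fun x hx => hbe ▸ h1 x hx,
    fun x hx h => h2 x (Finset.mem_filter.2 ⟨hx, h.trans hbe⟩)⟩

theorem mix_one (α β : P → ℝ) (a : P) : mix α β a 1 = β a := by simp [mix]

theorem mix_lt_left {α β : P → ℝ} {a b : P} {t : ℝ} (h0 : 0 ≤ t) (h1 : t < 1) (ha : α a < α b)
    (hb : β a ≤ β b) : mix α β a t < mix α β b t := by
  unfold mix
  nlinarith [mul_pos (sub_pos.2 h1) (sub_pos.2 ha), mul_nonneg h0 (sub_nonneg.2 hb)]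

theorem mix_lt_right {α β : P → ℝ} {a b : P} {t : ℝ} (h0 : 0 < t) (h1 : t ≤ 1) (ha : α a ≤ α b)
    (hb : β a < β b) : mix α β a t < mix α β b t := by
  unfold mix
  nlinarith [mul_pos h0 (sub_pos.2 hb), mul_nonneg (sub_nonneg.2 h1) (sub_nonneg.2 ha)]

theorem beta_lt {α β : P → ℝ} {a b : P} {t : ℝ} (h0 : 0 ≤ t) (h1 : t < 1) (ha : α b < α a)
    (h : mix α β a t = mix α β b t) : β a < β b := by
  by_contra hn
  exact absurd h (mix_lt_left h0 h1 ha (not_lt.1 hn)).ne'

end Step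

open Step

theorem t_Step : S_Step := by
  intro A κ val s lam g c d i0 hL hm hd hc hloc hJ
  set α : P → ℝ := fun a => val a c with hα
  set β : P → ℝ := fun a => val a (c + 1) with hβ
  have he := hL.even
  have hαs : ∀ l, α (s l) = lam c - g (c - 2 * l) := fun l => hL.sval l c
  have hβs : ∀ l, β (s l) = lam (c + 1) - g (c + 1 - 2 * l) := fun l => hL.sval l (c + 1)
  have hdabs : |d| = d := abs_of_nonneg (by omega)
  have hd1 : |d + 1| = d + 1 := abs_of_nonneg (by omega)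
  have hdm : |d - 1| = d - 1 := abs_of_nonneg (by omega)
  have hmem : ∀ l, i0 ≤ l → l ≤ i0 + d → s l ∈ A := fun l h1 h2 =>
    hJ.1 l (abs_le.2 ⟨by omega, by omega⟩)
  have hcl : ∀ x ∈ A, (∃ l, i0 ≤ l ∧ l ≤ i0 + d ∧ x = s l) ∨ α x < lam c - g d := by
    intro x hx
    by_cases h : ∃ l, i0 ≤ l ∧ l ≤ i0 + d ∧ x = s l
    · exact Or.inl h
    · refine Or.inr (hJ.2 x hx fun i hi hxi => h ⟨i, ?_, ?_, hxi⟩) <;>
        obtain ⟨h1, h2⟩ := abs_le.1 hi <;> omega
  have ha0 : α (s i0) = lam c - g d := by rw [hαs, hc]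
  have hb0 : β (s i0) = lam (c + 1) - g (d + 1) := by
    rw [hβs, show c + 1 - 2 * i0 = d + 1 by omega]
  have haj : α (s (i0 + d)) = lam c - g d := by
    rw [hαs, show c - 2 * (i0 + d) = -d by omega, he]
  have hbj : β (s (i0 + d)) = lam (c + 1) - g (d - 1) := by
    rw [hβs, show c + 1 - 2 * (i0 + d) = -(d - 1) by omega, he]
  have hαge : ∀ l, i0 ≤ l → l ≤ i0 + d → lam c - g d ≤ α (s l) := fun l h1 h2 => by
    rw [hαs]
    have := g_le he hm (x := c - 2 * l) (y := d)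
      (by rw [hdabs]; exact abs_le.2 ⟨by omega, by omega⟩) (by rw [hdabs]; omega)
    linarith
  have hαgt : ∀ l, i0 < l → l < i0 + d → lam c - g d < α (s l) := fun l h1 h2 => by
    rw [hαs]
    have := g_lt he hm (x := c - 2 * l) (y := d)
      (by rw [hdabs]; exact abs_lt.2 ⟨by omega, by omega⟩) (by rw [hdabs]; omega)
    linarith
  have hβge : ∀ l, i0 < l → l ≤ i0 + d → lam (c + 1) - g (d - 1) ≤ β (s l) := fun l h1 h2 => by
    rw [hβs]
    have := g_le he hm (x := c + 1 - 2 * l) (y := d - 1)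
      (by rw [hdm]; exact abs_le.2 ⟨by omega, by omega⟩) (by rw [hdm]; omega)
    linarith
  have hgd : g (d - 1) < g (d + 1) := hm _ _ (by omega) (by omega) le_rfl
  have hβgt : ∀ l, i0 < l → l ≤ i0 + d → β (s i0) < β (s l) := fun l h1 h2 => by
    have := hβge l h1 h2
    linarith
  have hK1 : (∀ x ∈ A, α x < lam c - g d → β x ≤ lam (c + 1) - g (d + 1)) →
      KK A val s lam g (c + 1) (d + 1) := by
    intro h
    refine ⟨fun i h1 h2 => hmem i (by omega) (by omega), fun x hx hne => ?_⟩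
    rcases hcl x hx with ⟨l, h1, h2, rfl⟩ | h'
    · exact absurd rfl (hne l (by omega) (by omega))
    · exact h x hx h'
  by_cases hlow : (A.filter (fun x => α x < lam c - g d)).Nonempty
  swap
  · have hno : ∀ x ∈ A, ¬ α x < lam c - g d := fun x hx h =>
      hlow ⟨x, Finset.mem_filter.2 ⟨hx, h⟩⟩
    exact Or.inl ⟨hK1 fun x hx h => absurd h (hno x hx), fun x hx h => absurd h (hno x hx)⟩
  obtain ⟨b, hb, hbα, hbβ⟩ := exists_lexmax _ hlow α β
  obtain ⟨hbA, hbl⟩ := Finset.mem_filter.1 hb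
  have ha0A : s i0 ∈ A := hmem i0 le_rfl (by omega)
  have hjA : s (i0 + d) ∈ A := hmem _ (by omega) le_rfl
  obtain ⟨t, ht0, ht1, htie, -, hlo⟩ := hloc.edge (s i0) ha0A b hbA (by rw [ha0]; exact hbl)
    (fun x hx => by
      rcases hcl x hx with ⟨l, h1, h2, rfl⟩ | h'
      · exact Or.inl (by rw [ha0]; exact hαge l h1 h2)
      · exact Or.inr (hbα x (Finset.mem_filter.2 ⟨hx, h'⟩)))
    (fun x hx h => by
      rcases hcl x hx with ⟨l, h1, h2, rfl⟩ | h'
      · rcases h1.lt_or_eq with h1 | rfl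
        · exact (hβgt l h1 h2).le
        · exact le_rfl
      · rw [h, ha0] at h'
        exact absurd h' (lt_irrefl _))
    (fun x hx h => hbβ x (Finset.mem_filter.2 ⟨hx, by rw [h]; exact hbl⟩) h)
  have hlo' : ∀ x ∈ A, α x < lam c - g d → mix α β x t ≤ mix α β (s i0) t := fun x hx h =>
    hlo x hx (hbα x (Finset.mem_filter.2 ⟨hx, h⟩))
  rcases ht1.lt_or_eq with ht1 | rfl
  swap
  · refine Or.inl ⟨hK1 fun x hx h => ?_, fun x hx h => ⟨b, hbA, ?_, hbl, ?_⟩⟩
    · have := hlo' x hx h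
      rwa [mix_one, mix_one, hb0] at this
    · exact hbα x (Finset.mem_filter.2 ⟨hx, h⟩)
    · rw [mix_one, mix_one, hb0] at htie
      exact htie.symm
  have hup : ∀ l, i0 < l → l ≤ i0 + d → mix α β (s i0) t < mix α β (s l) t := fun l h1 h2 =>
    mix_lt_right ht0 ht1.le (by rw [ha0]; exact hαge l h1.le h2) (hβgt l h1 h2)
  obtain ⟨b', hb', hb'β⟩ := (A.filter (fun x => mix α β x t = mix α β (s i0) t)).exists_max_image β
    ⟨b, Finset.mem_filter.2 ⟨hbA, htie.symm⟩⟩
  obtain ⟨hb'A, hb't⟩ := Finset.mem_filter.1 hb'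
  have hbb : β (s i0) < β b := beta_lt ht0.le ht1 (by rw [ha0]; exact hbl) htie
  have hne : s i0 ≠ b' := fun h => by
    have := hb'β b (Finset.mem_filter.2 ⟨hbA, htie.symm⟩)
    rw [← h] at this
    exact absurd hbb (not_lt.2 this)
  have hb'l : α b' < lam c - g d := by
    rcases hcl b' hb'A with ⟨l, h1, h2, rfl⟩ | h'
    · rcases h1.lt_or_eq with h1 | rfl
      · exact absurd hb't (hup l h1 h2).ne'
      · exact absurd rfl hne
    · exact h'
  obtain ⟨w, hwA, p, q, hp0, hpt, htq, hq1, hwt, hwp, hwq, -, hlow2⟩ :=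
    hloc.bottom t ht0 ht1 (s i0) ha0A b' hb'A hne hb't.symm (fun x hx h => by
      refine ⟨?_, hb'β x (Finset.mem_filter.2 ⟨hx, h⟩)⟩
      rcases hcl x hx with ⟨l, h1, h2, rfl⟩ | h'
      · rcases h1.lt_or_eq with h1 | rfl
        · exact absurd h (hup l h1 h2).ne'
        · exact le_rfl
      · rw [ha0]
        exact h'.le)
  have hw : w = s (i0 + d) := by
    rcases hcl w hwA with ⟨l, h1, h2, rfl⟩ | h'
    · rcases h1.lt_or_eq with h1 | rfl
      · rcases h2.lt_or_eq with h2 | rfl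
        · exact absurd hwp (mix_lt_left hp0 (hpt.trans ht1) (by rw [ha0]; exact hαgt l h1 h2)
            (hβgt l h1 h2.le).le).ne'
        · rfl
      · exact absurd hwt (lt_irrefl _)
    · exact absurd hwt (not_lt.2 (hlo' w hwA h'))
  subst hw
  rcases hq1.lt_or_eq with hq1 | rfl
  · exfalso
    have hq0 : 0 < q := ht0.trans htq
    have hin : ∀ l, i0 < l → l < i0 + d → ∀ y, 0 ≤ y → y < 1 →
        mix α β (s (i0 + d)) y < mix α β (s l) y := fun l h1 h2 y hy0 hy1 =>
      mix_lt_left hy0 hy1 (by rw [haj]; exact hαgt l h1 h2) (by rw [hbj]; exact hβge l h1 h2.le)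
    obtain ⟨b2, hb2, hb2β⟩ :=
      (A.filter (fun x => mix α β x q = mix α β (s (i0 + d)) q)).exists_max_image β
        ⟨b', Finset.mem_filter.2 ⟨hb'A, hwq.symm⟩⟩
    obtain ⟨hb2A, hb2q⟩ := Finset.mem_filter.1 hb2
    have hbb2 : β (s (i0 + d)) < β b' := beta_lt hq0.le hq1 (by rw [haj]; exact hb'l) hwq
    have hne2 : s (i0 + d) ≠ b2 := fun h => by
      have := hb2β b' (Finset.mem_filter.2 ⟨hb'A, hwq.symm⟩)
      rw [← h] at this
      exact absurd hbb2 (not_lt.2 this)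
    obtain ⟨w, hwA, p', q', hp0', hpq', -, -, hwq', hwp', -, -, -⟩ :=
      hloc.bottom q hq0 hq1 (s (i0 + d)) hjA b2 hb2A hne2 hb2q.symm (fun x hx h => by
        refine ⟨?_, hb2β x (Finset.mem_filter.2 ⟨hx, h⟩)⟩
        rcases hcl x hx with ⟨l, h1, h2, rfl⟩ | h'
        · rcases h1.lt_or_eq with h1 | rfl
          · rcases h2.lt_or_eq with h2 | rfl
            · exact absurd h (hin l h1 h2 q hq0.le hq1).ne'
            · exact le_rfl
          · rw [ha0, haj]
        · rw [haj]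
          exact h'.le)
    rcases hcl w hwA with ⟨l, h1, h2, rfl⟩ | h'
    · rcases h1.lt_or_eq with h1 | rfl
      · rcases h2.lt_or_eq with h2 | rfl
        · exact absurd hwp' (hin l h1 h2 p' hp0' (hpq'.trans hq1)).ne'
        · exact absurd hwq' (lt_irrefl _)
      · have := (hlow2 _ ha0A le_rfl).2
        rw [← hwq] at this
        exact absurd hwq' (not_lt.2 this)
    · have := (hlow2 w hwA (hlo' w hwA h')).2
      rw [← hwq] at this
      exact absurd hwq' (not_lt.2 this)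
  · rw [mix_one, mix_one, hbj] at hwq
    refine Or.inr ⟨⟨fun i h1 h2 => hmem i (by omega) (by omega), fun x hx hn => ?_⟩,
      b', hb'A, hb'l, hwq.symm⟩
    have key : mix α β x t ≤ mix α β (s i0) t → val x (c + 1) ≤ lam (c + 1) - g (d - 1) := by
      intro h
      have := (hlow2 x hx h).2
      rwa [mix_one, mix_one, ← hwq] at this
    rcases hcl x hx with ⟨l, h1, h2, rfl⟩ | h'
    · rcases h1.lt_or_eq with h1 | rfl
      · rcases h2.lt_or_eq with h2 | rfl
        · exact absurd rfl (hn l (by omega) (by omega))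
        · exact hbj.le
      · exact key le_rfl
    · exact key (hlo' x hx h')

end Pool.Agent.SimpArr.BV
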