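import Pool.Agent.P.MP_0b4c38_co.Defs

/-! Simplicial root systems: chambers, minors and the lifting lemma. -/

set_option autoImplicit false

open Classical

namespace Pool.Agent.SimpArr

variable {V : Type} [AddCommGroup V] [Module ℝ V] {ι : Type}
variable {R : Set V} {S : Finset ι} {κ : Fam ι V}

theorem IsCh.x_self (h : IsCh R S κ) {i : ι} (hi : i ∈ S) : κ.x i (κ.B i) = 1 := by
  simpa using h.dual i hi i hi

theorem IsCh.x_ne (h : IsCh R S κ) {i j : ι} (hi : i ∈ S) (hj : j ∈ S) (hij : i ≠ j) :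
    κ.x i (κ.B j) = 0 := by
  simpa [hij] using h.dual i hi j hj

theorem IsCh.nonneg (h : IsCh R S κ) {ρ : V} (hρ : ρ ∈ R) {i : ι} (hi : i ∈ S)
    (hp : 0 < κ.x i ρ) : ∀ j ∈ S, 0 ≤ κ.x j ρ := by
  rcases h.sign ρ hρ with h1 | h1
  · exact h1
  · exact absurd (h1 i hi) (not_le.mpr hp)

theorem IsCh.nonpos (h : IsCh R S κ) {ρ : V} (hρ : ρ ∈ R) {i : ι} (hi : i ∈ S)
    (hp : κ.x i ρ < 0) : ∀ j ∈ S, κ.x j ρ ≤ 0 := by
  rcases h.sign ρ hρ with h1 | h1
  · exact absurd (h1 i hi) (not_le.mpr hp)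
  · exact h1

theorem IsCh.x_sum (h : IsCh R S κ) {Z : Finset ι} (hZ : Z ⊆ S) (d : ι → ℝ) {i : ι}
    (hi : i ∈ S) : κ.x i (∑ j ∈ Z, d j • κ.B j) = if i ∈ Z then d i else 0 := by
  rw [map_sum]
  have : ∀ j ∈ Z, κ.x i (d j • κ.B j) = if i = j then d j else 0 := by
    intro j hj
    rw [map_smul, h.dual i hi j (hZ hj)]
    split_ifs <;> simp
  rw [Finset.sum_congr rfl this, Finset.sum_ite_eq]

theorem IsCh.eq_of_x (h : IsCh R S κ) {ρ ρ' : V} (hρ : ρ ∈ R) (hρ' : ρ' ∈ R)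
    (hx : ∀ i ∈ S, κ.x i ρ = κ.x i ρ') : ρ = ρ' := by
  rw [h.repr ρ hρ, h.repr ρ' hρ']
  exact Finset.sum_congr rfl fun i hi => by rw [hx i hi]

/-- A vector of the span of the roots is determined by its coordinates. -/
theorem IsCh.repr_span (h : IsCh R S κ) {v : V} (hv : v ∈ Submodule.span ℝ R) :
    v = ∑ i ∈ S, κ.x i v • κ.B i := by
  induction hv using Submodule.span_induction with
  | mem v hv => exact h.repr v hv
  | zero => simp
  | add u w _ _ hu hw =>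
    simp only [map_add, add_smul, Finset.sum_add_distrib]
    rw [← hu, ← hw]
  | smul c u _ hu =>
    simp only [map_smul, smul_eq_mul, mul_smul, ← Finset.smul_sum]
    rw [← hu]

theorem IsCh.eq_of_x_span (h : IsCh R S κ) {ρ ρ' : V} (hρ : ρ ∈ Submodule.span ℝ R)
    (hρ' : ρ' ∈ Submodule.span ℝ R) (hx : ∀ i ∈ S, κ.x i ρ = κ.x i ρ') : ρ = ρ' := by
  rw [h.repr_span hρ, h.repr_span hρ']
  exact Finset.sum_congr rfl fun i hi => by rw [hx i hi]

/-- A root supported in `Z` is a combination of the simple roots in `Z`. -/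
theorem IsCh.repr_sup (h : IsCh R S κ) {Z : Finset ι} (hZ : Z ⊆ S) {ρ : V} (hρ : ρ ∈ R)
    (hs : Sup S κ Z ρ) : ρ = ∑ i ∈ Z, κ.x i ρ • κ.B i := by
  conv_lhs => rw [h.repr ρ hρ]
  symm
  apply Finset.sum_subset hZ
  intro i hi hiZ
  rw [hs i hi hiZ, zero_smul]

theorem IsCh.exists_ne (h : IsCh R S κ) (hR : Sys R) {ρ : V} (hρ : ρ ∈ R) :
    ∃ i ∈ S, κ.x i ρ ≠ 0 := by
  by_contra hc
  push Not at hc
  apply hR.ne ρ hρ
  rw [h.repr ρ hρ]
  exact Finset.sum_eq_zero fun i hi => by rw [hc i hi, zero_smul]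

theorem Sys.neg_mem (hR : Sys R) {ρ : V} (hρ : ρ ∈ R) : -ρ ∈ R := by
  simpa using hR.smul ρ hρ (-1) (by norm_num)

theorem Sup.mono {Z Z' : Finset ι} {v : V} (h : Sup S κ Z v) (hZ : Z ⊆ Z') : Sup S κ Z' v :=
  fun i hi hiZ => h i hi fun h' => hiZ (hZ h')

theorem Sup.smul {Z : Finset ι} {v : V} (h : Sup S κ Z v) (c : ℝ) : Sup S κ Z (c • v) :=
  fun i hi hiZ => by rw [map_smul, h i hi hiZ, smul_zero]

theorem Sup.neg {Z : Finset ι} {v : V} (h : Sup S κ Z v) : Sup S κ Z (-v) :=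
  fun i hi hiZ => by rw [map_neg, h i hi hiZ, neg_zero]

theorem IsCh.sup_B (h : IsCh R S κ) {i : ι} (hi : i ∈ S) {Z : Finset ι} (hZ : i ∈ Z) :
    Sup S κ Z (κ.B i) :=
  fun _ hj hjZ => h.x_ne hj hi fun hji => hjZ (hji ▸ hZ)

theorem sup_self (v : V) : Sup S κ S v := fun _ hi hi' => absurd hi hi'

/-- Small perturbations keep the sign of a functional on the roots. -/
theorem Sys.perturb (hR : Sys R) (φ ψ : V →ₗ[ℝ] ℝ) :
    ∃ ε : ℝ, 0 < ε ∧ ∀ ρ ∈ R, 0 < φ ρ → 0 < φ ρ + ε * ψ ρ := by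
  obtain ⟨F, hF⟩ := hR.fin
  have h1 : ∀ᶠ ε in nhdsWithin (0 : ℝ) (Set.Ioi 0), ∀ f ∈ F, φ f ≠ 0 → |ε * ψ f| < |φ f| := by
    rw [Filter.eventually_all_finset]
    intro f _
    by_cases h0 : φ f = 0
    · exact Filter.Eventually.of_forall fun ε h => absurd h0 h
    · have hc : Filter.Tendsto (fun ε : ℝ => |ε * ψ f|) (nhds 0) (nhds (|0 * ψ f|)) :=
        ((continuous_id.mul continuous_const).abs).tendsto 0
      rw [zero_mul, abs_zero] at hc
      have := (hc.eventually (gt_mem_nhds (abs_pos.mpr h0))).filter_mono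
        (nhdsWithin_le_nhds (s := Set.Ioi 0))
      exact this.mono fun ε h _ => h
  obtain ⟨ε, hε, hε0⟩ := (h1.and self_mem_nhdsWithin).exists
  refine ⟨ε, hε0, fun ρ hρ hp => ?_⟩
  obtain ⟨f, hf, c, rfl⟩ := hF ρ hρ
  rw [map_smul, map_smul, smul_eq_mul, smul_eq_mul] at *
  have h0 : φ f ≠ 0 := fun h => by simp [h] at hp
  have h2 := hε f hf h0
  have h3 : |c * (ε * ψ f)| < |c * φ f| := by
    rw [abs_mul c, abs_mul c]
    have hc : c ≠ 0 := fun h => by simp [h] at hp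
    exact mul_lt_mul_of_pos_left h2 (abs_pos.mpr hc)
  rw [abs_of_pos hp] at h3
  have := (abs_lt.mp h3).1
  nlinarith

theorem IsCh.nonneg_of_pos (h : IsCh R S κ) {φ : V →ₗ[ℝ] ℝ} (hφ : ∀ i ∈ S, 0 < φ (κ.B i))
    {ρ : V} (hρ : ρ ∈ R) (hp : 0 < φ ρ) : ∀ i ∈ S, 0 ≤ κ.x i ρ := by
  rcases h.sign ρ hρ with h1 | h1
  · exact h1
  · exfalso
    rw [h.repr ρ hρ, map_sum] at hp
    have : ∑ i ∈ S, φ (κ.x i ρ • κ.B i) ≤ 0 := Finset.sum_nonpos fun i hi => by
      rw [map_smul, smul_eq_mul]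
      exact mul_nonpos_of_nonpos_of_nonneg (h1 i hi) (hφ i hi).le
    linarith

/-- Localization at the kernel of any functional is simplicial. -/
theorem Sys.ker (hR : Sys R) (f : V →ₗ[ℝ] ℝ) : Sys {ρ | ρ ∈ R ∧ f ρ = 0} where
  ne := fun ρ hρ => hR.ne ρ hρ.1
  smul := fun ρ hρ c hc => ⟨hR.smul ρ hρ.1 c hc, by rw [map_smul, hρ.2, smul_zero]⟩
  fin := by
    obtain ⟨F, hF⟩ := hR.fin
    exact ⟨F, fun ρ hρ => hF ρ hρ.1⟩
  simp := by
    intro φ hφ
    obtain ⟨ε, hε, hp⟩ := hR.perturb f φ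
    have hneg : ∀ ρ ∈ R, f ρ < 0 → f ρ + ε * φ ρ < 0 := by
      intro ρ hρ h
      have := hp (-ρ) (hR.neg_mem hρ) (by rw [map_neg]; linarith)
      rw [map_neg, map_neg] at this
      linarith
    obtain ⟨T, κ, hκ, hT⟩ := hR.simp (f + ε • φ) (by
      intro ρ hρ
      simp only [LinearMap.add_apply, LinearMap.smul_apply, smul_eq_mul]
      rcases lt_trichotomy (f ρ) 0 with h | h | h
      · exact (hneg ρ hρ h).ne
      · rw [h, zero_add]
        exact mul_ne_zero hε.ne' (hφ ρ ⟨hρ, h⟩)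
      · exact (hp ρ hρ h).ne')
    simp only [LinearMap.add_apply, LinearMap.smul_apply, smul_eq_mul] at hT
    have hf : ∀ t ∈ T, 0 ≤ f (κ.B t) := fun t ht => by
      by_contra hc
      have := hneg _ (hκ.mem t ht) (not_le.mp hc)
      linarith [hT t ht]
    have hz : ∀ ρ ∈ R, f ρ = 0 → ∀ t ∈ T, f (κ.B t) ≠ 0 → κ.x t ρ = 0 := by
      intro ρ hρ h0 t ht hft
      have hs : ∑ i ∈ T, κ.x i ρ * f (κ.B i) = 0 := by
        rw [hκ.repr ρ hρ, map_sum] at h0
        simpa using h0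
      rcases hκ.sign ρ hρ with h1 | h1
      · have := (Finset.sum_eq_zero_iff_of_nonneg fun i hi =>
          mul_nonneg (h1 i hi) (hf i hi)).mp hs t ht
        exact (mul_eq_zero.mp this).resolve_right hft
      · have := (Finset.sum_eq_zero_iff_of_nonpos fun i hi =>
          mul_nonpos_of_nonpos_of_nonneg (h1 i hi) (hf i hi)).mp hs t ht
        exact (mul_eq_zero.mp this).resolve_right hft
    refine ⟨T.filter fun t => f (κ.B t) = 0, κ, ⟨?_, ?_, ?_, ?_⟩, ?_⟩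
    · intro i hi j hj
      exact hκ.dual i (Finset.mem_filter.mp hi).1 j (Finset.mem_filter.mp hj).1
    · intro i hi
      exact ⟨hκ.mem i (Finset.mem_filter.mp hi).1, (Finset.mem_filter.mp hi).2⟩
    · intro ρ hρ
      apply hκ.repr_sup (Finset.filter_subset _ _) hρ.1
      intro i hi hi'
      exact hz ρ hρ.1 hρ.2 i hi fun h => hi' (Finset.mem_filter.mpr ⟨hi, h⟩)
    · intro ρ hρ
      rcases hκ.sign ρ hρ.1 with h1 | h1
      · exact Or.inl fun i hi => h1 i (Finset.mem_filter.mp hi).1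
      · exact Or.inr fun i hi => h1 i (Finset.mem_filter.mp hi).1
    · intro t ht
      have h1 := hT t (Finset.mem_filter.mp ht).1
      rw [(Finset.mem_filter.mp ht).2, zero_add] at h1
      exact (mul_pos_iff_of_pos_left hε).mp h1

theorem IsCh.sup_iff_sum (h : IsCh R S κ) (J : Finset ι) {ρ : V} (hρ : ρ ∈ R) :
    Sup S κ J ρ ↔ (∑ i ∈ S \ J, κ.x i) ρ = 0 := by
  rw [LinearMap.sum_apply]
  constructor
  · intro hs
    exact Finset.sum_eq_zero fun i hi =>
      hs i (Finset.mem_sdiff.mp hi).1 (Finset.mem_sdiff.mp hi).2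
  · intro hs i hi hiJ
    rcases h.sign ρ hρ with h1 | h1
    · exact (Finset.sum_eq_zero_iff_of_nonneg fun j hj =>
        h1 j (Finset.mem_sdiff.mp hj).1).mp hs i (Finset.mem_sdiff.mpr ⟨hi, hiJ⟩)
    · exact (Finset.sum_eq_zero_iff_of_nonpos fun j hj =>
        h1 j (Finset.mem_sdiff.mp hj).1).mp hs i (Finset.mem_sdiff.mpr ⟨hi, hiJ⟩)

theorem Sys.loc (hR : Sys R) (h : IsCh R S κ) (J : Finset ι) : Sys (loc R S κ J) := by
  have : SimpArr.loc R S κ J = {ρ | ρ ∈ R ∧ (∑ i ∈ S \ J, κ.x i) ρ = 0} := by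
    ext ρ
    exact ⟨fun hρ => ⟨hρ.1, (h.sup_iff_sum J hρ.1).mp hρ.2⟩,
      fun hρ => ⟨hρ.1, (h.sup_iff_sum J hρ.1).mpr hρ.2⟩⟩
  rw [this]
  exact hR.ker _

theorem IsCh.loc (h : IsCh R S κ) {J : Finset ι} (hJ : J ⊆ S) : IsCh (loc R S κ J) J κ where
  dual := fun i hi j hj => h.dual i (hJ hi) j (hJ hj)
  mem := fun i hi => ⟨h.mem i (hJ hi), h.sup_B (hJ hi) hi⟩
  repr := fun _ hρ => h.repr_sup hJ hρ.1 hρ.2
  sign := fun ρ hρ => by
    rcases h.sign ρ hρ.1 with h1 | h1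
    · exact Or.inl fun i hi => h1 i (hJ hi)
    · exact Or.inr fun i hi => h1 i (hJ hi)

theorem proj_apply (J : Finset ι) (v : V) :
    proj S κ J v = ∑ i ∈ S \ J, κ.x i v • κ.B i := by
  simp [proj, LinearMap.sum_apply]

theorem IsCh.x_proj (h : IsCh R S κ) (J : Finset ι) (v : V) {i : ι} (hi : i ∈ S) :
    κ.x i (proj S κ J v) = if i ∈ J then 0 else κ.x i v := by
  rw [proj_apply, h.x_sum Finset.sdiff_subset _ hi]
  by_cases hJ : i ∈ J <;> simp [hJ, hi]

theorem IsCh.x_proj_of (h : IsCh R S κ) {J : Finset ι} (v : V) {i : ι} (hi : i ∈ S)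
    (hJ : i ∉ J) : κ.x i (proj S κ J v) = κ.x i v := by
  rw [h.x_proj J v hi, if_neg hJ]

theorem IsCh.proj_eq_zero (h : IsCh R S κ) (J : Finset ι) (v : V) :
    proj S κ J v = 0 ↔ Sup S κ J v := by
  constructor
  · intro h0 i hi hiJ
    rw [← h.x_proj_of v hi hiJ, h0, map_zero]
  · intro hs
    rw [proj_apply]
    exact Finset.sum_eq_zero fun i hi => by
      rw [hs i (Finset.mem_sdiff.mp hi).1 (Finset.mem_sdiff.mp hi).2, zero_smul]

theorem IsCh.proj_B (h : IsCh R S κ) {J : Finset ι} {i : ι} (hi : i ∈ S) (hJ : i ∉ J) :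
    proj S κ J (κ.B i) = κ.B i := by
  rw [proj_apply, Finset.sum_eq_single i]
  · rw [h.x_self hi, one_smul]
  · intro j hj hji
    rw [h.x_ne (Finset.mem_sdiff.mp hj).1 hi hji, zero_smul]
  · intro hi'
    exact absurd (Finset.mem_sdiff.mpr ⟨hi, hJ⟩) hi'

theorem IsCh.proj_mem (h : IsCh R S κ) {J : Finset ι} {ρ : V} (hρ : ρ ∈ R) {i : ι} (hi : i ∈ S)
    (hJ : i ∉ J) (h0 : κ.x i ρ ≠ 0) : proj S κ J ρ ∈ con R S κ J :=
  ⟨fun hz => h0 ((h.proj_eq_zero J ρ).mp hz i hi hJ), ρ, hρ, rfl⟩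

theorem IsCh.con (h : IsCh R S κ) (J : Finset ι) : IsCh (con R S κ J) (S \ J) κ where
  dual := fun i hi j hj => h.dual i (Finset.mem_sdiff.mp hi).1 j (Finset.mem_sdiff.mp hj).1
  mem := fun i hi => by
    obtain ⟨h1, h2⟩ := Finset.mem_sdiff.mp hi
    have := h.proj_mem (h.mem i h1) h1 h2 (by rw [h.x_self h1]; exact one_ne_zero)
    rwa [h.proj_B h1 h2] at this
  repr := by
    rintro v ⟨-, ρ, -, rfl⟩
    conv_lhs => rw [proj_apply]
    exact Finset.sum_congr rfl fun i hi => by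
      rw [h.x_proj_of ρ (Finset.mem_sdiff.mp hi).1 (Finset.mem_sdiff.mp hi).2]
  sign := by
    rintro v ⟨-, ρ, hρ, rfl⟩
    rcases h.sign ρ hρ with h1 | h1
    · exact Or.inl fun i hi => by
        rw [h.x_proj_of ρ (Finset.mem_sdiff.mp hi).1 (Finset.mem_sdiff.mp hi).2]
        exact h1 i (Finset.mem_sdiff.mp hi).1
    · exact Or.inr fun i hi => by
        rw [h.x_proj_of ρ (Finset.mem_sdiff.mp hi).1 (Finset.mem_sdiff.mp hi).2]
        exact h1 i (Finset.mem_sdiff.mp hi).1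

/-- The image of a simplicial system under a linear map whose kernel is spanned by roots. -/
theorem Sys.image (hR : Sys R) (π : V →ₗ[ℝ] V)
    (hker : ∀ v ∈ Submodule.span ℝ R, π v = 0 → v ∈ Submodule.span ℝ {ρ | ρ ∈ R ∧ π ρ = 0})
    (hidem : ∀ v ∈ Submodule.span ℝ R, π v ∈ Submodule.span ℝ R ∧ π (π v) = π v) :
    Sys {v | v ≠ 0 ∧ ∃ ρ ∈ R, v = π ρ} where
  ne := fun _ hv => hv.1
  smul := by
    rintro v ⟨h0, ρ, hρ, rfl⟩ c hc
    exact ⟨smul_ne_zero hc h0, c • ρ, hR.smul ρ hρ c hc, by rw [map_smul]⟩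
  fin := by
    obtain ⟨F, hF⟩ := hR.fin
    refine ⟨F.image π, ?_⟩
    rintro v ⟨-, ρ, hρ, rfl⟩
    obtain ⟨f, hf, c, rfl⟩ := hF ρ hρ
    exact ⟨π f, Finset.mem_image_of_mem _ hf, c, by rw [map_smul]⟩
  simp := by
    intro φ hφ
    obtain ⟨T0, κ0, hκ0, -⟩ : ∃ (T : Finset V) (κ : Fam V V), IsCh R T κ ∧ True := by
      -- a generic functional exists
      obtain ⟨F, hF⟩ := hR.fin
      have : ∃ ψ : V →ₗ[ℝ] ℝ, ∀ f ∈ F, f ≠ 0 → ψ f ≠ 0 := by
        clear hF
        induction F using Finset.induction_on with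
        | empty => exact ⟨0, by simp⟩
        | insert f F hf ih =>
          obtain ⟨ψ, hψ⟩ := ih
          by_cases h0 : f = 0
          · exact ⟨ψ, by
              intro g hg hg0
              rcases Finset.mem_insert.mp hg with rfl | hg
              · exact absurd h0 hg0
              · exact hψ g hg hg0⟩
          · obtain ⟨χ, hχ⟩ := Module.Projective.exists_dual_ne_zero ℝ h0
            have hfin : {c : ℝ | ∃ g ∈ insert f F, χ g ≠ 0 ∧ c = -(ψ g) / χ g}.Finite := by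
              apply Set.Finite.subset ((insert f F).finite_toSet.image fun g => -(ψ g) / χ g)
              rintro c ⟨g, hg, -, rfl⟩
              exact ⟨g, hg, rfl⟩
            obtain ⟨c, hc⟩ := hfin.exists_notMem
            refine ⟨ψ + c • χ, ?_⟩
            intro g hg hg0 hz
            simp only [LinearMap.add_apply, LinearMap.smul_apply, smul_eq_mul] at hz
            by_cases hχg : χ g = 0
            · rcases Finset.mem_insert.mp hg with rfl | hg'
              · exact hχ hχg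
              · rw [hχg, mul_zero, add_zero] at hz
                exact hψ g hg' hg0 hz
            · exact hc ⟨g, hg, hχg, by field_simp; linarith⟩
      obtain ⟨ψ, hψ⟩ := this
      obtain ⟨T, κ, hκ, -⟩ := hR.simp ψ (by
        intro ρ hρ
        obtain ⟨f, hf, c, rfl⟩ := hF ρ hρ
        have h0 := hR.ne _ hρ
        rw [map_smul, smul_eq_mul]
        exact mul_ne_zero (left_ne_zero_of_smul h0) (hψ f hf (right_ne_zero_of_smul h0)))
      exact ⟨T, κ, hκ, trivial⟩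
    set ψ : V →ₗ[ℝ] ℝ := ∑ i ∈ T0, κ0.x i with hψdef
    have hψ : ∀ ρ ∈ R, ψ ρ ≠ 0 := by
      intro ρ hρ h0
      have := (hκ0.sup_iff_sum ∅ hρ).mpr (by rw [Finset.sdiff_empty]; exact h0)
      obtain ⟨i, hi, hne⟩ := hκ0.exists_ne hR hρ
      exact hne (this i hi (by simp))
    obtain ⟨ε, hε, hp⟩ := hR.perturb (φ ∘ₗ π) ψ
    simp only [LinearMap.comp_apply] at hp
    have hneg : ∀ ρ ∈ R, φ (π ρ) < 0 → φ (π ρ) + ε * ψ ρ < 0 := by
      intro ρ hρ h
      have := hp (-ρ) (hR.neg_mem hρ) (by rw [map_neg, map_neg]; linarith)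
      rw [map_neg, map_neg, map_neg] at this
      linarith
    obtain ⟨T, κ, hκ, hT⟩ := hR.simp (φ ∘ₗ π + ε • ψ) (by
      intro ρ hρ
      simp only [LinearMap.add_apply, LinearMap.smul_apply, smul_eq_mul, LinearMap.comp_apply]
      rcases lt_trichotomy (φ (π ρ)) 0 with h | h | h
      · exact (hneg ρ hρ h).ne
      · rw [h, zero_add]
        exact mul_ne_zero hε.ne' (hψ ρ hρ)
      · exact (hp ρ hρ h).ne')
    simp only [LinearMap.add_apply, LinearMap.smul_apply, smul_eq_mul,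
      LinearMap.comp_apply] at hT
    have hf : ∀ t ∈ T, 0 ≤ φ (π (κ.B t)) := fun t ht => by
      by_contra hc
      have := hneg _ (hκ.mem t ht) (not_le.mp hc)
      linarith [hT t ht]
    have hf' : ∀ t ∈ T, π (κ.B t) ≠ 0 → 0 < φ (π (κ.B t)) := fun t ht h0 =>
      lt_of_le_of_ne (hf t ht) (hφ _ ⟨h0, _, hκ.mem t ht, rfl⟩).symm
    have hz : ∀ ρ ∈ R, π ρ = 0 → ∀ t ∈ T, π (κ.B t) ≠ 0 → κ.x t ρ = 0 := by
      intro ρ hρ h0 t ht hft
      have hs : ∑ i ∈ T, κ.x i ρ * φ (π (κ.B i)) = 0 := by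
        have : φ (π ρ) = 0 := by rw [h0, map_zero]
        rw [hκ.repr ρ hρ, map_sum, map_sum] at this
        simpa using this
      rcases hκ.sign ρ hρ with h1 | h1
      · have := (Finset.sum_eq_zero_iff_of_nonneg fun i hi =>
          mul_nonneg (h1 i hi) (hf i hi)).mp hs t ht
        exact (mul_eq_zero.mp this).resolve_right (hf' t ht hft).ne'
      · have := (Finset.sum_eq_zero_iff_of_nonpos fun i hi =>
          mul_nonpos_of_nonpos_of_nonneg (h1 i hi) (hf i hi)).mp hs t ht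
        exact (mul_eq_zero.mp this).resolve_right (hf' t ht hft).ne'
    have hz2 : ∀ v ∈ Submodule.span ℝ R, ∀ t ∈ T, π (κ.B t) ≠ 0 → κ.x t (π v) = κ.x t v := by
      intro v hv t ht hft
      have h1 : v - π v ∈ Submodule.span ℝ R := sub_mem hv (hidem v hv).1
      have h2 : π (v - π v) = 0 := by rw [map_sub, (hidem v hv).2, sub_self]
      have h3 := hker _ h1 h2
      have h4 : ∀ w ∈ Submodule.span ℝ {ρ | ρ ∈ R ∧ π ρ = 0}, κ.x t w = 0 := by
        intro w hw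
        induction hw using Submodule.span_induction with
        | mem w hw => exact hz w hw.1 hw.2 t ht hft
        | zero => simp
        | add u w _ _ hu hw => rw [map_add, hu, hw, add_zero]
        | smul c u _ hu => rw [map_smul, hu, smul_zero]
      have := h4 _ h3
      rw [map_sub] at this
      linarith
    refine ⟨T.filter fun t => π (κ.B t) ≠ 0, ⟨fun t => π (κ.B t), κ.x⟩, ⟨?_, ?_, ?_, ?_⟩, ?_⟩
    · intro i hi j hj
      obtain ⟨hi1, hi2⟩ := Finset.mem_filter.mp hi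
      obtain ⟨hj1, hj2⟩ := Finset.mem_filter.mp hj
      show κ.x i (π (κ.B j)) = _
      rw [hz2 _ (Submodule.subset_span (hκ.mem j hj1)) i hi1 hi2]
      exact hκ.dual i hi1 j hj1
    · intro i hi
      obtain ⟨hi1, hi2⟩ := Finset.mem_filter.mp hi
      exact ⟨hi2, _, hκ.mem i hi1, rfl⟩
    · rintro v ⟨-, ρ, hρ, rfl⟩
      show π ρ = ∑ i ∈ T.filter fun t => π (κ.B t) ≠ 0, κ.x i (π ρ) • π (κ.B i)
      conv_lhs => rw [hκ.repr ρ hρ, map_sum]
      rw [Finset.sum_filter]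
      apply Finset.sum_congr rfl
      intro i hi
      split_ifs with h0
      · rw [hz2 _ (Submodule.subset_span hρ) i hi h0, map_smul]
      · rw [map_smul, not_not.mp h0, smul_zero]
    · rintro v ⟨-, ρ, hρ, rfl⟩
      rcases hκ.sign ρ hρ with h1 | h1
      · refine Or.inl fun i hi => ?_
        obtain ⟨hi1, hi2⟩ := Finset.mem_filter.mp hi
        show 0 ≤ κ.x i (π ρ)
        rw [hz2 _ (Submodule.subset_span hρ) i hi1 hi2]
        exact h1 i hi1
      · refine Or.inr fun i hi => ?_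
        obtain ⟨hi1, hi2⟩ := Finset.mem_filter.mp hi
        show κ.x i (π ρ) ≤ 0
        rw [hz2 _ (Submodule.subset_span hρ) i hi1 hi2]
        exact h1 i hi1
    · intro t ht
      obtain ⟨hi1, hi2⟩ := Finset.mem_filter.mp ht
      exact hf' t hi1 hi2

theorem IsCh.ker_proj (h : IsCh R S κ) (J : Finset ι) {v : V} (hv : v ∈ Submodule.span ℝ R)
    (h0 : proj S κ J v = 0) : v = ∑ i ∈ S ∩ J, κ.x i v • κ.B i := by
  conv_lhs => rw [h.repr_span hv]
  symm
  apply Finset.sum_subset Finset.inter_subset_left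
  intro i hi hiJ
  rw [(h.proj_eq_zero J v).mp h0 i hi fun h' => hiJ (Finset.mem_inter.mpr ⟨hi, h'⟩), zero_smul]

theorem Sys.con (hR : Sys R) (h : IsCh R S κ) (J : Finset ι) : Sys (con R S κ J) := by
  apply hR.image (proj S κ J)
  · intro v hv h0
    rw [h.ker_proj J hv h0]
    refine Submodule.sum_mem _ fun i hi => Submodule.smul_mem _ _ (Submodule.subset_span ?_)
    obtain ⟨h1, h2⟩ := Finset.mem_inter.mp hi
    exact ⟨h.mem i h1, (h.proj_eq_zero J _).mpr (h.sup_B h1 h2)⟩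
  · intro v _
    constructor
    · rw [proj_apply]
      exact Submodule.sum_mem _ fun i hi => Submodule.smul_mem _ _
        (Submodule.subset_span (h.mem i (Finset.mem_sdiff.mp hi).1))
    · conv_lhs => rw [proj_apply]
      conv_rhs => rw [proj_apply]
      exact Finset.sum_congr rfl fun i hi => by
        rw [h.x_proj_of v (Finset.mem_sdiff.mp hi).1 (Finset.mem_sdiff.mp hi).2]

end Pool.Agent.SimpArr
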