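import Pool.Agent.P.MP_0b4c38_co.Basic1

/-! Simplicial root systems: lifting of chambers, wall crossing. -/

set_option autoImplicit false

open Classical

namespace Pool.Agent.SimpArr

variable {V : Type} [AddCommGroup V] [Module ℝ V] {ι : Type}
variable {R : Set V} {S : Finset ι} {κ : Fam ι V}

theorem sum_pos_exists {α : Type} {T : Finset α} {f : α → ℝ} (h : 0 < ∑ t ∈ T, f t) :
    ∃ t ∈ T, 0 < f t := by
  by_contra hc
  push Not at hc
  exact absurd (Finset.sum_nonpos hc) (not_le.mpr h)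

/-- General lifting lemma. -/
theorem glift (hR : Sys R) (π : V →ₗ[ℝ] V) {J Q : Finset ι} (hd : Disjoint J Q)
    {κJ κQ : Fam ι V} (hJ : IsCh {ρ | ρ ∈ R ∧ π ρ = 0} J κJ)
    (hQ : IsCh {v | v ≠ 0 ∧ ∃ ρ ∈ R, v = π ρ} Q κQ)
    (hker : ∀ v ∈ Submodule.span ℝ R, π v = 0 → v = ∑ j ∈ J, κJ.x j v • κJ.B j) :
    ∃ κ' : Fam ι V, IsCh R (J ∪ Q) κ' ∧ (∀ j ∈ J, κ'.B j = κJ.B j) ∧
      (∀ i ∈ Q, ∀ v, κ'.x i v = κQ.x i (π v)) ∧ (∀ i ∈ Q, π (κ'.B i) = κQ.B i) := by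
  set φ0 : V →ₗ[ℝ] ℝ := (∑ i ∈ Q, κQ.x i) ∘ₗ π with hφ0
  set ψ : V →ₗ[ℝ] ℝ := ∑ j ∈ J, κJ.x j with hψ
  have hφ0a : ∀ v, φ0 v = ∑ i ∈ Q, κQ.x i (π v) := fun v => by
    simp [hφ0]
  have hψa : ∀ v, ψ v = ∑ j ∈ J, κJ.x j v := fun v => by simp [hψ, LinearMap.sum_apply]
  obtain ⟨ε, hε, hp⟩ := hR.perturb φ0 ψ
  have hneg : ∀ ρ ∈ R, φ0 ρ < 0 → φ0 ρ + ε * ψ ρ < 0 := by
    intro ρ hρ h
    have := hp (-ρ) (hR.neg_mem hρ) (by rw [map_neg]; linarith)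
    rw [map_neg, map_neg] at this
    linarith
  -- sign dichotomies
  have hQs : ∀ ρ ∈ R, π ρ ≠ 0 → 0 ≤ φ0 ρ → 0 < φ0 ρ ∧ ∀ i ∈ Q, 0 ≤ κQ.x i (π ρ) := by
    intro ρ hρ h0 hn
    have hm : π ρ ∈ {v | v ≠ 0 ∧ ∃ ρ ∈ R, v = π ρ} := ⟨h0, ρ, hρ, rfl⟩
    have hne : φ0 ρ ≠ 0 := by
      intro hz
      rw [hφ0a] at hz
      apply h0
      rw [hQ.repr _ hm]
      refine Finset.sum_eq_zero fun i hi => ?_
      rcases hQ.sign _ hm with h1 | h1
      · rw [(Finset.sum_eq_zero_iff_of_nonneg h1).mp hz i hi, zero_smul]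
      · rw [(Finset.sum_eq_zero_iff_of_nonpos h1).mp hz i hi, zero_smul]
    have hpos : 0 < φ0 ρ := lt_of_le_of_ne hn hne.symm
    refine ⟨hpos, ?_⟩
    rw [hφ0a] at hpos
    obtain ⟨i, hi, hpi⟩ := sum_pos_exists hpos
    exact hQ.nonneg hm hi hpi
  have hJs : ∀ ρ ∈ R, π ρ = 0 → ψ ρ ≠ 0 := by
    intro ρ hρ h0 hz
    have hm : ρ ∈ {ρ | ρ ∈ R ∧ π ρ = 0} := ⟨hρ, h0⟩
    rw [hψa] at hz
    apply hR.ne ρ hρ
    rw [hJ.repr _ hm]
    refine Finset.sum_eq_zero fun i hi => ?_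
    rcases hJ.sign _ hm with h1 | h1
    · rw [(Finset.sum_eq_zero_iff_of_nonneg h1).mp hz i hi, zero_smul]
    · rw [(Finset.sum_eq_zero_iff_of_nonpos h1).mp hz i hi, zero_smul]
  have hφ00 : ∀ ρ, π ρ = 0 → φ0 ρ = 0 := fun ρ h => by simp [hφ0, h]
  set φ : V →ₗ[ℝ] ℝ := φ0 + ε • ψ with hφ
  have hφa : ∀ v, φ v = φ0 v + ε * ψ v := fun v => by simp [hφ]
  have hgen : ∀ ρ ∈ R, φ ρ ≠ 0 := by
    intro ρ hρ
    rw [hφa]
    by_cases h0 : π ρ = 0
    · rw [hφ00 ρ h0, zero_add]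
      exact mul_ne_zero hε.ne' (hJs ρ hρ h0)
    · rcases le_or_gt 0 (φ0 ρ) with h | h
      · exact (hp ρ hρ (hQs ρ hρ h0 h).1).ne'
      · exact (hneg ρ hρ h).ne
  obtain ⟨T, κT, hT, hTp⟩ := hR.simp φ hgen
  have hf : ∀ t ∈ T, 0 ≤ φ0 (κT.B t) := fun t ht => by
    by_contra hc
    have := hneg _ (hT.mem t ht) (not_le.mp hc)
    linarith [hTp t ht, hφa (κT.B t)]
  have hxQ : ∀ t ∈ T, ∀ i ∈ Q, 0 ≤ κQ.x i (π (κT.B t)) := fun t ht i hi => by
    by_cases h0 : π (κT.B t) = 0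
    · rw [h0, map_zero]
    · exact (hQs _ (hT.mem t ht) h0 (hf t ht)).2 i hi
  have hxJ : ∀ t ∈ T, π (κT.B t) = 0 → ∀ j ∈ J, 0 ≤ κJ.x j (κT.B t) := fun t ht h0 => by
    have h1 := hTp t ht
    rw [hφa, hφ00 _ h0, zero_add] at h1
    have h2 := (mul_pos_iff_of_pos_left hε).mp h1
    rw [hψa] at h2
    obtain ⟨i, hi, hpi⟩ := sum_pos_exists h2
    exact hJ.nonneg (⟨hT.mem t ht, h0⟩ : _ ∈ {ρ | ρ ∈ R ∧ π ρ = 0}) hi hpi
  -- expansions
  have hexp : ∀ ρ ∈ R, ∀ f : V →ₗ[ℝ] ℝ, f ρ = ∑ t ∈ T, κT.x t ρ * f (κT.B t) := by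
    intro ρ hρ f
    conv_lhs => rw [hT.repr ρ hρ, map_sum]
    simp
  have hA : ∀ j ∈ J, ∃ t ∈ T, ∃ μ : ℝ, 0 < μ ∧ κJ.B j = μ • κT.B t := by
    intro j hj
    have hm := hJ.mem j hj
    have hpos : 0 < φ (κJ.B j) := by
      rw [hφa, hφ00 _ hm.2, zero_add, hψa]
      apply mul_pos hε
      rw [Finset.sum_eq_single j, hJ.x_self hj]
      · exact one_pos
      · intro i hi hij
        exact hJ.x_ne hi hj hij
      · intro h
        exact absurd hj h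
    have hl := hT.nonneg_of_pos hTp hm.1 hpos
    have hz : ∀ t ∈ T, κT.x t (κJ.B j) = 0 ∨ π (κT.B t) = 0 := by
      intro t ht
      have h1 := hexp _ hm.1 φ0
      rw [hφ00 _ hm.2] at h1
      have h2 := (Finset.sum_eq_zero_iff_of_nonneg fun t ht =>
        mul_nonneg (hl t ht) (hf t ht)).mp h1.symm t ht
      rcases mul_eq_zero.mp h2 with h3 | h3
      · exact Or.inl h3
      · right
        by_contra h4
        exact (hQs _ (hT.mem t ht) h4 (hf t ht)).1.ne' h3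
    have hterm : ∀ i ∈ J, ∀ t ∈ T, 0 ≤ κT.x t (κJ.B j) * κJ.x i (κT.B t) := by
      intro i hi t ht
      rcases hz t ht with h | h
      · rw [h, zero_mul]
      · exact mul_nonneg (hl t ht) (hxJ t ht h i hi)
    have h1 := hexp _ hm.1 (κJ.x j)
    rw [hJ.x_self hj] at h1
    obtain ⟨t, ht, hpt⟩ := sum_pos_exists (lt_of_lt_of_eq one_pos h1)
    have hlt : κT.x t (κJ.B j) ≠ 0 := fun h => by simp [h] at hpt
    have h0 : π (κT.B t) = 0 := (hz t ht).resolve_left hlt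
    have hxp : 0 < κJ.x j (κT.B t) :=
      (mul_pos_iff_of_pos_left (lt_of_le_of_ne (hl t ht) hlt.symm)).mp hpt
    refine ⟨t, ht, (κJ.x j (κT.B t))⁻¹, inv_pos.mpr hxp, ?_⟩
    have h2 := hJ.repr _ (⟨hT.mem t ht, h0⟩ : _ ∈ {ρ | ρ ∈ R ∧ π ρ = 0})
    rw [Finset.sum_eq_single j] at h2
    · conv_rhs => rw [h2]
      rw [map_smul, hJ.x_self hj, smul_eq_mul, mul_one, smul_smul, inv_mul_cancel₀ hxp.ne',
        one_smul]
    · intro i hi hij
      have h3 := hexp _ hm.1 (κJ.x i)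
      rw [hJ.x_ne hi hj hij] at h3
      have h4 := (Finset.sum_eq_zero_iff_of_nonneg (hterm i hi)).mp h3.symm t ht
      rw [(mul_eq_zero.mp h4).resolve_left hlt, zero_smul]
    · intro h
      exact absurd hj h
  have hB : ∀ i ∈ Q, ∃ t ∈ T, ∃ μ : ℝ, 0 < μ ∧ π (μ • κT.B t) = κQ.B i := by
    intro i hi
    obtain ⟨h0, ρ, hρ, hρe⟩ := hQ.mem i hi
    have hpos0 : 0 < φ0 ρ := by
      rw [hφ0a, ← hρe, Finset.sum_eq_single i, hQ.x_self hi]
      · exact one_pos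
      · intro k hk hki
        exact hQ.x_ne hk hi hki
      · intro h
        exact absurd hi h
    have hpos : 0 < φ ρ := by rw [hφa]; exact hp ρ hρ hpos0
    have hl := hT.nonneg_of_pos hTp hρ hpos
    have h1 := hexp _ hρ (κQ.x i ∘ₗ π)
    simp only [LinearMap.comp_apply] at h1
    rw [← hρe, hQ.x_self hi] at h1
    obtain ⟨t, ht, hpt⟩ := sum_pos_exists (lt_of_lt_of_eq one_pos h1)
    have hlt : κT.x t ρ ≠ 0 := fun h => by simp [h] at hpt
    have hxp : 0 < κQ.x i (π (κT.B t)) :=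
      (mul_pos_iff_of_pos_left (lt_of_le_of_ne (hl t ht) hlt.symm)).mp hpt
    have h00 : π (κT.B t) ≠ 0 := fun h => by simp [h] at hxp
    refine ⟨t, ht, (κQ.x i (π (κT.B t)))⁻¹, inv_pos.mpr hxp, ?_⟩
    have h2 := hQ.repr _ (⟨h00, _, hT.mem t ht, rfl⟩ : _ ∈ {v | v ≠ 0 ∧ ∃ ρ ∈ R, v = π ρ})
    rw [Finset.sum_eq_single i] at h2
    · rw [map_smul]
      conv_lhs => rw [h2]
      rw [map_smul, hQ.x_self hi, smul_eq_mul, mul_one, smul_smul, inv_mul_cancel₀ hxp.ne',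
        one_smul]
    · intro k hk hki
      have h3 := hexp _ hρ (κQ.x k ∘ₗ π)
      simp only [LinearMap.comp_apply] at h3
      rw [← hρe, hQ.x_ne hk hi hki] at h3
      have h4 := (Finset.sum_eq_zero_iff_of_nonneg fun t ht =>
        mul_nonneg (hl t ht) (hxQ t ht k hk)).mp h3.symm t ht
      rw [(mul_eq_zero.mp h4).resolve_left hlt, zero_smul]
    · intro h
      exact absurd hi h
  choose! τA hτA μA hμA hAe using hA
  choose! τB hτB μB hμB hBe using hB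
  set B' : ι → V := fun k => if k ∈ J then κJ.B k else μB k • κT.B (τB k) with hB'
  set P : V →ₗ[ℝ] V := LinearMap.id - ∑ i ∈ Q, (κQ.x i ∘ₗ π).smulRight (B' i) with hP
  have hPa : ∀ v, P v = v - ∑ i ∈ Q, κQ.x i (π v) • B' i := fun v => by
    simp [hP, LinearMap.sum_apply]
  have hnJ : ∀ i ∈ Q, i ∉ J := fun i hi h => Finset.disjoint_left.mp hd h hi
  have hB'J : ∀ j ∈ J, B' j = κJ.B j := fun j hj => by simp [hB', hj]
  have hB'Q : ∀ i ∈ Q, B' i = μB i • κT.B (τB i) := fun i hi => by simp [hB', hnJ i hi]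
  have hπB' : ∀ i ∈ Q, π (B' i) = κQ.B i := fun i hi => by rw [hB'Q i hi, hBe i hi]
  have hπJ : ∀ j ∈ J, π (B' j) = 0 := fun j hj => by rw [hB'J j hj]; exact (hJ.mem j hj).2
  set x' : ι → V →ₗ[ℝ] ℝ := fun k => if k ∈ J then κJ.x k ∘ₗ P else κQ.x k ∘ₗ π with hx'
  have hx'J : ∀ j ∈ J, ∀ v, x' j v = κJ.x j (P v) := fun j hj v => by simp [hx', hj]
  have hx'Q : ∀ i ∈ Q, ∀ v, x' i v = κQ.x i (π v) := fun i hi v => by simp [hx', hnJ i hi]
  have hmem : ∀ k ∈ J ∪ Q, B' k ∈ R := by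
    intro k hk
    rcases Finset.mem_union.mp hk with h | h
    · rw [hB'J k h]; exact (hJ.mem k h).1
    · rw [hB'Q k h]; exact hR.smul _ (hT.mem _ (hτB k h)) _ (hμB k h).ne'
  have hdual : ∀ i ∈ J ∪ Q, ∀ j ∈ J ∪ Q, x' i (B' j) = if i = j then 1 else 0 := by
    intro i hi j hj
    rcases Finset.mem_union.mp hi with h1 | h1 <;> rcases Finset.mem_union.mp hj with h2 | h2
    · rw [hx'J i h1, hPa, hπJ j h2, hB'J j h2]
      simp only [map_zero, zero_smul, Finset.sum_const_zero, sub_zero]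
      exact hJ.dual i h1 j h2
    · rw [hx'J i h1, hPa, hπB' j h2, Finset.sum_eq_single j, hQ.x_self h2, one_smul, sub_self,
        map_zero, if_neg]
      · rintro rfl
        exact hnJ i h2 h1
      · intro k hk hkj
        rw [hQ.x_ne hk h2 hkj, zero_smul]
      · intro h
        exact absurd h2 h
    · rw [hx'Q i h1, hπJ j h2, map_zero, if_neg]
      rintro rfl
      exact hnJ i h1 h2
    · rw [hx'Q i h1, hπB' j h2]
      exact hQ.dual i h1 j h2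
  have hrepr : ∀ ρ ∈ R, ρ = ∑ k ∈ J ∪ Q, x' k ρ • B' k := by
    intro ρ hρ
    have h1 : P ρ ∈ Submodule.span ℝ R := by
      rw [hPa]
      exact sub_mem (Submodule.subset_span hρ) (Submodule.sum_mem _ fun i hi =>
        Submodule.smul_mem _ _ (Submodule.subset_span (hmem i (Finset.mem_union_right _ hi))))
    have h2 : π (P ρ) = 0 := by
      rw [hPa, map_sub, map_sum]
      have : ∑ i ∈ Q, π (κQ.x i (π ρ) • B' i) = ∑ i ∈ Q, κQ.x i (π ρ) • κQ.B i :=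
        Finset.sum_congr rfl fun i hi => by rw [map_smul, hπB' i hi]
      rw [this]
      by_cases h0 : π ρ = 0
      · simp [h0]
      · rw [← hQ.repr _ (⟨h0, ρ, hρ, rfl⟩ : _ ∈ {v | v ≠ 0 ∧ ∃ ρ ∈ R, v = π ρ}), sub_self]
    have h3 := hker _ h1 h2
    rw [Finset.sum_union hd]
    have h4 : ∑ k ∈ J, x' k ρ • B' k = P ρ := by
      refine Eq.trans ?_ h3.symm
      exact Finset.sum_congr rfl fun j hj => by rw [hx'J j hj, hB'J j hj]
    have h5 : ∑ k ∈ Q, x' k ρ • B' k = ∑ i ∈ Q, κQ.x i (π ρ) • B' i :=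
      Finset.sum_congr rfl fun i hi => by rw [hx'Q i hi]
    rw [h4, h5, hPa, sub_add_cancel]
  have hτ : ∀ k ∈ J ∪ Q, ∃ t ∈ T, ∃ μ : ℝ, 0 < μ ∧ B' k = μ • κT.B t := by
    intro k hk
    rcases Finset.mem_union.mp hk with h | h
    · exact ⟨τA k, hτA k h, μA k, hμA k h, by rw [hB'J k h, hAe k h]⟩
    · exact ⟨τB k, hτB k h, μB k, hμB k h, hB'Q k h⟩
  choose! τ hτT μ hμ hτe using hτ
  have hpos : ∀ ρ ∈ R, 0 < φ ρ → ∀ k ∈ J ∪ Q, 0 ≤ x' k ρ := by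
    intro ρ hρ hp k hk
    have h1 := hT.nonneg_of_pos hTp hρ hp (τ k) (hτT k hk)
    rw [hrepr ρ hρ, map_sum, Finset.sum_eq_single k] at h1
    · rw [map_smul, hτe k hk, map_smul, hT.x_self (hτT k hk)] at h1
      simp only [smul_eq_mul, mul_one] at h1
      exact nonneg_of_mul_nonneg_left h1 (hμ k hk)
    · intro k' hk' hkk
      have hne : τ k ≠ τ k' := by
        intro he
        have e1 := hdual k hk k hk
        have e2 := hdual k hk k' hk'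
        rw [if_pos rfl, hτe k hk, map_smul] at e1
        rw [if_neg (Ne.symm hkk), hτe k' hk', map_smul, ← he] at e2
        have : x' k (κT.B (τ k)) = 0 :=
          (mul_eq_zero.mp e2).resolve_left (hμ k' hk').ne'
        simp [this] at e1
      rw [map_smul, hτe k' hk', map_smul, hT.x_ne (hτT k hk) (hτT k' hk') hne]
      simp
    · intro h
      exact absurd hk h
  refine ⟨⟨B', x'⟩, ⟨hdual, hmem, hrepr, ?_⟩, hB'J, hx'Q, hπB'⟩
  intro ρ hρ
  rcases lt_or_gt_of_ne (hgen ρ hρ) with h | h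
  · right
    intro k hk
    have := hpos (-ρ) (hR.neg_mem hρ) (by rw [map_neg]; linarith) k hk
    rw [map_neg] at this
    show x' k ρ ≤ 0
    linarith
  · exact Or.inl (hpos ρ hρ h)

theorem IsCh.loc_eq (h : IsCh R S κ) (J : Finset ι) :
    {ρ | ρ ∈ R ∧ proj S κ J ρ = 0} = SimpArr.loc R S κ J := by
  ext ρ
  simp only [Set.mem_ofPred_eq, SimpArr.loc, h.proj_eq_zero]

/-- A chamber of a localization expands every vector of the span of its roots. -/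
theorem IsCh.repr_loc (h : IsCh R S κ) {J : Finset ι} {κJ : Fam ι V}
    (hJ : IsCh (SimpArr.loc R S κ J) J κJ) {v : V} (hv : v ∈ Submodule.span ℝ R)
    (hs : Sup S κ J v) : v = ∑ j ∈ J, κJ.x j v • κJ.B j := by
  apply hJ.repr_span
  rw [h.ker_proj J hv ((h.proj_eq_zero J v).mpr hs)]
  refine Submodule.sum_mem _ fun i hi => Submodule.smul_mem _ _ (Submodule.subset_span ?_)
  obtain ⟨h1, h2⟩ := Finset.mem_inter.mp hi
  exact ⟨h.mem i h1, h.sup_B h1 h2⟩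

/-- Lifting a chamber of the localization at `J` and a chamber of the contraction by `J`. -/
theorem lift (hR : Sys R) (h : IsCh R S κ) {J : Finset ι} (hJS : J ⊆ S) {κJ κQ : Fam ι V}
    (hJ : IsCh (loc R S κ J) J κJ) (hQ : IsCh (con R S κ J) (S \ J) κQ) :
    ∃ κ' : Fam ι V, IsCh R S κ' ∧ (∀ j ∈ J, κ'.B j = κJ.B j) ∧
      (∀ i ∈ S, i ∉ J → ∀ v, κ'.x i v = κQ.x i (proj S κ J v)) ∧
      (∀ i ∈ S, i ∉ J → proj S κ J (κ'.B i) = κQ.B i) := by
  obtain ⟨κ', h1, h2, h3, h4⟩ := glift hR (proj S κ J) (J := J) (Q := S \ J)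
    Finset.disjoint_sdiff (κJ := κJ) (κQ := κQ) (by rw [h.loc_eq]; exact hJ) hQ
    (fun v hv h0 => h.repr_loc hJ hv ((h.proj_eq_zero J v).mp h0))
  rw [Finset.union_sdiff_of_subset hJS] at h1
  exact ⟨κ', h1, h2, fun i hi hiJ => h3 i (Finset.mem_sdiff.mpr ⟨hi, hiJ⟩),
    fun i hi hiJ => h4 i (Finset.mem_sdiff.mpr ⟨hi, hiJ⟩)⟩

/-- Lifting a chamber of the localization at `J`, keeping the coordinates outside `J`. -/
theorem lift_keep (hR : Sys R) (h : IsCh R S κ) {J : Finset ι} (hJS : J ⊆ S) {κJ : Fam ι V}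
    (hJ : IsCh (loc R S κ J) J κJ) :
    ∃ κ' : Fam ι V, IsCh R S κ' ∧ (∀ j ∈ J, κ'.B j = κJ.B j) ∧
      (∀ i ∈ S, i ∉ J → ∀ v, κ'.x i v = κ.x i v) := by
  obtain ⟨κ', h1, h2, h3, -⟩ := lift hR h hJS hJ (h.con J)
  exact ⟨κ', h1, h2, fun i hi hiJ v => by rw [h3 i hi hiJ, h.x_proj_of v hi hiJ]⟩

/-- Expansion of a functional on a root. -/
theorem IsCh.apply_eq (h : IsCh R S κ) {ρ : V} (hρ : ρ ∈ R) (f : V →ₗ[ℝ] ℝ) :
    f ρ = ∑ i ∈ S, κ.x i ρ * f (κ.B i) := by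
  conv_lhs => rw [h.repr ρ hρ, map_sum]
  simp

/-- Two chambers with the same simple roots on `J` have the same localization at `J`,
with the same coordinates. -/
theorem IsCh.agree (h : IsCh R S κ) {κ' : Fam ι V} (h' : IsCh R S κ') {J : Finset ι}
    (hJS : J ⊆ S) (hB : ∀ j ∈ J, κ'.B j = κ.B j) {ρ : V} (hρ : ρ ∈ R) (hs : Sup S κ J ρ) :
    ∀ i ∈ S, κ'.x i ρ = κ.x i ρ := by
  intro i hi
  conv_lhs => rw [h.repr_sup hJS hρ hs]
  rw [Finset.sum_congr rfl fun j hj => by rw [← hB j hj], h'.x_sum hJS _ hi]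
  split_ifs with hiJ
  · rfl
  · exact (hs i hi hiJ).symm

/-- The chamber with all simple roots negated. -/
def Fam.neg (κ : Fam ι V) : Fam ι V := ⟨fun i => -κ.B i, fun i => -κ.x i⟩

@[simp] theorem Fam.neg_B (κ : Fam ι V) (i : ι) : κ.neg.B i = -κ.B i := rfl
@[simp] theorem Fam.neg_x (κ : Fam ι V) (i : ι) (v : V) : κ.neg.x i v = -κ.x i v := rfl

theorem IsCh.neg (hR : Sys R) (h : IsCh R S κ) : IsCh R S κ.neg where
  dual := fun i hi j hj => by simpa using h.dual i hi j hj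
  mem := fun i hi => hR.neg_mem (h.mem i hi)
  repr := fun ρ hρ => by simpa using h.repr ρ hρ
  sign := fun ρ hρ => by
    rcases h.sign ρ hρ with h1 | h1
    · exact Or.inr fun i hi => by simpa using h1 i hi
    · exact Or.inl fun i hi => by simpa using h1 i hi

/-- Rescaling of the simple roots. -/
noncomputable def Fam.scale (κ : Fam ι V) (μ : ι → ℝ) : Fam ι V :=
  ⟨fun i => μ i • κ.B i, fun i => (μ i)⁻¹ • κ.x i⟩

@[simp] theorem Fam.scale_B (κ : Fam ι V) (μ : ι → ℝ) (i : ι) :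
    (κ.scale μ).B i = μ i • κ.B i := rfl
@[simp] theorem Fam.scale_x (κ : Fam ι V) (μ : ι → ℝ) (i : ι) (v : V) :
    (κ.scale μ).x i v = (μ i)⁻¹ * κ.x i v := rfl

theorem IsCh.scale (hR : Sys R) (h : IsCh R S κ) {μ : ι → ℝ} (hμ : ∀ i, 0 < μ i) :
    IsCh R S (κ.scale μ) where
  dual := fun i hi j hj => by
    rw [Fam.scale_x, Fam.scale_B, map_smul, h.dual i hi j hj]
    split_ifs with hij
    · subst hij
      simp [(hμ i).ne']
    · simp
  mem := fun i hi => hR.smul _ (h.mem i hi) _ (hμ i).ne'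
  repr := fun ρ hρ => by
    conv_lhs => rw [h.repr ρ hρ]
    refine Finset.sum_congr rfl fun i _ => ?_
    rw [Fam.scale_x, Fam.scale_B, smul_smul]
    congr 1
    field_simp [(hμ i).ne']
  sign := fun ρ hρ => by
    rcases h.sign ρ hρ with h1 | h1
    · exact Or.inl fun i hi => mul_nonneg (inv_pos.mpr (hμ i)).le (h1 i hi)
    · exact Or.inr fun i hi => mul_nonpos_of_nonneg_of_nonpos (inv_pos.mpr (hμ i)).le (h1 i hi)

theorem sup_scale {μ : ι → ℝ} (hμ : ∀ i, 0 < μ i) {Z : Finset ι} {v : V} :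
    Sup S (κ.scale μ) Z v ↔ Sup S κ Z v := by
  refine forall_congr' fun i => forall_congr' fun _ => forall_congr' fun _ => ?_
  simp [(hμ i).ne']

theorem link_scale {μ : ι → ℝ} (hμ : ∀ i, 0 < μ i) {Z : Finset ι} {i j : ι} :
    Link R S (κ.scale μ) Z i j ↔ Link R S κ Z i j := by
  simp only [Link, sup_scale hμ, Fam.scale_x, mul_pos_iff_of_pos_left (inv_pos.mpr (hμ _))]

theorem adj_scale {μ : ι → ℝ} (hμ : ∀ i, 0 < μ i) {i j : ι} :
    Adj R S (κ.scale μ) i j ↔ Adj R S κ i j := by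
  simp only [Adj, link_scale hμ]

theorem conn_scale {μ : ι → ℝ} (hμ : ∀ i, 0 < μ i) {Z : Finset ι} :
    Conn R S (κ.scale μ) Z ↔ Conn R S κ Z := by
  simp only [Conn, adj_scale hμ]

theorem sep_scale {μ : ι → ℝ} (hμ : ∀ i, 0 < μ i) {A A' : Finset ι} :
    Sep R S (κ.scale μ) A A' ↔ Sep R S κ A A' := by
  simp only [Sep, adj_scale hμ]

theorem sup_neg {Z : Finset ι} {v : V} : Sup S κ.neg Z v ↔ Sup S κ Z v := by
  simp [Sup]

theorem link_neg (hR : Sys R) {Z : Finset ι} {i j : ι} :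
    Link R S κ.neg Z i j ↔ Link R S κ Z i j := by
  constructor
  · rintro ⟨ρ, hρ, h1, h2, h3⟩
    exact ⟨-ρ, hR.neg_mem hρ, by simpa using h1, by simpa using h2, (sup_neg.mp h3).neg⟩
  · rintro ⟨ρ, hρ, h1, h2, h3⟩
    exact ⟨-ρ, hR.neg_mem hρ, by simpa using h1, by simpa using h2, sup_neg.mpr h3.neg⟩

theorem adj_neg (hR : Sys R) {i j : ι} : Adj R S κ.neg i j ↔ Adj R S κ i j := by
  simp only [Adj, link_neg hR]

theorem conn_neg (hR : Sys R) {Z : Finset ι} : Conn R S κ.neg Z ↔ Conn R S κ Z := by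
  simp only [Conn, adj_neg hR]

/-- Crossing the wall `i`. -/
theorem cross (hR : Sys R) (h : IsCh R S κ) {i : ι} (hi : i ∈ S) :
    ∃ (κ' : Fam ι V) (c : ι → ℝ), IsCh R S κ' ∧ κ'.B i = -κ.B i ∧
      (∀ j ∈ S, j ≠ i → 0 ≤ c j ∧ κ'.B j = κ.B j + c j • κ.B i) ∧
      (∀ j ∈ S, j ≠ i → ∀ v, κ'.x j v = κ.x j v) ∧
      (∀ ρ ∈ R, κ'.x i ρ = ∑ j ∈ S.erase i, c j * κ.x j ρ - κ.x i ρ) := by
  have hsub : {i} ⊆ S := Finset.singleton_subset_iff.mpr hi
  obtain ⟨κ', h1, h2, h3⟩ := lift_keep hR h hsub ((h.loc hsub).neg (hR.loc h _))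
  have h2' : κ'.B i = -κ.B i := h2 i (Finset.mem_singleton_self i)
  have h3' : ∀ j ∈ S, j ≠ i → ∀ v, κ'.x j v = κ.x j v := fun j hj hji v =>
    h3 j hj (by simpa using hji) v
  have h4 : ∀ j ∈ S, j ≠ i → 0 ≤ κ.x i (κ'.B j) ∧ κ'.B j = κ.B j + κ.x i (κ'.B j) • κ.B i := by
    intro j hj hji
    have hm := h1.mem j hj
    have hj1 : κ.x j (κ'.B j) = 1 := by rw [← h3' j hj hji, h1.x_self hj]
    refine ⟨h.nonneg hm hj (by rw [hj1]; exact one_pos) i hi, ?_⟩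
    have hs : Sup S κ {j, i} (κ'.B j) := by
      intro k hk hk'
      simp only [Finset.mem_insert, Finset.mem_singleton, not_or] at hk'
      rw [← h3' k hk hk'.2, h1.x_ne hk hj hk'.1]
    conv_lhs => rw [h.repr_sup (by
      intro k hk
      rcases Finset.mem_insert.mp hk with rfl | hk
      · exact hj
      · exact hsub hk) hm hs]
    rw [Finset.sum_pair hji, hj1, one_smul]
  refine ⟨κ', fun j => κ.x i (κ'.B j), h1, h2', h4, h3', ?_⟩
  intro ρ hρ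
  have := h1.apply_eq hρ (κ.x i)
  rw [← Finset.add_sum_erase S _ hi, h2', map_neg, h.x_self hi] at this
  have h5 : ∑ j ∈ S.erase i, κ'.x j ρ * κ.x i (κ'.B j) =
      ∑ j ∈ S.erase i, κ.x i (κ'.B j) * κ.x j ρ :=
    Finset.sum_congr rfl fun j hj => by
      rw [h3' j (Finset.mem_of_mem_erase hj) (Finset.ne_of_mem_erase hj), mul_comm]
  rw [h5] at this
  linarith

end Pool.Agent.SimpArr
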