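import Pool.Agent.P.MP_0b4c38_co.Basic2

/-! Simplicial root systems: connectivity, product lemma, top roots. -/

set_option autoImplicit false

open Classical

namespace Pool.Agent.SimpArr

variable {V : Type} [AddCommGroup V] [Module ℝ V] {ι : Type}
variable {R : Set V} {S : Finset ι} {κ : Fam ι V}

theorem Link.symm {Z : Finset ι} {i j : ι} (h : Link R S κ Z i j) : Link R S κ Z j i := by
  obtain ⟨ρ, h1, h2, h3, h4⟩ := h
  exact ⟨ρ, h1, h3, h2, by rwa [Finset.insert_comm]⟩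

theorem Link.mono {Z Z' : Finset ι} {i j : ι} (h : Link R S κ Z i j) (hZ : Z ⊆ Z') :
    Link R S κ Z' i j := by
  obtain ⟨ρ, h1, h2, h3, h4⟩ := h
  exact ⟨ρ, h1, h2, h3, h4.mono (Finset.insert_subset_insert _ (Finset.insert_subset_insert _ hZ))⟩

theorem Adj.symm {i j : ι} (h : Adj R S κ i j) : Adj R S κ j i := ⟨h.1.symm, h.2.symm⟩

theorem Adj.link {i j : ι} (h : Adj R S κ i j) (Z : Finset ι) : Link R S κ Z i j :=
  h.2.mono (Finset.empty_subset _)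

theorem Sep.symm {A A' : Finset ι} (h : Sep R S κ A A') : Sep R S κ A' A :=
  fun i hi j hj hij => h j hj i hi hij.symm

theorem Sep.mono {A A' C C' : Finset ι} (h : Sep R S κ A A') (h1 : C ⊆ A) (h2 : C' ⊆ A') :
    Sep R S κ C C' := fun i hi j hj => h i (h1 hi) j (h2 hj)

/-- A root of the form `B i + d • B j` witnesses adjacency. -/
theorem IsCh.adj_of_add (h : IsCh R S κ) {i j : ι} (hi : i ∈ S) (hj : j ∈ S) (hij : i ≠ j)
    {d : ℝ} (hd : 0 < d) (hm : κ.B i + d • κ.B j ∈ R) : Adj R S κ i j := by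
  refine ⟨hij, _, hm, ?_, ?_, ?_⟩
  · simp [h.x_self hi, h.x_ne hi hj hij]
  · simp [h.x_self hj, h.x_ne hj hi hij.symm, hd]
  · intro k hk hk'
    simp only [Finset.mem_insert, not_or] at hk'
    simp [h.x_ne hk hi hk'.1, h.x_ne hk hj hk'.2.1]

/-- Adjacency gives a root of the form `B i + d • B j`. -/
theorem IsCh.add_of_adj (hR : Sys R) (h : IsCh R S κ) {i j : ι} (hi : i ∈ S) (hj : j ∈ S)
    (ha : Adj R S κ i j) : ∃ d : ℝ, 0 < d ∧ κ.B i + d • κ.B j ∈ R := by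
  obtain ⟨hij, ρ, hρ, h1, h2, h3⟩ := ha
  have h4 := h.repr_sup (Z := {i, j}) (by
    intro k hk
    rcases Finset.mem_insert.mp hk with rfl | hk
    · exact hi
    · rw [Finset.mem_singleton.mp hk]; exact hj) hρ (by simpa using h3)
  rw [Finset.sum_pair hij] at h4
  refine ⟨(κ.x i ρ)⁻¹ * κ.x j ρ, mul_pos (inv_pos.mpr h1) h2, ?_⟩
  have := hR.smul ρ hρ (κ.x i ρ)⁻¹ (inv_pos.mpr h1).ne'
  rw [h4, smul_add, smul_smul, smul_smul, ← h4, inv_mul_cancel₀ h1.ne', one_smul] at this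
  exact this

/-- Negating the simple roots of one part of a reducible system. -/
noncomputable def Fam.mix (κ : Fam ι V) (A : Finset ι) : Fam ι V :=
  ⟨fun i => if i ∈ A then -κ.B i else κ.B i, fun i => if i ∈ A then -κ.x i else κ.x i⟩

theorem Fam.mix_B_in (κ : Fam ι V) {A : Finset ι} {i : ι} (h : i ∈ A) :
    (κ.mix A).B i = -κ.B i := by simp [Fam.mix, h]
theorem Fam.mix_B_out (κ : Fam ι V) {A : Finset ι} {i : ι} (h : i ∉ A) :
    (κ.mix A).B i = κ.B i := by simp [Fam.mix, h]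
theorem Fam.mix_x_in (κ : Fam ι V) {A : Finset ι} {i : ι} (h : i ∈ A) (v : V) :
    (κ.mix A).x i v = -κ.x i v := by simp [Fam.mix, h]
theorem Fam.mix_x_out (κ : Fam ι V) {A : Finset ι} {i : ι} (h : i ∉ A) (v : V) :
    (κ.mix A).x i v = κ.x i v := by simp [Fam.mix, h]

theorem IsCh.mix (hR : Sys R) (h : IsCh R S κ) {A : Finset ι}
    (hs : ∀ ρ ∈ R, Sup S κ A ρ ∨ Sup S κ (S \ A) ρ) : IsCh R S (κ.mix A) where
  dual := fun i hi j hj => by
    by_cases h1 : i ∈ A <;> by_cases h2 : j ∈ A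
    · rw [κ.mix_x_in h1, κ.mix_B_in h2, map_neg, neg_neg, h.dual i hi j hj]
    · have : i ≠ j := fun e => h2 (e ▸ h1)
      rw [κ.mix_x_in h1, κ.mix_B_out h2, h.x_ne hi hj this, if_neg this, neg_zero]
    · have : i ≠ j := fun e => h1 (e ▸ h2)
      rw [κ.mix_x_out h1, κ.mix_B_in h2, map_neg, h.x_ne hi hj this, if_neg this, neg_zero]
    · rw [κ.mix_x_out h1, κ.mix_B_out h2, h.dual i hi j hj]
  mem := fun i hi => by
    by_cases h1 : i ∈ A
    · rw [κ.mix_B_in h1]; exact hR.neg_mem (h.mem i hi)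
    · rw [κ.mix_B_out h1]; exact h.mem i hi
  repr := fun ρ hρ => by
    conv_lhs => rw [h.repr ρ hρ]
    refine Finset.sum_congr rfl fun i _ => ?_
    by_cases h1 : i ∈ A
    · rw [κ.mix_B_in h1, κ.mix_x_in h1, neg_smul_neg]
    · rw [κ.mix_B_out h1, κ.mix_x_out h1]
  sign := fun ρ hρ => by
    rcases hs ρ hρ with h2 | h2 <;> rcases h.sign ρ hρ with h1 | h1
    · refine Or.inr fun i hi => ?_
      by_cases h3 : i ∈ A
      · rw [κ.mix_x_in h3]; linarith [h1 i hi]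
      · rw [κ.mix_x_out h3, h2 i hi h3]
    · refine Or.inl fun i hi => ?_
      by_cases h3 : i ∈ A
      · rw [κ.mix_x_in h3]; linarith [h1 i hi]
      · rw [κ.mix_x_out h3, h2 i hi h3]
    · refine Or.inl fun i hi => ?_
      by_cases h3 : i ∈ A
      · rw [κ.mix_x_in h3, h2 i hi (by simp [h3]), neg_zero]
      · rw [κ.mix_x_out h3]; exact h1 i hi
    · refine Or.inr fun i hi => ?_
      by_cases h3 : i ∈ A
      · rw [κ.mix_x_in h3, h2 i hi (by simp [h3]), neg_zero]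
      · rw [κ.mix_x_out h3]; exact h1 i hi

theorem sup_loc {U Z : Finset ι} (hU : U ⊆ S) {v : V} (hv : Sup S κ U v) :
    Sup U κ Z v ↔ Sup S κ Z v := by
  constructor
  · intro h i hi hiZ
    by_cases hiU : i ∈ U
    · exact h i hiU hiZ
    · exact hv i hi hiU
  · intro h i hi hiZ
    exact h i (hU hi) hiZ

/-- Product lemma under the hypothesis that the roots with `x a = 0` are one sided. -/
theorem prod_aux (hR : Sys R) (h : IsCh R S κ) {a : ι} (ha : a ∈ S) {A : Finset ι}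
    (hs : ∀ ρ ∈ R, κ.x a ρ = 0 → Sup S κ A ρ ∨ Sup S κ (S.erase a \ A) ρ) :
    ∃ β ∈ R, κ.x a β = 1 ∧ (∀ i ∈ S, i ≠ a → i ∉ A → κ.x i β = 0) ∧
      ∀ ρ ∈ R, ∀ i ∈ S, i ≠ a → i ∈ A → 0 < κ.x a ρ → κ.x i ρ ≤ κ.x a ρ * κ.x i β := by
  have hsub : S.erase a ⊆ S := Finset.erase_subset _ _
  have hm : IsCh (loc R S κ (S.erase a)) (S.erase a) (κ.mix A) := by
    apply (h.loc hsub).mix (hR.loc h _)
    intro ρ hρ
    rcases hs ρ hρ.1 (hρ.2 a ha (Finset.notMem_erase _ _)) with h1 | h1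
    · exact Or.inl ((sup_loc hsub hρ.2).mpr h1)
    · exact Or.inr ((sup_loc hsub hρ.2).mpr h1)
  obtain ⟨κ', h1, h2, h3⟩ := lift_keep hR h hsub hm
  have h3' : ∀ v, κ'.x a v = κ.x a v := h3 a ha (Finset.notMem_erase _ _)
  have hβ : κ.x a (κ'.B a) = 1 := by rw [← h3', h1.x_self ha]
  have key : ∀ ρ ∈ R, ∀ i ∈ S, i ≠ a →
      κ.x i ρ = κ.x a ρ * κ.x i (κ'.B a) + (if i ∈ A then -κ'.x i ρ else κ'.x i ρ) := by
    intro ρ hρ i hi hia
    rw [h1.apply_eq hρ (κ.x i), ← Finset.add_sum_erase S _ ha, h3',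
      Finset.sum_eq_single i]
    · rw [h2 i (Finset.mem_erase.mpr ⟨hia, hi⟩)]
      split_ifs with hA
      · rw [κ.mix_B_in hA, map_neg, h.x_self hi]; ring
      · rw [κ.mix_B_out hA, h.x_self hi]; ring
    · intro k hk hki
      rw [h2 k hk]
      by_cases hA : k ∈ A
      · rw [κ.mix_B_in hA, map_neg, h.x_ne hi (hsub hk) hki.symm]; ring
      · rw [κ.mix_B_out hA, h.x_ne hi (hsub hk) hki.symm]; ring
    · intro hc
      exact absurd (Finset.mem_erase.mpr ⟨hia, hi⟩) hc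
  refine ⟨κ'.B a, h1.mem a ha, hβ, ?_, ?_⟩
  · intro i hi hia hA
    have e1 := key _ (h.mem a ha) i hi hia
    rw [if_neg hA, h.x_ne hi ha hia, h.x_self ha] at e1
    have e2 := h1.nonneg (h.mem a ha) ha (by rw [h3', h.x_self ha]; exact one_pos) i hi
    have e3 := h.nonneg (h1.mem a ha) ha (by rw [hβ]; exact one_pos) i hi
    linarith
  · intro ρ hρ i hi hia hA hp
    have e1 := key _ hρ i hi hia
    rw [if_pos hA] at e1
    have e2 := h1.nonneg hρ ha (by rw [h3']; exact hp) i hi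
    linarith

/-- Roots supported in two separated sets are one sided. -/
theorem one_sided (hR : Sys R) (h : IsCh R S κ) {A A' : Finset ι} (hd : Disjoint A A')
    (hsep : Sep R S κ A A') {ρ : V} (hρ : ρ ∈ R) (hs : Sup S κ (A ∪ A') ρ) :
    Sup S κ A ρ ∨ Sup S κ A' ρ := by
  generalize hn : (S.filter fun i => κ.x i ρ ≠ 0).card = n
  induction n using Nat.strong_induction_on generalizing ρ A A' with
  | _ n ih =>
  by_contra hc
  rw [not_or] at hc
  obtain ⟨hc1, hc2⟩ := hc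
  simp only [Sup, not_forall] at hc1 hc2
  obtain ⟨j, hj, hjA, hj0⟩ := hc1
  obtain ⟨i, hi, hiA, hi0⟩ := hc2
  have hjA' : j ∈ A' := by
    by_contra h'
    exact hj0 (hs j hj (by simp [hjA, h']))
  have hiA' : i ∈ A := by
    by_contra h'
    exact hi0 (hs i hi (by simp [hiA, h']))
  -- main step
  have main : ∀ (A A' : Finset ι) (i j : ι), Disjoint A A' → Sep R S κ A A' →
      Sup S κ (A ∪ A') ρ → i ∈ S → j ∈ S → i ∈ A → j ∈ A' → κ.x i ρ ≠ 0 → κ.x j ρ ≠ 0 →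
      ∀ k ∈ S, k ∈ A → k ≠ i → κ.x k ρ = 0 := by
    intro A A' i j hd hsep hs hi hj hiA hjA hi0 hj0 k hk hkA hki
    by_contra hk0
    set Z := S.filter fun i => κ.x i ρ ≠ 0 with hZ
    have hZS : Z ⊆ S := Finset.filter_subset _ _
    have hiZ : i ∈ Z := Finset.mem_filter.mpr ⟨hi, hi0⟩
    have hjZ : j ∈ Z := Finset.mem_filter.mpr ⟨hj, hj0⟩
    have hkZ : k ∈ Z := Finset.mem_filter.mpr ⟨hk, hk0⟩
    have hZA : Z ⊆ A ∪ A' := fun l hl => by
      by_contra h'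
      exact (Finset.mem_filter.mp hl).2 (hs l (hZS hl) h')
    have small : ∀ σ ∈ R, Sup S κ Z σ → ∀ l ∈ Z, κ.x l σ = 0 → Sup S κ A σ ∨ Sup S κ A' σ := by
      intro σ hσ hσs l hl hl0
      refine ih _ ?_ hd hsep hσ (hσs.mono hZA) rfl
      rw [← hn]
      apply Finset.card_lt_card
      refine ⟨fun m hm => ?_, fun hsub => ?_⟩
      · by_contra h'
        exact (Finset.mem_filter.mp hm).2 (hσs m (Finset.mem_filter.mp hm).1 h')
      · exact (Finset.mem_filter.mp (hsub hl)).2 hl0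
    have hρZ : Sup S κ Z ρ := fun l hl hlZ => by
      by_contra h'
      exact hlZ (Finset.mem_filter.mpr ⟨hl, h'⟩)
    obtain ⟨β, hβ, hβ1, hβ2, hβ3⟩ := prod_aux (hR.loc h Z) (h.loc hZS) hiZ (A := A') (by
      intro σ hσ h0
      rcases small σ hσ.1 hσ.2 i hiZ h0 with h1 | h1
      · right
        intro l hl hl'
        by_cases hli : l = i
        · rw [hli, h0]
        · apply h1 l (hZS hl)
          intro hlA
          exact hl' (Finset.mem_sdiff.mpr ⟨Finset.mem_erase.mpr ⟨hli, hl⟩,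
            Finset.disjoint_left.mp hd hlA⟩)
      · exact Or.inl fun l hl hl' => h1 l (hZS hl) hl')
    have hij : j ≠ i := fun e => Finset.disjoint_left.mp hd hiA (e ▸ hjA)
    have hβj : κ.x j β = 0 := by
      rcases small β hβ.1 hβ.2 k hkZ (hβ2 k hkZ hki (Finset.disjoint_left.mp hd hkA)) with h1 | h1
      · exact h1 j hj (Finset.disjoint_right.mp hd hjA)
      · have := h1 i hi (Finset.disjoint_left.mp hd hiA)
        rw [hβ1] at this
        exact absurd this one_ne_zero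
    rcases lt_or_gt_of_ne hi0 with hn0 | hn0
    · have e1 := hβ3 (-ρ) ⟨hR.neg_mem hρ, hρZ.neg⟩ j hjZ hij hjA (by rw [map_neg]; linarith)
      rw [hβj, mul_zero, map_neg] at e1
      have := h.nonpos hρ hi hn0 j hj
      exact hj0 (by linarith)
    · have e1 := hβ3 ρ ⟨hρ, hρZ⟩ j hjZ hij hjA hn0
      rw [hβj, mul_zero] at e1
      have := h.nonneg hρ hi hn0 j hj
      exact hj0 (by linarith)
  have m1 := main A A' i j hd hsep hs hi hj hiA' hjA' hi0 hj0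
  have m2 := main A' A j i hd.symm hsep.symm (by rwa [Finset.union_comm]) hj hi hjA' hiA' hj0 hi0
  have hij : i ≠ j := fun e => Finset.disjoint_left.mp hd hiA' (e ▸ hjA')
  have hsup : Sup S κ (insert i (insert j ∅)) ρ := by
    intro k hk hk'
    simp only [Finset.mem_insert, not_or] at hk'
    by_cases h1 : k ∈ A
    · exact m1 k hk h1 hk'.1
    · by_cases h2 : k ∈ A'
      · exact m2 k hk h2 hk'.2.1
      · exact hs k hk (by simp [h1, h2])
  apply hsep i hiA' j hjA'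
  refine ⟨hij, ?_⟩
  rcases lt_or_gt_of_ne hi0 with hn0 | hn0
  · have := h.nonpos hρ hi hn0 j hj
    exact ⟨-ρ, hR.neg_mem hρ, by rw [map_neg]; linarith,
      by rw [map_neg]; exact neg_pos.mpr (lt_of_le_of_ne this hj0), hsup.neg⟩
  · have := h.nonneg hρ hi hn0 j hj
    exact ⟨ρ, hρ, hn0, lt_of_le_of_ne this (Ne.symm hj0), hsup⟩

/-- A root supported in two separated sets and meeting the first one is supported in it. -/
theorem sup_of_sep (hR : Sys R) (h : IsCh R S κ) {A A' : Finset ι} (hd : Disjoint A A')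
    (hsep : Sep R S κ A A') {ρ : V} (hρ : ρ ∈ R) (hs : Sup S κ (A ∪ A') ρ) {i : ι} (hi : i ∈ S)
    (hiA : i ∈ A) (h0 : κ.x i ρ ≠ 0) : Sup S κ A ρ :=
  (one_sided hR h hd hsep hρ hs).resolve_right fun h1 =>
    h0 (h1 i hi (Finset.disjoint_left.mp hd hiA))

/-- Product lemma: if `S` minus `a` splits into the separated parts `A` and the rest, there is a
root with `x a = 1`, vanishing on the rest and maximal on `A`. -/
theorem prod (hR : Sys R) (h : IsCh R S κ) {a : ι} (ha : a ∈ S) {A : Finset ι}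
    (hsep : Sep R S κ A (S.erase a \ A)) :
    ∃ β ∈ R, κ.x a β = 1 ∧ (∀ i ∈ S, i ≠ a → i ∉ A → κ.x i β = 0) ∧
      ∀ ρ ∈ R, ∀ i ∈ S, i ≠ a → i ∈ A → 0 < κ.x a ρ → κ.x i ρ ≤ κ.x a ρ * κ.x i β := by
  apply prod_aux hR h ha
  intro ρ hρ h0
  apply one_sided hR h Finset.disjoint_sdiff hsep hρ
  intro i hi hi'
  by_cases hia : i = a
  · rw [hia, h0]
  · exfalso
    apply hi'
    by_cases hA : i ∈ A <;> simp [hA, hia, hi]

/-- Top root. -/
theorem top (hR : Sys R) (h : IsCh R S κ) {a : ι} (ha : a ∈ S) :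
    ∃ β ∈ R, κ.x a β = 1 ∧
      ∀ ρ ∈ R, ∀ i ∈ S, 0 < κ.x a ρ → κ.x i ρ ≤ κ.x a ρ * κ.x i β := by
  obtain ⟨β, h1, h2, -, h4⟩ := prod hR h ha (A := S) (by
    intro i _ j hj
    simp at hj
    exact absurd hj.1.2 hj.2)
  refine ⟨β, h1, h2, fun ρ hρ i hi hp => ?_⟩
  by_cases hia : i = a
  · rw [hia, h2, mul_one]
  · exact h4 ρ hρ i hi hia hi hp

/-- Top root of a localization. -/
theorem top_loc (hR : Sys R) (h : IsCh R S κ) {U : Finset ι} (hU : U ⊆ S) {a : ι} (ha : a ∈ U) :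
    ∃ β ∈ R, Sup S κ U β ∧ κ.x a β = 1 ∧
      ∀ ρ ∈ R, Sup S κ U ρ → ∀ i ∈ S, 0 < κ.x a ρ → κ.x i ρ ≤ κ.x a ρ * κ.x i β := by
  obtain ⟨β, h1, h2, h3⟩ := top (hR.loc h U) (h.loc hU) ha
  refine ⟨β, h1.1, h1.2, h2, fun ρ hρ hs i hi hp => ?_⟩
  by_cases hiU : i ∈ U
  · exact h3 ρ ⟨hρ, hs⟩ i hiU hp
  · rw [hs i hi hiU, h1.2 i hi hiU, mul_zero]

/-- The support of a root is connected. -/
theorem conn_of_root (hR : Sys R) (h : IsCh R S κ) {Z : Finset ι} (hZ : Z ⊆ S) {ρ : V}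
    (hρ : ρ ∈ R) (hs : Sup S κ Z ρ) (h0 : ∀ i ∈ Z, κ.x i ρ ≠ 0) : Conn R S κ Z := by
  intro A hA hne hAZ
  by_contra hc
  push Not at hc
  have hsep : Sep R S κ A (Z \ A) := fun i hi j hj =>
    hc i hi j (Finset.mem_sdiff.mp hj).1 (Finset.mem_sdiff.mp hj).2
  obtain ⟨i, hi⟩ := hne
  have := sup_of_sep hR h Finset.disjoint_sdiff hsep hρ
    (by rwa [Finset.union_sdiff_of_subset hA]) (hZ (hA hi)) hi (h0 i (hA hi))
  apply hAZ
  refine Finset.Subset.antisymm hA fun j hj => ?_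
  by_contra hjA
  exact h0 j hj (this j (hZ hj) hjA)

/-- Connected components. -/
theorem comp (hR : Sys R) (h : IsCh R S κ) {Z : Finset ι} (hZ : Z ⊆ S) {i : ι} (hi : i ∈ Z) :
    ∃ M ⊆ Z, i ∈ M ∧ Conn R S κ M ∧ Sep R S κ M (Z \ M) ∧
      ∃ ρ ∈ R, Sup S κ M ρ ∧ ∀ j ∈ M, 0 < κ.x j ρ := by
  obtain ⟨τ, hτ, hτs, hτ1, hτ2⟩ := top_loc hR h hZ hi
  have hτ0 := h.nonneg hτ (hZ hi) (by rw [hτ1]; exact one_pos)
  have hs : Sup S κ (Z.filter fun j => 0 < κ.x j τ) τ := by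
    intro j hj hj'
    by_cases hjZ : j ∈ Z
    · have := hτ0 j hj
      simp only [Finset.mem_filter, hjZ, true_and, not_lt] at hj'
      linarith
    · exact hτs j hj hjZ
  refine ⟨Z.filter fun j => 0 < κ.x j τ, Finset.filter_subset _ _,
    Finset.mem_filter.mpr ⟨hi, by rw [hτ1]; exact one_pos⟩, ?_, ?_, τ, hτ, hs,
    fun j hj => (Finset.mem_filter.mp hj).2⟩
  · exact conn_of_root hR h ((Finset.filter_subset _ _).trans hZ) hτ hs
      fun j hj => (Finset.mem_filter.mp hj).2.ne'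
  · rintro j hj k hk ⟨-, ρ, hρ, h1, h2, h3⟩
    obtain ⟨hjZ, hj0⟩ := Finset.mem_filter.mp hj
    obtain ⟨hkZ, hk0⟩ := Finset.mem_sdiff.mp hk
    obtain ⟨σ, hσ, hσs, hσ1, hσ2⟩ := top_loc hR h hZ hjZ
    have e1 := hσ2 ρ hρ (h3.mono (by
      intro l hl
      simp only [Finset.mem_insert, Finset.notMem_empty, or_false] at hl
      rcases hl with rfl | rfl
      · exact hjZ
      · exact hkZ)) k (hZ hkZ) h1
    have e2 := hσ2 τ hτ hτs i (hZ hi) hj0
    rw [hτ1] at e2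
    have e3 : 0 < κ.x i σ := (mul_pos_iff_of_pos_left hj0).mp (by linarith)
    have e4 : 0 < κ.x k σ := (mul_pos_iff_of_pos_left h1).mp (by linarith)
    have e5 := hτ2 σ hσ hσs k (hZ hkZ) e3
    exact hk0 (Finset.mem_filter.mpr ⟨hkZ, (mul_pos_iff_of_pos_left e3).mp (by linarith)⟩)

/-- A connected set meeting a closed part lies inside it. -/
theorem Conn.subset_of_sep {Y M Z : Finset ι} (hY : Conn R S κ Y) (hYZ : Y ⊆ Z)
    (hsep : Sep R S κ M (Z \ M)) {i : ι} (hiY : i ∈ Y) (hiM : i ∈ M) : Y ⊆ M := by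
  by_contra hc
  obtain ⟨j, hj, k, hk, hk', hadj⟩ := hY (Y ∩ M) Finset.inter_subset_left
    ⟨i, Finset.mem_inter.mpr ⟨hiY, hiM⟩⟩ fun e => hc (Finset.inter_eq_left.mp e)
  exact hsep j (Finset.mem_inter.mp hj).2 k
    (Finset.mem_sdiff.mpr ⟨hYZ hk, fun h' => hk' (Finset.mem_inter.mpr ⟨hk, h'⟩)⟩) hadj

/-- A connected set is the support of a positive root. -/
theorem full (hR : Sys R) (h : IsCh R S κ) {Z : Finset ι} (hZ : Z ⊆ S) (hc : Conn R S κ Z)
    (hne : Z.Nonempty) : ∃ ρ ∈ R, Sup S κ Z ρ ∧ ∀ j ∈ Z, 0 < κ.x j ρ := by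
  obtain ⟨i, hi⟩ := hne
  obtain ⟨M, h1, h2, -, h4, ρ, hρ, h5, h6⟩ := comp hR h hZ hi
  exact ⟨ρ, hρ, h5.mono h1, fun j hj => h6 j (hc.subset_of_sep subset_rfl h4 hi h2 hj)⟩

theorem conn_singleton (i : ι) : Conn R S κ {i} := by
  intro A hA hne hAZ
  exact absurd (Finset.Subset.antisymm hA (by
    obtain ⟨j, hj⟩ := hne
    rw [Finset.singleton_subset_iff, ← Finset.mem_singleton.mp (hA hj)]
    exact hj)) hAZ

theorem conn_empty : Conn R S κ ∅ := by
  intro A hA hne _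
  obtain ⟨j, hj⟩ := hne
  exact absurd (hA hj) (Finset.notMem_empty _)

/-- To check connectedness it suffices to consider cuts avoiding a given node. -/
theorem conn_of_avoid {Z : Finset ι} {z : ι} (hz : z ∈ Z)
    (hc : ∀ A ⊆ Z, A.Nonempty → z ∉ A → ∃ i ∈ A, ∃ j ∈ Z, j ∉ A ∧ Adj R S κ i j) :
    Conn R S κ Z := by
  intro A hA hne hAZ
  by_cases hzA : z ∈ A
  · obtain ⟨i, hi, j, hj, hj', hadj⟩ := hc (Z \ A) Finset.sdiff_subset
      (Finset.sdiff_nonempty.mpr fun h' => hAZ (Finset.Subset.antisymm hA h'))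
      (by simp [hzA])
    refine ⟨j, ?_, i, (Finset.mem_sdiff.mp hi).1, (Finset.mem_sdiff.mp hi).2, hadj.symm⟩
    by_contra h'
    exact hj' (Finset.mem_sdiff.mpr ⟨hj, h'⟩)
  · exact hc A hA hne hzA

theorem Conn.union {Y Y' : Finset ι} (hY : Conn R S κ Y) (hY' : Conn R S κ Y') {z : ι}
    (hz : z ∈ Y) (hz' : z ∈ Y') : Conn R S κ (Y ∪ Y') := by
  apply conn_of_avoid (Finset.mem_union_left _ hz)
  rintro A hA ⟨i, hi⟩ hzA
  rcases Finset.mem_union.mp (hA hi) with h1 | h1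
  · obtain ⟨j, hj, k, hk, hk', hadj⟩ := hY (Y ∩ A) Finset.inter_subset_left
      ⟨i, Finset.mem_inter.mpr ⟨h1, hi⟩⟩ fun e => hzA (Finset.mem_inter.mp (e ▸ hz)).2
    exact ⟨j, (Finset.mem_inter.mp hj).2, k, Finset.mem_union_left _ hk,
      fun h' => hk' (Finset.mem_inter.mpr ⟨hk, h'⟩), hadj⟩
  · obtain ⟨j, hj, k, hk, hk', hadj⟩ := hY' (Y' ∩ A) Finset.inter_subset_left
      ⟨i, Finset.mem_inter.mpr ⟨h1, hi⟩⟩ fun e => hzA (Finset.mem_inter.mp (e ▸ hz')).2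
    exact ⟨j, (Finset.mem_inter.mp hj).2, k, Finset.mem_union_right _ hk,
      fun h' => hk' (Finset.mem_inter.mpr ⟨hk, h'⟩), hadj⟩

theorem Adj.conn {i j : ι} (h : Adj R S κ i j) : Conn R S κ {i, j} := by
  apply conn_of_avoid (z := j) (by simp)
  rintro A hA ⟨k, hk⟩ hj
  have hki : k = i := by
    rcases Finset.mem_insert.mp (hA hk) with h1 | h1
    · exact h1
    · exact absurd (Finset.mem_singleton.mp h1 ▸ hk) hj
  exact ⟨i, hki ▸ hk, j, by simp, hj, h⟩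

theorem Conn.insert {Y : Finset ι} (hY : Conn R S κ Y) {i j : ι} (hi : i ∈ Y)
    (hadj : Adj R S κ i j) : Conn R S κ (insert j Y) := by
  have := hY.union hadj.conn hi (by simp)
  have e : Y ∪ {i, j} = Insert.insert j Y := by
    ext k
    simp only [Finset.mem_union, Finset.mem_insert, Finset.mem_singleton]
    constructor
    · rintro (h | rfl | rfl)
      · exact Or.inr h
      · exact Or.inr hi
      · exact Or.inl rfl
    · rintro (rfl | h)
      · exact Or.inr (Or.inr rfl)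
      · exact Or.inl h
  rwa [e] at this

theorem Conn.union_adj {Y Y' : Finset ι} (hY : Conn R S κ Y) (hY' : Conn R S κ Y') {i j : ι}
    (hi : i ∈ Y) (hj : j ∈ Y') (hadj : Adj R S κ i j) : Conn R S κ (Y ∪ Y') := by
  have := (hY.insert hi hadj).union hY' (Finset.mem_insert_self _ _) hj
  rwa [Finset.insert_union, Finset.insert_eq_of_mem (Finset.mem_union_right _ hj)] at this

theorem link_of_conn (hR : Sys R) (h : IsCh R S κ) {Y Z : Finset ι} (hYS : Y ⊆ S)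
    (hY : Conn R S κ Y) {i j : ι} (hi : i ∈ Y) (hj : j ∈ Y)
    (hsub : Y ⊆ insert i (insert j Z)) : Link R S κ Z i j := by
  obtain ⟨ρ, hρ, h1, h2⟩ := full hR h hYS hY ⟨i, hi⟩
  exact ⟨ρ, hρ, h2 i hi, h2 j hj, h1.mono hsub⟩

theorem conn_of_link (hR : Sys R) (h : IsCh R S κ) {Z : Finset ι} {i j : ι} (hi : i ∈ S)
    (hj : j ∈ S) (hl : Link R S κ Z i j) :
    ∃ Y ⊆ S, Y ⊆ insert i (insert j Z) ∧ i ∈ Y ∧ j ∈ Y ∧ Conn R S κ Y := by
  obtain ⟨ρ, hρ, h1, h2, h3⟩ := hl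
  refine ⟨S.filter fun k => κ.x k ρ ≠ 0, Finset.filter_subset _ _, ?_,
    Finset.mem_filter.mpr ⟨hi, h1.ne'⟩, Finset.mem_filter.mpr ⟨hj, h2.ne'⟩, ?_⟩
  · intro k hk
    by_contra h'
    exact (Finset.mem_filter.mp hk).2 (h3 k (Finset.mem_filter.mp hk).1 h')
  · apply conn_of_root hR h (Finset.filter_subset _ _) hρ
    · intro k hk hk'
      by_contra h'
      exact hk' (Finset.mem_filter.mpr ⟨hk, h'⟩)
    · exact fun k hk => (Finset.mem_filter.mp hk).2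

/-! Transfer to localizations -/

theorem link_loc {U Z : Finset ι} (hU : U ⊆ S) {i j : ι} (hZ : insert i (insert j Z) ⊆ U) :
    Link (loc R S κ U) U κ Z i j ↔ Link R S κ Z i j := by
  constructor
  · rintro ⟨ρ, hρ, h1, h2, h3⟩
    exact ⟨ρ, hρ.1, h1, h2, (sup_loc hU hρ.2).mp h3⟩
  · rintro ⟨ρ, hρ, h1, h2, h3⟩
    exact ⟨ρ, ⟨hρ, h3.mono hZ⟩, h1, h2, (sup_loc hU (h3.mono hZ)).mpr h3⟩

theorem adj_loc {U : Finset ι} (hU : U ⊆ S) {i j : ι} (hi : i ∈ U) (hj : j ∈ U) :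
    Adj (loc R S κ U) U κ i j ↔ Adj R S κ i j := by
  unfold Adj
  rw [link_loc hU (by simp [Finset.insert_subset_iff, hi, hj])]

theorem conn_loc {U Z : Finset ι} (hU : U ⊆ S) (hZ : Z ⊆ U) :
    Conn (loc R S κ U) U κ Z ↔ Conn R S κ Z := by
  refine forall_congr' fun A => forall_congr' fun hA => forall_congr' fun _ =>
    forall_congr' fun _ => ?_
  constructor
  · rintro ⟨i, hi, j, hj, h1, h2⟩
    exact ⟨i, hi, j, hj, h1, (adj_loc hU (hZ (hA hi)) (hZ hj)).mp h2⟩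
  · rintro ⟨i, hi, j, hj, h1, h2⟩
    exact ⟨i, hi, j, hj, h1, (adj_loc hU (hZ (hA hi)) (hZ hj)).mpr h2⟩

theorem sep_loc {U A A' : Finset ι} (hU : U ⊆ S) (hA : A ⊆ U) (hA' : A' ⊆ U) :
    Sep (loc R S κ U) U κ A A' ↔ Sep R S κ A A' := by
  refine forall_congr' fun i => forall_congr' fun hi => forall_congr' fun j =>
    forall_congr' fun hj => ?_
  rw [adj_loc hU (hA hi) (hA' hj)]

theorem Few.mono {U U' : Finset ι} {a c : ι} {k : ℕ} (h : Few R S κ U a c k) (hU : U' ⊆ U) :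
    Few R S κ U' a c k := by
  intro T hT
  apply h T
  intro s hs
  obtain ⟨h1, ρ, h2, h3, h4⟩ := hT s hs
  exact ⟨h1, ρ, h2, h3.mono hU, h4⟩

theorem Few.loc {U U' : Finset ι} {a c : ι} {k : ℕ} (h : Few R S κ U a c k) (hU : U' ⊆ U) :
    Few (loc R S κ U') U' κ U' a c k := by
  intro T hT
  apply h T
  intro s hs
  obtain ⟨h1, ρ, h2, -, h4⟩ := hT s hs
  exact ⟨h1, ρ, h2.1, h2.2.mono hU, h4⟩

theorem Few.symm (hR : Sys R) {U : Finset ι} {a c : ι} {k : ℕ} (h : Few R S κ U a c k) :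
    Few R S κ U c a k := by
  intro T hT
  have := h (T.image fun s => s⁻¹) (by
    intro s0 hs0
    obtain ⟨s, hs, rfl⟩ := Finset.mem_image.mp hs0
    obtain ⟨h1, ρ, h2, h3, h4, h5⟩ := hT s hs
    refine ⟨inv_pos.mpr h1, s⁻¹ • ρ, hR.smul _ h2 _ (inv_pos.mpr h1).ne', h3.smul _, ?_, ?_⟩
    · rw [map_smul, h5, smul_eq_mul, inv_mul_cancel₀ h1.ne']
    · rw [map_smul, h4, smul_eq_mul, mul_one])
  rwa [Finset.card_image_of_injective _ inv_injective] at this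

/-- With at most one slope, all roots meeting `a` and `c` have proportional coordinates. -/
theorem Few.one (hR : Sys R) {U : Finset ι} {a c : ι} (h : Few R S κ U a c 1) {ρ σ : V}
    (hρ : ρ ∈ R) (hσ : σ ∈ R) (hρs : Sup S κ U ρ) (hσs : Sup S κ U σ)
    (h1 : 0 < κ.x a ρ) (h2 : 0 < κ.x c ρ) (h3 : 0 < κ.x a σ) (h4 : 0 < κ.x c σ) :
    κ.x a ρ * κ.x c σ = κ.x a σ * κ.x c ρ := by
  have key : ∀ τ ∈ R, Sup S κ U τ → 0 < κ.x a τ → 0 < κ.x c τ →
      Slope R S κ U a c (κ.x a τ / κ.x c τ) := by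
    intro τ hτ hs p1 p2
    refine ⟨div_pos p1 p2, (κ.x c τ)⁻¹ • τ, hR.smul _ hτ _ (inv_pos.mpr p2).ne', hs.smul _, ?_, ?_⟩
    · rw [map_smul, smul_eq_mul, inv_mul_cancel₀ p2.ne']
    · rw [map_smul, smul_eq_mul, div_eq_inv_mul]
  by_contra hne
  have := h {κ.x a ρ / κ.x c ρ, κ.x a σ / κ.x c σ} (by
    intro s hs
    rcases Finset.mem_insert.mp hs with rfl | hs
    · exact key ρ hρ hρs h1 h2
    · rw [Finset.mem_singleton.mp hs]; exact key σ hσ hσs h3 h4)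
  rw [Finset.card_pair] at this
  · omega
  · intro e
    apply hne
    rw [div_eq_div_iff h2.ne' h4.ne'] at e
    exact e

/-! Transfer to contractions -/

theorem IsCh.sup_proj (h : IsCh R S κ) {J Z : Finset ι} {v : V} :
    Sup (S \ J) κ Z (proj S κ J v) ↔ Sup S κ (Z ∪ J) v := by
  constructor
  · intro h1 i hi hi'
    rw [Finset.mem_union, not_or] at hi'
    rw [← h.x_proj_of v hi hi'.2]
    exact h1 i (Finset.mem_sdiff.mpr ⟨hi, hi'.2⟩) hi'.1
  · intro h1 i hi hi'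
    obtain ⟨h2, h3⟩ := Finset.mem_sdiff.mp hi
    rw [h.x_proj_of v h2 h3]
    exact h1 i h2 (by simp [hi', h3])

theorem link_con (h : IsCh R S κ) {J Z : Finset ι} {i j : ι} (hi : i ∈ S) (hj : j ∈ S)
    (hiJ : i ∉ J) (hjJ : j ∉ J) :
    Link (con R S κ J) (S \ J) κ Z i j ↔ Link R S κ (Z ∪ J) i j := by
  constructor
  · rintro ⟨v, ⟨-, ρ, hρ, rfl⟩, h1, h2, h3⟩
    rw [h.x_proj_of ρ hi hiJ] at h1
    rw [h.x_proj_of ρ hj hjJ] at h2
    refine ⟨ρ, hρ, h1, h2, ?_⟩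
    have := h.sup_proj.mp h3
    rwa [Finset.insert_union, Finset.insert_union] at this
  · rintro ⟨ρ, hρ, h1, h2, h3⟩
    refine ⟨_, h.proj_mem hρ hi hiJ h1.ne', by rwa [h.x_proj_of ρ hi hiJ],
      by rwa [h.x_proj_of ρ hj hjJ], h.sup_proj.mpr ?_⟩
    rwa [Finset.insert_union, Finset.insert_union]

theorem Conn.con (hR : Sys R) (h : IsCh R S κ) {Z : Finset ι} (hZ : Z ⊆ S) (hc : Conn R S κ Z)
    (J : Finset ι) : Conn (con R S κ J) (S \ J) κ (Z \ J) := by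
  rcases (Z \ J).eq_empty_or_nonempty with h0 | ⟨i, hi⟩
  · rw [h0]; exact conn_empty
  · obtain ⟨hiZ, hiJ⟩ := Finset.mem_sdiff.mp hi
    obtain ⟨ρ, hρ, h1, h2⟩ := full hR h hZ hc ⟨i, hiZ⟩
    apply conn_of_root (hR.con h J) (h.con J) (Finset.sdiff_subset_sdiff hZ subset_rfl)
      (h.proj_mem hρ (hZ hiZ) hiJ (h2 i hiZ).ne')
    · exact h.sup_proj.mpr (h1.mono (by rw [Finset.sdiff_union_self_eq_union]; simp))
    · intro k hk
      obtain ⟨hkZ, hkJ⟩ := Finset.mem_sdiff.mp hk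
      rw [h.x_proj_of ρ (hZ hkZ) hkJ]
      exact (h2 k hkZ).ne'

/-! Transfer between chambers sharing simple roots -/

theorem link_agree (h : IsCh R S κ) {κ' : Fam ι V} (h' : IsCh R S κ') {J : Finset ι}
    (hJS : J ⊆ S) (hB : ∀ j ∈ J, κ'.B j = κ.B j) {Z : Finset ι} {i j : ι}
    (hZ : insert i (insert j Z) ⊆ J) (hl : Link R S κ Z i j) : Link R S κ' Z i j := by
  obtain ⟨ρ, hρ, h1, h2, h3⟩ := hl
  have := h.agree h' hJS hB hρ (h3.mono hZ)
  refine ⟨ρ, hρ, ?_, ?_, fun k hk hk' => ?_⟩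
  · rwa [this i (hJS (hZ (by simp)))]
  · rwa [this j (hJS (hZ (by simp)))]
  · rw [this k hk, h3 k hk hk']

theorem adj_agree (h : IsCh R S κ) {κ' : Fam ι V} (h' : IsCh R S κ') {J : Finset ι}
    (hJS : J ⊆ S) (hB : ∀ j ∈ J, κ'.B j = κ.B j) {i j : ι} (hi : i ∈ J) (hj : j ∈ J) :
    Adj R S κ' i j ↔ Adj R S κ i j := by
  have hZ : insert i (insert j ∅) ⊆ J := by simp [Finset.insert_subset_iff, hi, hj]
  exact ⟨fun ha => ⟨ha.1, link_agree h' h hJS (fun k hk => (hB k hk).symm) hZ ha.2⟩,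
    fun ha => ⟨ha.1, link_agree h h' hJS hB hZ ha.2⟩⟩

theorem conn_agree (h : IsCh R S κ) {κ' : Fam ι V} (h' : IsCh R S κ') {J : Finset ι}
    (hJS : J ⊆ S) (hB : ∀ j ∈ J, κ'.B j = κ.B j) {Z : Finset ι} (hZ : Z ⊆ J)
    (hc : Conn R S κ Z) : Conn R S κ' Z := by
  intro A hA h1 h2
  obtain ⟨i, hi, j, hj, h3, h4⟩ := hc A hA h1 h2
  exact ⟨i, hi, j, hj, h3, (adj_agree h h' hJS hB (hZ (hA hi)) (hZ hj)).mpr h4⟩

theorem sep_agree (h : IsCh R S κ) {κ' : Fam ι V} (h' : IsCh R S κ') {J : Finset ι}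
    (hJS : J ⊆ S) (hB : ∀ j ∈ J, κ'.B j = κ.B j) {A A' : Finset ι} (hA : A ⊆ J) (hA' : A' ⊆ J)
    (hc : Sep R S κ A A') : Sep R S κ' A A' := fun i hi j hj ha =>
  hc i hi j hj ((adj_agree h h' hJS hB (hA hi) (hA' hj)).mp ha)

/-- Irreducibility does not depend on the chamber. -/
theorem conn_indep (hR : Sys R) (h : IsCh R S κ) {ι' : Type} {S' : Finset ι'} {κ' : Fam ι' V}
    (h' : IsCh R S' κ') (hc : Conn R S κ S) : Conn R S' κ' S' := by
  intro A hA hne hAS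
  by_contra hcon
  push Not at hcon
  have hsep : Sep R S' κ' A (S' \ A) := fun i hi j hj =>
    hcon i hi j (Finset.mem_sdiff.mp hj).1 (Finset.mem_sdiff.mp hj).2
  have hos : ∀ ρ ∈ R, Sup S' κ' A ρ ∨ Sup S' κ' (S' \ A) ρ := fun ρ hρ =>
    one_sided hR h' Finset.disjoint_sdiff hsep hρ
      (by rw [Finset.union_sdiff_of_subset hA]; exact sup_self ρ)
  have hboth : ∀ ρ ∈ R, Sup S' κ' A ρ → Sup S' κ' (S' \ A) ρ → False := by
    intro ρ hρ h1 h2
    obtain ⟨i, hi, h0⟩ := h'.exists_ne hR hρ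
    by_cases hiA : i ∈ A
    · exact h0 (h2 i hi (by simp [hiA]))
    · exact h0 (h1 i hi hiA)
  have hall : ∀ Z : Finset ι', (∀ i ∈ S, Sup S' κ' Z (κ.B i)) → ∀ k ∈ S', k ∈ Z := by
    intro Z hZ k hk
    by_contra hkZ
    have := h.apply_eq (h'.mem k hk) (κ'.x k)
    rw [h'.x_self hk, Finset.sum_eq_zero fun i hi => by rw [hZ i hi k hk hkZ, mul_zero]] at this
    exact one_ne_zero this
  obtain ⟨i, hi, j, hj, hj', hadj⟩ := hc (S.filter fun i => Sup S' κ' A (κ.B i))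
    (Finset.filter_subset _ _) (by
      by_contra h0
      rw [Finset.not_nonempty_iff_eq_empty, Finset.filter_eq_empty_iff] at h0
      obtain ⟨k, hk⟩ := hne
      have := hall (S' \ A) (fun i hi => (hos _ (h.mem i hi)).resolve_left (h0 hi)) k (hA hk)
      exact (Finset.mem_sdiff.mp this).2 hk) (by
      intro h0
      rw [Finset.filter_eq_self] at h0
      exact hAS (Finset.Subset.antisymm hA (hall A h0)))
  obtain ⟨hi1, hi2⟩ := Finset.mem_filter.mp hi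
  have hj2 : Sup S' κ' (S' \ A) (κ.B j) :=
    (hos _ (h.mem j hj)).resolve_left fun h0 => hj' (Finset.mem_filter.mpr ⟨hj, h0⟩)
  obtain ⟨d, hd, hm⟩ := h.add_of_adj hR hi1 hj hadj
  rcases hos _ hm with h1 | h1
  · apply hboth _ (h.mem j hj) _ hj2
    intro k hk hkA
    have := h1 k hk hkA
    rw [map_add, map_smul, hi2 k hk hkA, zero_add, smul_eq_mul] at this
    exact (mul_eq_zero.mp this).resolve_left hd.ne'
  · apply hboth _ (h.mem i hi1) hi2
    intro k hk hkA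
    have := h1 k hk hkA
    rwa [map_add, map_smul, hj2 k hk hkA, smul_zero, add_zero] at this

end Pool.Agent.SimpArr
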