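import Pool.Agent.P.MP_0b4c38_co.Basic3

/-! Simplicial root systems: chambers near a functional, minimal roots, parts. -/

set_option autoImplicit false

open Classical

namespace Pool.Agent.SimpArr

variable {V : Type} [AddCommGroup V] [Module ℝ V] {ι : Type}
variable {R : Set V} {S : Finset ι} {κ : Fam ι V}

/-- Lexicographic combination of two functionals. -/
theorem Sys.lex (hR : Sys R) (f ψ : V →ₗ[ℝ] ℝ) :
    ∃ φ : V →ₗ[ℝ] ℝ, ∀ ρ ∈ R, (0 < f ρ → 0 < φ ρ) ∧ (f ρ < 0 → φ ρ < 0) ∧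
      (f ρ = 0 → (0 < ψ ρ → 0 < φ ρ) ∧ (ψ ρ < 0 → φ ρ < 0) ∧ (ψ ρ = 0 → φ ρ = 0)) := by
  obtain ⟨ε, hε, hp⟩ := hR.perturb f ψ
  refine ⟨f + ε • ψ, fun ρ hρ => ⟨fun h => ?_, fun h => ?_, fun h => ⟨fun h' => ?_, fun h' => ?_,
    fun h' => ?_⟩⟩⟩ <;> simp only [LinearMap.add_apply, LinearMap.smul_apply, smul_eq_mul]
  · exact hp ρ hρ h
  · have := hp (-ρ) (hR.neg_mem hρ) (by rw [map_neg]; linarith)
    rw [map_neg, map_neg] at this
    linarith
  · rw [h, zero_add]; exact mul_pos hε h'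
  · rw [h, zero_add]; exact mul_neg_of_pos_of_neg hε h'
  · rw [h, h']; simp

/-- A chamber which is positive for `f` and, on the kernel of `f`, for `ψ`. -/
theorem Sys.near (hR : Sys R) (f ψ : V →ₗ[ℝ] ℝ) (hψ : ∀ ρ ∈ R, f ρ = 0 → ψ ρ ≠ 0) :
    ∃ (T : Finset V) (κ : Fam V V), IsCh R T κ ∧
      ∀ t ∈ T, 0 < f (κ.B t) ∨ (f (κ.B t) = 0 ∧ 0 < ψ (κ.B t)) := by
  obtain ⟨φ, hφ⟩ := hR.lex f ψ
  obtain ⟨T, κ, hκ, hT⟩ := hR.simp φ (by
    intro ρ hρ
    obtain ⟨h1, h2, h3⟩ := hφ ρ hρ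
    rcases lt_trichotomy (f ρ) 0 with h | h | h
    · exact (h2 h).ne
    · rcases lt_or_gt_of_ne (hψ ρ hρ h) with h' | h'
      · exact ((h3 h).2.1 h').ne
      · exact ((h3 h).1 h').ne'
    · exact (h1 h).ne')
  refine ⟨T, κ, hκ, fun t ht => ?_⟩
  have hm := hκ.mem t ht
  obtain ⟨h1, h2, h3⟩ := hφ _ hm
  have hp := hT t ht
  rcases lt_trichotomy (f (κ.B t)) 0 with h | h | h
  · exact absurd (h2 h) (by linarith)
  · refine Or.inr ⟨h, ?_⟩
    rcases lt_or_gt_of_ne (hψ _ hm h) with h' | h'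
    · exact absurd ((h3 h).2.1 h') (by linarith)
    · exact h'
  · exact Or.inl h

/-- If `f` is nonnegative on the walls, roots in its kernel avoid the walls where `f > 0`. -/
theorem IsCh.x_zero_of_ker (h : IsCh R S κ) {f : V →ₗ[ℝ] ℝ} (hf : ∀ i ∈ S, 0 ≤ f (κ.B i))
    {ρ : V} (hρ : ρ ∈ R) (h0 : f ρ = 0) {i : ι} (hi : i ∈ S) (hp : 0 < f (κ.B i)) :
    κ.x i ρ = 0 := by
  rw [h.apply_eq hρ] at h0
  rcases h.sign ρ hρ with h1 | h1
  · have := (Finset.sum_eq_zero_iff_of_nonneg fun i hi =>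
      mul_nonneg (h1 i hi) (hf i hi)).mp h0 i hi
    exact (mul_eq_zero.mp this).resolve_right hp.ne'
  · have := (Finset.sum_eq_zero_iff_of_nonpos fun i hi =>
      mul_nonpos_of_nonpos_of_nonneg (h1 i hi) (hf i hi)).mp h0 i hi
    exact (mul_eq_zero.mp this).resolve_right hp.ne'

/-- The minimal root of weight one over a subsystem of corank one. -/
theorem minRoot (hR : Sys R) (f ψ : V →ₗ[ℝ] ℝ) (hψ : ∀ ρ ∈ R, f ρ = 0 → ψ ρ ≠ 0)
    (hker : ∀ v ∈ Submodule.span ℝ R, f v = 0 → v ∈ Submodule.span ℝ {ρ | ρ ∈ R ∧ f ρ = 0})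
    (hex : ∃ ρ ∈ R, f ρ = 1) :
    ∃ u ∈ R, f u = 1 ∧ ∀ g : V →ₗ[ℝ] ℝ, (∀ α ∈ R, f α = 0 → 0 < ψ α → 0 ≤ g α) →
      ∀ ρ ∈ R, f ρ = 1 → g u ≤ g ρ := by
  obtain ⟨T, κ, hκ, hT⟩ := hR.near f ψ hψ
  have hf : ∀ t ∈ T, 0 ≤ f (κ.B t) := fun t ht => by
    rcases hT t ht with h | h
    · exact h.le
    · exact h.1.ge
  have hex' : ∃ t ∈ T, 0 < f (κ.B t) := by
    obtain ⟨ρ, hρ, h1⟩ := hex
    by_contra hc
    push Not at hc
    rw [hκ.apply_eq hρ, Finset.sum_eq_zero] at h1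
    · exact zero_ne_one h1
    · intro i hi
      rw [le_antisymm (hc i hi) (hf i hi), mul_zero]
  obtain ⟨t, ht, hft⟩ := hex'
  have huniq : ∀ s ∈ T, s ≠ t → f (κ.B s) = 0 := by
    intro s hs hst
    by_contra hne
    have hps : 0 < f (κ.B s) := lt_of_le_of_ne (hf s hs) (Ne.symm hne)
    have hv : f (κ.B s) • κ.B t - f (κ.B t) • κ.B s ∈ Submodule.span ℝ R :=
      Submodule.sub_mem _ (Submodule.smul_mem _ _ (Submodule.subset_span (hκ.mem t ht)))
        (Submodule.smul_mem _ _ (Submodule.subset_span (hκ.mem s hs)))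
    have h2 := hker _ hv (by simp only [map_sub, map_smul, smul_eq_mul]; ring)
    have h3 : ∀ v ∈ Submodule.span ℝ {ρ | ρ ∈ R ∧ f ρ = 0}, κ.x t v = 0 := by
      intro v hv
      induction hv using Submodule.span_induction with
      | mem v hv => exact hκ.x_zero_of_ker hf hv.1 hv.2 ht hft
      | zero => simp
      | add u w _ _ hu hw => rw [map_add, hu, hw, add_zero]
      | smul a u _ hu => rw [map_smul, hu, smul_zero]
    have h4 := h3 _ h2
    rw [map_sub, map_smul, map_smul, hκ.x_self ht, hκ.x_ne ht hs (Ne.symm hst)] at h4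
    simp only [smul_eq_mul, mul_one, mul_zero, sub_zero] at h4
    exact hne h4
  refine ⟨(f (κ.B t))⁻¹ • κ.B t, hR.smul _ (hκ.mem t ht) _ (inv_pos.mpr hft).ne', ?_, ?_⟩
  · rw [map_smul, smul_eq_mul, inv_mul_cancel₀ hft.ne']
  · intro g hg ρ hρ h1
    have hx : κ.x t ρ = (f (κ.B t))⁻¹ := by
      rw [hκ.apply_eq hρ, Finset.sum_eq_single t] at h1
      · field_simp
        linarith
      · intro s hs hst
        rw [huniq s hs hst, mul_zero]
      · intro h; exact absurd ht h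
    have hpos := hκ.nonneg hρ ht (by rw [hx]; exact inv_pos.mpr hft)
    rw [hκ.apply_eq hρ g, ← Finset.add_sum_erase _ _ ht, hx, map_smul, smul_eq_mul]
    have : 0 ≤ ∑ s ∈ T.erase t, κ.x s ρ * g (κ.B s) := Finset.sum_nonneg fun s hs => by
      obtain ⟨hst, hs⟩ := Finset.mem_erase.mp hs
      refine mul_nonneg (hpos s hs) (hg _ (hκ.mem s hs) (huniq s hs hst) ?_)
      rcases hT s hs with h | h
      · exact absurd (huniq s hs hst) h.ne'
      · exact h.2
    linarith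

/-- Localization at the common kernel of finitely many functionals. -/
theorem Sys.kers (hR : Sys R) {α : Type} (T : Finset α) (f : α → V →ₗ[ℝ] ℝ) :
    Sys {ρ | ρ ∈ R ∧ ∀ r ∈ T, f r ρ = 0} := by
  induction T using Finset.induction_on with
  | empty => simpa using hR
  | insert a T _ ih =>
    have := ih.ker (f a)
    convert this using 1
    ext ρ
    simp only [Finset.mem_insert, forall_eq_or_imp, Set.mem_ofPred_eq]
    tauto

theorem IsCh.linearIndependent (h : IsCh R S κ) :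
    LinearIndependent ℝ fun i : S => κ.B i := by
  rw [Fintype.linearIndependent_iff]
  intro g hg i
  have := congrArg (κ.x i) hg
  rw [map_sum, map_zero, Finset.sum_eq_single i] at this
  · rwa [map_smul, h.x_self i.2, smul_eq_mul, mul_one] at this
  · intro j _ hji
    rw [map_smul, h.x_ne i.2 j.2 (fun e => hji (Subtype.ext e.symm)), smul_zero]
  · intro hi; exact absurd (Finset.mem_univ i) hi

theorem IsCh.span_eq (h : IsCh R S κ) :
    Submodule.span ℝ (Set.range fun i : S => κ.B i) = Submodule.span ℝ R := by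
  apply le_antisymm
  · apply Submodule.span_mono
    rintro _ ⟨i, rfl⟩
    exact h.mem i i.2
  · rw [Submodule.span_le]
    intro ρ hρ
    rw [h.repr ρ hρ]
    exact Submodule.sum_mem _ fun i hi =>
      Submodule.smul_mem _ _ (Submodule.subset_span ⟨⟨i, hi⟩, rfl⟩)

theorem IsCh.finrank_eq (h : IsCh R S κ) :
    Module.finrank ℝ (Submodule.span ℝ R) = S.card := by
  rw [← h.span_eq, finrank_span_eq_card h.linearIndependent, Fintype.card_coe]

/-- All chambers have the same number of walls. -/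
theorem IsCh.card_eq (h : IsCh R S κ) {ι' : Type} {S' : Finset ι'} {κ' : Fam ι' V}
    (h' : IsCh R S' κ') : S'.card = S.card := by
  rw [← h.finrank_eq, h'.finrank_eq]

theorem few_scale (hR : Sys R) {μ : ι → ℝ} (hμ : ∀ i, 0 < μ i) {U : Finset ι} {a c : ι} {k : ℕ}
    (h : Few R S κ U a c k) : Few R S (κ.scale μ) U a c k := by
  intro T hT
  have := h (T.image fun s => s * (μ a / μ c)) (by
    intro s0 hs0
    obtain ⟨s, hs, rfl⟩ := Finset.mem_image.mp hs0
    obtain ⟨h1, ρ, h2, h3, h4, h5⟩ := hT s hs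
    have ha := hμ a
    have hc := hμ c
    rw [Fam.scale_x] at h4 h5
    refine ⟨by positivity, (μ c)⁻¹ • ρ, hR.smul _ h2 _ (inv_pos.mpr hc).ne',
      ((sup_scale hμ).mp h3).smul _, ?_, ?_⟩
    · rw [map_smul, smul_eq_mul, h4]
    · rw [map_smul, smul_eq_mul, ← h5]
      field_simp)
  rwa [Finset.card_image_of_injective _ (mul_left_injective₀ (div_pos (hμ a) (hμ c)).ne')] at this

theorem Few.le {U : Finset ι} {a c : ι} {k k' : ℕ} (h : Few R S κ U a c k) (hk : k ≤ k') :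
    Few R S κ U a c k' := fun T hT => (h T hT).trans hk

/-- Decomposition into connected components. -/
theorem exists_parts (hR : Sys R) (h : IsCh R S κ) (J : Finset ι) (hJ : J ⊆ S) :
    ∃ P : Finset (Finset ι), (∀ v ∈ J, ∃ Q ∈ P, v ∈ Q) ∧
      (∀ Q ∈ P, Q ⊆ J ∧ Q.Nonempty ∧ Conn R S κ Q) ∧
      ∀ Q ∈ P, ∀ Q' ∈ P, Q ≠ Q' → Disjoint Q Q' ∧ Sep R S κ Q Q' := by
  induction J using Finset.strongInduction with
  | H J ih =>
    rcases J.eq_empty_or_nonempty with rfl | ⟨i, hi⟩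
    · exact ⟨∅, by simp, by simp, by simp⟩
    obtain ⟨M, hMJ, hiM, hc, hsep, -⟩ := comp hR h hJ hi
    obtain ⟨P, h1, h2, h3⟩ := ih (J \ M)
      (Finset.sdiff_ssubset hMJ ⟨i, hiM⟩) (Finset.sdiff_subset.trans hJ)
    have hM : ∀ Q ∈ P, Disjoint M Q ∧ Sep R S κ M Q := fun Q hQ =>
      ⟨Finset.disjoint_of_subset_right (h2 Q hQ).1 Finset.disjoint_sdiff,
        hsep.mono subset_rfl (h2 Q hQ).1⟩
    refine ⟨insert M P, fun v hv => ?_, fun Q hQ => ?_, fun Q hQ Q' hQ' hne => ?_⟩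
    · by_cases hvM : v ∈ M
      · exact ⟨M, Finset.mem_insert_self _ _, hvM⟩
      · obtain ⟨Q, hQ, hvQ⟩ := h1 v (Finset.mem_sdiff.mpr ⟨hv, hvM⟩)
        exact ⟨Q, Finset.mem_insert_of_mem hQ, hvQ⟩
    · rcases Finset.mem_insert.mp hQ with rfl | hQ
      · exact ⟨hMJ, ⟨i, hiM⟩, hc⟩
      · exact ⟨(h2 Q hQ).1.trans Finset.sdiff_subset, (h2 Q hQ).2⟩
    · rcases Finset.mem_insert.mp hQ with e1 | hQ1 <;>
        rcases Finset.mem_insert.mp hQ' with e2 | hQ2
      · exact absurd (e1.trans e2.symm) hne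
      · rw [e1]; exact hM Q' hQ2
      · rw [e2]; exact ⟨(hM Q hQ1).1.symm, (hM Q hQ1).2.symm⟩
      · exact h3 Q hQ1 Q' hQ2 hne

/-- A connected set which is not contained in `A` but meets it has an edge leaving `A`. -/
theorem Conn.exit {Z A : Finset ι} (hZ : Conn R S κ Z) {u v : ι} (huZ : u ∈ Z) (huA : u ∈ A)
    (hvZ : v ∈ Z) (hvA : v ∉ A) : ∃ i ∈ Z, i ∈ A ∧ ∃ j ∈ Z, j ∉ A ∧ Adj R S κ i j := by
  obtain ⟨i, hi, j, hj, hjA, hadj⟩ := hZ (Z ∩ A) Finset.inter_subset_left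
    ⟨u, Finset.mem_inter.mpr ⟨huZ, huA⟩⟩ (fun e => hvA (by
      have : v ∈ Z ∩ A := e.symm ▸ hvZ
      exact (Finset.mem_inter.mp this).2))
  exact ⟨i, (Finset.mem_inter.mp hi).1, (Finset.mem_inter.mp hi).2, j, hj,
    fun h => hjA (Finset.mem_inter.mpr ⟨hj, h⟩), hadj⟩

/-- A set of consecutive nodes of a path is connected. -/
theorem conn_Ico {w : ℕ → ι} {p q : ℕ} (hadj : ∀ i, p ≤ i → i + 1 < q → Adj R S κ (w i) (w (i + 1))) :
    Conn R S κ ((Finset.Ico p q).image w) := by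
  induction q with
  | zero => simpa using conn_empty
  | succ q ih =>
    rcases lt_trichotomy p q with h | h | h
    · rw [← Finset.insert_Ico_right_eq_Ico_add_one h.le, Finset.image_insert]
      obtain ⟨q, rfl⟩ : ∃ q', q = q' + 1 := ⟨q - 1, by omega⟩
      exact (ih fun i h1 h2 => hadj i h1 (by omega)).insert
        (Finset.mem_image_of_mem _ (Finset.mem_Ico.mpr ⟨by omega, Nat.lt_succ_self q⟩))
        (hadj q (by omega) (by omega))
    · subst h
      rw [Nat.Ico_succ_singleton, Finset.image_singleton]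
      exact conn_singleton _
    · rw [Finset.Ico_eq_empty (by omega), Finset.image_empty]
      exact conn_empty

end Pool.Agent.SimpArr
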