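import Mathlib

/-! Simplicial root systems: basic definitions. -/

set_option autoImplicit false

open Classical

namespace Pool.Agent.SimpArr

variable {V : Type} [AddCommGroup V] [Module ℝ V] {ι : Type}

/-- A family of vectors together with coordinate functionals. -/
structure Fam (ι V : Type) [AddCommGroup V] [Module ℝ V] where
  B : ι → V
  x : ι → V →ₗ[ℝ] ℝ

/-- `κ` is a simple system (chamber) of the root set `R`, indexed by `S`. -/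
structure IsCh (R : Set V) (S : Finset ι) (κ : Fam ι V) : Prop where
  dual : ∀ i ∈ S, ∀ j ∈ S, κ.x i (κ.B j) = if i = j then 1 else 0
  mem : ∀ i ∈ S, κ.B i ∈ R
  repr : ∀ ρ ∈ R, ρ = ∑ i ∈ S, κ.x i ρ • κ.B i
  sign : ∀ ρ ∈ R, (∀ i ∈ S, 0 ≤ κ.x i ρ) ∨ (∀ i ∈ S, κ.x i ρ ≤ 0)

/-- A simplicial root set. -/
structure Sys (R : Set V) : Prop where
  ne : ∀ ρ ∈ R, ρ ≠ 0
  smul : ∀ ρ ∈ R, ∀ c : ℝ, c ≠ 0 → c • ρ ∈ R
  fin : ∃ F : Finset V, ∀ ρ ∈ R, ∃ f ∈ F, ∃ c : ℝ, ρ = c • f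
  simp : ∀ φ : V →ₗ[ℝ] ℝ, (∀ ρ ∈ R, φ ρ ≠ 0) →
    ∃ (T : Finset V) (κ : Fam V V), IsCh R T κ ∧ ∀ t ∈ T, 0 < φ (κ.B t)

/-- The coordinates of `v` outside `Z` vanish. -/
def Sup (S : Finset ι) (κ : Fam ι V) (Z : Finset ι) (v : V) : Prop :=
  ∀ i ∈ S, i ∉ Z → κ.x i v = 0

/-- Localization. -/
def loc (R : Set V) (S : Finset ι) (κ : Fam ι V) (J : Finset ι) : Set V :=
  {ρ | ρ ∈ R ∧ Sup S κ J ρ}

/-- Projection killing the simple roots in `J`. -/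
noncomputable def proj (S : Finset ι) (κ : Fam ι V) (J : Finset ι) : V →ₗ[ℝ] V :=
  ∑ i ∈ S \ J, (κ.x i).smulRight (κ.B i)

/-- Contraction (restriction of the arrangement). -/
def con (R : Set V) (S : Finset ι) (κ : Fam ι V) (J : Finset ι) : Set V :=
  {v | v ≠ 0 ∧ ∃ ρ ∈ R, v = proj S κ J ρ}

/-- `i` and `j` are linked through `Z`. -/
def Link (R : Set V) (S : Finset ι) (κ : Fam ι V) (Z : Finset ι) (i j : ι) : Prop :=
  ∃ ρ ∈ R, 0 < κ.x i ρ ∧ 0 < κ.x j ρ ∧ Sup S κ (insert i (insert j Z)) ρ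

/-- Adjacency in the Coxeter graph. -/
def Adj (R : Set V) (S : Finset ι) (κ : Fam ι V) (i j : ι) : Prop :=
  i ≠ j ∧ Link R S κ ∅ i j

/-- Connectedness of a set of nodes. -/
def Conn (R : Set V) (S : Finset ι) (κ : Fam ι V) (Z : Finset ι) : Prop :=
  ∀ A ⊆ Z, A.Nonempty → A ≠ Z → ∃ i ∈ A, ∃ j ∈ Z, j ∉ A ∧ Adj R S κ i j

/-- No edge between `A` and `A'`. -/
def Sep (R : Set V) (S : Finset ι) (κ : Fam ι V) (A A' : Finset ι) : Prop :=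
  ∀ i ∈ A, ∀ j ∈ A', ¬ Adj R S κ i j

/-- `s` is a positive slope `x a / x c` of a root supported in `U`. -/
def Slope (R : Set V) (S : Finset ι) (κ : Fam ι V) (U : Finset ι) (a c : ι) (s : ℝ) : Prop :=
  0 < s ∧ ∃ ρ ∈ R, Sup S κ U ρ ∧ κ.x c ρ = 1 ∧ κ.x a ρ = s

/-- At most `k` positive slopes. -/
def Few (R : Set V) (S : Finset ι) (κ : Fam ι V) (U : Finset ι) (a c : ι) (k : ℕ) : Prop :=
  ∀ T : Finset ℝ, (∀ s ∈ T, Slope R S κ U a c s) → T.card ≤ k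

/-- All roots have interval patterns along the enumeration `t` of `S`. -/
def Pat (R : Set V) (S : Finset ι) (κ : Fam ι V) (t : ℕ → ι) (n : ℕ) (lam : ℕ → ℝ) : Prop :=
  Set.BijOn t (Finset.range n : Set ℕ) (S : Set ι) ∧ (∀ i < n, 0 < lam i) ∧
  ∀ ρ ∈ R, ∃ (c : ℝ) (p q : ℕ), p ≤ q ∧ q < n ∧
    ∀ i < n, κ.x (t i) ρ = if p ≤ i ∧ i ≤ q then c * lam i else 0

/-- The nodes `t 0, ..., t (n-1)` form a localization of type `A n` with weights `ε 0, ..., ε n`. -/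
structure APath (R : Set V) (S : Finset ι) (κ : Fam ι V) (t : ℕ → ι) (n : ℕ) (ε : ℕ → V) :
    Prop where
  inj : Set.InjOn t (Finset.range n : Set ℕ)
  mem : ∀ i < n, t i ∈ S
  B_eq : ∀ i < n, κ.B (t i) = ε (i + 1) - ε i
  root : ∀ p ≤ n, ∀ q ≤ n, p ≠ q → ε p - ε q ∈ R
  all : ∀ ρ ∈ R, Sup S κ ((Finset.range n).image t) ρ →
    ∃ p ≤ n, ∃ q ≤ n, ∃ c : ℝ, ρ = c • (ε p - ε q)

/-- Root system of type `A n`. -/
def TypeA (R : Set V) (n : ℕ) : Prop :=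
  ∃ (ε : ℕ → V) (y : ℕ → V →ₗ[ℝ] ℝ), ε 0 = 0 ∧
    (∀ p q, 1 ≤ p → p ≤ n → 1 ≤ q → q ≤ n → y p (ε q) = if p = q then 1 else 0) ∧
    ∀ v, v ∈ R ↔ ∃ p ≤ n, ∃ q ≤ n, p ≠ q ∧ ∃ c : ℝ, c ≠ 0 ∧ v = c • (ε p - ε q)

/-- Root system between `D n` and `B n`. -/
def TypeD (R : Set V) (n : ℕ) : Prop :=
  ∃ (e : ℕ → V) (y : ℕ → V →ₗ[ℝ] ℝ) (T : Finset ℕ), (∀ p ∈ T, p < n) ∧
    (∀ p < n, ∀ q < n, y p (e q) = if p = q then 1 else 0) ∧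
    ∀ v, v ∈ R ↔ ∃ c : ℝ, c ≠ 0 ∧
      ((∃ p < n, ∃ q < n, p ≠ q ∧ (v = c • (e p - e q) ∨ v = c • (e p + e q))) ∨
        ∃ p ∈ T, v = c • e p)

/-- A system of corank one over a type `A` system whose roots of positive weight lie in the
simplex spanned by the roots `e 0, ..., e (m-1)`. -/
structure Smp (R : Set V) (m : ℕ) (e : ℕ → V) (y : ℕ → V →ₗ[ℝ] ℝ) : Prop where
  sys : Sys R
  dual : ∀ p < m, ∀ q < m, y p (e q) = if p = q then 1 else 0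
  repr : ∀ ρ ∈ R, ρ = ∑ p ∈ Finset.range m, y p ρ • e p
  root : ∀ p < m, ∀ q < m, p ≠ q → e p - e q ∈ R
  zero : ∀ ρ ∈ R, ∑ p ∈ Finset.range m, y p ρ = 0 → ∃ p < m, ∃ q < m, ∃ c : ℝ, ρ = c • (e p - e q)
  vert : ∀ p < m, e p ∈ R
  pos : ∀ ρ ∈ R, 0 < ∑ p ∈ Finset.range m, y p ρ → ∀ p < m, 0 ≤ y p ρ

/-- The configuration used for the induction into the end part `E`
(`t` and `c` are two spare indices). -/
structure HD (R : Set V) (m : ℕ) (e : ℕ → V) (y : ℕ → V →ₗ[ℝ] ℝ) (E : Finset ι) (κ : Fam ι V)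
    (t c : ι) : Prop where
  sys : Sys R
  hm : 2 ≤ m
  tc : t ≠ c
  tE : t ∉ E
  cE : c ∉ E
  dual : ∀ p < m, ∀ q < m, y p (e q) = if p = q then 1 else 0
  yB : ∀ p < m, ∀ j ∈ E, y p (κ.B j) = 0
  xe : ∀ j ∈ E, ∀ p < m, κ.x j (e p) = 0
  ch : IsCh {ρ | ρ ∈ R ∧ ∀ p < m, y p ρ = 0} E κ
  repr : ∀ ρ ∈ R, ρ = ∑ p ∈ Finset.range m, y p ρ • e p + ∑ j ∈ E, κ.x j ρ • κ.B j
  root : ∀ p < m, ∀ q < m, p ≠ q → e p - e q ∈ R ∧ e p + e q ∈ R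
  all : ∀ ρ ∈ R, (∃ p < m, ∃ q < m, p ≠ q ∧ ∃ s : ℝ, ρ = s • (e p - e q) ∨ ρ = s • (e p + e q)) ∨
    ∃ p < m, ∀ q < m, q ≠ p → y q ρ = 0
  vary : ∀ j ∈ E, ∃ ρ ∈ R, ∃ p < m, y p ρ ≠ 0 ∧ κ.x j ρ ≠ 0

/-- Two nodes `a`, `c` and three separated connected parts. -/
structure Tri (R : Set V) (S : Finset ι) (κ : Fam ι V) (a c : ι) (C D E : Finset ι) : Prop where
  sys : Sys R
  ch : IsCh R S κ
  conn : Conn R S κ S
  cover : S = insert a (insert c (C ∪ D ∪ E))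
  ac : a ≠ c
  aJ : a ∉ C ∪ D ∪ E
  cJ : c ∉ C ∪ D ∪ E
  dCD : Disjoint C D
  dCE : Disjoint C E
  dDE : Disjoint D E
  sCD : Sep R S κ C D
  sCE : Sep R S κ C E
  sDE : Sep R S κ D E
  connC : Conn R S κ C
  connD : Conn R S κ D
  connE : Conn R S κ E
  cardC : 3 ≤ C.card
  cardD : 3 ≤ D.card
  cardE : 3 ≤ E.card
  few : Few R S κ S a c 3

/-- The part `Y` is a path `y 0, ..., y (l-1)` attached to `a` in the manner of type `A`. -/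
structure Arm (R : Set V) (S : Finset ι) (κ : Fam ι V) (a c : ι) (Y : Finset ι) (y : ℕ → ι)
    (l : ℕ) : Prop where
  eq : Y = (Finset.range l).image y
  inj : ∀ i < l, ∀ j < l, y i = y j → i = j
  len : 6 ≤ l
  adj : ∀ i, i + 1 < l → Adj R S κ (y i) (y (i + 1))
  pre : ∀ ρ ∈ R, κ.x a ρ = 1 → κ.x c ρ = 0 →
    ∃ m ≤ l, ∀ i < l, κ.x (y i) ρ = if i < m then 1 else 0
  ex : ∀ m ≤ l, ∃ ρ ∈ R, κ.x a ρ = 1 ∧ κ.x c ρ = 0 ∧
    ∀ i < l, κ.x (y i) ρ = if i < m then 1 else 0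

/-- `w 0, ..., w (n-1)` is an induced path of the Coxeter graph. -/
structure Path (R : Set V) (S : Finset ι) (κ : Fam ι V) (w : ℕ → ι) (n : ℕ) : Prop where
  inj : ∀ i < n, ∀ j < n, w i = w j → i = j
  mem : ∀ i < n, w i ∈ S
  adj : ∀ i, i + 1 < n → Adj R S κ (w i) (w (i + 1))
  only : ∀ i < n, ∀ j < n, Adj R S κ (w i) (w j) → j = i + 1 ∨ i = j + 1

/-- `z 0, ..., z (n-1)` is a path whose inner nodes have no further neighbours. -/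
structure Thread (R : Set V) (S : Finset ι) (κ : Fam ι V) (z : ℕ → ι) (n : ℕ) : Prop where
  inj : ∀ i < n, ∀ j < n, z i = z j → i = j
  mem : ∀ i < n, z i ∈ S
  adj : ∀ i, i + 1 < n → Adj R S κ (z i) (z (i + 1))
  only : ∀ i, i + 2 < n → ∀ v ∈ S, Adj R S κ (z (i + 1)) v → v = z i ∨ v = z (i + 2)

/-- A thread with a free end. -/
def Pend (R : Set V) (S : Finset ι) (κ : Fam ι V) (z : ℕ → ι) (n : ℕ) : Prop :=
  Thread R S κ z n ∧ ∀ v ∈ S, Adj R S κ (z 0) v → v = z 1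

/-- The configuration produced by the good lemma, with the parts of the rest. -/
structure GP (R : Set V) (S : Finset ι) (κ : Fam ι V) (a b c : ι) (P : Finset (Finset ι))
    (L : ℕ) : Prop where
  sys : Sys R
  ch : IsCh R S κ
  conn : Conn R S κ S
  ha : a ∈ S
  hb : b ∈ S
  hc : c ∈ S
  ab : a ≠ b
  ac : a ≠ c
  bc : b ≠ c
  cover : ∀ v ∈ S, v = a ∨ v = b ∨ v = c ∨ ∃ Q ∈ P, v ∈ Q
  sub : ∀ Q ∈ P, Q ⊆ S ∧ a ∉ Q ∧ b ∉ Q ∧ c ∉ Q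
  connQ : ∀ Q ∈ P, Conn R S κ Q
  card : ∀ Q ∈ P, L ≤ Q.card
  hL : 1 ≤ L
  sep : ∀ Q ∈ P, ∀ Q' ∈ P, Q ≠ Q' → Disjoint Q Q' ∧ Sep R S κ Q Q'
  nolink : ¬ Link R S κ (S \ {a, b, c}) b c

/-- The good configuration with a long path of type `A`. -/
structure G4 (R : Set V) (S : Finset ι) (κ : Fam ι V) (t : ℕ → ι) (n : ℕ) (ε : ℕ → V)
    (α β : ℕ) (c : ι) (E : Finset ι) : Prop where
  sys : Sys R
  ch : IsCh R S κ
  conn : Conn R S κ S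
  path : APath R S κ t n ε
  cover : S = insert c ((Finset.range n).image t ∪ E)
  c_path : ∀ i < n, t i ≠ c
  c_E : c ∉ E
  path_E : ∀ i < n, t i ∉ E
  sep : Sep R S κ ((Finset.range n).image t) E
  connE : Conn R S κ E
  cardE : 3 ≤ E.card
  hα : 6 ≤ α
  hβ : α + 7 ≤ β
  hn : β < n
  far : ∀ i, α < i → i < n → ¬ Adj R S κ c (t i)
  few : Few R S κ (S.erase (t β)) (t α) c 3

end Pool.Agent.SimpArr
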