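import Pool.Agent.P.MP_0b4c38_co.Growth
import Pool.Agent.P.MP_0b4c38_co.Arr

/-! From simplicial root systems back to hyperplane arrangements. -/

set_option autoImplicit false

open Classical

namespace Pool.Agent.SimpArr

variable {V : Type} [AddCommGroup V] [Module ℝ V] {ι : Type}
variable {R : Set V} {S : Finset ι} {κ : Fam ι V}

namespace Final

variable {r : ℕ}

/-- The dual space. -/
abbrev Du (r : ℕ) : Type := (Fin r → ℝ) →ₗ[ℝ] ℝ

/-- All nonzero normals of the arrangement. -/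
def Rt (A : Finset (Submodule ℝ (Fin r → ℝ))) : Set (Du r) :=
  {f | f ≠ 0 ∧ LinearMap.ker f ∈ A}

theorem exists_ker {H : Submodule ℝ (Fin r → ℝ)} (hH : Module.finrank ℝ H + 1 = r) :
    ∃ f : Du r, f ≠ 0 ∧ LinearMap.ker f = H := by
  have htop : Module.finrank ℝ (Fin r → ℝ) = r := by simp
  have hlt : H < ⊤ := by
    refine lt_top_iff_ne_top.2 fun h => ?_
    rw [h, finrank_top, htop] at hH
    omega
  obtain ⟨f, hf0, hle⟩ := Submodule.exists_le_ker_of_lt_top H hlt
  refine ⟨f, hf0, (Submodule.eq_of_le_of_finrank_le hle ?_).symm⟩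
  have h1 : LinearMap.ker f ≠ ⊤ := fun h => hf0 (LinearMap.ker_eq_top.1 h)
  have h2 := Submodule.finrank_lt h1
  omega

theorem exists_smul {f g : Du r} (hg : g ≠ 0) (h : LinearMap.ker f = LinearMap.ker g) :
    ∃ c : ℝ, f = c • g := by
  obtain ⟨w, hw⟩ : ∃ w, g w ≠ 0 := by
    by_contra hc
    push Not at hc
    exact hg (LinearMap.ext hc)
  refine ⟨f w / g w, LinearMap.ext fun v => ?_⟩
  have h1 : v - (g v / g w) • w ∈ LinearMap.ker g := by
    rw [LinearMap.mem_ker, map_sub, map_smul, smul_eq_mul, div_mul_cancel₀ _ hw, sub_self]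
  rw [← h, LinearMap.mem_ker, map_sub, map_smul, smul_eq_mul, sub_eq_zero] at h1
  rw [h1, LinearMap.smul_apply, smul_eq_mul]
  field_simp

theorem mem_iff {A : Finset (Submodule ℝ (Fin r → ℝ))} (hA : IsArrangement A)
    (H : Submodule ℝ (Fin r → ℝ)) : H ∈ A ↔ ∃ f ∈ Rt A, LinearMap.ker f = H := by
  constructor
  · intro hH
    obtain ⟨f, hf0, hf⟩ := exists_ker (hA.1 H hH)
    exact ⟨f, ⟨hf0, hf ▸ hH⟩, hf⟩
  · rintro ⟨f, hf, rfl⟩
    exact hf.2

theorem eq_zero_of_roots {A : Finset (Submodule ℝ (Fin r → ℝ))} (hA : IsArrangement A)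
    {v : Fin r → ℝ} (hv : ∀ f ∈ Rt A, f v = 0) : v = 0 := by
  refine hA.2 v fun H hH => ?_
  obtain ⟨f, hf, rfl⟩ := (mem_iff hA H).1 hH
  exact hv f hf

/-- Dual bases of the space and of its dual. -/
structure DB (f : Fin r → Du r) (w : Fin r → Fin r → ℝ) : Prop where
  dual : ∀ i j, f j (w i) = if j = i then 1 else 0
  vec : ∀ y, y = ∑ i, f i y • w i

theorem DB.fun_eq {f : Fin r → Du r} {w : Fin r → Fin r → ℝ} (h : DB f w) (g : Du r)
    (y : Fin r → ℝ) : g y = ∑ i, g (w i) * f i y := by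
  conv_lhs => rw [h.vec y]
  simp [mul_comm]

theorem DB.inj {f : Fin r → Du r} {w : Fin r → Fin r → ℝ} (h : DB f w) :
    Function.Injective f := by
  intro i j hij
  by_contra hne
  have h1 := h.dual i i
  have h2 := h.dual i j
  rw [if_pos rfl, hij] at h1
  rw [if_neg (Ne.symm hne), h1] at h2
  exact one_ne_zero h2

theorem exists_db {f : Fin r → Du r} (hf : LinearIndependent ℝ f) : ∃ w, DB f w := by
  have hspan : Submodule.span ℝ (Set.range f) = ⊤ :=
    hf.span_eq_top_of_card_eq_finrank' (by simp)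
  let L : (Fin r → ℝ) →ₗ[ℝ] (Fin r → ℝ) := LinearMap.pi f
  have hL : Function.Injective L := by
    rw [← LinearMap.ker_eq_bot, LinearMap.ker_eq_bot']
    intro y hy
    have h1 : ∀ g ∈ Submodule.span ℝ (Set.range f), g y = 0 := by
      intro g hg
      induction hg using Submodule.span_induction with
      | mem g hg =>
        obtain ⟨i, rfl⟩ := hg
        exact congrFun hy i
      | zero => rfl
      | add a b _ _ ha hb => rw [LinearMap.add_apply, ha, hb, add_zero]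
      | smul c a _ ha => rw [LinearMap.smul_apply, ha, smul_zero]
    funext k
    exact h1 (LinearMap.proj k) (hspan ▸ Submodule.mem_top)
  have hS : Function.Surjective L := LinearMap.injective_iff_surjective.1 hL
  choose w hw using fun i => hS (Pi.single i 1)
  have hd : ∀ i j, f j (w i) = if j = i then 1 else 0 := by
    intro i j
    have := congrFun (hw i) j
    rw [Pi.single_apply] at this
    exact this
  refine ⟨w, hd, fun y => hL ?_⟩
  funext j
  change f j y = f j (∑ i, f i y • w i)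
  simp [hd]

theorem sign_closure {A : Finset (Submodule ℝ (Fin r → ℝ))} {v : Fin r → ℝ}
    (hv : v ∈ Complement A) {g : Du r} (hg : LinearMap.ker g ∈ A) (hp : 0 < g v) :
    ∀ y ∈ closure (connectedComponentIn (Complement A) v), 0 ≤ g y := by
  have hc : Continuous g := g.continuous_of_finiteDimensional
  refine closure_minimal (t := {y | 0 ≤ g y}) (fun y hy => ?_) (isClosed_le continuous_const hc)
  by_contra hn
  have hn' : g y < 0 := not_le.1 hn
  obtain ⟨z, hz, hz0⟩ := isPreconnected_connectedComponentIn.intermediate_value hy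
    (mem_connectedComponentIn hv) hc.continuousOn ⟨hn'.le, hp.le⟩
  exact connectedComponentIn_subset _ _ hz _ hg hz0

theorem chamber {A : Finset (Submodule ℝ (Fin r → ℝ))} (hs : IsSimplicial A) {v : Fin r → ℝ}
    (hv : v ∈ Complement A) :
    ∃ f w, DB f w ∧ (∀ i, f i ∈ Rt A) ∧ (∀ i, 0 < f i v) ∧
      ∀ g ∈ Rt A, (∀ i, 0 ≤ g (w i)) ∨ ∀ i, g (w i) ≤ 0 := by
  obtain ⟨f, hf, hfA, hK⟩ := hs _ ⟨v, hv, rfl⟩
  obtain ⟨w, hw⟩ := exists_db hf
  have hwK : ∀ i, w i ∈ closure (connectedComponentIn (Complement A) v) := by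
    intro i
    rw [hK]
    intro j
    rw [hw.dual]
    split_ifs <;> norm_num
  have hvK : v ∈ closure (connectedComponentIn (Complement A) v) :=
    subset_closure (mem_connectedComponentIn hv)
  refine ⟨f, w, hw, fun i => ⟨hf.ne_zero i, hfA i⟩, fun i => ?_, fun g hg => ?_⟩
  · rw [hK] at hvK
    exact lt_of_le_of_ne (hvK i) fun h => hv _ (hfA i) h.symm
  · rcases lt_or_gt_of_ne (show g v ≠ 0 from hv _ hg.2) with h | h
    · refine Or.inr fun i => ?_
      have := sign_closure hv (g := -g) (by rw [LinearMap.ker_neg]; exact hg.2)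
        (by simpa using h) _ (hwK i)
      simpa using this
    · exact Or.inl fun i => sign_closure hv hg.2 h _ (hwK i)

/-- The family attached to dual bases. -/
noncomputable def fam (f : Fin r → Du r) (w : Fin r → Fin r → ℝ) : Fam (Du r) (Du r) :=
  ⟨id, fun t => Module.Dual.eval ℝ (Fin r → ℝ) (Function.extend f w 0 t)⟩

theorem DB.fam_x {f : Fin r → Du r} {w : Fin r → Fin r → ℝ} (h : DB f w) (i : Fin r) (g : Du r) :
    (fam f w).x (f i) g = g (w i) := by
  change g (Function.extend f w 0 (f i)) = _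
  rw [h.inj.extend_apply]

theorem DB.isCh {A : Finset (Submodule ℝ (Fin r → ℝ))} {f : Fin r → Du r}
    {w : Fin r → Fin r → ℝ} (h : DB f w) (hf : ∀ i, f i ∈ Rt A)
    (hsign : ∀ g ∈ Rt A, (∀ i, 0 ≤ g (w i)) ∨ ∀ i, g (w i) ≤ 0) :
    IsCh (Rt A) (Finset.univ.image f) (fam f w) where
  dual := by
    intro t ht t' ht'
    obtain ⟨i, -, rfl⟩ := Finset.mem_image.1 ht
    obtain ⟨j, -, rfl⟩ := Finset.mem_image.1 ht'
    change (fam f w).x (f i) (f j) = _
    rw [h.fam_x, h.dual]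
    simp only [h.inj.eq_iff, eq_comm]
  mem := by
    intro t ht
    obtain ⟨i, -, rfl⟩ := Finset.mem_image.1 ht
    exact hf i
  repr := by
    intro g _
    rw [Finset.sum_image fun i _ j _ hij => h.inj hij]
    refine LinearMap.ext fun y => ?_
    rw [h.fun_eq g y, LinearMap.sum_apply]
    refine Finset.sum_congr rfl fun i _ => ?_
    rw [h.fam_x]
    rfl
  sign := by
    intro g hg
    rcases hsign g hg with h1 | h1
    · refine Or.inl fun t ht => ?_
      obtain ⟨i, -, rfl⟩ := Finset.mem_image.1 ht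
      rw [h.fam_x]
      exact h1 i
    · refine Or.inr fun t ht => ?_
      obtain ⟨i, -, rfl⟩ := Finset.mem_image.1 ht
      rw [h.fam_x]
      exact h1 i

theorem sys {A : Finset (Submodule ℝ (Fin r → ℝ))} (hA : IsArrangement A) (hs : IsSimplicial A) :
    Sys (Rt A) where
  ne := fun _ h => h.1
  smul := fun ρ h c hc => ⟨smul_ne_zero hc h.1, by rw [LinearMap.ker_smul _ _ hc]; exact h.2⟩
  fin := by
    choose! F hF using fun H (hH : H ∈ A) => exists_ker (hA.1 H hH)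
    refine ⟨A.image F, fun ρ hρ => ⟨F _, Finset.mem_image_of_mem _ hρ.2, ?_⟩⟩
    exact exists_smul (hF _ hρ.2).1 (hF _ hρ.2).2.symm
  simp := by
    intro φ hφ
    set v := (Module.evalEquiv ℝ (Fin r → ℝ)).symm φ with hvdef
    have hv : ∀ g : Du r, g v = φ g := fun g => Module.apply_evalEquiv_symm_apply ℝ _ g φ
    have hvC : v ∈ Complement A := by
      intro H hH hvH
      obtain ⟨f, hf, rfl⟩ := (mem_iff hA H).1 hH
      exact hφ f hf (by rw [← hv]; exact hvH)
    obtain ⟨f, w, hw, hf, hpos, hsign⟩ := chamber hs hvC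
    refine ⟨_, _, hw.isCh hf hsign, fun t ht => ?_⟩
    obtain ⟨i, -, rfl⟩ := Finset.mem_image.1 ht
    change 0 < φ (f i)
    rw [← hv]
    exact hpos i

theorem exists_compl {A : Finset (Submodule ℝ (Fin r → ℝ))} (hA : IsArrangement A) :
    ∃ v, v ∈ Complement A := by
  obtain ⟨v, hv⟩ := Submodule.exists_forall_notMem_of_forall_ne_top
    (fun H : A => (H : Submodule ℝ (Fin r → ℝ))) fun H h => by
      have h1 := hA.1 H H.2
      rw [h, finrank_top] at h1
      simp at h1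
  exact ⟨v, fun H hH => hv ⟨H, hH⟩⟩

/-- The common kernel of the `f i` with `P i`. -/
def cok (f : Fin r → Du r) (P : Fin r → Prop) : Submodule ℝ (Fin r → ℝ) :=
  ⨅ i, ⨅ _ : P i, LinearMap.ker (f i)

theorem mem_cok {f : Fin r → Du r} {P : Fin r → Prop} {y : Fin r → ℝ} :
    y ∈ cok f P ↔ ∀ i, P i → f i y = 0 := by
  simp [cok, Submodule.mem_iInf]

theorem DB.w_mem {f : Fin r → Du r} {w : Fin r → Fin r → ℝ} (h : DB f w) {P : Fin r → Prop}
    {i : Fin r} (hi : ¬ P i) : w i ∈ cok f P := by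
  refine mem_cok.2 fun j hj => ?_
  rw [h.dual, if_neg]
  rintro rfl
  exact hi hj

theorem DB.cok_ne_bot {f : Fin r → Du r} {w : Fin r → Fin r → ℝ} (h : DB f w) {P : Fin r → Prop}
    {i : Fin r} (hi : ¬ P i) : cok f P ≠ ⊥ := by
  intro hb
  have h1 := h.w_mem hi
  rw [hb, Submodule.mem_bot] at h1
  have h2 := h.dual i i
  rw [h1, if_pos rfl, map_zero] at h2
  exact zero_ne_one h2

theorem DB.isCompl {f : Fin r → Du r} {w : Fin r → Fin r → ℝ} (h : DB f w) (P : Fin r → Prop) :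
    IsCompl (cok f P) (cok f fun i => ¬ P i) := by
  constructor
  · rw [Submodule.disjoint_def]
    intro y h1 h2
    rw [h.vec y]
    refine Finset.sum_eq_zero fun i _ => ?_
    by_cases hi : P i
    · rw [mem_cok.1 h1 i hi, zero_smul]
    · rw [mem_cok.1 h2 i hi, zero_smul]
  · rw [codisjoint_iff, eq_top_iff]
    intro y _
    rw [h.vec y]
    refine Submodule.sum_mem _ fun i _ => Submodule.smul_mem _ _ ?_
    by_cases hi : P i
    · exact Submodule.mem_sup_right (h.w_mem (not_not.2 hi))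
    · exact Submodule.mem_sup_left (h.w_mem hi)

theorem DB.cok_le {f : Fin r → Du r} {w : Fin r → Fin r → ℝ} (h : DB f w) {P : Fin r → Prop}
    {g : Du r} (hg : ∀ i, ¬ P i → g (w i) = 0) : cok f P ≤ LinearMap.ker g := by
  intro y hy
  rw [LinearMap.mem_ker, h.fun_eq g y]
  refine Finset.sum_eq_zero fun i _ => ?_
  by_cases hi : P i
  · rw [mem_cok.1 hy i hi, mul_zero]
  · rw [hg i hi, zero_mul]

theorem DB.conn {A : Finset (Submodule ℝ (Fin r → ℝ))} (hA : IsArrangement A)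
    (hs : IsSimplicial A) (hi : IsIrreducible A) {f : Fin r → Du r} {w : Fin r → Fin r → ℝ}
    (h : DB f w) (hch : IsCh (Rt A) (Finset.univ.image f) (fam f w)) :
    Conn (Rt A) (Finset.univ.image f) (fam f w) (Finset.univ.image f) := by
  intro Z hZ hne hZT
  by_contra hno
  push Not at hno
  have hsep : Sep (Rt A) (Finset.univ.image f) (fam f w) Z (Finset.univ.image f \ Z) :=
    fun i hi j hj => hno i hi j (Finset.mem_sdiff.1 hj).1 (Finset.mem_sdiff.1 hj).2
  obtain ⟨t, ht⟩ := hne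
  obtain ⟨i, -, rfl⟩ := Finset.mem_image.1 (hZ ht)
  obtain ⟨t', ht', ht'Z⟩ := Finset.exists_of_ssubset (Finset.ssubset_iff_subset_ne.2 ⟨hZ, hZT⟩)
  obtain ⟨j, -, rfl⟩ := Finset.mem_image.1 ht'
  refine hi ⟨cok f fun k => f k ∈ Z, cok f fun k => ¬ f k ∈ Z, h.isCompl _,
    h.cok_ne_bot ht'Z, h.cok_ne_bot (not_not.2 ht), fun H hH => ?_⟩
  obtain ⟨g, hg, rfl⟩ := (mem_iff hA H).1 hH
  have hsup : Sup (Finset.univ.image f) (fam f w) (Z ∪ (Finset.univ.image f \ Z)) g := by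
    rw [Finset.union_sdiff_of_subset hZ]
    exact sup_self g
  rcases one_sided (sys hA hs) hch Finset.disjoint_sdiff hsep hg hsup with h1 | h1
  · refine Or.inl (h.cok_le fun k hk => ?_)
    rw [← h.fam_x]
    exact h1 _ (Finset.mem_image_of_mem _ (Finset.mem_univ k)) hk
  · refine Or.inr (h.cok_le fun k hk => ?_)
    rw [← h.fam_x]
    exact h1 _ (Finset.mem_image_of_mem _ (Finset.mem_univ k))
      fun hm => hk (Finset.mem_sdiff.1 hm).2

theorem typeA {A : Finset (Submodule ℝ (Fin r → ℝ))} (hA : IsArrangement A)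
    (h : TypeA (Rt A) r) : IsTypeA A := by
  obtain ⟨ε, y, -, -, hR⟩ := h
  let g : (Fin r → ℝ) →ₗ[ℝ] (Fin (r + 1) → ℝ) :=
    LinearMap.pi fun i => ε i - (1 / ((r : ℝ) + 1)) • ∑ j : Fin (r + 1), ε j
  have hg : ∀ v i, g v i = ε i v - (1 / ((r : ℝ) + 1)) * ∑ j : Fin (r + 1), ε j v := by
    intro v i
    simp [g]
  have hgg : ∀ v (i j : Fin (r + 1)), g v i = g v j ↔ ε i v = ε j v := by
    intro v i j
    rw [hg, hg, sub_left_inj]
  have hker : ∀ (i j : Fin (r + 1)) (c : ℝ), c ≠ 0 → ∀ v,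
      v ∈ LinearMap.ker (c • (ε i - ε j)) ↔ g v i = g v j := by
    intro i j c hc v
    rw [hgg, LinearMap.ker_smul _ _ hc, LinearMap.mem_ker, LinearMap.sub_apply, sub_eq_zero]
  refine ⟨g, ?_, fun v => ?_, fun H => ?_⟩
  · rw [← LinearMap.ker_eq_bot, LinearMap.ker_eq_bot']
    intro v hv
    refine eq_zero_of_roots hA fun f hf => ?_
    obtain ⟨p, hp, q, hq, -, c, hc, rfl⟩ := (hR f).1 hf
    exact (hker ⟨p, Nat.lt_succ_of_le hp⟩ ⟨q, Nat.lt_succ_of_le hq⟩ c hc v).2 (by rw [hv]; rfl)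
  · simp only [hg, Finset.sum_sub_distrib, Finset.sum_const, Finset.card_univ, Fintype.card_fin,
      nsmul_eq_mul]
    push_cast
    field_simp
    ring
  · rw [mem_iff hA]
    constructor
    · rintro ⟨f, hf, rfl⟩
      obtain ⟨p, hp, q, hq, hpq, c, hc, rfl⟩ := (hR f).1 hf
      exact ⟨⟨p, Nat.lt_succ_of_le hp⟩, ⟨q, Nat.lt_succ_of_le hq⟩,
        fun h => hpq (congrArg Fin.val h),
        hker ⟨p, Nat.lt_succ_of_le hp⟩ ⟨q, Nat.lt_succ_of_le hq⟩ c hc⟩
    · rintro ⟨i, j, hij, hH⟩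
      refine ⟨(1 : ℝ) • (ε i - ε j), (hR _).2 ⟨i, Nat.le_of_lt_succ i.2, j, Nat.le_of_lt_succ j.2,
        fun h => hij (Fin.ext h), 1, one_ne_zero, rfl⟩, ?_⟩
      ext v
      rw [hker i j 1 one_ne_zero, hH]

theorem exists_perm (T : Finset ℕ) :
    ∃ k ≤ r, ∃ σ : Equiv.Perm (Fin r), ∀ i : Fin r, (σ i).val ∈ T ↔ i.val < k := by
  set k := (Finset.univ.filter fun i : Fin r => i.val ∈ T).card with hk
  have hkr : k ≤ r := by
    have := Finset.card_filter_le (Finset.univ : Finset (Fin r)) fun i => i.val ∈ T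
    simpa using this
  have hc : Fintype.card {i : Fin r // i.val < k} = Fintype.card {i : Fin r // i.val ∈ T} := by
    rw [Fintype.card_subtype, Fintype.card_subtype, Fin.card_filter_val_lt, min_eq_right hkr]
  let e := Fintype.equivOfCardEq hc
  refine ⟨k, hkr, e.extendSubtype, fun i => ⟨fun h => ?_, fun h => e.extendSubtype_mem i h⟩⟩
  by_contra hn
  exact e.extendSubtype_not_mem i hn h

theorem typeD {A : Finset (Submodule ℝ (Fin r → ℝ))} (hA : IsArrangement A)
    (h : TypeD (Rt A) r) : ∃ k ≤ r, IsTypeDB k A := by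
  obtain ⟨e, y, T, hT, -, hR⟩ := h
  obtain ⟨k, hk, σ, hσ⟩ := exists_perm (r := r) T
  let g0 : (Fin r → ℝ) →ₗ[ℝ] (Fin r → ℝ) := LinearMap.pi fun i => e (σ i)
  have hg0 : ∀ v i, g0 v i = e (σ i) v := fun _ _ => rfl
  have hidx : ∀ p < r, ∃ i : Fin r, (σ i).val = p := fun p hp =>
    ⟨σ.symm ⟨p, hp⟩, by rw [Equiv.apply_symm_apply]⟩
  have hk1 : ∀ (i j : Fin r) (c : ℝ), c ≠ 0 → ∀ v,
      v ∈ LinearMap.ker (c • (e (σ i) - e (σ j))) ↔ g0 v i = g0 v j := by
    intro i j c hc v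
    rw [hg0, hg0, LinearMap.ker_smul _ _ hc, LinearMap.mem_ker, LinearMap.sub_apply, sub_eq_zero]
  have hk2 : ∀ (i j : Fin r) (c : ℝ), c ≠ 0 → ∀ v,
      v ∈ LinearMap.ker (c • (e (σ i) + e (σ j))) ↔ g0 v i = -g0 v j := by
    intro i j c hc v
    rw [hg0, hg0, LinearMap.ker_smul _ _ hc, LinearMap.mem_ker, LinearMap.add_apply,
      add_eq_zero_iff_eq_neg]
  have hk3 : ∀ (i : Fin r) (c : ℝ), c ≠ 0 → ∀ v,
      v ∈ LinearMap.ker (c • e (σ i)) ↔ g0 v i = 0 := by
    intro i c hc v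
    rw [hg0, LinearMap.ker_smul _ _ hc, LinearMap.mem_ker]
  have hinj : Function.Injective g0 := by
    rw [← LinearMap.ker_eq_bot, LinearMap.ker_eq_bot']
    intro v hv
    refine eq_zero_of_roots hA fun f hf => ?_
    obtain ⟨c, hc, ⟨p, hp, q, hq, -, h1⟩ | ⟨p, hp, rfl⟩⟩ := (hR f).1 hf
    · obtain ⟨i, rfl⟩ := hidx p hp
      obtain ⟨j, rfl⟩ := hidx q hq
      rcases h1 with rfl | rfl
      · exact (hk1 i j c hc v).2 (by rw [hv]; rfl)
      · exact (hk2 i j c hc v).2 (by rw [hv]; simp)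
    · obtain ⟨i, rfl⟩ := hidx p (hT p hp)
      exact (hk3 i c hc v).2 (by rw [hv]; rfl)
  refine ⟨k, hk, LinearEquiv.ofInjectiveEndo g0 hinj, fun H => ?_⟩
  simp only [LinearEquiv.coe_ofInjectiveEndo]
  rw [mem_iff hA]
  constructor
  · rintro ⟨f, hf, rfl⟩
    obtain ⟨c, hc, ⟨p, hp, q, hq, hpq, h1⟩ | ⟨p, hp, rfl⟩⟩ := (hR f).1 hf
    · obtain ⟨i, rfl⟩ := hidx p hp
      obtain ⟨j, rfl⟩ := hidx q hq
      refine Or.inl ⟨i, j, fun h => hpq (by rw [h]), ?_⟩
      rcases h1 with rfl | rfl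
      · exact Or.inl (hk1 i j c hc)
      · exact Or.inr (hk2 i j c hc)
    · obtain ⟨i, rfl⟩ := hidx p (hT p hp)
      exact Or.inr ⟨i, (hσ i).1 hp, hk3 i c hc⟩
  · rintro (⟨i, j, hij, hH | hH⟩ | ⟨i, hi, hH⟩)
    · refine ⟨(1 : ℝ) • (e (σ i) - e (σ j)), (hR _).2 ⟨1, one_ne_zero, Or.inl ⟨σ i, (σ i).2, σ j,
        (σ j).2, fun h => hij (σ.injective (Fin.ext h)), Or.inl rfl⟩⟩, ?_⟩
      ext v
      rw [hk1 i j 1 one_ne_zero, hH]
    · refine ⟨(1 : ℝ) • (e (σ i) + e (σ j)), (hR _).2 ⟨1, one_ne_zero, Or.inl ⟨σ i, (σ i).2, σ j,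
        (σ j).2, fun h => hij (σ.injective (Fin.ext h)), Or.inr rfl⟩⟩, ?_⟩
      ext v
      rw [hk2 i j 1 one_ne_zero, hH]
    · refine ⟨(1 : ℝ) • e (σ i), (hR _).2 ⟨1, one_ne_zero, Or.inr ⟨σ i, (hσ i).2 hi, rfl⟩⟩, ?_⟩
      ext v
      rw [hk3 i 1 one_ne_zero, hH]

end Final

theorem final_of_main {N : ℕ} (hN : 1 ≤ N)
    (hmain : ∀ (V : Type) [AddCommGroup V] [Module ℝ V] (R : Set V) (S : Finset V) (κ : Fam V V),
      Sys R → IsCh R S κ → Conn R S κ S → N ≤ S.card → TypeA R S.card ∨ TypeD R S.card)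
    {r : ℕ} (hr : N ≤ r) (A : Finset (Submodule ℝ (Fin r → ℝ))) (hA : IsArrangement A)
    (hs : IsSimplicial A) (hi : IsIrreducible A) :
    IsTypeA A ∨ ∃ k ≤ r, IsTypeDB k A := by
  have _ := hN
  obtain ⟨v, hv⟩ := Final.exists_compl hA
  obtain ⟨f, w, hw, hf, -, hsign⟩ := Final.chamber hs hv
  have hch := hw.isCh hf hsign
  have hcard : (Finset.univ.image f).card = r := by
    rw [Finset.card_image_of_injective _ hw.inj, Finset.card_univ, Fintype.card_fin]
  have := hmain _ _ _ _ (Final.sys hA hs) hch (hw.conn hA hs hi hch) (by rw [hcard]; exact hr)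
  rw [hcard] at this
  exact this.imp (Final.typeA hA) (Final.typeD hA)

end Pool.Agent.SimpArr
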