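import Pool.Agent.P.MP_0b4c38_co.Growth

/-! Simplicial root systems: a leaf with a single slope forces interval patterns. -/

set_option autoImplicit false

open Classical

namespace Pool.Agent.SimpArr

variable {V : Type} [AddCommGroup V] [Module ℝ V] {ι : Type}
variable {R : Set V} {S : Finset ι} {κ : Fam ι V}

namespace LemAB

theorem few_of_ratio {U : Finset ι} {a c : ι} {d : ℝ}
    (hd : ∀ ρ ∈ R, 0 < κ.x a ρ → 0 < κ.x c ρ → κ.x a ρ = d * κ.x c ρ) : Few R S κ U a c 1 := by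
  intro T hT
  have key : ∀ s ∈ T, s = d := by
    intro s hs
    obtain ⟨h1, ρ, h2, -, h4, h5⟩ := hT s hs
    have := hd ρ h2 (by rwa [h5]) (by rw [h4]; exact one_pos)
    rwa [h4, h5, mul_one] at this
  exact Finset.card_le_one.mpr fun s hs s' hs' => by rw [key s hs, key s' hs']

theorem few_con (h : IsCh R S κ) {J : Finset ι} {a c : ι} (ha : a ∈ S \ J) (hc : c ∈ S \ J)
    {k : ℕ} : Few (con R S κ J) (S \ J) κ (S \ J) a c k ↔ Few R S κ S a c k := by
  obtain ⟨ha, haJ⟩ := Finset.mem_sdiff.mp ha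
  obtain ⟨hc, hcJ⟩ := Finset.mem_sdiff.mp hc
  constructor
  · intro hf T hT
    refine hf T fun s hs => ?_
    obtain ⟨h1, ρ, h2, -, h4, h5⟩ := hT s hs
    exact ⟨h1, _, h.proj_mem h2 hc hcJ (by rw [h4]; exact one_ne_zero), sup_self _,
      by rw [h.x_proj_of _ hc hcJ, h4], by rw [h.x_proj_of _ ha haJ, h5]⟩
  · intro hf T hT
    refine hf T fun s hs => ?_
    obtain ⟨h1, v, ⟨-, ρ, h2, rfl⟩, -, h4, h5⟩ := hT s hs
    rw [h.x_proj_of _ hc hcJ] at h4
    rw [h.x_proj_of _ ha haJ] at h5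
    exact ⟨h1, ρ, h2, sup_self _, h4, h5⟩

theorem pat_mem {t : ℕ → ι} {n : ℕ} {lam : ℕ → ℝ} (hp : Pat R S κ t n lam) {i : ℕ} (hi : i < n) :
    t i ∈ S := hp.1.mapsTo (by simpa using hi)

theorem pat_inj {t : ℕ → ι} {n : ℕ} {lam : ℕ → ℝ} (hp : Pat R S κ t n lam) {i j : ℕ} (hi : i < n)
    (hj : j < n) (h : t i = t j) : i = j := hp.1.injOn (by simpa using hi) (by simpa using hj) h

theorem pat_surj {t : ℕ → ι} {n : ℕ} {lam : ℕ → ℝ} (hp : Pat R S κ t n lam) {s : ι} (hs : s ∈ S) :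
    ∃ i < n, t i = s := by
  obtain ⟨i, hi, h⟩ := hp.1.surjOn hs
  exact ⟨i, by simpa using hi, h⟩

theorem pat_adj {t : ℕ → ι} {n : ℕ} {lam : ℕ → ℝ} (hp : Pat R S κ t n lam) {i j : ℕ} (hi : i < n)
    (hj : j < n) (h : Adj R S κ (t i) (t j)) : j = i + 1 ∨ i = j + 1 := by
  obtain ⟨hij, ρ, hρ, h1, h2, h3⟩ := h
  obtain ⟨c, p, q, -, -, hx⟩ := hp.2.2 ρ hρ
  have hne : i ≠ j := fun e => hij (by rw [e])
  have e1 := hx i hi
  have e2 := hx j hj
  have a1 : p ≤ i ∧ i ≤ q := by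
    by_contra hn
    rw [if_neg hn] at e1
    exact h1.ne' e1
  have a2 : p ≤ j ∧ j ≤ q := by
    by_contra hn
    rw [if_neg hn] at e2
    exact h2.ne' e2
  rw [if_pos a1] at e1
  have hc : c ≠ 0 := fun e => h1.ne' (by rw [e1, e, zero_mul])
  by_contra hn
  have hk : min i j + 1 < n := by omega
  have e3 := hx _ hk
  rw [if_pos (by omega), h3 _ (pat_mem hp hk) (by
    simp only [Finset.mem_insert, Finset.notMem_empty, or_false, not_or]
    exact ⟨fun e => by have := pat_inj hp hk hi e; omega,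
      fun e => by have := pat_inj hp hk hj e; omega⟩)] at e3
  exact mul_ne_zero hc (hp.2.1 _ hk).ne' e3.symm

/-- Adding a leaf in front of an interval pattern. -/
theorem extend (h : IsCh R S κ) {j a : ι} (hj : j ∈ S) {d : ℝ} (hd : 0 < d)
    (hF : ∀ ρ ∈ R, κ.x j ρ ≠ 0 → κ.x a ρ ≠ 0 → κ.x a ρ = d * κ.x j ρ)
    (hG : ∀ ρ ∈ R, κ.x j ρ ≠ 0 → κ.x a ρ = 0 → Sup S κ {j} ρ)
    {t : ℕ → ι} {n : ℕ} {lam : ℕ → ℝ} (hp : Pat (con R S κ {j}) (S \ {j}) κ t n lam)
    (hn : 0 < n) (h0 : t 0 = a) :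
    ∃ (t : ℕ → ι) (n : ℕ) (lam : ℕ → ℝ), Pat R S κ t n lam ∧ t 0 = j ∧ t 1 = a := by
  have hm : ∀ i < n, t i ∈ S ∧ t i ∉ ({j} : Finset ι) := fun i hi =>
    Finset.mem_sdiff.mp (pat_mem hp hi)
  have hl := hp.2.1 0 hn
  refine ⟨fun i => Nat.casesOn i j t, n + 1, fun i => Nat.casesOn i (lam 0 / d) lam,
    ⟨⟨?_, ?_, ?_⟩, ?_, ?_⟩, rfl, h0⟩
  · rintro (_ | i) hi
    · exact hj
    · exact (hm i (by simpa using hi)).1
  · rintro (_ | i) hi (_ | k) hk e
    · rfl
    · exact absurd (Finset.mem_singleton.mpr e.symm) (hm k (by simpa using hk)).2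
    · exact absurd (Finset.mem_singleton.mpr e) (hm i (by simpa using hi)).2
    · rw [pat_inj hp (by simpa using hi) (by simpa using hk) e]
  · intro s hs
    by_cases e : s = j
    · exact ⟨0, by simp, e.symm⟩
    · obtain ⟨i, hi, hs⟩ := pat_surj hp (Finset.mem_sdiff.mpr ⟨hs, by simpa using e⟩)
      exact ⟨i + 1, by simpa using hi, hs⟩
  · rintro (_ | i) hi
    · exact div_pos hl hd
    · exact hp.2.1 i (by omega)
  · intro ρ hρ
    by_cases hz : proj S κ {j} ρ = 0
    · refine ⟨κ.x j ρ / (lam 0 / d), 0, 0, le_rfl, by omega, ?_⟩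
      rintro (_ | i) hi
      · rw [if_pos ⟨le_rfl, le_rfl⟩]
        exact (div_mul_cancel₀ _ (div_pos hl hd).ne').symm
      · rw [if_neg (by omega)]
        exact (h.proj_eq_zero _ _).mp hz _ (hm i (by omega)).1 (hm i (by omega)).2
    · obtain ⟨c, p, q, hpq, hq, hx⟩ := hp.2.2 _ ⟨hz, ρ, hρ, rfl⟩
      have hx' : ∀ i < n, κ.x (t i) ρ = if p ≤ i ∧ i ≤ q then c * lam i else 0 := fun i hi => by
        rw [← hx i hi, h.x_proj_of _ (hm i hi).1 (hm i hi).2]
      by_cases hj0 : κ.x j ρ = 0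
      · refine ⟨c, p + 1, q + 1, by omega, by omega, ?_⟩
        rintro (_ | i) hi
        · rw [if_neg (by omega)]
          exact hj0
        · simpa using hx' i (by omega)
      · have ha0 : κ.x a ρ ≠ 0 := fun e => hz ((h.proj_eq_zero _ _).mpr (hG ρ hρ hj0 e))
        have e1 := hx' 0 hn
        rw [h0] at e1
        have a1 : p ≤ 0 ∧ 0 ≤ q := by
          by_contra hc
          rw [if_neg hc] at e1
          exact ha0 e1
        rw [if_pos a1, hF ρ hρ hj0 ha0] at e1
        refine ⟨c, 0, q + 1, by omega, by omega, ?_⟩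
        rintro (_ | i) hi
        · rw [if_pos (by omega)]
          show κ.x j ρ = c * (lam 0 / d)
          field_simp
          linarith
        · have := hx' i (by omega)
          rw [show p = 0 by omega] at this
          simpa using this

/-- The single slope propagates from a leaf to the next edge. -/
theorem next (hR : Sys R) (h : IsCh R S κ) {j a q : ι} (hj : j ∈ S) (ha : a ∈ S) (hq : q ∈ S)
    (hja : Adj R S κ j a) (hqa : Adj R S κ q a) (hqj : q ≠ j)
    (hleaf : ∀ i ∈ S, Adj R S κ j i → i = a) {d : ℝ}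
    (hF : ∀ ρ ∈ R, 0 < κ.x j ρ → 0 < κ.x a ρ → κ.x a ρ = d * κ.x j ρ) :
    (∀ i ∈ S, Adj R S κ i a → i = j ∨ i = q) ∧ Few R S κ S a q 1 := by
  obtain ⟨κ', co, h', -, hB, hx, hxa⟩ := cross hR h ha
  obtain ⟨τ, hτ, hτ1, htop⟩ := top hR h' ha
  have hone : ∀ i ∈ S, Adj R S κ i a → 0 < co i ∧ 1 ≤ co i * κ.x i τ := by
    intro i hi hadj
    obtain ⟨hia, ρ, hρ, p1, p2, hs⟩ := hadj
    have hs' : Sup S κ {i, a} ρ := by simpa using hs
    have hco : 0 < co i := by
      have := h'.nonneg hρ hi (by rwa [hx i hi hia]) a ha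
      rw [hxa ρ hρ, sum_erase_pair hi hia hs'] at this
      by_contra hn
      have := mul_nonpos_of_nonpos_of_nonneg (not_lt.mp hn) p1.le
      linarith
    have hxB : κ'.x a (κ.B i) = co i := by
      rw [hxa _ (h.mem i hi), sum_erase_pair hi hia (h.sup_B hi (by simp)), h.x_self hi,
        h.x_ne ha hi hia.symm]
      ring
    have := htop _ (h.mem i hi) i hi (by rwa [hxB])
    rw [hxB, hx i hi hia, hx i hi hia, h.x_self hi] at this
    exact ⟨hco, this⟩
  have hnn : ∀ i ∈ S.erase a, 0 ≤ co i * κ.x i τ := by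
    intro i hi
    obtain ⟨hia, hi⟩ := Finset.mem_erase.mp hi
    have := h'.nonneg hτ ha (by rw [hτ1]; exact one_pos) i hi
    rw [hx i hi hia] at this
    exact mul_nonneg (hB i hi hia).1 this
  have haB : ∀ i ∈ S, i ≠ a → κ.x a (κ'.B i) = co i := fun i hi hia => by
    rw [(hB i hi hia).2, map_add, map_smul, h.x_ne ha hi hia.symm, h.x_self ha]
    simp
  obtain ⟨j1, j2⟩ := hone j hj hja
  obtain ⟨q1, q2⟩ := hone q hq hqa
  have hd : co j = d := by
    have e : κ.x j (κ'.B j) = 1 := by rw [← hx j hj hja.1, h'.x_self hj]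
    have := hF _ (h'.mem j hj) (by rw [e]; exact one_pos) (by rwa [haB j hj hja.1])
    rwa [e, haB j hj hja.1, mul_one] at this
  have hsplit : ∀ v, ∑ i ∈ S.erase a, co i * κ.x i v = co j * κ.x j v + (co q * κ.x q v +
      ∑ i ∈ ((S.erase a).erase j).erase q, co i * κ.x i v) := fun v => by
    rw [Finset.add_sum_erase _ (fun i => co i * κ.x i v) (Finset.mem_erase.mpr
      ⟨hqj, Finset.mem_erase.mpr ⟨hqa.1, hq⟩⟩), Finset.add_sum_erase _ (fun i => co i * κ.x i v)
      (Finset.mem_erase.mpr ⟨hja.1, hj⟩)]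
  have hnn' : ∀ i ∈ ((S.erase a).erase j).erase q, 0 ≤ co i * κ.x i τ := fun i hi =>
    hnn i (Finset.mem_of_mem_erase (Finset.mem_of_mem_erase hi))
  have hrest := Finset.sum_nonneg hnn'
  rw [hxa τ hτ, hsplit] at hτ1
  have hτj : 0 < κ.x j τ := by
    by_contra hn
    have := mul_nonpos_of_nonneg_of_nonpos j1.le (not_lt.mp hn)
    linarith
  have hτa := hF τ hτ hτj (by linarith)
  rw [← hd] at hτa
  have hq1 : co q * κ.x q τ = 1 := by linarith
  have hz := (Finset.sum_eq_zero_iff_of_nonneg hnn').mp (by linarith)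
  have huniq : ∀ i ∈ S, Adj R S κ i a → i = j ∨ i = q := by
    intro i hi hadj
    by_contra hn
    rw [not_or] at hn
    have e1 := hz i (by simp [hn.1, hn.2, hadj.1, hi])
    have e2 := (hone i hi hadj).2
    linarith
  have hco0 : ∀ i ∈ ((S.erase a).erase j).erase q, co i = 0 := by
    intro i hi
    simp only [Finset.mem_erase] at hi
    obtain ⟨h1, h2, h3, h4⟩ := hi
    by_contra hn
    have e := h'.mem i h4
    rw [(hB i h4 h3).2] at e
    rcases huniq i h4 (h.adj_of_add h4 ha h3 (lt_of_le_of_ne (hB i h4 h3).1 (Ne.symm hn)) e)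
      with e' | e'
    · exact h2 e'
    · exact h1 e'
  have hy : ∀ ρ ∈ R, κ'.x a ρ = d * κ.x j ρ + co q * κ.x q ρ - κ.x a ρ := fun ρ hρ => by
    rw [hxa ρ hρ, hsplit, Finset.sum_eq_zero fun i hi => by rw [hco0 i hi, zero_mul], hd, add_zero]
  have case1 : ∀ ρ ∈ R, κ.x j ρ = 0 → 0 < κ.x a ρ → 0 < κ.x q ρ → κ.x a ρ = co q * κ.x q ρ := by
    intro ρ hρ h0 p1 p2
    have e1 := hy ρ hρ
    rw [h0, mul_zero, zero_add] at e1
    rcases (h'.nonneg hρ hq (by rwa [hx q hq hqa.1]) a ha).lt_or_eq with e2 | e2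
    · have e3 := htop ρ hρ q hq e2
      rw [hx q hq hqa.1, hx q hq hqa.1] at e3
      have e4 := mul_le_mul_of_nonneg_left e3 q1.le
      rw [mul_left_comm, hq1] at e4
      linarith
    · linarith
  refine ⟨huniq, few_of_ratio (d := co q) fun ρ hρ p1 p2 => ?_⟩
  rcases (h.nonneg hρ ha p1 j hj).lt_or_eq with p3 | p3
  swap
  · exact case1 ρ hρ p3.symm p1 p2
  have e0 := hF ρ hρ p3 p1
  have e1 := hy ρ hρ
  apply le_antisymm
  · obtain ⟨β, hβ, b1, b2, b3⟩ := prod hR h' ha (A := {j}) (by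
      intro i hi k hk hadj
      rw [Finset.mem_singleton.mp hi] at hadj
      simp only [Finset.mem_sdiff, Finset.mem_erase, Finset.mem_singleton] at hk
      obtain ⟨⟨hka, hk⟩, hkj⟩ := hk
      obtain ⟨c, hc, hm⟩ := h'.add_of_adj hR hj hk hadj
      have x1 : ∀ l ∈ S, l ≠ a → κ.x l (κ'.B j + c • κ'.B k) =
          (if l = j then 1 else 0) + c * if l = k then 1 else 0 := fun l hl hla => by
        rw [← hx l hl hla, map_add, map_smul, h'.dual l hl j hj, h'.dual l hl k hk, smul_eq_mul]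
      have x2 : κ.x j (κ'.B j + c • κ'.B k) = 1 := by
        rw [x1 j hj hja.1]
        simp [Ne.symm hkj]
      have x3 : κ.x a (κ'.B j + c • κ'.B k) = d + c * co k := by
        rw [map_add, map_smul, haB j hj hja.1, haB k hk hka, hd, smul_eq_mul]
      have x4 := mul_nonneg hc.le (hB k hk hka).1
      have x5 := hF _ hm (by rw [x2]; exact one_pos) (by rw [x3]; linarith)
      rw [x2, x3] at x5
      have x6 : co k = 0 := (mul_eq_zero.mp (by linarith : c * co k = 0)).resolve_left hc.ne'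
      have x7 := sup_of_sep hR h (A := {k}) (A' := {j, a}) (by simp [hkj, hka]) (by
        intro l hl m hm' hadj'
        rw [Finset.mem_singleton.mp hl] at hadj'
        simp only [Finset.mem_insert, Finset.mem_singleton] at hm'
        rcases hm' with e | e <;> rw [e] at hadj'
        · exact hka (hleaf k hk hadj'.symm)
        · exact (hone k hk hadj').1.ne' x6) hm (by
        intro l hl hl'
        simp only [Finset.mem_union, Finset.mem_insert, Finset.mem_singleton, not_or] at hl'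
        rw [x1 l hl hl'.2.2]
        simp [hl'.1, hl'.2.1]) hk (Finset.mem_singleton_self k) (by
        rw [x1 k hk hka]
        simp [hkj, hc.ne'])
      have x8 := x7 j hj (by simpa using Ne.symm hkj)
      rw [x2] at x8
      exact one_ne_zero x8)
    have y0 : 0 < κ'.x a ρ := by
      have := mul_pos q1 p2
      linarith
    have c1 := b3 ρ hρ j hj hja.1 (Finset.mem_singleton_self j) y0
    rw [hx j hj hja.1, hx j hj hja.1] at c1
    have c2 : 0 < κ.x j β := (mul_pos_iff_of_pos_left y0).mp (by linarith)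
    have c3 := b2 q hq hqa.1 (by simpa using hqj)
    rw [hx q hq hqa.1] at c3
    have c4 := hy β hβ
    rw [b1, c3, mul_zero, add_zero] at c4
    rcases (h.nonneg hβ hj c2 a ha).lt_or_eq with c5 | c5
    · have := hF β hβ c2 c5
      linarith
    · have c6 := mul_le_mul_of_nonneg_left c1 (hd ▸ j1.le : 0 ≤ d)
      rw [mul_left_comm, show d * κ.x j β = 1 by linarith] at c6
      linarith
  · obtain ⟨β, hβ, b1, b2, b3⟩ := prod hR h ha (A := (S.erase a).erase j) (by
      intro i hi k hk hadj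
      simp only [Finset.mem_sdiff, Finset.mem_erase] at hi hk
      have : k = j := by
        by_contra hn
        exact hk.2 ⟨hn, hk.1⟩
      rw [this] at hadj
      exact hi.2.1 (hleaf i hi.2.2 hadj.symm))
    have c1 := b3 ρ hρ q hq hqa.1 (by simp [hqj, hqa.1, hq]) p1
    have c2 : 0 < κ.x q β := (mul_pos_iff_of_pos_left p1).mp (by linarith)
    have c3 := case1 β hβ (b2 j hj hja.1 (by simp)) (by rw [b1]; exact one_pos) c2
    have c4 := mul_le_mul_of_nonneg_left c1 q1.le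
    rw [mul_left_comm, ← c3, b1] at c4
    linarith

/-- After contracting the rest of its side, a node becomes a leaf. -/
theorem leaf_con (hR : Sys R) (h : IsCh R S κ) {a b : ι} {S1 S2 : Finset ι}
    (hS : S.erase a = S1 ∪ S2) (hd : Disjoint S1 S2) (hsep : Sep R S κ S1 S2) (hb : b ∈ S1) :
    ∀ i ∈ S \ S1.erase b, Adj (con R S κ (S1.erase b)) (S \ S1.erase b) κ b i → i = a := by
  intro i hi hadj
  obtain ⟨hi, hi'⟩ := Finset.mem_sdiff.mp hi
  have hbS : b ∈ S := Finset.mem_of_mem_erase (hS ▸ Finset.mem_union_left _ hb)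
  obtain ⟨ρ, hρ, p1, p2, hs⟩ := (link_con h hbS hi (Finset.notMem_erase _ _) hi').mp hadj.2
  by_contra hia
  have h1 : i ∉ S1 := fun e => hi' (Finset.mem_erase.mpr ⟨hadj.1.symm, e⟩)
  have h2 : i ∈ S1 ∪ S2 := hS ▸ Finset.mem_erase.mpr ⟨hia, hi⟩
  refine p2.ne' (sup_of_sep hR h hd hsep hρ (hs.mono ?_) hbS hb p1.ne' i hi h1)
  refine Finset.insert_subset (Finset.mem_union_left _ hb) (Finset.insert_subset h2 ?_)
  rw [Finset.empty_union]
  exact (Finset.erase_subset _ _).trans Finset.subset_union_left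

end LemAB

open LemAB

theorem Pat.few {t : ℕ → ι} {n : ℕ} {lam : ℕ → ℝ} (hp : Pat R S κ t n lam) {i j : ι}
    (hi : i ∈ S) (hj : j ∈ S) : Few R S κ S i j 1 := by
  obtain ⟨k, hk, rfl⟩ := pat_surj hp hi
  obtain ⟨l, hl, rfl⟩ := pat_surj hp hj
  refine few_of_ratio (d := lam k / lam l) fun ρ hρ p1 p2 => ?_
  obtain ⟨c, p, q, -, -, hx⟩ := hp.2.2 ρ hρ
  have e1 := hx k hk
  have e2 := hx l hl
  split_ifs at e1 e2
  · have := (hp.2.1 l hl).ne'
    rw [e1, e2]
    field_simp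
  · exact absurd e2 p2.ne'
  · exact absurd e1 p1.ne'
  · exact absurd e1 p1.ne'

theorem lemA (hR : Sys R) (h : IsCh R S κ) (hc : Conn R S κ S) {j a : ι} (hj : j ∈ S)
    (ha : a ∈ S) (hja : j ≠ a) (hleaf : ∀ i ∈ S, Adj R S κ j i → i = a)
    (hf : Few R S κ S a j 1) :
    ∃ (t : ℕ → ι) (n : ℕ) (lam : ℕ → ℝ), Pat R S κ t n lam ∧ t 0 = j ∧ t 1 = a := by
  generalize hn : S.card = m
  induction m generalizing R S j a with
  | zero => exact absurd (Finset.card_pos.mpr ⟨j, hj⟩) (by omega)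
  | succ m ih =>
  have hadj : Adj R S κ j a := by
    obtain ⟨i, -, hi, k, hk, -, hik⟩ := hc.exit (A := {j}) hj (Finset.mem_singleton_self j) ha
      (by simpa using hja.symm)
    rw [Finset.mem_singleton.mp hi] at hik
    rwa [hleaf k hk hik] at hik
  obtain ⟨d, hd, hm⟩ := h.add_of_adj hR hj ha hadj
  have hF : ∀ ρ ∈ R, 0 < κ.x j ρ → 0 < κ.x a ρ → κ.x a ρ = d * κ.x j ρ := by
    intro ρ hρ p1 p2
    have e1 : κ.x a (κ.B j + d • κ.B a) = d := by simp [h.x_self ha, h.x_ne ha hj hja.symm]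
    have e2 : κ.x j (κ.B j + d • κ.B a) = 1 := by simp [h.x_self hj, h.x_ne hj ha hja]
    have := hf.one hR hρ hm (sup_self _) (sup_self _) p2 p1 (by rwa [e1])
      (by rw [e2]; exact one_pos)
    rwa [e1, e2, mul_one] at this
  have hF' : ∀ ρ ∈ R, κ.x j ρ ≠ 0 → κ.x a ρ ≠ 0 → κ.x a ρ = d * κ.x j ρ := by
    intro ρ hρ p1 p2
    rcases lt_or_gt_of_ne p1 with p | p
    · have := hF (-ρ) (hR.neg_mem hρ) (by rw [map_neg]; linarith) (by
        rw [map_neg]
        exact neg_pos.mpr (lt_of_le_of_ne (h.nonpos hρ hj p a ha) p2))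
      rw [map_neg, map_neg] at this
      linarith
    · exact hF ρ hρ p (lt_of_le_of_ne (h.nonneg hρ hj p a ha) p2.symm)
  have hG : ∀ ρ ∈ R, κ.x j ρ ≠ 0 → κ.x a ρ = 0 → Sup S κ {j} ρ := by
    intro ρ hρ p1 p2
    refine sup_of_sep hR h (A' := (S.erase a).erase j) (by simp) ?_ hρ ?_ hj
      (Finset.mem_singleton_self j) p1
    · intro i hi k hk hik
      rw [Finset.mem_singleton.mp hi] at hik
      simp only [Finset.mem_erase] at hk
      exact hk.2.1 (hleaf k hk.2.2 hik)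
    · intro i hi hi'
      by_cases e : i = a
      · rw [e, p2]
      · exfalso
        apply hi'
        by_cases e' : i = j <;> simp [e, e', hi]
  have ha' : a ∈ S \ {j} := Finset.mem_sdiff.mpr ⟨ha, by simpa using hja.symm⟩
  by_cases hex : ∃ i ∈ S, i ∉ ({j, a} : Finset ι)
  · obtain ⟨i0, hi0, hi0'⟩ := hex
    obtain ⟨i, -, hi, q, hq, hq', hiq⟩ := hc.exit (A := {j, a}) ha (by simp) hi0 hi0'
    simp only [Finset.mem_insert, Finset.mem_singleton, not_or] at hi hq'
    have hqa : Adj R S κ q a := by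
      rcases hi with e | e <;> rw [e] at hiq
      · exact absurd (hleaf q hq hiq) hq'.2
      · exact hiq.symm
    obtain ⟨huniq, hfew⟩ := next hR h hj ha hq hadj hqa hq'.1 hleaf hF
    have hq2 : q ∈ S \ {j} := Finset.mem_sdiff.mpr ⟨hq, by simpa using hq'.1⟩
    obtain ⟨t, n, lam, hp, h0, -⟩ := ih (hR.con h {j}) (h.con {j})
      (Conn.con hR h subset_rfl hc {j}) ha' hq2 hqa.1.symm (by
        intro k hk hak
        obtain ⟨hk, hkj⟩ := Finset.mem_sdiff.mp hk
        obtain ⟨Y, -, hY, haY, hkY, hcY⟩ := conn_of_link hR h ha hk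
          ((link_con h ha hk (Finset.mem_sdiff.mp ha').2 hkj).mp hak.2)
        have hkj' : k ≠ j := by simpa using hkj
        obtain ⟨u, -, hu, v, hv, hv', huv⟩ := hcY.exit (A := {j, a}) haY (by simp) hkY
          (by simp [hkj', hak.1.symm])
        have e1 := hY hv
        simp only [Finset.mem_insert, Finset.mem_singleton, not_or, Finset.empty_union]
          at hu hv' e1
        have e2 : v = k := by tauto
        rw [e2] at huv
        rcases hu with e | e <;> rw [e] at huv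
        · exact absurd (hleaf k hk huv).symm hak.1
        · exact (huniq k hk huv.symm).resolve_left hkj')
      ((few_con h hq2 ha').mpr (hfew.symm hR))
      (by rw [Finset.card_sdiff_of_subset (Finset.singleton_subset_iff.mpr hj), hn]; simp)
    obtain ⟨k, hk, -⟩ := pat_surj hp ha'
    exact extend h hj hd hF' hG hp (by omega) h0
  · refine extend h hj hd hF' hG (t := fun _ => a) (n := 1) (lam := fun _ => 1)
      ⟨⟨fun _ _ => ha', ?_, ?_⟩, fun _ _ => one_pos, fun ρ _ => ⟨κ.x a ρ, 0, 0, le_rfl, one_pos, ?_⟩⟩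
      one_pos rfl
    · intro i hi k hk _
      simp only [Finset.coe_range, Set.mem_Iio] at hi hk
      omega
    · intro s hs
      obtain ⟨h1, h2⟩ := Finset.mem_sdiff.mp hs
      refine ⟨0, by simp, ?_⟩
      by_contra hn
      exact hex ⟨s, h1, by simpa [Ne.symm hn] using h2⟩
    · intro i hi
      rw [if_pos (by omega), mul_one]

theorem lemB (hR : Sys R) (h : IsCh R S κ) (hc : Conn R S κ S) {a b : ι} {S1 S2 : Finset ι}
    (ha : a ∈ S) (hS : S.erase a = S1 ∪ S2) (hd : Disjoint S1 S2) (hsep : Sep R S κ S1 S2)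
    (hb : b ∈ S1) (hne : S2.Nonempty) (hf : Few R S κ S a b 1) :
    ∃ (t : ℕ → ι) (n : ℕ) (lam : ℕ → ℝ), Pat R S κ t n lam := by
  obtain ⟨q, hq⟩ := hne
  have hm : ∀ i, (i ≠ a ∧ i ∈ S) ↔ (i ∈ S1 ∨ i ∈ S2) := fun i => by
    rw [← Finset.mem_erase, hS, Finset.mem_union]
  have hdis : ∀ i ∈ S1, i ∉ S2 := fun i hi => Finset.disjoint_left.mp hd hi
  obtain ⟨hba, hbS⟩ := (hm b).mpr (Or.inl hb)
  obtain ⟨hqa, hqS⟩ := (hm q).mpr (Or.inr hq)
  have ha1 : a ∉ S1 := fun e => ((hm a).mpr (Or.inl e)).1 rfl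
  have ha2 : a ∉ S2 := fun e => ((hm a).mpr (Or.inr e)).1 rfl
  have b1 : b ∈ S \ S1.erase b := by simp [hbS]
  have a1 : a ∈ S \ S1.erase b := by simp [ha, ha1]
  have q1 : q ∈ S \ S1.erase b := by
    have : q ∉ S1 := fun e => hdis q e hq
    simp [hqS, this]
  obtain ⟨t1, n1, lam1, hp1, -, -⟩ := lemA (hR.con h _) (h.con _)
    (Conn.con hR h subset_rfl hc _) b1 a1 hba (leaf_con hR h hS hd hsep hb)
    ((few_con h a1 b1).mpr hf)
  have hf2 := (few_con h a1 q1).mp (hp1.few a1 q1)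
  have b2 : b ∈ S \ S2.erase q := by simp [hbS, hdis b hb]
  have a2 : a ∈ S \ S2.erase q := by simp [ha, ha2]
  have q2 : q ∈ S \ S2.erase q := by simp [hqS]
  obtain ⟨t, n, lam, hp, h0, h1⟩ := lemA (hR.con h _) (h.con _)
    (Conn.con hR h subset_rfl hc _) q2 a2 hqa
    (leaf_con hR h (by rw [hS, Finset.union_comm]) hd.symm hsep.symm hq)
    ((few_con h a2 q2).mpr hf2)
  obtain ⟨k, hk, hkb⟩ := pat_surj hp b2
  have k0 : k ≠ 0 := fun e => hdis b hb (by rw [← hkb, e, h0]; exact hq)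
  have k1 : k ≠ 1 := fun e => hba (by rw [← hkb, e, h1])
  obtain ⟨m, rfl⟩ : ∃ m, n = m + 3 := ⟨n - 3, by omega⟩
  have z1 := pat_mem hp (i := m + 2) (by omega)
  have z2 := pat_mem hp (i := m + 1) (by omega)
  have z3 : t (m + 2) ∈ S1 := by
    obtain ⟨e1, e2⟩ := Finset.mem_sdiff.mp z1
    refine ((hm _).mp ⟨fun e => ?_, e1⟩).resolve_right fun e =>
      e2 (Finset.mem_erase.mpr ⟨fun e' => ?_, e⟩)
    · have := pat_inj hp (by omega) (by omega) (e.trans h1.symm)
      omega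
    · have := pat_inj hp (by omega) (by omega) (e'.trans h0.symm)
      omega
  obtain ⟨t', n', lam', hp', -⟩ := lemA hR h hc (Finset.mem_sdiff.mp z1).1
    (Finset.mem_sdiff.mp z2).1 (fun e => by
      have := pat_inj hp (by omega) (by omega) e
      omega) (fun i hi hadj => by
      have e1 : i ∉ S2.erase q := fun e => hsep _ z3 i (Finset.mem_of_mem_erase e) hadj
      obtain ⟨l, hl, rfl⟩ := pat_surj hp (Finset.mem_sdiff.mpr ⟨hi, e1⟩)
      have := pat_adj hp (by omega) hl ⟨hadj.1, (link_con h (Finset.mem_sdiff.mp z1).1 hi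
        (Finset.mem_sdiff.mp z1).2 e1).mpr (hadj.link _)⟩
      rw [show l = m + 1 by omega]) ((few_con h z2 z1).mp (hp.few z2 z1))
  exact ⟨t', n', lam', hp'⟩

end Pool.Agent.SimpArr
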