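import Pool.Agent.P.MP_0b4c38_co.Growth

/-! Simplicial root systems: interval patterns give paths of type `A`. -/

set_option autoImplicit false

open Classical

namespace Pool.Agent.SimpArr

variable {V : Type} [AddCommGroup V] [Module ℝ V] {ι : Type}
variable {R : Set V} {S : Finset ι} {κ : Fam ι V}

namespace PathA

theorem eps_eq {t : ℕ → ι} {n : ℕ} {ε : ℕ → V} (hp : APath R S κ t n ε) {q : ℕ} (hq : q ≤ n) :
    ε q = ε 0 + ∑ i ∈ Finset.range q, κ.B (t i) := by
  induction q with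
  | zero => simp
  | succ q ih =>
    rw [Finset.sum_range_succ, ← add_assoc, ← ih (by omega), hp.B_eq q (by omega)]
    abel

theorem x_sum_range (h : IsCh R S κ) {t : ℕ → ι} {n : ℕ} {ε : ℕ → V} (hp : APath R S κ t n ε)
    {q : ℕ} (hq : q ≤ n) {i : ℕ} (hi : i < n) :
    κ.x (t i) (∑ j ∈ Finset.range q, κ.B (t j)) = if i < q then 1 else 0 := by
  rw [map_sum]
  have : ∀ j ∈ Finset.range q, κ.x (t i) (κ.B (t j)) = if i = j then 1 else 0 := by
    intro j hj
    have hjn : j < n := lt_of_lt_of_le (Finset.mem_range.mp hj) hq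
    rw [h.dual _ (hp.mem i hi) _ (hp.mem j hjn)]
    by_cases hij : i = j
    · simp [hij]
    · have : t i ≠ t j := fun h' =>
        hij (hp.inj (by simpa using hi) (by simpa using hjn) h')
      simp [hij, this]
  rw [Finset.sum_congr rfl this, Finset.sum_ite_eq]
  simp

end PathA

theorem APath.x_eq (h : IsCh R S κ) {t : ℕ → ι} {n : ℕ} {ε : ℕ → V} (hp : APath R S κ t n ε)
    {p q : ℕ} (hp' : p ≤ n) (hq : q ≤ n) {i : ℕ} (hi : i < n) :
    κ.x (t i) (ε q - ε p) = (if i < q then 1 else 0) - (if i < p then 1 else 0) := by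
  rw [PathA.eps_eq hp hq, PathA.eps_eq hp hp', add_sub_add_left_eq_sub, map_sub,
    PathA.x_sum_range h hp hq hi, PathA.x_sum_range h hp hp' hi]

theorem APath.sup (h : IsCh R S κ) {t : ℕ → ι} {n : ℕ} {ε : ℕ → V} (hp : APath R S κ t n ε)
    {p q : ℕ} (hp' : p ≤ n) (hq : q ≤ n) :
    Sup S κ ((Finset.range n).image t) (ε q - ε p) := by
  intro s hs hsn
  have key : ∀ r ≤ n, κ.x s (∑ j ∈ Finset.range r, κ.B (t j)) = 0 := by
    intro r hr
    rw [map_sum]
    refine Finset.sum_eq_zero fun j hj => ?_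
    have hjn : j < n := lt_of_lt_of_le (Finset.mem_range.mp hj) hr
    refine h.x_ne hs (hp.mem j hjn) fun hst => hsn ?_
    exact Finset.mem_image.mpr ⟨j, Finset.mem_range.mpr hjn, hst.symm⟩
  rw [PathA.eps_eq hp hq, PathA.eps_eq hp hp', add_sub_add_left_eq_sub, map_sub, key q hq,
    key p hp', sub_zero]

namespace PathA

theorem only_lt (h : IsCh R S κ) {t : ℕ → ι} {n : ℕ} {ε : ℕ → V} (hp : APath R S κ t n ε)
    {i j : ℕ} (hij : i < j) (hj : j < n) (ha : Adj R S κ (t i) (t j)) : j = i + 1 := by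
  by_contra hne
  have hi : i < n := by omega
  have hl : i + 1 < n := by omega
  obtain ⟨_, ρ, hρ, h1, h2, hs⟩ := ha
  have hsub : insert (t i) (insert (t j) (∅ : Finset ι)) ⊆ (Finset.range n).image t := by
    intro s hs'
    simp only [Finset.mem_insert, Finset.notMem_empty, or_false] at hs'
    rcases hs' with rfl | rfl
    · exact Finset.mem_image_of_mem _ (Finset.mem_range.mpr hi)
    · exact Finset.mem_image_of_mem _ (Finset.mem_range.mpr hj)
  obtain ⟨p, hpn, q, hqn, c, hc⟩ := hp.all ρ hρ (hs.mono hsub)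
  have h3 : κ.x (t (i + 1)) ρ = 0 := by
    apply hs _ (hp.mem _ hl)
    simp only [Finset.mem_insert, Finset.notMem_empty, or_false, not_or]
    constructor
    · intro h'
      have := hp.inj (by simpa using hl) (by simpa using hi) h'
      omega
    · intro h'
      have := hp.inj (by simpa using hl) (by simpa using hj) h'
      omega
  rw [hc, map_smul, hp.x_eq h hqn hpn hi] at h1
  rw [hc, map_smul, hp.x_eq h hqn hpn hj] at h2
  rw [hc, map_smul, hp.x_eq h hqn hpn hl] at h3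
  simp only [smul_eq_mul] at h1 h2 h3
  split_ifs at h1 h2 h3 <;> first | omega | linarith

end PathA

theorem APath.path (h : IsCh R S κ) {t : ℕ → ι} {n : ℕ} {ε : ℕ → V} (hp : APath R S κ t n ε) :
    Path R S κ t n where
  inj := fun i hi j hj hij => hp.inj (by simpa using hi) (by simpa using hj) hij
  mem := hp.mem
  adj := fun i hi => by
    have hne : t i ≠ t (i + 1) := fun h' => by
      have := hp.inj (by simp; omega) (by simpa using hi) h'
      omega
    refine h.adj_of_add (hp.mem i (by omega)) (hp.mem _ hi) hne one_pos ?_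
    rw [one_smul, hp.B_eq i (by omega), hp.B_eq (i + 1) hi]
    have := hp.root (i + 1 + 1) (by omega) i (by omega) (by omega)
    convert this using 1
    abel
  only := fun i hi j hj ha => by
    rcases lt_trichotomy i j with hij | hij | hij
    · exact Or.inl (PathA.only_lt h hp hij hj ha)
    · exact absurd (congrArg t hij) ha.1
    · exact Or.inr (PathA.only_lt h hp hij hi ha.symm)

theorem APath.of_loc {U : Finset ι} (hU : U ⊆ S) {t : ℕ → ι} {n : ℕ} {ε : ℕ → V}
    (hp : APath (loc R S κ U) U κ t n ε) : APath R S κ t n ε where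
  inj := hp.inj
  mem := fun i hi => hU (hp.mem i hi)
  B_eq := hp.B_eq
  root := fun p hp' q hq hpq => (hp.root p hp' q hq hpq).1
  all := fun ρ hρ hs => by
    have hsub : (Finset.range n).image t ⊆ U := by
      intro s hs'
      obtain ⟨i, hi, rfl⟩ := Finset.mem_image.mp hs'
      exact hp.mem i (Finset.mem_range.mp hi)
    exact hp.all ρ ⟨hρ, hs.mono hsub⟩ fun i hi hi' => hs i (hU hi) hi'

namespace PathA

variable {t : ℕ → ι} {n : ℕ} {lam : ℕ → ℝ}

theorem pmem (hp : Pat R S κ t n lam) {i : ℕ} (hi : i < n) : t i ∈ S :=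
  Finset.mem_coe.mp (hp.1.mapsTo (by simpa using hi))

theorem pinj (hp : Pat R S κ t n lam) {i j : ℕ} (hi : i < n) (hj : j < n) (hij : t i = t j) :
    i = j :=
  hp.1.injOn (by simpa using hi) (by simpa using hj) hij

theorem psurj (hp : Pat R S κ t n lam) {s : ι} (hs : s ∈ S) : ∃ i < n, t i = s := by
  obtain ⟨i, hi, h⟩ := hp.1.surjOn (Finset.mem_coe.mpr hs)
  exact ⟨i, by simpa using hi, h⟩

theorem pimage (hp : Pat R S κ t n lam) : (Finset.range n).image t = S := by
  ext s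
  constructor
  · intro hs
    obtain ⟨i, hi, rfl⟩ := Finset.mem_image.mp hs
    exact pmem hp (Finset.mem_range.mp hi)
  · intro hs
    obtain ⟨i, hi, rfl⟩ := psurj hp hs
    exact Finset.mem_image_of_mem _ (Finset.mem_range.mpr hi)

theorem pcard (hp : Pat R S κ t n lam) : S.card = n := by
  rw [← pimage hp, Finset.card_image_of_injOn hp.1.injOn, Finset.card_range]

theorem ponly (hp : Pat R S κ t n lam) {i j : ℕ} (hij : i < j) (hj : j < n)
    (ha : Adj R S κ (t i) (t j)) : j = i + 1 := by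
  by_contra hne
  have hi : i < n := by omega
  have hl : i + 1 < n := by omega
  obtain ⟨_, ρ, hρ, h1, h2, hs⟩ := ha
  obtain ⟨c, p, q, _, _, hx⟩ := hp.2.2 ρ hρ
  have h3 : κ.x (t (i + 1)) ρ = 0 := by
    apply hs _ (pmem hp hl)
    simp only [Finset.mem_insert, Finset.notMem_empty, or_false, not_or]
    constructor
    · intro h'
      have := pinj hp hl hi h'
      omega
    · intro h'
      have := pinj hp hl hj h'
      omega
  rw [hx i hi] at h1
  rw [hx j hj] at h2
  rw [hx _ hl] at h3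
  have l1 := hp.2.1 i hi
  have l3 := hp.2.1 _ hl
  split_ifs at h1 h2 h3 with a1 a2 a3
  · rcases mul_eq_zero.mp h3 with h4 | h4
    · rw [h4, zero_mul] at h1
      exact lt_irrefl _ h1
    · exact l3.ne' h4
  · omega
  all_goals exact lt_irrefl _ ‹(0 : ℝ) < 0›

theorem padj (hc : Conn R S κ S) (hp : Pat R S κ t n lam) {i : ℕ} (hi : i + 1 < n) :
    Adj R S κ (t i) (t (i + 1)) := by
  have hv : t (i + 1) ∉ (Finset.range (i + 1)).image t := by
    intro h'
    obtain ⟨j, hj, hjt⟩ := Finset.mem_image.mp h'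
    have hj' := Finset.mem_range.mp hj
    have := pinj hp (by omega) hi hjt
    omega
  obtain ⟨u, _, huA, v, hvS, hvA, ha⟩ := hc.exit (A := (Finset.range (i + 1)).image t)
    (pmem hp (show i < n by omega))
    (Finset.mem_image_of_mem _ (Finset.mem_range.mpr (Nat.lt_succ_self i))) (pmem hp hi) hv
  obtain ⟨a, haA, rfl⟩ := Finset.mem_image.mp huA
  have ha' := Finset.mem_range.mp haA
  obtain ⟨b, hb, rfl⟩ := psurj hp hvS
  have hb' : ¬ b < i + 1 := fun h' => hvA (Finset.mem_image_of_mem _ (Finset.mem_range.mpr h'))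
  have := ponly hp (show a < b by omega) hb ha
  obtain rfl : a = i := by omega
  subst this
  exact ha

theorem pconn (hc : Conn R S κ S) (hp : Pat R S κ t n lam) {p q : ℕ} (hq : q ≤ n) :
    Conn R S κ ((Finset.Ico p q).image t) :=
  conn_Ico fun _ _ hi => padj hc hp (by omega)

/-- The pattern can be normalized by rescaling the chamber. -/
theorem pnorm (hp : Pat R S κ t n lam) :
    ∃ μ : ι → ℝ, (∀ i, 0 < μ i) ∧ Pat R S (κ.scale μ) t n fun _ => 1 := by
  have hex : ∀ s : ι, ∃ m : ℝ, 0 < m ∧ ∀ i < n, t i = s → m = lam i := by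
    intro s
    by_cases hs : ∃ i < n, t i = s
    · obtain ⟨i, hi, rfl⟩ := hs
      refine ⟨lam i, hp.2.1 i hi, fun j hj hji => ?_⟩
      rw [pinj hp hj hi hji]
    · exact ⟨1, one_pos, fun i hi h' => absurd ⟨i, hi, h'⟩ hs⟩
  choose μ hμ hμ' using hex
  refine ⟨μ, hμ, hp.1, fun _ _ => one_pos, fun ρ hρ => ?_⟩
  obtain ⟨c, p, q, hpq, hq, hx⟩ := hp.2.2 ρ hρ
  refine ⟨c, p, q, hpq, hq, fun i hi => ?_⟩
  rw [Fam.scale_x, hx i hi, hμ' (t i) i hi rfl]
  have := (hp.2.1 i hi).ne'
  split_ifs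
  · field_simp
  · simp

theorem eq_smul (h : IsCh R S κ) (hp : Pat R S κ t n lam) {ρ : V} (hρ : ρ ∈ R) {c : ℝ}
    {p q : ℕ} (hpq : p ≤ q) (hq : q ≤ n)
    (hx : ∀ i < n, κ.x (t i) ρ = if p ≤ i ∧ i < q then c else 0) :
    ρ = c • (∑ i ∈ Finset.range q, κ.B (t i) - ∑ i ∈ Finset.range p, κ.B (t i)) := by
  rw [← Finset.sum_Ico_eq_sub _ hpq, Finset.smul_sum]
  have h1 : ρ = ∑ i ∈ Finset.range n, κ.x (t i) ρ • κ.B (t i) := by
    conv_lhs => rw [h.repr ρ hρ, ← pimage hp]
    rw [Finset.sum_image hp.1.injOn]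
  rw [h1]
  symm
  have hsub : Finset.Ico p q ⊆ Finset.range n := by
    intro i hi
    have := Finset.mem_Ico.mp hi
    exact Finset.mem_range.mpr (by omega)
  rw [← Finset.sum_subset hsub]
  · refine Finset.sum_congr rfl fun i hi => ?_
    have hi' := Finset.mem_Ico.mp hi
    rw [hx i (by omega), if_pos hi']
  · intro i hi hi'
    rw [hx i (Finset.mem_range.mp hi), if_neg (by rwa [Finset.mem_Ico] at hi'), zero_smul]

theorem apath_one (hR : Sys R) (h : IsCh R S κ) (hc : Conn R S κ S)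
    (hp : Pat R S κ t n fun _ => 1) :
    APath R S κ t n fun q => ∑ i ∈ Finset.range q, κ.B (t i) := by
  have hroot : ∀ p q, p < q → q ≤ n →
      ∑ i ∈ Finset.range q, κ.B (t i) - ∑ i ∈ Finset.range p, κ.B (t i) ∈ R := by
    intro p q hpq hq
    have hsub : (Finset.Ico p q).image t ⊆ S := by
      intro s hs
      obtain ⟨i, hi, rfl⟩ := Finset.mem_image.mp hs
      have := Finset.mem_Ico.mp hi
      exact pmem hp (by omega)
    obtain ⟨ρ, hρ, hs, hpos⟩ := full hR h hsub (pconn hc hp (p := p) hq)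
      ⟨t p, Finset.mem_image_of_mem _ (Finset.mem_Ico.mpr ⟨le_rfl, hpq⟩)⟩
    obtain ⟨c, p', q', _, _, hx⟩ := hp.2.2 ρ hρ
    have hin : ∀ i, p ≤ i → i < q → κ.x (t i) ρ = c := by
      intro i h1 h2
      have h3 := hpos (t i) (Finset.mem_image_of_mem _ (Finset.mem_Ico.mpr ⟨h1, h2⟩))
      rw [hx i (by omega)] at h3 ⊢
      split_ifs at h3 ⊢
      · exact mul_one c
      · exact absurd h3 (lt_irrefl _)
    have hc0 : 0 < c := by
      rw [← hin p le_rfl hpq]
      exact hpos (t p) (Finset.mem_image_of_mem _ (Finset.mem_Ico.mpr ⟨le_rfl, hpq⟩))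
    have heq := eq_smul h hp hρ (c := c) hpq.le hq fun i hi => by
      split_ifs with h'
      · exact hin i h'.1 h'.2
      · apply hs _ (pmem hp hi)
        intro h''
        obtain ⟨j, hj, hjt⟩ := Finset.mem_image.mp h''
        have hj' := Finset.mem_Ico.mp hj
        have := pinj hp (by omega) hi hjt
        omega
    have := hR.smul ρ hρ c⁻¹ (inv_ne_zero hc0.ne')
    rwa [heq, smul_smul, inv_mul_cancel₀ hc0.ne', one_smul] at this
  refine ⟨hp.1.injOn, fun i hi => pmem hp hi, fun i _ => ?_, fun p hp' q hq hpq => ?_,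
    fun ρ hρ _ => ?_⟩
  · rw [Finset.sum_range_succ, add_sub_cancel_left]
  · rcases lt_or_gt_of_ne hpq with h' | h'
    · have := hR.neg_mem (hroot p q h' hq)
      rwa [neg_sub] at this
    · exact hroot q p h' hp'
  · obtain ⟨c, p, q, hpq, hq, hx⟩ := hp.2.2 ρ hρ
    refine ⟨q + 1, hq, p, by omega, c, eq_smul h hp hρ (by omega) hq fun i hi => ?_⟩
    rw [hx i hi, mul_one]
    simp only [Nat.lt_succ_iff]

theorem apath (hR : Sys R) (h : IsCh R S κ) (hc : Conn R S κ S) (hp : Pat R S κ t n lam) :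
    ∃ (μ : ι → ℝ) (ε : ℕ → V), (∀ i, 0 < μ i) ∧ ε 0 = 0 ∧ APath R S (κ.scale μ) t n ε := by
  obtain ⟨μ, hμ, hp'⟩ := pnorm hp
  exact ⟨μ, _, hμ, by simp, apath_one hR (h.scale hR hμ) ((conn_scale hμ).mpr hc) hp'⟩

/-- The reversed pattern. -/
theorem prev (hp : Pat R S κ t n lam) :
    Pat R S κ (fun i => t (n - 1 - i)) n fun i => lam (n - 1 - i) := by
  refine ⟨⟨fun i hi => ?_, fun i hi j hj hij => ?_, fun s hs => ?_⟩, fun i hi => ?_,
    fun ρ hρ => ?_⟩
  · have hi' : i < n := by simpa using hi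
    exact Finset.mem_coe.mpr (pmem hp (by omega))
  · have hi' : i < n := by simpa using hi
    have hj' : j < n := by simpa using hj
    have := pinj hp (by omega) (by omega) hij
    omega
  · obtain ⟨i, hi, rfl⟩ := psurj hp (Finset.mem_coe.mp hs)
    refine ⟨n - 1 - i, by simp; omega, ?_⟩
    show t (n - 1 - (n - 1 - i)) = t i
    congr 1
    omega
  · exact hp.2.1 _ (by omega)
  · obtain ⟨c, p, q, hpq, hq, hx⟩ := hp.2.2 ρ hρ
    refine ⟨c, n - 1 - q, n - 1 - p, by omega, by omega, fun i hi => ?_⟩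
    show κ.x (t (n - 1 - i)) ρ = _
    rw [hx _ (by omega)]
    have : (p ≤ n - 1 - i ∧ n - 1 - i ≤ q) ↔ (n - 1 - q ≤ i ∧ i ≤ n - 1 - p) := by omega
    simp only [this]

theorem side {Y S1 S2 : Finset ι} (hY : Conn R S κ Y) (hsub : Y ⊆ S1 ∪ S2)
    (hsep : Sep R S κ S1 S2) : Y ⊆ S1 ∨ Y ⊆ S2 := by
  by_contra hne
  rw [not_or] at hne
  obtain ⟨u, hu, hu1⟩ := Finset.not_subset.mp hne.1
  obtain ⟨v, hv, hv2⟩ := Finset.not_subset.mp hne.2
  have hv1 : v ∈ S1 := (Finset.mem_union.mp (hsub hv)).resolve_right hv2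
  obtain ⟨i, _, hi, j, hj, hj1, ha⟩ := hY.exit hv hv1 hu hu1
  exact hsep i hi j ((Finset.mem_union.mp (hsub hj)).resolve_left hj1) ha

theorem eq_of_sub {L M S1 S2 : Finset ι} (hU : L ∪ M = S1 ∪ S2) (hd : Disjoint S1 S2)
    (h1 : L ⊆ S1) (h2 : M ⊆ S2) : S1 = L ∧ S2 = M := by
  constructor
  · refine Finset.Subset.antisymm (fun s hs => ?_) h1
    have : s ∈ L ∪ M := hU ▸ Finset.mem_union_left _ hs
    exact (Finset.mem_union.mp this).resolve_right fun h' =>
      Finset.disjoint_left.mp hd hs (h2 h')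
  · refine Finset.Subset.antisymm (fun s hs => ?_) h2
    have : s ∈ L ∪ M := hU ▸ Finset.mem_union_right _ hs
    exact (Finset.mem_union.mp this).resolve_left fun h' =>
      Finset.disjoint_left.mp hd (h1 h') hs

theorem split_or (hc : Conn R S κ S) (hp : Pat R S κ t n lam) {a : ι} {S1 S2 : Finset ι}
    (ha : a ∈ S) (hS : S.erase a = S1 ∪ S2) (hd : Disjoint S1 S2) (hsep : Sep R S κ S1 S2)
    (h1 : S1.Nonempty) (h2 : S2.Nonempty) :
    ∃ α < n, t α = a ∧
      ((S1 = (Finset.range α).image t ∧ S2 = (Finset.Ioo α n).image t) ∨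
        (S2 = (Finset.range α).image t ∧ S1 = (Finset.Ioo α n).image t)) := by
  obtain ⟨α, hα, rfl⟩ := psurj hp ha
  refine ⟨α, hα, rfl, ?_⟩
  have hU : (Finset.range α).image t ∪ (Finset.Ioo α n).image t = S1 ∪ S2 := by
    rw [← hS]
    ext s
    simp only [Finset.mem_union, Finset.mem_image, Finset.mem_range, Finset.mem_Ioo,
      Finset.mem_erase]
    constructor
    · rintro (⟨i, hi, rfl⟩ | ⟨i, hi, rfl⟩)
      · refine ⟨fun h' => ?_, pmem hp (by omega)⟩
        have := pinj hp (by omega) hα h'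
        omega
      · refine ⟨fun h' => ?_, pmem hp hi.2⟩
        have := pinj hp hi.2 hα h'
        omega
    · rintro ⟨hne, hs⟩
      obtain ⟨i, hi, rfl⟩ := psurj hp hs
      rcases lt_trichotomy i α with h' | h' | h'
      · exact Or.inl ⟨i, h', rfl⟩
      · exact absurd (congrArg t h') hne
      · exact Or.inr ⟨i, ⟨h', hi⟩, rfl⟩
  have cL : Conn R S κ ((Finset.range α).image t) := by
    rw [Finset.range_eq_Ico]
    exact pconn hc hp hα.le
  have cM : Conn R S κ ((Finset.Ioo α n).image t) := by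
    have : Finset.Ioo α n = Finset.Ico (α + 1) n := by
      ext i
      simp only [Finset.mem_Ioo, Finset.mem_Ico]
      omega
    rw [this]
    exact pconn hc hp le_rfl
  rcases side cL (hU ▸ Finset.subset_union_left) hsep with hL | hL <;>
    rcases side cM (hU ▸ Finset.subset_union_right) hsep with hM | hM
  · exfalso
    obtain ⟨s, hs⟩ := h2
    have : s ∈ (Finset.range α).image t ∪ (Finset.Ioo α n).image t :=
      hU ▸ Finset.mem_union_right _ hs
    exact Finset.disjoint_left.mp hd (Finset.union_subset hL hM this) hs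
  · exact Or.inl (eq_of_sub hU hd hL hM)
  · exact Or.inr (eq_of_sub (hU.trans (Finset.union_comm _ _)) hd.symm hL hM)
  · exfalso
    obtain ⟨s, hs⟩ := h1
    have : s ∈ (Finset.range α).image t ∪ (Finset.Ioo α n).image t :=
      hU ▸ Finset.mem_union_left _ hs
    exact Finset.disjoint_left.mp hd hs (Finset.union_subset hL hM this)

end PathA

theorem Pat.typeA (hR : Sys R) (h : IsCh R S κ) (hc : Conn R S κ S) {t : ℕ → ι} {n : ℕ}
    {lam : ℕ → ℝ} (hp : Pat R S κ t n lam) : TypeA R S.card := by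
  obtain ⟨μ, ε, hμ, h0, hA⟩ := PathA.apath hR h hc hp
  have h' := h.scale hR hμ
  rw [PathA.pcard hp]
  refine ⟨ε, fun p => (κ.scale μ).x (t (p - 1)) - if p < n then (κ.scale μ).x (t p) else 0, h0,
    fun p q p1 pn q1 qn => ?_, fun v => ⟨fun hv => ?_, ?_⟩⟩
  · have key : ∀ i < n, (κ.scale μ).x (t i) (ε q) = if i < q then 1 else 0 := by
      intro i hi
      have := hA.x_eq h' (Nat.zero_le n) qn hi
      rw [h0, sub_zero] at this
      simpa using this
    rw [LinearMap.sub_apply, key (p - 1) (by omega)]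
    by_cases hpn : p < n
    · rw [if_pos hpn, key p hpn]
      split_ifs <;> first | omega | simp
    · rw [if_neg hpn, LinearMap.zero_apply]
      split_ifs <;> first | omega | simp
  · obtain ⟨p, hp', q, hq, c, hc'⟩ := hA.all v hv (by rw [PathA.pimage hp]; exact sup_self v)
    have hv0 := hR.ne v hv
    refine ⟨p, hp', q, hq, fun hpq => hv0 ?_, c, fun hc0 => hv0 ?_, hc'⟩
    · rw [hc', hpq, sub_self, smul_zero]
    · rw [hc', hc0, zero_smul]
  · rintro ⟨p, hp', q, hq, hpq, c, hc0, rfl⟩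
    exact hR.smul _ (hA.root p hp' q hq hpq) c hc0

theorem Pat.split (hR : Sys R) (h : IsCh R S κ) (hc : Conn R S κ S) {t : ℕ → ι} {n : ℕ}
    {lam : ℕ → ℝ} (hp : Pat R S κ t n lam) {a : ι} {S1 S2 : Finset ι}
    (ha : a ∈ S) (hS : S.erase a = S1 ∪ S2) (hd : Disjoint S1 S2) (hsep : Sep R S κ S1 S2)
    (h1 : S1.Nonempty) (h2 : S2.Nonempty) :
    ∃ (μ : ι → ℝ) (t' : ℕ → ι) (α : ℕ) (ε : ℕ → V), (∀ i, 0 < μ i) ∧
      APath R S (κ.scale μ) t' n ε ∧ (Finset.range n).image t' = S ∧ α < n ∧ t' α = a ∧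
      S2 = (Finset.range α).image t' ∧ S1 = (Finset.Ioo α n).image t' := by
  obtain ⟨α, hα, hta, hor⟩ := PathA.split_or hc hp ha hS hd hsep h1 h2
  rcases hor with ⟨e1, e2⟩ | ⟨e2, e1⟩
  · have hp' := PathA.prev hp
    obtain ⟨μ, ε, hμ, _, hA⟩ := PathA.apath hR h hc hp'
    refine ⟨μ, fun i => t (n - 1 - i), n - 1 - α, ε, hμ, hA, PathA.pimage hp', by omega, ?_,
      ?_, ?_⟩
    · show t (n - 1 - (n - 1 - α)) = a
      rw [← hta]
      congr 1
      omega
    · rw [e2]
      ext s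
      simp only [Finset.mem_image, Finset.mem_range, Finset.mem_Ioo]
      constructor
      · rintro ⟨i, hi, rfl⟩
        exact ⟨n - 1 - i, by omega, by congr 1; omega⟩
      · rintro ⟨i, hi, rfl⟩
        exact ⟨n - 1 - i, by omega, rfl⟩
    · rw [e1]
      ext s
      simp only [Finset.mem_image, Finset.mem_range, Finset.mem_Ioo]
      constructor
      · rintro ⟨i, hi, rfl⟩
        exact ⟨n - 1 - i, by omega, by congr 1; omega⟩
      · rintro ⟨i, hi, rfl⟩
        exact ⟨n - 1 - i, by omega, rfl⟩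
  · obtain ⟨μ, ε, hμ, _, hA⟩ := PathA.apath hR h hc hp
    exact ⟨μ, t, α, ε, hμ, hA, PathA.pimage hp, hα, hta, e2, e1⟩

end Pool.Agent.SimpArr
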