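import Pool.Agent.P.MP_0b4c38_co.TriAux2

/-! Simplicial root systems: two nodes and three parts, two of which are arms. -/

set_option autoImplicit false

open Classical

namespace Pool.Agent.SimpArr

variable {V : Type} [AddCommGroup V] [Module ℝ V] {ι : Type}
variable {R : Set V} {S : Finset ι} {κ : Fam ι V}

namespace Tri

variable {a c u v : ι} {C D E Y : Finset ι} {π : V →ₗ[ℝ] ℝ × ℝ} {s : ℝ} {d e d' : ℝ × ℝ}
  {κ' : Fam ι V}

theorem sect_con (h : Tri R S κ a c C D E) (hs : Sec R (pr κ a c) d e) {J : Finset ι}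
    (hSJ : S \ J = {a, c}) :
    ∃ κQ : Fam ι V, IsCh (con R S κ J) (S \ J) κQ ∧ ∀ w,
      pr κ a c w = κQ.x a (proj S κ J w) • d + κQ.x c (proj S κ J w) • e := by
  have hne := hs.ne
  let fa : V →ₗ[ℝ] ℝ := (det d e)⁻¹ • (e.2 • κ.x a - e.1 • κ.x c)
  let fc : V →ₗ[ℝ] ℝ := (det d e)⁻¹ • (d.1 • κ.x c - d.2 • κ.x a)
  let b : ℝ × ℝ → V := fun w => w.1 • κ.B a + w.2 • κ.B c
  have hb : ∀ w, κ.x a (b w) = w.1 ∧ κ.x c (b w) = w.2 := fun w => by
    simp [b, h.ch.x_self h.ha, h.ch.x_self h.hc, h.ch.x_ne h.ha h.hc h.ac,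
      h.ch.x_ne h.hc h.ha h.ac.symm]
  have hfa : ∀ w, fa (b w) = (det d e)⁻¹ * det w e := fun w => by
    simp only [fa, LinearMap.smul_apply, LinearMap.sub_apply, smul_eq_mul, (hb w).1, (hb w).2]
    unfold det; ring
  have hfc : ∀ w, fc (b w) = (det d e)⁻¹ * det d w := fun w => by
    simp only [fc, LinearMap.smul_apply, LinearMap.sub_apply, smul_eq_mul, (hb w).1, (hb w).2]
    unfold det; ring
  have hproj : ∀ w, proj S κ J w = b (pr κ a c w) := fun w => by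
    rw [proj_apply, hSJ, Finset.sum_pair h.ac]; rfl
  have hcr : ∀ w : ℝ × ℝ, w = fa (b w) • d + fc (b w) • e := fun w => by
    rw [hfa, hfc]
    refine Prod.ext ?_ ?_ <;>
      simp only [Prod.fst_add, Prod.snd_add, Prod.smul_fst, Prod.smul_snd, smul_eq_mul] <;>
      field_simp <;> unfold det <;> ring
  have hdd : ∀ w, det w w = 0 := fun w => by unfold det; ring
  let κQ : Fam ι V := ⟨fun i => if i = a then b d else b e, fun i => if i = a then fa else fc⟩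
  have Ba : κQ.B a = b d := if_pos rfl
  have Bc : κQ.B c = b e := if_neg h.ac.symm
  have xa : κQ.x a = fa := if_pos rfl
  have xc : κQ.x c = fc := if_neg h.ac.symm
  refine ⟨κQ, ?_, fun w => by rw [xa, xc, hproj]; exact hcr _⟩
  rw [hSJ]
  refine ⟨?_, ?_, ?_, ?_⟩
  · simp only [Finset.mem_insert, Finset.mem_singleton, forall_eq_or_imp, forall_eq, Ba, Bc, xa,
      xc, hfa, hfc, hdd, if_true, if_neg h.ac, if_neg h.ac.symm, mul_zero, inv_mul_cancel₀ hne,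
      and_self]
  · simp only [Finset.mem_insert, Finset.mem_singleton, forall_eq_or_imp, forall_eq, Ba, Bc]
    obtain ⟨ρ, hρ, h1⟩ := hs.exd
    obtain ⟨σ, hσ, h2⟩ := hs.exe
    refine ⟨⟨fun h0 => ?_, ρ, hρ, by rw [hproj, h1]⟩, fun h0 => ?_, σ, hσ, by rw [hproj, h2]⟩
    · have := hfa d
      rw [h0, map_zero, inv_mul_cancel₀ hne] at this
      exact zero_ne_one this
    · have := hfc e
      rw [h0, map_zero, inv_mul_cancel₀ hne] at this
      exact zero_ne_one this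
  · rintro w ⟨-, ρ, -, rfl⟩
    rw [Finset.sum_pair h.ac, Ba, Bc, xa, xc, hproj]
    conv_lhs => rw [hcr (pr κ a c ρ)]
    simp only [b, Prod.fst_add, Prod.snd_add, Prod.smul_fst, Prod.smul_snd, smul_eq_mul]
    module
  · rintro w ⟨-, ρ, hρ, rfl⟩
    simp only [Finset.mem_insert, Finset.mem_singleton, forall_eq_or_imp, forall_eq, xa, xc,
      hproj]
    rw [← mul_nonneg_iff, hfa, hfc]
    have h1 := mul_nonneg (mul_self_nonneg (det d e)⁻¹) (hs.cone ρ hρ)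
    linarith

theorem sect (h : Tri R S κ a c C D E) (hs : Sec R (pr κ a c) d e) (s1 : s * s = 1) :
    ∃ κ', Lift R S κ (pr κ a c) a c s d e κ' ∧ Tri R S κ' a c C D E ∧
      ∀ i ∈ C, ∀ j ∈ C, Adj R S κ i j → Adj R S κ' i j := by
  have hJ : ∀ i, i ∈ C ∪ D ∪ E ↔ i ∈ S ∧ i ≠ a ∧ i ≠ c := fun i => by
    refine ⟨fun hi => ⟨?_, fun e => h.aJ (e ▸ hi), fun e => h.cJ (e ▸ hi)⟩, fun hi => ?_⟩
    · rw [h.cover]; exact Finset.mem_insert_of_mem (Finset.mem_insert_of_mem hi)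
    · have := hi.1
      rw [h.cover, Finset.mem_insert, Finset.mem_insert] at this
      exact (this.resolve_left hi.2.1).resolve_left hi.2.2
  have hJS : C ∪ D ∪ E ⊆ S := fun i hi => ((hJ i).mp hi).1
  have hSJ : S \ (C ∪ D ∪ E) = {a, c} := by
    ext i
    rw [Finset.mem_sdiff, hJ, Finset.mem_insert, Finset.mem_singleton]
    refine ⟨fun hi => by tauto, fun hi => ?_⟩
    rcases hi with rfl | rfl
    · exact ⟨h.ha, fun h' => h'.2.1 rfl⟩
    · exact ⟨h.hc, fun h' => h'.2.2 rfl⟩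
  obtain ⟨κ0, h0, h0l, h0B, h0a⟩ : ∃ κ0 : Fam ι V, IsCh R S κ0 ∧
      IsCh (loc R S κ (C ∪ D ∪ E)) (C ∪ D ∪ E) κ0 ∧ (∀ j, κ0.B j = s • κ.B j) ∧
      ∀ i j, Adj R S κ0 i j ↔ Adj R S κ i j := by
    rcases mul_self_eq_one_iff.mp s1 with rfl | rfl
    · exact ⟨κ, h.ch, h.ch.loc hJS, by simp, fun _ _ => Iff.rfl⟩
    · exact ⟨κ.neg, h.ch.neg h.sys, (h.ch.loc hJS).neg (h.sys.loc h.ch _), by simp,
        fun _ _ => adj_neg h.sys⟩
  obtain ⟨κQ, hQ, hQx⟩ := h.sect_con hs hSJ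
  obtain ⟨κ', h1, h2, h3, -⟩ := lift h.sys h.ch hJS h0l hQ
  have L : Lift R S κ (pr κ a c) a c s d e κ' :=
    ⟨h.ch, h1, h.ha, h.hc, h.ac, s1, hs.ne,
      fun j hj e1 e2 => by rw [h2 j ((hJ j).mpr ⟨hj, e1, e2⟩), h0B],
      fun ρ _ => by rw [h3 a h.ha h.aJ, h3 c h.hc h.cJ]; exact hQx ρ⟩
  have hadj : ∀ i ∈ C ∪ D ∪ E, ∀ j ∈ C ∪ D ∪ E, Adj R S κ' i j ↔ Adj R S κ i j :=
    fun i hi j hj => (adj_agree h0 h1 hJS h2 hi hj).trans (h0a i j)
  have hconn : ∀ Z ⊆ C ∪ D ∪ E, Conn R S κ Z → Conn R S κ' Z := fun Z hZ hc A hA e1 e2 => by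
    obtain ⟨i, hi, j, hj, e3, e4⟩ := hc A hA e1 e2
    exact ⟨i, hi, j, hj, e3, (hadj i (hZ (hA hi)) j (hZ hj)).mpr e4⟩
  have hsep : ∀ Z ⊆ C ∪ D ∪ E, ∀ Z' ⊆ C ∪ D ∪ E, Sep R S κ Z Z' → Sep R S κ' Z Z' :=
    fun Z hZ Z' hZ' hc i hi j hj e1 => hc i hi j hj ((hadj i (hZ hi) j (hZ' hj)).mp e1)
  have sC : C ⊆ C ∪ D ∪ E := Finset.subset_union_left.trans Finset.subset_union_left
  have sD : D ⊆ C ∪ D ∪ E := Finset.subset_union_right.trans Finset.subset_union_left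
  have sE : E ⊆ C ∪ D ∪ E := Finset.subset_union_right
  refine ⟨κ', L, ?_, fun i hi j hj e1 => (hadj i (sC hi) j (sC hj)).mpr e1⟩
  exact { h with
    ch := h1
    conn := conn_indep h.sys h.ch h1 h.conn
    sCD := hsep C sC D sD h.sCD
    sCE := hsep C sC E sE h.sCE
    sDE := hsep D sD E sE h.sDE
    connC := hconn C sC h.connC
    connD := hconn D sD h.connD
    connE := hconn E sE h.connE
    few := Lift.few h L }

theorem not_both (h : Tri R S κ a c C D E) (hs : Sec R (pr κ a c) d e)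
    (h1 : NV R κ (pr κ a c) C d) : ¬ NV R κ (pr κ a c) C e := fun h2 => by
  obtain ⟨κ', L, T, -⟩ := h.sect hs (one_mul 1)
  exact T.at_or.elim (L.not_at T h1) (L.symm.not_at T.swap h2)

theorem some_nv (h : Tri R S κ a c C D E) (hs : Sec R (pr κ a c) d e) :
    NV R κ (pr κ a c) C d ∨ NV R κ (pr κ a c) D d ∨ NV R κ (pr κ a c) E d := by
  obtain ⟨κ', L, T, -⟩ := h.sect hs (one_mul 1)
  have h1 := T.chain.1
  have h2 := L.nv T
  have h3 := L.nv T.p12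
  have h4 := L.nv T.p3
  tauto

theorem transfer (h : Tri R S κ a c C D E) {y : ℕ → ι} {l : ℕ} (hA : Arm R S κ a c C y l)
    (hs : Sec R (pr κ a c) d e) (s1 : s * s = 1) (hv : ¬ NV R κ (pr κ a c) C e) {i : ℕ}
    (hi : i < l) (h1 : Att R κ (pr κ a c) C s d (y i)) :
    ∃ j < l, Att R κ (pr κ a c) C s e (y j) ∧ l ≤ max i j - min i j + 3 := by
  obtain ⟨κ', L, T, hadj⟩ := h.sect hs s1
  have hm : ∀ k < l, y k ∈ C := fun k hk => by
    rw [hA.eq]; exact Finset.mem_image_of_mem _ (Finset.mem_range.mpr hk)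
  obtain ⟨z, hz, h2⟩ : At R S κ' c C := by_contra fun hn => hv (L.symm.nv T.swap hn)
  obtain ⟨j, hj, rfl⟩ := Finset.mem_image.mp (hA.eq ▸ hz)
  have hj := Finset.mem_range.mp hj
  exact ⟨j, hj, L.symm.att T.swap hz h2, T.far hA.eq hA.inj
    (fun k hk => hadj _ (hm k (by omega)) _ (hm _ hk) (hA.adj k hk)) hi hj
    (L.adj T (hm i hi) h1) h2⟩

theorem mid (h : Tri R S κ a c C D E) (hs : Sec R (pr κ a c) d e)
    (hs' : Sec R (pr κ a c) d' (-e)) (hdet : 0 < det d e * det d' e) (s1 : s * s = 1)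
    (hv : NV R κ (pr κ a c) C e) {y : ι} (hy : y ∈ C) (h1 : Att R κ (pr κ a c) C s d y) :
    Att R κ (pr κ a c) C s d' y := by
  obtain ⟨κ1, L1, T1, -⟩ := h.sect hs s1
  obtain ⟨κ2, L2, T2, -⟩ := h.sect hs' s1
  have hpos : ∀ ρ ∈ R, 0 < κ1.x a ρ ↔ 0 < κ2.x a ρ := fun ρ hρ => by
    have e1 := L1.det_eq hρ
    have e2 := L2.det_eq hρ
    have e3 : κ1.x a ρ * det d e = κ2.x a ρ * det d' e := by
      simp only [det, Prod.fst_neg, Prod.snd_neg] at e1 e2 ⊢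
      linarith
    have p1 : 0 < det d e * det d e := mul_self_pos.mpr L1.ne
    have e4 : κ1.x a ρ * (det d e * det d e) = κ2.x a ρ * (det d e * det d' e) := by
      linear_combination (det d e) * e3
    rw [← mul_pos_iff_of_pos_right p1, e4, mul_pos_iff_of_pos_right hdet]
  have hx : ∀ j ∈ C, ∀ ρ ∈ R, κ1.x j ρ = κ2.x j ρ := fun j hj => by
    have hjS := h.sub hj
    have hja := h.ne_a hj
    have hjc := h.ne_c hj
    have hB : ∀ i ∈ S, i ≠ a → i ≠ c → κ2.B i = κ1.B i := fun i hi e1 e2 => by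
      rw [L1.B i hi e1 e2, L2.B i hi e1 e2]
    have e0 : κ1.x j (κ2.B c) = 0 := by
      have m1 := h.sys.neg_mem (L2.ch.mem c h.hc)
      have d1 : pr κ a c (-κ2.B c) = e := by rw [map_neg, L2.symm.piB, neg_neg]
      have k1 := L1.symm.key m1 d1 hjS hjc hja
      rw [hv _ m1 _ (L1.ch.mem c h.hc) d1 L1.symm.piB j hj, map_neg] at k1
      linarith
    have e1 : ∀ ρ ∈ R, κ1.x j ρ = κ2.x a ρ * κ1.x j (κ2.B a) + κ2.x j ρ := fun ρ hρ => by
      rw [expand L2.ch h.ha h.hc h.ac hjS hja hjc (κ1.x j) (fun i hi p1 p2 p3 => by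
        rw [hB i hi p1 p2, L1.ch.x_ne hjS hi p3.symm]) hρ, e0, hB j hjS hja hjc,
        L1.ch.x_self hjS]
      ring
    have m1 := L1.ch.mem a h.ha
    have m2 := L2.ch.mem a h.ha
    have p1 : 0 < κ2.x a (κ1.B a) :=
      (hpos _ m1).mp (by rw [L1.ch.x_self h.ha]; exact one_pos)
    have p2 : 0 ≤ κ1.x j (κ2.B a) := L1.ch.nonneg m2 h.ha
      ((hpos _ m2).mpr (by rw [L2.ch.x_self h.ha]; exact one_pos)) j hjS
    have p3 := L2.ch.nonneg m1 h.ha p1 j hjS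
    have e2 := e1 _ m1
    rw [L1.ch.x_ne hjS h.ha hja] at e2
    have e3 : κ1.x j (κ2.B a) = 0 := by
      have : κ2.x a (κ1.B a) * κ1.x j (κ2.B a) = 0 :=
        le_antisymm (by linarith) (mul_nonneg p1.le p2)
      exact (mul_eq_zero.mp this).resolve_left p1.ne'
    intro ρ hρ
    rw [e1 ρ hρ, e3, mul_zero, zero_add]
  obtain ⟨-, ρ, hρ, q1, q2, q3⟩ := L1.adj T1 hy h1
  refine L2.att T2 hy (T2.adj_of_root hy hρ ((hpos ρ hρ).mp q1).ne' ?_ (fun j hj hjy => ?_)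
    (Or.inr fun hadj => L2.symm.not_at T2.swap (hv.neg h.sys) ⟨y, hy, hadj⟩))
  · rw [← hx y hy ρ hρ]; exact q2.ne'
  · rw [← hx j hj ρ hρ]
    exact q3 j (h.sub hj) (by simp [h.ne_a hj, hjy])

/-- The orientation of the arm is positive at the direction `d`. -/
def Pos (R : Set V) (κ : Fam ι V) (π : V →ₗ[ℝ] ℝ × ℝ) (Y : Finset ι) (y : ℕ → ι) (l : ℕ)
    (d : ℝ × ℝ) : Prop :=
  (∃ i < 3, Att R κ π Y 1 d (y i)) ∧ ∃ i < l, l ≤ i + 3 ∧ Att R κ π Y (-1) d (y i)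

variable {y : ℕ → ι} {l : ℕ}

theorem tr (h : Tri R S κ a c C D E) (hA : Arm R S κ a c C y l) (hs : Sec R (pr κ a c) d e)
    (hv : ¬ NV R κ (pr κ a c) C e) (hp : Pos R κ (pr κ a c) C y l d) :
    Pos R κ (pr κ a c) C y l (-e) := by
  obtain ⟨⟨i, hi, h1⟩, k, hk, hk', h2⟩ := hp
  have hl := hA.len
  obtain ⟨j, hj, h3, h4⟩ := h.transfer hA hs (one_mul 1) hv (by omega) h1
  obtain ⟨m, hm, h5, h6⟩ := h.transfer hA hs (by norm_num) hv hk h2
  exact ⟨⟨m, by omega, by simpa using h5.neg h.sys⟩, j, hj, by omega, h3.neg h.sys⟩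

theorem mid' (h : Tri R S κ a c C D E) (hA : Arm R S κ a c C y l) (hs : Sec R (pr κ a c) d e)
    (hs' : Sec R (pr κ a c) d' (-e)) (hdet : 0 < det d e * det d' e)
    (hv : NV R κ (pr κ a c) C e) (hp : Pos R κ (pr κ a c) C y l d) :
    Pos R κ (pr κ a c) C y l d' := by
  obtain ⟨⟨i, hi, h1⟩, k, hk, hk', h2⟩ := hp
  have hl := hA.len
  have hm : ∀ k < l, y k ∈ C := fun k hk => by
    rw [hA.eq]; exact Finset.mem_image_of_mem _ (Finset.mem_range.mpr hk)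
  exact ⟨⟨i, hi, h.mid hs hs' hdet (one_mul 1) hv (hm i (by omega)) h1⟩, k, hk, hk',
    h.mid hs hs' hdet (by norm_num) hv (hm k hk) h2⟩

theorem base (hR : Sys R) (hA : Arm R S κ a c C y l) :
    Pos R κ (pr κ a c) C y l (1, 0) ∧ ¬ Pos R κ (pr κ a c) C y l (-(1, 0)) ∧
      ¬ NV R κ (pr κ a c) C (1, 0) := by
  have hl := hA.len
  have hm : ∀ j ∈ C, ∃ i < l, y i = j := fun j hj => by
    obtain ⟨i, hi, e⟩ := Finset.mem_image.mp (hA.eq ▸ hj)
    exact ⟨i, Finset.mem_range.mp hi, e⟩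
  have hm' : ∀ k < l, y k ∈ C := fun k hk => by
    rw [hA.eq]; exact Finset.mem_image_of_mem _ (Finset.mem_range.mpr hk)
  have hpre : ∀ ρ ∈ R, pr κ a c ρ = (1, 0) →
      ∃ m ≤ l, ∀ i < l, κ.x (y i) ρ = if i < m then 1 else 0 := fun ρ hρ h1 =>
    hA.pre ρ hρ (congrArg Prod.fst h1) (congrArg Prod.snd h1)
  obtain ⟨ρ0, m0, a0, c0, x0⟩ := hA.ex 0 (by omega)
  obtain ⟨ρ1, m1, a1, c1, x1⟩ := hA.ex 1 (by omega)
  obtain ⟨ρ2, m2, a2, c2, x2⟩ := hA.ex l le_rfl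
  obtain ⟨ρ3, m3, a3, c3, x3⟩ := hA.ex (l - 1) (by omega)
  have h1 : Att R κ (pr κ a c) C 1 (1, 0) (y 0) := by
    refine ⟨ρ0, m0, ρ1, m1, Prod.ext a0 c0, Prod.ext a1 c1, fun σ hσ e j hj => ?_, ?_,
      fun j hj hne => ?_⟩
    · obtain ⟨i, hi, rfl⟩ := hm j hj
      obtain ⟨m, -, hx⟩ := hpre σ hσ e
      rw [x0 i hi, hx i hi]
      split_ifs <;> first | omega | norm_num
    · rw [x0 0 (by omega), x1 0 (by omega)]; norm_num
    · obtain ⟨i, hi, rfl⟩ := hm j hj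
      have : i ≠ 0 := fun e => hne (by rw [e])
      rw [x0 i hi, x1 i hi, if_neg (by omega), if_neg (by omega)]
  have h2 : Att R κ (pr κ a c) C (-1) (1, 0) (y (l - 1)) := by
    refine ⟨ρ2, m2, ρ3, m3, Prod.ext a2 c2, Prod.ext a3 c3, fun σ hσ e j hj => ?_, ?_,
      fun j hj hne => ?_⟩
    · obtain ⟨i, hi, rfl⟩ := hm j hj
      obtain ⟨m, -, hx⟩ := hpre σ hσ e
      rw [x2 i hi, hx i hi, if_pos hi]
      split_ifs <;> norm_num
    · rw [x2 _ (by omega), x3 _ (by omega), if_neg (lt_irrefl _), if_pos (by omega)]; norm_num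
    · obtain ⟨i, hi, rfl⟩ := hm j hj
      have : i ≠ l - 1 := fun e => hne (by rw [e])
      rw [x2 i hi, x3 i hi, if_pos (by omega), if_pos hi]
  refine ⟨⟨⟨0, by omega, h1⟩, l - 1, by omega, by omega, h2⟩, ?_, h1.not_nv (hm' 0 (by omega))⟩
  rintro ⟨-, i, hi, hi', h3⟩
  have h4 := h3.neg hR
  rw [neg_neg, neg_neg] at h4
  obtain ⟨ρ, hρ, ρ', hρ', e1, e2, e3, e4, e5⟩ := h4
  obtain ⟨m, -, hx⟩ := hpre ρ hρ e1
  obtain ⟨m', -, hx'⟩ := hpre ρ' hρ' e2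
  have f1 := e3 ρ0 m0 (Prod.ext a0 c0) (y 0) (hm' 0 (by omega))
  have f2 := e5 (y 0) (hm' 0 (by omega)) fun e => by
    have := hA.inj 0 (by omega) i hi e
    omega
  rw [hx 0 (by omega), x0 0 (by omega), if_neg (lt_irrefl 0)] at f1
  rw [hx 0 (by omega), hx' 0 (by omega)] at f2
  rw [hx i hi, hx' i hi] at e4
  have g1 : ¬ 0 < m := fun g => by rw [if_pos g] at f1; norm_num at f1
  have g2 : ¬ 0 < m' := fun g => by rw [if_pos g, if_neg g1] at f2; norm_num at f2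
  exact e4 (by rw [if_neg (by omega), if_neg (by omega)])

theorem lift_self (h : Tri R S κ a c C D E) : Lift R S κ (pr κ a c) a c 1 (1, 0) (0, 1) κ :=
  ⟨h.ch, h.ch, h.ha, h.hc, h.ac, one_mul 1, by simp [det], fun _ _ _ _ => (one_smul _ _).symm,
    fun ρ _ => by simp [pr_apply]⟩

theorem sec0 (h : Tri R S κ a c C D E) : Sec R (pr κ a c) (1, 0) (0, 1) := by
  refine ⟨by simp [det], ⟨_, h.ch.mem a h.ha, h.lift_self.piB⟩,
    ⟨_, h.ch.mem c h.hc, h.lift_self.symm.piB⟩, fun ρ hρ => ?_⟩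
  simp only [det, pr_apply, mul_one, mul_zero, sub_zero, one_mul, zero_mul]
  rcases h.ch.sign ρ hρ with h1 | h1
  · exact mul_nonneg (h1 a h.ha) (h1 c h.hc)
  · exact mul_nonneg_of_nonpos_of_nonpos (h1 a h.ha) (h1 c h.hc)

theorem dir_of (h : Tri R S κ a c C D E) {t : ℝ} (ht : t = 0 ∨ Slope R S κ S a c t) :
    ∃ ρ ∈ R, pr κ a c ρ = (t, 1) := by
  rcases ht with rfl | ⟨-, ρ, hρ, -, h1, h2⟩
  · exact h.sec0.exe
  · exact ⟨ρ, hρ, Prod.ext h2 h1⟩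

theorem dir_neg (h : Tri R S κ a c C D E) {t : ℝ} (ht : t = 0 ∨ Slope R S κ S a c t) :
    ∃ ρ ∈ R, pr κ a c ρ = -(t, 1) := by
  obtain ⟨ρ, hρ, h1⟩ := h.dir_of ht
  exact ⟨-ρ, h.sys.neg_mem hρ, by rw [map_neg, h1]⟩

theorem sec1 (h : Tri R S κ a c C D E) {t t' : ℝ} (ht : t = 0 ∨ Slope R S κ S a c t)
    (ht' : Slope R S κ S a c t') (htt : t < t')
    (hall : ∀ r, Slope R S κ S a c r → r ≤ t ∨ t' ≤ r) : Sec R (pr κ a c) (t', 1) (-(t, 1)) := by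
  have ht0 : 0 ≤ t := ht.elim (fun e => e.ge) fun e => e.1.le
  refine ⟨?_, h.dir_of (Or.inr ht'), h.dir_neg ht, fun ρ hρ => ?_⟩
  · simp only [det, Prod.fst_neg, Prod.snd_neg]; linarith
  simp only [det, pr_apply, Prod.fst_neg, Prod.snd_neg]
  by_cases h0 : κ.x c ρ = 0
  · rw [h0]; nlinarith [mul_self_nonneg (κ.x a ρ)]
  · have h1 : κ.x a ρ / κ.x c ρ ≤ t ∨ t' ≤ κ.x a ρ / κ.x c ρ :=
      (h.ratio hρ h0).elim (fun e => Or.inl (e ▸ ht0)) (hall _)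
    have h2 : κ.x a ρ = κ.x a ρ / κ.x c ρ * κ.x c ρ := (div_mul_cancel₀ _ h0).symm
    generalize κ.x a ρ / κ.x c ρ = r at h1 h2
    have h3 : 0 ≤ (r - t) * (r - t') := by
      rcases h1 with h1 | h1
      · exact mul_nonneg_of_nonpos_of_nonpos (by linarith) (by linarith)
      · exact mul_nonneg (by linarith) (by linarith)
    rw [h2]
    nlinarith [mul_nonneg (mul_self_nonneg (κ.x c ρ)) h3]

theorem sec2 (h : Tri R S κ a c C D E) {t : ℝ} (ht : Slope R S κ S a c t)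
    (hall : ∀ r, Slope R S κ S a c r → r ≤ t) : Sec R (pr κ a c) (1, 0) (-(t, 1)) := by
  refine ⟨by simp [det], h.sec0.exd, h.dir_neg (Or.inr ht), fun ρ hρ => ?_⟩
  simp only [det, pr_apply, Prod.fst_neg, Prod.snd_neg]
  by_cases h0 : κ.x c ρ = 0
  · rw [h0]; simp
  · have h1 : κ.x a ρ / κ.x c ρ ≤ t := (h.ratio hρ h0).elim (fun e => e ▸ ht.1.le) (hall _)
    have h2 : κ.x a ρ = κ.x a ρ / κ.x c ρ * κ.x c ρ := (div_mul_cancel₀ _ h0).symm
    generalize κ.x a ρ / κ.x c ρ = r at h1 h2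
    rw [h2]
    nlinarith [mul_nonneg (mul_self_nonneg (κ.x c ρ)) (sub_nonneg.mpr h1)]

theorem slopes {P : ℝ → Prop} (h3 : ∀ T : Finset ℝ, (∀ s ∈ T, P s) → T.card ≤ 3)
    (h1 : ¬ ∀ T : Finset ℝ, (∀ s ∈ T, P s) → T.card ≤ 1) :
    (∃ s1 s2, s1 < s2 ∧ P s1 ∧ P s2 ∧ ∀ r, P r → r = s1 ∨ r = s2) ∨
      ∃ s1 s2 s3, s1 < s2 ∧ s2 < s3 ∧ P s1 ∧ P s2 ∧ P s3 ∧ ∀ r, P r → r = s1 ∨ r = s2 ∨ r = s3 := by
  have h4 : ∀ s1 s2 s3, s1 < s2 → s2 < s3 → P s1 → P s2 → P s3 →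
      ∃ s1 s2 s3, s1 < s2 ∧ s2 < s3 ∧ P s1 ∧ P s2 ∧ P s3 ∧
        ∀ r, P r → r = s1 ∨ r = s2 ∨ r = s3 := fun s1 s2 s3 l1 l2 p1 p2 p3 => by
    refine ⟨s1, s2, s3, l1, l2, p1, p2, p3, fun r hr => by_contra fun hn => ?_⟩
    have := h3 {r, s1, s2, s3} (by simp [hr, p1, p2, p3])
    rw [Finset.card_insert_of_notMem (by simpa using hn),
      Finset.card_insert_of_notMem (by simp [l1.ne, (l1.trans l2).ne]),
      Finset.card_pair l2.ne] at this
    omega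
  obtain ⟨s1, s2, l1, p1, p2⟩ : ∃ s1 s2, s1 < s2 ∧ P s1 ∧ P s2 := by
    push Not at h1
    obtain ⟨T, hT, hc⟩ := h1
    obtain ⟨x, hx, z, hz, hne⟩ := Finset.one_lt_card.mp hc
    rcases lt_or_gt_of_ne hne with e | e
    · exact ⟨x, z, e, hT x hx, hT z hz⟩
    · exact ⟨z, x, e, hT z hz, hT x hx⟩
  by_cases hall : ∀ r, P r → r = s1 ∨ r = s2
  · exact Or.inl ⟨s1, s2, l1, p1, p2, hall⟩
  · push Not at hall
    obtain ⟨r, hr, n1, n2⟩ := hall
    right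
    rcases lt_or_gt_of_ne n1 with e1 | e1
    · exact h4 r s1 s2 e1 l1 hr p1 p2
    · rcases lt_or_gt_of_ne n2 with e2 | e2
      · exact h4 s1 r s2 e1 e2 p1 hr p2
      · exact h4 s1 s2 r l1 e2 p1 p2 hr

/-- Passing the last slope. -/
theorem mid_last (h : Tri R S κ a c C D E) (hA : Arm R S κ a c C y l) {t t' : ℝ} (htt : t < t')
    (S1 : Sec R (pr κ a c) (t', 1) (-(t, 1))) (S2 : Sec R (pr κ a c) (1, 0) (-(t', 1)))
    (hv : NV R κ (pr κ a c) C (t', 1)) : Pos R κ (pr κ a c) C y l (-(t, 1)) :=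
  h.mid' hA S2 (by rw [neg_neg]; exact S1.symm) (by simp [det, htt]) (hv.neg h.sys)
    (base h.sys hA).1

/-- Passing the slope zero. -/
theorem mid_first (h : Tri R S κ a c C D E) (hA : Arm R S κ a c C y l) {t : ℝ} (ht : 0 < t)
    (S1 : Sec R (pr κ a c) (t, 1) (-(0, 1))) (hv : NV R κ (pr κ a c) C (0, 1)) :
    ¬ Pos R κ (pr κ a c) C y l (-(t, 1)) := fun hp =>
  (base h.sys hA).2.1 (h.mid' hA (S1.neg h.sys) (h.sec0.neg' h.sys) (by simp [det, ht]) hv hp)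

end Tri

open Tri in
theorem tri {a c : ι} {C D E : Finset ι} (h : Tri R S κ a c C D E) {yC yD : ℕ → ι} {lC lD : ℕ}
    (hC : Arm R S κ a c C yC lC) (hD : Arm R S κ a c D yD lD)
    (hcC : ∀ j ∈ C, ¬ Adj R S κ c j) (haE : ∀ j ∈ E, ¬ Adj R S κ a j) :
    Few R S κ S a c 1 ∨ ∃ φ G : ℝ, φ < G ∧ Slope R S κ S a c φ ∧
      (∀ s, Slope R S κ S a c s → s = φ ∨ s = G) ∧
      ∀ ρ ∈ R, ∀ ρ' ∈ R, κ.x c ρ = 1 → κ.x a ρ = φ → κ.x c ρ' = 1 → κ.x a ρ' = φ →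
        ∀ j ∈ E, κ.x j ρ = κ.x j ρ' := by
  have hR := h.sys
  have nC0 : NV R κ (pr κ a c) C (0, 1) :=
    h.lift_self.symm.nv h.swap fun ⟨j, hj, e⟩ => hcC j hj e
  have nE : NV R κ (pr κ a c) E (1, 0) := h.lift_self.nv h.p3 fun ⟨j, hj, e⟩ => haE j hj e
  refine or_iff_not_imp_left.mpr fun h1 => ?_
  rcases slopes h.few h1 with ⟨s1, s2, l1, p1, p2, hall⟩ | ⟨s1, s2, s3, l1, l2, p1, p2, p3, hall⟩
  · have S10 := h.sec1 (Or.inl rfl) p1 p1.1 fun r hr => Or.inr (by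
      rcases hall r hr with e | e <;> linarith)
    have S21 := h.sec1 (Or.inr p1) p2 l1 fun r hr => (hall r hr).imp Eq.le Eq.ge
    have S32 := h.sec2 p2 fun r hr => by rcases hall r hr with e | e <;> linarith
    have vC1 := h.not_both S10.symm (nC0.neg hR)
    have vC2 : ¬ NV R κ (pr κ a c) C (s2, 1) := fun hn =>
      h.mid_first hC p1.1 S10 nC0 (h.mid_last hC l1 S21 S32 hn)
    have vE2 : ¬ NV R κ (pr κ a c) E (s2, 1) := fun hn => h.p3.not_both S32 nE (hn.neg hR)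
    have nD2 := ((h.some_nv S21).resolve_left vC2).resolve_right vE2
    have vD1 : ¬ NV R κ (pr κ a c) D (s1, 1) := fun hn => h.p12.not_both S21 nD2 (hn.neg hR)
    have nE1 := ((h.some_nv S10).resolve_left vC1).resolve_left vD1
    exact ⟨s1, s2, l1, p1, hall, fun ρ hρ ρ' hρ' e1 e2 e3 e4 =>
      nE1 ρ hρ ρ' hρ' (Prod.ext e2 e1) (Prod.ext e4 e3)⟩
  · exfalso
    have S10 := h.sec1 (Or.inl rfl) p1 p1.1 fun r hr => Or.inr (by
      rcases hall r hr with e | e | e <;> linarith)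
    have S21 := h.sec1 (Or.inr p1) p2 l1 fun r hr => by
      rcases hall r hr with e | e | e
      exacts [Or.inl e.le, Or.inr e.ge, Or.inr (by linarith)]
    have S32 := h.sec1 (Or.inr p2) p3 l2 fun r hr => by
      rcases hall r hr with e | e | e
      exacts [Or.inl (by linarith), Or.inl e.le, Or.inr e.ge]
    have S43 := h.sec2 p3 fun r hr => by rcases hall r hr with e | e | e <;> linarith
    have vC1 := h.not_both S10.symm (nC0.neg hR)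
    have vE3 : ¬ NV R κ (pr κ a c) E (s3, 1) := fun hn => h.p3.not_both S43 nE (hn.neg hR)
    have vC3 : ¬ NV R κ (pr κ a c) C (s3, 1) := fun hn =>
      h.mid_first hC p1.1 S10 nC0 (h.tr hC (S21.neg hR) vC1 (h.mid_last hC l2 S32 S43 hn))
    have nD3 := ((h.some_nv S32).resolve_left vC3).resolve_right vE3
    have vC2 : ¬ NV R κ (pr κ a c) C (s2, 1) := fun hn => by
      have q1 := h.tr hC S43 (fun hn' => vC3 (hn'.of_neg hR)) (base hR hC).1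
      rw [neg_neg] at q1
      refine h.mid_first hC p1.1 S10 nC0 (h.mid' hC S32 (by rw [neg_neg]; exact S21.symm) ?_
        (hn.neg hR) q1)
      simp only [det, Prod.fst_neg, Prod.snd_neg]
      nlinarith
    have vD2 : ¬ NV R κ (pr κ a c) D (s2, 1) := fun hn => h.p12.not_both S32 nD3 (hn.neg hR)
    have nE2 := ((h.some_nv S21).resolve_left vC2).resolve_left vD2
    have vE1 : ¬ NV R κ (pr κ a c) E (s1, 1) := fun hn => h.p3.not_both S21 nE2 (hn.neg hR)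
    have nD1 := ((h.some_nv S10).resolve_left vC1).resolve_right vE1
    have q1 := h.p12.mid_last hD l2 S32 S43 nD3
    have q2 : Pos R κ (pr κ a c) D yD lD (0, 1) := by
      refine h.p12.mid' hD (S21.neg hR) (S10.neg hR).symm ?_ nD1 q1
      simp only [det, Prod.fst_neg, Prod.snd_neg]
      nlinarith [p1.1]
    exact (base hR hD).2.1 (h.p12.tr hD h.sec0.symm (base hR hD).2.2 q2)

end Pool.Agent.SimpArr
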