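import Pool.Agent.P.MP_0b4c38_co.GPLem
import Pool.Agent.P.MP_0b4c38_co.LemAB
import Pool.Agent.P.MP_0b4c38_co.Tri
import Pool.Agent.P.MP_0b4c38_co.BType
import Pool.Agent.P.MP_0b4c38_co.PathA

/-! Simplicial root systems: analysis of the good configuration, first part. -/

set_option autoImplicit false

open Classical

namespace Pool.Agent.SimpArr

variable {V : Type} [AddCommGroup V] [Module ℝ V] {ι : Type}
variable {R : Set V} {S : Finset ι} {κ : Fam ι V}

theorem slope_loc {U : Finset ι} {a c : ι} {s : ℝ} :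
    Slope (loc R S κ U) U κ U a c s ↔ Slope R S κ U a c s :=
  ⟨fun ⟨h1, ρ, h2, _, h4⟩ => ⟨h1, ρ, h2.1, h2.2, h4⟩,
    fun ⟨h1, ρ, h2, h3, h4⟩ => ⟨h1, ρ, ⟨h2, h3⟩, sup_self _, h4⟩⟩

theorem few_loc {U : Finset ι} {a c : ι} {k : ℕ} :
    Few (loc R S κ U) U κ U a c k ↔ Few R S κ U a c k := by
  simp only [Few, slope_loc]

theorem few_one_of {U : Finset ι} {a c : ι} {l : ℝ} (h : ∀ s, Slope R S κ U a c s → s = l) :
    Few R S κ U a c 1 := fun _ hT =>
  Finset.card_le_one.mpr fun s hs s' hs' => (h s (hT s hs)).trans (h s' (hT s' hs')).symm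

namespace G4

variable {t : ℕ → ι} {n : ℕ} {ε : ℕ → V} {α β : ℕ} {c : ι} {E : Finset ι}

theorem pth (h : G4 R S κ t n ε α β c E) : Path R S κ t n := h.path.path h.ch

theorem mem (h : G4 R S κ t n ε α β c E) {v : ι} :
    v ∈ S ↔ v = c ∨ (∃ i < n, t i = v) ∨ v ∈ E := by
  rw [h.cover]; simp

theorem hc (h : G4 R S κ t n ε α β c E) : c ∈ S := h.mem.mpr (Or.inl rfl)

theorem ES (h : G4 R S κ t n ε α β c E) : E ⊆ S := fun _ hv => h.mem.mpr (Or.inr (Or.inr hv))

theorem sepE (h : G4 R S κ t n ε α β c E) {i : ℕ} (hi : i < n) {j : ι} (hj : j ∈ E) :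
    ¬ Adj R S κ (t i) j := h.sep _ (Finset.mem_image_of_mem _ (Finset.mem_range.mpr hi)) j hj

theorem mI (h : G4 R S κ t n ε α β c E) {p q i : ℕ} (hq : q ≤ n) (hi : i < n) :
    t i ∈ (Finset.Ico p q).image t ↔ p ≤ i ∧ i < q := mem_image_Ico h.pth.inj hq hi

theorem cI (h : G4 R S κ t n ε α β c E) {p q : ℕ} (hq : q ≤ n) : c ∉ (Finset.Ico p q).image t := by
  intro hm
  obtain ⟨i, hi, e⟩ := Finset.mem_image.mp hm
  exact h.c_path i (by have := Finset.mem_Ico.mp hi; omega) e

theorem dI (h : G4 R S κ t n ε α β c E) {p q : ℕ} (hq : q ≤ n) :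
    Disjoint ((Finset.Ico p q).image t) E := Finset.disjoint_left.mpr fun v hm => by
  obtain ⟨i, hi, rfl⟩ := Finset.mem_image.mp hm
  exact h.path_E i (by have := Finset.mem_Ico.mp hi; omega)

theorem sI (h : G4 R S κ t n ε α β c E) {p q : ℕ} (hq : q ≤ n) :
    (Finset.Ico p q).image t ⊆ S := fun v hm => by
  obtain ⟨i, hi, rfl⟩ := Finset.mem_image.mp hm
  exact h.pth.mem i (by have := Finset.mem_Ico.mp hi; omega)

theorem connI (h : G4 R S κ t n ε α β c E) {p q : ℕ} (hq : q ≤ n) :
    Conn R S κ ((Finset.Ico p q).image t) := conn_Ico fun i _ _ => h.pth.adj i (by omega)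

theorem sepI (h : G4 R S κ t n ε α β c E) {p q p' q' : ℕ} (hq : q < p') (hq' : q' ≤ n) :
    Sep R S κ ((Finset.Ico p q).image t) ((Finset.Ico p' q').image t) := by
  intro v hv w hw hadj
  obtain ⟨i, hi, rfl⟩ := Finset.mem_image.mp hv
  obtain ⟨j, hj, rfl⟩ := Finset.mem_image.mp hw
  have := Finset.mem_Ico.mp hi
  have := Finset.mem_Ico.mp hj
  have := h.pth.only i (by omega) j (by omega) hadj
  omega

theorem sepIE (h : G4 R S κ t n ε α β c E) {p q : ℕ} (hq : q ≤ n) :
    Sep R S κ ((Finset.Ico p q).image t) E := by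
  intro v hv w hw
  obtain ⟨i, hi, rfl⟩ := Finset.mem_image.mp hv
  exact h.sepE (by have := Finset.mem_Ico.mp hi; omega) hw

theorem touchE (h : G4 R S κ t n ε α β c E) : Touch R S κ c E := by
  obtain ⟨u, hu⟩ : E.Nonempty := Finset.card_pos.mp (by have := h.cardE; omega)
  obtain ⟨i, -, hi, j, hj, hjE, hadj⟩ := h.conn.exit (h.ES hu) hu h.hc h.c_E
  rcases h.mem.mp hj with rfl | ⟨k, hk, rfl⟩ | e
  · exact ⟨i, hi, hadj.symm⟩
  · exact absurd hadj.symm (h.sepE hk hi)
  · exact absurd e hjE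

theorem touchW (h : G4 R S κ t n ε α β c E) : ∃ i ≤ α, Adj R S κ c (t i) := by
  have h0 : 0 < n := by have := h.hn; omega
  obtain ⟨i, -, hi, j, hj, hjW, hadj⟩ := h.conn.exit (A := (Finset.Ico 0 n).image t)
    (h.pth.mem 0 h0) ((h.mI le_rfl h0).mpr (by omega)) h.hc (h.cI le_rfl)
  obtain ⟨k, hk, rfl⟩ := Finset.mem_image.mp hi
  have hk' := (Finset.mem_Ico.mp hk).2
  rcases h.mem.mp hj with rfl | ⟨k', hk', rfl⟩ | e
  · refine ⟨k, ?_, hadj.symm⟩
    by_contra hn
    exact h.far k (by omega) hk' hadj.symm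
  · exact absurd ((h.mI le_rfl hk').mpr (by omega)) hjW
  · exact absurd hadj (h.sepE hk' e)

theorem x_eps (h : G4 R S κ t n ε α β c E) {p q : ℕ} (hp : p ≤ n) (hq : q ≤ n) :
    κ.x c (ε q - ε p) = 0 ∧ (∀ j ∈ E, κ.x j (ε q - ε p) = 0) ∧
      ∀ i < n, κ.x (t i) (ε q - ε p) = (if i < q then 1 else 0) - (if i < p then 1 else 0) := by
  have hs := h.path.sup h.ch hp hq
  refine ⟨hs c h.hc ?_, fun j hj => hs j (h.ES hj) ?_, fun i hi => h.path.x_eq h.ch hp hq hi⟩
  · rw [Finset.range_eq_Ico]; exact h.cI le_rfl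
  · rw [Finset.range_eq_Ico]; exact Finset.disjoint_right.mp (h.dI le_rfl) hj

/-- Roots with `x c = 0`. -/
theorem root0 (h : G4 R S κ t n ε α β c E) {ρ : V} (hρ : ρ ∈ R) (h0 : κ.x c ρ = 0) :
    (∃ p ≤ n, ∃ q ≤ n, p ≠ q ∧ ∃ s : ℝ, s ≠ 0 ∧ ρ = s • (ε p - ε q)) ∨ Sup S κ E ρ := by
  have hd : Disjoint ((Finset.range n).image t) E := by
    rw [Finset.range_eq_Ico]; exact h.dI le_rfl
  rcases one_sided h.sys h.ch hd h.sep hρ (fun i hi hi' => by
    have : i = c := by
      rw [h.cover] at hi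
      exact (Finset.mem_insert.mp hi).resolve_right hi'
    rw [this, h0]) with h1 | h1
  · obtain ⟨p, hp, q, hq, s, e⟩ := h.path.all ρ hρ h1
    refine Or.inl ⟨p, hp, q, hq, ?_, s, ?_, e⟩
    · rintro rfl
      exact h.sys.ne ρ hρ (by rw [e]; simp)
    · rintro rfl
      exact h.sys.ne ρ hρ (by rw [e]; simp)
  · exact Or.inr h1

/-- Interval pattern of the roots with `x c = 0` which meet the path. -/
theorem pat (h : G4 R S κ t n ε α β c E) {ρ : V} (hρ : ρ ∈ R) (h0 : κ.x c ρ = 0) {i0 : ℕ}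
    (hi0 : i0 < n) (h1 : κ.x (t i0) ρ ≠ 0) : ∃ p q, p ≤ i0 ∧ i0 < q ∧
      ∀ i < n, κ.x (t i) ρ = if p ≤ i ∧ i < q then κ.x (t i0) ρ else 0 := by
  rcases h.root0 hρ h0 with ⟨p, hp, q, hq, -, s, -, rfl⟩ | hs
  · have hx := (h.x_eps hq hp).2.2
    simp only [map_smul, smul_eq_mul] at h1 ⊢
    rw [hx i0 hi0] at h1
    by_cases hpq : q ≤ p
    · have : q ≤ i0 ∧ i0 < p := by
        by_contra hn
        apply h1
        split_ifs <;> first | omega | simp
      refine ⟨q, p, this.1, this.2, fun i hi => ?_⟩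
      rw [hx i hi, hx i0 hi0]
      split_ifs <;> first | omega | simp
    · have : p ≤ i0 ∧ i0 < q := by
        by_contra hn
        apply h1
        split_ifs <;> first | omega | simp
      refine ⟨p, q, this.1, this.2, fun i hi => ?_⟩
      rw [hx i hi, hx i0 hi0]
      split_ifs <;> first | omega | simp
  · exact absurd (hs _ (h.pth.mem i0 hi0) (h.path_E i0 hi0)) h1

/-- Beyond the last neighbour of `c` the coordinates decrease along the path. -/
theorem dec (h : G4 R S κ t n ε α β c E) {i : ℕ} (hi : i + 1 < n)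
    (hfar : ∀ j, i < j → j < n → ¬ Adj R S κ c (t j)) {ρ : V} (hρ : ρ ∈ R) (hp : 0 < κ.x c ρ) :
    κ.x (t (i + 1)) ρ ≤ κ.x (t i) ρ := by
  set A := (Finset.Ico (i + 1) n).image t with hA
  have hti := h.pth.mem i (by omega)
  have hsep : Sep R S κ A (S.erase (t i) \ A) := by
    intro v hv w hw hadj
    obtain ⟨j, hj, rfl⟩ := Finset.mem_image.mp hv
    have hj' := Finset.mem_Ico.mp hj
    obtain ⟨hw1, hw2⟩ := Finset.mem_sdiff.mp hw
    obtain ⟨hw0, hw1⟩ := Finset.mem_erase.mp hw1
    rcases h.mem.mp hw1 with rfl | ⟨k, hk, rfl⟩ | e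
    · exact hfar j (by omega) hj'.2 hadj.symm
    · have := h.pth.only j hj'.2 k hk hadj
      have e1 : k ≠ i := fun e => hw0 (by rw [e])
      exact hw2 ((h.mI le_rfl hk).mpr (by omega))
    · exact h.sepE hj'.2 e hadj
  have hm : t (i + 1) ∈ A := (h.mI le_rfl hi).mpr (by omega)
  have hne : t (i + 1) ≠ t i := fun e => by have := h.pth.inj _ hi _ (by omega) e; omega
  rcases (h.ch.nonneg hρ h.hc hp _ hti).lt_or_eq with h1 | h1
  · obtain ⟨b, hb, b1, b2, b3⟩ := prod h.sys h.ch hti hsep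
    have := b3 ρ hρ _ (h.pth.mem _ hi) hne hm h1
    obtain ⟨p, q, -, -, hx⟩ := h.pat hb (b2 c h.hc (h.c_path i (by omega)).symm (h.cI le_rfl))
      (i0 := i) (by omega) (by rw [b1]; exact one_ne_zero)
    rw [hx _ hi, b1] at this
    split_ifs at this <;> linarith
  · have hcA : c ∈ S.erase (t i) \ A := Finset.mem_sdiff.mpr
      ⟨Finset.mem_erase.mpr ⟨(h.c_path i (by omega)).symm, h.hc⟩, h.cI le_rfl⟩
    have := sup_of_sep h.sys h.ch Finset.sdiff_disjoint hsep.symm hρ (fun v hv hv' => by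
      by_contra hn
      apply hv'
      by_cases e : v ∈ A
      · exact Finset.mem_union_right _ e
      · exact Finset.mem_union_left _ (Finset.mem_sdiff.mpr ⟨Finset.mem_erase.mpr
          ⟨fun e' => hn (by rw [e', ← h1]), hv⟩, e⟩)) h.hc hcA hp.ne'
    rw [this _ (h.pth.mem _ hi) (fun hm' => (Finset.mem_sdiff.mp hm').2 hm), ← h1]

end G4

/-- The part of the good configuration before `t β`. -/
noncomputable def UU (t : ℕ → ι) (β : ℕ) (c : ι) (E : Finset ι) : Finset ι :=
  insert c ((Finset.Ico 0 β).image t ∪ E)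

namespace G4

variable {t : ℕ → ι} {n : ℕ} {ε : ℕ → V} {α β : ℕ} {c : ι} {E : Finset ι}

theorem US (h : G4 R S κ t n ε α β c E) : UU t β c E ⊆ S :=
  Finset.insert_subset h.hc (Finset.union_subset (h.sI h.hn.le) h.ES)

theorem tU (h : G4 R S κ t n ε α β c E) {i : ℕ} (hi : i < n) : t i ∈ UU t β c E ↔ i < β := by
  simp only [UU, Finset.mem_insert, Finset.mem_union, h.mI h.hn.le hi, h.c_path i hi,
    h.path_E i hi]
  simp

theorem supU (h : G4 R S κ t n ε α β c E) {v : V} :
    Sup S κ (UU t β c E) v ↔ ∀ i, β ≤ i → i < n → κ.x (t i) v = 0 := by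
  constructor
  · intro hs i h1 h2
    exact hs _ (h.pth.mem i h2) fun hm => by have := (h.tU h2).mp hm; omega
  · intro hs v hv hv'
    rcases h.mem.mp hv with rfl | ⟨k, hk, rfl⟩ | e
    · exact absurd (Finset.mem_insert_self _ _) hv'
    · exact hs k (by have := mt (h.tU hk).mpr hv'; omega) hk
    · exact absurd (Finset.mem_insert_of_mem (Finset.mem_union_right _ e)) hv'

theorem IU (h : G4 R S κ t n ε α β c E) {p q : ℕ} (hq : q ≤ β) :
    (Finset.Ico p q).image t ⊆ UU t β c E := fun v hm => by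
  obtain ⟨i, hi, rfl⟩ := Finset.mem_image.mp hm
  have := Finset.mem_Ico.mp hi
  have := h.hn
  exact (h.tU (by omega)).mpr (by omega)

theorem EU (_h : G4 R S κ t n ε α β c E) : E ⊆ UU t β c E := fun _ hv =>
  Finset.mem_insert_of_mem (Finset.mem_union_right _ hv)

theorem fewU (h : G4 R S κ t n ε α β c E) : Few R S κ (UU t β c E) (t α) c 3 :=
  h.few.mono fun v hv => Finset.mem_erase.mpr
    ⟨fun e => by have := (h.tU h.hn).mp (e ▸ hv); omega, h.US hv⟩

/-- The outcome of the sector argument. -/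
theorem tri_out (h : G4 R S κ t n ε α β c E) : Few R S κ (UU t β c E) (t α) c 1 ∨
    ∃ φ G : ℝ, φ < G ∧ Slope R S κ (UU t β c E) (t α) c φ ∧
      (∀ s, Slope R S κ (UU t β c E) (t α) c s → s = φ ∨ s = G) ∧
      ∀ ρ ∈ R, ∀ ρ' ∈ R, Sup S κ (UU t β c E) ρ → Sup S κ (UU t β c E) ρ' → κ.x c ρ = 1 →
        κ.x (t α) ρ = φ → κ.x c ρ' = 1 → κ.x (t α) ρ' = φ → ∀ j ∈ E, κ.x j ρ = κ.x j ρ' := by
  have hα := h.hα
  have hβ := h.hβ
  have hn := h.hn
  have hUS := h.US
  have hcU : c ∈ UU t β c E := Finset.mem_insert_self _ _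
  have haU : t α ∈ UU t β c E := (h.tU (by omega)).mpr (by omega)
  have hT : Tri (loc R S κ (UU t β c E)) (UU t β c E) κ (t α) c
      ((Finset.Ico (α + 1) β).image t) ((Finset.Ico 0 α).image t) E := by
    refine ⟨h.sys.loc h.ch _, h.ch.loc hUS, (conn_loc hUS subset_rfl).mpr ?_, ?_,
      h.c_path α (by omega), ?_, ?_, ?_, h.dI (by omega), h.dI (by omega),
      (sep_loc hUS (h.IU le_rfl) (h.IU (by omega))).mpr (h.sepI (by omega) (by omega)).symm,
      (sep_loc hUS (h.IU le_rfl) h.EU).mpr (h.sepIE (by omega)),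
      (sep_loc hUS (h.IU (by omega)) h.EU).mpr (h.sepIE (by omega)),
      (conn_loc hUS (h.IU le_rfl)).mpr (h.connI (by omega)),
      (conn_loc hUS (h.IU (by omega))).mpr (h.connI (by omega)),
      (conn_loc hUS h.EU).mpr h.connE, by rw [card_image_Ico h.pth.inj hn.le]; omega,
      by rw [card_image_Ico h.pth.inj (by omega)]; omega, h.cardE, few_loc.mpr h.fewU⟩
    · obtain ⟨i, hi, hadj⟩ := h.touchW
      have := (h.touchE.conn h.connE).union_adj (h.connI (p := 0) hn.le)
        (Finset.mem_insert_self _ _) ((h.mI hn.le (by omega)).mpr (by omega)) hadj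
      convert this using 1
      ext v
      simp only [UU, Finset.mem_insert, Finset.mem_union]
      tauto
    · ext v
      simp only [UU, Finset.mem_insert, Finset.mem_union, Finset.mem_image, Finset.mem_Ico]
      constructor
      · rintro (e | ⟨i, hi, rfl⟩ | e)
        · tauto
        · rcases lt_trichotomy i α with e | e | e
          · exact Or.inr (Or.inr (Or.inl (Or.inr ⟨i, by omega, rfl⟩)))
          · exact Or.inl (by rw [e])
          · exact Or.inr (Or.inr (Or.inl (Or.inl ⟨i, by omega, rfl⟩)))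
        · tauto
      · rintro (rfl | e | (⟨i, hi, rfl⟩ | ⟨i, hi, rfl⟩) | e)
        · exact Or.inr (Or.inl ⟨α, by omega, rfl⟩)
        · tauto
        · exact Or.inr (Or.inl ⟨i, by omega, rfl⟩)
        · exact Or.inr (Or.inl ⟨i, by omega, rfl⟩)
        · tauto
    · simp only [Finset.mem_union, h.mI hn.le (show α < n by omega),
        h.mI (show α ≤ n by omega) (show α < n by omega), h.path_E α (by omega), or_false]
      omega
    · simp only [Finset.mem_union, not_or]
      exact ⟨⟨h.cI hn.le, h.cI (by omega)⟩, h.c_E⟩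
    · rw [Finset.disjoint_left]
      intro v hv hv'
      obtain ⟨i, hi, rfl⟩ := Finset.mem_image.mp hv
      have := Finset.mem_Ico.mp hi
      have := (h.mI (by omega) (by omega)).mp hv'
      omega
  have ex : ∀ p q, p ≤ α → α < q → q ≤ β → ∃ ρ ∈ loc R S κ (UU t β c E), κ.x (t α) ρ = 1 ∧
      κ.x c ρ = 0 ∧ ∀ i < n, κ.x (t i) ρ = if p ≤ i ∧ i < q then 1 else 0 := by
    intro p q h1 h2 h3
    obtain ⟨x1, -, x3⟩ := h.x_eps (p := p) (q := q) (by omega) (by omega)
    have x4 : ∀ i < n, κ.x (t i) (ε q - ε p) = if p ≤ i ∧ i < q then 1 else 0 := fun i hi => by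
      rw [x3 i hi]
      split_ifs <;> first | omega | simp
    exact ⟨_, ⟨h.path.root q (by omega) p (by omega) (by omega), h.supU.mpr fun i h4 h5 => by
      rw [x4 i h5, if_neg (by omega)]⟩, by rw [x4 α (by omega), if_pos ⟨h1, h2⟩], x1, x4⟩
  have hC : Arm (loc R S κ (UU t β c E)) (UU t β c E) κ (t α) c ((Finset.Ico (α + 1) β).image t)
      (fun i => t (α + 1 + i)) (β - (α + 1)) := by
    refine ⟨?_, fun i hi j hj e => ?_, by omega, fun i hi => ?_, fun ρ hρ h1 h0 => ?_,
      fun m hm => ?_⟩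
    · ext v
      simp only [Finset.mem_image, Finset.mem_range, Finset.mem_Ico]
      constructor
      · rintro ⟨i, hi, rfl⟩
        exact ⟨i - (α + 1), by omega, by rw [show α + 1 + (i - (α + 1)) = i by omega]⟩
      · rintro ⟨i, hi, rfl⟩
        exact ⟨_, by omega, rfl⟩
    · have := h.pth.inj _ (by omega) _ (by omega) e
      omega
    · exact (adj_loc hUS ((h.tU (by omega)).mpr (by omega)) ((h.tU (by omega)).mpr (by omega))).mpr
        (h.pth.adj (α + 1 + i) (by omega))
    · obtain ⟨p, q, hp, hq, hx⟩ := h.pat hρ.1 h0 (i0 := α) (by omega) (by rw [h1]; exact one_ne_zero)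
      refine ⟨min (q - (α + 1)) (β - (α + 1)), min_le_right _ _, fun i hi => ?_⟩
      rw [hx _ (by omega), h1]
      split_ifs <;> first | rfl | omega
    · obtain ⟨ρ, hρ, x1, x2, x3⟩ := ex α (α + 1 + m) le_rfl (by omega) (by omega)
      refine ⟨ρ, hρ, x1, x2, fun i hi => ?_⟩
      rw [x3 _ (by omega)]
      split_ifs <;> first | rfl | omega
  have hD : Arm (loc R S κ (UU t β c E)) (UU t β c E) κ (t α) c ((Finset.Ico 0 α).image t)
      (fun i => t (α - 1 - i)) α := by
    refine ⟨?_, fun i hi j hj e => ?_, hα, fun i hi => ?_, fun ρ hρ h1 h0 => ?_,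
      fun m hm => ?_⟩
    · rw [image_rev, Finset.range_eq_Ico]
    · have := h.pth.inj _ (by omega) _ (by omega) e
      omega
    · refine (adj_loc hUS ((h.tU (by omega)).mpr (by omega))
        ((h.tU (by omega)).mpr (by omega))).mpr ?_
      have := (h.pth.adj (α - 1 - (i + 1)) (by omega)).symm
      rwa [show α - 1 - (i + 1) + 1 = α - 1 - i by omega] at this
    · obtain ⟨p, q, hp, hq, hx⟩ := h.pat hρ.1 h0 (i0 := α) (by omega) (by rw [h1]; exact one_ne_zero)
      refine ⟨α - p, by omega, fun i hi => ?_⟩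
      rw [hx _ (by omega), h1]
      split_ifs <;> first | rfl | omega
    · obtain ⟨ρ, hρ, x1, x2, x3⟩ := ex (α - m) (α + 1) (by omega) (by omega) (by omega)
      refine ⟨ρ, hρ, x1, x2, fun i hi => ?_⟩
      rw [x3 _ (by omega)]
      split_ifs <;> first | rfl | omega
  rcases tri hT hC hD (fun j hj hadj => by
      obtain ⟨i, hi, rfl⟩ := Finset.mem_image.mp hj
      have := Finset.mem_Ico.mp hi
      exact h.far i (by omega) (by omega) ((adj_loc hUS hcU (h.IU le_rfl hj)).mp hadj))
    (fun j hj hadj => h.sepE (by omega) hj ((adj_loc hUS haU (h.EU hj)).mp hadj)) with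
    h1 | ⟨φ, G, h1, h2, h3, h4⟩
  · exact Or.inl (few_loc.mp h1)
  · exact Or.inr ⟨φ, G, h1, slope_loc.mp h2, fun s hs => h3 s (slope_loc.mpr hs),
      fun ρ hρ ρ' hρ' s1 s2 => h4 ρ ⟨hρ, s1⟩ ρ' ⟨hρ', s2⟩⟩

/-- With at most two slopes, `c` is attached only to the first node of the path. -/
theorem only0 (h : G4 R S κ t n ε α β c E) (hf : Few R S κ (UU t β c E) (t α) c 2) {j : ℕ}
    (h1 : 1 ≤ j) (h2 : j < n) : ¬ Adj R S κ c (t j) := by
  have hα := h.hα
  have hβ := h.hβ
  have hn := h.hn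
  have hcU : c ∈ UU t β c E := Finset.mem_insert_self _ _
  have haU : t α ∈ UU t β c E := (h.tU (by omega)).mpr (by omega)
  have ne : ∀ i < n, ∀ j < n, i ≠ j → t i ≠ t j := fun i hi j hj hij e =>
    hij (h.pth.inj i hi j hj e)
  intro hadj
  rcases lt_trichotomy j α with e | rfl | e
  · obtain ⟨r, hr, hcr⟩ := h.touchE
    have l1 : ∀ p q, p ≤ j → j < q → q ≤ n → Conn R S κ (insert c ((Finset.Ico p q).image t)) :=
      fun p q _ _ hq => (h.connI hq).insert ((h.mI hq h2).mpr (by omega)) hadj.symm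
    have sub : ∀ p q, q ≤ n → insert c ((Finset.Ico p q).image t) ⊆ S := fun p q hq =>
      Finset.insert_subset h.hc (h.sI hq)
    have mm : ∀ p q, j - 1 ≤ p → q ≤ α + 1 → ∀ v ∈ (Finset.Ico p q).image t,
        (v = t (j - 1) ∧ p = j - 1) ∨ (v = t α ∧ q = α + 1) ∨ v ∈ (Finset.Ico j α).image t := by
      intro p q hp hq v hv
      obtain ⟨i, hi, rfl⟩ := Finset.mem_image.mp hv
      have := Finset.mem_Ico.mp hi
      by_cases e1 : i = j - 1
      · exact Or.inl ⟨by rw [e1], by omega⟩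
      · by_cases e2 : i = α
        · exact Or.inr (Or.inl ⟨by rw [e2], by omega⟩)
        · exact Or.inr (Or.inr ((h.mI (by omega) (by omega)).mpr (by omega)))
    refine two_sided h.sys h.ch h.US (Z := (Finset.Ico j α).image t) (h.IU (by omega))
      (l := t (j - 1)) (r := r) (r' := t (α + 1)) haU hcU ((h.tU (by omega)).mpr (by omega))
      (h.EU hr) ((h.tU (by omega)).mpr (by omega))
      (fun hm => by have := (h.mI (by omega) (by omega)).mp hm; omega) (h.cI (by omega))
      (fun hm => by have := (h.mI (by omega) (by omega)).mp hm; omega)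
      (Finset.disjoint_right.mp (h.dI (by omega)) hr)
      (fun hm => by have := (h.mI (by omega) (by omega)).mp hm; omega) (h.c_path α (by omega))
      (ne _ (by omega) _ (by omega) (by omega)) (h.c_path _ (by omega))
      (fun e' => h.path_E α (by omega) (e' ▸ hr)) (fun e' => h.c_E (e' ▸ hr))
      (ne _ (by omega) _ (by omega) (by omega)) (h.c_path _ (by omega))
      (fun e' => h.path_E (j - 1) (by omega) (e' ▸ hr)) (ne _ (by omega) _ (by omega) (by omega))
      ?_ ?_ (hcr.link _) ?_ ((h.pth.adj α (by omega)).link _) hf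
    · refine link_of_conn h.sys h.ch (sub j (α + 1) (by omega)) (l1 _ _ le_rfl (by omega) (by omega))
        (Finset.mem_insert_of_mem ((h.mI (by omega) (by omega)).mpr (by omega)))
        (Finset.mem_insert_self _ _) fun v hv => ?_
      simp only [Finset.mem_insert] at hv ⊢
      rcases hv with e' | hv
      · exact Or.inr (Or.inl e')
      · rcases mm j (α + 1) (by omega) le_rfl v hv with e' | e' | e'
        · omega
        · exact Or.inl e'.1
        · exact Or.inr (Or.inr e')
    · refine link_of_conn h.sys h.ch (sub (j - 1) α (by omega)) (l1 _ _ (by omega) e (by omega))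
        (Finset.mem_insert_self _ _)
        (Finset.mem_insert_of_mem ((h.mI (by omega) (by omega)).mpr (by omega))) fun v hv => ?_
      simp only [Finset.mem_insert] at hv ⊢
      rcases hv with e' | hv
      · exact Or.inl e'
      · rcases mm (j - 1) α le_rfl (by omega) v hv with e' | e' | e'
        · exact Or.inr (Or.inl e'.1)
        · omega
        · exact Or.inr (Or.inr e')
    · refine link_of_conn h.sys h.ch (h.sI (p := j - 1) (q := α + 1) (by omega)) (h.connI (by omega))
        ((h.mI (by omega) (by omega)).mpr (by omega)) ((h.mI (by omega) (by omega)).mpr (by omega))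
        fun v hv => ?_
      simp only [Finset.mem_insert]
      rcases mm (j - 1) (α + 1) le_rfl le_rfl v hv with e' | e' | e'
      · exact Or.inr (Or.inl e'.1)
      · exact Or.inl e'.1
      · exact Or.inr (Or.inr e')
  · have dis : ∀ p q, q ≤ n → ¬ (p ≤ j ∧ j < q) →
        Disjoint ((Finset.Ico p q).image t) (insert c (insert (t j) ∅)) := by
      intro p q hq hn'
      rw [Finset.disjoint_insert_right, Finset.disjoint_insert_right]
      exact ⟨h.cI hq, fun hm => hn' ((h.mI hq h2).mp hm), by simp⟩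
    refine grow2 h.sys h.ch h.US (Z := ∅) (W := {t j}) (Y := (Finset.Ico 0 j).image t)
      (Y' := (Finset.Ico (j + 1) β).image t) hcU haU (h.c_path j h2).symm (by simp) (by simp)
      (by simp) (by simp) (by simp) (conn_singleton _) (h.IU (by omega)) (h.IU le_rfl) ?_
      (dis _ _ (by omega) (by omega)) (dis _ _ (by omega) (by omega)) ?_ ?_
      (by rw [card_image_Ico h.pth.inj (by omega)]; omega)
      (by rw [card_image_Ico h.pth.inj (by omega)]; omega) (hadj.link _) (hf.symm h.sys)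
    · rw [Finset.disjoint_left]
      intro v hv hv'
      obtain ⟨i, hi, rfl⟩ := Finset.mem_image.mp hv
      have := Finset.mem_Ico.mp hi
      have := (h.mI (by omega) (by omega)).mp hv'
      omega
    · refine (conn_singleton _).union_adj (h.connI (by omega)) (Finset.mem_singleton_self _)
        (j := t (j - 1)) ((h.mI (by omega) (by omega)).mpr (by omega)) ?_
      have := (h.pth.adj (j - 1) (by omega)).symm
      rwa [show j - 1 + 1 = j by omega] at this
    · exact (conn_singleton _).union_adj (h.connI (by omega)) (Finset.mem_singleton_self _)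
        ((h.mI (by omega) (by omega)).mpr (by omega)) (h.pth.adj j (by omega))
  · exact h.far j e h2 hadj

end G4

end Pool.Agent.SimpArr
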