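import Pool.Agent.P.MP_0b4c38_co.G4a

/-! Simplicial root systems: analysis of the good configuration, second part. -/

set_option autoImplicit false

open Classical

namespace Pool.Agent.SimpArr

variable {V : Type} [AddCommGroup V] [Module ℝ V] {ι : Type}
variable {R : Set V} {S : Finset ι} {κ : Fam ι V}

theorem IsCh.sup_add (h : IsCh R S κ) {i j : ι} (hi : i ∈ S) (hj : j ∈ S) (d : ℝ) {Z : Finset ι}
    (h1 : i ∈ Z) (h2 : j ∈ Z) : Sup S κ Z (κ.B i + d • κ.B j) := fun v hv hv' => by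
  rw [map_add, map_smul, h.sup_B hi h1 v hv hv', h.sup_B hj h2 v hv hv']
  simp

theorem IsCh.x_add (h : IsCh R S κ) {i j : ι} (hi : i ∈ S) (hj : j ∈ S) (hij : i ≠ j) (d : ℝ) :
    κ.x i (κ.B i + d • κ.B j) = 1 ∧ κ.x j (κ.B i + d • κ.B j) = d := by
  rw [map_add, map_add, map_smul, map_smul, h.x_self hi, h.x_self hj, h.x_ne hi hj hij,
    h.x_ne hj hi hij.symm]
  simp

namespace G4

variable {t : ℕ → ι} {n : ℕ} {ε : ℕ → V} {α β : ℕ} {c : ι} {E : Finset ι}

theorem B_add (h : G4 R S κ t n ε α β c E) {i : ℕ} (hi : i + 1 < n) :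
    κ.B (t i) + κ.B (t (i + 1)) ∈ R := by
  have := h.path.root (i + 2) (by omega) i (by omega) (by omega)
  rwa [h.path.B_eq i (by omega), h.path.B_eq (i + 1) hi, sub_add_sub_cancel']

/-- The path extended by `c` is again of type `A`, and all roots lie over a simplex. -/
theorem core (h : G4 R S κ t n ε α β c E) (hf : Few R S κ (UU t β c E) (t α) c 2)
    (hf1 : Few R S κ (insert c ((Finset.Ico 0 β).image t)) (t α) c 1) :
    ∃ l : ℝ, 0 < l ∧ (∀ p ≤ n, κ.B c + l • (ε p - ε 0) ∈ R) ∧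
      ∀ ρ ∈ R, 0 < κ.x c ρ → κ.x (t 0) ρ ≤ l * κ.x c ρ ∧
        ∀ i, i + 1 < n → κ.x (t (i + 1)) ρ ≤ κ.x (t i) ρ := by
  have hα := h.hα
  have hβ := h.hβ
  have hn := h.hn
  have hR := h.sys
  have t0S := h.pth.mem 0 (by omega)
  have ct0 : c ≠ t 0 := (h.c_path 0 (by omega)).symm
  have hadj0 : Adj R S κ c (t 0) := by
    obtain ⟨i, hi, hadj⟩ := h.touchW
    rcases Nat.eq_zero_or_pos i with rfl | h0
    · exact hadj
    · exact absurd hadj (h.only0 hf h0 (by omega))
  have sub : ∀ q, q ≤ n → insert c ((Finset.Ico 0 q).image t) ⊆ S := fun q hq =>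
    Finset.insert_subset h.hc (h.sI hq)
  have con : ∀ q, 0 < q → q ≤ n → Conn R S κ (insert c ((Finset.Ico 0 q).image t)) :=
    fun q h0 hq => (h.connI hq).insert ((h.mI hq (by omega)).mpr (by omega)) hadj0.symm
  have mm : ∀ q i, q ≤ n → i < q → t i ∈ insert c ((Finset.Ico 0 q).image t) := fun q i hq hi =>
    Finset.mem_insert_of_mem ((h.mI hq (by omega)).mpr (by omega))
  obtain ⟨l, hl, hcl⟩ := h.ch.add_of_adj hR h.hc t0S hadj0
  obtain ⟨xl1, xl2⟩ := h.ch.x_add h.hc t0S ct0 l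
  -- the short path together with `c` is of type A
  have f0 : Few R S κ (insert c ((Finset.Ico 0 β).image t)) (t 0) c 1 := by
    have hU := sub β hn.le
    have s1 : insert c ((Finset.Ico 0 α).image t) ⊆ insert c ((Finset.Ico 0 β).image t) :=
      Finset.insert_subset_insert _ (Finset.image_subset_image
        (Finset.Ico_subset_Ico le_rfl (by omega)))
    have s2 : (Finset.Ico (α + 1) β).image t ⊆ insert c ((Finset.Ico 0 β).image t) :=
      (Finset.image_subset_image (Finset.Ico_subset_Ico (by omega) le_rfl)).trans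
        (Finset.subset_insert _ _)
    obtain ⟨t', n', lam, hp⟩ := lemB (hR.loc h.ch _) (h.ch.loc hU)
      ((conn_loc hU subset_rfl).mpr (con β (by omega) hn.le)) (a := t α) (b := c)
      (S1 := insert c ((Finset.Ico 0 α).image t)) (S2 := (Finset.Ico (α + 1) β).image t)
      (mm β α hn.le (by omega))
      (by
        ext v
        simp only [Finset.mem_erase, Finset.mem_insert, Finset.mem_union, Finset.mem_image,
          Finset.mem_Ico]
        constructor
        · rintro ⟨h1, rfl | ⟨i, hi, rfl⟩⟩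
          · exact Or.inl (Or.inl rfl)
          · rcases lt_trichotomy i α with e | e | e
            · exact Or.inl (Or.inr ⟨i, by omega, rfl⟩)
            · exact absurd (by rw [e]) h1
            · exact Or.inr ⟨i, by omega, rfl⟩
        · rintro ((rfl | ⟨i, hi, rfl⟩) | ⟨i, hi, rfl⟩)
          · exact ⟨(h.c_path α (by omega)).symm, Or.inl rfl⟩
          · exact ⟨fun e => by have := h.pth.inj _ (by omega) _ (by omega) e; omega,
              Or.inr ⟨i, by omega, rfl⟩⟩
          · exact ⟨fun e => by have := h.pth.inj _ (by omega) _ (by omega) e; omega,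
              Or.inr ⟨i, by omega, rfl⟩⟩)
      (by
        rw [Finset.disjoint_insert_left]
        refine ⟨h.cI hn.le, Finset.disjoint_left.mpr fun v hv hv' => ?_⟩
        obtain ⟨i, hi, rfl⟩ := Finset.mem_image.mp hv
        have := Finset.mem_Ico.mp hi
        have := (h.mI (by omega) (by omega)).mp hv'
        omega)
      ((sep_loc hU s1 s2).mpr fun v hv w hw hadj => by
        rcases Finset.mem_insert.mp hv with rfl | hv
        · obtain ⟨i, hi, rfl⟩ := Finset.mem_image.mp hw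
          have := Finset.mem_Ico.mp hi
          exact h.far i (by omega) (by omega) hadj
        · exact h.sepI (by omega) hn.le v hv w hw hadj)
      (Finset.mem_insert_self _ _) ⟨t (α + 1), (h.mI hn.le (by omega)).mpr (by omega)⟩
      (few_loc.mpr hf1)
    exact few_loc.mp (hp.few (mm β 0 hn.le (by omega)) (Finset.mem_insert_self _ _))
  have f0' : ∀ ρ ∈ R, Sup S κ {c, t 0, t 1} ρ → 0 < κ.x c ρ → 0 < κ.x (t 0) ρ →
      κ.x (t 0) ρ = l * κ.x c ρ := by
    intro ρ hρ hs p1 p2
    have := f0.one hR hρ hcl (hs.mono (Finset.insert_subset (Finset.mem_insert_self _ _)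
      (Finset.insert_subset (mm β 0 hn.le (by omega)) (by simpa using mm β 1 hn.le (by omega)))))
      (h.ch.sup_add h.hc t0S l (Finset.mem_insert_self _ _) (mm β 0 hn.le (by omega))) p2 p1
      (by rw [xl2]; exact hl) (by rw [xl1]; exact one_pos)
    rwa [xl1, xl2, mul_one] at this
  set W1 := insert c ((Finset.Ico 0 n).image t) with hW1
  have hW : W1 ⊆ S := sub n le_rfl
  have hR1 := hR.loc h.ch W1
  have hL := h.ch.loc hW
  have cW : c ∈ W1 := Finset.mem_insert_self _ _
  have hA : (Finset.Ico 1 n).image t ⊆ W1 :=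
    (Finset.image_subset_image (Finset.Ico_subset_Ico (by omega) le_rfl)).trans
      (Finset.subset_insert _ _)
  have hsepc : Sep R S κ {c} ((Finset.Ico 1 n).image t) := fun v hv w hw hadj => by
    rw [Finset.mem_singleton.mp hv] at hadj
    obtain ⟨i, hi, rfl⟩ := Finset.mem_image.mp hw
    have := Finset.mem_Ico.mp hi
    exact h.only0 hf this.1 this.2 hadj
  have hWe : W1 = insert c (insert (t 0) ((Finset.Ico 1 n).image t)) := by
    rw [hW1, ← Finset.image_insert,
      ← Finset.insert_Ico_add_one_left_eq_Ico (show 0 < n by omega), zero_add]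
  have loc1 : ∀ {v : V}, v ∈ R → ∀ {Z : Finset ι}, Z ⊆ W1 → Sup S κ Z v → v ∈ loc R S κ W1 :=
    fun hv _ hZ hs => ⟨hv, hs.mono hZ⟩
  have g1 : ∀ ρ ∈ loc R S κ W1, 0 < κ.x c ρ → κ.x (t 0) ρ ≤ l * κ.x c ρ := by
    refine glue hR1 hL (t1 := t 1) hWe ct0 (h.cI le_rfl)
      (fun hm => by have := (h.mI le_rfl (by omega)).mp hm; omega)
      ((h.mI le_rfl (by omega)).mpr (by omega))
      ((sep_loc hW (Finset.singleton_subset_iff.mpr cW) hA).mpr hsepc) (fun ρ hρ h0 hp => ?_) ⟨h.B_add (by omega), ?_⟩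
      ⟨hcl, h.ch.sup_add h.hc t0S l cW (mm n 0 le_rfl (by omega))⟩ fun ρ hρ hs hp => ?_
    · obtain ⟨p, q, hp', hq, hx⟩ := h.pat hρ.1 h0 (i0 := 0) (by omega) hp.ne'
      by_cases e : 1 < q
      · left
        rw [hx 1 (by omega), if_pos ⟨by omega, e⟩]
      · right
        intro v hv
        obtain ⟨i, hi, rfl⟩ := Finset.mem_image.mp hv
        have := Finset.mem_Ico.mp hi
        rw [hx i this.2, if_neg (by omega)]
    · have := h.ch.sup_add t0S (h.pth.mem 1 (by omega)) 1 (mm n 0 le_rfl (by omega))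
        (mm n 1 le_rfl (by omega))
      rwa [one_smul] at this
    · rcases (h.ch.nonneg hρ.1 h.hc hp _ t0S).lt_or_eq with e | e
      · exact (f0' ρ hρ.1 ((sup_loc hW hρ.2).mp hs) hp e).le
      · rw [← e]; positivity
  have g2 : ∀ ρ ∈ R, 0 < κ.x c ρ → κ.x (t 0) ρ ≤ l * κ.x c ρ := by
    intro ρ hρ hp
    obtain ⟨b, hb, b1, b2, b3⟩ := prod hR h.ch h.hc (A := (Finset.Ico 0 n).image t) (by
      refine (h.sepIE le_rfl).mono subset_rfl fun v hv => ?_
      obtain ⟨h1, h2⟩ := Finset.mem_sdiff.mp hv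
      obtain ⟨h0, h1⟩ := Finset.mem_erase.mp h1
      rcases h.mem.mp h1 with e | ⟨k, hk, rfl⟩ | e
      · exact absurd e h0
      · exact absurd ((h.mI le_rfl hk).mpr (by omega)) h2
      · exact e)
    have e1 := b3 ρ hρ _ t0S ct0.symm ((h.mI le_rfl (by omega)).mpr (by omega)) hp
    have e2 := g1 b ⟨hb, fun v hv hv' => b2 v hv (fun e => hv' (e ▸ cW))
      fun e => hv' (Finset.mem_insert_of_mem e)⟩ (by rw [b1]; exact one_pos)
    rw [b1] at e2
    nlinarith
  have f1 : Few (loc R S κ W1) W1 κ W1 (t 0) c 1 := by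
    refine few_one_of (l := l) ?_
    rintro s ⟨s0, ρ, hρ, -, x1, x2⟩
    have e1 := g1 ρ hρ (by rw [x1]; exact one_pos)
    obtain ⟨b, hb, b1, b2, b3⟩ := prod hR1 hL (mm n 0 le_rfl (by omega)) (A := {c}) (by
      refine ((sep_loc hW (Finset.singleton_subset_iff.mpr cW) hA).mpr hsepc).mono subset_rfl fun v hv => ?_
      rw [hWe] at hv
      simp only [Finset.mem_sdiff, Finset.mem_erase, Finset.mem_insert, Finset.mem_singleton] at hv
      tauto)
    have e2 := b3 ρ hρ c cW ct0 (by simp) (by rwa [x2])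
    rw [x1, x2] at e1 e2
    have e3 : 0 < κ.x c b := by
      by_contra hn'
      have := mul_nonpos_of_nonneg_of_nonpos s0.le (not_lt.mp hn')
      linarith
    have e4 := f0' b hb.1 ((sup_loc hW hb.2).mp fun v hv hv' => by
      simp only [Finset.mem_insert, Finset.mem_singleton, not_or] at hv'
      exact b2 v hv hv'.2.1 (by simpa using hv'.1)) e3 (by rw [b1]; exact one_pos)
    rw [b1] at e4
    have : l * κ.x c b ≤ s * κ.x c b := by linarith
    have := le_of_mul_le_mul_right this e3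
    linarith
  obtain ⟨t', n', lam, hp, -, -⟩ := lemA hR1 hL ((conn_loc hW subset_rfl).mpr
    (con n (by omega) le_rfl)) cW (mm n 0 le_rfl (by omega)) ct0 (fun i hi hadj => by
      have hadj' := (adj_loc hW cW hi).mp hadj
      rcases Finset.mem_insert.mp hi with e | hi
      · exact absurd e.symm hadj'.1
      · obtain ⟨k, hk, rfl⟩ := Finset.mem_image.mp hi
        rcases Nat.eq_zero_or_pos k with rfl | h0
        · rfl
        · exact absurd hadj' (h.only0 hf h0 (Finset.mem_Ico.mp hk).2)) f1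
  refine ⟨l, hl, fun p hp' => ?_, fun ρ hρ hp' => ⟨g2 ρ hρ hp', fun i hi =>
    h.dec hi (fun j h1 h2 => h.only0 hf (by omega) h2) hρ hp'⟩⟩
  rcases Nat.eq_zero_or_pos p with rfl | h0
  · simpa using h.ch.mem c h.hc
  obtain ⟨τ, hτ, hs, hpos⟩ := full hR h.ch (sub p hp') (con p h0 hp') ⟨c, Finset.mem_insert_self _ _⟩
  have sW : insert c ((Finset.Ico 0 p).image t) ⊆ W1 := Finset.insert_subset_insert _
    (Finset.image_subset_image (Finset.Ico_subset_Ico le_rfl hp'))
  have hτL := loc1 hτ sW hs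
  have pc := hpos c (Finset.mem_insert_self _ _)
  have hx : ∀ i < p, κ.x (t i) τ = l * κ.x c τ := by
    intro i hi
    induction i with
    | zero =>
      have := f1.one hR1 hτL ⟨hcl, h.ch.sup_add h.hc t0S l cW (mm n 0 le_rfl (by omega))⟩
        (sup_self _) (sup_self _) (hpos _ (mm p 0 hp' hi)) pc (by rw [xl2]; exact hl)
        (by rw [xl1]; exact one_pos)
      rwa [xl1, xl2, mul_one] at this
    | succ i ih =>
      have m1 := mm n i le_rfl (by omega)
      have m2 := mm n (i + 1) le_rfl (by omega)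
      have ne : t i ≠ t (i + 1) := fun e => by
        have := h.pth.inj _ (by omega) _ (by omega) e; omega
      obtain ⟨y1, y2⟩ := h.ch.x_add (hW m1) (hW m2) ne 1
      have hr : κ.B (t i) + (1 : ℝ) • κ.B (t (i + 1)) ∈ R := by
        rw [one_smul]; exact h.B_add (by omega)
      have := (hp.few m1 m2).one hR1 hτL ⟨hr, h.ch.sup_add (hW m1) (hW m2) 1 m1 m2⟩
        (sup_self _) (sup_self _) (hpos _ (mm p i hp' (by omega))) (hpos _ (mm p _ hp' hi))
        (by rw [y1]; exact one_pos) (by rw [y2]; exact one_pos)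
      rw [y1, y2, mul_one, one_mul] at this
      rw [← this, ih (by omega)]
  obtain ⟨x1, x2, x3⟩ := h.x_eps (p := 0) (q := p) (by omega) hp'
  have : κ.B c + l • (ε p - ε 0) = (κ.x c τ)⁻¹ • τ := by
    refine h.ch.eq_of_x_span (Submodule.add_mem _ (Submodule.subset_span (h.ch.mem c h.hc))
      (Submodule.smul_mem _ _ (Submodule.subset_span (h.path.root p hp' 0 (by omega) h0.ne'))))
      (Submodule.smul_mem _ _ (Submodule.subset_span hτ)) fun v hv => ?_
    rw [map_add, map_smul, map_smul, smul_eq_mul, smul_eq_mul]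
    rcases h.mem.mp hv with rfl | ⟨k, hk, rfl⟩ | e
    · rw [x1, h.ch.x_self hv, inv_mul_cancel₀ pc.ne']; simp
    · rw [x3 k hk, h.ch.x_ne hv h.hc (h.c_path k hk)]
      by_cases e : k < p
      · rw [hx k e, if_pos e]
        field_simp
        simp
      · rw [hs _ hv (fun hm => by
          rcases Finset.mem_insert.mp hm with e' | hm
          · exact h.c_path k hk e'
          · exact e ((h.mI hp' hk).mp hm).2), if_neg e]
        simp
    · rw [x2 v e, h.ch.x_ne hv h.hc (fun e' => h.c_E (e' ▸ e)), hs v hv (fun hm => by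
        rcases Finset.mem_insert.mp hm with e' | hm
        · exact h.c_E (e' ▸ e)
        · exact Finset.disjoint_left.mp (h.dI hp') hm e)]
      simp
  rw [this]
  exact hR.smul _ hτ _ (inv_pos.mpr pc).ne'

theorem x_vert (h : G4 R S κ t n ε α β c E) (l : ℝ) {p : ℕ} (hp : p ≤ n) :
    κ.x c (κ.B c + l • (ε p - ε 0)) = 1 ∧ (∀ j ∈ E, κ.x j (κ.B c + l • (ε p - ε 0)) = 0) ∧
      ∀ i < n, κ.x (t i) (κ.B c + l • (ε p - ε 0)) = if i < p then l else 0 := by
  obtain ⟨x1, x2, x3⟩ := h.x_eps (p := 0) (q := p) (by omega) hp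
  refine ⟨?_, fun j hj => ?_, fun i hi => ?_⟩ <;> rw [map_add, map_smul, smul_eq_mul]
  · rw [x1, h.ch.x_self h.hc]; simp
  · rw [x2 j hj, h.ch.x_ne (h.ES hj) h.hc (fun e' => h.c_E (e' ▸ hj))]; simp
  · rw [x3 i hi, h.ch.x_ne (h.pth.mem i hi) h.hc (h.c_path i hi)]; simp

theorem dec0 {ρ : V} (h : ∀ i, i + 1 < n → κ.x (t (i + 1)) ρ ≤ κ.x (t i) ρ) {i : ℕ} (hi : i < n) :
    κ.x (t i) ρ ≤ κ.x (t 0) ρ := by
  induction i with
  | zero => exact le_rfl
  | succ i ih => exact (h i hi).trans (ih (by omega))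

/-- The case of one slope. -/
theorem caseA (h : G4 R S κ t n ε α β c E) (hf : Few R S κ (UU t β c E) (t α) c 1) :
    TypeA R S.card := by
  have hα := h.hα
  have hβ := h.hβ
  have hn := h.hn
  have hR := h.sys
  obtain ⟨l, hl, hv, hle⟩ := h.core (hf.le (by norm_num)) (hf.mono
    (Finset.insert_subset_insert _ Finset.subset_union_left))
  have haS := h.pth.mem α (by omega)
  have hac := h.c_path α (by omega)
  set A := insert c ((Finset.Ico 0 α).image t ∪ E) with hA
  set A' := (Finset.Ico (α + 1) n).image t with hA'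
  have he : S.erase (t α) = A ∪ A' := by
    ext v
    simp only [hA, hA', Finset.mem_erase, Finset.mem_insert, Finset.mem_union, Finset.mem_image,
      Finset.mem_Ico, h.mem]
    constructor
    · rintro ⟨h1, rfl | ⟨i, hi, rfl⟩ | e⟩
      · exact Or.inl (Or.inl rfl)
      · rcases lt_trichotomy i α with e | e | e
        · exact Or.inl (Or.inr (Or.inl ⟨i, by omega, rfl⟩))
        · exact absurd (by rw [e]) h1
        · exact Or.inr ⟨i, by omega, rfl⟩
      · exact Or.inl (Or.inr (Or.inr e))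
    · rintro ((rfl | ⟨i, hi, rfl⟩ | e) | ⟨i, hi, rfl⟩)
      · exact ⟨hac.symm, Or.inl rfl⟩
      · exact ⟨fun e => by have := h.pth.inj _ (by omega) _ (by omega) e; omega,
          Or.inr (Or.inl ⟨i, by omega, rfl⟩)⟩
      · exact ⟨fun e' => h.path_E α (by omega) (e' ▸ e), Or.inr (Or.inr e)⟩
      · exact ⟨fun e => by have := h.pth.inj _ (by omega) _ (by omega) e; omega,
          Or.inr (Or.inl ⟨i, by omega, rfl⟩)⟩
  have hd : Disjoint A A' := by
    rw [hA, Finset.disjoint_insert_left, Finset.disjoint_union_left]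
    refine ⟨h.cI le_rfl, Finset.disjoint_left.mpr fun v hv hv' => ?_, (h.dI le_rfl).symm⟩
    obtain ⟨i, hi, rfl⟩ := Finset.mem_image.mp hv
    have := Finset.mem_Ico.mp hi
    have := (h.mI (by omega) (by omega)).mp hv'
    omega
  have hsep : Sep R S κ A A' := fun v hv w hw hadj => by
    rcases Finset.mem_insert.mp hv with rfl | hv
    · obtain ⟨i, hi, rfl⟩ := Finset.mem_image.mp hw
      have := Finset.mem_Ico.mp hi
      exact h.far i (by omega) (by omega) hadj
    · rcases Finset.mem_union.mp hv with hv | hv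
      · exact h.sepI (by omega) le_rfl v hv w hw hadj
      · exact h.sepIE le_rfl w hw v hv hadj.symm
  have hfS : Few R S κ S (t α) c 1 := by
    refine few_one_of (l := l) ?_
    rintro s ⟨s0, ρ, hρ, -, x1, x2⟩
    obtain ⟨e1, e1'⟩ := hle ρ hρ (by rw [x1]; exact one_pos)
    have e1'' := dec0 e1' (show α < n by omega)
    obtain ⟨b, hb, b1, b2, b3⟩ := prod hR h.ch haS (A := A) (by
      rw [he, Finset.union_sdiff_cancel_left hd]; exact hsep)
    have e2 := b3 ρ hρ c h.hc hac.symm (Finset.mem_insert_self _ _) (by rwa [x2])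
    rw [x1] at e1
    rw [x2] at e1''
    rw [x1, x2] at e2
    have e3 : 0 < κ.x c b := by
      by_contra hn'
      have := mul_nonpos_of_nonneg_of_nonpos s0.le (not_lt.mp hn')
      linarith
    obtain ⟨v1, -, v3⟩ := h.x_vert l (show α + 1 ≤ n by omega)
    have e4 := hf.one hR hb (hv (α + 1) (by omega)) (h.supU.mpr fun i h1 h2 =>
        b2 _ (h.pth.mem i h2) (fun e => by have := h.pth.inj _ h2 _ (by omega) e; omega)
          (Finset.disjoint_right.mp hd ((h.mI le_rfl h2).mpr (by omega))))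
      (h.supU.mpr fun i h1 h2 => by rw [v3 i h2, if_neg (by omega)])
      (by rw [b1]; exact one_pos) e3 (by rw [v3 α (by omega), if_pos (by omega)]; exact hl)
      (by rw [v1]; exact one_pos)
    rw [b1, v1, v3 α (by omega), if_pos (by omega)] at e4
    have : l * κ.x c b ≤ s * κ.x c b := by linarith
    have := le_of_mul_le_mul_right this e3
    linarith
  obtain ⟨t', n', lam, hp⟩ := lemB hR h.ch h.conn haS he hd hsep (Finset.mem_insert_self _ _)
    ⟨t (α + 1), (h.mI le_rfl (by omega)).mpr (by omega)⟩ hfS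
  exact hp.typeA hR h.ch h.conn

/-- Reversing the signs on the end part. -/
theorem flip (h : G4 R S κ t n ε α β c E) : ∃ κ' : Fam ι V, G4 R S κ' t n ε α β c E ∧
    (∀ ρ ∈ R, κ'.x c ρ = κ.x c ρ ∧ ∀ i < n, κ'.x (t i) ρ = κ.x (t i) ρ) ∧
    ∃ M : ι → ℝ, ∀ j ∈ E, 0 < M j ∧ ∀ ρ ∈ R, κ'.x j ρ = M j * κ.x c ρ - κ.x j ρ := by
  have hR := h.sys
  have hJ : S.erase c ⊆ S := Finset.erase_subset _ _
  have hL := h.ch.loc hJ
  have tJ : ∀ i < n, t i ∈ S.erase c := fun i hi =>
    Finset.mem_erase.mpr ⟨h.c_path i hi, h.pth.mem i hi⟩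
  have EJ : ∀ j ∈ E, j ∈ S.erase c := fun j hj =>
    Finset.mem_erase.mpr ⟨fun e => h.c_E (e ▸ hj), h.ES hj⟩
  have hmix := hL.mix (hR.loc h.ch _) (A := E) fun ρ hρ => by
    rcases h.root0 hρ.1 (hρ.2 c h.hc (Finset.notMem_erase _ _)) with
      ⟨p, hp, q, hq, -, s, -, e⟩ | hs
    · right
      intro v hv hv'
      have hvE : v ∈ E := by
        by_contra hn
        exact hv' (Finset.mem_sdiff.mpr ⟨hv, hn⟩)
      rw [e, map_smul, (h.x_eps hq hp).2.1 v hvE, smul_zero]
    · exact Or.inl ((sup_loc hJ hρ.2).mpr hs)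
  obtain ⟨κ', h', hB, hx⟩ := lift_keep hR h.ch hJ hmix
  have xc := hx c h.hc (Finset.notMem_erase _ _)
  have Bt : ∀ i < n, κ'.B (t i) = κ.B (t i) := fun i hi => by
    rw [hB _ (tJ i hi), κ.mix_B_out (h.path_E i hi)]
  have BE : ∀ j ∈ E, κ'.B j = -κ.B j := fun j hj => by rw [hB _ (EJ j hj), κ.mix_B_in hj]
  have key : ∀ ρ ∈ R, ∀ v ∈ S.erase c,
      κ.x v ρ = κ'.x c ρ * κ.x v (κ'.B c) + κ'.x v ρ * κ.x v (κ'.B v) := by
    intro ρ hρ v hv
    obtain ⟨hvc, hvS⟩ := Finset.mem_erase.mp hv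
    rw [h'.apply_eq hρ (κ.x v)]
    refine Finset.sum_eq_add_of_mem c v h.hc hvS hvc.symm fun w hw hne => ?_
    rcases h.mem.mp hw with e | ⟨k, hk, rfl⟩ | e
    · exact absurd e hne.1
    · rw [Bt k hk, h.ch.x_ne hvS hw hne.2.symm, mul_zero]
    · rw [BE w e, map_neg, h.ch.x_ne hvS hw hne.2.symm, neg_zero, mul_zero]
  have pB : 0 < κ.x c (κ'.B c) := by rw [← xc, h'.x_self h.hc]; exact one_pos
  have zt : ∀ i < n, κ.x (t i) (κ'.B c) = 0 := by
    intro i hi
    have e1 := key _ (h.ch.mem c h.hc) _ (tJ i hi)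
    rw [xc, h.ch.x_self h.hc, Bt i hi, h.ch.x_self (h.pth.mem i hi),
      h.ch.x_ne (h.pth.mem i hi) h.hc (h.c_path i hi)] at e1
    have e2 := h.ch.nonneg (h'.mem c h.hc) h.hc pB _ (h.pth.mem i hi)
    have e3 := h'.nonneg (h.ch.mem c h.hc) h.hc (by rw [xc, h.ch.x_self h.hc]; exact one_pos) _
      (h.pth.mem i hi)
    linarith
  have xt : ∀ ρ ∈ R, ∀ i < n, κ'.x (t i) ρ = κ.x (t i) ρ := by
    intro ρ hρ i hi
    have e1 := key ρ hρ _ (tJ i hi)
    rw [zt i hi, Bt i hi, h.ch.x_self (h.pth.mem i hi)] at e1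
    linarith
  have xE : ∀ j ∈ E, ∀ ρ ∈ R, κ'.x j ρ = κ.x j (κ'.B c) * κ.x c ρ - κ.x j ρ := by
    intro j hj ρ hρ
    have e1 := key ρ hρ _ (EJ j hj)
    rw [xc, BE j hj, map_neg, h.ch.x_self (h.ES hj)] at e1
    linarith
  refine ⟨κ', ⟨hR, h', conn_indep hR h.ch h' h.conn, ⟨h.path.inj, h.path.mem, fun i hi => by
      rw [Bt i hi, h.path.B_eq i hi], h.path.root, fun ρ hρ hs => h.path.all ρ hρ ?_⟩, h.cover,
    h.c_path, h.c_E, h.path_E, ?_, ?_, h.cardE, h.hα, h.hβ, h.hn, ?_, ?_⟩,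
    fun ρ hρ => ⟨xc ρ, xt ρ hρ⟩, fun j => κ.x j (κ'.B c), fun j hj => ⟨?_, xE j hj⟩⟩
  · have h0 : κ.x c ρ = 0 := by
      rw [← xc]
      exact hs c h.hc (by rw [Finset.range_eq_Ico]; exact h.cI le_rfl)
    intro v hv hv'
    rcases h.mem.mp hv with rfl | ⟨k, hk, rfl⟩ | e
    · exact h0
    · exact absurd (Finset.mem_image_of_mem _ (Finset.mem_range.mpr hk)) hv'
    · have := xE v e ρ hρ
      rw [hs v hv hv', h0] at this
      linarith
  · rintro v hv j hj ⟨-, ρ, hρ, p1, p2, hs⟩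
    obtain ⟨i, hi, rfl⟩ := Finset.mem_image.mp hv
    have hi' := Finset.mem_range.mp hi
    have h0 : κ.x c ρ = 0 := by
      rw [← xc]
      refine hs c h.hc ?_
      simp only [Finset.mem_insert, Finset.notMem_empty, or_false, not_or]
      exact ⟨(h.c_path i hi').symm, fun e => h.c_E (e ▸ hj)⟩
    rw [xt ρ hρ i hi'] at p1
    rw [xE j hj ρ hρ, h0] at p2
    have := h.ch.nonneg hρ (h.pth.mem i hi') p1 j (h.ES hj)
    linarith
  · exact conn_agree (h.ch.neg hR) h' h.ES BE subset_rfl ((conn_neg hR).mpr h.connE)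
  · rintro i h1 h2 ⟨-, ρ, hρ, p1, p2, hs⟩
    rw [xc] at p1
    rw [xt ρ hρ i h2] at p2
    have := sup_of_sep hR h.ch (A := {t i}) (A' := insert c E)
      (by simp [h.c_path i h2, h.path_E i h2]) (fun v hv w hw hadj => by
        rw [Finset.mem_singleton.mp hv] at hadj
        rcases Finset.mem_insert.mp hw with rfl | hw
        · exact h.far i h1 h2 hadj.symm
        · exact h.sepE h2 hw hadj) hρ (fun v hv hv' => by
        simp only [Finset.mem_union, Finset.mem_insert, Finset.mem_singleton, not_or] at hv'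
        rcases h.mem.mp hv with e | ⟨k, hk, rfl⟩ | e
        · exact absurd e hv'.2.1
        · rw [← xt ρ hρ k hk]
          exact hs _ hv (by simp [hv'.1, hv'.2.1])
        · exact absurd e hv'.2.2) (h.pth.mem i h2) (Finset.mem_singleton_self _) p2.ne'
    exact p1.ne' (this c h.hc (by simpa using (h.c_path i h2).symm))
  · intro T hT
    refine h.few T fun s hs => ?_
    obtain ⟨s0, ρ, hρ, hs', x1, x2⟩ := hT s hs
    refine ⟨s0, ρ, hρ, fun v hv hv' => ?_, by rwa [← xc], by
      rwa [← xt ρ hρ α (by have := h.hβ; have := h.hn; omega)]⟩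
    have : v = t β := by
      by_contra hn
      exact hv' (Finset.mem_erase.mpr ⟨hn, hv⟩)
    rw [this, ← xt ρ hρ β h.hn]
    exact hs' _ (this ▸ hv) (Finset.notMem_erase _ _)
  · obtain ⟨τ, hτ, -, hpos⟩ := full hR h.ch (Finset.insert_subset h.hc h.ES)
      (h.touchE.conn h.connE) ⟨c, Finset.mem_insert_self _ _⟩
    have p1 := hpos c (Finset.mem_insert_self _ _)
    have p2 := hpos j (Finset.mem_insert_of_mem hj)
    have := h'.nonneg hτ h.hc (by rwa [xc]) j (h.ES hj)
    rw [xE j hj τ hτ] at this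
    by_contra hn
    have := mul_nonpos_of_nonpos_of_nonneg (not_lt.mp hn) p1.le
    linarith

end G4

end Pool.Agent.SimpArr
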