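import Pool.Agent.P.MP_0b4c38_co.HDIndAux3

/-! Induction into the end part: the system is of type `D` or `B` or in between. -/

set_option autoImplicit false

open Classical

namespace Pool.Agent.SimpArr

variable {V : Type} [AddCommGroup V] [Module ℝ V] {ι : Type}
variable {R : Set V} {S : Finset ι} {κ : Fam ι V}

namespace HDInd

variable {m : ℕ} {e : ℕ → V} {y : ℕ → V →ₗ[ℝ] ℝ} {E : Finset ι} {t c : ι} {μ : ι → ℝ}

theorem base (hR : Sys R) (dual : ∀ p < m, ∀ q < m, y p (e q) = if p = q then 1 else 0)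
    (repr : ∀ ρ ∈ R, ρ = ∑ p ∈ Finset.range m, y p ρ • e p)
    (root : ∀ p < m, ∀ q < m, p ≠ q → e p - e q ∈ R ∧ e p + e q ∈ R)
    (all : ∀ ρ ∈ R,
      (∃ p < m, ∃ q < m, p ≠ q ∧ ∃ s : ℝ, ρ = s • (e p - e q) ∨ ρ = s • (e p + e q)) ∨
      ∃ p < m, ∀ q < m, q ≠ p → y q ρ = 0) : TypeD R m := by
  refine ⟨e, y, (Finset.range m).filter fun p => e p ∈ R,
    fun p hp => Finset.mem_range.mp (Finset.mem_filter.mp hp).1, dual, fun v => ⟨fun hv => ?_, ?_⟩⟩
  · rcases all v hv with ⟨p, hp, q, hq, hpq, s, hs⟩ | ⟨p, hp, hy⟩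
    · refine ⟨s, ?_, Or.inl ⟨p, hp, q, hq, hpq, hs⟩⟩
      rintro rfl
      apply hR.ne v hv
      simpa using hs
    · have e1 : v = y p v • e p := by
        conv_lhs => rw [repr v hv]
        apply Finset.sum_eq_single p
        · intro q hq hqp
          rw [hy q (Finset.mem_range.mp hq) hqp, zero_smul]
        · intro hn
          exact absurd (Finset.mem_range.mpr hp) hn
      have h0 : y p v ≠ 0 := fun h0 => hR.ne v hv (by rw [e1, h0, zero_smul])
      refine ⟨y p v, h0, Or.inr ⟨p, Finset.mem_filter.mpr ⟨Finset.mem_range.mpr hp, ?_⟩, e1⟩⟩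
      have := hR.smul v hv _ (inv_ne_zero h0)
      rwa [e1, smul_smul, ← e1, inv_mul_cancel₀ h0, one_smul] at this
  · rintro ⟨s, hs, ⟨p, hp, q, hq, hpq, rfl | rfl⟩ | ⟨p, hp, rfl⟩⟩
    · exact hR.smul _ (root p hp q hq hpq).1 s hs
    · exact hR.smul _ (root p hp q hq hpq).2 s hs
    · exact hR.smul _ (Finset.mem_filter.mp hp).2 s hs

theorem forall_lt_succ {P : ℕ → Prop} {n : ℕ} : (∀ p < n + 1, P p) ↔ (∀ p < n, P p) ∧ P n :=
  Nat.forall_lt_succ_right

theorem stepA (h : HD R m e y E κ t c) (hl : Low R m e y E κ μ) {k : ι} (hk : k ∈ E)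
    (hn : ∀ p < m, ∀ s : ℝ, (s = 1 ∨ s = -1) → ∀ j ∈ E, j ≠ k → ¬ Nb R e E κ μ p s j) :
    ∃ (e' : ℕ → V) (y' : ℕ → V →ₗ[ℝ] ℝ) (κ' : Fam ι V),
      HD R (m + 1) e' y' (E.erase k) κ' t c := by
  set u : V := ∑ j ∈ E, μ j • κ.B j with hu
  set e' : ℕ → V := fun p => if p < m then e p else -u with he'
  set y' : ℕ → V →ₗ[ℝ] ℝ := fun p => if p < m then y p else (-(μ k)⁻¹) • κ.x k with hy'
  set κ' : Fam ι V := ⟨κ.B, fun j => κ.x j - (μ j * (μ k)⁻¹) • κ.x k⟩ with hκ'
  have μk : μ k ≠ 0 := (hl.1 k hk).ne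
  have ep : ∀ p < m, e' p = e p := fun p hp => if_pos hp
  have em : e' m = -u := if_neg (lt_irrefl m)
  have yp : ∀ p < m, y' p = y p := fun p hp => if_pos hp
  have ym : ∀ v, y' m v = -(μ k)⁻¹ * κ.x k v := fun v => by simp [hy']
  have xj : ∀ j v, κ'.x j v = κ.x j v - μ j * (μ k)⁻¹ * κ.x k v := fun j v => rfl
  have Bj : ∀ j, κ'.B j = κ.B j := fun j => rfl
  have xu : ∀ j ∈ E, κ.x j u = μ j := fun j hj => x_comb h μ hj
  have yu : ∀ p < m, y p u = 0 := fun p hp => y_comb h hp μ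
  have sub := Finset.erase_subset k E
  have xk : ∀ j ∈ E.erase k, κ.x k (κ.B j) = 0 := fun j hj =>
    h.ch.x_ne hk (sub hj) (Finset.ne_of_mem_erase hj).symm
  have r1 : ∀ p < m, e p + u ∈ R := fun p hp => by simpa using (hl.2 p hp 1 (Or.inl rfl)).1
  have r2 : ∀ p < m, e p - u ∈ R := fun p hp => by simpa using hl.top h hp (Or.inl rfl)
  have mem0 : ∀ ρ, (∀ p < m + 1, y' p ρ = 0) → (∀ p < m, y p ρ = 0) ∧ κ.x k ρ = 0 := by
    intro ρ hρ
    obtain ⟨h1, h2⟩ := forall_lt_succ.mp hρ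
    refine ⟨fun p hp => by rw [← yp p hp, h1 p hp], ?_⟩
    simpa [ym, μk] using h2
  have yB : ∀ p < m + 1, ∀ j ∈ E.erase k, y' p (κ'.B j) = 0 :=
    forall_lt_succ.mpr ⟨fun p hp j hj => by rw [yp p hp, Bj, h.yB p hp j (sub hj)],
      fun j hj => by rw [ym, Bj, xk j hj, mul_zero]⟩
  refine ⟨e', y', κ', h.sys, by have := h.hm; omega, h.tc, fun hj => h.tE (sub hj),
    fun hj => h.cE (sub hj), ?_, yB, ?_, ⟨?_, ?_, ?_, ?_⟩, ?_, ?_, ?_, ?_⟩
  · refine forall_lt_succ.mpr ⟨fun p hp => forall_lt_succ.mpr ⟨fun q hq => ?_, ?_⟩,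
      forall_lt_succ.mpr ⟨fun q hq => ?_, ?_⟩⟩
    · rw [yp p hp, ep q hq, h.dual p hp q hq]
    · rw [yp p hp, em, map_neg, yu p hp, if_neg hp.ne, neg_zero]
    · rw [ym, ep q hq, h.xe k hk q hq, if_neg hq.ne', mul_zero]
    · rw [ym, em, map_neg, xu k hk, if_pos rfl]
      field_simp
  · refine fun j hj => forall_lt_succ.mpr ⟨fun p hp => ?_, ?_⟩
    · rw [xj, ep p hp, h.xe j (sub hj) p hp, h.xe k hk p hp]
      ring
    · rw [xj, em, map_neg, map_neg, xu j (sub hj), xu k hk]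
      field_simp
      ring
  · intro i hi j hj
    rw [xj, Bj, xk j hj, mul_zero, sub_zero, h.ch.dual i (sub hi) j (sub hj)]
  · exact fun j hj => ⟨(h.ch.mem j (sub hj)).1, fun p hp => yB p hp j hj⟩
  · intro ρ hρ
    obtain ⟨h1, h2⟩ := mem0 ρ hρ.2
    conv_lhs => rw [h.ch.repr ρ ⟨hρ.1, h1⟩, ← Finset.add_sum_erase E _ hk, h2, zero_smul, zero_add]
    exact Finset.sum_congr rfl fun j _ => by rw [xj, h2, mul_zero, sub_zero]
  · intro ρ hρ
    obtain ⟨h1, h2⟩ := mem0 ρ hρ.2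
    simp only [xj, h2, mul_zero, sub_zero]
    exact (h.ch.sign ρ ⟨hρ.1, h1⟩).imp (fun h3 j hj => h3 j (sub hj)) fun h3 j hj => h3 j (sub hj)
  · intro ρ hρ
    have e1 : ∑ p ∈ Finset.range m, y' p ρ • e' p = ∑ p ∈ Finset.range m, y p ρ • e p :=
      Finset.sum_congr rfl fun p hp => by
        rw [yp p (Finset.mem_range.mp hp), ep p (Finset.mem_range.mp hp)]
    have e2 : ∑ j ∈ E.erase k, κ'.x j ρ • κ'.B j = ∑ j ∈ E, κ'.x j ρ • κ'.B j := by
      apply Finset.sum_erase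
      rw [xj, mul_inv_cancel₀ μk, one_mul, sub_self, zero_smul]
    have e3 : ∑ j ∈ E, κ'.x j ρ • κ'.B j =
        ∑ j ∈ E, κ.x j ρ • κ.B j - ((μ k)⁻¹ * κ.x k ρ) • u := by
      rw [hu, Finset.smul_sum, ← Finset.sum_sub_distrib]
      exact Finset.sum_congr rfl fun j _ => by rw [xj, Bj]; module
    rw [Finset.sum_range_succ, e1, e2, e3, ym, em]
    conv_lhs => rw [h.repr ρ hρ]
    module
  · refine forall_lt_succ.mpr ⟨fun p hp => forall_lt_succ.mpr ⟨fun q hq hpq => ?_, fun _ => ?_⟩,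
      forall_lt_succ.mpr ⟨fun q hq _ => ?_, fun hn => absurd rfl hn⟩⟩
    · rw [ep p hp, ep q hq]
      exact h.root p hp q hq hpq
    · rw [ep p hp, em, sub_neg_eq_add, ← sub_eq_add_neg]
      exact ⟨r1 p hp, r2 p hp⟩
    · rw [ep q hq, em]
      constructor
      · convert h.sys.neg_mem (r1 q hq) using 1
        module
      · convert r2 q hq using 1
        module
  · intro ρ hρ
    rcases cases3 h hρ with ⟨a, ha, b, hb, hab, s, -, hs⟩ | h1 | ⟨a, ha, s, -, σ, hσ, rfl⟩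
    · exact Or.inl ⟨a, by omega, b, by omega, hab, s, by rwa [ep a ha, ep b hb]⟩
    · exact Or.inr ⟨m, by omega, forall_lt_succ.mpr ⟨fun q hq _ => by rw [yp q hq, h1 q hq],
        fun hn => absurd rfl hn⟩⟩
    · rcases T3 h hl ha hσ hk with e1 | e1 | e1
      · refine Or.inl ⟨a, by omega, m, by omega, ha.ne, s, Or.inl ?_⟩
        rw [caseA h hl hk ha (Or.inl rfl) (hn a ha 1 (Or.inl rfl)) hσ e1, ep a ha, em]
        module
      · refine Or.inr ⟨a, by omega, forall_lt_succ.mpr ⟨fun q hq hqa => ?_, fun _ => ?_⟩⟩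
        · rw [yp q hq, map_smul, hσ.2.2 q hq hqa, smul_zero]
        · rw [ym, map_smul, e1]
          simp
      · refine Or.inl ⟨a, by omega, m, by omega, ha.ne, s, Or.inr ?_⟩
        have := caseA h hl hk ha (Or.inr rfl) (hn a ha (-1) (Or.inr rfl)) (Hs.neg h hσ)
          (by rw [map_neg, e1, neg_neg])
        rw [ep a ha, em, ← neg_neg σ, this]
        module
  · intro j hj
    refine ⟨κ.B k, (h.ch.mem k hk).1, m, by omega, ?_, ?_⟩
    · simp [ym, h.ch.x_self hk, μk]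
    · simp [xj, h.ch.x_self hk, h.ch.x_ne (sub hj) hk (Finset.ne_of_mem_erase hj), μk,
        (hl.1 j (sub hj)).ne]

theorem stepB (h : HD R m e y E κ t c) (hl : Low R m e y E κ μ) {k l : ι} (hk : k ∈ E)
    (hl' : l ∈ E) (hkl : k ≠ l)
    (hn : ∀ p < m, ∀ s : ℝ, (s = 1 ∨ s = -1) → Nb R e E κ μ p s k ∧ Nb R e E κ μ p s l) :
    TypeD R (m + E.card) := by
  have hm0 : 0 < m := by have := h.hm; omega
  have B1 := fun p (hp : p < m) s (hs : s = 1 ∨ s = -1) =>
    caseB1 h hl hk hl' hkl hp hs (hn p hp s hs).1 (hn p hp s hs).2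
  have B2 := fun p (hp : p < m) s (hs : s = 1 ∨ s = -1) =>
    caseB1 h hl hl' hk hkl.symm hp hs (hn p hp s hs).2 (hn p hp s hs).1
  have hE : E = {k, l} := (B1 0 hm0 1 (Or.inl rfl)).1
  have sum2 : ∀ f : ι → V, ∑ j ∈ E, f j = f k + f l := fun f => by
    rw [hE, Finset.sum_pair hkl]
  have μk : μ k ≠ 0 := (hl.1 k hk).ne
  have μl : μ l ≠ 0 := (hl.1 l hl').ne
  set u : V := μ k • κ.B k + μ l • κ.B l with hu
  set w : V := μ k • κ.B k - μ l • κ.B l with hw
  set e' : ℕ → V := fun p => if p < m then e p else if p = m then u else w with he'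
  set y' : ℕ → V →ₗ[ℝ] ℝ := fun p => if p < m then y p else
    if p = m then (2 * μ k)⁻¹ • κ.x k + (2 * μ l)⁻¹ • κ.x l
    else (2 * μ k)⁻¹ • κ.x k - (2 * μ l)⁻¹ • κ.x l with hy'
  have ep : ∀ p < m, e' p = e p := fun p hp => if_pos hp
  have em : e' m = u := by simp [he']
  have en : e' (m + 1) = w := by simp [he']
  have yp : ∀ p < m, y' p = y p := fun p hp => if_pos hp
  have ym : ∀ v, y' m v = (2 * μ k)⁻¹ * κ.x k v + (2 * μ l)⁻¹ * κ.x l v := fun v => by simp [hy']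
  have yn : ∀ v, y' (m + 1) v = (2 * μ k)⁻¹ * κ.x k v - (2 * μ l)⁻¹ * κ.x l v := fun v => by
    simp [hy']
  have bkk := h.ch.x_self hk
  have bll := h.ch.x_self hl'
  have bkl := h.ch.x_ne hk hl' hkl
  have blk := h.ch.x_ne hl' hk hkl.symm
  have r1 : ∀ p < m, ∀ s : ℝ, (s = 1 ∨ s = -1) → s • e p + u ∈ R ∧ s • e p + w ∈ R := by
    intro p hp s hs
    have a1 := (hl.2 p hp s hs).1
    have a2 := (B2 p hp s hs).2.1
    rw [sum2] at a1 a2
    refine ⟨a1, ?_⟩
    convert a2 using 1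
    rw [hw]
    module
  have r2 : ∀ p < m, ∀ v : V, (∀ s : ℝ, (s = 1 ∨ s = -1) → s • e p + v ∈ R) →
      (e p - v ∈ R ∧ e p + v ∈ R) ∧ (v - e p ∈ R ∧ v + e p ∈ R) := by
    intro p _ v hv
    have a1 := hv 1 (Or.inl rfl)
    have a2 := hv (-1) (Or.inr rfl)
    refine ⟨⟨?_, ?_⟩, ?_, ?_⟩
    · convert h.sys.neg_mem a2 using 1
      module
    · convert a1 using 1
      module
    · convert a2 using 1
      module
    · convert a1 using 1
      module
  have rk : u + w ∈ R := by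
    convert h.sys.smul _ (h.ch.mem k hk).1 (2 * μ k) (by simp [μk]) using 1
    rw [hu, hw]
    module
  have rl : u - w ∈ R := by
    convert h.sys.smul _ (h.ch.mem l hl').1 (2 * μ l) (by simp [μl]) using 1
    rw [hu, hw]
    module
  rw [show E.card = 2 by rw [hE, Finset.card_pair hkl]]
  refine base (e := e') (y := y') h.sys ?_ ?_ ?_ ?_
  · refine forall_lt_succ.mpr ⟨forall_lt_succ.mpr ⟨fun p hp => ?_, ?_⟩, ?_⟩ <;>
      refine forall_lt_succ.mpr ⟨forall_lt_succ.mpr ⟨fun q hq => ?_, ?_⟩, ?_⟩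
    · rw [yp p hp, ep q hq, h.dual p hp q hq]
    · simp [yp p hp, em, hu, h.yB p hp k hk, h.yB p hp l hl', hp.ne]
    · simp [yp p hp, en, hw, h.yB p hp k hk, h.yB p hp l hl', (show p ≠ m + 1 by omega)]
    · simp [ym, ep q hq, h.xe k hk q hq, h.xe l hl' q hq, hq.ne']
    · simp only [ym, em, hu, map_add, map_smul, bkk, bll, bkl, blk, smul_eq_mul, if_true]
      field_simp
      ring
    · simp only [ym, en, hw, map_sub, map_smul, bkk, bll, bkl, blk, smul_eq_mul]
      rw [if_neg (by omega)]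
      field_simp
      ring
    · simp [yn, ep q hq, h.xe k hk q hq, h.xe l hl' q hq, (show m + 1 ≠ q by omega)]
    · simp only [yn, em, hu, map_add, map_smul, bkk, bll, bkl, blk, smul_eq_mul]
      rw [if_neg (by omega)]
      field_simp
      ring
    · simp only [yn, en, hw, map_sub, map_smul, bkk, bll, bkl, blk, smul_eq_mul, if_true]
      field_simp
      ring
  · intro ρ hρ
    have e1 : ∑ p ∈ Finset.range m, y' p ρ • e' p = ∑ p ∈ Finset.range m, y p ρ • e p :=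
      Finset.sum_congr rfl fun p hp => by
        rw [yp p (Finset.mem_range.mp hp), ep p (Finset.mem_range.mp hp)]
    have e2 : y' m ρ • e' m + y' (m + 1) ρ • e' (m + 1) = κ.x k ρ • κ.B k + κ.x l ρ • κ.B l := by
      rw [ym, yn, em, en, hu, hw]
      match_scalars <;> field_simp <;> ring
    rw [Finset.sum_range_succ, Finset.sum_range_succ, e1, add_assoc, e2,
      ← sum2 fun j => κ.x j ρ • κ.B j]
    exact h.repr ρ hρ
  · refine forall_lt_succ.mpr ⟨forall_lt_succ.mpr ⟨fun p hp => ?_, ?_⟩, ?_⟩ <;>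
      refine forall_lt_succ.mpr ⟨forall_lt_succ.mpr ⟨fun q hq hpq => ?_, fun hpq => ?_⟩,
        fun hpq => ?_⟩
    · rw [ep p hp, ep q hq]
      exact h.root p hp q hq hpq
    · rw [ep p hp, em]
      exact (r2 p hp u fun s hs => (r1 p hp s hs).1).1
    · rw [ep p hp, en]
      exact (r2 p hp w fun s hs => (r1 p hp s hs).2).1
    · rw [ep q hq, em]
      exact (r2 q hq u fun s hs => (r1 q hq s hs).1).2
    · exact absurd rfl hpq
    · rw [em, en]
      exact ⟨rl, rk⟩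
    · rw [ep q hq, en]
      exact (r2 q hq w fun s hs => (r1 q hq s hs).2).2
    · rw [em, en, add_comm w u]
      exact ⟨by simpa using h.sys.neg_mem rl, rk⟩
    · exact absurd rfl hpq
  · intro ρ hρ
    rcases cases3 h hρ with ⟨a, ha, b, hb, hab, s, -, hs⟩ | h1 | ⟨a, ha, s, -, σ, hσ, rfl⟩
    · exact Or.inl ⟨a, by omega, b, by omega, hab, s, by rwa [ep a ha, ep b hb]⟩
    · have e1 := h.ch.repr ρ ⟨hρ, h1⟩
      rw [sum2] at e1
      by_cases a1 : κ.x k ρ = 0
      · refine Or.inl ⟨m, by omega, m + 1, by omega, by omega, (2 * μ l)⁻¹ * κ.x l ρ, Or.inl ?_⟩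
        rw [em, en, hu, hw]
        conv_lhs => rw [e1, a1]
        match_scalars <;> field_simp <;> ring
      by_cases a2 : κ.x l ρ = 0
      · refine Or.inl ⟨m, by omega, m + 1, by omega, by omega, (2 * μ k)⁻¹ * κ.x k ρ, Or.inr ?_⟩
        rw [em, en, hu, hw]
        conv_lhs => rw [e1, a2]
        match_scalars <;> field_simp <;> ring
      have key : ∀ σ ∈ R, (∀ r < m, y r σ = 0) → 0 < κ.x k σ → κ.x l σ ≠ 0 →
          κ.x l σ * μ k = κ.x k σ * μ l := by
        intro σ hσ hy b1 b2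
        have b3 := lt_of_le_of_ne (h.ch.nonneg (ρ := σ) ⟨hσ, hy⟩ hk b1 l hl') b2.symm
        exact le_antisymm (caseB2 h hl hk hl' hkl hn hσ hy b3)
          (caseB2 h hl hl' hk hkl.symm (fun p hp s hs => (hn p hp s hs).symm) hσ hy b1)
      have e2 : κ.x l ρ * μ k = κ.x k ρ * μ l := by
        rcases lt_or_gt_of_ne a1 with b | b
        · have := key (-ρ) (h.sys.neg_mem hρ) (fun r hr => by simp [h1 r hr])
            (by rw [map_neg]; linarith) (by simpa using a2)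
          rw [map_neg, map_neg] at this
          linarith
        · exact key ρ hρ h1 b a2
      refine Or.inr ⟨m, by omega, forall_lt_succ.mpr ⟨forall_lt_succ.mpr
        ⟨fun q hq _ => by rw [yp q hq, h1 q hq], fun hn => absurd rfl hn⟩, fun _ => ?_⟩⟩
      rw [yn]
      field_simp
      linarith
    · have e1 := Hs.repr h ha hσ
      rw [sum2] at e1
      have n1 := (B1 a ha _ (Or.inr rfl)).2.2 _ (Hs.neg h hσ)
      have n2 := (B2 a ha _ (Or.inr rfl)).2.2 _ (Hs.neg h hσ)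
      have n3 := (B1 a ha _ (Or.inl rfl)).2.2 _ hσ
      have n4 := (B2 a ha _ (Or.inl rfl)).2.2 _ hσ
      simp only [map_neg] at n1 n2
      rcases T3 h hl ha hσ hk with b1 | b1 | b1 <;> rcases T3 h hl ha hσ hl' with b2 | b2 | b2
      · refine Or.inl ⟨a, by omega, m, by omega, ha.ne, s, Or.inr ?_⟩
        rw [e1, b1, b2, ep a ha, em, hu]
        module
      · rcases n4 b1 with b | b <;> exact absurd (by linarith) μl
      · refine Or.inl ⟨a, by omega, m + 1, by omega, by omega, s, Or.inr ?_⟩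
        rw [e1, b1, b2, ep a ha, en, hw]
        module
      · rcases n3 b2 with b | b <;> exact absurd (by linarith) μk
      · refine Or.inr ⟨a, by omega, forall_lt_succ.mpr ⟨forall_lt_succ.mpr
          ⟨fun q hq hqa => ?_, fun _ => ?_⟩, fun _ => ?_⟩⟩
        · rw [yp q hq, map_smul, hσ.2.2 q hq hqa, smul_zero]
        · simp [ym, b1, b2]
        · simp [yn, b1, b2]
      · rcases n1 (by linarith) with b | b <;> exact absurd (by linarith) μk
      · refine Or.inl ⟨a, by omega, m + 1, by omega, by omega, s, Or.inl ?_⟩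
        rw [e1, b1, b2, ep a ha, en, hw]
        module
      · rcases n2 (by linarith) with b | b <;> exact absurd (by linarith) μl
      · refine Or.inl ⟨a, by omega, m, by omega, ha.ne, s, Or.inl ?_⟩
        rw [e1, b1, b2, ep a ha, em, hu]
        module

end HDInd

theorem HD.typeD {m : ℕ} {e : ℕ → V} {y : ℕ → V →ₗ[ℝ] ℝ} {E : Finset ι} {t c : ι}
    (h : HD R m e y E κ t c) : TypeD R (m + E.card) := by
  generalize hn : E.card = n
  induction n generalizing m e y E κ with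
  | zero =>
    obtain rfl := Finset.card_eq_zero.mp hn
    exact HDInd.base h.sys h.dual (fun ρ hρ => by simpa using h.repr ρ hρ) h.root h.all
  | succ n ih =>
    obtain ⟨j0, hj0⟩ : E.Nonempty := Finset.card_pos.mp (by omega)
    obtain ⟨μ, hl⟩ := HDInd.low h hj0
    have hm0 : 0 < m := by have := h.hm; omega
    by_cases hc : ∃ k ∈ E, ∀ j ∈ E, j ≠ k → ¬ HDInd.Nb R e E κ μ 0 1 j
    · obtain ⟨k, hk, hc⟩ := hc
      obtain ⟨e', y', κ', h'⟩ := HDInd.stepA h hl hk fun p hp s hs j hj hjk hb =>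
        hc j hj hjk (hb.trans h hl hj hp hm0 hs (Or.inl rfl))
      have := ih h' (by rw [Finset.card_erase_of_mem hk]; omega)
      rwa [show m + 1 + n = m + (n + 1) by ring] at this
    · push Not at hc
      obtain ⟨k, hk, -, hk'⟩ := hc j0 hj0
      obtain ⟨l, hl', hlk, hl''⟩ := hc k hk
      rw [← hn]
      exact HDInd.stepB h hl hk hl' hlk.symm fun p hp s hs =>
        ⟨hk'.trans h hl hk hm0 hp (Or.inl rfl) hs, hl''.trans h hl hl' hm0 hp (Or.inl rfl) hs⟩

end Pool.Agent.SimpArr
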