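import Pool.Agent.P.MP_0b4c38_co.G4b
import Pool.Agent.P.MP_0b4c38_co.HDInd

/-! Simplicial root systems: analysis of the good configuration, the case of two slopes. -/

set_option autoImplicit false

open Classical

namespace Pool.Agent.SimpArr

variable {V : Type} [AddCommGroup V] [Module ℝ V] {ι : Type}
variable {R : Set V} {S : Finset ι} {κ : Fam ι V}

/-- Tail sums of the simplex coordinates. -/
noncomputable def XX (κ : Fam ι V) (t : ℕ → ι) (n : ℕ) (c : ι) (l : ℝ) (i : ℕ) : V →ₗ[ℝ] ℝ :=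
  if i = 0 then l • κ.x c else if i ≤ n then κ.x (t (i - 1)) else 0

/-- Simplex coordinates. -/
noncomputable def yy (κ : Fam ι V) (t : ℕ → ι) (n : ℕ) (c : ι) (l : ℝ) (p : ℕ) : V →ₗ[ℝ] ℝ :=
  XX κ t n c l p - XX κ t n c l (p + 1)

/-- Vertices of the simplex. -/
noncomputable def ee (κ : Fam ι V) (ε : ℕ → V) (c : ι) (l : ℝ) (p : ℕ) : V :=
  l⁻¹ • κ.B c + (ε p - ε 0)

section

variable {t : ℕ → ι} {n : ℕ} {ε : ℕ → V} {α β : ℕ} {c : ι} {E : Finset ι} {l : ℝ}

theorem XX_zero (v : V) : XX κ t n c l 0 v = l * κ.x c v := by simp [XX]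

theorem XX_succ {i : ℕ} (hi : i < n) (v : V) : XX κ t n c l (i + 1) v = κ.x (t i) v := by
  simp [XX, Nat.succ_le_of_lt hi]

theorem XX_top (v : V) : XX κ t n c l (n + 1) v = 0 := by simp [XX]

theorem yy_apply (p : ℕ) (v : V) :
    yy κ t n c l p v = XX κ t n c l p v - XX κ t n c l (p + 1) v := rfl

theorem yy_tele {i j : ℕ} (hij : i ≤ j) (v : V) :
    ∑ p ∈ Finset.Ico i j, yy κ t n c l p v = XX κ t n c l i v - XX κ t n c l j v := by
  induction j, hij using Nat.le_induction with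
  | base => simp
  | succ j hij ih => rw [Finset.sum_Ico_succ_top hij, ih, yy_apply]; ring

theorem yy_tot (v : V) : ∑ p ∈ Finset.range (n + 1), yy κ t n c l p v = l * κ.x c v := by
  rw [Finset.range_eq_Ico, yy_tele (Nat.zero_le _), XX_zero, XX_top, sub_zero]

theorem ee_sub (p q : ℕ) : ee κ ε c l p - ee κ ε c l q = ε p - ε q := by
  simp only [ee]; abel

namespace G4

theorem XX_ee (h : G4 R S κ t n ε α β c E) (hl : 0 < l) {p i : ℕ} (hp : p ≤ n) (hi : i ≤ n + 1) :
    XX κ t n c l i (ee κ ε c l p) = if i ≤ p then 1 else 0 := by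
  obtain ⟨x1, -, x3⟩ := h.x_eps (p := 0) (q := p) (by omega) hp
  rcases i with _ | i
  · rw [XX_zero, ee, map_add, map_smul, x1, h.ch.x_self h.hc]
    simp [hl.ne']
  · rcases Nat.lt_or_ge i n with e | e
    · rw [XX_succ e, ee, map_add, map_smul, x3 i e,
        h.ch.x_ne (h.pth.mem i e) h.hc (h.c_path i e)]
      simp
    · obtain rfl : i = n := by omega
      rw [XX_top, if_neg (by omega)]

theorem yy_ee (h : G4 R S κ t n ε α β c E) (hl : 0 < l) {p q : ℕ} (hp : p < n + 1)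
    (hq : q < n + 1) : yy κ t n c l p (ee κ ε c l q) = if p = q then 1 else 0 := by
  rw [yy_apply, h.XX_ee hl (by omega) (by omega), h.XX_ee hl (by omega) (by omega)]
  split_ifs <;> first | omega | simp

theorem xE_ee (h : G4 R S κ t n ε α β c E) {p : ℕ} (hp : p < n + 1) {j : ι} (hj : j ∈ E) :
    κ.x j (ee κ ε c l p) = 0 := by
  rw [ee, map_add, map_smul, (h.x_eps (p := 0) (q := p) (by omega) (by omega)).2.1 j hj,
    h.ch.x_ne (h.ES hj) h.hc (fun e' => h.c_E (e' ▸ hj))]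
  simp

theorem XX_congr (_h : G4 R S κ t n ε α β c E) {v w : V} (h1 : κ.x c v = κ.x c w)
    (h2 : ∀ i < n, κ.x (t i) v = κ.x (t i) w) (i : ℕ) : XX κ t n c l i v = XX κ t n c l i w := by
  unfold XX
  split_ifs with e1 e2
  · simp [h1]
  · exact h2 _ (by omega)
  · simp

theorem XX_sup (h : G4 R S κ t n ε α β c E) {v : V} (hs : Sup S κ E v) (i : ℕ) :
    XX κ t n c l i v = 0 := by
  rw [h.XX_congr (w := 0) (by rw [hs c h.hc h.c_E, map_zero])
    (fun i hi => by rw [hs _ (h.pth.mem i hi) (h.path_E i hi), map_zero]), map_zero]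

theorem yy_sup (h : G4 R S κ t n ε α β c E) {v : V} (hs : Sup S κ E v) (p : ℕ) :
    yy κ t n c l p v = 0 := by rw [yy_apply, h.XX_sup hs, h.XX_sup hs, sub_zero]

theorem yy_proj (h : G4 R S κ t n ε α β c E) (v : V) (p : ℕ) :
    yy κ t n c l p (proj S κ E v) = yy κ t n c l p v := by
  have := h.XX_congr (l := l) (h.ch.x_proj_of v h.hc h.c_E)
    fun i hi => h.ch.x_proj_of v (h.pth.mem i hi) (h.path_E i hi)
  rw [yy_apply, yy_apply, this, this]

theorem ee_span (h : G4 R S κ t n ε α β c E) {p : ℕ} (hp : p < n + 1) :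
    ee κ ε c l p ∈ Submodule.span ℝ R := by
  refine Submodule.add_mem _ (Submodule.smul_mem _ _ (Submodule.subset_span (h.ch.mem c h.hc))) ?_
  rcases Nat.eq_zero_or_pos p with rfl | h0
  · simp
  · exact Submodule.subset_span (h.path.root p (by omega) 0 (by omega) h0.ne')

theorem ext (h : G4 R S κ t n ε α β c E) (hl : 0 < l) {v w : V} (hv : v ∈ Submodule.span ℝ R)
    (hw : w ∈ Submodule.span ℝ R) (h1 : ∀ p < n + 1, yy κ t n c l p v = yy κ t n c l p w)
    (h2 : ∀ j ∈ E, κ.x j v = κ.x j w) : v = w := by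
  have hX : ∀ i ≤ n + 1, XX κ t n c l i v = XX κ t n c l i w := by
    intro i hi
    have e1 := yy_tele (κ := κ) (t := t) (n := n) (c := c) (l := l) hi v
    have e2 := yy_tele (κ := κ) (t := t) (n := n) (c := c) (l := l) hi w
    rw [XX_top, sub_zero] at e1 e2
    rw [← e1, ← e2]
    exact Finset.sum_congr rfl fun p hp => h1 p (Finset.mem_Ico.mp hp).2
  refine h.ch.eq_of_x_span hv hw fun u hu => ?_
  rcases h.mem.mp hu with rfl | ⟨k, hk, rfl⟩ | e
  · have := hX 0 (by omega)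
    rw [XX_zero, XX_zero] at this
    exact mul_left_cancel₀ hl.ne' this
  · have := hX (k + 1) (by omega)
    rwa [XX_succ hk, XX_succ hk] at this
  · exact h2 u e

theorem yy_sum (h : G4 R S κ t n ε α β c E) (hl : 0 < l) (f : ℕ → ℝ) {p : ℕ} (hp : p < n + 1) :
    yy κ t n c l p (∑ q ∈ Finset.range (n + 1), f q • ee κ ε c l q) = f p := by
  rw [map_sum, Finset.sum_eq_single p]
  · rw [map_smul, h.yy_ee hl hp hp]; simp
  · intro q hq hne
    rw [map_smul, h.yy_ee hl hp (Finset.mem_range.mp hq), if_neg hne.symm, smul_zero]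
  · intro hn
    exact absurd (Finset.mem_range.mpr hp) hn

theorem xE_sum (h : G4 R S κ t n ε α β c E) (f : ℕ → ℝ) {j : ι} (hj : j ∈ E) :
    κ.x j (∑ q ∈ Finset.range (n + 1), f q • ee κ ε c l q) = 0 := by
  rw [map_sum]
  exact Finset.sum_eq_zero fun q hq => by
    rw [map_smul, h.xE_ee (Finset.mem_range.mp hq) hj, smul_zero]

theorem sum_span (h : G4 R S κ t n ε α β c E) (f : ℕ → ℝ) :
    ∑ q ∈ Finset.range (n + 1), f q • ee κ ε c l q ∈ Submodule.span ℝ R :=
  Submodule.sum_mem _ fun _ hq => Submodule.smul_mem _ _ (h.ee_span (Finset.mem_range.mp hq))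

theorem sumE_span (h : G4 R S κ t n ε α β c E) (f : ι → ℝ) :
    ∑ j ∈ E, f j • κ.B j ∈ Submodule.span ℝ R :=
  Submodule.sum_mem _ fun j hj =>
    Submodule.smul_mem _ _ (Submodule.subset_span (h.ch.mem j (h.ES hj)))

theorem sumE_sup (h : G4 R S κ t n ε α β c E) (f : ι → ℝ) : Sup S κ E (∑ j ∈ E, f j • κ.B j) :=
  fun i hi hi' => by rw [h.ch.x_sum h.ES f hi, if_neg hi']

theorem sumE_x (h : G4 R S κ t n ε α β c E) (f : ι → ℝ) {j : ι} (hj : j ∈ E) :
    κ.x j (∑ j ∈ E, f j • κ.B j) = f j := by rw [h.ch.x_sum h.ES f (h.ES hj), if_pos hj]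

theorem proj_eq (h : G4 R S κ t n ε α β c E) (hl : 0 < l) (v : V) :
    proj S κ E v = ∑ q ∈ Finset.range (n + 1), yy κ t n c l q v • ee κ ε c l q := by
  refine h.ext hl ?_ (h.sum_span _) (fun p hp => by rw [h.yy_proj, h.yy_sum hl _ hp])
    fun j hj => by rw [h.xE_sum _ hj, h.ch.x_proj E v (h.ES hj), if_pos hj]
  rw [proj_apply]
  exact Submodule.sum_mem _ fun j hj => Submodule.smul_mem _ _
    (Submodule.subset_span (h.ch.mem j (Finset.mem_sdiff.mp hj).1))

theorem mem_con (h : G4 R S κ t n ε α β c E) {ρ : V} (hρ : ρ ∈ R) (h0 : ∀ j ∈ E, κ.x j ρ = 0) :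
    ρ ∈ con R S κ E := by
  refine ⟨h.sys.ne ρ hρ, ρ, hρ, ?_⟩
  rw [proj_apply]
  exact h.ch.repr_sup Finset.sdiff_subset hρ fun i hi hi' => h0 i (by
    by_contra hn
    exact hi' (Finset.mem_sdiff.mpr ⟨hi, hn⟩))

theorem smp (h : G4 R S κ t n ε α β c E) (hl : 0 < l) (hv : ∀ p ≤ n, κ.B c + l • (ε p - ε 0) ∈ R)
    (hle : ∀ ρ ∈ R, 0 < κ.x c ρ → κ.x (t 0) ρ ≤ l * κ.x c ρ ∧
      ∀ i, i + 1 < n → κ.x (t (i + 1)) ρ ≤ κ.x (t i) ρ) :
    Smp (con R S κ E) (n + 1) (ee κ ε c l) (yy κ t n c l) where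
  sys := h.sys.con h.ch E
  dual := fun p hp q hq => h.yy_ee hl hp hq
  repr := by
    rintro _ ⟨-, ρ, -, rfl⟩
    simp only [h.yy_proj]
    exact h.proj_eq hl ρ
  root := fun p hp q hq hpq => by
    rw [ee_sub]
    exact h.mem_con (h.path.root p (by omega) q (by omega) hpq)
      (h.x_eps (by omega) (by omega)).2.1
  zero := by
    rintro _ ⟨h0, ρ, hρ, rfl⟩ h1
    simp only [h.yy_proj, yy_tot] at h1
    rcases h.root0 hρ ((mul_eq_zero.mp h1).resolve_left hl.ne') with
      ⟨p, hp, q, hq, -, s, -, e⟩ | hs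
    · refine ⟨p, by omega, q, by omega, s, ?_⟩
      rw [ee_sub, ← e, proj_apply]
      exact (h.ch.repr_sup Finset.sdiff_subset hρ fun i hi hi' => by
        rw [e, map_smul, (h.x_eps hq hp).2.1 i (by
          by_contra hn
          exact hi' (Finset.mem_sdiff.mpr ⟨hi, hn⟩)), smul_zero]).symm
    · exact absurd ((h.ch.proj_eq_zero E ρ).mpr hs) h0
  vert := fun p hp => by
    have : ee κ ε c l p = l⁻¹ • (κ.B c + l • (ε p - ε 0)) := by
      rw [ee, smul_add, smul_smul, inv_mul_cancel₀ hl.ne', one_smul]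
    refine h.mem_con ?_ fun j hj => h.xE_ee hp hj
    rw [this]
    exact h.sys.smul _ (hv p (by omega)) _ (inv_pos.mpr hl).ne'
  pos := by
    rintro _ ⟨-, ρ, hρ, rfl⟩ h1 p hp
    simp only [h.yy_proj, yy_tot] at h1 ⊢
    have hc : 0 < κ.x c ρ := (mul_pos_iff_of_pos_left hl).mp h1
    obtain ⟨e1, e2⟩ := hle ρ hρ hc
    have hn := h.hn
    rw [yy_apply, sub_nonneg]
    rcases p with _ | p
    · rw [XX_zero, XX_succ (by omega)]
      exact e1
    · rw [XX_succ (i := p) (by omega)]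
      rcases Nat.lt_or_ge (p + 1) n with e | e
      · rw [XX_succ e]
        exact e2 p e
      · obtain rfl : n = p + 1 := by omega
        rw [XX_top]
        exact h.ch.nonneg hρ h.hc hc _ (h.pth.mem p (by omega))

theorem supU_iff (h : G4 R S κ t n ε α β c E) {v : V} :
    Sup S κ (UU t β c E) v ↔ ∀ p < n + 1, β < p → yy κ t n c l p v = 0 := by
  rw [h.supU]
  constructor
  · intro hs p hp hβ
    obtain ⟨p, rfl⟩ : ∃ p', p = p' + 1 := ⟨p - 1, by omega⟩
    rw [yy_apply, XX_succ (by omega), hs p (by omega) (by omega)]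
    rcases Nat.lt_or_ge (p + 1) n with e | e
    · rw [XX_succ e, hs _ (by omega) e, sub_zero]
    · obtain rfl : n = p + 1 := by omega
      rw [XX_top, sub_zero]
  · intro hs i h1 h2
    have := yy_tele (κ := κ) (t := t) (n := n) (c := c) (l := l) (show i + 1 ≤ n + 1 by omega) v
    rw [XX_top, sub_zero, XX_succ h2] at this
    rw [← this]
    exact Finset.sum_eq_zero fun p hp => by
      have := Finset.mem_Ico.mp hp
      exact hs p this.2 (by omega)

theorem sumI2 (h : G4 R S κ t n ε α β c E) {v : V} (hs : Sup S κ (UU t β c E) v) :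
    ∑ p ∈ Finset.Ico (α + 1) (β + 1), yy κ t n c l p v = κ.x (t α) v := by
  have hβ := h.hβ
  have hn := h.hn
  rw [yy_tele (by omega), XX_succ (by omega), XX_succ hn, h.supU.mp hs β le_rfl hn, sub_zero]

end G4

/-- `ρ` lies over the midpoint of the vertices `k` and `q`. -/
def Mid (κ : Fam ι V) (t : ℕ → ι) (n : ℕ) (c : ι) (l : ℝ) (k q : ℕ) (ρ : V) : Prop :=
  ∀ r < n + 1, yy κ t n c l r ρ = (if r = k then 1 / 2 else 0) + (if r = q then 1 / 2 else 0)

theorem Mid.symm {k q : ℕ} {ρ : V} (h : Mid κ t n c l k q ρ) : Mid κ t n c l q k ρ :=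
  fun r hr => by rw [h r hr, add_comm]

theorem Mid.tot {k q : ℕ} {ρ : V} (h : Mid κ t n c l k q ρ) (hk : k < n + 1) (hq : q < n + 1) :
    l * κ.x c ρ = 1 := by
  rw [← yy_tot (t := t) (n := n), Finset.sum_congr rfl fun r hr => h r (Finset.mem_range.mp hr),
    Finset.sum_add_distrib, Finset.sum_ite_eq', Finset.sum_ite_eq', if_pos (Finset.mem_range.mpr hk),
    if_pos (Finset.mem_range.mpr hq)]
  norm_num

namespace G4

theorem mid_of (h : G4 R S κ t n ε α β c E) (hl : 0 < l) {k q : ℕ} (hk : k < n + 1)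
    (hq : q < n + 1) {ρ : V}
    (e : proj S κ E ρ = (1 / 2 : ℝ) • (ee κ ε c l k + ee κ ε c l q)) : Mid κ t n c l k q ρ := by
  intro r hr
  rw [← h.yy_proj, e, map_smul, map_add, h.yy_ee hl hr hk, h.yy_ee hl hr hq, smul_eq_mul]
  split_ifs <;> norm_num

/-- The end part of the roots over the midpoints at a vertex `k` is constant. -/
theorem uniq (h : G4 R S κ t n ε α β c E) (hl : 0 < l)
    (hmid : ∀ p < n + 1, ∀ q < n + 1, p ≠ q → ∃ ρ ∈ R, Mid κ t n c l p q ρ)
    (hcls : ∀ ρ ∈ R, l * κ.x c ρ = 1 → (∃ p < n + 1, ∀ r < n + 1, r ≠ p → yy κ t n c l r ρ = 0) ∨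
      ∃ p < n + 1, ∃ q < n + 1, p ≠ q ∧ Mid κ t n c l p q ρ)
    {η : ι → ℝ} {k q0 : ℕ} (hk : k < n + 1) (hq0 : q0 < n + 1) (hne : k ≠ q0)
    (h0 : ∀ ρ ∈ R, Mid κ t n c l k q0 ρ → ∀ j ∈ E, κ.x j ρ = η j) {q : ℕ} (hq : q < n + 1)
    (hkq : k ≠ q) {ρ : V} (hρ : ρ ∈ R) (hm : Mid κ t n c l k q ρ) : ∀ j ∈ E, κ.x j ρ = η j := by
  set Rk := {ρ | ρ ∈ R ∧ (l • κ.x c - (2 : ℝ) • yy κ t n c l k) ρ = 0} with hRk
  have mk : ∀ ρ, ρ ∈ Rk ↔ ρ ∈ R ∧ l * κ.x c ρ = 2 * yy κ t n c l k ρ := fun ρ => by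
    simp [hRk, sub_eq_zero]
  have hR : Sys Rk := h.sys.ker _
  have midk : ∀ q < n + 1, k ≠ q → ∀ ρ ∈ R, Mid κ t n c l k q ρ → ρ ∈ Rk := by
    intro q hq hkq ρ hρ hm
    rw [mk, hm.tot hk hq, hm k hk, if_pos rfl, if_neg hkq]
    exact ⟨hρ, by norm_num⟩
  set w : ℕ → ℝ := fun r => if r = q0 then 0 else r + 1 with hw
  have winj : ∀ p p', w p = w p' → p = p' := by
    intro p p' e
    simp only [hw] at e
    split_ifs at e with e1 e2 e2
    · rw [e1, e2]
    · exact absurd e (by positivity : (0 : ℝ) < p' + 1).ne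
    · exact absurd e (by positivity : (0 : ℝ) < p + 1).ne'
    · exact_mod_cast (add_right_cancel e)
  have key : ∀ σ : ℝ, σ = 1 ∨ σ = -1 → ∀ j ∈ E, σ * η j ≤ σ * κ.x j ρ := by
    intro σ hσ j hj
    have hσ0 : σ ≠ 0 := by rcases hσ with rfl | rfl <;> norm_num
    set ψ : V →ₗ[ℝ] ℝ := ∑ r ∈ Finset.range (n + 1), w r • yy κ t n c l r + σ • ∑ i ∈ E, κ.x i
      with hψ
    have ψ1 : ∀ p < n + 1, ψ (ee κ ε c l p) = w p := by
      intro p hp
      simp only [hψ, LinearMap.add_apply, LinearMap.sum_apply, LinearMap.smul_apply, smul_eq_mul]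
      rw [Finset.sum_eq_single p, h.yy_ee hl hp hp,
        Finset.sum_eq_zero fun i hi => h.xE_ee hp hi]
      · simp
      · intro r hr hne
        rw [h.yy_ee hl (Finset.mem_range.mp hr) hp, if_neg hne, mul_zero]
      · intro hn
        exact absurd (Finset.mem_range.mpr hp) hn
    have ψ2 : ∀ v, Sup S κ E v → ψ v = σ * ∑ i ∈ E, κ.x i v := by
      intro v hv
      simp only [hψ, LinearMap.add_apply, LinearMap.sum_apply, LinearMap.smul_apply, smul_eq_mul]
      rw [Finset.sum_eq_zero fun r _ => by rw [h.yy_sup hv, mul_zero], zero_add]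
    have ker : ∀ a ∈ Rk, (l • κ.x c) a = 0 → (∃ p < n + 1, ∃ p' < n + 1, p ≠ p' ∧ ∃ s : ℝ, s ≠ 0 ∧
        a = s • (ee κ ε c l p - ee κ ε c l p')) ∨ Sup S κ E a := by
      intro a ha h1
      rcases h.root0 ha.1 ((mul_eq_zero.mp h1).resolve_left hl.ne') with
        ⟨p, hp, p', hp', hpp, s, hs, e⟩ | hs
      · exact Or.inl ⟨p, by omega, p', by omega, hpp, s, hs, by rw [ee_sub]; exact e⟩
      · exact Or.inr hs
    obtain ⟨u, hu, u1, hmin⟩ := minRoot hR (l • κ.x c) ψ
      (by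
        intro a ha h1
        rcases ker a ha h1 with ⟨p, hp, p', hp', hpp, s, hs, rfl⟩ | hs
        · rw [map_smul, map_sub, ψ1 p hp, ψ1 p' hp']
          exact smul_ne_zero hs (sub_ne_zero.mpr fun e => hpp (winj p p' e))
        · rw [ψ2 a hs]
          refine mul_ne_zero hσ0 fun e => ?_
          obtain ⟨i, hi, hi0⟩ := h.ch.exists_ne h.sys ha.1
          have hiE : i ∈ E := by
            by_contra hn
            exact hi0 (hs i hi hn)
          rcases h.ch.sign a ha.1 with h2 | h2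
          · exact hi0 ((Finset.sum_eq_zero_iff_of_nonneg fun i hi => h2 i (h.ES hi)).mp e i hiE)
          · exact hi0 ((Finset.sum_eq_zero_iff_of_nonpos fun i hi => h2 i (h.ES hi)).mp e i hiE))
      (by
        intro v hv h1
        have hvR : v ∈ Submodule.span ℝ R := Submodule.span_mono (fun _ h => h.1) hv
        have hk0 : (l • κ.x c - (2 : ℝ) • yy κ t n c l k) v = 0 := by
          have : Submodule.span ℝ Rk ≤ LinearMap.ker (l • κ.x c - (2 : ℝ) • yy κ t n c l k) :=
            Submodule.span_le.mpr fun _ h => h.2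
          exact this hv
        rw [LinearMap.sub_apply, h1, LinearMap.smul_apply, zero_sub, neg_eq_zero, smul_eq_zero] at hk0
        have hk0' : yy κ t n c l k v = 0 := hk0.resolve_left (by norm_num)
        have e : v = ∑ r ∈ Finset.range (n + 1),
            yy κ t n c l r v • (ee κ ε c l r - ee κ ε c l q0) + ∑ i ∈ E, κ.x i v • κ.B i := by
          simp only [smul_sub, Finset.sum_sub_distrib]
          rw [← Finset.sum_smul, yy_tot, show l * κ.x c v = 0 from h1, zero_smul, sub_zero]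
          refine h.ext hl hvR (Submodule.add_mem _ (h.sum_span _) (h.sumE_span _))
            (fun p hp => ?_) fun i hi => ?_
          · rw [map_add, h.yy_sum hl _ hp, h.yy_sup (h.sumE_sup _), add_zero]
          · rw [map_add, h.xE_sum _ hi, h.sumE_x _ hi, zero_add]
        rw [e]
        refine Submodule.add_mem _ (Submodule.sum_mem _ fun r hr => ?_)
          (Submodule.sum_mem _ fun i hi => Submodule.smul_mem _ _ (Submodule.subset_span ?_))
        · have hr' := Finset.mem_range.mp hr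
          by_cases e1 : r = k
          · rw [e1, hk0', zero_smul]; exact Submodule.zero_mem _
          by_cases e2 : r = q0
          · rw [e2, sub_self, smul_zero]; exact Submodule.zero_mem _
          refine Submodule.smul_mem _ _ (Submodule.subset_span ?_)
          have x1 : κ.x c (ee κ ε c l r - ee κ ε c l q0) = 0 := by
            rw [ee_sub]; exact (h.x_eps (by omega) (by omega)).1
          refine ⟨(mk _).mpr ⟨by rw [ee_sub]; exact h.path.root r (by omega) q0 (by omega) e2, ?_⟩,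
            by rw [LinearMap.smul_apply, x1, smul_zero]⟩
          rw [x1, map_sub, h.yy_ee hl hk hr', h.yy_ee hl hk hq0, if_neg (Ne.symm e1), if_neg hne]
          simp
        · have hs := h.ch.sup_B (h.ES hi) hi
          have x1 := hs c h.hc h.c_E
          exact ⟨(mk _).mpr ⟨h.ch.mem i (h.ES hi), by rw [x1, h.yy_sup hs]; simp⟩,
            by rw [LinearMap.smul_apply, x1, smul_zero]⟩)
      (by
        obtain ⟨ρ0, hρ0, hm0⟩ := hmid k hk q0 hq0 hne
        exact ⟨ρ0, midk q0 hq0 hne ρ0 hρ0 hm0, hm0.tot hk hq0⟩)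
    have u1' : l * κ.x c u = 1 := u1
    have u2 : yy κ t n c l k u = 1 / 2 := by
      have := ((mk u).mp hu).2
      linarith
    have u3 : 1 / 2 ≤ yy κ t n c l q0 u := by
      obtain ⟨ρ0, hρ0, hm0⟩ := hmid k hk q0 hq0 hne
      have := hmin (-yy κ t n c l q0) (by
        intro a ha h1 h2
        rcases ker a ha h1 with ⟨p, hp, p', hp', hpp, s, hs, rfl⟩ | hs
        · rw [map_smul, map_sub, ψ1 p hp, ψ1 p' hp', smul_eq_mul] at h2
          rw [LinearMap.neg_apply, map_smul, map_sub, h.yy_ee hl hq0 hp, h.yy_ee hl hq0 hp',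
            smul_eq_mul]
          simp only [hw] at h2
          have c1 : (0 : ℝ) < p + 1 := by positivity
          have c2 : (0 : ℝ) < p' + 1 := by positivity
          by_cases e1 : p = q0
          · have e2 : p' ≠ q0 := fun e => hpp (e1.trans e.symm)
            rw [if_pos e1, if_neg e2] at h2
            rw [if_pos e1.symm, if_neg e2.symm]
            nlinarith
          · by_cases e2 : p' = q0
            · rw [if_neg e1, if_pos e2] at h2
              rw [if_neg (Ne.symm e1), if_pos e2.symm]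
              nlinarith
            · rw [if_neg (Ne.symm e1), if_neg (Ne.symm e2)]
              simp
        · rw [LinearMap.neg_apply, h.yy_sup hs, neg_zero]) ρ0 (midk q0 hq0 hne ρ0 hρ0 hm0)
        (hm0.tot hk hq0)
      rw [LinearMap.neg_apply, LinearMap.neg_apply, hm0 q0 hq0, if_neg hne.symm, if_pos rfl] at this
      linarith
    have u4 : Mid κ t n c l k q0 u := by
      rcases hcls u hu.1 u1' with ⟨p, hp, hz⟩ | ⟨p, hp, p', hp', hpp, hm'⟩
      · exfalso
        by_cases e : k = p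
        · rw [hz q0 hq0 (e ▸ hne.symm)] at u3
          norm_num at u3
        · rw [hz k hk e] at u2
          norm_num at u2
      · rw [hm' k hk] at u2
        rw [hm' q0 hq0] at u3
        have a1 : k = p ∨ k = p' := by
          by_contra hn
          rw [if_neg (not_or.mp hn).1, if_neg (not_or.mp hn).2] at u2
          norm_num at u2
        have a2 : q0 = p ∨ q0 = p' := by
          by_contra hn
          rw [if_neg (not_or.mp hn).1, if_neg (not_or.mp hn).2] at u3
          norm_num at u3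
        rcases a1 with rfl | rfl <;> rcases a2 with rfl | rfl
        · exact absurd rfl hne
        · exact hm'
        · exact hm'.symm
        · exact absurd rfl hne
    have := hmin (σ • κ.x j) (by
      intro a ha h1 h2
      rw [LinearMap.smul_apply, smul_eq_mul]
      rcases ker a ha h1 with ⟨p, hp, p', hp', -, s, -, rfl⟩ | hs
      · rw [map_smul, map_sub, h.xE_ee hp hj, h.xE_ee hp' hj]
        simp
      · rw [ψ2 a hs] at h2
        rcases h.ch.sign a ha.1 with h3 | h3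
        · have := Finset.sum_nonneg fun i hi => h3 i (h.ES hi)
          have := h3 j (h.ES hj)
          rcases hσ with rfl | rfl <;> linarith
        · have := Finset.sum_nonpos fun i hi => h3 i (h.ES hi)
          have := h3 j (h.ES hj)
          rcases hσ with rfl | rfl <;> linarith) ρ (midk q hq hkq ρ hρ hm) (hm.tot hk hq)
    rwa [LinearMap.smul_apply, LinearMap.smul_apply, h0 u hu.1 u4 j hj] at this
  intro j hj
  have e1 := key 1 (Or.inl rfl) j hj
  have e2 := key (-1) (Or.inr rfl) j hj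
  linarith

/-- The case of two slopes. -/
theorem caseD (h : G4 R S κ t n ε α β c E) {φ G : ℝ} (hlt : φ < G)
    (hφ : Slope R S κ (UU t β c E) (t α) c φ)
    (hall : ∀ s, Slope R S κ (UU t β c E) (t α) c s → s = φ ∨ s = G)
    (hnv : ∀ ρ ∈ R, ∀ ρ' ∈ R, Sup S κ (UU t β c E) ρ → Sup S κ (UU t β c E) ρ' → κ.x c ρ = 1 →
        κ.x (t α) ρ = φ → κ.x c ρ' = 1 → κ.x (t α) ρ' = φ → ∀ j ∈ E, κ.x j ρ = κ.x j ρ')
    (hnz : ∀ ρ ∈ R, Sup S κ (UU t β c E) ρ → κ.x c ρ = 1 → κ.x (t α) ρ = φ →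
      ∃ j ∈ E, κ.x j ρ ≠ 0) : TypeD R S.card := by
  have hα := h.hα
  have hβ := h.hβ
  have hn := h.hn
  have hR := h.sys
  obtain ⟨l, hl, hv, hle⟩ := h.core
    (fun T hT => (Finset.card_le_card (t := {φ, G}) fun s hs => by
      simpa using hall s (hT s hs)).trans Finset.card_le_two)
    (few_one_of (l := G) (by
      intro s hs
      refine (hall s (hs.mono (Finset.insert_subset_insert _ Finset.subset_union_left))).resolve_left
        ?_
      rintro rfl
      obtain ⟨-, ρ, hρ, h1, h2, h3⟩ := hs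
      obtain ⟨j, hj, h0⟩ := hnz ρ hρ
        (h1.mono (Finset.insert_subset_insert _ Finset.subset_union_left)) h2 h3
      refine h0 (h1 j (h.ES hj) fun hm => ?_)
      rcases Finset.mem_insert.mp hm with e | e
      · exact h.c_E (e ▸ hj)
      · exact Finset.disjoint_left.mp (h.dI hn.le) e hj))
  obtain rfl : l = G := by
    obtain ⟨v1, v2, v3⟩ := h.x_vert l (show α + 1 ≤ n by omega)
    have hs : Sup S κ (UU t β c E) (κ.B c + l • (ε (α + 1) - ε 0)) :=
      h.supU.mpr fun i h1 h2 => by rw [v3 i h2, if_neg (by omega)]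
    have va : κ.x (t α) (κ.B c + l • (ε (α + 1) - ε 0)) = l := by
      rw [v3 α (by omega), if_pos (by omega)]
    refine (hall l ⟨hl, _, hv _ (by omega), hs, v1, va⟩).resolve_left ?_
    rintro rfl
    obtain ⟨j, hj, h0⟩ := hnz _ (hv _ (by omega)) hs v1 va
    exact h0 (v2 j hj)
  obtain ⟨φ0, ρφ, hρφ, sφ, cφ, aφ⟩ := hφ
  have supI : ∀ v, (∀ p < n + 1, p ∉ Finset.range (α + 1) → p ∉ Finset.Ico (α + 1) (β + 1) →
      yy κ t n c l p v = 0) ↔ Sup S κ (UU t β c E) v := fun v => by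
    rw [h.supU_iff (l := l)]
    simp only [Finset.mem_range, Finset.mem_Ico]
    exact ⟨fun hs p hp hβ => hs p hp (by omega) (by omega), fun hs p hp h1 h2 => hs p hp (by omega)⟩
  obtain ⟨e1, e2, e3⟩ := btype (h.smp hl hv hle) (I1 := Finset.range (α + 1))
    (I2 := Finset.Ico (α + 1) (β + 1)) (Finset.range_subset_range.mpr (by omega))
    (fun p hp => Finset.mem_range.mpr (by have := Finset.mem_Ico.mp hp; omega))
    (Finset.disjoint_left.mpr fun p hp hp' => by
      have := Finset.mem_range.mp hp; have := Finset.mem_Ico.mp hp'; omega)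
    (by rw [Finset.card_range]; omega) (by rw [Nat.card_Ico]; omega) (φ := φ / l)
    (div_pos φ0 hl) ((div_lt_one hl).mpr hlt)
    (by
      rintro _ ⟨-, ρ, hρ, rfl⟩ h1 h2
      simp only [h.yy_proj, yy_tot] at h1 h2 ⊢
      have hs := (supI ρ).mp h2
      rw [h.sumI2 hs]
      have hc : 0 < κ.x c ρ := (mul_pos_iff_of_pos_left hl).mp (by rw [h1]; exact one_pos)
      rcases (h.ch.nonneg hρ h.hc hc _ (h.pth.mem α (by omega))).lt_or_eq with e | e
      · right
        have hc' : κ.x c ρ = l⁻¹ := eq_inv_of_mul_eq_one_right h1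
        rcases hall _ (slope_of_root hR hρ hs e hc) with e' | e' <;>
          rw [hc', div_inv_eq_mul] at e'
        · left
          rw [← e']
          field_simp
        · right
          exact mul_right_cancel₀ hl.ne' (by rw [e', one_mul])
      · exact Or.inl e.symm)
    ⟨proj S κ E (l⁻¹ • ρφ), h.ch.proj_mem (hR.smul _ hρφ _ (inv_pos.mpr hl).ne') h.hc h.c_E
      (by rw [map_smul, cφ]; simp [hl.ne']), by
        simp only [h.yy_proj, yy_tot]
        refine ⟨by rw [map_smul, cφ]; simp [hl.ne'], (supI _).mpr (sφ.smul _), ?_⟩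
        rw [h.sumI2 (sφ.smul _), map_smul, aφ, smul_eq_mul, div_eq_inv_mul]⟩
  have hmid : ∀ p < n + 1, ∀ q < n + 1, p ≠ q → ∃ ρ ∈ R, Mid κ t n c l p q ρ := by
    intro p hp q hq hpq
    obtain ⟨-, ρ, hρ, e⟩ := e2 p hp q hq hpq
    exact ⟨(1 / 2 : ℝ) • ρ, hR.smul _ hρ _ (by norm_num),
      h.mid_of hl hp hq (by rw [map_smul, ← e])⟩
  have hcls : ∀ ρ ∈ R, l * κ.x c ρ = 1 →
      (∃ p < n + 1, ∀ r < n + 1, r ≠ p → yy κ t n c l r ρ = 0) ∨
      ∃ p < n + 1, ∃ q < n + 1, p ≠ q ∧ Mid κ t n c l p q ρ := by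
    intro ρ hρ h1
    rcases e3 _ (h.ch.proj_mem hρ h.hc h.c_E fun e => by rw [e] at h1; simp at h1)
      (by simp only [h.yy_proj, yy_tot]; exact h1) with ⟨p, hp, e⟩ | ⟨p, hp, q, hq, hpq, e⟩
    · exact Or.inl ⟨p, hp, fun r hr hrp => by
        rw [← h.yy_proj, e, h.yy_ee hl hr hp, if_neg hrp]⟩
    · exact Or.inr ⟨p, hp, q, hq, hpq, h.mid_of hl hp hq e⟩
  set η : ι → ℝ := fun j => l⁻¹ * κ.x j ρφ with hη
  have base : ∀ k ≤ α, ∀ ρ ∈ R, Mid κ t n c l k (α + 1) ρ → ∀ j ∈ E, κ.x j ρ = η j := by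
    intro k hk ρ hρ hm j hj
    have hs : Sup S κ (UU t β c E) ρ := (h.supU_iff (l := l)).mpr fun p hp hβ => by
      rw [hm p hp, if_neg (by omega), if_neg (by omega), add_zero]
    have ha : κ.x (t α) ρ = 1 / 2 := by
      rw [← h.sumI2 (l := l) hs, Finset.sum_eq_single (α + 1), hm _ (by omega), if_neg (by omega),
        if_pos rfl, zero_add]
      · intro p hp hne
        have := Finset.mem_Ico.mp hp
        rw [hm p (by omega), if_neg (by omega), if_neg hne, add_zero]
      · intro hn'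
        exact absurd (Finset.mem_Ico.mpr (by omega)) hn'
    have := hnv (l • ρ) (hR.smul _ hρ _ hl.ne') ρφ hρφ (hs.smul _) sφ
      (by rw [map_smul]; exact hm.tot (by omega) (by omega))
      (by rw [map_smul, ha, ← e1, smul_eq_mul]; field_simp) cφ aφ j hj
    rw [map_smul, smul_eq_mul] at this
    simp only [hη]
    rw [← this]
    field_simp
  have hu : ∀ k < n + 1, ∀ q < n + 1, k ≠ q → ∀ ρ ∈ R, Mid κ t n c l k q ρ →
      ∀ j ∈ E, κ.x j ρ = η j := by
    intro k hk q hq hkq ρ hρ hm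
    by_cases e : k ≤ α
    · exact h.uniq hl hmid hcls hk (by omega) (by omega) (base k e) hq hkq hρ hm
    · exact h.uniq hl hmid hcls hk (q0 := 0) (by omega) (by omega) (fun ρ' hρ' hm' =>
        h.uniq hl hmid hcls (k := 0) (by omega) (by omega) (by omega) (base 0 (by omega)) hk
          (by omega) hρ' hm'.symm) hq hkq hρ hm
  set η' : V := ∑ j ∈ E, η j • κ.B j with hη'
  have sη : Sup S κ E η' := h.sumE_sup _
  have midE : ∀ p < n + 1, ∀ q < n + 1, p ≠ q → ∀ ρ ∈ R, Mid κ t n c l p q ρ →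
      ρ = (1 / 2 : ℝ) • ((ee κ ε c l p + η') + (ee κ ε c l q + η')) := by
    intro p hp q hq hpq ρ hρ hm
    refine h.ext hl (Submodule.subset_span hρ) (Submodule.smul_mem _ _ (Submodule.add_mem _
      (Submodule.add_mem _ (h.ee_span hp) (h.sumE_span _))
      (Submodule.add_mem _ (h.ee_span hq) (h.sumE_span _)))) (fun r hr => ?_) fun j hj => ?_
    · rw [hm r hr, map_smul, map_add, map_add, map_add, h.yy_sup sη, h.yy_ee hl hr hp,
        h.yy_ee hl hr hq, smul_eq_mul]
      split_ifs <;> norm_num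
    · rw [hu p hp q hq hpq ρ hρ hm j hj, map_smul, map_add, map_add, map_add, h.xE_ee hp hj,
        h.xE_ee hq hj, h.sumE_x _ hj, smul_eq_mul]
      ring
  have cee : ∀ p < n + 1, l * κ.x c (ee κ ε c l p) = 1 := fun p hp => by
    rw [← XX_zero (t := t) (n := n), h.XX_ee hl (by omega) (by omega), if_pos (Nat.zero_le _)]
  have supE : ∀ ρ ∈ R, (∀ p < n + 1, yy κ t n c l p ρ = 0) → Sup S κ E ρ := by
    intro ρ _ h0
    rw [← h.ch.proj_eq_zero, h.proj_eq hl]
    exact Finset.sum_eq_zero fun p hp => by rw [h0 p (Finset.mem_range.mp hp), zero_smul]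
  have hD : HD R (n + 1) (fun p => ee κ ε c l p + η') (yy κ t n c l) E
      ⟨κ.B, fun j => κ.x j - η j • (l • κ.x c)⟩ (t 0) c := by
    refine ⟨hR, by omega, h.c_path 0 (by omega), h.path_E 0 (by omega), h.c_E,
      fun p hp q hq => ?_, fun p _ j hj => h.yy_sup (h.ch.sup_B (h.ES hj) hj) p,
      fun j hj p hp => ?_, ⟨fun i hi j hj => ?_, fun j hj => ⟨h.ch.mem j (h.ES hj), fun p _ =>
        h.yy_sup (h.ch.sup_B (h.ES hj) hj) p⟩, fun ρ hρ => ?_, fun ρ hρ => ?_⟩, fun ρ hρ => ?_,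
      fun p hp q hq hpq => ⟨?_, ?_⟩, fun ρ hρ => ?_, fun j hj => ?_⟩
    · rw [map_add, h.yy_sup sη, add_zero, h.yy_ee hl hp hq]
    · simp only [LinearMap.sub_apply, LinearMap.smul_apply, smul_eq_mul, map_add]
      rw [h.xE_ee hp hj, h.sumE_x _ hj, cee p hp, sη c h.hc h.c_E]
      ring
    · simp only [LinearMap.sub_apply, LinearMap.smul_apply, smul_eq_mul]
      rw [h.ch.sup_B (h.ES hj) hj c h.hc h.c_E, h.ch.dual i (h.ES hi) j (h.ES hj)]
      simp
    · have hs := supE ρ hρ.1 hρ.2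
      simp only [LinearMap.sub_apply, LinearMap.smul_apply, smul_eq_mul, hs c h.hc h.c_E, mul_zero,
        sub_zero]
      exact h.ch.repr_sup h.ES hρ.1 hs
    · have hs := supE ρ hρ.1 hρ.2
      simp only [LinearMap.sub_apply, LinearMap.smul_apply, smul_eq_mul, hs c h.hc h.c_E, mul_zero,
        sub_zero]
      rcases h.ch.sign ρ hρ.1 with e | e
      · exact Or.inl fun i hi => e i (h.ES hi)
      · exact Or.inr fun i hi => e i (h.ES hi)
    · simp only [smul_add, Finset.sum_add_distrib]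
      rw [← Finset.sum_smul, yy_tot]
      refine h.ext hl (Submodule.subset_span hρ) (Submodule.add_mem _ (Submodule.add_mem _
        (h.sum_span _) (Submodule.smul_mem _ _ (h.sumE_span _))) (h.sumE_span _))
        (fun r hr => ?_) fun j hj => ?_
      · rw [map_add, map_add, h.yy_sum hl _ hr, h.yy_sup (sη.smul _), h.yy_sup (h.sumE_sup _)]
        ring
      · rw [map_add, map_add, h.xE_sum _ hj, map_smul, h.sumE_x _ hj, h.sumE_x _ hj]
        simp only [LinearMap.sub_apply, LinearMap.smul_apply, smul_eq_mul]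
        ring
    · rw [add_sub_add_right_eq_sub, ee_sub]
      exact h.path.root p (by omega) q (by omega) hpq
    · obtain ⟨ρ, hρ, hm⟩ := hmid p hp q hq hpq
      have := hR.smul _ hρ 2 (by norm_num)
      rw [midE p hp q hq hpq ρ hρ hm, smul_smul] at this
      simpa using this
    · by_cases h0 : κ.x c ρ = 0
      · rcases h.root0 hρ h0 with ⟨p, hp, q, hq, hpq, s, -, e⟩ | hs
        · exact Or.inl ⟨p, by omega, q, by omega, hpq, s, Or.inl (by
            rw [add_sub_add_right_eq_sub, ee_sub]; exact e)⟩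
        · exact Or.inr ⟨0, by omega, fun q _ _ => h.yy_sup hs q⟩
      · have h1 : l * κ.x c ρ ≠ 0 := mul_ne_zero hl.ne' h0
        have hρ' := hR.smul _ hρ _ (inv_ne_zero h1)
        rcases hcls _ hρ' (by rw [map_smul, smul_eq_mul]; field_simp) with
          ⟨p, hp, hz⟩ | ⟨p, hp, q, hq, hpq, hm⟩
        · refine Or.inr ⟨p, hp, fun q hq hqp => ?_⟩
          have := hz q hq hqp
          rw [map_smul, smul_eq_zero] at this
          exact this.resolve_left (inv_ne_zero h1)
        · refine Or.inl ⟨p, hp, q, hq, hpq, l * κ.x c ρ * (1 / 2), Or.inr ?_⟩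
          rw [mul_smul, ← midE p hp q hq hpq _ hρ' hm, smul_smul, mul_inv_cancel₀ h1, one_smul]
    · by_cases h0 : η j = 0
      · obtain ⟨τ, hτ, hs, hpos⟩ := full hR h.ch (Finset.insert_subset h.hc h.ES)
          (h.touchE.conn h.connE) ⟨c, Finset.mem_insert_self _ _⟩
        refine ⟨τ, hτ, 0, by omega, ?_, ?_⟩
        · rw [yy_apply, XX_zero, XX_succ (by omega), hs _ (h.pth.mem 0 (by omega))
            (by simp [h.c_path 0 (by omega), h.path_E 0 (by omega)]), sub_zero]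
          exact (mul_pos hl (hpos c (Finset.mem_insert_self _ _))).ne'
        · simp only [h0, zero_smul, sub_zero]
          exact (hpos j (Finset.mem_insert_of_mem hj)).ne'
      · refine ⟨_, h.ch.mem c h.hc, 0, by omega, ?_, ?_⟩
        · rw [yy_apply, XX_zero, XX_succ (by omega), h.ch.x_self h.hc,
            h.ch.x_ne (h.pth.mem 0 (by omega)) h.hc (h.c_path 0 (by omega))]
          simpa using hl.ne'
        · simp only [LinearMap.sub_apply, LinearMap.smul_apply, smul_eq_mul]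
          rw [h.ch.x_self h.hc, h.ch.x_ne (h.ES hj) h.hc (fun e' => h.c_E (e' ▸ hj))]
          simpa using ⟨h0, hl.ne'⟩
  have hcard : S.card = n + 1 + E.card := by
    rw [h.cover, Finset.range_eq_Ico, Finset.card_insert_of_notMem (by
      simp only [Finset.mem_union, not_or]; exact ⟨h.cI le_rfl, h.c_E⟩),
      Finset.card_union_of_disjoint (h.dI le_rfl), card_image_Ico h.pth.inj le_rfl]
    omega
  rw [hcard]
  exact hD.typeD

theorem classify (h : G4 R S κ t n ε α β c E) : TypeA R S.card ∨ TypeD R S.card := by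
  rcases h.tri_out with h1 | ⟨φ, G, h1, h2, h3, h4⟩
  · exact Or.inl (h.caseA h1)
  right
  by_cases hz : ∀ ρ ∈ R, Sup S κ (UU t β c E) ρ → κ.x c ρ = 1 → κ.x (t α) ρ = φ →
      ∃ j ∈ E, κ.x j ρ ≠ 0
  · exact h.caseD h1 h2 h3 h4 hz
  push Not at hz
  obtain ⟨ρ0, hρ0, s0, c0, a0, z0⟩ := hz
  obtain ⟨κ', h', hx, M, hM⟩ := h.flip
  have hα : α < n := by have := h.hβ; have := h.hn; omega
  have sup : ∀ ρ ∈ R, Sup S κ' (UU t β c E) ρ ↔ Sup S κ (UU t β c E) ρ := fun ρ hρ => by
    rw [h.supU, h'.supU]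
    exact ⟨fun hs i h1 h2 => by rw [← (hx ρ hρ).2 i h2, hs i h1 h2],
      fun hs i h1 h2 => by rw [(hx ρ hρ).2 i h2, hs i h1 h2]⟩
  have slo : ∀ s, Slope R S κ' (UU t β c E) (t α) c s ↔ Slope R S κ (UU t β c E) (t α) c s :=
    fun s => ⟨fun ⟨p, ρ, hρ, q1, q2, q3⟩ => ⟨p, ρ, hρ, (sup ρ hρ).mp q1, by rwa [← (hx ρ hρ).1],
      by rwa [← (hx ρ hρ).2 α hα]⟩, fun ⟨p, ρ, hρ, q1, q2, q3⟩ => ⟨p, ρ, hρ, (sup ρ hρ).mpr q1,
      by rwa [(hx ρ hρ).1], by rwa [(hx ρ hρ).2 α hα]⟩⟩
  have val : ∀ ρ ∈ R, Sup S κ' (UU t β c E) ρ → κ'.x c ρ = 1 → κ'.x (t α) ρ = φ →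
      ∀ j ∈ E, κ'.x j ρ = M j := by
    intro ρ hρ q1 q2 q3 j hj
    rw [(hx ρ hρ).1] at q2
    rw [(hx ρ hρ).2 α hα] at q3
    rw [(hM j hj).2 ρ hρ, h4 ρ hρ ρ0 hρ0 ((sup ρ hρ).mp q1) s0 q2 q3 c0 a0 j hj, z0 j hj, q2]
    ring
  refine h'.caseD h1 ((slo φ).mpr h2) (fun s hs => h3 s ((slo s).mp hs))
    (fun ρ hρ ρ' hρ' q1 q1' q2 q3 q2' q3' j hj => by
      rw [val ρ hρ q1 q2 q3 j hj, val ρ' hρ' q1' q2' q3' j hj]) fun ρ hρ q1 q2 q3 => ?_
  obtain ⟨j, hj⟩ : E.Nonempty := Finset.card_pos.mp (by have := h.cardE; omega)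
  exact ⟨j, hj, by rw [val ρ hρ q1 q2 q3 j hj]; exact (hM j hj).1.ne'⟩

end G4

end

end Pool.Agent.SimpArr
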