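import Pool.Agent.P.MP_0b4c38_co.Growth

/-! Simplicial root systems: the parts of a good configuration, paths and threads. -/

set_option autoImplicit false

open Classical

namespace Pool.Agent.SimpArr

variable {V : Type} [AddCommGroup V] [Module ℝ V] {ι : Type}
variable {R : Set V} {S : Finset ι} {κ : Fam ι V}

/-- The node `x` has a neighbour in `Q`. -/
def Touch (R : Set V) (S : Finset ι) (κ : Fam ι V) (x : ι) (Q : Finset ι) : Prop :=
  ∃ y ∈ Q, Adj R S κ x y

theorem Touch.conn {x : ι} {Q : Finset ι} (h : Touch R S κ x Q) (hQ : Conn R S κ Q) :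
    Conn R S κ (insert x Q) := by
  obtain ⟨y, hy, hadj⟩ := h
  exact hQ.insert hy hadj.symm

namespace GP

variable {a b c : ι} {P : Finset (Finset ι)} {L : ℕ}

theorem swap (h : GP R S κ a b c P L) : GP R S κ a c b P L where
  sys := h.sys
  ch := h.ch
  conn := h.conn
  ha := h.ha
  hb := h.hc
  hc := h.hb
  ab := h.ac
  ac := h.ab
  bc := h.bc.symm
  cover := fun v hv => by have := h.cover v hv; tauto
  sub := fun Q hQ => by have := h.sub Q hQ; tauto
  connQ := h.connQ
  card := h.card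
  hL := h.hL
  sep := h.sep
  nolink := fun hl => h.nolink (by
    have : (S \ {a, b, c}) = S \ {a, c, b} := by rw [Finset.pair_comm b c]
    rw [this]; exact hl.symm)

theorem not_adj (h : GP R S κ a b c P L) : ¬ Adj R S κ b c := fun ha => h.nolink (ha.link _)

theorem nonempty (h : GP R S κ a b c P L) {Q : Finset ι} (hQ : Q ∈ P) : Q.Nonempty :=
  Finset.card_pos.mp (lt_of_lt_of_le h.hL (h.card Q hQ))

theorem not_both (h : GP R S κ a b c P L) {Q : Finset ι} (hQ : Q ∈ P) (h1 : Touch R S κ b Q)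
    (h2 : Touch R S κ c Q) : False := by
  obtain ⟨hQS, haQ, hbQ, hcQ⟩ := h.sub Q hQ
  obtain ⟨y, hy, hadj⟩ := h1
  refine h.nolink (link_of_conn h.sys h.ch
    (Finset.insert_subset h.hb (Finset.insert_subset h.hc hQS))
    ((h2.conn (h.connQ Q hQ)).insert (Finset.mem_insert_of_mem hy) hadj.symm)
    (Finset.mem_insert_self _ _) (Finset.mem_insert_of_mem (Finset.mem_insert_self _ _)) ?_)
  refine Finset.insert_subset_insert _ (Finset.insert_subset_insert _ fun v hv => ?_)
  simp only [Finset.mem_sdiff, Finset.mem_insert, Finset.mem_singleton, not_or]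
  exact ⟨hQS hv, fun e => haQ (e ▸ hv), fun e => hbQ (e ▸ hv), fun e => hcQ (e ▸ hv)⟩

theorem nbr (h : GP R S κ a b c P L) {Q : Finset ι} (hQ : Q ∈ P) {v w : ι} (hv : v ∈ Q)
    (hw : w ∈ S) (hadj : Adj R S κ v w) : w ∈ Q ∨ w = a ∨ w = b ∨ w = c := by
  rcases h.cover w hw with e | e | e | ⟨Q', hQ', hw'⟩
  · tauto
  · tauto
  · tauto
  · by_cases e : Q = Q'
    · exact Or.inl (e ▸ hw')
    · exact absurd hadj ((h.sep Q hQ Q' hQ' e).2 v hv w hw')

theorem touch (h : GP R S κ a b c P L) {Q : Finset ι} (hQ : Q ∈ P) :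
    Touch R S κ a Q ∨ Touch R S κ b Q ∨ Touch R S κ c Q := by
  obtain ⟨u, hu⟩ := h.nonempty hQ
  obtain ⟨hQS, haQ, -, -⟩ := h.sub Q hQ
  obtain ⟨i, -, hi, j, hj, hjQ, hadj⟩ := h.conn.exit (hQS hu) hu h.ha haQ
  rcases h.nbr hQ hi hj hadj with e | e | e | e
  · exact absurd e hjQ
  · exact Or.inl ⟨i, hi, e ▸ hadj.symm⟩
  · exact Or.inr (Or.inl ⟨i, hi, e ▸ hadj.symm⟩)
  · exact Or.inr (Or.inr ⟨i, hi, e ▸ hadj.symm⟩)

/-- `a` and `c` are adjacent or linked through one part. -/
theorem link (h : GP R S κ a b c P L) : ∃ Z ⊆ S, a ∉ Z ∧ b ∉ Z ∧ c ∉ Z ∧ Link R S κ Z a c ∧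
    Conn R S κ (insert a (insert c Z)) ∧
    (Z = ∅ ∨ (Z ∈ P ∧ Touch R S κ a Z ∧ Touch R S κ c Z)) := by
  set A := insert c ((P.filter fun Q => Touch R S κ c Q).biUnion id) with hA
  have haA : a ∉ A := by
    simp only [hA, Finset.mem_insert, Finset.mem_biUnion, Finset.mem_filter, id, not_or]
    exact ⟨h.ac, fun ⟨Q, hQ, ha⟩ => (h.sub Q hQ.1).2.1 ha⟩
  obtain ⟨i, -, hi, j, hj, hjA, hadj⟩ := h.conn.exit h.hc (Finset.mem_insert_self _ _) h.ha haA
  simp only [Finset.mem_insert, Finset.mem_biUnion, Finset.mem_filter, id, not_or] at hi hjA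
  rcases hi with rfl | ⟨Q, ⟨hQ, hcQ⟩, hi⟩
  · rcases h.cover j hj with e | e | e | ⟨Q', hQ', hj'⟩
    · subst e
      exact ⟨∅, by simp, by simp, by simp, by simp, hadj.symm.link _,
        by simpa using hadj.symm.conn, Or.inl rfl⟩
    · exact absurd (e ▸ hadj.symm) h.not_adj
    · exact absurd e hjA.1
    · exact absurd ⟨Q', ⟨hQ', j, hj', hadj⟩, hj'⟩ hjA.2
  · obtain ⟨hQS, haQ, hbQ, hcQ'⟩ := h.sub Q hQ
    rcases h.nbr hQ hi hj hadj with e | e | e | e
    · exact absurd ⟨Q, ⟨hQ, hcQ⟩, e⟩ hjA.2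
    · subst e
      have hcon := (hcQ.conn (h.connQ Q hQ)).insert (Finset.mem_insert_of_mem hi) hadj
      exact ⟨Q, hQS, haQ, hbQ, hcQ', link_of_conn h.sys h.ch
        (Finset.insert_subset h.ha (Finset.insert_subset h.hc hQS)) hcon
        (Finset.mem_insert_self _ _) (Finset.mem_insert_of_mem (Finset.mem_insert_self _ _))
        subset_rfl, hcon, Or.inr ⟨hQ, ⟨i, hi, hadj.symm⟩, hcQ⟩⟩
    · exact (h.not_both hQ ⟨i, hi, e ▸ hadj.symm⟩ hcQ).elim
    · exact absurd e hjA.1

theorem sub_erase (h : GP R S κ a b c P L) {Q : Finset ι} (hQ : Q ∈ P) : Q ⊆ S.erase b :=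
  fun _ hv => Finset.mem_erase.mpr ⟨fun e => (h.sub Q hQ).2.2.1 (e ▸ hv), (h.sub Q hQ).1 hv⟩

/-- A part which does not touch both `a` and `c` is disjoint from the linking set. -/
theorem disj_link (h : GP R S κ a b c P L) {Z Q : Finset ι}
    (hZ : Z = ∅ ∨ (Z ∈ P ∧ Touch R S κ a Z ∧ Touch R S κ c Z)) (hQ : Q ∈ P)
    (hn : ¬ Touch R S κ a Q ∨ ¬ Touch R S κ c Q) : Disjoint Q (insert a (insert c Z)) := by
  obtain ⟨-, haQ, -, hcQ⟩ := h.sub Q hQ
  rw [Finset.disjoint_insert_right, Finset.disjoint_insert_right]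
  refine ⟨haQ, hcQ, ?_⟩
  rcases hZ with rfl | ⟨hZ, h1, h2⟩
  · simp
  · refine (h.sep Q hQ Z hZ ?_).1
    rintro rfl
    tauto

/-- At most one part touches `c` and not `a`. -/
theorem two_c (h : GP R S κ a b c P L) {k : ℕ} (hk : k ≤ L) (hf : Few R S κ (S.erase b) a c k)
    {Q Q' : Finset ι} (hQ : Q ∈ P) (hQ' : Q' ∈ P) (h1 : Touch R S κ c Q) (h2 : Touch R S κ c Q')
    (h3 : ¬ Touch R S κ a Q) (h4 : ¬ Touch R S κ a Q') : Q = Q' := by
  by_contra hne
  obtain ⟨Z, hZS, haZ, hbZ, hcZ, hl, -, hZ⟩ := h.link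
  refine grow2 h.sys h.ch (Finset.erase_subset b S) (W := {c}) (Y := Q) (Y' := Q')
    (Finset.mem_erase.mpr ⟨h.ab, h.ha⟩) (Finset.mem_erase.mpr ⟨h.bc.symm, h.hc⟩) h.ac
    (fun v hv => Finset.mem_erase.mpr ⟨fun e => hbZ (e ▸ hv), hZS hv⟩) haZ hcZ (by simp)
    (by simp) (conn_singleton _) (h.sub_erase hQ) (h.sub_erase hQ') (h.sep Q hQ Q' hQ' hne).1
    (h.disj_link hZ hQ (Or.inl h3)) (h.disj_link hZ hQ' (Or.inl h4)) ?_ ?_
    (hk.trans (h.card Q hQ)) (hk.trans (h.card Q' hQ')) hl hf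
  · simpa using h1.conn (h.connQ Q hQ)
  · simpa using h2.conn (h.connQ Q' hQ')

/-- At most one part touches `a` and not `c`. -/
theorem two_a (h : GP R S κ a b c P L) {k : ℕ} (hk : k ≤ L) (hf : Few R S κ (S.erase b) a c k)
    {Q Q' : Finset ι} (hQ : Q ∈ P) (hQ' : Q' ∈ P) (h1 : Touch R S κ a Q) (h2 : Touch R S κ a Q')
    (h3 : ¬ Touch R S κ c Q) (h4 : ¬ Touch R S κ c Q') : Q = Q' := by
  by_contra hne
  obtain ⟨Z, hZS, haZ, hbZ, hcZ, hl, -, hZ⟩ := h.link
  refine grow2 h.sys h.ch (Finset.erase_subset b S) (W := {a}) (Y := Q) (Y' := Q')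
    (Finset.mem_erase.mpr ⟨h.bc.symm, h.hc⟩) (Finset.mem_erase.mpr ⟨h.ab, h.ha⟩) h.ac.symm
    (fun v hv => Finset.mem_erase.mpr ⟨fun e => hbZ (e ▸ hv), hZS hv⟩) hcZ haZ (by simp)
    (by simp) (conn_singleton _) (h.sub_erase hQ) (h.sub_erase hQ') (h.sep Q hQ Q' hQ' hne).1
    (by rw [Finset.insert_comm]; exact h.disj_link hZ hQ (Or.inr h3))
    (by rw [Finset.insert_comm]; exact h.disj_link hZ hQ' (Or.inr h4)) ?_ ?_
    (hk.trans (h.card Q hQ)) (hk.trans (h.card Q' hQ')) hl.symm (hf.symm h.sys)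
  · simpa using h1.conn (h.connQ Q hQ)
  · simpa using h2.conn (h.connQ Q' hQ')

end GP

/-- A node together with connected sets that it touches is connected. -/
theorem conn_star {x : ι} (P : Finset (Finset ι)) (h1 : ∀ Q ∈ P, Conn R S κ Q)
    (h2 : ∀ Q ∈ P, Touch R S κ x Q) : Conn R S κ (insert x (P.biUnion id)) := by
  induction P using Finset.induction_on with
  | empty => simpa using conn_singleton x
  | insert Q P _ ih =>
    have e1 := ih (fun Q' h => h1 Q' (Finset.mem_insert_of_mem h))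
      fun Q' h => h2 Q' (Finset.mem_insert_of_mem h)
    have e2 := (h2 Q (Finset.mem_insert_self _ _)).conn (h1 Q (Finset.mem_insert_self _ _))
    convert e2.union e1 (Finset.mem_insert_self _ _) (Finset.mem_insert_self _ _) using 1
    ext v
    simp only [Finset.biUnion_insert, id, Finset.mem_insert, Finset.mem_union]
    tauto

theorem Path.rev {w : ℕ → ι} {n : ℕ} (h : Path R S κ w n) :
    Path R S κ (fun i => w (n - 1 - i)) n where
  inj := fun i hi j hj e => by
    have := h.inj _ (by omega) _ (by omega) e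
    omega
  mem := fun i hi => h.mem _ (by omega)
  adj := fun i hi => by
    have := (h.adj (n - 1 - (i + 1)) (by omega)).symm
    rwa [show n - 1 - (i + 1) + 1 = n - 1 - i by omega] at this
  only := fun i hi j hj e => by
    have := h.only _ (by omega) _ (by omega) e
    omega

theorem image_rev (w : ℕ → ι) (n : ℕ) :
    (Finset.range n).image (fun i => w (n - 1 - i)) = (Finset.range n).image w := by
  ext v
  simp only [Finset.mem_image, Finset.mem_range]
  constructor
  · rintro ⟨i, hi, rfl⟩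
    exact ⟨_, by omega, rfl⟩
  · rintro ⟨i, hi, rfl⟩
    exact ⟨n - 1 - i, by omega, by rw [show n - 1 - (n - 1 - i) = i by omega]⟩

theorem Path.pend {w : ℕ → ι} {n N : ℕ} (h : Path R S κ w n) (hN : N ≤ n) (h2 : 2 ≤ N)
    (hcl : ∀ i, i + 1 < N → ∀ v ∈ S, Adj R S κ (w i) v → v ∈ (Finset.range n).image w) :
    Pend R S κ w N := by
  refine ⟨⟨fun i hi j hj => h.inj i (by omega) j (by omega), fun i hi => h.mem i (by omega),
    fun i hi => h.adj i (by omega), fun i hi v hv hadj => ?_⟩, fun v hv hadj => ?_⟩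
  · obtain ⟨j, hj, rfl⟩ := Finset.mem_image.mp (hcl (i + 1) (by omega) v hv hadj)
    rcases h.only _ (by omega) _ (Finset.mem_range.mp hj) hadj with e | e
    · exact Or.inr (by rw [e])
    · exact Or.inl (by rw [show j = i by omega])
  · obtain ⟨j, hj, rfl⟩ := Finset.mem_image.mp (hcl 0 (by omega) v hv hadj)
    rcases h.only _ (by omega) _ (Finset.mem_range.mp hj) hadj with e | e
    · rw [e]
    · omega

theorem card_image_Ico {w : ℕ → ι} {n p q : ℕ} (hinj : ∀ i < n, ∀ j < n, w i = w j → i = j)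
    (hq : q ≤ n) : ((Finset.Ico p q).image w).card = q - p := by
  rw [Finset.card_image_of_injOn, Nat.card_Ico]
  intro i hi j hj e
  have h1 := (Finset.mem_Ico.mp (Finset.mem_coe.mp hi)).2
  have h2 := (Finset.mem_Ico.mp (Finset.mem_coe.mp hj)).2
  exact hinj i (by omega) j (by omega) e

theorem mem_image_Ico {w : ℕ → ι} {n p q i : ℕ} (hinj : ∀ i < n, ∀ j < n, w i = w j → i = j)
    (hq : q ≤ n) (hi : i < n) : w i ∈ (Finset.Ico p q).image w ↔ p ≤ i ∧ i < q := by
  simp only [Finset.mem_image, Finset.mem_Ico]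
  constructor
  · rintro ⟨j, hj, e⟩
    rwa [hinj j (by omega) i hi e] at hj
  · intro h
    exact ⟨i, h, rfl⟩

/-- A path part touching only `c` contains a long thread with a free end. -/
theorem GP.pend {a b c : ι} {P : Finset (Finset ι)} {L : ℕ} (h : GP R S κ a b c P L)
    (hf : Few R S κ (S.erase b) a c 3) {w : ℕ → ι} {n : ℕ} (hw : Path R S κ w n) (hn : 30 ≤ n)
    (hQ : (Finset.range n).image w ∈ P) (h1 : ¬ Touch R S κ a ((Finset.range n).image w))
    (h2 : Touch R S κ c ((Finset.range n).image w)) : ∃ z, Pend R S κ z 28 := by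
  set Q := (Finset.range n).image w with hQdef
  obtain ⟨Z, hZS, haZ, hbZ, hcZ, hl, -, hZ⟩ := h.link
  have hdis := h.disj_link hZ hQ (Or.inl h1)
  have hsub : ∀ p q, q ≤ n → (Finset.Ico p q).image w ⊆ Q := fun p q hq =>
    Finset.image_subset_image fun i hi => Finset.mem_range.mpr (by
      have := (Finset.mem_Ico.mp hi).2; omega)
  have hcon : ∀ p q, q ≤ n → Conn R S κ ((Finset.Ico p q).image w) := fun p q hq =>
    conn_Ico fun i _ h2 => hw.adj i (by omega)
  have haU : a ∈ S.erase b := Finset.mem_erase.mpr ⟨h.ab, h.ha⟩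
  have hcU : c ∈ S.erase b := Finset.mem_erase.mpr ⟨h.bc.symm, h.hc⟩
  have hZU : Z ⊆ S.erase b := fun v hv => Finset.mem_erase.mpr ⟨fun e => hbZ (e ▸ hv), hZS hv⟩
  have hdI : ∀ p q p' q', q ≤ n → q' ≤ n → q ≤ p' →
      Disjoint ((Finset.Ico p q).image w) ((Finset.Ico p' q').image w) := by
    intro p q p' q' hq hq' hle
    rw [Finset.disjoint_left]
    intro v hv hv'
    obtain ⟨i, hi, rfl⟩ := Finset.mem_image.mp hv
    have := Finset.mem_Ico.mp hi
    have := (mem_image_Ico hw.inj hq' (by omega)).mp hv'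
    omega
  have mid : ∀ i, 3 ≤ i → i + 3 < n → ¬ Adj R S κ c (w i) := by
    intro i h3 h4 hadj
    have hwi : w i ∈ Q := Finset.mem_image_of_mem _ (Finset.mem_range.mpr (by omega))
    have ni := Finset.disjoint_left.mp hdis hwi
    simp only [Finset.mem_insert, not_or] at ni
    have dis : ∀ p q, q ≤ n → ¬ (p ≤ i ∧ i < q) →
        Disjoint ((Finset.Ico p q).image w) (insert a (insert c (insert (w i) Z))) := by
      intro p q hq hn'
      rw [Finset.insert_comm c, Finset.insert_comm a, Finset.disjoint_insert_right]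
      exact ⟨fun hm => hn' ((mem_image_Ico hw.inj hq (by omega)).mp hm),
        Finset.disjoint_of_subset_left (hsub p q hq) hdis⟩
    refine grow2 h.sys h.ch (Finset.erase_subset b S) (Z := insert (w i) Z) (W := {c, w i})
      (Y := (Finset.Ico (i - 3) i).image w) (Y' := (Finset.Ico (i + 1) (i + 4)).image w)
      haU hcU h.ac (Finset.insert_subset (h.sub_erase hQ hwi) hZU)
      (by simp [haZ, Ne.symm ni.1]) (by simp [hcZ, Ne.symm ni.2.1]) (by simp) (by simp) hadj.conn
      ((hsub _ _ (by omega)).trans (h.sub_erase hQ)) ((hsub _ _ (by omega)).trans (h.sub_erase hQ))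
      (hdI _ _ _ _ (by omega) (by omega) (by omega)) (dis _ _ (by omega) (by omega))
      (dis _ _ (by omega) (by omega)) ?_ ?_ (by rw [card_image_Ico hw.inj (by omega)]; omega)
      (by rw [card_image_Ico hw.inj (by omega)]; omega) (hl.mono (Finset.subset_insert _ _)) hf
    · refine hadj.conn.union_adj (hcon _ _ (by omega)) (i := w i) (j := w (i - 1)) (by simp)
        ((mem_image_Ico hw.inj (by omega) (by omega)).mpr (by omega)) ?_
      have := (hw.adj (i - 1) (by omega)).symm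
      rwa [show i - 1 + 1 = i by omega] at this
    · exact hadj.conn.union_adj (hcon _ _ (by omega)) (i := w i) (j := w (i + 1)) (by simp)
        ((mem_image_Ico hw.inj (by omega) (by omega)).mpr (by omega)) (hw.adj i (by omega))
  have ends : ∀ i j, i < 3 → n ≤ j + 3 → j < n → Adj R S κ c (w i) → ¬ Adj R S κ c (w j) := by
    intro i j h3 h4 h5 hi hj
    refine grow2 h.sys h.ch (Finset.erase_subset b S) (Z := Z) (W := {c})
      (Y := (Finset.Ico 0 3).image w) (Y' := (Finset.Ico (n - 3) n).image w)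
      haU hcU h.ac hZU haZ hcZ (by simp) (by simp) (conn_singleton _)
      ((hsub _ _ (by omega)).trans (h.sub_erase hQ)) ((hsub _ _ (by omega)).trans (h.sub_erase hQ))
      (hdI _ _ _ _ (by omega) (by omega) (by omega))
      (Finset.disjoint_of_subset_left (hsub _ _ (by omega)) hdis)
      (Finset.disjoint_of_subset_left (hsub _ _ (by omega)) hdis) ?_ ?_
      (by rw [card_image_Ico hw.inj (by omega)]) (by rw [card_image_Ico hw.inj (by omega)]; omega)
      hl hf
    · exact (conn_singleton c).union_adj (hcon _ _ (by omega)) (i := c) (j := w i) (by simp)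
        ((mem_image_Ico hw.inj (by omega) (by omega)).mpr (by omega)) hi
    · exact (conn_singleton c).union_adj (hcon _ _ (by omega)) (i := c) (j := w j) (by simp)
        ((mem_image_Ico hw.inj (by omega) (by omega)).mpr (by omega)) hj
  have cl : ∀ i < n, ¬ Adj R S κ c (w i) → ∀ v ∈ S, Adj R S κ (w i) v → v ∈ Q := by
    intro i hi hn' v hv hadj
    have hwi : w i ∈ Q := Finset.mem_image_of_mem _ (Finset.mem_range.mpr hi)
    rcases h.nbr hQ hwi hv hadj with e | e | e | e
    · exact e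
    · exact absurd ⟨_, hwi, e ▸ hadj.symm⟩ h1
    · exact (h.not_both hQ ⟨_, hwi, e ▸ hadj.symm⟩ h2).elim
    · exact absurd (e ▸ hadj.symm) hn'
  by_cases hlow : ∃ i < 3, Adj R S κ c (w i)
  · obtain ⟨i0, hi0, hadj0⟩ := hlow
    refine ⟨_, hw.rev.pend (by omega) (by omega) fun i hi v hv hadj => ?_⟩
    rw [image_rev]
    refine cl _ (by omega) (fun hc => ?_) v hv hadj
    by_cases e : n - 1 - i + 3 < n
    · exact mid _ (by omega) e hc
    · exact ends i0 _ hi0 (by omega) (by omega) hadj0 hc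
  · refine ⟨_, hw.pend (by omega) (by omega) fun i hi v hv hadj => ?_⟩
    refine cl _ (by omega) (fun hc => ?_) v hv hadj
    by_cases e : i < 3
    · exact hlow ⟨i, e, hc⟩
    · exact mid i (by omega) (by omega) hc

end Pool.Agent.SimpArr
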