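import Pool.Agent.P.MP_0b4c38_co.Growth

/-! Simplicial root systems: the Euler count in rank three and the good lemma. -/

set_option autoImplicit false

open Classical

namespace Pool.Agent.SimpArr

variable {V : Type} [AddCommGroup V] [Module ℝ V] {ι : Type}
variable {R : Set V} {S : Finset ι} {κ : Fam ι V}

namespace Good

/-- Reindexing of a chamber along a bijection. -/
theorem reidx (h : IsCh R S κ) {ι' : Type} {S' : Finset ι'} {κ' : Fam ι' V} (e : ι' → ι)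
    (he : Set.BijOn e S' S) (hB : ∀ i ∈ S', κ'.B i = κ.B (e i))
    (hx : ∀ i ∈ S', κ'.x i = κ.x (e i)) : IsCh R S' κ' where
  dual := fun i hi j hj => by
    rw [hx i hi, hB j hj, h.dual _ (he.mapsTo hi) _ (he.mapsTo hj)]
    by_cases hij : i = j
    · simp [hij]
    · rw [if_neg hij, if_neg fun h' => hij (he.injOn hi hj h')]
  mem := fun i hi => by rw [hB i hi]; exact h.mem _ (he.mapsTo hi)
  repr := fun ρ hρ => by
    conv_lhs => rw [h.repr ρ hρ]
    symm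
    refine Finset.sum_nbij e (fun i hi => he.mapsTo hi) he.injOn he.surjOn fun i hi => ?_
    rw [hx i hi, hB i hi]
  sign := fun ρ hρ => by
    rcases h.sign ρ hρ with h1 | h1
    · exact Or.inl fun i hi => by rw [hx i hi]; exact h1 _ (he.mapsTo hi)
    · exact Or.inr fun i hi => by rw [hx i hi]; exact h1 _ (he.mapsTo hi)

/-- A chosen family of coordinates for a finite set of vectors. -/
noncomputable def K (R : Set V) (T : Finset V) : Fam V V :=
  ⟨id, Classical.epsilon fun x => IsCh R T ⟨id, x⟩⟩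

theorem K_B (T : Finset V) (t : V) : (K R T).B t = t := rfl

/-- Normalized chambers. -/
def CS (R : Set V) (φ : V →ₗ[ℝ] ℝ) : Set (Finset V) :=
  {T | (∀ t ∈ T, |φ t| = 1) ∧ IsCh R T (K R T)}

theorem fin_norm (hR : Sys R) (φ : V →ₗ[ℝ] ℝ) : {ρ | ρ ∈ R ∧ |φ ρ| = 1}.Finite := by
  obtain ⟨F, hF⟩ := hR.fin
  refine ((F.finite_toSet.image fun f => (φ f)⁻¹ • f).union
    (F.finite_toSet.image fun f => (-(φ f)⁻¹) • f)).subset ?_
  rintro ρ ⟨hρ, h1⟩
  obtain ⟨f, hf, c, rfl⟩ := hF ρ hρ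
  rw [map_smul, smul_eq_mul] at h1
  rcases (abs_eq zero_le_one).mp h1 with h2 | h2
  · exact Or.inl ⟨f, hf, by rw [eq_inv_of_mul_eq_one_left h2]⟩
  · refine Or.inr ⟨f, hf, ?_⟩
    have h3 : -c = (φ f)⁻¹ := eq_inv_of_mul_eq_one_left (by linarith)
    show (-(φ f)⁻¹) • f = c • f
    rw [← h3, neg_neg]

theorem fin_CS (hR : Sys R) (φ : V →ₗ[ℝ] ℝ) : (CS R φ).Finite := by
  refine ((fin_norm hR φ).toFinset.powerset.finite_toSet).subset ?_
  rintro T ⟨h1, h2⟩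
  rw [Finset.mem_coe, Finset.mem_powerset]
  intro t ht
  rw [Set.Finite.mem_toFinset]
  exact ⟨h2.mem t ht, h1 t ht⟩

/-- Every chamber can be normalized. -/
theorem norm [Nonempty ι] (hR : Sys R) {φ : V →ₗ[ℝ] ℝ} (hφ : ∀ ρ ∈ R, φ ρ ≠ 0) (h : IsCh R S κ) :
    ∃ T ∈ CS R φ, ∀ t ∈ T, ∃ i ∈ S, ∃ μ : ℝ, 0 < μ ∧ t = μ • κ.B i := by
  set μ : ι → ℝ := fun i => if i ∈ S then |φ (κ.B i)|⁻¹ else 1 with hμ
  have hμ0 : ∀ i, 0 < μ i := fun i => by
    by_cases hi : i ∈ S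
    · simp only [hμ, if_pos hi]
      exact inv_pos.mpr (abs_pos.mpr (hφ _ (h.mem i hi)))
    · simp [hμ, hi]
  have h1 := h.scale hR hμ0
  set κ1 := κ.scale μ with hκ1
  have hinj : Set.InjOn κ1.B S := by
    intro i hi j hj hij
    by_contra hne
    have h2 := h1.x_ne hi hj hne
    rw [← hij, h1.x_self hi] at h2
    exact one_ne_zero h2
  have hbij : Set.BijOn κ1.B S (S.image κ1.B : Finset V) := by
    rw [Finset.coe_image]
    exact hinj.bijOn_image
  have hinv := hbij.invOn_invFunOn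
  have h2 : IsCh R (S.image κ1.B)
      (⟨id, fun t => κ1.x (Function.invFunOn κ1.B S t)⟩ : Fam V V) := by
    refine reidx h1 (Function.invFunOn κ1.B S) (hbij.symm hinv.symm) (fun t ht => ?_)
      fun _ _ => rfl
    exact (hinv.2 ht).symm
  refine ⟨S.image κ1.B, ⟨fun t ht => ?_, ?_⟩, fun t ht => ?_⟩
  · obtain ⟨i, hi, rfl⟩ := Finset.mem_image.mp ht
    rw [hκ1, Fam.scale_B, map_smul, smul_eq_mul, abs_mul, abs_of_pos (hμ0 i)]
    simp only [hμ, if_pos hi]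
    exact inv_mul_cancel₀ (abs_pos.mpr (hφ _ (h.mem i hi))).ne'
  · exact Classical.epsilon_spec (p := fun x => IsCh R (S.image κ1.B) ⟨id, x⟩) ⟨_, h2⟩
  · obtain ⟨i, hi, rfl⟩ := Finset.mem_image.mp ht
    exact ⟨i, hi, μ i, hμ0 i, rfl⟩

/-- Two normalized chambers with the same positive roots coincide. -/
theorem uniq {φ : V →ₗ[ℝ] ℝ} {T T' : Finset V} (hT : T ∈ CS R φ) (hT' : T' ∈ CS R φ)
    (h1 : ∀ t ∈ T, ∀ s ∈ T', 0 ≤ (K R T').x s t) (h2 : ∀ s ∈ T', ∀ t ∈ T, 0 ≤ (K R T).x t s) :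
    T ⊆ T' := by
  intro t ht
  have hm : t ∈ R := hT.2.mem t ht
  have e1 := hT'.2.apply_eq hm ((K R T).x t)
  have e0 : (K R T).x t t = 1 := hT.2.x_self ht
  rw [e0] at e1
  obtain ⟨s, hs, hp⟩ := sum_pos_exists (lt_of_lt_of_eq one_pos e1)
  rw [K_B] at hp
  have ha : (K R T').x s t ≠ 0 := fun h => by simp [h] at hp
  have hb : 0 < (K R T).x t s :=
    (mul_pos_iff_of_pos_left (lt_of_le_of_ne (h1 t ht s hs) ha.symm)).mp hp
  have e2 := hT.2.repr s (hT'.2.mem s hs)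
  rw [Finset.sum_eq_single t] at e2
  · rw [K_B] at e2
    have e3 := hT'.1 s hs
    rw [e2, map_smul, smul_eq_mul, abs_mul, hT.1 t ht, mul_one, abs_of_pos hb] at e3
    rw [e3, one_smul] at e2
    exact e2 ▸ hs
  · intro u hu hut
    have e4 := hT'.2.apply_eq hm ((K R T).x u)
    have e5 : (K R T).x u t = 0 := hT.2.x_ne hu ht hut
    rw [e5] at e4
    have e6 := (Finset.sum_eq_zero_iff_of_nonneg fun s hs =>
      mul_nonneg (h1 t ht s hs) (h2 s hs u hu)).mp e4.symm s hs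
    rw [(mul_eq_zero.mp e6).resolve_left ha, zero_smul]
  · intro h
    exact absurd ht h

/-- The class of a flag: the roots which are positive at the ray opposite to the wall. -/
def cls (R : Set V) (fl : Σ _ : Finset V, V) : Set V := {ρ | ρ ∈ R ∧ 0 < (K R fl.1).x fl.2 ρ}

theorem cls_nonneg (hR : Sys R) {φ ψ : V →ₗ[ℝ] ℝ} {T T' : Finset V} {q q' : V}
    (hT : T ∈ CS R φ) (hT' : T' ∈ CS R φ) (hq : q ∈ T) (hq' : q' ∈ T')
    (hd : ∀ t ∈ T, t ≠ q → 0 < ψ t) (hd' : ∀ t ∈ T', t ≠ q' → 0 < ψ t)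
    (he : cls R ⟨T, q⟩ = cls R ⟨T', q'⟩) : ∀ s ∈ T', ∀ t ∈ T, 0 ≤ (K R T).x t s := by
  have hiff : ∀ ρ ∈ R, 0 < (K R T).x q ρ ↔ 0 < (K R T').x q' ρ := fun ρ hρ =>
    ⟨fun h => (he ▸ (⟨hρ, h⟩ : ρ ∈ cls R ⟨T, q⟩) : ρ ∈ cls R ⟨T', q'⟩).2,
      fun h => (he.symm ▸ (⟨hρ, h⟩ : ρ ∈ cls R ⟨T', q'⟩) : ρ ∈ cls R ⟨T, q⟩).2⟩
  intro s hs
  have hm : s ∈ R := hT'.2.mem s hs
  by_cases hsq : s = q'
  · refine hT.2.nonneg hm hq ((hiff s hm).mpr ?_)
    have : (K R T').x q' q' = 1 := hT'.2.x_self hq'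
    rw [hsq, this]
    exact one_pos
  · have e0 : (K R T').x q' s = 0 := hT'.2.x_ne hq' hs (Ne.symm hsq)
    have e1 : (K R T).x q s = 0 := by
      have a1 := (hiff s hm).not.mpr (by rw [e0]; exact lt_irrefl 0)
      have a2 := (hiff (-s) (hR.neg_mem hm)).not.mpr (by rw [map_neg, e0]; simp)
      rw [map_neg] at a2
      linarith
    refine (hT.2.sign s hm).resolve_right fun h1 => ?_
    have e2 := hd' s hs hsq
    rw [hT.2.apply_eq hm] at e2
    refine absurd (Finset.sum_nonpos fun t ht => ?_) (not_le.mpr e2)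
    by_cases htq : t = q
    · rw [htq, e1, zero_mul]
    · exact mul_nonpos_of_nonpos_of_nonneg (h1 t ht) (hd t ht htq).le

theorem cls_inj (hR : Sys R) {φ ψ : V →ₗ[ℝ] ℝ} {T T' : Finset V} {q q' : V}
    (hT : T ∈ CS R φ) (hT' : T' ∈ CS R φ) (hq : q ∈ T) (hq' : q' ∈ T')
    (hd : ∀ t ∈ T, t ≠ q → 0 < ψ t) (hd' : ∀ t ∈ T', t ≠ q' → 0 < ψ t)
    (he : cls R ⟨T, q⟩ = cls R ⟨T', q'⟩) : (⟨T, q⟩ : Σ _ : Finset V, V) = ⟨T', q'⟩ := by
  have h1 := cls_nonneg hR hT hT' hq hq' hd hd' he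
  have h2 := cls_nonneg hR hT' hT hq' hq hd' hd he.symm
  obtain rfl : T = T' := Finset.Subset.antisymm (uniq hT hT' h2 h1) (uniq hT' hT h1 h2)
  have h3 : q ∈ cls R ⟨T, q⟩ := ⟨hT.2.mem q hq, by
    have : (K R T).x q q = 1 := hT.2.x_self hq
    show 0 < (K R T).x q q
    rw [this]
    exact one_pos⟩
  rw [he] at h3
  by_contra hne
  have h4 : (K R T).x q' q = 0 := hT.2.x_ne hq' hq fun e => hne (by rw [e])
  exact h3.2.ne' h4

/-- All flags of normalized chambers. -/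
noncomputable def Fl (hR : Sys R) (φ : V →ₗ[ℝ] ℝ) : Finset (Σ _ : Finset V, V) :=
  (fin_CS hR φ).toFinset.sigma fun T => T

theorem mem_Fl (hR : Sys R) (φ : V →ₗ[ℝ] ℝ) {T : Finset V} {q : V} :
    (⟨T, q⟩ : Σ _ : Finset V, V) ∈ Fl hR φ ↔ T ∈ CS R φ ∧ q ∈ T := by
  simp [Fl]

/-- The number of flags in a class. -/
noncomputable def N (hR : Sys R) (φ : V →ₗ[ℝ] ℝ) (U : Set V) : ℕ :=
  ((Fl hR φ).filter fun fl => cls R fl = U).card

theorem sum_inv_N (hR : Sys R) (φ : V →ₗ[ℝ] ℝ) :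
    ∑ fl ∈ Fl hR φ, ((N hR φ (cls R fl) : ℝ))⁻¹ = (((Fl hR φ).image (cls R)).card : ℝ) := by
  rw [Finset.sum_comp (fun U => ((N hR φ U : ℝ))⁻¹) (cls R), Finset.card_eq_sum_ones,
    Nat.cast_sum]
  refine Finset.sum_congr rfl fun U hU => ?_
  obtain ⟨fl, hfl, rfl⟩ := Finset.mem_image.mp hU
  have h1 : 0 < N hR φ (cls R fl) :=
    Finset.card_pos.mpr ⟨fl, Finset.mem_filter.mpr ⟨hfl, rfl⟩⟩
  have h2 : ((N hR φ (cls R fl) : ℝ)) ≠ 0 := by exact_mod_cast h1.ne'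
  rw [nsmul_eq_mul, Nat.cast_one]
  exact mul_inv_cancel₀ h2

theorem sum_dd (hR : Sys R) (φ ψ : V →ₗ[ℝ] ℝ) :
    ∑ T ∈ (fin_CS hR φ).toFinset, ((T.filter fun q => ∀ t ∈ T, t ≠ q → 0 < ψ t).card : ℝ) ≤
      (((Fl hR φ).image (cls R)).card : ℝ) := by
  have h1 : ((Fl hR φ).filter fun fl => ∀ t ∈ fl.1, t ≠ fl.2 → 0 < ψ t).card ≤
      ((Fl hR φ).image (cls R)).card := by
    refine Finset.card_le_card_of_injOn (cls R) (fun fl hfl => ?_) ?_
    · exact Finset.mem_coe.mpr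
        (Finset.mem_image_of_mem _ (Finset.mem_filter.mp (Finset.mem_coe.mp hfl)).1)
    · rintro ⟨T, q⟩ hfl ⟨T', q'⟩ hfl' he
      obtain ⟨a1, a2⟩ := Finset.mem_filter.mp (Finset.mem_coe.mp hfl)
      obtain ⟨b1, b2⟩ := Finset.mem_filter.mp (Finset.mem_coe.mp hfl')
      rw [mem_Fl] at a1 b1
      exact cls_inj hR a1.1 b1.1 a1.2 b1.2 a2 b2 he
  have h2 : ((Fl hR φ).filter fun fl => ∀ t ∈ fl.1, t ≠ fl.2 → 0 < ψ t).card =
      ∑ T ∈ (fin_CS hR φ).toFinset, (T.filter fun q => ∀ t ∈ T, t ≠ q → 0 < ψ t).card := by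
    rw [Finset.card_filter, Fl, Finset.sum_sigma]
    exact Finset.sum_congr rfl fun T _ => (Finset.card_filter _ _).symm
  rw [h2] at h1
  exact_mod_cast h1

theorem dd_ge {ψ : V →ₗ[ℝ] ℝ} {T : Finset V} (h3 : T.card = 3) (hψ : ∀ t ∈ T, ψ t ≠ 0) :
    1 ≤ (T.filter fun q => ∀ t ∈ T, t ≠ q → 0 < ψ t).card +
      (T.filter fun q => ∀ t ∈ T, t ≠ q → 0 < (-ψ) t).card := by
  obtain ⟨a, b, c, hab, hac, hbc, rfl⟩ := Finset.card_eq_three.mp h3
  by_contra hcon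
  have h1 : (({a, b, c} : Finset V).filter fun q =>
      ∀ t ∈ ({a, b, c} : Finset V), t ≠ q → 0 < ψ t) = ∅ := Finset.card_eq_zero.mp (by omega)
  have h2 : (({a, b, c} : Finset V).filter fun q =>
      ∀ t ∈ ({a, b, c} : Finset V), t ≠ q → 0 < (-ψ) t) = ∅ := Finset.card_eq_zero.mp (by omega)
  rw [Finset.filter_eq_empty_iff] at h1 h2
  have a1 := h1 (x := a) (by simp)
  have b1 := h1 (x := b) (by simp)
  have c1 := h1 (x := c) (by simp)
  have a2 := h2 (x := a) (by simp)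
  have b2 := h2 (x := b) (by simp)
  have c2 := h2 (x := c) (by simp)
  have ha := hψ a (by simp)
  have hb := hψ b (by simp)
  have hc := hψ c (by simp)
  simp only [Finset.mem_insert, Finset.mem_singleton, forall_eq_or_imp, forall_eq, ne_eq,
    not_true_eq_false, false_imp_iff, true_and, and_true, hab, hac, hbc, hab.symm, hac.symm,
    hbc.symm, not_false_eq_true, true_imp_iff, LinearMap.neg_apply, neg_pos] at a1 b1 c1 a2 b2 c2
  rcases lt_or_gt_of_ne ha with ha | ha <;> rcases lt_or_gt_of_ne hb with hb | hb <;>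
    rcases lt_or_gt_of_ne hc with hc | hc <;> tauto

/-- The Euler count: some chamber has small classes. -/
theorem euler (hR : Sys R) {φ : V →ₗ[ℝ] ℝ} (hφ : ∀ ρ ∈ R, φ ρ ≠ 0)
    (h3 : ∀ T ∈ CS R φ, T.card = 3) :
    ∃ T ∈ CS R φ, (1 / 2 : ℝ) < ∑ q ∈ T, ((N hR φ (cls R ⟨T, q⟩) : ℝ))⁻¹ := by
  by_contra hcon
  push Not at hcon
  have h1 : ∑ T ∈ (fin_CS hR φ).toFinset, ∑ q ∈ T, ((N hR φ (cls R ⟨T, q⟩) : ℝ))⁻¹ =
      (((Fl hR φ).image (cls R)).card : ℝ) := by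
    rw [← sum_inv_N hR φ]
    exact (Finset.sum_sigma _ _ fun fl : Σ _ : Finset V, V =>
      ((N hR φ (cls R fl) : ℝ))⁻¹).symm
  have h2 := sum_dd hR φ φ
  have h4 := sum_dd hR φ (-φ)
  have h5 : ∑ T ∈ (fin_CS hR φ).toFinset, ∑ q ∈ T, ((N hR φ (cls R ⟨T, q⟩) : ℝ))⁻¹ ≤
      ∑ T ∈ (fin_CS hR φ).toFinset, (1 / 2 : ℝ) :=
    Finset.sum_le_sum fun T hT => hcon T ((Set.Finite.mem_toFinset _).mp hT)
  have h6 : ∑ T ∈ (fin_CS hR φ).toFinset, (1 : ℝ) < ∑ T ∈ (fin_CS hR φ).toFinset,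
      (((T.filter fun q => ∀ t ∈ T, t ≠ q → 0 < φ t).card : ℝ) +
        ((T.filter fun q => ∀ t ∈ T, t ≠ q → 0 < (-φ) t).card : ℝ)) := by
    apply Finset.sum_lt_sum
    · intro T hT
      have hT' := (Set.Finite.mem_toFinset _).mp hT
      exact_mod_cast dd_ge (h3 T hT') fun t ht => hφ t (hT'.2.mem t ht)
    · obtain ⟨T0, κ0, hκ0, hp⟩ := hR.simp φ hφ
      obtain ⟨T, hT, hw⟩ := norm hR hφ hκ0
      refine ⟨T, (Set.Finite.mem_toFinset _).mpr hT, ?_⟩
      have e : (T.filter fun q => ∀ t ∈ T, t ≠ q → 0 < φ t) = T := by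
        refine Finset.filter_true_of_mem fun q _ t ht _ => ?_
        obtain ⟨i, hi, μ, hμ, rfl⟩ := hw t ht
        rw [map_smul, smul_eq_mul]
        exact mul_pos hμ (hp i hi)
      rw [e, h3 T hT]
      have : (0 : ℝ) ≤ ((T.filter fun q => ∀ t ∈ T, t ≠ q → 0 < (-φ) t).card : ℝ) :=
        Nat.cast_nonneg _
      push_cast
      linarith
  rw [Finset.sum_add_distrib] at h6
  simp only [Finset.sum_const, nsmul_eq_mul] at h5 h6
  linarith

/-- Every root on the ray of a flag is a wall of a flag of the same class. -/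
theorem around (hR : Sys R) {φ : V →ₗ[ℝ] ℝ} (hφ : ∀ ρ ∈ R, φ ρ ≠ 0) {T : Finset V}
    (hT : T ∈ CS R φ) {q i j : V} (hTe : T = {q, i, j}) (hqi : q ≠ i) (hqj : q ≠ j) (hij : i ≠ j) :
    ((fin_norm hR φ).toFinset.filter fun u => (K R T).x q u = 0).card ≤
      N hR φ (cls R ⟨T, q⟩) := by
  have hq : q ∈ T := by simp [hTe]
  have hi : i ∈ T := by simp [hTe]
  have hj : j ∈ T := by simp [hTe]
  set xq := (K R T).x q with hxq
  set xi := (K R T).x i with hxi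
  set xj := (K R T).x j with hxj
  have hexp : ∀ ρ ∈ R, ∀ f : V →ₗ[ℝ] ℝ, f ρ = xq ρ * f q + (xi ρ * f i + xj ρ * f j) := by
    intro ρ hρ f
    have h1 := hT.2.apply_eq hρ f
    have h2 : ∀ g : V → ℝ, ∑ t ∈ T, g t = g q + (g i + g j) := fun g => by
      rw [hTe, Finset.sum_insert (by simp [hqi, hqj]), Finset.sum_pair hij]
    rw [h2] at h1
    exact h1
  refine Finset.card_le_card_of_forall_subsingleton
    (fun u fl => u ∈ fl.1 ∧ ∀ t ∈ fl.1, t ≠ u → xq t = 0 → 0 < xi u * xj t - xj u * xi t) ?_ ?_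
  · intro u hu
    obtain ⟨hu1, hu0⟩ := Finset.mem_filter.mp hu
    obtain ⟨huR, hu1⟩ := (Set.Finite.mem_toFinset _).mp hu1
    have huu : φ u * φ u = 1 := by rw [← abs_mul_abs_self, hu1, one_mul]
    set om : V →ₗ[ℝ] ℝ := xi u • xj - xj u • xi with hom
    have homa : ∀ t, om t = xi u * xj t - xj u * xi t := fun t => by simp [hom]
    obtain ⟨ψ, hψ⟩ := hR.lex om (φ u • φ)
    have hψ0 : ∀ ρ ∈ R, ψ ρ ≠ 0 := by
      intro ρ hρ
      obtain ⟨h1, h2, h3⟩ := hψ ρ hρ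
      rcases lt_trichotomy (om ρ) 0 with h | h | h
      · exact (h2 h).ne
      · have h4 : (φ u • φ) ρ ≠ 0 := mul_ne_zero (hφ u huR) (hφ ρ hρ)
        rcases lt_or_gt_of_ne h4 with h' | h'
        · exact ((h3 h).2.1 h').ne
        · exact ((h3 h).1 h').ne'
      · exact (h1 h).ne'
    obtain ⟨T0, κ0, hκ0, hp⟩ := hR.near xq ψ fun ρ hρ _ => hψ0 ρ hρ
    obtain ⟨T', hT', hw⟩ := norm hR hφ hκ0
    have hw1 : ∀ t ∈ T', 0 < xq t ∨ (xq t = 0 ∧ 0 < ψ t) := by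
      intro t ht
      obtain ⟨k, hk, μ, hμ, rfl⟩ := hw t ht
      rw [map_smul, map_smul, smul_eq_mul, smul_eq_mul]
      rcases hp k hk with h | h
      · exact Or.inl (mul_pos hμ h)
      · exact Or.inr ⟨by rw [h.1, mul_zero], mul_pos hμ h.2⟩
    have hf : ∀ t ∈ T', 0 ≤ xq ((K R T').B t) := fun t ht => by
      rcases hw1 t ht with h | h
      · exact h.le
      · exact h.1.ge
    have hw2 : ∀ t ∈ T', t ≠ u → xq t = 0 → 0 < om t := by
      intro t ht htu h0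
      have htR : t ∈ R := hT'.2.mem t ht
      have h1 : 0 < ψ t := ((hw1 t ht).resolve_left (by rw [h0]; exact lt_irrefl 0)).2
      obtain ⟨h2, h3, h4⟩ := hψ t htR
      rcases lt_trichotomy (om t) 0 with h | h | h
      · exact absurd (h3 h) (by linarith)
      · exfalso
        apply htu
        have h5 : 0 < φ u * φ t := by
          have h6 : (φ u • φ) t ≠ 0 := mul_ne_zero (hφ u huR) (hφ t htR)
          rcases lt_or_gt_of_ne h6 with h' | h'
          · exact absurd ((h4 h).2.1 h') (by linarith)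
          · exact h'
        have h7 : φ t = φ u := by
          rcases (abs_eq zero_le_one).mp hu1 with a | a <;>
            rcases (abs_eq zero_le_one).mp (hT'.1 t ht) with b | b <;> rw [a, b] at h5 <;>
            first | exact b.trans a.symm | (norm_num at h5)
        have e1 := hexp u huR φ
        have e2 := hexp t htR φ
        rw [hu0] at e1
        rw [h0, h7] at e2
        rw [homa] at h
        have hne := hφ u huR
        refine hT.2.eq_of_x htR huR fun k hk => ?_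
        rw [hTe] at hk
        simp only [Finset.mem_insert, Finset.mem_singleton] at hk
        rcases hk with rfl | rfl | rfl
        · exact h0.trans hu0.symm
        · refine mul_right_cancel₀ hne ?_
          show xi t * φ u = xi u * φ u
          linear_combination (xi t) * e1 - (xi u) * e2 - φ j * h
        · refine mul_right_cancel₀ hne ?_
          show xj t * φ u = xj u * φ u
          linear_combination (xj t) * e1 - (xj u) * e2 + φ i * h
      · exact h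
    have huT : u ∈ T' := by
      by_contra hn
      obtain ⟨t, ht, hne⟩ := hT'.2.exists_ne hR huR
      have hz : ∀ s ∈ T', (K R T').x s u = 0 ∨ 0 < om ((K R T').B s) := fun s hs => by
        rcases hw1 s hs with h | h
        · exact Or.inl (hT'.2.x_zero_of_ker hf huR hu0 hs h)
        · exact Or.inr (hw2 s hs (fun e => hn (e ▸ hs)) h.1)
      have e0 : om u = 0 := by rw [homa]; ring
      rw [hT'.2.apply_eq huR] at e0
      have e1 := (hz t ht).resolve_left hne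
      rcases hT'.2.sign u huR with h1 | h1
      · have := (Finset.sum_eq_zero_iff_of_nonneg fun s hs => by
          rcases hz s hs with h | h
          · rw [h, zero_mul]
          · exact mul_nonneg (h1 s hs) h.le).mp e0 t ht
        exact mul_ne_zero hne e1.ne' this
      · have := (Finset.sum_eq_zero_iff_of_nonpos fun s hs => by
          rcases hz s hs with h | h
          · rw [h, zero_mul]
          · exact mul_nonpos_of_nonpos_of_nonneg (h1 s hs) h.le).mp e0 t ht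
        exact mul_ne_zero hne e1.ne' this
    have hqR : q ∈ R := hT.2.mem q hq
    obtain ⟨q', hq', hpq⟩ : ∃ q' ∈ T', 0 < xq q' := by
      by_contra hn
      push Not at hn
      have e0 : xq q = 1 := hT.2.x_self hq
      have e1 : xq q = 0 := (hT'.2.apply_eq hqR xq).trans (Finset.sum_eq_zero fun s hs =>
        mul_eq_zero_of_right _ (le_antisymm (hn s hs) (hf s hs)))
      exact zero_ne_one (e1.symm.trans e0)
    have hx' : ∀ ρ ∈ R, (K R T').x q' ρ = xq ρ * (K R T').x q' q := by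
      intro ρ hρ
      have e1 : (K R T').x q' i = 0 :=
        hT'.2.x_zero_of_ker hf (hT.2.mem i hi) (hT.2.x_ne hq hi hqi) hq' hpq
      have e2 : (K R T').x q' j = 0 :=
        hT'.2.x_zero_of_ker hf (hT.2.mem j hj) (hT.2.x_ne hq hj hqj) hq' hpq
      rw [hexp ρ hρ ((K R T').x q'), e1, e2]
      ring
    have hpos : 0 < (K R T').x q' q := by
      have e0 := hx' q' (hT'.2.mem q' hq')
      have e1 : (K R T').x q' q' = 1 := hT'.2.x_self hq'
      rw [e1] at e0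
      exact (mul_pos_iff_of_pos_left hpq).mp (lt_of_lt_of_eq one_pos e0)
    refine ⟨⟨T', q'⟩, Finset.mem_filter.mpr ⟨(mem_Fl hR φ).mpr ⟨hT', hq'⟩, ?_⟩, huT,
      fun t ht htu h0 => (homa t) ▸ hw2 t ht htu h0⟩
    ext ρ
    refine and_congr_right fun hρ => ?_
    show 0 < (K R T').x q' ρ ↔ 0 < xq ρ
    rw [hx' ρ hρ, mul_pos_iff_of_pos_right hpos]
  · rintro fl - u ⟨hu, hu1, hu2⟩ w ⟨hw, hw1, hw2⟩
    by_contra hne
    have a1 := hu2 w hw1 (Ne.symm hne) (Finset.mem_filter.mp (Finset.mem_coe.mp hw)).2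
    have a2 := hw2 u hu1 hne (Finset.mem_filter.mp (Finset.mem_coe.mp hu)).2
    linarith

/-- At most `k` positive slopes on the kernel of `f`. -/
def Fw (R : Set V) (f g g' : V →ₗ[ℝ] ℝ) (k : ℕ) : Prop :=
  ∀ Sl : Finset ℝ, (∀ s ∈ Sl, 0 < s ∧ ∃ ρ ∈ R, f ρ = 0 ∧ g' ρ = 1 ∧ g ρ = s) → Sl.card ≤ k

theorem Fw.zero (hR : Sys R) {f g g' : V →ₗ[ℝ] ℝ} (h : Fw R f g g' 0) {ρ : V} (hρ : ρ ∈ R)
    (h0 : f ρ = 0) (h1 : 0 < g ρ) (h2 : 0 < g' ρ) : False := by
  have := h {g ρ / g' ρ} (by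
    intro s hs
    rw [Finset.mem_singleton.mp hs]
    refine ⟨div_pos h1 h2, (g' ρ)⁻¹ • ρ, hR.smul _ hρ _ (inv_pos.mpr h2).ne', ?_, ?_, ?_⟩
    · rw [map_smul, h0, smul_zero]
    · rw [map_smul, smul_eq_mul, inv_mul_cancel₀ h2.ne']
    · rw [map_smul, smul_eq_mul, div_eq_inv_mul])
  simp at this

theorem rays (hR : Sys R) {φ : V →ₗ[ℝ] ℝ} (hφ : ∀ ρ ∈ R, φ ρ ≠ 0) {f g g' : V →ₗ[ℝ] ℝ}
    {i j : V} (hi : i ∈ R) (hj : j ∈ R) (fi : f i = 0) (fj : f j = 0) (g'i : g' i = 0)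
    (gj : g j = 0) (g'j : g' j = 1) (Sl : Finset ℝ)
    (hSl : ∀ s ∈ Sl, 0 < s ∧ ∃ ρ ∈ R, f ρ = 0 ∧ g' ρ = 1 ∧ g ρ = s) :
    2 * (Sl.card + 2) ≤ ((fin_norm hR φ).toFinset.filter fun u => f u = 0).card := by
  set sl : V → ℝ := fun u => if g' u = 0 then -1 else g u / g' u with hsl
  have key : ∀ ρ ∈ R, f ρ = 0 → ∀ e ∈ ({1, -1} : Finset ℝ),
      (sl ρ, e) ∈ ((fin_norm hR φ).toFinset.filter fun u => f u = 0).image
        fun u => (sl u, φ u) := by
    intro ρ hρ h0 e he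
    have he1 : |e| = 1 := by
      rcases Finset.mem_insert.mp he with rfl | he
      · simp
      · rw [Finset.mem_singleton.mp he]; simp
    have he0 : e ≠ 0 := fun h => by simp [h] at he1
    have hc : e / φ ρ ≠ 0 := div_ne_zero he0 (hφ ρ hρ)
    have hv : φ ((e / φ ρ) • ρ) = e := by
      rw [map_smul, smul_eq_mul, div_mul_cancel₀ _ (hφ ρ hρ)]
    refine Finset.mem_image.mpr ⟨(e / φ ρ) • ρ, Finset.mem_filter.mpr
      ⟨(Set.Finite.mem_toFinset _).mpr ⟨hR.smul _ hρ _ hc, by rw [hv, he1]⟩,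
        by rw [map_smul, h0, smul_zero]⟩, Prod.ext ?_ hv⟩
    simp only [hsl, map_smul, smul_eq_mul, mul_eq_zero, hc, false_or]
    split_ifs with h1
    · rfl
    · exact mul_div_mul_left _ _ hc
  have hsub : (insert (-1) (insert 0 Sl) : Finset ℝ) ×ˢ ({1, -1} : Finset ℝ) ⊆
      ((fin_norm hR φ).toFinset.filter fun u => f u = 0).image fun u => (sl u, φ u) := by
    rintro ⟨s, e⟩ hse
    obtain ⟨hs, he⟩ := Finset.mem_product.mp hse
    rcases Finset.mem_insert.mp hs with h | hs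
    · have e1 : s = sl i := by simp only [hsl, g'i, if_pos]; exact h
      exact e1 ▸ key i hi fi e he
    · rcases Finset.mem_insert.mp hs with h | hs
      · have e1 : s = sl j := by
          simp only [hsl, g'j, gj, one_ne_zero, if_false, zero_div]; exact h
        exact e1 ▸ key j hj fj e he
      · obtain ⟨-, ρ, hρ, h1, h2, h3⟩ := hSl s hs
        have e1 : s = sl ρ := by
          simp only [hsl, h2, h3, one_ne_zero, if_false, div_one]
        exact e1 ▸ key ρ hρ h1 e he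
  have h1 := (Finset.card_le_card hsub).trans Finset.card_image_le
  rw [Finset.card_product, Finset.card_insert_of_notMem, Finset.card_insert_of_notMem,
    Finset.card_pair (by norm_num)] at h1
  · omega
  · exact fun h => lt_irrefl _ (hSl 0 h).1
  · intro h
    rcases Finset.mem_insert.mp h with h | h
    · norm_num at h
    · have := (hSl _ h).1
      norm_num at this

theorem N_ge (hR : Sys R) {φ : V →ₗ[ℝ] ℝ} (hφ : ∀ ρ ∈ R, φ ρ ≠ 0) {T : Finset V}
    (hT : T ∈ CS R φ) {q i j : V} (hTe : T = {q, i, j}) (hqi : q ≠ i) (hqj : q ≠ j) (hij : i ≠ j)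
    (Sl : Finset ℝ) (hSl : ∀ s ∈ Sl, 0 < s ∧ ∃ ρ ∈ R, (K R T).x q ρ = 0 ∧ (K R T).x j ρ = 1 ∧
      (K R T).x i ρ = s) : 2 * (Sl.card + 2) ≤ N hR φ (cls R ⟨T, q⟩) := by
  have hq : q ∈ T := by simp [hTe]
  have hi : i ∈ T := by simp [hTe]
  have hj : j ∈ T := by simp [hTe]
  exact (rays hR hφ (hT.2.mem i hi) (hT.2.mem j hj) (hT.2.x_ne hq hi hqi) (hT.2.x_ne hq hj hqj)
    (hT.2.x_ne hj hi hij.symm) (hT.2.x_ne hi hj hij) (hT.2.x_self hj) Sl hSl).trans
    (around hR hφ hT hTe hqi hqj hij)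

theorem fw_of_lt (hR : Sys R) {φ : V →ₗ[ℝ] ℝ} (hφ : ∀ ρ ∈ R, φ ρ ≠ 0) {T : Finset V}
    (hT : T ∈ CS R φ) {q i j : V} (hTe : T = {q, i, j}) (hqi : q ≠ i) (hqj : q ≠ j) (hij : i ≠ j)
    {k : ℕ} (hk : N hR φ (cls R ⟨T, q⟩) < 2 * (k + 3)) :
    Fw R ((K R T).x q) ((K R T).x i) ((K R T).x j) k := by
  intro Sl hSl
  have := N_ge hR hφ hT hTe hqi hqj hij Sl hSl
  omega

theorem not_both (hR : Sys R) {a b c : ι} (hS : S = {a, b, c}) (hab : a ≠ b) (hac : a ≠ c)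
    (hbc : b ≠ c) (hc : Conn R S κ S) (h1 : Fw R (κ.x a) (κ.x b) (κ.x c) 0)
    (h2 : Fw R (κ.x c) (κ.x a) (κ.x b) 0) : False := by
  obtain ⟨i, hi, j, hj, hj', -, ρ, hρ, p1, p2, hs⟩ := hc {b} (by simp [hS]) ⟨b, by simp⟩ (by
    intro e
    have : a ∈ ({b} : Finset ι) := by rw [e, hS]; simp
    exact hab (Finset.mem_singleton.mp this))
  rw [Finset.mem_singleton] at hi hj'
  subst hi
  rw [hS] at hj
  simp only [Finset.mem_insert, Finset.mem_singleton] at hj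
  rcases hj with rfl | rfl | rfl
  · exact h2.zero hR hρ (hs c (by simp [hS]) (by simp [hac.symm, hbc.symm])) p2 p1
  · exact hj' rfl
  · exact h1.zero hR hρ (hs a (by simp [hS]) (by simp [hab, hac])) p1 p2

theorem inv_le_of_le {n : ℕ} {k : ℕ} (hk : 0 < k) (h : k ≤ n) : ((n : ℝ))⁻¹ ≤ ((k : ℝ))⁻¹ :=
  inv_anti₀ (by exact_mod_cast hk) (by exact_mod_cast h)

/-- The rank three case. -/
theorem rank3 (hR : Sys R) (h : IsCh R S κ) (hc : Conn R S κ S) (h3 : S.card = 3) :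
    ∃ (T : Finset V) (κ' : Fam V V) (a b c : V), IsCh R T κ' ∧ T = {a, b, c} ∧ a ≠ b ∧ a ≠ c ∧
      b ≠ c ∧ Fw R (κ'.x a) (κ'.x b) (κ'.x c) 0 ∧ Fw R (κ'.x c) (κ'.x a) (κ'.x b) 1 ∧
      Fw R (κ'.x b) (κ'.x a) (κ'.x c) 3 := by
  have hφ : ∀ ρ ∈ R, (∑ i ∈ S, κ.x i) ρ ≠ 0 := by
    intro ρ hρ h0
    have := (h.sup_iff_sum ∅ hρ).mpr (by rw [Finset.sdiff_empty]; exact h0)
    obtain ⟨i, hi, hne⟩ := h.exists_ne hR hρ
    exact hne (this i hi (by simp))
  generalize (∑ i ∈ S, κ.x i) = φ at hφ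
  have hcard : ∀ T ∈ CS R φ, T.card = 3 := fun T hT => (h.card_eq hT.2).trans h3
  obtain ⟨T, hT, hsum⟩ := euler hR hφ hcard
  have hcT : Conn R T (K R T) T := conn_indep hR h hT.2 hc
  set n : V → ℕ := fun q => N hR φ (cls R ⟨T, q⟩) with hn
  have hsum' : (1 / 2 : ℝ) < ∑ q ∈ T, ((n q : ℝ))⁻¹ := hsum
  obtain ⟨a, ha, hna⟩ : ∃ a ∈ T, n a < 6 := by
    by_contra hcon
    push Not at hcon
    have := Finset.sum_le_card_nsmul T (fun q => ((n q : ℝ))⁻¹) (((6 : ℕ) : ℝ))⁻¹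
      fun q hq => inv_le_of_le (by norm_num) (hcon q hq)
    rw [hcard T hT] at this
    norm_num at this
    linarith
  have fin : ∀ b c : V, T = {a, b, c} → a ≠ b → a ≠ c → b ≠ c → n c < 8 →
      (1 / 4 : ℝ) < ((n b : ℝ))⁻¹ + ((n c : ℝ))⁻¹ →
      Fw R ((K R T).x a) ((K R T).x b) ((K R T).x c) 0 ∧
      Fw R ((K R T).x c) ((K R T).x a) ((K R T).x b) 1 ∧
      Fw R ((K R T).x b) ((K R T).x a) ((K R T).x c) 3 := by
    intro b c hTe hab hac hbc hnc hlt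
    have e1 : T = {c, a, b} := by
      rw [hTe]; ext v; simp only [Finset.mem_insert, Finset.mem_singleton]; tauto
    have e2 : T = {b, a, c} := by rw [hTe, Finset.insert_comm]
    have f1 := fw_of_lt hR hφ hT hTe hab hac hbc (k := 0) hna
    refine ⟨f1, fw_of_lt hR hφ hT e1 hac.symm hbc.symm hab (k := 1) hnc,
      fw_of_lt hR hφ hT e2 hab.symm hbc hac (k := 3) ?_⟩
    have h6 : 6 ≤ n c := by
      by_contra hlt'
      exact not_both hR hTe hab hac hbc hcT f1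
        (fw_of_lt hR hφ hT e1 hac.symm hbc.symm hab (k := 0) (not_le.mp hlt'))
    by_contra h12
    have a1 := inv_le_of_le (by norm_num) h6
    have a2 : ((n b : ℝ))⁻¹ ≤ (((12 : ℕ) : ℝ))⁻¹ := inv_le_of_le (by norm_num) (not_lt.mp h12)
    norm_num at a1 a2
    linarith
  obtain ⟨i, j, hij, he⟩ := Finset.card_eq_two.mp
    (show (T.erase a).card = 2 by rw [Finset.card_erase_of_mem ha, hcard T hT])
  have hTe : T = {a, i, j} := by rw [← he, Finset.insert_erase ha]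
  have hai : a ≠ i := (Finset.ne_of_mem_erase (he ▸ (by simp) : i ∈ T.erase a)).symm
  have haj : a ≠ j := (Finset.ne_of_mem_erase (he ▸ (by simp) : j ∈ T.erase a)).symm
  have h4 : 4 ≤ n a := by simpa using N_ge hR hφ hT hTe hai haj hij ∅ (by simp)
  have a4 := inv_le_of_le (by norm_num) h4
  rw [← Finset.add_sum_erase T _ ha, he, Finset.sum_pair hij] at hsum'
  have hlt : (1 / 4 : ℝ) < ((n i : ℝ))⁻¹ + ((n j : ℝ))⁻¹ := by
    norm_num at a4
    linarith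
  by_cases h8 : n j < 8
  · exact ⟨T, K R T, a, i, j, hT.2, hTe, hai, haj, hij, fin i j hTe hai haj hij h8 hlt⟩
  · have h8' : n i < 8 := by
      by_contra h8'
      have a1 := inv_le_of_le (by norm_num) (not_lt.mp h8)
      have a2 := inv_le_of_le (by norm_num) (not_lt.mp h8')
      norm_num at a1 a2
      linarith
    have hTe' : T = {a, j, i} := by rw [hTe, Finset.pair_comm]
    exact ⟨T, K R T, a, j, i, hT.2, hTe', haj, hai, hij.symm,
      fin j i hTe' haj hai hij.symm h8' (by linarith)⟩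

end Good

open Good in
theorem good (hR : Sys R) (h : IsCh R S κ) (hc : Conn R S κ S) {J : Finset ι} (hJ : J ⊆ S)
    (h3 : (S \ J).card = 3) :
    ∃ (κ' : Fam ι V) (a b c : ι), IsCh R S κ' ∧ (∀ j ∈ J, κ'.B j = κ.B j) ∧
      S \ J = {a, b, c} ∧ a ≠ b ∧ a ≠ c ∧ b ≠ c ∧ ¬ Link R S κ' J b c ∧
      Few R S κ' (S.erase c) a b 1 ∧ Few R S κ' (S.erase b) a c 3 := by
  obtain ⟨T, κT, a', b', c', hT, hTe, hab', hac', hbc', f1, f2, f3⟩ :=
    rank3 (hR.con h J) (h.con J) (hc.con hR h subset_rfl J) h3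
  obtain ⟨a, b, c, hab, hac, hbc, hS⟩ := Finset.card_eq_three.mp h3
  set e : ι → V := fun i => if i = a then a' else if i = b then b' else c' with he
  have ea : e a = a' := by simp [he]
  have eb : e b = b' := by simp [he, hab.symm]
  have ec : e c = c' := by simp [he, hac.symm, hbc.symm]
  have hbij : Set.BijOn e (S \ J : Finset ι) T := by
    have himg : (S \ J).image e = T := by
      rw [hS, hTe, Finset.image_insert, Finset.image_insert, Finset.image_singleton, ea, eb, ec]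
    have hinj : Set.InjOn e (S \ J : Finset ι) := by
      rw [← Finset.card_image_iff, himg]
      exact (h.con J).card_eq hT
    rw [← himg, Finset.coe_image]
    exact hinj.bijOn_image
  have hQ : IsCh (con R S κ J) (S \ J) (⟨fun i => κT.B (e i), fun i => κT.x (e i)⟩ : Fam ι V) :=
    reidx hT e hbij (fun _ _ => rfl) fun _ _ => rfl
  obtain ⟨κ', h', hB, hx, -⟩ := lift hR h hJ (h.loc hJ) hQ
  obtain ⟨haS, haJ⟩ := Finset.mem_sdiff.mp (show a ∈ S \ J by simp [hS])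
  obtain ⟨hbS, hbJ⟩ := Finset.mem_sdiff.mp (show b ∈ S \ J by simp [hS])
  obtain ⟨hcS, hcJ⟩ := Finset.mem_sdiff.mp (show c ∈ S \ J by simp [hS])
  have xa : ∀ v, κ'.x a v = κT.x a' (proj S κ J v) := fun v => by rw [hx a haS haJ, ← ea]
  have xb : ∀ v, κ'.x b v = κT.x b' (proj S κ J v) := fun v => by rw [hx b hbS hbJ, ← eb]
  have xc : ∀ v, κ'.x c v = κT.x c' (proj S κ J v) := fun v => by rw [hx c hcS hcJ, ← ec]
  have hm : ∀ ρ ∈ R, ∀ f : V →ₗ[ℝ] ℝ, f (proj S κ J ρ) ≠ 0 → proj S κ J ρ ∈ con R S κ J :=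
    fun ρ hρ f hf => ⟨fun h0 => hf (by rw [h0, map_zero]), ρ, hρ, rfl⟩
  refine ⟨κ', a, b, c, h', hB, hS, hab, hac, hbc, ?_, ?_, ?_⟩
  · rintro ⟨ρ, hρ, p1, p2, hs⟩
    have p0 := hs a haS (by simp [hab, hac, haJ])
    rw [xa] at p0
    rw [xb] at p1
    rw [xc] at p2
    exact f1.zero (hR.con h J) (hm ρ hρ _ p1.ne') p0 p1 p2
  · refine fun Sl hSl => f2 Sl fun s hs => ?_
    obtain ⟨h0, ρ, hρ, hs, p1, p2⟩ := hSl s hs
    have p0 := hs c hcS (by simp)
    rw [xc] at p0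
    rw [xb] at p1
    rw [xa] at p2
    exact ⟨h0, _, hm ρ hρ _ (p1.trans_ne one_ne_zero), p0, p1, p2⟩
  · refine fun Sl hSl => f3 Sl fun s hs => ?_
    obtain ⟨h0, ρ, hρ, hs, p1, p2⟩ := hSl s hs
    have p0 := hs b hbS (by simp)
    rw [xb] at p0
    rw [xc] at p1
    rw [xa] at p2
    exact ⟨h0, _, hm ρ hρ _ (p1.trans_ne one_ne_zero), p0, p1, p2⟩

end Pool.Agent.SimpArr
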