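import Pool.Agent.P.MP_0b4c38_co.Basic4

/-! Simplicial root systems: branching produces new slopes. -/

set_option autoImplicit false

open Classical

namespace Pool.Agent.SimpArr

variable {V : Type} [AddCommGroup V] [Module ℝ V] {ι : Type}
variable {R : Set V} {S : Finset ι} {κ : Fam ι V}

/-- A sum over the nodes other than `c` of a vector supported on `j` and `c`. -/
theorem sum_erase_pair {co : ι → ℝ} {j c : ι} (hj : j ∈ S) (hjc : j ≠ c) {v : V}
    (hs : Sup S κ {j, c} v) : ∑ i ∈ S.erase c, co i * κ.x i v = co j * κ.x j v := by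
  apply Finset.sum_eq_single j
  · intro i hi hij
    obtain ⟨hic, hi⟩ := Finset.mem_erase.mp hi
    rw [hs i hi (by simp [hij, hic]), mul_zero]
  · intro h
    exact absurd (Finset.mem_erase.mpr ⟨hjc, hj⟩) h

/-- The claw lemma. -/
theorem claw (hR : Sys R) (h : IsCh R S κ) {a c l r : ι} (ha : a ∈ S) (hc : c ∈ S) (hl : l ∈ S)
    (hr : r ∈ S) (hal : a ≠ l) (har : a ≠ r) (hlr : l ≠ r) (h1 : Adj R S κ a c)
    (h2 : Adj R S κ l c) (h3 : Adj R S κ r c) :
    ∃ τ ∈ R, 0 < κ.x a τ ∧ 0 < κ.x c τ ∧ ∀ ρ ∈ R, Sup S κ {a, c} ρ → 0 < κ.x a ρ →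
      κ.x c ρ * κ.x a τ < κ.x c τ * κ.x a ρ := by
  obtain ⟨κ', co, h', -, hB, hx, hxc⟩ := cross hR h hc
  obtain ⟨τ, hτ, hτ1, htop⟩ := top hR h' hc
  have hle : ∀ j ∈ S, j ≠ c → ∀ ρ ∈ R, Sup S κ {j, c} ρ → 0 < κ.x j ρ →
      κ.x c ρ ≤ co j * κ.x j ρ := by
    intro j hj hjc ρ hρ hs hp
    have := h'.nonneg hρ hj (by rwa [hx j hj hjc]) c hc
    rw [hxc ρ hρ, sum_erase_pair hj hjc hs] at this
    linarith
  have hone : ∀ j ∈ S, Adj R S κ j c → 0 < co j ∧ 1 ≤ co j * κ.x j τ := by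
    intro j hj hadj
    obtain ⟨hjc, ρ, hρ, p1, p2, hs⟩ := hadj
    have hs' : Sup S κ {j, c} ρ := by simpa using hs
    have hco : 0 < co j := by
      have := hle j hj hjc ρ hρ hs' p1
      by_contra hn
      have := mul_nonpos_of_nonpos_of_nonneg (not_lt.mp hn) p1.le
      linarith
    have hxB : κ'.x c (κ.B j) = co j := by
      rw [hxc _ (h.mem j hj), sum_erase_pair hj hjc (h.sup_B hj (by simp)), h.x_self hj,
        h.x_ne hc hj hjc.symm]
      ring
    have := htop _ (h.mem j hj) j hj (by rwa [hxB])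
    rw [hxB, hx j hj hjc, hx j hj hjc, h.x_self hj] at this
    exact ⟨hco, this⟩
  have hnn : ∀ j ∈ S.erase c, 0 ≤ co j * κ.x j τ := by
    intro j hj
    obtain ⟨hjc, hj⟩ := Finset.mem_erase.mp hj
    have := h'.nonneg hτ hc (by rw [hτ1]; exact one_pos) j hj
    rw [hx j hj hjc] at this
    exact mul_nonneg (hB j hj hjc).1 this
  have hsub : ({a, l, r} : Finset ι) ⊆ S.erase c := by
    intro j hj
    simp only [Finset.mem_insert, Finset.mem_singleton] at hj
    rcases hj with rfl | rfl | rfl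
    · exact Finset.mem_erase.mpr ⟨h1.1, ha⟩
    · exact Finset.mem_erase.mpr ⟨h2.1, hl⟩
    · exact Finset.mem_erase.mpr ⟨h3.1, hr⟩
  have hsum := Finset.sum_le_sum_of_subset_of_nonneg hsub fun j hj _ => hnn j hj
  rw [Finset.sum_insert (by simp [hal, har]), Finset.sum_pair hlr] at hsum
  rw [hxc τ hτ] at hτ1
  obtain ⟨a1, a2⟩ := hone a ha h1
  obtain ⟨-, l2⟩ := hone l hl h2
  obtain ⟨-, r2⟩ := hone r hr h3
  have hτa : 0 < κ.x a τ := by
    by_contra hn
    have := mul_nonpos_of_nonneg_of_nonpos a1.le (not_lt.mp hn)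
    linarith
  refine ⟨τ, hτ, hτa, by linarith, fun ρ hρ hs hp => ?_⟩
  have e1 := hle a ha h1.1 ρ hρ hs hp
  have e2 : co a * κ.x a τ < κ.x c τ := by linarith
  calc κ.x c ρ * κ.x a τ ≤ co a * κ.x a ρ * κ.x a τ := mul_le_mul_of_nonneg_right e1 hτa.le
    _ = co a * κ.x a τ * κ.x a ρ := by ring
    _ < κ.x c τ * κ.x a ρ := mul_lt_mul_of_pos_right e2 hp

theorem slope_of_root (hR : Sys R) {U : Finset ι} {a c : ι} {τ : V} (hτ : τ ∈ R)
    (hs : Sup S κ U τ) (p1 : 0 < κ.x a τ) (p2 : 0 < κ.x c τ) :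
    Slope R S κ U a c (κ.x a τ / κ.x c τ) := by
  refine ⟨div_pos p1 p2, (κ.x c τ)⁻¹ • τ, hR.smul _ hτ _ (inv_pos.mpr p2).ne', hs.smul _, ?_, ?_⟩
  · rw [map_smul, smul_eq_mul, inv_mul_cancel₀ p2.ne']
  · rw [map_smul, smul_eq_mul, div_eq_inv_mul]

theorem Slope.mono {U U' : Finset ι} {a c : ι} {s : ℝ} (h : Slope R S κ U a c s) (hU : U ⊆ U') :
    Slope R S κ U' a c s := by
  obtain ⟨h1, ρ, h2, h3, h4⟩ := h
  exact ⟨h1, ρ, h2, h3.mono hU, h4⟩

theorem Slope.inv (hR : Sys R) {U : Finset ι} {a c : ι} {s : ℝ} (h : Slope R S κ U a c s) :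
    Slope R S κ U c a s⁻¹ := by
  obtain ⟨h1, ρ, h2, h3, h4, h5⟩ := h
  have := slope_of_root hR h2 h3 (a := c) (c := a) (by rw [h4]; exact one_pos) (by rwa [h5])
  rwa [h4, h5, one_div] at this

theorem Link.slope (hR : Sys R) {Z : Finset ι} {a c : ι} (h : Link R S κ Z a c) :
    ∃ s, Slope R S κ (insert a (insert c Z)) a c s := by
  obtain ⟨ρ, h1, h2, h3, h4⟩ := h
  exact ⟨_, slope_of_root hR h1 h4 h2 h3⟩

theorem Slope.link {Z : Finset ι} {a c : ι} {s : ℝ}
    (h : Slope R S κ (insert a (insert c Z)) a c s) : Link R S κ Z a c := by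
  obtain ⟨h1, ρ, h2, h3, h4, h5⟩ := h
  exact ⟨ρ, h2, by rwa [h5], by rw [h4]; exact one_pos, h3⟩

theorem Link.not_few (hR : Sys R) {Z : Finset ι} {a c : ι} (h : Link R S κ Z a c) :
    ¬ Few R S κ (insert a (insert c Z)) a c 0 := by
  intro hf
  obtain ⟨s, hs⟩ := h.slope hR
  have := hf {s} (by simpa using hs)
  simp at this

/-- One growth step on the side of `c`: a new slope smaller than all the old ones. -/
theorem step (hR : Sys R) (h : IsCh R S κ) {U Z : Finset ι} (hU : U ⊆ S) (hZ : Z ⊆ U)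
    {a c l r : ι} (ha : a ∈ U) (hc : c ∈ U) (hl : l ∈ U) (hr : r ∈ U) (haZ : a ∉ Z) (hcZ : c ∉ Z)
    (hlZ : l ∉ Z) (hrZ : r ∉ Z) (hac : a ≠ c) (hal : a ≠ l) (har : a ≠ r) (hlc : l ≠ c)
    (hrc : r ≠ c) (hlr : l ≠ r) (h1 : Link R S κ Z a c) (h2 : Link R S κ Z c l)
    (h3 : Link R S κ Z c r) :
    ∃ s, Slope R S κ U a c s ∧ ∀ s', Slope R S κ (insert a (insert c Z)) a c s' → s < s' := by
  have hL := h.loc hU
  have hRL := hR.loc h U
  have key : ∀ j ∈ U, j ∉ Z → j ≠ c → Link R S κ Z j c →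
      Adj (con (loc R S κ U) U κ Z) (U \ Z) κ j c := by
    intro j hj hjZ hjc hlk
    refine ⟨hjc, (link_con hL hj hc hjZ hcZ).mpr ?_⟩
    rw [Finset.empty_union]
    refine (link_loc hU ?_).mpr hlk
    exact Finset.insert_subset hj (Finset.insert_subset hc hZ)
  obtain ⟨τ, ⟨-, τ0, hτ0, rfl⟩, p1, p2, hτ⟩ := claw (hRL.con hL Z) (hL.con Z)
    (Finset.mem_sdiff.mpr ⟨ha, haZ⟩) (Finset.mem_sdiff.mpr ⟨hc, hcZ⟩)
    (Finset.mem_sdiff.mpr ⟨hl, hlZ⟩) (Finset.mem_sdiff.mpr ⟨hr, hrZ⟩) hal har hlr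
    (key a ha haZ hac h1) (key l hl hlZ hlc h2.symm) (key r hr hrZ hrc h3.symm)
  rw [hL.x_proj_of _ ha haZ] at p1
  rw [hL.x_proj_of _ hc hcZ] at p2
  refine ⟨_, slope_of_root hR hτ0.1 hτ0.2 p1 p2, ?_⟩
  rintro s' ⟨q1, ρ, hρ, hs, q2, q3⟩
  have hsub : insert a (insert c Z) ⊆ U := Finset.insert_subset ha (Finset.insert_subset hc hZ)
  have hρL : ρ ∈ loc R S κ U := ⟨hρ, hs.mono hsub⟩
  have := hτ _ (hL.proj_mem hρL hc hcZ (by rw [q2]; exact one_ne_zero))
    (hL.sup_proj.mpr ((sup_loc hU hρL.2).mpr (hs.mono (by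
      intro i hi
      simp only [Finset.mem_insert, Finset.mem_union, Finset.mem_singleton] at hi ⊢
      tauto))))
    (by rw [hL.x_proj_of _ ha haZ, q3]; exact q1)
  rw [hL.x_proj_of _ ha haZ, hL.x_proj_of _ ha haZ, hL.x_proj_of _ hc hcZ,
    hL.x_proj_of _ hc hcZ, q2, q3] at this
  rw [div_lt_iff₀ p2]
  linarith

/-- Growth steps on both sides give three slopes. -/
theorem two_sided (hR : Sys R) (h : IsCh R S κ) {U Z : Finset ι} (hU : U ⊆ S) (hZ : Z ⊆ U)
    {a c l r r' : ι} (ha : a ∈ U) (hc : c ∈ U) (hl : l ∈ U) (hr : r ∈ U) (hr' : r' ∈ U)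
    (haZ : a ∉ Z) (hcZ : c ∉ Z) (hlZ : l ∉ Z) (hrZ : r ∉ Z) (hr'Z : r' ∉ Z) (hac : a ≠ c)
    (hla : l ≠ a) (hlc : l ≠ c) (hra : r ≠ a) (hrc : r ≠ c) (hr'a : r' ≠ a) (hr'c : r' ≠ c)
    (hlr : l ≠ r) (hlr' : l ≠ r') (h1 : Link R S κ Z a c) (h2 : Link R S κ Z c l)
    (h3 : Link R S κ Z c r) (h4 : Link R S κ Z a l) (h5 : Link R S κ Z a r') :
    ¬ Few R S κ U a c 2 := by
  intro hf
  obtain ⟨s0, hs0⟩ := h1.slope hR
  obtain ⟨s1, hs1, hlt1⟩ := step hR h hU hZ ha hc hl hr haZ hcZ hlZ hrZ hac hla.symm hra.symm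
    hlc hrc hlr h1 h2 h3
  obtain ⟨s2, hs2, hlt2⟩ := step hR h hU hZ hc ha hl hr' hcZ haZ hlZ hr'Z hac.symm hlc.symm
    hr'c.symm hla hr'a hlr' h1.symm h4 h5
  have e1 := hlt1 s0 hs0
  have e2 := hlt2 s0⁻¹ (by rw [Finset.insert_comm]; exact hs0.inv hR)
  have e3 : s0 < s2⁻¹ := by
    rw [lt_inv_comm₀ hs0.1 hs2.1]; exact e2
  have := hf {s1, s0, s2⁻¹} (by
    intro s hs
    simp only [Finset.mem_insert, Finset.mem_singleton] at hs
    rcases hs with rfl | rfl | rfl
    · exact hs1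
    · exact hs0.mono (Finset.insert_subset ha (Finset.insert_subset hc hZ))
    · exact hs2.inv hR)
  rw [Finset.card_insert_of_notMem (by simp [e1.ne, (e1.trans e3).ne]),
    Finset.card_pair e3.ne] at this
  omega

/-- One growth step, counting version. -/
theorem step_few (hR : Sys R) (h : IsCh R S κ) {U Z : Finset ι} (hU : U ⊆ S) (hZ : Z ⊆ U)
    {a c l r : ι} (ha : a ∈ U) (hc : c ∈ U) (hl : l ∈ U) (hr : r ∈ U) (haZ : a ∉ Z) (hcZ : c ∉ Z)
    (hlZ : l ∉ Z) (hrZ : r ∉ Z) (hac : a ≠ c) (hal : a ≠ l) (har : a ≠ r) (hlc : l ≠ c)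
    (hrc : r ≠ c) (hlr : l ≠ r) {j : ℕ} (h1 : ¬ Few R S κ (insert a (insert c Z)) a c j)
    (h2 : Link R S κ Z c l) (h3 : Link R S κ Z c r) : ¬ Few R S κ U a c (j + 1) := by
  intro hf
  unfold Few at h1
  push Not at h1
  obtain ⟨T, hT, hcard⟩ := h1
  obtain ⟨s0, hs0⟩ : T.Nonempty := Finset.card_pos.mp (by omega)
  obtain ⟨s, hs, hlt⟩ := step hR h hU hZ ha hc hl hr haZ hcZ hlZ hrZ hac hal har hlc hrc hlr
    (hT s0 hs0).link h2 h3
  have := hf (insert s T) (by
    intro s' hs'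
    rcases Finset.mem_insert.mp hs' with rfl | hs'
    · exact hs
    · exact (hT s' hs').mono (Finset.insert_subset ha (Finset.insert_subset hc hZ)))
  rw [Finset.card_insert_of_notMem fun hm => lt_irrefl _ (hlt s (hT s hm))] at this
  omega

theorem grow_aux (hR : Sys R) (h : IsCh R S κ) {U : Finset ι} (hU : U ⊆ S) {a c : ι} (ha : a ∈ U)
    (hc : c ∈ U) (hac : a ≠ c) (k : ℕ) : ∀ (j : ℕ) (Z W Y Y' : Finset ι), Z ⊆ U → a ∉ Z → c ∉ Z →
      c ∈ W → W ⊆ insert c Z → Conn R S κ W → Y ⊆ U → Y' ⊆ U → Disjoint Y Y' →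
      Disjoint Y (insert a (insert c Z)) → Disjoint Y' (insert a (insert c Z)) →
      Conn R S κ (W ∪ Y) → Conn R S κ (W ∪ Y') → k ≤ Y.card → k ≤ Y'.card →
      ¬ Few R S κ (insert a (insert c Z)) a c j → ¬ Few R S κ U a c (j + k) := by
  induction k with
  | zero =>
    intro j Z W Y Y' hZ _ _ _ _ _ _ _ _ _ _ _ _ _ _ hn hf
    exact hn (hf.mono (Finset.insert_subset ha (Finset.insert_subset hc hZ)))
  | succ k ih =>
    intro j Z W Y Y' hZ haZ hcZ hcW hW hcon hY hY' hd hdY hdY' hc1 hc2 hk hk' hn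
    have hWS : W ⊆ S := hW.trans ((Finset.insert_subset hc hZ).trans hU)
    have pick : ∀ X : Finset ι, Disjoint X (insert a (insert c Z)) → Conn R S κ (W ∪ X) →
        k + 1 ≤ X.card → ∃ l ∈ X, ∃ w ∈ W, Adj R S κ w l := by
      intro X hdX hcX hkX
      obtain ⟨v, hv⟩ : X.Nonempty := Finset.card_pos.mp (by omega)
      obtain ⟨i, -, hi, j, hj, hjW, hadj⟩ := hcX.exit (Finset.mem_union_left _ hcW) hcW
        (Finset.mem_union_right _ hv)
        (fun hvW => Finset.disjoint_left.mp hdX hv (Finset.mem_insert_of_mem (hW hvW)))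
      exact ⟨j, (Finset.mem_union.mp hj).resolve_left hjW, i, hi, hadj⟩
    obtain ⟨l, hl, w, hw, hwl⟩ := pick Y hdY hc1 hk
    obtain ⟨r, hr, w', hw', hwr⟩ := pick Y' hdY' hc2 hk'
    have nl := Finset.disjoint_left.mp hdY hl
    have nr := Finset.disjoint_left.mp hdY' hr
    simp only [Finset.mem_insert, not_or] at nl nr
    have hlr : l ≠ r := fun e => Finset.disjoint_left.mp hd hl (e ▸ hr)
    have lk : ∀ v ∈ U, ∀ w ∈ W, Adj R S κ w v → Link R S κ Z c v := by
      intro v hv w hw hadj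
      refine link_of_conn hR h (Finset.insert_subset (hU hv) hWS) (hcon.insert hw hadj)
        (Finset.mem_insert_of_mem hcW) (Finset.mem_insert_self _ _) ?_
      intro i hi
      have : i ∈ W → i ∈ insert c Z := fun h => hW h
      simp only [Finset.mem_insert] at hi this ⊢
      tauto
    have hZ' : insert l (insert r Z) ⊆ U :=
      Finset.insert_subset (hY hl) (Finset.insert_subset (hY' hr) hZ)
    have hstep := step_few hR h (U := insert a (insert c (insert l (insert r Z))))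
      ((Finset.insert_subset ha (Finset.insert_subset hc hZ')).trans hU) (Z := Z)
      (by intro i hi; simp [hi]) (a := a) (c := c) (l := l) (r := r) (by simp) (by simp)
      (by simp) (by simp) haZ hcZ nl.2.2 nr.2.2 hac (Ne.symm nl.1) (Ne.symm nr.1) nl.2.1 nr.2.1
      hlr hn (lk l (hY hl) w hw hwl) (lk r (hY' hr) w' hw' hwr)
    have dis : ∀ X : Finset ι, Disjoint X (insert a (insert c Z)) → ∀ v, l ∉ X.erase v →
        r ∉ X.erase v → Disjoint (X.erase v) (insert a (insert c (insert l (insert r Z)))) := by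
      intro X hX v h1 h2
      rw [Finset.disjoint_left]
      intro i hi hi'
      have := Finset.disjoint_left.mp hX (Finset.mem_of_mem_erase hi)
      simp only [Finset.mem_insert, not_or] at this hi'
      rcases hi' with e | e | e | e | e
      · exact this.1 e
      · exact this.2.1 e
      · exact h1 (e ▸ hi)
      · exact h2 (e ▸ hi)
      · exact this.2.2 e
    have := ih (j + 1) (insert l (insert r Z)) (insert l (insert r W)) (Y.erase l) (Y'.erase r)
      hZ' (by simp [haZ, Ne.symm nl.1, Ne.symm nr.1]) (by simp [hcZ, Ne.symm nl.2.1, Ne.symm nr.2.1])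
      (by simp [hcW]) (by
        intro i hi
        have : i ∈ W → i ∈ insert c Z := fun h => hW h
        simp only [Finset.mem_insert] at hi this ⊢
        tauto)
      ((hcon.insert hw' hwr).insert (Finset.mem_insert_of_mem hw) hwl)
      ((Finset.erase_subset _ _).trans hY) ((Finset.erase_subset _ _).trans hY')
      (Finset.disjoint_of_subset_left (Finset.erase_subset _ _)
        (Finset.disjoint_of_subset_right (Finset.erase_subset _ _) hd))
      (dis Y hdY l (Finset.notMem_erase _ _)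
        fun hm => Finset.disjoint_left.mp hd (Finset.mem_of_mem_erase hm) hr)
      (dis Y' hdY' r (fun hm => Finset.disjoint_left.mp hd hl (Finset.mem_of_mem_erase hm))
        (Finset.notMem_erase _ _))
      (by
        convert hc1.insert (Finset.mem_union_left _ hw') hwr using 1
        ext i
        simp only [Finset.mem_union, Finset.mem_insert, Finset.mem_erase]
        by_cases e : i = l
        · simp [e, hl]
        · tauto)
      (by
        convert hc2.insert (Finset.mem_union_left _ hw) hwl using 1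
        ext i
        simp only [Finset.mem_union, Finset.mem_insert, Finset.mem_erase]
        by_cases e : i = r
        · simp [e, hr]
        · tauto)
      (by rw [Finset.card_erase_of_mem hl]; omega) (by rw [Finset.card_erase_of_mem hr]; omega)
      hstep
    rwa [show j + 1 + k = j + (k + 1) by ring] at this

/-- Two disjoint extensions of size `k` on the side of `c` give more than `k` slopes. -/
theorem grow2 (hR : Sys R) (h : IsCh R S κ) {U Z W Y Y' : Finset ι} (hU : U ⊆ S) {a c : ι}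
    (ha : a ∈ U) (hc : c ∈ U) (hac : a ≠ c) {k : ℕ} (hZ : Z ⊆ U) (haZ : a ∉ Z) (hcZ : c ∉ Z)
    (hcW : c ∈ W) (hW : W ⊆ insert c Z) (hcon : Conn R S κ W) (hY : Y ⊆ U) (hY' : Y' ⊆ U)
    (hd : Disjoint Y Y') (hdY : Disjoint Y (insert a (insert c Z)))
    (hdY' : Disjoint Y' (insert a (insert c Z))) (hc1 : Conn R S κ (W ∪ Y))
    (hc2 : Conn R S κ (W ∪ Y')) (hk : k ≤ Y.card) (hk' : k ≤ Y'.card) (hl : Link R S κ Z a c) :
    ¬ Few R S κ U a c k := by
  have := grow_aux hR h hU ha hc hac k 0 Z W Y Y' hZ haZ hcZ hcW hW hcon hY hY' hd hdY hdY' hc1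
    hc2 hk hk' (hl.not_few hR)
  rwa [zero_add] at this

end Pool.Agent.SimpArr
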