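import Pool.Agent.P.MP_0b4c38_co.Growth

/-! Local computations in a chamber with two special nodes `t`, `c`. -/

set_option autoImplicit false

open Classical

namespace Pool.Agent.SimpArr

variable {V : Type} [AddCommGroup V] [Module ℝ V] {ι : Type}
variable {R : Set V} {S : Finset ι} {κ : Fam ι V}

namespace HDInd

/-- Crossing the wall `c` and taking the top root at `c` of the new chamber. -/
theorem ct (hR : Sys R) (h : IsCh R S κ) {c : ι} (hc : c ∈ S) :
    ∃ (co : ι → ℝ) (τ : V), τ ∈ R ∧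
      (∀ j ∈ S, j ≠ c → 0 ≤ co j ∧ κ.B j + co j • κ.B c ∈ R) ∧
      κ.x c τ = ∑ j ∈ S.erase c, co j * κ.x j τ - 1 ∧
      (∀ ρ ∈ R, ∀ j ∈ S, j ≠ c → 0 < κ.x j ρ → κ.x c ρ ≤ ∑ j ∈ S.erase c, co j * κ.x j ρ) ∧
      (∀ ρ ∈ R, ∀ j ∈ S, j ≠ c → κ.x c ρ < ∑ j ∈ S.erase c, co j * κ.x j ρ →
        κ.x j ρ ≤ (∑ j ∈ S.erase c, co j * κ.x j ρ - κ.x c ρ) * κ.x j τ) ∧
      (∀ j ∈ S, j ≠ c → 0 < co j → 1 ≤ co j * κ.x j τ) := by
  obtain ⟨κ', co, h', -, hB, hx, hxc⟩ := cross hR h hc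
  obtain ⟨τ, hτ, hτ1, htop⟩ := top hR h' hc
  refine ⟨co, τ, hτ, fun j hj hjc => ⟨(hB j hj hjc).1, ?_⟩, ?_, ?_, ?_, ?_⟩
  · rw [← (hB j hj hjc).2]
    exact h'.mem j hj
  · rw [hxc τ hτ] at hτ1
    linarith
  · intro ρ hρ j hj hjc hp
    have := h'.nonneg hρ hj (by rwa [hx j hj hjc]) c hc
    rw [hxc ρ hρ] at this
    linarith
  · intro ρ hρ j hj hjc hp
    have := htop ρ hρ j hj (by rw [hxc ρ hρ]; linarith)
    rwa [hxc ρ hρ, hx j hj hjc, hx j hj hjc] at this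
  · intro j hj hjc hp
    have hxB : κ'.x c (κ.B j) = co j := by
      rw [hxc _ (h.mem j hj), sum_erase_pair hj hjc (h.sup_B hj (by simp)), h.x_self hj,
        h.x_ne hc hj hjc.symm]
      ring
    have := htop _ (h.mem j hj) j hj (by rwa [hxB])
    rwa [hxB, hx j hj hjc, hx j hj hjc, h.x_self hj] at this

/-- The three node version of `ct`. -/
theorem ct3 {c a b : ι} (hR : Sys R) (h : IsCh R {c, a, b} κ) (hca : c ≠ a) (hcb : c ≠ b)
    (hab : a ≠ b) :
    ∃ (α β : ℝ) (τ : V), τ ∈ R ∧ 0 ≤ α ∧ 0 ≤ β ∧ κ.B a + α • κ.B c ∈ R ∧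
      κ.x c τ = α * κ.x a τ + β * κ.x b τ - 1 ∧
      (∀ ρ ∈ R, 0 < κ.x a ρ ∨ 0 < κ.x b ρ → κ.x c ρ ≤ α * κ.x a ρ + β * κ.x b ρ) ∧
      (∀ ρ ∈ R, κ.x c ρ < α * κ.x a ρ + β * κ.x b ρ →
        κ.x b ρ ≤ (α * κ.x a ρ + β * κ.x b ρ - κ.x c ρ) * κ.x b τ) ∧
      (0 < α → 1 ≤ α * κ.x a τ) ∧ (0 < β → 1 ≤ β * κ.x b τ) := by
  obtain ⟨co, τ, hτ, h1, h2, h3, h4, h5⟩ := ct hR h (c := c) (by simp)
  have he : ({c, a, b} : Finset ι).erase c = {a, b} :=
    Finset.erase_insert (by simp [hca, hcb])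
  simp only [he, Finset.sum_pair hab] at h2 h3 h4
  refine ⟨co a, co b, τ, hτ, (h1 a (by simp) hca.symm).1, (h1 b (by simp) hcb.symm).1,
    (h1 a (by simp) hca.symm).2, h2, ?_, fun ρ hρ => h4 ρ hρ b (by simp) hcb.symm,
    h5 a (by simp) hca.symm, h5 b (by simp) hcb.symm⟩
  rintro ρ hρ (hp | hp)
  · exact h3 ρ hρ a (by simp) hca.symm hp
  · exact h3 ρ hρ b (by simp) hcb.symm hp

/-- A chamber with nodes `t`, `c` and `E` whose roots have one of four forms. -/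
structure KS (R : Set V) (E : Finset ι) (K : Fam ι V) (t c : ι) (M : ι → ℝ) : Prop where
  sys : Sys R
  ch : IsCh R (insert t (insert c E)) K
  tc : t ≠ c
  tE : t ∉ E
  cE : c ∉ E
  pos : ∀ j ∈ E, 0 < M j
  forms : ∀ ρ ∈ R, K.x t ρ = 0 ∨ (K.x c ρ = 0 ∧ ∀ j ∈ E, K.x j ρ = 0) ∨ K.x t ρ = K.x c ρ ∨
    (K.x c ρ = 2 * K.x t ρ ∧ ∀ j ∈ E, K.x j ρ = M j * K.x t ρ)
  tcm : K.B t + K.B c ∈ R
  topm : ∃ ρ ∈ R, K.x t ρ = 0 ∧ K.x c ρ = 1 ∧ ∀ j ∈ E, K.x j ρ = M j
  le : ∀ ρ ∈ R, K.x t ρ = 0 → K.x c ρ = 1 → ∀ j ∈ E, K.x j ρ ≤ M j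

variable {E : Finset ι} {K : Fam ι V} {t c : ι} {M : ι → ℝ}

theorem KS.ht (_ : KS R E K t c M) : t ∈ insert t (insert c E) := by simp

theorem KS.hc (_ : KS R E K t c M) : c ∈ insert t (insert c E) := by simp

theorem KS.hE (_ : KS R E K t c M) {j : ι} (hj : j ∈ E) : j ∈ insert t (insert c E) := by
  simp [hj]

theorem KS.tj (h : KS R E K t c M) {j : ι} (hj : j ∈ E) : t ≠ j := fun e => h.tE (e ▸ hj)

theorem KS.cj (h : KS R E K t c M) {j : ι} (hj : j ∈ E) : c ≠ j := fun e => h.cE (e ▸ hj)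

/-- The coefficient of `c` after crossing `c` in the wall `t` is one. -/
theorem KS.co_t (h : KS R E K t c M) {k : ι} (hk : k ∈ E) {α : ℝ} {ρ : V} (hρ : ρ ∈ R)
    (h1 : K.x t ρ = 1) (h2 : K.x c ρ = α) (h3 : K.x k ρ = 0) (h4 : 1 ≤ α) : α = 1 := by
  rcases h.forms ρ hρ with f | f | f | f
  · linarith
  · linarith [f.1]
  · linarith
  · have := f.2 k hk
    have := h.pos k hk
    rw [h1] at *
    linarith

theorem KS.T3 (h : KS R E K t c M) {k : ι} (hk : k ∈ E) {ρ : V} (hρ : ρ ∈ R)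
    (h1 : K.x t ρ = 0) (h2 : K.x c ρ = 1) : K.x k ρ = 0 ∨ M k / 2 ≤ K.x k ρ := by
  set S := insert t (insert c E) with hS
  have hsub : ({c, t, k} : Finset ι) ⊆ S := by
    intro i hi
    simp only [Finset.mem_insert, Finset.mem_singleton] at hi
    rcases hi with rfl | rfl | rfl
    · exact h.hc
    · exact h.ht
    · exact h.hE hk
  set J := S \ {c, t, k} with hJ
  have hch := h.ch.con J
  rw [hJ, Finset.sdiff_sdiff_eq_self hsub, ← hJ] at hch
  have hcJ : c ∉ J := by simp [hJ]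
  have htJ : t ∉ J := by simp [hJ]
  have hkJ : k ∉ J := by simp [hJ]
  have xc : ∀ v, K.x c (proj S K J v) = K.x c v := fun v => h.ch.x_proj_of v h.hc hcJ
  have xt : ∀ v, K.x t (proj S K J v) = K.x t v := fun v => h.ch.x_proj_of v h.ht htJ
  have xk : ∀ v, K.x k (proj S K J v) = K.x k v := fun v => h.ch.x_proj_of v (h.hE hk) hkJ
  have pm : ∀ σ ∈ R, K.x c σ = 1 → proj S K J σ ∈ con R S K J := fun σ hσ e =>
    h.ch.proj_mem hσ h.hc hcJ (by rw [e]; exact one_ne_zero)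
  obtain ⟨α, β, τ', ⟨-, τ, hτ, rfl⟩, -, hβ, ⟨-, σ, hσ, hσe⟩, a1, a2, a3, a4, -⟩ :=
    ct3 (h.sys.con h.ch J) hch h.tc.symm (h.cj hk) (h.tj hk)
  have btt := h.ch.x_self h.ht
  have bcc := h.ch.x_self h.hc
  have btc := h.ch.x_ne h.ht h.hc h.tc
  have bct := h.ch.x_ne h.hc h.ht h.tc.symm
  have bkt := h.ch.x_ne (h.hE hk) h.ht (h.tj hk).symm
  have bkc := h.ch.x_ne (h.hE hk) h.hc (h.cj hk).symm
  have hα : α = 1 := by
    refine h.co_t hk hσ ?_ ?_ ?_ ?_
    · rw [← xt, ← hσe]; simp [btt, btc]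
    · rw [← xc, ← hσe]; simp [bct, bcc]
    · rw [← xk, ← hσe]; simp [bkt, bkc]
    · have := a2 _ (pm _ h.tcm (by simp [bct, bcc])) (Or.inl (by rw [xt]; simp [btt, btc]))
      rw [xc, xt, xk] at this
      simpa [btt, btc, bct, bcc, bkt, bkc] using this
  subst hα
  rw [xc, xt, xk] at a1
  rw [xt] at a4
  have t1 : 1 ≤ K.x t τ := by simpa using a4 one_pos
  have hM := h.pos k hk
  have hz0 : 0 ≤ K.x k ρ := h.ch.nonneg hρ h.hc (by rw [h2]; exact one_pos) k (h.hE hk)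
  rcases hz0.eq_or_lt with hz | hz
  · exact Or.inl hz.symm
  right
  have b1 := a2 _ (pm ρ hρ h2) (Or.inr (by rwa [xk]))
  rw [xc, xt, xk, h1, h2] at b1
  obtain ⟨ω, hω, w1, w2, w3⟩ := h.topm
  have b2 := a2 _ (pm ω hω w2) (Or.inr (by rw [xk, w3 k hk]; exact hM))
  have b3 := a3 _ (pm ω hω w2)
  simp only [xc, xt, xk, w1, w2, w3 k hk] at b2 b3
  by_contra hn
  push Not at hn
  have c1 : 2 < β * M k := by nlinarith
  have c2 : M k ≤ (β * M k - 1) * K.x k τ := by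
    have := b3 (by linarith)
    rw [← xk τ]
    simpa using this
  have c3 : 1 < β * K.x k τ := by
    by_contra h'
    push Not at h'
    have hk0 : 0 < K.x k τ := by
      by_contra h''
      push Not at h''
      nlinarith
    nlinarith
  rcases h.forms τ hτ with f | f | f | f
  · linarith
  · linarith [f.1]
  · linarith
  · have := f.2 k hk
    rw [this, f.1] at a1
    nlinarith

theorem KS.N (h : KS R E K t c M) {j : ι} (hj : j ∈ E) {d : ℝ} (hd : 0 < d)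
    (hm : K.B c + d • K.B j ∈ R) : ∃ d' : ℝ, 0 < d' ∧ K.B t + K.B c + d' • K.B j ∈ R := by
  have hsub : ({t, c, j} : Finset ι) ⊆ insert t (insert c E) := by
    intro i hi
    simp only [Finset.mem_insert, Finset.mem_singleton] at hi
    rcases hi with rfl | rfl | rfl
    · exact h.ht
    · exact h.hc
    · exact h.hE hj
  obtain ⟨β, hβ, hs, b1, b2⟩ := top_loc h.sys h.ch hsub (a := c) (by simp)
  have btt := h.ch.x_self h.ht
  have bcc := h.ch.x_self h.hc
  have bjj := h.ch.x_self (h.hE hj)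
  have btc := h.ch.x_ne h.ht h.hc h.tc
  have bct := h.ch.x_ne h.hc h.ht h.tc.symm
  have bcj := h.ch.x_ne h.hc (h.hE hj) (h.cj hj)
  have bjc := h.ch.x_ne (h.hE hj) h.hc (h.cj hj).symm
  have e1 := b2 _ h.tcm (fun i hi hi' => by
    rw [map_add, h.ch.sup_B h.ht (Z := {t, c, j}) (by simp) i hi hi',
      h.ch.sup_B h.hc (Z := {t, c, j}) (by simp) i hi hi', add_zero]) t h.ht (by simp [bct, bcc])
  have e2 := b2 _ hm (fun i hi hi' => by
    rw [map_add, map_smul, h.ch.sup_B h.hc (Z := {t, c, j}) (by simp) i hi hi',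
      h.ch.sup_B (h.hE hj) (Z := {t, c, j}) (by simp) i hi hi', smul_zero, add_zero]) j (h.hE hj)
      (by simp [bcj, bcc])
  simp only [map_add, map_smul, btt, btc, bct, bcc, bjc, bjj, bcj, smul_eq_mul] at e1 e2
  have e3 : K.x t β = 1 := by
    rcases h.forms β hβ with f | f | f | f
    · linarith
    · linarith [f.1]
    · linarith
    · linarith [f.1]
  refine ⟨K.x j β, by linarith, ?_⟩
  have e4 := h.ch.repr_sup hsub hβ hs
  rw [Finset.sum_insert (by simp [h.tc, h.tj hj]), Finset.sum_pair (h.cj hj), e3, b1, one_smul,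
    one_smul, ← add_assoc] at e4
  rwa [← e4]

theorem KS.A (h : KS R E K t c M) {k : ι}
    (hn : ∀ j ∈ E, j ≠ k → ∀ d : ℝ, 0 < d → K.B c + d • K.B j ∉ R) {ρ : V} (hρ : ρ ∈ R)
    (h1 : K.x t ρ = 0) (h2 : K.x c ρ = 1) (h3 : K.x k ρ = 0) : ρ = K.B c := by
  have hs := sup_of_sep h.sys h.ch (A := {c}) (A' := E.erase k)
    (by simp [h.cE]) (by
      intro i hi j hj hadj
      rw [Finset.mem_singleton.mp hi] at hadj
      obtain ⟨hjk, hj⟩ := Finset.mem_erase.mp hj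
      obtain ⟨d, hd, hm⟩ := h.ch.add_of_adj h.sys h.hc (h.hE hj) hadj
      exact hn j hj hjk d hd hm) hρ (by
      intro i hi hi'
      simp only [Finset.mem_insert, Finset.mem_union, Finset.mem_singleton, Finset.mem_erase,
        not_or, not_and] at hi hi'
      rcases hi with rfl | rfl | hi
      · exact h1
      · exact absurd rfl hi'.1
      · by_cases e : i = k
        · rw [e, h3]
        · exact absurd hi (hi'.2 e)) h.hc (by simp) (by rw [h2]; exact one_ne_zero)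
  have := h.ch.repr_sup (Z := {c}) (by simp) hρ hs
  rwa [Finset.sum_singleton, h2, one_smul] at this

theorem KS.B1 (h : KS R E K t c M) {k l : ι} (hk : k ∈ E) (hl : l ∈ E) (hkl : k ≠ l)
    {d d' : ℝ} (hd : 0 < d) (hd' : 0 < d') (hmk : K.B c + d • K.B k ∈ R)
    (hml : K.B c + d' • K.B l ∈ R) :
    E = {k, l} ∧ K.B c + M k • K.B k ∈ R ∧
      ∀ ρ ∈ R, K.x t ρ = 0 → K.x c ρ = 1 → K.x l ρ = 0 → K.x k ρ = 0 ∨ K.x k ρ = M k := by
  set S := insert t (insert c E) with hS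
  have hsub : ({c, t, k, l} : Finset ι) ⊆ S := by
    intro i hi
    simp only [Finset.mem_insert, Finset.mem_singleton] at hi
    rcases hi with rfl | rfl | rfl | rfl
    · exact h.hc
    · exact h.ht
    · exact h.hE hk
    · exact h.hE hl
  obtain ⟨co, τ, hτ, a1, a2, a3, -, a5⟩ :=
    ct (h.sys.loc h.ch _) (h.ch.loc hsub) (c := c) (by simp)
  have he : ({c, t, k, l} : Finset ι).erase c = {t, k, l} :=
    Finset.erase_insert (by simp [h.tc.symm, h.cj hk, h.cj hl])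
  simp only [he, Finset.sum_insert (show t ∉ ({k, l} : Finset ι) by simp [h.tj hk, h.tj hl]),
    Finset.sum_pair hkl] at a2 a3
  have btt := h.ch.x_self h.ht
  have bcc := h.ch.x_self h.hc
  have bkk := h.ch.x_self (h.hE hk)
  have bll := h.ch.x_self (h.hE hl)
  have btc := h.ch.x_ne h.ht h.hc h.tc
  have bct := h.ch.x_ne h.hc h.ht h.tc.symm
  have bkt := h.ch.x_ne (h.hE hk) h.ht (h.tj hk).symm
  have bkc := h.ch.x_ne (h.hE hk) h.hc (h.cj hk).symm
  have blt := h.ch.x_ne (h.hE hl) h.ht (h.tj hl).symm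
  have blc := h.ch.x_ne (h.hE hl) h.hc (h.cj hl).symm
  have btk := h.ch.x_ne h.ht (h.hE hk) (h.tj hk)
  have btl := h.ch.x_ne h.ht (h.hE hl) (h.tj hl)
  have bck := h.ch.x_ne h.hc (h.hE hk) (h.cj hk)
  have bcl := h.ch.x_ne h.hc (h.hE hl) (h.cj hl)
  have bkl := h.ch.x_ne (h.hE hk) (h.hE hl) hkl
  have blk := h.ch.x_ne (h.hE hl) (h.hE hk) hkl.symm
  have sup2 : ∀ i ∈ ({c, t, k, l} : Finset ι), ∀ j ∈ ({c, t, k, l} : Finset ι), ∀ s : ℝ,
      Sup S K {c, t, k, l} (K.B i + s • K.B j) := fun i hi j hj s r hr hr' => by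
    rw [map_add, map_smul, h.ch.sup_B (hsub hi) hi r hr hr', h.ch.sup_B (hsub hj) hj r hr hr',
      smul_zero, add_zero]
  have e0 : co t = 1 := by
    refine h.co_t hk (a1 t (by simp) h.tc).2.1 (by simp [btt, btc]) (by simp [bct, bcc])
      (by simp [bkt, bkc]) ?_
    have := a3 _ ⟨h.tcm, by simpa using sup2 t (by simp) c (by simp) 1⟩ t (by simp) h.tc
      (by simp [btt, btc])
    simpa [btt, btc, bct, bcc, bkt, bkc, blt, blc] using this
  have ek := a3 _ ⟨hmk, sup2 c (by simp) k (by simp) d⟩ k (by simp) (h.cj hk).symm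
    (by simp [bkc, bkk, hd])
  have el := a3 _ ⟨hml, sup2 c (by simp) l (by simp) d'⟩ l (by simp) (h.cj hl).symm
    (by simp [blc, bll, hd'])
  have fk := h.le _ hmk (by simp [btc, btk]) (by simp [bcc, bck]) k hk
  have fl := h.le _ hml (by simp [btc, btl]) (by simp [bcc, bcl]) l hl
  simp only [map_add, map_smul, btc, btk, btl, bcc, bck, bcl, bkc, bkk, bkl, blc, blk, bll,
    smul_eq_mul, mul_zero, mul_one, add_zero, zero_add] at ek el fk fl
  have ck : 0 < co k := by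
    by_contra h'
    push Not at h'
    nlinarith
  have cl : 0 < co l := by
    by_contra h'
    push Not at h'
    nlinarith
  have gt := a5 t (by simp) h.tc (by rw [e0]; exact one_pos)
  have gk := a5 k (by simp) (h.cj hk).symm ck
  have gl := a5 l (by simp) (h.cj hl).symm cl
  rw [e0, one_mul] at gt a2
  have hf : K.x c τ = 2 * K.x t τ ∧ ∀ j ∈ E, K.x j τ = M j * K.x t τ := by
    rcases h.forms τ hτ.1 with f | f | f | f
    · linarith
    · linarith [f.1]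
    · linarith
    · exact f
  have hE : E = {k, l} := by
    refine Finset.Subset.antisymm (fun j hj => ?_) (by
      intro j hj
      rcases Finset.mem_insert.mp hj with rfl | hj
      · exact hk
      · rw [Finset.mem_singleton.mp hj]; exact hl)
    by_contra hn
    have e1 := hτ.2 j (h.hE hj) (by
      simp only [Finset.mem_insert, Finset.mem_singleton, not_or] at hn ⊢
      exact ⟨(h.cj hj).symm, (h.tj hj).symm, hn.1, hn.2⟩)
    have e2 := hf.2 j hj
    have e3 := h.pos j hj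
    nlinarith
  have mk : 1 ≤ co k * M k := by nlinarith
  have ml : 1 ≤ co l * M l := by nlinarith
  have key : co k * M k = 1 := by
    rw [hf.1, hf.2 k hk, hf.2 l hl] at a2
    nlinarith
  have hM := h.pos k hk
  refine ⟨hE, ?_, fun ρ hρ h1 h2 h3 => ?_⟩
  · have := h.sys.smul _ (a1 k (by simp) (h.cj hk).symm).2.1 (M k) hM.ne'
    rwa [smul_add, smul_smul, mul_comm, key, one_smul, add_comm] at this
  · have hz0 : 0 ≤ K.x k ρ := h.ch.nonneg hρ h.hc (by rw [h2]; exact one_pos) k (h.hE hk)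
    rcases hz0.eq_or_lt with hz | hz
    · exact Or.inl hz.symm
    right
    have := a3 ρ ⟨hρ, fun i hi hi' => absurd (by
      rw [hE] at hi
      simp only [Finset.mem_insert, Finset.mem_singleton] at hi ⊢
      tauto) hi'⟩ k (by simp) (h.cj hk).symm hz
    rw [h1, h2, h3] at this
    have e1 := h.le ρ hρ h1 h2 k hk
    nlinarith

theorem KS.B2 (h : KS R E K t c M) {k l : ι} (hkl : k ≠ l) (hE : E = {k, l})
    (hmk : K.B c + M k • K.B k ∈ R)
    (h1 : ∀ ρ ∈ R, K.x t ρ = 0 → K.x c ρ = 1 → K.x l ρ = 0 → K.x k ρ = 0 ∨ K.x k ρ = M k)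
    (h2 : ∀ ρ ∈ R, K.x t ρ = 0 → K.x c ρ = 1 → K.x k ρ = M k → K.x l ρ = 0 ∨ K.x l ρ = M l)
    {σ : V} (hσ : σ ∈ R) (s1 : K.x t σ = 0) (s2 : K.x c σ = 0) (s3 : 0 < K.x l σ) :
    K.x k σ * M l ≤ K.x l σ * M k := by
  have hk : k ∈ E := by simp [hE]
  have hl : l ∈ E := by simp [hE]
  set S := insert t (insert c E) with hS
  have hsub : ({k, c, l} : Finset ι) ⊆ S := by
    intro i hi
    simp only [Finset.mem_insert, Finset.mem_singleton] at hi
    rcases hi with rfl | rfl | rfl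
    · exact h.hE hk
    · exact h.hc
    · exact h.hE hl
  have sp : ∀ v, Sup S K {k, c, l} v ↔ K.x t v = 0 := fun v => by
    refine ⟨fun hv => hv t h.ht (by simp [h.tc, h.tj hk, h.tj hl]), fun hv i hi hi' => ?_⟩
    rw [hS, hE] at hi
    simp only [Finset.mem_insert, Finset.mem_singleton, not_or] at hi hi'
    rcases hi with rfl | hi
    · exact hv
    · tauto
  obtain ⟨α, β, τ, hτ, -, -, a0, a1, a2, -, a4, a5⟩ :=
    ct3 (h.sys.loc h.ch _) (h.ch.loc hsub) (h.cj hk).symm hkl (h.cj hl)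
  have bcc := h.ch.x_self h.hc
  have bkk := h.ch.x_self (h.hE hk)
  have btc := h.ch.x_ne h.ht h.hc h.tc
  have bkc := h.ch.x_ne (h.hE hk) h.hc (h.cj hk).symm
  have blc := h.ch.x_ne (h.hE hl) h.hc (h.cj hl).symm
  have btk := h.ch.x_ne h.ht (h.hE hk) (h.tj hk)
  have bck := h.ch.x_ne h.hc (h.hE hk) (h.cj hk)
  have blk := h.ch.x_ne (h.hE hl) (h.hE hk) hkl.symm
  have hMk := h.pos k hk
  have hMl := h.pos l hl
  have e1 := a2 _ ⟨hmk, (sp _).mpr (by simp [btc, btk])⟩ (Or.inl (by simp [bcc, bck]))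
  have e2 := h1 _ a0.1 (by simp [btc, btk]) (by simp [bcc, bck]) (by simp [blc, blk])
  simp only [map_add, map_smul, bcc, bck, bkc, bkk, blc, blk,
    smul_eq_mul, mul_zero, mul_one, add_zero, zero_add] at e1 e2
  have hα : α = M k := by
    rcases e2 with e | e
    · linarith
    · exact e
  subst hα
  have e3 := a2 σ ⟨hσ, (sp _).mpr s1⟩ (Or.inr s3)
  rw [s2, mul_zero, zero_add] at e3
  by_contra hn
  push Not at hn
  have hβ : M k < β * M l := by nlinarith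
  have hβ0 : 0 < β := by
    by_contra h'
    push Not at h'
    nlinarith
  have g1 := a4 hMk
  have g2 := a5 hβ0
  have hw : 0 < K.x c τ := by
    by_contra h'
    push Not at h'
    nlinarith
  have ht0 : K.x t τ = 0 := (sp _).mp hτ.2
  have hu := h.sys.smul τ hτ.1 (K.x c τ)⁻¹ (inv_pos.mpr hw).ne'
  have u1 : K.x t ((K.x c τ)⁻¹ • τ) = 0 := by simp [ht0]
  have u2 : K.x c ((K.x c τ)⁻¹ • τ) = 1 := by simp [hw.ne']
  have u3 := h.le _ hu u1 u2 k hk
  rw [map_smul, smul_eq_mul, inv_mul_le_iff₀ hw] at u3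
  have u4 : K.x k τ = K.x c τ * M k := by linarith
  have u5 := h2 _ hu u1 u2 (by rw [map_smul, smul_eq_mul, u4]; field_simp)
  rw [map_smul, smul_eq_mul] at u5
  have u6 : β * K.x l τ = 1 := by linarith
  rcases u5 with u | u
  · have : K.x l τ = 0 := by simpa [hw.ne'] using u
    rw [this] at u6
    linarith
  · have : K.x l τ = K.x c τ * M l := by
      rw [← u]; field_simp
    rw [this] at u6
    nlinarith

end HDInd

end Pool.Agent.SimpArr
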