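import Pool.Agent.P.MP_0b4c38_co.HDIndAux1

/-! The lowest roots over the end part and the chamber attached to two indices. -/

set_option autoImplicit false

open Classical

namespace Pool.Agent.SimpArr

variable {V : Type} [AddCommGroup V] [Module ℝ V] {ι : Type}
variable {R : Set V} {κ : Fam ι V}
variable {m : ℕ} {e : ℕ → V} {y : ℕ → V →ₗ[ℝ] ℝ} {E : Finset ι} {t c : ι}

namespace HDInd

/-- Roots whose only nonzero `y` coordinate is `y p = s`. -/
def Hs (R : Set V) (m : ℕ) (y : ℕ → V →ₗ[ℝ] ℝ) (p : ℕ) (s : ℝ) : Set V :=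
  {ρ | ρ ∈ R ∧ y p ρ = s ∧ ∀ q < m, q ≠ p → y q ρ = 0}

/-- `μ` is the lowest end part of the roots in `Hs p s`. -/
def Min (R : Set V) (m : ℕ) (e : ℕ → V) (y : ℕ → V →ₗ[ℝ] ℝ) (E : Finset ι) (κ : Fam ι V)
    (μ : ι → ℝ) (p : ℕ) (s : ℝ) : Prop :=
  s • e p + ∑ j ∈ E, μ j • κ.B j ∈ R ∧ ∀ ρ ∈ Hs R m y p s, ∀ j ∈ E, μ j ≤ κ.x j ρ

theorem sq_one {s : ℝ} (hs : s = 1 ∨ s = -1) : s * s = 1 := by
  rcases hs with rfl | rfl <;> norm_num

theorem neg_sign {s : ℝ} (hs : s = 1 ∨ s = -1) : -s = 1 ∨ -s = -1 := by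
  rcases hs with rfl | rfl <;> norm_num

theorem y_comb (h : HD R m e y E κ t c) {p : ℕ} (hp : p < m) (a : ι → ℝ) :
    y p (∑ j ∈ E, a j • κ.B j) = 0 := by
  rw [map_sum]
  exact Finset.sum_eq_zero fun j hj => by rw [map_smul, h.yB p hp j hj, smul_zero]

theorem x_comb (h : HD R m e y E κ t c) (a : ι → ℝ) {i : ι} (hi : i ∈ E) :
    κ.x i (∑ j ∈ E, a j • κ.B j) = a i := by
  rw [h.ch.x_sum (Finset.Subset.refl _) a hi, if_pos hi]

theorem y_self (h : HD R m e y E κ t c) {p : ℕ} (hp : p < m) : y p (e p) = 1 := by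
  simpa using h.dual p hp p hp

theorem y_ne (h : HD R m e y E κ t c) {p q : ℕ} (hp : p < m) (hq : q < m) (hpq : p ≠ q) :
    y p (e q) = 0 := by
  simpa [hpq] using h.dual p hp q hq

theorem Hs.neg (h : HD R m e y E κ t c) {p : ℕ} {s : ℝ} {ρ : V} (hρ : ρ ∈ Hs R m y p s) :
    -ρ ∈ Hs R m y p (-s) :=
  ⟨h.sys.neg_mem hρ.1, by rw [map_neg, hρ.2.1], fun q hq hqp => by
    rw [map_neg, hρ.2.2 q hq hqp, neg_zero]⟩

theorem Hs.repr (h : HD R m e y E κ t c) {p : ℕ} (hp : p < m) {s : ℝ} {ρ : V}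
    (hρ : ρ ∈ Hs R m y p s) : ρ = s • e p + ∑ j ∈ E, κ.x j ρ • κ.B j := by
  conv_lhs => rw [h.repr ρ hρ.1]
  rw [Finset.sum_eq_single p, hρ.2.1]
  · intro q hq hqp
    rw [hρ.2.2 q (Finset.mem_range.mp hq) hqp, zero_smul]
  · intro hn
    exact absurd (Finset.mem_range.mpr hp) hn

theorem mem_Hs (h : HD R m e y E κ t c) {p : ℕ} (hp : p < m) {s : ℝ} {v : V}
    (hv : ∀ q < m, y q v = 0) (hm : s • e p + v ∈ R) : s • e p + v ∈ Hs R m y p s :=
  ⟨hm, by simp [y_self h hp, hv p hp], fun q hq hqp => by simp [y_ne h hq hp hqp, hv q hq]⟩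

/-- Every root is of the first form, or in the end part, or a multiple of a root in `Hs p 1`. -/
theorem cases3 (h : HD R m e y E κ t c) {ρ : V} (hρ : ρ ∈ R) :
    (∃ p < m, ∃ q < m, p ≠ q ∧ ∃ s : ℝ, s ≠ 0 ∧ (ρ = s • (e p - e q) ∨ ρ = s • (e p + e q))) ∨
    (∀ q < m, y q ρ = 0) ∨
    ∃ p < m, ∃ s : ℝ, s ≠ 0 ∧ ∃ σ ∈ Hs R m y p 1, ρ = s • σ := by
  rcases h.all ρ hρ with ⟨p, hp, q, hq, hpq, s, hs⟩ | ⟨p, hp, hy⟩
  · refine Or.inl ⟨p, hp, q, hq, hpq, s, ?_, hs⟩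
    rintro rfl
    apply h.sys.ne ρ hρ
    simpa using hs
  · by_cases h0 : y p ρ = 0
    · refine Or.inr (Or.inl fun q hq => ?_)
      by_cases e : q = p
      · rw [e, h0]
      · exact hy q hq e
    · refine Or.inr (Or.inr ⟨p, hp, y p ρ, h0, (y p ρ)⁻¹ • ρ,
        ⟨h.sys.smul _ hρ _ (inv_ne_zero h0), by simp [h0], fun q hq hqp => by
          simp [hy q hq hqp]⟩, ?_⟩)
      rw [smul_smul, mul_inv_cancel₀ h0, one_smul]

theorem flip (h : HD R m e y E κ t c) {σ : ℕ → ℝ} (hσ : ∀ p, σ p = 1 ∨ σ p = -1) :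
    HD R m (fun p => σ p • e p) (fun p => σ p • y p) E κ t c where
  sys := h.sys
  hm := h.hm
  tc := h.tc
  tE := h.tE
  cE := h.cE
  dual := fun p hp q hq => by
    simp only [LinearMap.smul_apply, map_smul, smul_eq_mul, h.dual p hp q hq]
    split_ifs with e
    · subst e
      rw [mul_one, sq_one (hσ p)]
    · simp
  yB := fun p hp j hj => by simp [h.yB p hp j hj]
  xe := fun j hj p hp => by simp [h.xe j hj p hp]
  ch := by
    have hne : ∀ p, σ p ≠ 0 := fun p => by rcases hσ p with e | e <;> simp [e]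
    simpa [hne] using h.ch
  repr := fun ρ hρ => by
    conv_lhs => rw [h.repr ρ hρ]
    congr 1
    refine Finset.sum_congr rfl fun p _ => ?_
    rw [LinearMap.smul_apply, smul_eq_mul, smul_smul, mul_right_comm, sq_one (hσ p), one_mul]
  root := fun p hp q hq hpq => by
    obtain ⟨h1, h2⟩ := h.root p hp q hq hpq
    have h3 := h.sys.neg_mem h1
    have h4 := h.sys.neg_mem h2
    rcases hσ p with e1 | e1 <;> rcases hσ q with e2 | e2 <;> simp only [e1, e2] <;>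
      constructor
    · convert h1 using 1; module
    · convert h2 using 1; module
    · convert h2 using 1; module
    · convert h1 using 1; module
    · convert h4 using 1; module
    · convert h3 using 1; module
    · convert h3 using 1; module
    · convert h4 using 1; module
  all := fun ρ hρ => by
    rcases h.all ρ hρ with ⟨p, hp, q, hq, hpq, s, hs⟩ | ⟨p, hp, hy⟩
    · refine Or.inl ⟨p, hp, q, hq, hpq, s * σ p, ?_⟩
      rcases hσ p with e1 | e1 <;> rcases hσ q with e2 | e2 <;> rcases hs with rfl | rfl <;>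
        simp only [e1, e2]
      · left; module
      · right; module
      · right; module
      · left; module
      · right; module
      · left; module
      · left; module
      · right; module
    · exact Or.inr ⟨p, hp, fun q hq hqp => by simp [hy q hq hqp]⟩
  vary := fun j hj => by
    obtain ⟨ρ, hρ, p, hp, h1, h2⟩ := h.vary j hj
    refine ⟨ρ, hρ, p, hp, ?_, h2⟩
    rcases hσ p with e | e <;> simpa [e] using h1

theorem Hs_flip {σ : ℕ → ℝ} (hσ : ∀ p, σ p = 1 ∨ σ p = -1) {p : ℕ} {s : ℝ} {ρ : V} :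
    ρ ∈ Hs R m (fun p => σ p • y p) p s ↔ ρ ∈ Hs R m y p (s * σ p) := by
  have hne : ∀ p, σ p ≠ 0 := fun p => by rcases hσ p with e | e <;> simp [e]
  have : σ p * y p ρ = s ↔ y p ρ = s * σ p := by
    rcases hσ p with e | e <;> rw [e] <;> constructor <;> intro h <;> linarith
  simp [Hs, hne, this]

theorem Min_flip {σ : ℕ → ℝ} (hσ : ∀ p, σ p = 1 ∨ σ p = -1) {μ : ι → ℝ} {p : ℕ} {s : ℝ} :
    Min R m (fun p => σ p • e p) (fun p => σ p • y p) E κ μ p s ↔
      Min R m e y E κ μ p (s * σ p) := by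
  simp only [Min, Hs_flip hσ, smul_smul]

theorem tot_pair (h : HD R m e y E κ t c) (w : ℕ → ℝ) {a : ℕ} (ha : a < m) :
    ∑ q ∈ Finset.range m, w q * y q (e a) = w a := by
  rw [Finset.sum_eq_single a, y_self h ha, mul_one]
  · intro q hq hqa
    rw [y_ne h (Finset.mem_range.mp hq) ha hqa, mul_zero]
  · intro hn
    exact absurd (Finset.mem_range.mpr ha) hn

/-- The lowest root of total weight one can be chosen in `Hs p 1` for every `p`. -/
theorem lemL (h : HD R m e y E κ t c) {q0 : ℕ} (hq0 : q0 < m) {ρ0 : V} (h0 : ρ0 ∈ Hs R m y q0 1)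
    {j0 : ι} (hj0 : j0 ∈ E) (hn : κ.x j0 ρ0 < 0) {p : ℕ} (hp : p < m) :
    ∃ u ∈ Hs R m y p 1, ∀ q < m, ∀ ρ ∈ Hs R m y q 1, ∀ j ∈ E, κ.x j u ≤ κ.x j ρ := by
  set w : ℕ → ℝ := fun q => if q = p then 0 else q + 1 with hw
  set f : V →ₗ[ℝ] ℝ := ∑ q ∈ Finset.range m, y q with hf
  set ψ : V →ₗ[ℝ] ℝ := ∑ q ∈ Finset.range m, w q • y q + ∑ j ∈ E, κ.x j with hψ
  have fa : ∀ v, f v = ∑ q ∈ Finset.range m, y q v := fun v => by simp [hf]
  have ψa : ∀ v, ψ v = ∑ q ∈ Finset.range m, w q * y q v + ∑ j ∈ E, κ.x j v := fun v => by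
    simp [hψ]
  have fe : ∀ a < m, f (e a) = 1 := fun a ha => by
    simpa [fa] using tot_pair h (fun _ => 1) ha
  have ψe : ∀ a < m, ψ (e a) = w a := fun a ha => by
    rw [ψa, tot_pair h w ha, Finset.sum_eq_zero fun j hj => h.xe j hj a ha, add_zero]
  have fH : ∀ q < m, ∀ ρ ∈ Hs R m y q 1, f ρ = 1 := fun q hq ρ hρ => by
    rw [fa, Finset.sum_eq_single q, hρ.2.1]
    · intro r hr hrq
      exact hρ.2.2 r (Finset.mem_range.mp hr) hrq
    · intro hn
      exact absurd (Finset.mem_range.mpr hq) hn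
  have winj : ∀ a b, a ≠ b → w a ≠ w b := fun a b hab => by
    simp only [hw]
    split_ifs with e1 e2 e2
    · exact absurd (e1.trans e2.symm) hab
    · positivity
    · positivity
    · intro e
      exact hab (by exact_mod_cast add_right_cancel e)
  have zero : ∀ α ∈ R, f α = 0 → (∃ a < m, ∃ b < m, a ≠ b ∧ ∃ s : ℝ, s ≠ 0 ∧ α = s • (e a - e b)) ∨
      ∀ q < m, y q α = 0 := by
    intro α hα h0
    rcases cases3 h hα with ⟨a, ha, b, hb, hab, s, hs, rfl | rfl⟩ | h1 | ⟨a, ha, s, hs, σ, hσ, rfl⟩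
    · exact Or.inl ⟨a, ha, b, hb, hab, s, hs, rfl⟩
    · rw [map_smul, map_add, fe a ha, fe b hb, smul_eq_mul] at h0
      exact absurd (by linarith) hs
    · exact Or.inr h1
    · rw [map_smul, fH a ha σ hσ, smul_eq_mul, mul_one] at h0
      exact absurd h0 hs
  have ψ0 : ∀ α, (∀ q < m, y q α = 0) → ψ α = ∑ j ∈ E, κ.x j α := fun α h1 => by
    rw [ψa, Finset.sum_eq_zero fun q hq => by rw [h1 q (Finset.mem_range.mp hq), mul_zero],
      zero_add]
  have sys0 : Sys {ρ | ρ ∈ R ∧ ∀ p < m, y p ρ = 0} := by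
    simpa using h.sys.kers (Finset.range m) y
  obtain ⟨u, hu, fu, hmin⟩ := minRoot h.sys f ψ (by
    intro α hα h0
    rcases zero α hα h0 with ⟨a, ha, b, hb, hab, s, hs, rfl⟩ | h1
    · rw [map_smul, map_sub, ψe a ha, ψe b hb, smul_eq_mul]
      exact mul_ne_zero hs (sub_ne_zero.mpr (winj a b hab))
    · rw [ψ0 α h1]
      obtain ⟨i, hi, hi0⟩ := h.ch.exists_ne sys0 (ρ := α) ⟨hα, h1⟩
      intro hs
      rcases h.ch.sign α ⟨hα, h1⟩ with h2 | h2
      · exact hi0 ((Finset.sum_eq_zero_iff_of_nonneg h2).mp hs i hi)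
      · exact hi0 ((Finset.sum_eq_zero_iff_of_nonpos h2).mp hs i hi)) (by
    intro v hv h0
    have hr : v = ∑ q ∈ Finset.range m, y q v • e q + ∑ j ∈ E, κ.x j v • κ.B j := by
      clear h0
      induction hv using Submodule.span_induction with
      | mem v hv => exact h.repr v hv
      | zero => simp
      | add u w _ _ hu hw =>
        simp only [map_add, add_smul, Finset.sum_add_distrib]
        rw [add_add_add_comm, ← hu, ← hw]
      | smul c u _ hu =>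
        simp only [map_smul, smul_eq_mul, mul_smul, ← Finset.smul_sum, ← smul_add]
        rw [← hu]
    have h2 : ∑ q ∈ Finset.range m, y q v • e q = ∑ q ∈ Finset.range m, y q v • (e q - e p) := by
      simp only [smul_sub, Finset.sum_sub_distrib, ← Finset.sum_smul]
      rw [← fa, h0, zero_smul, sub_zero]
    rw [hr, h2]
    refine add_mem (Submodule.sum_mem _ fun q hq => Submodule.smul_mem _ _ ?_)
      (Submodule.sum_mem _ fun j hj => Submodule.smul_mem _ _ (Submodule.subset_span ?_))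
    · have hq := Finset.mem_range.mp hq
      by_cases e : q = p
      · simp [e]
      · exact Submodule.subset_span ⟨(h.root q hq p hp e).1, by
          rw [map_sub, fe q hq, fe p hp, sub_self]⟩
    · exact ⟨(h.ch.mem j hj).1, by
        rw [fa]
        exact Finset.sum_eq_zero fun q hq => h.yB q (Finset.mem_range.mp hq) j hj⟩)
    ⟨ρ0, h0.1, fH q0 hq0 ρ0 h0⟩
  have hx : ∀ j ∈ E, ∀ ρ ∈ R, f ρ = 1 → κ.x j u ≤ κ.x j ρ := by
    intro j hj
    refine hmin (κ.x j) fun α hα h0 hp => ?_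
    rcases zero α hα h0 with ⟨a, ha, b, hb, -, s, -, rfl⟩ | h1
    · simp [h.xe j hj a ha, h.xe j hj b hb]
    · rw [ψ0 α h1] at hp
      obtain ⟨i, hi, hi0⟩ := sum_pos_exists hp
      exact h.ch.nonneg (ρ := α) ⟨hα, h1⟩ hi hi0 j hj
  obtain ⟨q, hq, hqp⟩ : ∃ q < m, q ≠ p := by
    have := h.hm
    by_cases e : p = 0
    · exact ⟨1, by omega, by omega⟩
    · exact ⟨0, by omega, Ne.symm e⟩
  have hy : (1 / 2 : ℝ) ≤ y p u := by
    have := hmin (-y p) (fun α hα h0 hp' => ?_) ((1 / 2 : ℝ) • (e p + e q))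
      (h.sys.smul _ (h.root p hp q hq hqp.symm).2 _ (by norm_num))
      (by rw [map_smul, map_add, fe p hp, fe q hq]; norm_num)
    · simpa [y_self h hp, y_ne h hp hq hqp.symm] using this
    · rcases zero α hα h0 with ⟨a, ha, b, hb, hab, s, -, rfl⟩ | h1
      · rw [map_smul, map_sub, ψe a ha, ψe b hb, smul_eq_mul] at hp'
        simp only [LinearMap.neg_apply, map_smul, map_sub, h.dual p hp a ha, h.dual p hp b hb,
          smul_eq_mul]
        simp only [hw] at hp'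
        have ha0 : (0 : ℝ) ≤ a := Nat.cast_nonneg a
        have hb0 : (0 : ℝ) ≤ b := Nat.cast_nonneg b
        by_cases e1 : a = p
        · have e2 : b ≠ p := fun e => hab (e1.trans e.symm)
          rw [if_pos e1, if_neg e2] at hp'
          rw [if_pos e1.symm, if_neg e2.symm]
          nlinarith
        · by_cases e2 : b = p
          · rw [if_neg e1, if_pos e2] at hp'
            rw [if_neg (Ne.symm e1), if_pos e2.symm]
            nlinarith
          · rw [if_neg (Ne.symm e1), if_neg (Ne.symm e2)]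
            simp
      · simp [h1 p hp]
  have hneg := (hx j0 hj0 ρ0 h0.1 (fH q0 hq0 ρ0 h0)).trans_lt hn
  refine ⟨u, ?_, fun q hq ρ hρ j hj => hx j hj ρ hρ.1 (fH q hq ρ hρ)⟩
  rcases cases3 h hu with ⟨a, ha, b, hb, -, s, -, rfl | rfl⟩ | h1 | ⟨a, ha, s, -, σ, hσ, rfl⟩
  · simp [h.xe j0 hj0 a ha, h.xe j0 hj0 b hb] at hneg
  · simp [h.xe j0 hj0 a ha, h.xe j0 hj0 b hb] at hneg
  · rw [h1 p hp] at hy
    linarith
  · rw [map_smul, fH a ha σ hσ, smul_eq_mul, mul_one] at fu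
    subst fu
    rw [one_smul] at hy ⊢
    by_cases e : p = a
    · rwa [e]
    · rw [hσ.2.2 p hp e] at hy
      linarith

theorem Min.unique (h : HD R m e y E κ t c) {μ ν : ι → ℝ} {p : ℕ} (hp : p < m) {s : ℝ}
    (h1 : Min R m e y E κ μ p s) (h2 : Min R m e y E κ ν p s) : ∀ j ∈ E, μ j = ν j := by
  intro j hj
  have e1 := h1.2 _ (mem_Hs h hp (fun q hq => y_comb h hq ν) h2.1) j hj
  have e2 := h2.2 _ (mem_Hs h hp (fun q hq => y_comb h hq μ) h1.1) j hj
  simp only [map_add, map_smul, h.xe j hj p hp, smul_zero, zero_add, x_comb h _ hj] at e1 e2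
  linarith

theorem Min.congr {μ ν : ι → ℝ} {p : ℕ} {s : ℝ} (h1 : Min R m e y E κ μ p s)
    (h2 : ∀ j ∈ E, μ j = ν j) : Min R m e y E κ ν p s :=
  ⟨by
    have : ∑ j ∈ E, ν j • κ.B j = ∑ j ∈ E, μ j • κ.B j :=
      Finset.sum_congr rfl fun j hj => by rw [h2 j hj]
    rw [this]
    exact h1.1, fun ρ hρ j hj => h2 j hj ▸ h1.2 ρ hρ j hj⟩

theorem lemL2 (h : HD R m e y E κ t c) {p q : ℕ} (hp : p < m) (hq : q < m) (hpq : p ≠ q)
    {s s' : ℝ} (hs : s = 1 ∨ s = -1) (hs' : s' = 1 ∨ s' = -1) {ρ0 : V} (h0 : ρ0 ∈ Hs R m y q s')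
    {j0 : ι} (hj0 : j0 ∈ E) (hn : κ.x j0 ρ0 < 0) :
    ∃ μ : ι → ℝ, Min R m e y E κ μ p s ∧ Min R m e y E κ μ q s' := by
  set σ : ℕ → ℝ := fun r => if r = p then s else s' with hσ'
  have hσ : ∀ r, σ r = 1 ∨ σ r = -1 := fun r => by
    simp only [hσ']
    split_ifs
    · exact hs
    · exact hs'
  have σp : σ p = s := by simp [hσ']
  have σq : σ q = s' := by simp [hσ', hpq.symm]
  have h' := flip h hσ
  have h0' : ρ0 ∈ Hs R m (fun p => σ p • y p) q 1 := by rwa [Hs_flip hσ, one_mul, σq]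
  obtain ⟨u, hu, hu'⟩ := lemL h' hq h0' hj0 hn hp
  obtain ⟨v, hv, hv'⟩ := lemL h' hq h0' hj0 hn hq
  have e : ∀ j ∈ E, κ.x j v = κ.x j u := fun j hj =>
    le_antisymm (hv' p hp u hu j hj) (hu' q hq v hv j hj)
  refine ⟨fun j => κ.x j u, ?_, ?_⟩
  · rw [← σp, ← one_mul (σ p), ← Min_flip hσ]
    exact ⟨by rw [← Hs.repr h' hp hu]; exact hu.1, hu' p hp⟩
  · rw [← σq, ← one_mul (σ q), ← Min_flip hσ]
    exact Min.congr (μ := fun j => κ.x j v) ⟨by rw [← Hs.repr h' hq hv]; exact hv.1, hv' q hq⟩ e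

theorem vary' (h : HD R m e y E κ t c) {j : ι} (hj : j ∈ E) :
    ∃ p < m, ∃ s : ℝ, (s = 1 ∨ s = -1) ∧ ∃ ρ ∈ Hs R m y p s, κ.x j ρ < 0 := by
  obtain ⟨ρ, hρ, p, hp, h1, h2⟩ := h.vary j hj
  rcases cases3 h hρ with ⟨a, ha, b, hb, -, s, -, rfl | rfl⟩ | h3 | ⟨a, ha, s, -, σ, hσ, rfl⟩
  · simp [h.xe j hj a ha, h.xe j hj b hb] at h2
  · simp [h.xe j hj a ha, h.xe j hj b hb] at h2
  · exact absurd (h3 p hp) h1
  · have : κ.x j σ ≠ 0 := fun e => h2 (by simp [e])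
    rcases lt_or_gt_of_ne this with h4 | h4
    · exact ⟨a, ha, 1, Or.inl rfl, σ, hσ, h4⟩
    · exact ⟨a, ha, -1, Or.inr rfl, -σ, Hs.neg h hσ, by rw [map_neg]; linarith⟩

theorem other (h : HD R m e y E κ t c) (p : ℕ) : ∃ q < m, q ≠ p := by
  have := h.hm
  by_cases e : p = 0
  · exact ⟨1, by omega, by omega⟩
  · exact ⟨0, by omega, Ne.symm e⟩

/-- The lowest end part is the same for all indices and signs. -/
def Low (R : Set V) (m : ℕ) (e : ℕ → V) (y : ℕ → V →ₗ[ℝ] ℝ) (E : Finset ι) (κ : Fam ι V)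
    (μ : ι → ℝ) : Prop :=
  (∀ j ∈ E, μ j < 0) ∧ ∀ p < m, ∀ s : ℝ, (s = 1 ∨ s = -1) → Min R m e y E κ μ p s

theorem low (h : HD R m e y E κ t c) {j0 : ι} (hj0 : j0 ∈ E) : ∃ μ, Low R m e y E κ μ := by
  obtain ⟨p0, hp0, s0, hs0, ρ0, h0, hn⟩ := vary' h hj0
  obtain ⟨p1, hp1, h10⟩ := other h p0
  obtain ⟨μ, m1, m0⟩ := lemL2 h hp1 hp0 h10 (Or.inl rfl) hs0 h0 hj0 hn
  have hall : ∀ p < m, ∀ s : ℝ, (s = 1 ∨ s = -1) → Min R m e y E κ μ p s := by
    intro p hp s hs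
    by_cases e : p = p0
    · subst e
      obtain ⟨ν, n0, n1⟩ := lemL2 h hp0 hp1 h10.symm hs (Or.inl rfl)
        (mem_Hs h hp1 (fun q hq => y_comb h hq μ) m1.1) hj0 (by
          simp only [map_add, map_smul, h.xe j0 hj0 p1 hp1, smul_zero, zero_add, x_comb h _ hj0]
          exact (m0.2 ρ0 h0 j0 hj0).trans_lt hn)
      exact n0.congr (Min.unique h hp1 n1 m1)
    · obtain ⟨ν, n0, n1⟩ := lemL2 h hp hp0 e hs hs0 h0 hj0 hn
      exact n0.congr (Min.unique h hp0 n1 m0)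
  refine ⟨μ, fun j hj => ?_, hall⟩
  obtain ⟨p, hp, s, hs, ρ, hρ, hn⟩ := vary' h hj
  exact ((hall p hp s hs).2 ρ hρ j hj).trans_lt hn

theorem Low.flip {μ : ι → ℝ} (hl : Low R m e y E κ μ) {σ : ℕ → ℝ} (hσ : ∀ p, σ p = 1 ∨ σ p = -1) :
    Low R m (fun p => σ p • e p) (fun p => σ p • y p) E κ μ := by
  refine ⟨hl.1, fun p hp s hs => (Min_flip hσ).mpr (hl.2 p hp _ ?_)⟩
  rcases hs with rfl | rfl <;> rcases hσ p with e | e <;> simp [e]

theorem Low.le (h : HD R m e y E κ t c) {μ : ι → ℝ} (hl : Low R m e y E κ μ) {p : ℕ} (hp : p < m)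
    {s : ℝ} (hs : s = 1 ∨ s = -1) {ρ : V} (hρ : ρ ∈ Hs R m y p s) {j : ι} (hj : j ∈ E) :
    κ.x j ρ ≤ -μ j := by
  have := (hl.2 p hp _ (neg_sign hs)).2 _ (Hs.neg h hρ) j hj
  rw [map_neg] at this
  linarith

theorem Low.top (h : HD R m e y E κ t c) {μ : ι → ℝ} (hl : Low R m e y E κ μ) {p : ℕ} (hp : p < m)
    {s : ℝ} (hs : s = 1 ∨ s = -1) : s • e p - ∑ j ∈ E, μ j • κ.B j ∈ R := by
  have := h.sys.neg_mem (hl.2 p hp _ (neg_sign hs)).1
  convert this using 1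
  module

end HDInd

end Pool.Agent.SimpArr
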