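import Pool.Agent.P.MP_0b4c38_co.HDIndAux2

/-! The chamber attached to two indices, and its consequences. -/

set_option autoImplicit false

open Classical

namespace Pool.Agent.SimpArr

variable {V : Type} [AddCommGroup V] [Module ℝ V] {ι : Type}
variable {R : Set V} {κ : Fam ι V}
variable {m : ℕ} {e : ℕ → V} {y : ℕ → V →ₗ[ℝ] ℝ} {E : Finset ι} {t c : ι} {μ : ι → ℝ}

namespace HDInd

theorem exK0 (h : HD R m e y E κ t c) (hl : Low R m e y E κ μ) {p q : ℕ} (hp : p < m)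
    (hq : q < m) (hpq : p ≠ q) :
    ∃ (R' : Set V) (K : Fam ι V), KS R' E K t c (fun j => -2 * μ j) ∧
      (∀ ρ, ρ ∈ R' ↔ ρ ∈ R ∧ ∀ r < m, r ≠ p → r ≠ q → y r ρ = 0) ∧
      K.B t = e q - e p ∧ K.B c = e p + ∑ j ∈ E, μ j • κ.B j ∧ (∀ j ∈ E, K.B j = κ.B j) ∧
      (∀ v, K.x t v = y q v) ∧ (∀ v, K.x c v = y p v + y q v) ∧
      ∀ j ∈ E, ∀ v, K.x j v = κ.x j v - μ j * (y p v + y q v) := by
  set R' : Set V := {ρ | ρ ∈ R ∧ ∀ r ∈ (Finset.range m).filter (fun r => r ≠ p ∧ r ≠ q),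
    y r ρ = 0} with hR'
  have mem : ∀ ρ, ρ ∈ R' ↔ ρ ∈ R ∧ ∀ r < m, r ≠ p → r ≠ q → y r ρ = 0 := fun ρ => by
    simp [hR']
  set K : Fam ι V := ⟨fun i => if i = t then e q - e p else
      if i = c then e p + ∑ j ∈ E, μ j • κ.B j else κ.B i,
    fun i => if i = t then y q else if i = c then y p + y q else κ.x i - μ i • (y p + y q)⟩
    with hK
  have tj : ∀ j ∈ E, j ≠ t := fun j hj e => h.tE (e ▸ hj)
  have cj : ∀ j ∈ E, j ≠ c := fun j hj e => h.cE (e ▸ hj)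
  have Bt : K.B t = e q - e p := by simp [hK]
  have Bc : K.B c = e p + ∑ j ∈ E, μ j • κ.B j := by simp [hK, h.tc.symm]
  have Bj : ∀ j ∈ E, K.B j = κ.B j := fun j hj => by simp [hK, tj j hj, cj j hj]
  have xt : ∀ v, K.x t v = y q v := fun v => by simp [hK]
  have xc : ∀ v, K.x c v = y p v + y q v := fun v => by simp [hK, h.tc.symm]
  have xj : ∀ j ∈ E, ∀ v, K.x j v = κ.x j v - μ j * (y p v + y q v) := fun j hj v => by
    simp [hK, tj j hj, cj j hj, mul_add]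
  have ypp := y_self h hp
  have yqq := y_self h hq
  have ypq := y_ne h hp hq hpq
  have yqp := y_ne h hq hp hpq.symm
  have yp0 := y_comb h hp μ
  have yq0 := y_comb h hq μ
  have sys : Sys R' := h.sys.kers _ y
  -- classification of the roots of `R'`
  have cl : ∀ ρ ∈ R', (∃ s : ℝ, ρ = s • (e q - e p) ∨ ρ = s • (e p + e q)) ∨
      (∀ r < m, y r ρ = 0) ∨ (∃ s : ℝ, ∃ σ ∈ Hs R m y p 1, ρ = s • σ) ∨
      ∃ s : ℝ, ∃ σ ∈ Hs R m y q 1, ρ = s • σ := by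
    intro ρ hρ
    obtain ⟨hρ, hy⟩ := (mem ρ).mp hρ
    rcases cases3 h hρ with ⟨a, ha, b, hb, hab, s, hs, hρe⟩ | h1 | ⟨a, ha, s, hs, σ, hσ, rfl⟩
    · left
      have ea : a = p ∨ a = q := by
        by_contra hn
        rw [not_or] at hn
        have := hy a ha hn.1 hn.2
        rcases hρe with rfl | rfl <;> simp [y_self h ha, y_ne h ha hb hab, hs] at this
      have eb : b = p ∨ b = q := by
        by_contra hn
        rw [not_or] at hn
        have := hy b hb hn.1 hn.2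
        rcases hρe with rfl | rfl <;> simp [y_self h hb, y_ne h hb ha hab.symm, hs] at this
      rcases ea with rfl | rfl <;> rcases eb with rfl | rfl
      · exact absurd rfl hab
      · rcases hρe with rfl | rfl
        · exact ⟨-s, Or.inl (by module)⟩
        · exact ⟨s, Or.inr rfl⟩
      · rcases hρe with rfl | rfl
        · exact ⟨s, Or.inl rfl⟩
        · exact ⟨s, Or.inr (by module)⟩
      · exact absurd rfl hab
    · exact Or.inr (Or.inl h1)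
    · by_cases e1 : a = p
      · exact Or.inr (Or.inr (Or.inl ⟨s, σ, e1 ▸ hσ, rfl⟩))
      · by_cases e2 : a = q
        · exact Or.inr (Or.inr (Or.inr ⟨s, σ, e2 ▸ hσ, rfl⟩))
        · have := hy a ha e1 e2
          simp [hσ.2.1, hs] at this
  have sgn : ∀ σ : V, (∀ i ∈ insert t (insert c E), 0 ≤ K.x i σ) → ∀ s : ℝ,
      (∀ i ∈ insert t (insert c E), 0 ≤ K.x i (s • σ)) ∨
        ∀ i ∈ insert t (insert c E), K.x i (s • σ) ≤ 0 := fun σ hσ s => by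
    rcases le_total 0 s with hs | hs
    · exact Or.inl fun i hi => by rw [map_smul]; exact mul_nonneg hs (hσ i hi)
    · exact Or.inr fun i hi => by rw [map_smul]; exact mul_nonpos_of_nonpos_of_nonneg hs (hσ i hi)
  have ch : IsCh R' (insert t (insert c E)) K := by
    refine ⟨?_, ?_, ?_, ?_⟩
    · simp only [Finset.forall_mem_insert]
      refine ⟨⟨?_, ?_, fun j hj => ?_⟩, ⟨?_, ?_, fun j hj => ?_⟩, fun i hi => ⟨?_, ?_, fun j hj => ?_⟩⟩
      · simp [xt, Bt, yqq, yqp]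
      · simp [xt, Bc, yqp, yq0, h.tc]
      · simp [xt, Bj j hj, h.yB q hq j hj, (tj j hj).symm]
      · simp [xc, Bt, ypp, yqq, ypq, yqp, h.tc.symm]
      · simp [xc, Bc, ypp, yqp, yp0, yq0]
      · simp [xc, Bj j hj, h.yB q hq j hj, h.yB p hp j hj, (cj j hj).symm]
      · simp [xj i hi, Bt, ypp, yqq, ypq, yqp, h.xe i hi p hp, h.xe i hi q hq, tj i hi]
      · rw [xj i hi, Bc, map_add, x_comb h μ hi]
        simp [ypp, yqp, yp0, yq0, h.xe i hi p hp, cj i hi]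
      · simp [xj i hi, Bj j hj, h.yB q hq j hj, h.yB p hp j hj, h.ch.dual i hi j hj]
    · simp only [Finset.forall_mem_insert]
      refine ⟨?_, ?_, fun j hj => ?_⟩
      · rw [Bt, mem]
        exact ⟨(h.root q hq p hp hpq.symm).1, fun r hr h1 h2 => by
          simp [y_ne h hr hp h1, y_ne h hr hq h2]⟩
      · rw [Bc, mem]
        exact ⟨by simpa using (hl.2 p hp 1 (Or.inl rfl)).1, fun r hr h1 h2 => by
          rw [map_add, y_ne h hr hp h1, y_comb h hr, add_zero]⟩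
      · rw [Bj j hj, mem]
        exact ⟨(h.ch.mem j hj).1, fun r hr _ _ => h.yB r hr j hj⟩
    · intro ρ hρ
      obtain ⟨hρ, hy⟩ := (mem ρ).mp hρ
      rw [Finset.sum_insert (by simp [h.tc, h.tE]), Finset.sum_insert h.cE, xt, xc, Bt, Bc]
      have e1 : ∑ j ∈ E, K.x j ρ • K.B j = ∑ j ∈ E, κ.x j ρ • κ.B j -
          (y p ρ + y q ρ) • ∑ j ∈ E, μ j • κ.B j := by
        rw [Finset.smul_sum, ← Finset.sum_sub_distrib]
        exact Finset.sum_congr rfl fun j hj => by rw [xj j hj, Bj j hj]; module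
      have e2 : ∑ r ∈ Finset.range m, y r ρ • e r = y p ρ • e p + y q ρ • e q := by
        rw [← Finset.sum_pair (f := fun r => y r ρ • e r) hpq]
        symm
        apply Finset.sum_subset
        · intro r hr
          rcases Finset.mem_insert.mp hr with rfl | hr
          · exact Finset.mem_range.mpr hp
          · rw [Finset.mem_singleton.mp hr]; exact Finset.mem_range.mpr hq
        · intro r hr hr'
          simp only [Finset.mem_insert, Finset.mem_singleton, not_or] at hr'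
          rw [hy r (Finset.mem_range.mp hr) hr'.1 hr'.2, zero_smul]
      rw [e1]
      conv_lhs => rw [h.repr ρ hρ, e2]
      module
    · intro ρ hρ
      rcases cl ρ hρ with ⟨s, rfl | rfl⟩ | h1 | ⟨s, σ, hσ, rfl⟩ | ⟨s, σ, hσ, rfl⟩
      · apply sgn
        simp only [Finset.forall_mem_insert]
        refine ⟨by simp [xt, yqq, yqp], by simp [xc, ypp, yqq, ypq, yqp], fun j hj => ?_⟩
        simp [xj j hj, ypp, yqq, ypq, yqp, h.xe j hj p hp, h.xe j hj q hq]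
      · apply sgn
        simp only [Finset.forall_mem_insert]
        refine ⟨by simp [xt, yqq, yqp], by simp [xc, ypp, yqq, ypq, yqp], fun j hj => ?_⟩
        have := hl.1 j hj
        simp only [xj j hj, map_add, ypp, yqq, ypq, yqp, h.xe j hj p hp, h.xe j hj q hq]
        linarith
      · simp only [Finset.forall_mem_insert, xt, xc, h1 p hp, h1 q hq, add_zero, le_refl,
          true_and]
        rcases h.ch.sign ρ ⟨((mem ρ).mp hρ).1, h1⟩ with h2 | h2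
        · exact Or.inl fun j hj => by simpa [xj j hj, h1 p hp, h1 q hq] using h2 j hj
        · exact Or.inr fun j hj => by simpa [xj j hj, h1 p hp, h1 q hq] using h2 j hj
      · apply sgn
        have e1 := hσ.2.2 q hq hpq.symm
        simp only [Finset.forall_mem_insert]
        refine ⟨by simp [xt, e1], by simp [xc, e1, hσ.2.1], fun j hj => ?_⟩
        simpa [xj j hj, e1, hσ.2.1] using (hl.2 p hp 1 (Or.inl rfl)).2 σ hσ j hj
      · apply sgn
        have e1 := hσ.2.2 p hp hpq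
        simp only [Finset.forall_mem_insert]
        refine ⟨by simp [xt, hσ.2.1], by simp [xc, e1, hσ.2.1], fun j hj => ?_⟩
        simpa [xj j hj, e1, hσ.2.1] using (hl.2 q hq 1 (Or.inl rfl)).2 σ hσ j hj
  refine ⟨R', K, ⟨sys, ch, h.tc, h.tE, h.cE, fun j hj => by linarith [hl.1 j hj], ?_, ?_, ?_, ?_⟩,
    mem, Bt, Bc, Bj, xt, xc, xj⟩
  · intro ρ hρ
    rcases cl ρ hρ with ⟨s, rfl | rfl⟩ | h1 | ⟨s, σ, hσ, rfl⟩ | ⟨s, σ, hσ, rfl⟩
    · refine Or.inr (Or.inl ⟨by simp [xc, ypp, yqq, ypq, yqp], fun j hj => ?_⟩)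
      simp [xj j hj, ypp, yqq, ypq, yqp, h.xe j hj p hp, h.xe j hj q hq]
    · refine Or.inr (Or.inr (Or.inr ⟨?_, fun j hj => ?_⟩))
      · simp only [xc, xt, map_smul, map_add, ypp, yqq, ypq, yqp, smul_eq_mul]
        ring
      · simp only [xj j hj, xt, map_smul, map_add, ypp, yqq, ypq, yqp, smul_eq_mul,
          h.xe j hj p hp, h.xe j hj q hq]
        ring
    · exact Or.inl (by rw [xt, h1 q hq])
    · exact Or.inl (by simp [xt, hσ.2.2 q hq hpq.symm])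
    · exact Or.inr (Or.inr (Or.inl (by simp [xt, xc, hσ.2.2 p hp hpq])))
  · rw [Bt, Bc, mem]
    refine ⟨?_, fun r hr h1 h2 => ?_⟩
    · convert (hl.2 q hq 1 (Or.inl rfl)).1 using 1
      module
    · rw [map_add, map_add, map_sub, y_ne h hr hp h1, y_ne h hr hq h2, y_comb h hr]
      simp
  · refine ⟨e p - ∑ j ∈ E, μ j • κ.B j, (mem _).mpr
      ⟨by simpa using hl.top h hp (Or.inl rfl), fun r hr h1 h2 => ?_⟩, ?_, ?_, fun j hj => ?_⟩
    · rw [map_sub, y_ne h hr hp h1, y_comb h hr, sub_zero]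
    · rw [xt, map_sub, yqp, yq0, sub_zero]
    · rw [xc, map_sub, map_sub, yqp, yq0, ypp, yp0]
      norm_num
    · rw [xj j hj, map_sub, map_sub, map_sub, yqp, yq0, ypp, yp0, x_comb h μ hj, h.xe j hj p hp]
      ring
  · intro ρ hρ h1 h2 j hj
    obtain ⟨hρ, hy⟩ := (mem ρ).mp hρ
    rw [xt] at h1
    rw [xc, h1, add_zero] at h2
    have := hl.le h hp (Or.inl rfl) (ρ := ρ) ⟨hρ, h2, fun r hr hrp => by
      by_cases e : r = q
      · rw [e, h1]
      · exact hy r hr hrp e⟩ hj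
    rw [xj j hj, h1, h2]
    linarith

/-- The chamber for two indices with signs. -/
theorem exK (h : HD R m e y E κ t c) (hl : Low R m e y E κ μ) {p q : ℕ} (hp : p < m)
    (hq : q < m) (hpq : p ≠ q) {s s' : ℝ} (hs : s = 1 ∨ s = -1) (hs' : s' = 1 ∨ s' = -1) :
    ∃ (R' : Set V) (K : Fam ι V), KS R' E K t c (fun j => -2 * μ j) ∧ R' ⊆ R ∧
      K.B c = s • e p + ∑ j ∈ E, μ j • κ.B j ∧
      K.B t + K.B c = s' • e q + ∑ j ∈ E, μ j • κ.B j ∧ (∀ j ∈ E, K.B j = κ.B j) ∧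
      (∀ ρ ∈ Hs R m y p s, ρ ∈ R' ∧ K.x t ρ = 0 ∧ K.x c ρ = 1 ∧
        ∀ j ∈ E, K.x j ρ = κ.x j ρ - μ j) ∧
      (∀ ρ ∈ R', K.x t ρ = 0 → K.x c ρ = 1 → ρ ∈ Hs R m y p s) ∧
      ∀ ρ ∈ R, (∀ r < m, y r ρ = 0) → ρ ∈ R' ∧ K.x t ρ = 0 ∧ K.x c ρ = 0 ∧
        ∀ j ∈ E, K.x j ρ = κ.x j ρ := by
  set σ : ℕ → ℝ := fun r => if r = p then s else s' with hσ'
  have hσ : ∀ r, σ r = 1 ∨ σ r = -1 := fun r => by
    simp only [hσ']
    split_ifs
    · exact hs
    · exact hs'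
  have σp : σ p = s := by simp [hσ']
  have σq : σ q = s' := by simp [hσ', hpq.symm]
  obtain ⟨R', K, hK, mem, Bt, Bc, Bj, xt, xc, xj⟩ := exK0 (flip h hσ) (hl.flip hσ) hp hq hpq
  have hH : ∀ ρ, ρ ∈ Hs R m y p s ↔ ρ ∈ Hs R m (fun p => σ p • y p) p 1 := fun ρ => by
    rw [Hs_flip hσ, one_mul, σp]
  refine ⟨R', K, hK, fun ρ hρ => ((mem ρ).mp hρ).1, by rw [Bc, σp], ?_, Bj, ?_, ?_, ?_⟩
  · rw [Bt, Bc, σp, σq]
    module
  · intro ρ hρ
    rw [hH] at hρ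
    have e1 := hρ.2.2 q hq hpq.symm
    have e2 := hρ.2.1
    refine ⟨(mem ρ).mpr ⟨hρ.1, fun r hr h1 _ => hρ.2.2 r hr h1⟩, by rw [xt, e1], ?_,
      fun j hj => ?_⟩
    · rw [xc, e1, e2, add_zero]
    · rw [xj j hj, e1, e2, add_zero, mul_one]
  · intro ρ hρ h1 h2
    obtain ⟨hρ, hy⟩ := (mem ρ).mp hρ
    rw [xt] at h1
    rw [xc, h1, add_zero] at h2
    rw [hH]
    refine ⟨hρ, h2, fun r hr hrp => ?_⟩
    by_cases e : r = q
    · rw [e, h1]
    · exact hy r hr hrp e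
  · intro ρ hρ hy
    exact ⟨(mem ρ).mpr ⟨hρ, fun r hr _ _ => by simp [hy r hr]⟩, by simp [xt, hy q hq],
      by simp [xc, hy p hp, hy q hq], fun j hj => by simp [xj j hj, hy p hp, hy q hq]⟩

theorem T3 (h : HD R m e y E κ t c) (hl : Low R m e y E κ μ) {p : ℕ} (hp : p < m) {ρ : V}
    (hρ : ρ ∈ Hs R m y p 1) {k : ι} (hk : k ∈ E) :
    κ.x k ρ = μ k ∨ κ.x k ρ = 0 ∨ κ.x k ρ = -μ k := by
  have key : ∀ s : ℝ, (s = 1 ∨ s = -1) → ∀ ρ ∈ Hs R m y p s, κ.x k ρ = μ k ∨ 0 ≤ κ.x k ρ := by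
    intro s hs ρ hρ
    obtain ⟨q, hq, hqp⟩ := other h p
    obtain ⟨R', K, hK, -, -, -, -, h1, -, -⟩ := exK h hl hp hq hqp.symm hs hs
    obtain ⟨a, b, c, d⟩ := h1 ρ hρ
    have := hK.T3 hk a b c
    rw [d k hk] at this
    rcases this with e | e
    · left; linarith
    · right; linarith
  rcases key 1 (Or.inl rfl) ρ hρ with e | e
  · exact Or.inl e
  · rcases key (-1) (Or.inr rfl) _ (Hs.neg h hρ) with e' | e' <;> rw [map_neg] at e'
    · right; right; linarith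
    · right; left; linarith

/-- `j` is a neighbour of the lowest root in `Hs p s`. -/
def Nb (R : Set V) (e : ℕ → V) (E : Finset ι) (κ : Fam ι V) (μ : ι → ℝ) (p : ℕ) (s : ℝ)
    (j : ι) : Prop :=
  ∃ d : ℝ, 0 < d ∧ s • e p + ∑ i ∈ E, μ i • κ.B i + d • κ.B j ∈ R

theorem mem_Hs' (h : HD R m e y E κ t c) {p : ℕ} (hp : p < m) {s d : ℝ} {j : ι} (hj : j ∈ E)
    (hm : s • e p + ∑ i ∈ E, μ i • κ.B i + d • κ.B j ∈ R) :
    s • e p + ∑ i ∈ E, μ i • κ.B i + d • κ.B j ∈ Hs R m y p s := by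
  rw [add_assoc] at hm ⊢
  exact mem_Hs h hp (fun q hq => by
    rw [map_add, y_comb h hq, map_smul, h.yB q hq j hj]; simp) hm

theorem Nb.trans (h : HD R m e y E κ t c) (hl : Low R m e y E κ μ) {j : ι} (hj : j ∈ E)
    {p q : ℕ} (hp : p < m) (hq : q < m) {s s' : ℝ} (hs : s = 1 ∨ s = -1) (hs' : s' = 1 ∨ s' = -1)
    (hn : Nb R e E κ μ p s j) : Nb R e E κ μ q s' j := by
  have key : ∀ p < m, ∀ q < m, p ≠ q → ∀ s s' : ℝ, (s = 1 ∨ s = -1) → (s' = 1 ∨ s' = -1) →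
      Nb R e E κ μ p s j → Nb R e E κ μ q s' j := by
    rintro p hp q hq hpq s s' hs hs' ⟨d, hd, hm⟩
    obtain ⟨R', K, hK, hsub, Bc, Btc, Bj, h1, -, -⟩ := exK h hl hp hq hpq hs hs'
    obtain ⟨d', hd', hm'⟩ := hK.N hj hd (by
      rw [Bc, Bj j hj]
      exact (h1 _ (mem_Hs' h hp hj hm)).1)
    rw [Btc, Bj j hj] at hm'
    exact ⟨d', hd', hsub hm'⟩
  by_cases e : p = q
  · subst e
    obtain ⟨r, hr, hrp⟩ := other h p
    exact key r hr p hp hrp s s' hs hs' (key p hp r hr hrp.symm s s hs hs hn)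
  · exact key p hp q hq e s s' hs hs' hn

theorem caseA (h : HD R m e y E κ t c) (hl : Low R m e y E κ μ) {k : ι} (hk : k ∈ E) {p : ℕ}
    (hp : p < m) {s : ℝ} (hs : s = 1 ∨ s = -1) (hn : ∀ j ∈ E, j ≠ k → ¬ Nb R e E κ μ p s j)
    {ρ : V} (hρ : ρ ∈ Hs R m y p s) (hx : κ.x k ρ = μ k) :
    ρ = s • e p + ∑ i ∈ E, μ i • κ.B i := by
  obtain ⟨q, hq, hqp⟩ := other h p
  obtain ⟨R', K, hK, hsub, Bc, -, Bj, h1, -, -⟩ := exK h hl hp hq hqp.symm hs hs
  obtain ⟨a, b, c, d⟩ := h1 ρ hρ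
  rw [← Bc]
  refine hK.A (k := k) (fun j hj hjk d hd hm => hn j hj hjk ⟨d, hd, ?_⟩) a b c
    (by rw [d k hk, hx, sub_self])
  rw [← Bc, ← Bj j hj]
  exact hsub hm

theorem caseB1 (h : HD R m e y E κ t c) (hl : Low R m e y E κ μ) {k l : ι} (hk : k ∈ E)
    (hl' : l ∈ E) (hkl : k ≠ l) {p : ℕ} (hp : p < m) {s : ℝ} (hs : s = 1 ∨ s = -1)
    (h1 : Nb R e E κ μ p s k) (h2 : Nb R e E κ μ p s l) :
    E = {k, l} ∧ s • e p + ∑ i ∈ E, μ i • κ.B i + (-2 * μ k) • κ.B k ∈ R ∧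
      ∀ ρ ∈ Hs R m y p s, κ.x l ρ = μ l → κ.x k ρ = μ k ∨ κ.x k ρ = -μ k := by
  obtain ⟨q, hq, hqp⟩ := other h p
  obtain ⟨R', K, hK, hsub, Bc, -, Bj, h3, -, -⟩ := exK h hl hp hq hqp.symm hs hs
  obtain ⟨d, hd, hm⟩ := h1
  obtain ⟨d', hd', hm'⟩ := h2
  obtain ⟨r1, r2, r3⟩ := hK.B1 hk hl' hkl hd hd'
    (by rw [Bc, Bj k hk]; exact (h3 _ (mem_Hs' h hp hk hm)).1)
    (by rw [Bc, Bj l hl']; exact (h3 _ (mem_Hs' h hp hl' hm')).1)
  refine ⟨r1, ?_, fun ρ hρ hx => ?_⟩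
  · rw [Bc, Bj k hk] at r2
    exact hsub r2
  · obtain ⟨a, b, c, d⟩ := h3 ρ hρ
    have := r3 ρ a b c (by rw [d l hl', hx, sub_self])
    rw [d k hk] at this
    rcases this with e | e
    · left; linarith
    · right; linarith

theorem caseB2 (h : HD R m e y E κ t c) (hl : Low R m e y E κ μ) {k l : ι} (hk : k ∈ E)
    (hl' : l ∈ E) (hkl : k ≠ l)
    (h1 : ∀ p < m, ∀ s : ℝ, (s = 1 ∨ s = -1) → Nb R e E κ μ p s k ∧ Nb R e E κ μ p s l)
    {σ : V} (hσ : σ ∈ R) (hy : ∀ r < m, y r σ = 0) (h0 : 0 < κ.x l σ) :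
    κ.x l σ * μ k ≤ κ.x k σ * μ l := by
  have hp : 0 < m := by have := h.hm; omega
  obtain ⟨q, hq, hqp⟩ := other h 0
  have hs : (1 : ℝ) = 1 ∨ (1 : ℝ) = -1 := Or.inl rfl
  obtain ⟨R', K, hK, hsub, Bc, -, Bj, h3, h4, h5⟩ := exK h hl hp hq hqp.symm hs hs
  obtain ⟨r1, r2, r3⟩ := caseB1 h hl hk hl' hkl hp hs (h1 0 hp 1 hs).1 (h1 0 hp 1 hs).2
  obtain ⟨-, -, r4⟩ := caseB1 h hl hl' hk hkl.symm hp (neg_sign hs) (h1 0 hp _ (neg_sign hs)).2
    (h1 0 hp _ (neg_sign hs)).1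
  obtain ⟨a, b, c, d⟩ := h5 σ hσ hy
  have := hK.B2 hkl r1 (by rw [Bc, Bj k hk]; exact (h3 _ (mem_Hs' h hp hk r2)).1)
    (fun ρ hρ e1 e2 e3 => by
      have hH := h4 ρ hρ e1 e2
      have d := (h3 ρ hH).2.2.2
      rw [d l hl'] at e3
      rw [d k hk]
      rcases r3 ρ hH (by linarith) with e | e
      · left; linarith
      · right; linarith)
    (fun ρ hρ e1 e2 e3 => by
      have hH := h4 ρ hρ e1 e2
      have d := (h3 ρ hH).2.2.2
      rw [d k hk] at e3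
      rw [d l hl']
      rcases r4 _ (Hs.neg h hH) (by rw [map_neg]; linarith) with e | e <;> rw [map_neg] at e
      · right; linarith
      · left; linarith) a b c (by rwa [d l hl'])
  rw [d k hk, d l hl'] at this
  linarith

end HDInd

end Pool.Agent.SimpArr
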