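import Pool.Agent.P.MP_0b4c38_co.Arr2

/-! Flats and minors of rank three of an arrangement. -/

set_option autoImplicit false

namespace Pool.Agent.SimpArr

variable {r : ℕ}

/-- A flat is an intersection of hyperplanes of `A` (the whole space for the empty family). -/
def IsFlat (A : Finset (Submodule ℝ (Fin r → ℝ))) (X : Submodule ℝ (Fin r → ℝ)) : Prop :=
  ∃ T ⊆ A, ∀ v, v ∈ X ↔ ∀ H ∈ T, v ∈ H

/-- `B` is a minor of rank three of `A`: for flats `X ≤ Y` and a linear isomorphism `g` of `ℝ^3`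
onto a complement of `X` in `Y`, the members of `B` are the preimages of the hyperplanes of `A`
that contain `X` but not `Y`. -/
def IsMinor (A : Finset (Submodule ℝ (Fin r → ℝ))) (B : Finset (Submodule ℝ (Fin 3 → ℝ))) :
    Prop :=
  ∃ (X Y : Submodule ℝ (Fin r → ℝ)) (g : (Fin 3 → ℝ) →ₗ[ℝ] (Fin r → ℝ)),
    IsFlat A X ∧ IsFlat A Y ∧ Function.Injective g ∧ X ⊓ LinearMap.range g = ⊥ ∧
    X ⊔ LinearMap.range g = Y ∧
    ∀ K, K ∈ B ↔ ∃ H ∈ A, X ≤ H ∧ ¬ Y ≤ H ∧ K = H.comap g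

end Pool.Agent.SimpArr
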