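import Pool.Agent.P.MP_0b4c38_co.RIface

/-! Reduction to rank three: bounded size in rank four and induction on the rank. -/

set_option autoImplicit false

open Classical

namespace Pool.Agent.SimpArr

namespace RInd

variable {V : Type} [AddCommGroup V] [Module ℝ V] {ι : Type}

theorem flat (hFL : S_FL) {R : Set V} (hR : Sys R) (ρ σ : V) :
    ∃ (T J : Finset V) (κ : Fam V V), IsCh R T κ ∧ J ⊆ T ∧ J.card ≤ 2 ∧
      loc R T κ J = {v | v ∈ R ∧ v ∈ Submodule.span ℝ {ρ, σ}} := by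
  obtain ⟨T, J, κ, h, hJ, he⟩ := hFL V R (Submodule.span ℝ {ρ, σ}) hR
  refine ⟨T, J, κ, h, hJ, ?_, he⟩
  rw [← (h.loc hJ).finrank_eq, he]
  have : FiniteDimensional ℝ (Submodule.span ℝ ({ρ, σ} : Set V)) :=
    FiniteDimensional.span_of_finite ℝ (Set.toFinite _)
  have h1 : Submodule.span ℝ {v | v ∈ R ∧ v ∈ Submodule.span ℝ ({ρ, σ} : Set V)} ≤
      Submodule.span ℝ ({ρ, σ} : Set V) := Submodule.span_le.mpr fun v hv => hv.2
  refine (Submodule.finrank_mono h1).trans ?_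
  have h2 := finrank_span_finset_le_card (R := ℝ) ({ρ, σ} : Finset V)
  rw [Finset.coe_pair] at h2
  exact h2.trans Finset.card_le_two

theorem kerflat (hFL : S_FL) {R : Set V} {S : Finset ι} {κ : Fam ι V} (hR : Sys R)
    (h : IsCh R S κ) (φ : V →ₗ[ℝ] ℝ) (hφ : ∃ ρ ∈ R, φ ρ ≠ 0) :
    ∃ (T J : Finset V) (κ' : Fam V V), IsCh R T κ' ∧ J ⊆ T ∧ J.card < S.card ∧
      loc R T κ' J = {ρ | ρ ∈ R ∧ φ ρ = 0} := by
  obtain ⟨T, J, κ', h', hJ, he⟩ := hFL V R (LinearMap.ker φ) hR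
  refine ⟨T, J, κ', h', hJ, ?_, he⟩
  rw [← h.card_eq h']
  refine Finset.card_lt_card (Finset.ssubset_iff_subset_ne.mpr ⟨hJ, ?_⟩)
  rintro rfl
  obtain ⟨ρ, hρ, h0⟩ := hφ
  have h1 : ρ ∈ loc R J κ' J := ⟨hρ, sup_self ρ⟩
  rw [he] at h1
  exact h0 h1.2

theorem eq_empty {Q : Set V} {κ : Fam ι V} (h : IsCh Q ∅ κ) (h0 : ∀ v ∈ Q, v ≠ 0) : Q = ∅ := by
  refine Set.eq_empty_of_forall_notMem fun v hv => h0 v hv ?_
  simpa using h.repr v hv

theorem small1 {Q : Set V} {J : Finset ι} {κ : Fam ι V} (h : IsCh Q J κ) (h0 : ∀ v ∈ Q, v ≠ 0)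
    (hJ : J.card ≤ 1) : nl Q ≤ 1 := by
  rcases J.eq_empty_or_nonempty with rfl | ⟨i, hi⟩
  · rw [eq_empty h h0, nl_empty]
    exact Nat.zero_le _
  · have hJi : J = {i} :=
      Finset.eq_singleton_iff_unique_mem.mpr ⟨hi, fun j hj => Finset.card_le_one.mp hJ j hj i hi⟩
    subst hJi
    refine nl_le_one (u := κ.B i) fun v hv => ?_
    have h1 := h.repr v hv
    rw [Finset.sum_singleton] at h1
    refine ⟨κ.x i v, fun e => h0 v hv ?_, h1⟩
    rw [h1, e, zero_smul]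

theorem small {Q R : Set V} {J : Finset ι} {κ : Fam ι V} {C : ℕ} (hR : FinL R) (hQ : Q ⊆ R)
    (h : IsCh Q J κ) (h0 : ∀ v ∈ Q, v ≠ 0) (hJ : J.card ≤ 2) (hM : Mu2 R C) : nl Q ≤ C := by
  rcases J.eq_empty_or_nonempty with rfl | ⟨i, hi⟩
  · rw [eq_empty h h0, nl_empty]
    exact Nat.zero_le _
  · obtain ⟨j, hj, hij⟩ : ∃ j ∈ J, ∀ l ∈ J, l = i ∨ l = j := by
      by_cases hex : ∃ j ∈ J, j ≠ i
      · obtain ⟨j, hj, hji⟩ := hex
        refine ⟨j, hj, fun l hl => ?_⟩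
        by_contra hc
        push Not at hc
        have h3 : 2 < J.card :=
          Finset.two_lt_card.mpr ⟨i, hi, j, hj, l, hl, hji.symm, hc.1.symm, hc.2.symm⟩
        omega
      · push Not at hex
        exact ⟨i, hi, fun l hl => Or.inl (hex l hl)⟩
    refine le_trans (nl_mono (hR.mono fun v hv => hv.1) ?_)
      (hM _ (hQ (h.mem i hi)) _ (hQ (h.mem j hj)))
    intro v hv
    refine ⟨hQ hv, ?_⟩
    rw [h.repr v hv]
    refine Submodule.sum_mem _ fun l hl => Submodule.smul_mem _ _ (Submodule.subset_span ?_)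
    rcases hij l hl with rfl | rfl <;> simp

theorem total (hFB : S_FB) {R : Set V} {S : Finset ι} {κ : Fam ι V} {C : ℕ} (hR : Sys R)
    (h : IsCh R S κ) {a : ι} (ha : a ∈ S) (hM : Mu2 R C) :
    nl R ≤ 1 + C * nl (con R S κ {a}) := by
  have h1 : nl (loc R S κ {a}) ≤ 1 :=
    small1 (h.loc (Finset.singleton_subset_iff.mpr ha)) (fun v hv => hR.ne v hv.1) (by simp)
  have h2 := hFB V ι R S κ a {ρ | ρ ∈ R ∧ ¬ Sup S κ {a} ρ} C hR h ha (fun v hv => hv.1)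
    (fun v hv => hv.2) (fun v hv => hM _ (h.mem a ha) _ hv.1)
  have h3 : nl (proj S κ {a} '' {ρ | ρ ∈ R ∧ ¬ Sup S κ {a} ρ}) ≤ nl (con R S κ {a}) := by
    refine nl_mono (hR.con h {a}).finL ?_
    rintro _ ⟨ρ, hρ, rfl⟩
    exact ⟨fun e => hρ.2 ((h.proj_eq_zero {a} ρ).mp e), ρ, hρ.1, rfl⟩
  have h4 : R = loc R S κ {a} ∪ {ρ | ρ ∈ R ∧ ¬ Sup S κ {a} ρ} := by
    ext v
    constructor
    · intro hv
      by_cases hs : Sup S κ {a} v
      · exact Or.inl ⟨hv, hs⟩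
      · exact Or.inr ⟨hv, hs⟩
    · rintro (hv | hv) <;> exact hv.1
  have h5 := nl_union_le (loc R S κ {a}) {ρ | ρ ∈ R ∧ ¬ Sup S κ {a} ρ}
  rw [← h4] at h5
  have h6 := Nat.mul_le_mul_left C h3
  omega

theorem card_sdiff_one {S : Finset ι} {a : ι} (ha : a ∈ S) {r : ℕ} (hc : S.card = r + 1) :
    (S \ {a}).card = r := by
  rw [Finset.sdiff_singleton_eq_erase, Finset.card_erase_of_mem ha, hc]
  rfl

theorem stepA {C₁ : ℕ} (hFL : S_FL)
    (h4 : ∀ (V : Type) [AddCommGroup V] [Module ℝ V] (ι : Type) (R : Set V) (κ : Fam ι V)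
      (a b c d : ι), Sys R → IsCh R {a, b, c, d} κ → Conn R {a, b, c, d} κ {a, b, c, d} →
      a ≠ b → a ≠ c → a ≠ d → b ≠ c → b ≠ d → c ≠ d →
      nl (loc R {a, b, c, d} κ {a, b}) ≤ C₁)
    {R : Set V} {S : Finset ι} {κ : Fam ι V} (hR : Sys R) (h : IsCh R S κ) (hc : Conn R S κ S)
    (hS : S.card = 4) : Mu2 R (C₁ + 1) := by
  intro ρ _ σ _
  obtain ⟨T, J, κ', h', hJ, hJ2, he⟩ := flat hFL hR ρ σ
  rw [← he]
  by_cases h1 : J.card ≤ 1
  · exact (small1 (h'.loc hJ) (fun v hv => hR.ne v hv.1) h1).trans (by omega)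
  · have hT : T.card = 4 := (h.card_eq h').trans hS
    have hc' := conn_indep hR h h' hc
    have hJ' : J.card = 2 := by omega
    have hD : (T \ J).card = 2 := by rw [Finset.card_sdiff_of_subset hJ]; omega
    obtain ⟨a, b, hab, rfl⟩ := Finset.card_eq_two.mp hJ'
    obtain ⟨c, d, hcd, hD'⟩ := Finset.card_eq_two.mp hD
    have hcm : c ∈ T \ {a, b} := by rw [hD']; simp
    have hdm : d ∈ T \ {a, b} := by rw [hD']; simp
    simp only [Finset.mem_sdiff, Finset.mem_insert, Finset.mem_singleton, not_or] at hcm hdm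
    have hT' : T = {a, b, c, d} := by
      rw [← Finset.union_sdiff_of_subset hJ, hD']
      ext v
      simp only [Finset.mem_union, Finset.mem_insert, Finset.mem_singleton]
      tauto
    subst hT'
    exact (h4 V V R κ' a b c d hR h' hc' hab (Ne.symm hcm.2.1) (Ne.symm hdm.2.1)
      (Ne.symm hcm.2.2) (Ne.symm hdm.2.2) hcd).trans (by omega)

theorem stepB {C₀ C : ℕ} {g : ℕ → ℕ} (hFL : S_FL) (h3 : H3 C₀ g)
    {R : Set V} {S : Finset ι} {κ : Fam ι V} (hR : Sys R) (h : IsCh R S κ)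
    (hS : S.card = 4) (hM : Mu2 R C) (φ : V →ₗ[ℝ] ℝ) (hφ : ∃ ρ ∈ R, φ ρ ≠ 0) :
    nl {ρ | ρ ∈ R ∧ φ ρ = 0} ≤ g C + 2 * C := by
  obtain ⟨T, J, κ', h', hJ, hlt, he⟩ := kerflat hFL hR h φ hφ
  rw [← he]
  have hQ : Sys (loc R T κ' J) := hR.loc h' J
  have hQc : IsCh (loc R T κ' J) J κ' := h'.loc hJ
  have hQR : loc R T κ' J ⊆ R := fun v hv => hv.1
  by_cases h2 : J.card ≤ 2
  · exact (small hR.finL hQR hQc hQ.ne h2 hM).trans (by omega)
  have hJ3 : J.card = 3 := by omega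
  by_cases hcon : Conn (loc R T κ' J) J κ' J
  · refine ((h3 V V _ J κ' hQ hQc hcon hJ3).2 C fun ψ hψ => ?_).trans (by omega)
    obtain ⟨T2, J2, κ2, h2', hJ2, hlt2, he2⟩ := kerflat hFL hQ hQc ψ hψ
    rw [← he2]
    exact small hR.finL (fun v hv => hQR hv.1) (h2'.loc hJ2) (fun v hv => hQ.ne v hv.1)
      (by omega) hM
  · unfold Conn at hcon
    push Not at hcon
    obtain ⟨A, hA, hAne, hAJ, hsep⟩ := hcon
    have hsep' : Sep (loc R T κ' J) J κ' A (J \ A) := fun i hi j hj =>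
      hsep i hi j (Finset.mem_sdiff.mp hj).1 (Finset.mem_sdiff.mp hj).2
    have hcover : loc R T κ' J ⊆
        loc (loc R T κ' J) J κ' A ∪ loc (loc R T κ' J) J κ' (J \ A) := by
      intro v hv
      have hs : Sup J κ' (A ∪ (J \ A)) v := by
        rw [Finset.union_sdiff_of_subset hA]
        exact sup_self v
      rcases one_sided hQ hQc Finset.disjoint_sdiff hsep' hv hs with h1 | h1
      · exact Or.inl ⟨hv, h1⟩
      · exact Or.inr ⟨hv, h1⟩
    have hA2 : A.card < J.card :=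
      Finset.card_lt_card (Finset.ssubset_iff_subset_ne.mpr ⟨hA, hAJ⟩)
    have hA1 : 0 < A.card := hAne.card_pos
    have hB2 : (J \ A).card ≤ 2 := by rw [Finset.card_sdiff_of_subset hA]; omega
    have e1 : nl (loc (loc R T κ' J) J κ' A) ≤ C :=
      small hR.finL (fun v hv => hQR hv.1) (hQc.loc hA) (fun v hv => hQ.ne v hv.1) (by omega) hM
    have e2 : nl (loc (loc R T κ' J) J κ' (J \ A)) ≤ C :=
      small hR.finL (fun v hv => hQR hv.1) (hQc.loc Finset.sdiff_subset)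
        (fun v hv => hQ.ne v hv.1) hB2 hM
    have e3 := nl_mono (hQ.finL.mono (Set.union_subset (fun v hv => hv.1) fun v hv => hv.1))
      hcover
    have e4 := nl_union_le (loc (loc R T κ' J) J κ' A) (loc (loc R T κ' J) J κ' (J \ A))
    omega

end RInd

theorem t_B4 (hFL : S_FL) (hFB : S_FB) (hR4 : S_R4) : S_B4 := by
  intro C₀ g h3
  obtain ⟨C₁, h4⟩ := hR4 C₀ g h3
  refine ⟨1 + (C₁ + 1) * g (g (C₁ + 1) + 2 * (C₁ + 1)), ?_⟩
  intro V _ _ ι R S κ hR h hc hS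
  have hM : Mu2 R (C₁ + 1) := RInd.stepA hFL h4 hR h hc hS
  obtain ⟨a, ha⟩ : S.Nonempty := Finset.card_pos.mp (by omega)
  have h1 := RInd.total hFB hR h ha hM
  have h2 : nl (con R S κ {a}) ≤ g (g (C₁ + 1) + 2 * (C₁ + 1)) := by
    refine (h3 V ι _ _ κ (hR.con h {a}) (h.con {a}) (hc.con hR h subset_rfl {a})
      (RInd.card_sdiff_one ha hS)).2 _ fun φ hφ => ?_
    obtain ⟨v, ⟨_, ρ, hρ, rfl⟩, hv⟩ := hφ
    have h5 := RInd.stepB hFL h3 hR h hS hM (φ ∘ₗ proj S κ {a}) ⟨ρ, hρ, hv⟩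
    have hF : FinL {ρ | ρ ∈ R ∧ (φ ∘ₗ proj S κ {a}) ρ = 0} := hR.finL.mono fun v hv => hv.1
    refine le_trans (nl_mono (hF.image (proj S κ {a})) ?_) ((nl_image_le hF _).trans h5)
    rintro w ⟨⟨_, σ, hσ, rfl⟩, hw⟩
    exact ⟨σ, ⟨hσ, hw⟩, rfl⟩
  exact h1.trans (Nat.add_le_add_left (Nat.mul_le_mul_left _ h2) 1)

theorem t_Ind (hFL : S_FL) (hFB : S_FB) : S_Ind := by
  intro r M hr hB V _ _ ι R S κ hR h hc hS
  have hM : Mu2 R M := by
    intro ρ _ σ _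
    obtain ⟨T, J, κ', h', hJ, hJ2, he⟩ := RInd.flat hFL hR ρ σ
    rw [← he]
    have hT : T.card = r + 1 := (h.card_eq h').trans hS
    have hc' := conn_indep hR h h' hc
    obtain ⟨c, hcT, hcJ⟩ := Finset.exists_mem_notMem_of_card_lt_card (s := J) (t := T) (by omega)
    refine le_trans (nl_mono (hR.con h' {c}).finL ?_)
      (hB V V _ _ κ' (hR.con h' {c}) (h'.con {c}) (hc'.con hR h' subset_rfl {c})
        (RInd.card_sdiff_one hcT hT))
    intro v hv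
    refine ⟨hR.ne v hv.1, v, hv.1, ?_⟩
    rw [proj_apply]
    refine h'.repr_sup Finset.sdiff_subset hv.1 fun i hi hi' => ?_
    have hic : i = c := by simpa [hi] using hi'
    exact hv.2 i hi (hic ▸ hcJ)
  obtain ⟨a, ha⟩ : S.Nonempty := Finset.card_pos.mp (by omega)
  have h1 := RInd.total hFB hR h ha hM
  have h2 := hB V ι _ _ κ (hR.con h {a}) (h.con {a}) (hc.con hR h subset_rfl {a})
    (RInd.card_sdiff_one ha hS)
  exact h1.trans (Nat.add_le_add_left (Nat.mul_le_mul_left _ h2) 1)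

end Pool.Agent.SimpArr
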