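import Pool.Agent.P.MP_0b4c38_co.RFour
import Pool.Agent.P.MP_0b4c38_co.RInd

/-! The reduction to rank three relative to the minors of one system. -/

set_option autoImplicit false

open Classical

namespace Pool.Agent.SimpArr

namespace MRel

variable {V : Type} [AddCommGroup V] [Module ℝ V] {ι : Type}

/-- `Q` is a contraction of a localization of `R`. -/
def Mnr (R Q : Set V) : Prop :=
  ∃ (U : Submodule ℝ V) (π : V →ₗ[ℝ] V),
    (∀ v ∈ Submodule.span ℝ {ρ | ρ ∈ R ∧ ρ ∈ U}, π v = 0 →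
      v ∈ Submodule.span ℝ {ρ | ρ ∈ R ∧ ρ ∈ U ∧ π ρ = 0}) ∧
    Q = {v | v ≠ 0 ∧ ∃ ρ, ρ ∈ R ∧ ρ ∈ U ∧ v = π ρ}

theorem Mnr.trans {R Q P : Set V} (h1 : Mnr R Q) (h2 : Mnr Q P) : Mnr R P := by
  obtain ⟨U, π, hk, rfl⟩ := h1
  obtain ⟨U', π', hk', rfl⟩ := h2
  refine ⟨U ⊓ U'.comap π, π' ∘ₗ π, fun v hv h0 => ?_, ?_⟩
  · have e1 : π v ∈ Submodule.span ℝ
        {ρ | ρ ∈ {v | v ≠ 0 ∧ ∃ ρ, ρ ∈ R ∧ ρ ∈ U ∧ v = π ρ} ∧ ρ ∈ U'} := by
      have : Submodule.span ℝ {ρ | ρ ∈ R ∧ ρ ∈ U ⊓ U'.comap π} ≤ (Submodule.span ℝ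
          {ρ | ρ ∈ {v | v ≠ 0 ∧ ∃ ρ, ρ ∈ R ∧ ρ ∈ U ∧ v = π ρ} ∧ ρ ∈ U'}).comap π := by
        refine Submodule.span_le.2 fun ρ hρ => ?_
        by_cases h : π ρ = 0
        · rw [SetLike.mem_coe, Submodule.mem_comap, h]
          exact Submodule.zero_mem _
        · exact Submodule.subset_span ⟨⟨h, ρ, hρ.1, hρ.2.1, rfl⟩, hρ.2.2⟩
      exact this hv
    have e2 := hk' _ e1 h0
    have e3 : Submodule.span ℝ {ρ | ρ ∈ {v | v ≠ 0 ∧ ∃ ρ, ρ ∈ R ∧ ρ ∈ U ∧ v = π ρ} ∧ ρ ∈ U' ∧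
        π' ρ = 0} ≤ (Submodule.span ℝ
          {ρ | ρ ∈ R ∧ ρ ∈ U ⊓ U'.comap π ∧ (π' ∘ₗ π) ρ = 0}).map π := by
      refine Submodule.span_le.2 ?_
      rintro _ ⟨⟨-, ρ, a1, a2, rfl⟩, a3, a4⟩
      exact ⟨ρ, Submodule.subset_span ⟨a1, ⟨a2, a3⟩, a4⟩, rfl⟩
    obtain ⟨w, hw, hwv⟩ := e3 e2
    have e4 : v - w ∈ Submodule.span ℝ {ρ | ρ ∈ R ∧ ρ ∈ U} :=
      Submodule.sub_mem _ (Submodule.span_mono (fun ρ hρ => And.intro hρ.1 hρ.2.1) hv)
        (Submodule.span_mono (fun ρ hρ => And.intro hρ.1 hρ.2.1.1) hw)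
    have e5 := hk _ e4 (by rw [map_sub, hwv, sub_self])
    have e6 : v - w ∈ Submodule.span ℝ
        {ρ | ρ ∈ R ∧ ρ ∈ U ⊓ U'.comap π ∧ (π' ∘ₗ π) ρ = 0} := by
      refine Submodule.span_mono (fun ρ hρ => ?_) e5
      refine ⟨hρ.1, ⟨hρ.2.1, ?_⟩, ?_⟩
      · show π ρ ∈ U'
        rw [hρ.2.2]
        exact U'.zero_mem
      · rw [LinearMap.comp_apply, hρ.2.2, map_zero]
    simpa using Submodule.add_mem _ e6 hw
  · ext v
    constructor
    · rintro ⟨h0, _, ⟨-, ρ, a1, a2, rfl⟩, a3, rfl⟩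
      exact ⟨h0, ρ, a1, ⟨a2, a3⟩, rfl⟩
    · rintro ⟨h0, ρ, a1, ⟨a2, a3⟩, rfl⟩
      refine ⟨h0, π ρ, ⟨fun h => h0 ?_, ρ, a1, a2, rfl⟩, a3, rfl⟩
      rw [LinearMap.comp_apply, h, map_zero]

variable {R : Set V} {S : Finset ι} {κ : Fam ι V}

theorem mnr_loc (hR : Sys R) (h : IsCh R S κ) (J : Finset ι) : Mnr R (loc R S κ J) := by
  refine ⟨LinearMap.ker (proj S κ J), LinearMap.id, fun v _ h0 => ?_, ?_⟩
  · rw [show v = 0 from h0]
    exact Submodule.zero_mem _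
  · ext v
    constructor
    · intro hv
      exact ⟨hR.ne v hv.1, v, hv.1, (h.proj_eq_zero J v).2 hv.2, rfl⟩
    · rintro ⟨-, ρ, a1, a2, e⟩
      rw [show v = ρ from e]
      exact ⟨a1, (h.proj_eq_zero J ρ).1 a2⟩

theorem mnr_con (h : IsCh R S κ) (J : Finset ι) : Mnr R (con R S κ J) := by
  refine ⟨⊤, proj S κ J, fun v hv h0 => ?_, ?_⟩
  · rw [h.ker_proj J (Submodule.span_mono (fun ρ hρ => hρ.1) hv) h0]
    refine Submodule.sum_mem _ fun i hi => Submodule.smul_mem _ _ (Submodule.subset_span ?_)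
    obtain ⟨h1, h2⟩ := Finset.mem_inter.mp hi
    exact ⟨h.mem i h1, trivial, (h.proj_eq_zero J _).mpr (h.sup_B h1 h2)⟩
  · ext v
    constructor
    · rintro ⟨h0, ρ, a1, rfl⟩
      exact ⟨h0, ρ, a1, trivial, rfl⟩
    · rintro ⟨h0, ρ, a1, -, rfl⟩
      exact ⟨h0, ρ, a1, rfl⟩

/-- All irreducible minors of rank three of `R` are tame. -/
def H3r (C₀ : ℕ) (g : ℕ → ℕ) (R : Set V) : Prop :=
  ∀ Q : Set V, Mnr R Q → ∀ (ι : Type) (S : Finset ι) (κ : Fam ι V),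
    Sys Q → IsCh Q S κ → Conn Q S κ S → S.card = 3 → TameS C₀ g Q

theorem H3r.minor {C₀ : ℕ} {g : ℕ → ℕ} {Q : Set V} (H : H3r C₀ g R) (h : Mnr R Q) :
    H3r C₀ g Q := fun P hP => H P (h.trans hP)

open RFour RInd

theorem bigr (hFB : S_FB) (hK : S_K) {C₀ : ℕ} {g : ℕ → ℕ} (H : H3r C₀ g R) (hR : Sys R)
    (h : IsCh R S κ) {a b c d : ι} (hS : ∀ i, i ∈ S ↔ i = a ∨ i = b ∨ i = c ∨ i = d)
    (hab : a ≠ b) (hac : a ≠ c) (had : a ≠ d) (hbc : b ≠ c) (hbd : b ≠ d) (hcd : c ≠ d)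
    (hm : 2 * C₀ ^ 4 + C₀ + 2 < nl (loc R S κ {a, b}))
    (hadj : Adj R S κ a c ∨ Adj R S κ b c) :
    C₀ < nl {v | v ∈ con R S κ {a} ∧ κ.x d v = 0} := by
  have ha : a ∈ S := (hS a).mpr (by simp)
  have hb : b ∈ S := (hS b).mpr (by simp)
  have hc : c ∈ S := (hS c).mpr (by simp)
  have hd : d ∈ S := (hS d).mpr (by simp)
  have hAB : Adj R S κ a b := by
    by_contra hn
    have := nl_le_two hR h ha hb hab hn
    omega
  have hU : ({a, b, c} : Finset ι) ⊆ S := by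
    simp [Finset.insert_subset_iff, ha, hb, hc]
  have hB : Sys (loc R S κ {a, b, c}) := hR.loc h _
  have hcB : IsCh (loc R S κ {a, b, c}) {a, b, c} κ := h.loc hU
  have hconn0 : Conn R S κ {a, b, c} := by
    have e : ({a, b, c} : Finset ι) = insert c {a, b} := by
      ext k
      simp only [Finset.mem_insert, Finset.mem_singleton]
      tauto
    rw [e]
    rcases hadj with h1 | h1
    · exact hAB.conn.insert (by simp) h1
    · exact hAB.conn.insert (by simp) h1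
  have hconn : Conn (loc R S κ {a, b, c}) {a, b, c} κ {a, b, c} :=
    (conn_loc hU subset_rfl).mpr hconn0
  have hk := hK V ι _ κ a b c hB hcB hconn hab hac hbc
  have e1 : {ρ | ρ ∈ loc R S κ {a, b, c} ∧ κ.x c ρ = 0} = loc R S κ {a, b} := by
    ext ρ
    constructor
    · rintro ⟨hρ, h0⟩
      refine ⟨hρ.1, fun i hi hi' => ?_⟩
      by_cases hic : i = c
      · rw [hic]; exact h0
      · apply hρ.2 i hi
        simp only [Finset.mem_insert, Finset.mem_singleton, not_or] at hi' ⊢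
        exact ⟨hi'.1, hi'.2, hic⟩
    · intro hρ
      refine ⟨⟨hρ.1, hρ.2.mono ?_⟩, hρ.2 c hc ?_⟩
      · intro k hk
        simp only [Finset.mem_insert, Finset.mem_singleton] at hk ⊢
        tauto
      · simp [hac.symm, hbc.symm]
  have hT := H _ (mnr_loc hR h _) ι _ κ hB hcB hconn (Finset.card_eq_three.mpr ⟨a, b, c, hab, hac, hbc, rfl⟩)
  have hbound : ∀ ρ ∈ {ρ | ρ ∈ loc R S κ {a, b, c} ∧ κ.x c ρ ≠ 0},
      nl {v | v ∈ R ∧ v ∈ Submodule.span ℝ {κ.B a, ρ}} ≤ C₀ := by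
    rintro ρ ⟨hρ, hρc⟩
    by_contra hlt
    rw [not_le] at hlt
    set φ : V →ₗ[ℝ] ℝ := κ.x c ρ • κ.x b - κ.x b ρ • κ.x c with hφ
    have hφa : φ (κ.B a) = 0 := by
      simp [hφ, h.x_ne hb ha hab.symm, h.x_ne hc ha hac.symm]
    have hφρ : φ ρ = 0 := by
      simp only [hφ, LinearMap.sub_apply, LinearMap.smul_apply, smul_eq_mul]
      ring
    have hφb : φ (κ.B b) ≠ 0 := by
      simpa [hφ, h.x_self hb, h.x_ne hc hb hbc.symm] using hρc
    have hsub : {v | v ∈ R ∧ v ∈ Submodule.span ℝ {κ.B a, ρ}} ⊆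
        {v | v ∈ loc R S κ {a, b, c} ∧ φ v = 0} := by
      rintro v ⟨hv, hv'⟩
      obtain ⟨s, t, rfl⟩ := Submodule.mem_span_pair.mp hv'
      refine ⟨⟨hv, fun i hi hi' => ?_⟩, ?_⟩
      · rw [map_add, map_smul, map_smul, hρ.2 i hi hi',
          h.sup_B ha (Z := {a, b, c}) (by simp) i hi hi']
        simp
      · rw [map_add, map_smul, map_smul, hφa, hφρ]
        simp
    have h1 : C₀ < nl {v | v ∈ loc R S κ {a, b, c} ∧ φ v = 0} :=
      lt_of_lt_of_le hlt (nl_mono (hB.finL.mono fun _ hv => hv.1) hsub)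
    have h2 : C₀ < nl {v | v ∈ loc R S κ {a, b, c} ∧ κ.x c v = 0} := by
      rw [e1]
      omega
    exact hρc ((hT.1 φ (κ.x c) ⟨κ.B b, hcB.mem b (by simp), hφb⟩ ⟨ρ, hρ, hρc⟩ h1 h2 ρ hρ).mp hφρ)
  have hns : ∀ ρ ∈ {ρ | ρ ∈ loc R S κ {a, b, c} ∧ κ.x c ρ ≠ 0}, ¬ Sup S κ {a} ρ := by
    rintro ρ ⟨-, hρc⟩ hs
    exact hρc (hs c hc (by simpa using hac.symm))
  have hfb := hFB V ι R S κ a _ C₀ hR h ha (fun _ hρ => hρ.1.1) hns hbound
  have hsub2 : proj S κ {a} '' {ρ | ρ ∈ loc R S κ {a, b, c} ∧ κ.x c ρ ≠ 0} ⊆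
      {v | v ∈ con R S κ {a} ∧ κ.x d v = 0} := by
    rintro _ ⟨ρ, hρ, rfl⟩
    refine ⟨⟨fun h0 => hns ρ hρ ((h.proj_eq_zero _ _).mp h0), ρ, hρ.1.1, rfl⟩, ?_⟩
    rw [h.x_proj_of ρ hd (by simpa using had.symm)]
    exact hρ.1.2 d hd (by simp [had.symm, hbd.symm, hcd.symm])
  have hle := nl_mono ((hR.con h {a}).finL.mono fun _ hv => hv.1) hsub2
  by_contra hn
  rw [not_lt] at hn
  rw [e1] at hk
  have h3 : nl {ρ | ρ ∈ loc R S κ {a, b, c} ∧ κ.x c ρ ≠ 0} ≤ C₀ * C₀ :=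
    hfb.trans (Nat.mul_le_mul_left _ (hle.trans hn))
  have h4 := Nat.pow_le_pow_left h3 2
  have h5 : (C₀ * C₀) ^ 2 = C₀ ^ 4 := by ring
  omega

theorem mainr (hFB : S_FB) (hK : S_K) {C₀ : ℕ} {g : ℕ → ℕ} (H : H3r C₀ g R) (hR : Sys R)
    (h : IsCh R S κ) (hconn : Conn R S κ S) {a b c d : ι}
    (hS : ∀ i, i ∈ S ↔ i = a ∨ i = b ∨ i = c ∨ i = d)
    (hab : a ≠ b) (hac : a ≠ c) (had : a ≠ d) (hbc : b ≠ c) (hbd : b ≠ d) (hcd : c ≠ d)
    (hm : 2 * C₀ ^ 4 + C₀ + 2 < nl (loc R S κ {a, b}))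
    (hadj : Adj R S κ a c ∨ Adj R S κ b c) : False := by
  have ha : a ∈ S := (hS a).mpr (by simp)
  have hb : b ∈ S := (hS b).mpr (by simp)
  have hc : c ∈ S := (hS c).mpr (by simp)
  have hd : d ∈ S := (hS d).mpr (by simp)
  have hcard : (S \ {a}).card = 3 := by
    refine Finset.card_eq_three.mpr ⟨b, c, d, hbc, hbd, hcd, ?_⟩
    ext k
    simp only [Finset.mem_sdiff, hS, Finset.mem_insert, Finset.mem_singleton]
    constructor
    · tauto
    · rintro (rfl | rfl | rfl)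
      · exact ⟨by simp, hab.symm⟩
      · exact ⟨by simp, hac.symm⟩
      · exact ⟨by simp, had.symm⟩
  have hT := H _ (mnr_con h {a}) ι _ κ (hR.con h {a}) (h.con {a}) (Conn.con hR h subset_rfl hconn {a}) hcard
  have hBc : κ.B c ∈ con R S κ {a} :=
    (h.con {a}).mem c (Finset.mem_sdiff.mpr ⟨hc, by simpa using hac.symm⟩)
  have hBd : κ.B d ∈ con R S κ {a} :=
    (h.con {a}).mem d (Finset.mem_sdiff.mpr ⟨hd, by simpa using had.symm⟩)
  have b1 := bigr hFB hK H hR h hS hab hac had hbc hbd hcd hm hadj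
  have hdd : κ.x d (κ.B d) ≠ 0 := by rw [h.x_self hd]; exact one_ne_zero
  have hcc : κ.x c (κ.B c) ≠ 0 := by rw [h.x_self hc]; exact one_ne_zero
  have hdc : κ.x d (κ.B c) = 0 := h.x_ne hd hc hcd.symm
  by_cases hadj' : Adj R S κ a d ∨ Adj R S κ b d
  · have hS' : ∀ i, i ∈ S ↔ i = a ∨ i = b ∨ i = d ∨ i = c := by
      intro i
      rw [hS]
      tauto
    have b2 := bigr hFB hK H hR h hS' hab had hac hbd hbc hcd.symm hm hadj'
    exact hcc ((hT.1 (κ.x d) (κ.x c) ⟨_, hBd, hdd⟩ ⟨_, hBc, hcc⟩ b1 b2 _ hBc).mp hdc)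
  · rw [not_or] at hadj'
    obtain ⟨κ', co, h', -, hB, hx, hxd⟩ := cross hR h hd
    have hzero : ∀ j ∈ S, j ≠ d → ¬ Adj R S κ j d → co j = 0 := by
      intro j hj hjd hn
      obtain ⟨h1, h2⟩ := hB j hj hjd
      by_contra h0
      apply hn
      apply h.adj_of_add hj hd hjd (lt_of_le_of_ne h1 (Ne.symm h0))
      rw [← h2]
      exact h'.mem j hj
    have hca := hzero a ha had hadj'.1
    have hcb := hzero b hb hbd hadj'.2
    have hBa : κ'.B a = κ.B a := by rw [(hB a ha had).2, hca, zero_smul, add_zero]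
    have hBb : κ'.B b = κ.B b := by rw [(hB b hb hbd).2, hcb, zero_smul, add_zero]
    have hsub : ({a, b} : Finset ι) ⊆ S := by
      simp [Finset.insert_subset_iff, ha, hb]
    have hJ : ∀ j ∈ ({a, b} : Finset ι), κ'.B j = κ.B j := by
      intro j hj
      rcases Finset.mem_insert.mp hj with rfl | hj
      · exact hBa
      · rw [Finset.mem_singleton.mp hj]; exact hBb
    have hloc : loc R S κ' {a, b} = loc R S κ {a, b} := by
      ext ρ
      constructor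
      · rintro ⟨hρ, hs⟩
        refine ⟨hρ, fun i hi hi' => ?_⟩
        rw [h'.agree h hsub (fun j hj => (hJ j hj).symm) hρ hs i hi]
        exact hs i hi hi'
      · rintro ⟨hρ, hs⟩
        refine ⟨hρ, fun i hi hi' => ?_⟩
        rw [h.agree h' hsub hJ hρ hs i hi]
        exact hs i hi hi'
    have hpr : ∀ ρ ∈ R, proj S κ' {a} ρ = proj S κ {a} ρ := by
      intro ρ hρ
      rw [proj_single h' ha hρ, proj_single h ha hρ, hBa, hx a ha had]
    have hcon : con R S κ' {a} = con R S κ {a} := by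
      ext v
      constructor
      · rintro ⟨h0, ρ, hρ, rfl⟩
        exact ⟨h0, ρ, hρ, hpr ρ hρ⟩
      · rintro ⟨h0, ρ, hρ, rfl⟩
        exact ⟨h0, ρ, hρ, (hpr ρ hρ).symm⟩
    have hCD : Adj R S κ c d := by
      obtain ⟨i, hi, j, hj, hj', hij⟩ := hconn {d} (by simpa using hd) (by simp) (by
        intro e
        have : a ∈ ({d} : Finset ι) := e ▸ ha
        exact had (by simpa using this))
      rw [Finset.mem_singleton] at hi hj'
      subst hi
      rcases (hS j).mp hj with rfl | rfl | rfl | rfl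
      · exact absurd hij.symm hadj'.1
      · exact absurd hij.symm hadj'.2
      · exact hij.symm
      · exact absurd rfl hj'
    have hco : 0 < co c := by
      obtain ⟨-, ρ, hρ, p1, p2, hs⟩ := hCD
      have hs' : Sup S κ {c, d} ρ := by simpa using hs
      have := h'.nonneg hρ hc (by rwa [hx c hc hcd]) d hd
      rw [hxd ρ hρ, sum_erase_pair hc hcd hs'] at this
      by_contra hn
      have := mul_nonpos_of_nonpos_of_nonneg (not_lt.mp hn) p1.le
      linarith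
    have hna : ∀ j ∈ S, j ≠ d → co j = 0 → ¬ Adj R S κ' j d := by
      rintro j hj hjd h0 ⟨-, ρ, hρ, p1, p2, hs⟩
      have hs' : Sup S κ {j, d} ρ := by
        intro i hi hi'
        have hid : i ≠ d := by
          intro e
          exact hi' (by simp [e])
        rw [← hx i hi hid]
        exact hs i hi (by simpa using hi')
      rw [hx j hj hjd] at p1
      have := h.nonneg hρ hj p1 d hd
      rw [hxd ρ hρ, sum_erase_pair hj hjd hs', h0, zero_mul] at p2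
      linarith
    have hconn' : Conn R S κ' S := conn_indep hR h h' hconn
    have hadj2 : Adj R S κ' a c ∨ Adj R S κ' b c := by
      obtain ⟨i, hi, j, hj, hj', hij⟩ := hconn' {a, b} hsub (by simp) (by
        intro e
        have : c ∈ ({a, b} : Finset ι) := e ▸ hc
        simp [hac.symm, hbc.symm] at this)
      simp only [Finset.mem_insert, Finset.mem_singleton, not_or] at hi hj'
      rcases (hS j).mp hj with rfl | rfl | rfl | rfl
      · exact absurd rfl hj'.1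
      · exact absurd rfl hj'.2
      · rcases hi with rfl | rfl
        · exact Or.inl hij
        · exact Or.inr hij
      · rcases hi with rfl | rfl
        · exact absurd hij (hna _ ha had hca)
        · exact absurd hij (hna _ hb hbd hcb)
    have b2 := bigr hFB hK H hR h' hS hab hac had hbc hbd hcd (by rwa [hloc]) hadj2
    rw [hcon] at b2
    have hxB : κ'.x d (κ.B c) = co c := by
      rw [hxd _ (h.mem c hc), sum_erase_pair hc hcd (h.sup_B hc (by simp)), h.x_self hc, hdc]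
      ring
    have hne : κ'.x d (κ.B c) ≠ 0 := by rw [hxB]; exact hco.ne'
    exact hne ((hT.1 (κ.x d) (κ'.x d) ⟨_, hBd, hdd⟩ ⟨_, hBc, hne⟩ b1 b2 _ hBc).mp hdc)

theorem r4 (hFB : S_FB) (hK : S_K) {C₀ : ℕ} {g : ℕ → ℕ} (H : H3r C₀ g R) {a b c d : ι}
    (hR : Sys R) (h : IsCh R {a, b, c, d} κ) (hconn : Conn R {a, b, c, d} κ {a, b, c, d})
    (hab : a ≠ b) (hac : a ≠ c) (had : a ≠ d) (hbc : b ≠ c) (hbd : b ≠ d) (hcd : c ≠ d) :
    nl (loc R {a, b, c, d} κ {a, b}) ≤ 2 * C₀ ^ 4 + C₀ + 2 := by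
  by_contra hm
  rw [not_le] at hm
  obtain ⟨i, hi, j, hj, hj', hij⟩ := hconn {a, b} (by simp [Finset.insert_subset_iff]) (by simp) (by
    intro e
    have : c ∈ ({a, b} : Finset ι) := e ▸ (by simp)
    simp [hac.symm, hbc.symm] at this)
  simp only [Finset.mem_insert, Finset.mem_singleton, not_or] at hi hj hj'
  rcases hj with rfl | rfl | rfl | rfl
  · exact absurd rfl hj'.1
  · exact absurd rfl hj'.2
  · refine mainr hFB hK H hR h hconn (c := j) (d := d) (by simp) hab hac had hbc hbd hcd hm ?_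
    rcases hi with rfl | rfl
    · exact Or.inl hij
    · exact Or.inr hij
  · refine mainr hFB hK H hR h hconn (c := j) (d := c) ?_ hab had hac hbd hbc hcd.symm hm ?_
    · intro k
      simp only [Finset.mem_insert, Finset.mem_singleton]
      tauto
    · rcases hi with rfl | rfl
      · exact Or.inl hij
      · exact Or.inr hij

theorem stepAr (hFL : S_FL) (hFB : S_FB) (hK : S_K) {C₀ : ℕ} {g : ℕ → ℕ} (H : H3r C₀ g R)
    (hR : Sys R) (h : IsCh R S κ) (hc : Conn R S κ S) (hS : S.card = 4) :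
    Mu2 R (2 * C₀ ^ 4 + C₀ + 2 + 1) := by
  intro ρ _ σ _
  obtain ⟨T, J, κ', h', hJ, hJ2, he⟩ := flat hFL hR ρ σ
  rw [← he]
  by_cases h1 : J.card ≤ 1
  · exact (small1 (h'.loc hJ) (fun v hv => hR.ne v hv.1) h1).trans (by omega)
  · have hT : T.card = 4 := (h.card_eq h').trans hS
    have hc' := conn_indep hR h h' hc
    have hJ' : J.card = 2 := by omega
    have hD : (T \ J).card = 2 := by rw [Finset.card_sdiff_of_subset hJ]; omega
    obtain ⟨a, b, hab, rfl⟩ := Finset.card_eq_two.mp hJ'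
    obtain ⟨c, d, hcd, hD'⟩ := Finset.card_eq_two.mp hD
    have hcm : c ∈ T \ {a, b} := by rw [hD']; simp
    have hdm : d ∈ T \ {a, b} := by rw [hD']; simp
    simp only [Finset.mem_sdiff, Finset.mem_insert, Finset.mem_singleton, not_or] at hcm hdm
    have hT' : T = {a, b, c, d} := by
      rw [← Finset.union_sdiff_of_subset hJ, hD']
      ext v
      simp only [Finset.mem_union, Finset.mem_insert, Finset.mem_singleton]
      tauto
    subst hT'
    exact (r4 hFB hK H hR h' hc' hab (Ne.symm hcm.2.1) (Ne.symm hdm.2.1)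
      (Ne.symm hcm.2.2) (Ne.symm hdm.2.2) hcd).trans (by omega)

theorem stepBr {C₀ C : ℕ} {g : ℕ → ℕ} (hFL : S_FL) (h3 : H3r C₀ g R)
    (hR : Sys R) (h : IsCh R S κ)
    (hS : S.card = 4) (hM : Mu2 R C) (φ : V →ₗ[ℝ] ℝ) (hφ : ∃ ρ ∈ R, φ ρ ≠ 0) :
    nl {ρ | ρ ∈ R ∧ φ ρ = 0} ≤ g C + 2 * C := by
  obtain ⟨T, J, κ', h', hJ, hlt, he⟩ := kerflat hFL hR h φ hφ
  rw [← he]
  have hQ : Sys (loc R T κ' J) := hR.loc h' J
  have hQc : IsCh (loc R T κ' J) J κ' := h'.loc hJ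
  have hQR : loc R T κ' J ⊆ R := fun v hv => hv.1
  by_cases h2 : J.card ≤ 2
  · exact (small hR.finL hQR hQc hQ.ne h2 hM).trans (by omega)
  have hJ3 : J.card = 3 := by omega
  by_cases hcon : Conn (loc R T κ' J) J κ' J
  · refine ((h3 _ (mnr_loc hR h' J) V J κ' hQ hQc hcon hJ3).2 C fun ψ hψ => ?_).trans (by omega)
    obtain ⟨T2, J2, κ2, h2', hJ2, hlt2, he2⟩ := kerflat hFL hQ hQc ψ hψ
    rw [← he2]
    exact small hR.finL (fun v hv => hQR hv.1) (h2'.loc hJ2) (fun v hv => hQ.ne v hv.1)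
      (by omega) hM
  · unfold Conn at hcon
    push Not at hcon
    obtain ⟨A, hA, hAne, hAJ, hsep⟩ := hcon
    have hsep' : Sep (loc R T κ' J) J κ' A (J \ A) := fun i hi j hj =>
      hsep i hi j (Finset.mem_sdiff.mp hj).1 (Finset.mem_sdiff.mp hj).2
    have hcover : loc R T κ' J ⊆
        loc (loc R T κ' J) J κ' A ∪ loc (loc R T κ' J) J κ' (J \ A) := by
      intro v hv
      have hs : Sup J κ' (A ∪ (J \ A)) v := by
        rw [Finset.union_sdiff_of_subset hA]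
        exact sup_self v
      rcases one_sided hQ hQc Finset.disjoint_sdiff hsep' hv hs with h1 | h1
      · exact Or.inl ⟨hv, h1⟩
      · exact Or.inr ⟨hv, h1⟩
    have hA2 : A.card < J.card :=
      Finset.card_lt_card (Finset.ssubset_iff_subset_ne.mpr ⟨hA, hAJ⟩)
    have hA1 : 0 < A.card := hAne.card_pos
    have hB2 : (J \ A).card ≤ 2 := by rw [Finset.card_sdiff_of_subset hA]; omega
    have e1 : nl (loc (loc R T κ' J) J κ' A) ≤ C :=
      small hR.finL (fun v hv => hQR hv.1) (hQc.loc hA) (fun v hv => hQ.ne v hv.1) (by omega) hM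
    have e2 : nl (loc (loc R T κ' J) J κ' (J \ A)) ≤ C :=
      small hR.finL (fun v hv => hQR hv.1) (hQc.loc Finset.sdiff_subset)
        (fun v hv => hQ.ne v hv.1) hB2 hM
    have e3 := nl_mono (hQ.finL.mono (Set.union_subset (fun v hv => hv.1) fun v hv => hv.1))
      hcover
    have e4 := nl_union_le (loc (loc R T κ' J) J κ' A) (loc (loc R T κ' J) J κ' (J \ A))
    omega

/-- Bound for the systems of rank `r` whose minors of rank three are tame. -/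
def Bdr (C₀ : ℕ) (g : ℕ → ℕ) (r M : ℕ) : Prop :=
  ∀ (V : Type) [AddCommGroup V] [Module ℝ V] (ι : Type) (R : Set V) (S : Finset ι) (κ : Fam ι V),
    H3r C₀ g R → Sys R → IsCh R S κ → Conn R S κ S → S.card = r → nl R ≤ M

theorem b4 (hFL : S_FL) (hFB : S_FB) (hK : S_K) (C₀ : ℕ) (g : ℕ → ℕ) : ∃ M, Bdr C₀ g 4 M := by
  obtain ⟨C₁, hC₁⟩ : ∃ C₁, C₁ = 2 * C₀ ^ 4 + C₀ + 2 := ⟨_, rfl⟩
  refine ⟨1 + (C₁ + 1) * g (g (C₁ + 1) + 2 * (C₁ + 1)), ?_⟩
  intro V _ _ ι R S κ h3 hR h hc hS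
  have hM : Mu2 R (C₁ + 1) := hC₁ ▸ stepAr hFL hFB hK h3 hR h hc hS
  obtain ⟨a, ha⟩ : S.Nonempty := Finset.card_pos.mp (by omega)
  have h1 := RInd.total hFB hR h ha hM
  have h2 : nl (con R S κ {a}) ≤ g (g (C₁ + 1) + 2 * (C₁ + 1)) := by
    refine (h3 _ (mnr_con h {a}) ι _ κ (hR.con h {a}) (h.con {a}) (hc.con hR h subset_rfl {a})
      (RInd.card_sdiff_one ha hS)).2 _ fun φ hφ => ?_
    obtain ⟨v, ⟨_, ρ, hρ, rfl⟩, hv⟩ := hφ
    have h5 := stepBr hFL h3 hR h hS hM (φ ∘ₗ proj S κ {a}) ⟨ρ, hρ, hv⟩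
    have hF : FinL {ρ | ρ ∈ R ∧ (φ ∘ₗ proj S κ {a}) ρ = 0} := hR.finL.mono fun v hv => hv.1
    refine le_trans (nl_mono (hF.image (proj S κ {a})) ?_) ((nl_image_le hF _).trans h5)
    rintro w ⟨⟨_, σ, hσ, rfl⟩, hw⟩
    exact ⟨σ, ⟨hσ, hw⟩, rfl⟩
  exact h1.trans (Nat.add_le_add_left (Nat.mul_le_mul_left _ h2) 1)

theorem ind (hFL : S_FL) (hFB : S_FB) {C₀ : ℕ} {g : ℕ → ℕ} (r M : ℕ) (hr : 3 ≤ r)
    (hB : Bdr C₀ g r M) : Bdr C₀ g (r + 1) (1 + M * M) := by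
  intro V _ _ ι R S κ h3 hR h hc hS
  have hM : Mu2 R M := by
    intro ρ _ σ _
    obtain ⟨T, J, κ', h', hJ, hJ2, he⟩ := RInd.flat hFL hR ρ σ
    rw [← he]
    have hT : T.card = r + 1 := (h.card_eq h').trans hS
    have hc' := conn_indep hR h h' hc
    obtain ⟨c, hcT, hcJ⟩ := Finset.exists_mem_notMem_of_card_lt_card (s := J) (t := T) (by omega)
    refine le_trans (nl_mono (hR.con h' {c}).finL ?_)
      (hB V V _ _ κ' (h3.minor (mnr_con h' {c})) (hR.con h' {c}) (h'.con {c}) (hc'.con hR h' subset_rfl {c})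
        (RInd.card_sdiff_one hcT hT))
    intro v hv
    refine ⟨hR.ne v hv.1, v, hv.1, ?_⟩
    rw [proj_apply]
    refine h'.repr_sup Finset.sdiff_subset hv.1 fun i hi hi' => ?_
    have hic : i = c := by simpa [hi] using hi'
    exact hv.2 i hi (hic ▸ hcJ)
  obtain ⟨a, ha⟩ : S.Nonempty := Finset.card_pos.mp (by omega)
  have h1 := RInd.total hFB hR h ha hM
  have h2 := hB V ι _ _ κ (h3.minor (mnr_con h {a})) (hR.con h {a}) (h.con {a}) (hc.con hR h subset_rfl {a})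
    (RInd.card_sdiff_one ha hS)
  exact h1.trans (Nat.add_le_add_left (Nat.mul_le_mul_left _ h2) 1)

theorem bdr (hFL : S_FL) (hFB : S_FB) (hK : S_K) (C₀ : ℕ) (g : ℕ → ℕ) (n : ℕ) (hn : 4 ≤ n) :
    ∃ M, Bdr C₀ g n M := by
  induction n, hn using Nat.le_induction with
  | base => exact b4 hFL hFB hK C₀ g
  | succ n hn ih =>
    obtain ⟨M, hM⟩ := ih
    exact ⟨_, ind hFL hFB n M (by omega) hM⟩

end MRel

end Pool.Agent.SimpArr
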