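import Pool.Agent.P.MP_0b4c38_co.RIface

/-! From a root system of rank `r` to an arrangement in `ℝ^r`. -/

set_option autoImplicit false

open Classical

namespace Pool.Agent.SimpArr

namespace RArr

variable {V : Type} [AddCommGroup V] [Module ℝ V] {ι : Type} {r : ℕ}
variable {R : Set V} {S : Finset ι} {κ : Fam ι V} {e : Fin r → ι}

/-- The linear form attached to a vector. -/
noncomputable def Phi (κ : Fam ι V) (e : Fin r → ι) : V →ₗ[ℝ] ((Fin r → ℝ) →ₗ[ℝ] ℝ) :=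
  ∑ i, (κ.x (e i)).smulRight (LinearMap.proj i)

theorem Phi_apply (ρ : V) (v : Fin r → ℝ) : Phi κ e ρ v = ∑ i, κ.x (e i) ρ * v i := by
  simp [Phi, LinearMap.sum_apply]

theorem Phi_single (ρ : V) (i : Fin r) : Phi κ e ρ (Pi.single i 1) = κ.x (e i) ρ := by
  rw [Phi_apply, Finset.sum_eq_single i]
  · simp
  · intro j _ hj
    simp [Pi.single_eq_of_ne hj]
  · simp

theorem mem_S (hS : S = Finset.univ.image e) (i : Fin r) : e i ∈ S := by
  rw [hS]
  exact Finset.mem_image_of_mem _ (Finset.mem_univ i)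

theorem ex_S (hS : S = Finset.univ.image e) {s : ι} (hs : s ∈ S) : ∃ i, e i = s := by
  rw [hS] at hs
  obtain ⟨i, -, hi⟩ := Finset.mem_image.1 hs
  exact ⟨i, hi⟩

theorem Phi_B (h : IsCh R S κ) (he : Function.Injective e) (hS : S = Finset.univ.image e)
    (i : Fin r) (v : Fin r → ℝ) : Phi κ e (κ.B (e i)) v = v i := by
  rw [Phi_apply, Finset.sum_eq_single i]
  · rw [h.x_self (mem_S hS i), one_mul]
  · intro j _ hj
    rw [h.x_ne (mem_S hS j) (mem_S hS i) (fun hh => hj (he hh)), zero_mul]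
  · simp

theorem Phi_inj (h : IsCh R S κ) (hS : S = Finset.univ.image e) {ρ : V}
    (hρ : ρ ∈ Submodule.span ℝ R) (h0 : Phi κ e ρ = 0) : ρ = 0 := by
  refine h.eq_of_x_span hρ (Submodule.zero_mem _) fun s hs => ?_
  obtain ⟨i, rfl⟩ := ex_S hS hs
  rw [← Phi_single, h0, map_zero, LinearMap.zero_apply]

theorem Phi_ne (hR : Sys R) (h : IsCh R S κ) (hS : S = Finset.univ.image e) {ρ : V}
    (hρ : ρ ∈ R) : Phi κ e ρ ≠ 0 := fun h0 =>
  hR.ne ρ hρ (Phi_inj h hS (Submodule.subset_span hρ) h0)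

variable {A : Finset (Submodule ℝ (Fin r → ℝ))}

theorem mem_A
    (hA : ∀ H, H ∈ A ↔ ∃ ρ ∈ R, ∀ v : Fin r → ℝ, v ∈ H ↔ ∑ i, κ.x (e i) ρ * v i = 0)
    (H : Submodule ℝ (Fin r → ℝ)) : H ∈ A ↔ ∃ ρ ∈ R, H = LinearMap.ker (Phi κ e ρ) := by
  rw [hA]
  refine exists_congr fun ρ => and_congr_right fun _ => ?_
  constructor
  · intro hv
    ext v
    rw [hv, LinearMap.mem_ker, Phi_apply]
  · rintro rfl v
    rw [LinearMap.mem_ker, Phi_apply]

theorem isArr (hR : Sys R) (h : IsCh R S κ) (he : Function.Injective e)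
    (hS : S = Finset.univ.image e)
    (hA : ∀ H, H ∈ A ↔ ∃ ρ ∈ R, H = LinearMap.ker (Phi κ e ρ)) : IsArrangement A := by
  constructor
  · intro H hH
    obtain ⟨ρ, hρ, rfl⟩ := (hA H).1 hH
    have := Module.Dual.finrank_ker_add_one_of_ne_zero (Phi_ne hR h hS hρ)
    simpa using this
  · intro v hv
    funext i
    have := hv _ ((hA _).2 ⟨_, h.mem _ (mem_S hS i), rfl⟩)
    rw [LinearMap.mem_ker, Phi_B h he hS] at this
    exact this

theorem isIrr (hR : Sys R) (h : IsCh R S κ) (hc : Conn R S κ S) (he : Function.Injective e)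
    (hS : S = Finset.univ.image e)
    (hA : ∀ H, H ∈ A ↔ ∃ ρ ∈ R, H = LinearMap.ker (Phi κ e ρ)) : IsIrreducible A := by
  rintro ⟨V₁, V₂, hV, h1, h2, hH⟩
  have hH' : ∀ ρ ∈ R, V₁ ≤ LinearMap.ker (Phi κ e ρ) ∨ V₂ ≤ LinearMap.ker (Phi κ e ρ) :=
    fun ρ hρ => hH _ ((hA _).2 ⟨ρ, hρ, rfl⟩)
  have hbot : ∀ W : Submodule ℝ (Fin r → ℝ),
      (∀ s ∈ S, W ≤ LinearMap.ker (Phi κ e (κ.B s))) → W = ⊥ := by
    intro W hW
    rw [eq_bot_iff]
    intro v hv
    rw [Submodule.mem_bot]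
    funext i
    have := hW _ (mem_S hS i) hv
    rw [LinearMap.mem_ker, Phi_B h he hS] at this
    exact this
  obtain ⟨i, hi, j, hj, hjA, hadj⟩ :=
    hc (S.filter fun s => V₁ ≤ LinearMap.ker (Phi κ e (κ.B s))) (Finset.filter_subset _ _)
      (by
        by_contra hne
        refine h2 (hbot _ fun s hs => ?_)
        refine (hH' _ (h.mem s hs)).resolve_left fun hh => hne ⟨s, ?_⟩
        exact Finset.mem_filter.2 ⟨hs, hh⟩)
      (by
        intro heq
        refine h1 (hbot _ fun s hs => ?_)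
        rw [← heq] at hs
        exact (Finset.mem_filter.1 hs).2)
  obtain ⟨hiS, hi1⟩ := Finset.mem_filter.1 hi
  have hj1 : ¬ V₁ ≤ LinearMap.ker (Phi κ e (κ.B j)) := fun hh =>
    hjA (Finset.mem_filter.2 ⟨hj, hh⟩)
  have hj2 : V₂ ≤ LinearMap.ker (Phi κ e (κ.B j)) := (hH' _ (h.mem j hj)).resolve_left hj1
  obtain ⟨d, hd, hρ⟩ := h.add_of_adj hR hiS hj hadj
  have hval : ∀ v, Phi κ e (κ.B i + d • κ.B j) v =
      Phi κ e (κ.B i) v + d * Phi κ e (κ.B j) v := by
    intro v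
    rw [map_add, map_smul, LinearMap.add_apply, LinearMap.smul_apply, smul_eq_mul]
  rcases hH' _ hρ with h3 | h3
  · refine hj1 fun v hv => ?_
    have a1 := h3 hv
    have a2 := hi1 hv
    rw [LinearMap.mem_ker] at a1 a2 ⊢
    rw [hval, a2, zero_add] at a1
    exact (mul_eq_zero.1 a1).resolve_left hd.ne'
  · have hi2 : V₂ ≤ LinearMap.ker (Phi κ e (κ.B i)) := by
      intro v hv
      have a1 := h3 hv
      have a2 := hj2 hv
      rw [LinearMap.mem_ker] at a1 a2 ⊢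
      rw [hval, a2, mul_zero, add_zero] at a1
      exact a1
    have htop : (⊤ : Submodule ℝ (Fin r → ℝ)) ≤ LinearMap.ker (Phi κ e (κ.B i)) := by
      rw [← hV.sup_eq_top]
      exact sup_le hi1 hi2
    exact Phi_ne hR h hS (h.mem i hiS) (LinearMap.ker_eq_top.1 (top_le_iff.1 htop))

theorem isSimp (hR : Sys R) (h : IsCh R S κ) (he : Function.Injective e)
    (hS : S = Finset.univ.image e)
    (hA : ∀ H, H ∈ A ↔ ∃ ρ ∈ R, H = LinearMap.ker (Phi κ e ρ)) : IsSimplicial A := by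
  rintro K ⟨v, hv, rfl⟩
  have hvne : ∀ ρ ∈ R, Phi κ e ρ v ≠ 0 := fun ρ hρ h0 =>
    hv _ ((hA _).2 ⟨ρ, hρ, rfl⟩) h0
  obtain ⟨T, κ₂, h₂, hpos⟩ := hR.simp ((LinearMap.applyₗ v) ∘ₗ Phi κ e) hvne
  have hcard : T.card = r := by
    rw [h.card_eq h₂, hS, Finset.card_image_of_injective _ he, Finset.card_univ, Fintype.card_fin]
  let t : Fin r ≃ T := (Finset.equivFinOfCardEq hcard).symm
  let f : Fin r → ((Fin r → ℝ) →ₗ[ℝ] ℝ) := fun j => Phi κ e (κ₂.B (t j))
  have hfA : ∀ j, LinearMap.ker (f j) ∈ A := fun j => (hA _).2 ⟨_, h₂.mem _ (t j).2, rfl⟩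
  have hfv : ∀ j, 0 < f j v := fun j => hpos _ (t j).2
  have hli : LinearIndependent ℝ f := by
    rw [Fintype.linearIndependent_iff]
    intro g hg
    have h0 : Phi κ e (∑ j, g j • κ₂.B (t j)) = 0 := by
      rw [map_sum]
      simpa only [map_smul] using hg
    have h1 := Phi_inj h hS (Submodule.sum_mem _ fun j _ =>
      Submodule.smul_mem _ _ (Submodule.subset_span (h₂.mem _ (t j).2))) h0
    exact Fintype.linearIndependent_iff.1 (h₂.linearIndependent.comp t t.injective) g h1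
  refine ⟨f, hli, hfA, Set.Subset.antisymm (fun y hy j => Final.sign_closure hv (hfA j) (hfv j) y hy)
    fun y hy => ?_⟩
  have hrep : ∀ ρ ∈ R, ∀ z, Phi κ e ρ z = ∑ j, κ₂.x (t j) ρ * f j z := by
    intro ρ hρ z
    have := h₂.apply_eq hρ ((LinearMap.applyₗ z) ∘ₗ Phi κ e)
    change Phi κ e ρ z = ∑ s ∈ T, κ₂.x s ρ * Phi κ e (κ₂.B s) z at this
    rw [this, ← Finset.sum_coe_sort T, ← t.sum_comp]
  have hO : {z | ∀ j, 0 < f j z} ⊆ Complement A := by
    intro z hz H hH hzH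
    obtain ⟨ρ, hρ, rfl⟩ := (hA H).1 hH
    rw [LinearMap.mem_ker, hrep ρ hρ] at hzH
    obtain ⟨s, hs, hs0⟩ := h₂.exists_ne hR hρ
    obtain ⟨j, hj⟩ := t.surjective ⟨s, hs⟩
    have hj' : (t j : V) = s := congrArg Subtype.val hj
    have key : κ₂.x (t j) ρ * f j z = 0 := by
      rcases h₂.sign ρ hρ with h1 | h1
      · exact (Finset.sum_eq_zero_iff_of_nonneg fun k _ =>
          mul_nonneg (h1 _ (t k).2) (hz k).le).1 hzH j (Finset.mem_univ j)
      · exact (Finset.sum_eq_zero_iff_of_nonpos fun k _ =>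
          mul_nonpos_of_nonpos_of_nonneg (h1 _ (t k).2) (hz k).le).1 hzH j (Finset.mem_univ j)
    rw [hj'] at key
    exact (hz j).ne' ((mul_eq_zero.1 key).resolve_left hs0)
  have hconv : Convex ℝ {z | ∀ j, 0 < f j z} := by
    have : {z | ∀ j, 0 < f j z} = ⋂ j, {z | 0 < f j z} := by
      ext z
      simp
    rw [this]
    exact convex_iInter fun j => convex_halfSpace_gt (f j).isLinear 0
  have hsub : {z | ∀ j, 0 < f j z} ⊆ connectedComponentIn (Complement A) v :=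
    hconv.isPreconnected.subset_connectedComponentIn hfv hO
  refine closure_mono hsub ?_
  have hlim : Filter.Tendsto (fun ε : ℝ => y + ε • v) (nhdsWithin 0 (Set.Ioi 0)) (nhds y) := by
    have hc : Continuous fun ε : ℝ => y + ε • v := by fun_prop
    have := hc.tendsto 0
    rw [zero_smul, add_zero] at this
    exact this.mono_left nhdsWithin_le_nhds
  refine mem_closure_of_tendsto hlim ?_
  filter_upwards [self_mem_nhdsWithin] with ε hε j
  rw [map_add, map_smul, smul_eq_mul]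
  exact add_pos_of_nonneg_of_pos (hy j) (mul_pos hε (hfv j))

end RArr

theorem t_RB : S_RB := by
  intro V _ _ ι R S κ r e hR h hc he hS A hA
  have hA' := RArr.mem_A hA
  exact ⟨RArr.isArr hR h he hS hA', RArr.isSimp hR h he hS hA', RArr.isIrr hR h hc he hS hA'⟩

end Pool.Agent.SimpArr
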