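import Pool.Agent.P.MP_0b4c38_co.RIface

/-! Counting the faces of an arrangement. -/

set_option autoImplicit false

open Classical

namespace Pool.Agent.SimpArr

namespace RFace

open Filter Topology

variable {r : ℕ}

/-- A linear form with kernel `H`, when there is one. -/
noncomputable def FF (H : Submodule ℝ (Fin r → ℝ)) : (Fin r → ℝ) →ₗ[ℝ] ℝ :=
  if h : ∃ f : (Fin r → ℝ) →ₗ[ℝ] ℝ, LinearMap.ker f = H then h.choose else 0

theorem ker_FF {H : Submodule ℝ (Fin r → ℝ)}
    (h : ∃ f : (Fin r → ℝ) →ₗ[ℝ] ℝ, LinearMap.ker f = H) : LinearMap.ker (FF H) = H := by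
  rw [FF, dif_pos h]
  exact h.choose_spec

theorem FF_cases (H : Submodule ℝ (Fin r → ℝ)) : LinearMap.ker (FF H) = H ∨ FF H = 0 := by
  by_cases h : ∃ f : (Fin r → ℝ) →ₗ[ℝ] ℝ, LinearMap.ker f = H
  · exact Or.inl (ker_FF h)
  · exact Or.inr (by rw [FF, dif_neg h])

theorem exists_mul {f g : (Fin r → ℝ) →ₗ[ℝ] ℝ} (h : LinearMap.ker g = LinearMap.ker f) :
    ∃ c : ℝ, ∀ x, f x = c * g x := by
  by_cases hg : ∃ u, g u ≠ 0
  · obtain ⟨u, hu⟩ := hg
    refine ⟨f u / g u, fun x => ?_⟩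
    have h1 : x - (g x / g u) • u ∈ LinearMap.ker g := by
      rw [LinearMap.mem_ker, map_sub, map_smul, smul_eq_mul, div_mul_cancel₀ _ hu, sub_self]
    rw [h, LinearMap.mem_ker, map_sub, map_smul, smul_eq_mul, sub_eq_zero] at h1
    rw [h1]
    ring
  · refine ⟨0, fun x => ?_⟩
    have h1 : x ∈ LinearMap.ker g := by
      by_contra h2
      exact hg ⟨x, h2⟩
    rw [h] at h1
    rw [zero_mul]
    exact h1

variable {A : Finset (Submodule ℝ (Fin r → ℝ))}

theorem mem_cell {v w : Fin r → ℝ} :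
    w ∈ cell A v ↔ ∀ H ∈ A, SignType.sign (FF H w) = SignType.sign (FF H v) := by
  constructor
  · intro h H hH
    rcases FF_cases H with e | e
    · exact h _ (by rwa [e])
    · simp [e]
  · intro h f hf
    obtain ⟨c, hc⟩ := exists_mul (ker_FF ⟨f, rfl⟩)
    rw [hc, hc, sign_mul, sign_mul, h _ hf]

theorem self_mem (v : Fin r → ℝ) : v ∈ closure (cell A v) := subset_closure fun _ _ => rfl

theorem closure_le {v w : Fin r → ℝ} (h : v ∈ closure (cell A w)) {H : Submodule ℝ (Fin r → ℝ)}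
    (hH : H ∈ A) : (FF H w ≤ 0 → FF H v ≤ 0) ∧ (0 ≤ FF H w → 0 ≤ FF H v) := by
  have hc : Continuous (FF H) := LinearMap.continuous_of_finiteDimensional _
  constructor
  · intro hw
    refine closure_minimal (t := {x | FF H x ≤ 0}) (fun x hx => ?_)
      (isClosed_le hc continuous_const) h
    have h1 := mem_cell.1 hx H hH
    have h2 : SignType.sign (FF H w) ≤ 0 := sign_nonpos_iff.2 hw
    rw [← h1] at h2
    exact sign_nonpos_iff.1 h2
  · intro hw
    refine closure_minimal (t := {x | 0 ≤ FF H x}) (fun x hx => ?_)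
      (isClosed_le continuous_const hc) h
    have h1 := mem_cell.1 hx H hH
    have h2 : 0 ≤ SignType.sign (FF H w) := sign_nonneg_iff.2 hw
    rw [← h1] at h2
    exact sign_nonneg_iff.1 h2

theorem sign_of_closure {v w : Fin r → ℝ} (h : v ∈ closure (cell A w))
    {H : Submodule ℝ (Fin r → ℝ)} (hH : H ∈ A) (hv : v ∉ H) :
    SignType.sign (FF H w) = SignType.sign (FF H v) := by
  rcases FF_cases H with e | e
  · have h0 : FF H v ≠ 0 := fun h1 => hv (by rw [← e]; exact h1)
    obtain ⟨h1, h2⟩ := closure_le h hH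
    rcases lt_or_gt_of_ne h0 with h3 | h3
    · rw [sign_neg h3, sign_neg (lt_of_not_ge fun h4 => (h2 h4).not_gt h3)]
    · rw [sign_pos h3, sign_pos (lt_of_not_ge fun h4 => (h1 h4).not_gt h3)]
  · simp [e]

/-- Faces with prescribed signs outside `B`. -/
def fam (A B : Finset (Submodule ℝ (Fin r → ℝ))) (v : Fin r → ℝ) (s : B → SignType) :
    Set (Fin r → ℝ) :=
  closure {x | (∀ H : B, H.1 ∈ A → SignType.sign (FF H.1 x) = s H) ∧
    ∀ H ∈ A, H ∉ B → SignType.sign (FF H x) = SignType.sign (FF H v)}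

theorem mem_range_fam (B : Finset (Submodule ℝ (Fin r → ℝ))) (v w : Fin r → ℝ)
    (h : ∀ H ∈ A, H ∉ B → SignType.sign (FF H w) = SignType.sign (FF H v)) :
    closure (cell A w) ∈ Set.range (fam A B v) := by
  refine ⟨fun H => SignType.sign (FF H.1 w), ?_⟩
  unfold fam
  congr 1
  ext x
  rw [mem_cell]
  constructor
  · rintro ⟨h1, h2⟩ H hH
    by_cases hB : H ∈ B
    · exact h1 ⟨H, hB⟩ hH
    · rw [h2 H hH hB, h H hH hB]
  · intro h1
    exact ⟨fun H hH => h1 H.1 hH, fun H hH hB => by rw [h1 H hH, h H hH hB]⟩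

theorem ncard_range_fam (B : Finset (Submodule ℝ (Fin r → ℝ))) (v : Fin r → ℝ) :
    (Set.range (fam A B v)).ncard ≤ 3 ^ B.card := by
  rw [← Set.image_univ]
  refine (Set.ncard_image_le Set.finite_univ).trans ?_
  have h3 : Fintype.card SignType = 3 := by decide
  rw [Set.ncard_univ, Nat.card_eq_fintype_card, Fintype.card_fun, h3, Fintype.card_coe]

theorem face_subset : Face A ⊆ Set.range (fam A A 0) := by
  rintro _ ⟨w, rfl⟩
  exact mem_range_fam A 0 w fun H hH hB => (hB hH).elim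

theorem face_finite : (Face A).Finite := (Set.finite_range _).subset face_subset

theorem updeg_le (v : Fin r → ℝ) : updeg A (faceOf A v) ≤ 3 ^ mult A v := by
  unfold updeg mult
  rw [← Set.ncard_image_of_injective _ Subtype.val_injective]
  refine le_trans (Set.ncard_le_ncard ?_ (Set.finite_range _))
    (ncard_range_fam (A := A) (A.filter fun H => v ∈ H) v)
  rintro _ ⟨⟨F, w, rfl⟩, hF, rfl⟩
  have h1 : v ∈ closure (cell A w) := hF (self_mem v)
  refine mem_range_fam _ v w fun H hH hB => sign_of_closure h1 hH fun hv => hB ?_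
  exact Finset.mem_filter.2 ⟨hH, hv⟩

theorem ev_sign (f : (Fin r → ℝ) →ₗ[ℝ] ℝ) (y u : Fin r → ℝ) :
    ∀ᶠ t in 𝓝[>] (0 : ℝ), SignType.sign (f (y + t • u)) =
      if f y = 0 then SignType.sign (f u) else SignType.sign (f y) := by
  have e : ∀ t : ℝ, f (y + t • u) = f y + t * f u := fun t => by
    rw [map_add, map_smul, smul_eq_mul]
  have hc : Tendsto (fun t : ℝ => f y + t * f u) (𝓝[>] 0) (𝓝 (f y)) := by
    have h1 : Continuous fun t : ℝ => f y + t * f u := by fun_prop
    have h2 := h1.tendsto 0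
    simp only [zero_mul, add_zero] at h2
    exact h2.mono_left nhdsWithin_le_nhds
  simp only [e]
  rcases lt_trichotomy (f y) 0 with h | h | h
  · filter_upwards [hc.eventually (gt_mem_nhds h)] with t ht
    rw [if_neg h.ne, sign_neg h, sign_neg ht]
  · filter_upwards [self_mem_nhdsWithin] with t ht
    rw [if_pos h, h, zero_add, sign_mul, sign_pos ht, one_mul]
  · filter_upwards [hc.eventually (lt_mem_nhds h)] with t ht
    rw [if_neg h.ne', sign_pos h, sign_pos ht]

theorem ev_all (y u : Fin r → ℝ) :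
    ∀ᶠ t in 𝓝[>] (0 : ℝ), ∀ H ∈ A, SignType.sign (FF H (y + t • u)) =
      if FF H y = 0 then SignType.sign (FF H u) else SignType.sign (FF H y) :=
  (Filter.eventually_all_finset A).2 fun H _ => ev_sign (FF H) y u

theorem exists_push (v u : Fin r → ℝ) :
    ∃ ε : ℝ, 0 < ε ∧ closure (cell A v) ⊆ closure (cell A (v + ε • u)) := by
  obtain ⟨ε, h1, h2⟩ := ((ev_all (A := A) v u).and self_mem_nhdsWithin).exists
  refine ⟨ε, h2, closure_minimal (fun y hy => ?_) isClosed_closure⟩
  have hc : Tendsto (fun t : ℝ => y + t • u) (𝓝[>] 0) (𝓝 y) := by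
    have h3 : Continuous fun t : ℝ => y + t • u := by fun_prop
    have h4 := h3.tendsto 0
    simp only [zero_smul, add_zero] at h4
    exact h4.mono_left nhdsWithin_le_nhds
  refine mem_closure_of_tendsto hc ?_
  filter_upwards [ev_all (A := A) y u] with t ht
  refine mem_cell.2 fun H hH => ?_
  have h5 := mem_cell.1 hy H hH
  have h6 : FF H y = 0 ↔ FF H v = 0 := by rw [← sign_eq_zero_iff, h5, sign_eq_zero_iff]
  rw [ht H hH, h1 H hH, h5]
  simp only [h6]

theorem ker_of_rank {H : Submodule ℝ (Fin r → ℝ)} (h : Module.finrank ℝ H + 1 = r) :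
    LinearMap.ker (FF H) = H := by
  have hr : Module.finrank ℝ (Fin r → ℝ) = r := by simp
  have h1 : H < ⊤ := by
    refine lt_top_iff_ne_top.2 fun e => ?_
    rw [e, finrank_top, hr] at h
    omega
  obtain ⟨f, hf, hle⟩ := Submodule.exists_le_ker_of_lt_top H h1
  refine ker_FF ⟨f, (Submodule.eq_of_le_of_finrank_le hle ?_).symm⟩
  have h2 : LinearMap.ker f ≠ ⊤ := fun e => hf (LinearMap.ker_eq_top.1 e)
  have h3 := Submodule.finrank_lt h2
  omega

theorem exists_gen (hA : ∀ H ∈ A, Module.finrank ℝ H + 1 = r) {H : Submodule ℝ (Fin r → ℝ)}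
    (hH : H ∈ A) : ∃ u ∈ H, ∀ H' ∈ A, u ∈ H' → H' = H := by
  obtain ⟨u, hu⟩ := Submodule.exists_forall_notMem_of_forall_ne_top
    (fun H' : A.erase H => H'.1.comap H.subtype) fun H' e => by
      obtain ⟨h1, h2⟩ := Finset.mem_erase.1 H'.2
      have h3 : H ≤ H'.1 := Submodule.comap_subtype_eq_top.1 e
      have h4 := hA H hH
      have h5 := hA H'.1 h2
      exact h1 (Submodule.eq_of_le_of_finrank_le h3 (by omega)).symm
  refine ⟨u.1, u.2, fun H' hH' h => ?_⟩
  by_contra hne
  exact hu ⟨H', Finset.mem_erase.2 ⟨hne, hH'⟩⟩ h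

theorem mult_le (hA : ∀ H ∈ A, Module.finrank ℝ H + 1 = r) (v : Fin r → ℝ) :
    mult A v ≤ updeg A (faceOf A v) := by
  have h1 : ∀ H : Submodule ℝ (Fin r → ℝ), ∃ u, H ∈ A → u ∈ H ∧ ∀ H' ∈ A, u ∈ H' → H' = H := by
    intro H
    by_cases hH : H ∈ A
    · obtain ⟨u, hu⟩ := exists_gen hA hH
      exact ⟨u, fun _ => hu⟩
    · exact ⟨0, fun h => (hH h).elim⟩
  choose u hu using h1
  choose ε hε hs using fun H => exists_push (A := A) v (u H)
  have : Finite (Face A) := face_finite.to_subtype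
  unfold mult updeg
  rw [← Set.ncard_coe_finset]
  refine Set.ncard_le_ncard_of_injOn (fun H => faceOf A (v + ε H • u H)) (fun H _ => hs H)
    (fun H hH H' hH' he => ?_) (Set.toFinite _)
  obtain ⟨a1, a2⟩ := Finset.mem_filter.1 (Finset.mem_coe.1 hH)
  obtain ⟨b1, b2⟩ := Finset.mem_filter.1 (Finset.mem_coe.1 hH')
  have e : closure (cell A (v + ε H • u H)) = closure (cell A (v + ε H' • u H')) :=
    congrArg Subtype.val he
  have c1 : v + ε H' • u H' ∈ closure (cell A (v + ε H • u H)) := e ▸ self_mem _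
  have c2 : FF H (v + ε H • u H) = 0 := by
    rw [← LinearMap.mem_ker, ker_of_rank (hA H a1)]
    exact H.add_mem a2 (H.smul_mem _ (hu H a1).1)
  obtain ⟨d1, d2⟩ := closure_le c1 a1
  have c3 : v + ε H' • u H' ∈ H := by
    rw [← ker_of_rank (hA H a1)]
    exact le_antisymm (d1 c2.le) (d2 c2.ge)
  have c4 : u H' ∈ H := (H.smul_mem_iff (hε H').ne').1 ((H.add_mem_iff_right a2).1 c3)
  exact (hu H' b1).2 H a1 c4

end RFace

theorem t_Face : S_Face := fun _ A =>
  ⟨RFace.face_finite,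
    (Set.ncard_le_ncard RFace.face_subset (Set.finite_range _)).trans (RFace.ncard_range_fam A 0),
    RFace.updeg_le, RFace.mult_le⟩

end Pool.Agent.SimpArr
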