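import Pool.Agent.P.MP_0b4c38_co.RIface

/-! Finitely many classes of bounded size; linear invariance of the face poset. -/

set_option autoImplicit false

open Classical

namespace Pool.Agent.SimpArr

namespace RFin

variable {r : ℕ}

/-- `A` is described by the set `c.1` with the relation `c.2`. -/
def Code {K : ℕ} (c : Set (Fin K) × Set (Fin K × Fin K))
    (A : Finset (Submodule ℝ (Fin r → ℝ))) : Prop :=
  ∃ e : c.1 ≃ Face A, ∀ i j, e i ≤ e j ↔ ((i : Fin K), (j : Fin K)) ∈ c.2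

theorem image_cell {A B : Finset (Submodule ℝ (Fin r → ℝ))} (g : (Fin r → ℝ) ≃ₗ[ℝ] (Fin r → ℝ))
    (h : ∀ H : Submodule ℝ (Fin r → ℝ), H ∈ A ↔ H.map (g : (Fin r → ℝ) →ₗ[ℝ] (Fin r → ℝ)) ∈ B)
    (v : Fin r → ℝ) : g '' closure (cell A v) = closure (cell B (g v)) := by
  have h1 : ∀ f : (Fin r → ℝ) →ₗ[ℝ] ℝ,
      LinearMap.ker (f ∘ₗ (g : (Fin r → ℝ) →ₗ[ℝ] (Fin r → ℝ))) ∈ A ↔ LinearMap.ker f ∈ B := by
    intro f
    rw [h, LinearMap.ker_comp, Submodule.map_comap_eq_of_surjective g.surjective]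
  have h2 : g '' cell A v = cell B (g v) := by
    ext w
    obtain ⟨w, rfl⟩ := g.surjective w
    rw [g.injective.mem_set_image]
    refine ⟨fun hw f hf => hw _ ((h1 f).2 hf), fun hw f hf => ?_⟩
    have e : (f ∘ₗ (g.symm : (Fin r → ℝ) →ₗ[ℝ] (Fin r → ℝ))) ∘ₗ
        (g : (Fin r → ℝ) →ₗ[ℝ] (Fin r → ℝ)) = f := by ext; simp
    have := hw (f ∘ₗ (g.symm : (Fin r → ℝ) →ₗ[ℝ] (Fin r → ℝ))) ((h1 _).1 (by rw [e]; exact hf))
    simpa using this
  rw [← h2]
  exact g.toContinuousLinearEquiv.toHomeomorph.image_closure _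

end RFin

open RFin

theorem t_Fin (hF : S_Face) : S_Fin := by
  intro r M
  have h1 : ∀ c : {c : Set (Fin (3 ^ M)) × Set (Fin (3 ^ M) × Fin (3 ^ M)) //
      ∃ A : Finset (Submodule ℝ (Fin r → ℝ)), Code c A}, ∃ A : Finset (Submodule ℝ (Fin r → ℝ)),
      Code c.1 A := fun c => c.2
  choose F hc using h1
  refine ⟨Set.range F, Set.finite_range F, fun A hA => ?_⟩
  obtain ⟨h2, h3, -⟩ := hF r A
  haveI := h2.to_subtype
  obtain ⟨u⟩ : Nonempty (Face A ↪ Fin (3 ^ M)) := by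
    cases nonempty_fintype (Face A)
    refine Function.Embedding.nonempty_of_card_le ?_
    rw [Fintype.card_fin, ← Nat.card_eq_fintype_card, Nat.card_coe_set_eq]
    exact h3.trans (Nat.pow_le_pow_right (by norm_num) hA)
  have h4 : Code (Set.range u, {p | ∃ a b, a ≤ b ∧ p = (u a, u b)}) A := by
    refine ⟨(Equiv.ofInjective u u.injective).symm, fun i j => ?_⟩
    obtain ⟨a, rfl⟩ := (Equiv.ofInjective u u.injective).surjective i
    obtain ⟨b, rfl⟩ := (Equiv.ofInjective u u.injective).surjective j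
    rw [Equiv.symm_apply_apply, Equiv.symm_apply_apply]
    refine ⟨fun h => ⟨a, b, h, rfl⟩, ?_⟩
    rintro ⟨a', b', h, e⟩
    obtain ⟨e1, e2⟩ := Prod.ext_iff.1 e
    rwa [u.injective e1, u.injective e2]
  obtain ⟨e', he'⟩ := hc ⟨_, A, h4⟩
  obtain ⟨e, he⟩ := id h4
  refine ⟨_, ⟨⟨_, A, h4⟩, rfl⟩, ⟨⟨e.symm.trans e', fun {a b} => ?_⟩⟩⟩
  obtain ⟨a, rfl⟩ := e.surjective a
  obtain ⟨b, rfl⟩ := e.surjective b
  rw [Equiv.trans_apply, Equiv.trans_apply, Equiv.symm_apply_apply, Equiv.symm_apply_apply]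
  exact (he' a b).trans (he a b).symm

theorem t_Lin : S_Lin := by
  intro r A B g h
  refine ⟨⟨(Equiv.Set.congr g.toEquiv).subtypeEquiv fun F => ⟨?_, ?_⟩, fun {a b} =>
    Set.image_subset_image_iff g.injective⟩⟩
  · rintro ⟨v, rfl⟩
    exact ⟨g v, image_cell g h v⟩
  · rintro ⟨v, hv⟩
    obtain ⟨v, rfl⟩ := g.surjective v
    exact ⟨v, g.injective.image_injective (hv.trans (image_cell g h v).symm)⟩

end Pool.Agent.SimpArr
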