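import Pool.Agent.P.MP_0b4c38_co.RIface

/-! Flats are localizations, and the fibre bound for a contraction. -/

set_option autoImplicit false

open Classical

namespace Pool.Agent.SimpArr

namespace RFlat

variable {V : Type} [AddCommGroup V] [Module ℝ V] {ι : Type}

theorem exists_fun_aux {R : Set V} (hR : Sys R) (U : Submodule ℝ V) (G : Finset V) :
    ∃ f : V →ₗ[ℝ] ℝ, (∀ ρ ∈ R, ρ ∈ U → f ρ = 0) ∧
      ∀ g ∈ G, ∀ ρ ∈ R, ρ ∉ U → (∃ c : ℝ, ρ = c • g) → f ρ ≠ 0 := by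
  induction G using Finset.induction_on with
  | empty => exact ⟨0, fun _ _ _ => rfl, by simp⟩
  | insert g G _ ih =>
    obtain ⟨f, hf1, hf2⟩ := ih
    by_cases hg : g ∈ U
    · refine ⟨f, hf1, fun g' hg' ρ hρ hU hc => ?_⟩
      rcases Finset.mem_insert.mp hg' with rfl | hg'
      · obtain ⟨c, rfl⟩ := hc
        exact absurd (U.smul_mem c hg) hU
      · exact hf2 g' hg' ρ hρ hU hc
    · obtain ⟨ψ, hψ1, hψ2⟩ := Submodule.exists_le_ker_of_notMem hg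
      obtain ⟨φ, hφ⟩ := hR.lex f ψ
      have key : ∀ ρ ∈ R, f ρ ≠ 0 ∨ ψ ρ ≠ 0 → φ ρ ≠ 0 := by
        intro ρ hρ h
        obtain ⟨h1, h2, h3⟩ := hφ ρ hρ
        rcases lt_trichotomy (f ρ) 0 with h0 | h0 | h0
        · exact (h2 h0).ne
        · rcases lt_or_gt_of_ne (h.resolve_left (not_not.mpr h0)) with h' | h'
          · exact ((h3 h0).2.1 h').ne
          · exact ((h3 h0).1 h').ne'
        · exact (h1 h0).ne'
      refine ⟨φ, fun ρ hρ hU => ((hφ ρ hρ).2.2 (hf1 ρ hρ hU)).2.2 (hψ2 hU),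
        fun g' hg' ρ hρ hU hc => key ρ hρ ?_⟩
      rcases Finset.mem_insert.mp hg' with rfl | hg'
      · obtain ⟨c, rfl⟩ := hc
        right
        rw [map_smul, smul_eq_mul]
        exact mul_ne_zero (left_ne_zero_of_smul (hR.ne _ hρ)) hψ1
      · exact Or.inl (hf2 g' hg' ρ hρ hU hc)

/-- Every subspace is cut out on the roots by one functional. -/
theorem exists_fun {R : Set V} (hR : Sys R) (U : Submodule ℝ V) :
    ∃ f : V →ₗ[ℝ] ℝ, ∀ ρ ∈ R, (f ρ = 0 ↔ ρ ∈ U) := by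
  obtain ⟨F, hF⟩ := hR.fin
  obtain ⟨f, hf1, hf2⟩ := exists_fun_aux hR U F
  refine ⟨f, fun ρ hρ => ⟨fun h0 => ?_, hf1 ρ hρ⟩⟩
  by_contra hU
  obtain ⟨g, hg, hc⟩ := hF ρ hρ
  exact hf2 g hg ρ hρ hU hc h0

theorem proj_single {R : Set V} {S : Finset ι} {κ : Fam ι V} (h : IsCh R S κ) {a : ι}
    (ha : a ∈ S) {ρ : V} (hρ : ρ ∈ R) : ρ = κ.x a ρ • κ.B a + proj S κ {a} ρ := by
  rw [proj_apply, Finset.sdiff_singleton_eq_erase,
    Finset.add_sum_erase S (fun i => κ.x i ρ • κ.B i) ha]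
  exact h.repr ρ hρ

end RFlat

theorem t_FL : S_FL := by
  intro V _ _ R U hR
  obtain ⟨f, hf⟩ := RFlat.exists_fun hR U
  obtain ⟨ψ, hψ⟩ := RFlat.exists_fun hR ⊥
  obtain ⟨T, κ, hκ, hT⟩ := hR.near f ψ fun ρ hρ _ h0 =>
    hR.ne ρ hρ ((Submodule.mem_bot ℝ).mp ((hψ ρ hρ).mp h0))
  have hnn : ∀ t ∈ T, 0 ≤ f (κ.B t) := fun t ht => by
    rcases hT t ht with h | h
    · exact h.le
    · exact h.1.ge
  refine ⟨T, T.filter fun t => f (κ.B t) = 0, κ, hκ, Finset.filter_subset _ _, ?_⟩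
  ext ρ
  constructor
  · rintro ⟨hρ, hs⟩
    refine ⟨hρ, (hf ρ hρ).mp ?_⟩
    rw [hκ.apply_eq hρ]
    refine Finset.sum_eq_zero fun i hi => ?_
    by_cases h0 : f (κ.B i) = 0
    · rw [h0, mul_zero]
    · rw [hs i hi fun h => h0 (Finset.mem_filter.mp h).2, zero_mul]
  · rintro ⟨hρ, hU⟩
    refine ⟨hρ, fun i hi hi' => ?_⟩
    have h0 : f (κ.B i) ≠ 0 := fun h => hi' (Finset.mem_filter.mpr ⟨hi, h⟩)
    exact hκ.x_zero_of_ker hnn hρ ((hf ρ hρ).mpr hU) hi (lt_of_le_of_ne (hnn i hi) h0.symm)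

theorem t_FB : S_FB := by
  intro V _ _ ι R S κ a Q C hR h ha hQ _ hC
  have hfin : ((fun ρ => Submodule.span ℝ {ρ}) '' Q).Finite := hR.finL.mono hQ
  have e1 : nl Q = hfin.toFinset.card := Set.ncard_eq_toFinset_card _ hfin
  have e2 : nl (proj S κ {a} '' Q) =
      (hfin.toFinset.image (Submodule.map (proj S κ {a}))).card := by
    unfold nl
    rw [lines_image, ← Set.ncard_coe_finset, Finset.coe_image, Set.Finite.coe_toFinset]
  rw [e1, e2]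
  apply Finset.card_le_mul_card_image
  intro b hb
  obtain ⟨l, hl, rfl⟩ := Finset.mem_image.mp hb
  obtain ⟨ρ0, hρ0, rfl⟩ := hfin.mem_toFinset.mp hl
  refine le_trans ?_ (hC ρ0 hρ0)
  rw [← Set.ncard_coe_finset]
  refine Set.ncard_le_ncard ?_ (hR.finL.mono fun v hv => hv.1)
  intro l hl
  obtain ⟨hl1, hl2⟩ := Finset.mem_filter.mp (Finset.mem_coe.mp hl)
  obtain ⟨ρ, hρ, rfl⟩ := hfin.mem_toFinset.mp hl1
  refine ⟨ρ, ⟨hQ hρ, ?_⟩, rfl⟩
  have h1 : proj S κ {a} ρ ∈ Submodule.map (proj S κ {a}) (Submodule.span ℝ {ρ0}) := by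
    rw [← hl2]
    exact Submodule.mem_map_of_mem (Submodule.mem_span_singleton_self ρ)
  rw [Submodule.map_span, Set.image_singleton, Submodule.mem_span_singleton] at h1
  obtain ⟨c, hc⟩ := h1
  have h2 := RFlat.proj_single h ha (hQ hρ)
  have h3 := RFlat.proj_single h ha (hQ hρ0)
  refine Submodule.mem_span_pair.mpr ⟨κ.x a ρ - c * κ.x a ρ0, c, ?_⟩
  have h4 : proj S κ {a} ρ0 = ρ0 - κ.x a ρ0 • κ.B a := eq_sub_of_add_eq' h3.symm
  rw [h4] at hc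
  conv_rhs => rw [h2, ← hc]
  rw [sub_smul, smul_sub, smul_smul]
  abel

end Pool.Agent.SimpArr
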