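import Pool.Agent.P.MP_0b4c38_co.Stage2
import Pool.Agent.P.MP_0b4c38_co.G4c

/-! Simplicial root systems: classification in large rank. -/

set_option autoImplicit false

namespace Pool.Agent.SimpArr

variable {V : Type} [AddCommGroup V] [Module ℝ V] {ι : Type}
variable {R : Set V} {S : Finset ι} {κ : Fam ι V}

theorem classify_large (hR : Sys R) (h : IsCh R S κ) (hc : Conn R S κ S) (hS : 3000 ≤ S.card) :
    TypeA R S.card ∨ TypeD R S.card := by
  obtain ⟨κ', t, n, ε, α, β, c, E, hG⟩ := exists_G4 hR h hc hS
  exact hG.classify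

end Pool.Agent.SimpArr
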