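import Pool.Agent.P.MP_0b4c38_co.RIface
import Pool.Agent.P.MP_0b4c38_co.Main

/-! Reduction to rank three: assembling the parts. -/

set_option autoImplicit false

open Classical

namespace Pool.Agent.SimpArr

namespace RGlue

variable {r s : ℕ}

theorem tame_mono {C C' : ℕ} {g g' : ℕ → ℕ} {A : Finset (Submodule ℝ (Fin r → ℝ))}
    (h : Tame C g A) (hC : C ≤ C') (hg : ∀ n, g n ≤ g' n) : Tame C' g' A := by
  obtain ⟨⟨x, hx⟩, h2⟩ := h
  exact ⟨⟨x, fun w hw => (hx w hw).trans hC⟩, fun n hn => (h2 n hn).trans (hg n)⟩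

theorem tame_of_card {N : ℕ} {A : Finset (Submodule ℝ (Fin r → ℝ))} (h : A.card ≤ N) :
    Tame N (fun _ => N) A :=
  ⟨⟨0, fun _ _ => (Finset.card_filter_le _ _).trans h⟩, fun _ _ => h⟩

theorem card_le_of_combEq (hF : S_Face) {A : Finset (Submodule ℝ (Fin r → ℝ))}
    {B : Finset (Submodule ℝ (Fin s → ℝ))} (hA : IsArrangement A) (h : CombEq A B) :
    A.card ≤ 3 ^ B.card := by
  obtain ⟨e⟩ := h
  obtain ⟨hfA, -, -, h4⟩ := hF r A
  obtain ⟨hfB, h2, -, -⟩ := hF s B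
  have h0 : mult A 0 = A.card := by
    unfold mult
    rw [Finset.filter_true_of_mem fun H _ => H.zero_mem]
  have h5 := h4 hA.1 0
  have := hfA.to_subtype
  have h6 : updeg A (faceOf A 0) ≤ (Face A).ncard := by
    unfold updeg
    calc _ ≤ (Set.univ : Set (Face A)).ncard := Set.ncard_le_ncard (Set.subset_univ _)
      _ = _ := by rw [Set.ncard_univ, Nat.card_coe_set_eq]
  have h7 : (Face A).ncard = (Face B).ncard := by
    rw [← Nat.card_coe_set_eq, ← Nat.card_coe_set_eq]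
    exact Nat.card_congr e.toEquiv
  omega

theorem card_ark {k : ℕ} {B : Finset (Submodule ℝ (Fin 3 → ℝ))} (h : IsArk k B) :
    B.card ≤ 21 := by
  let p : Fin 3 → (Fin 3 → ℝ) →ₗ[ℝ] ℝ := fun i => LinearMap.proj i
  let T1 := (Finset.univ : Finset (Fin 3 × Fin 3)).image fun x => LinearMap.ker (p x.1 - p x.2)
  let T2 := (Finset.univ : Finset (Fin 3 × Fin 3)).image fun x => LinearMap.ker (p x.1 + p x.2)
  let T3 := (Finset.univ : Finset (Fin 3)).image fun x => LinearMap.ker (p x)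
  have hsub : B ⊆ T1 ∪ T2 ∪ T3 := by
    intro H hH
    rcases (h H).1 hH with ⟨i, j, -, h1 | h1⟩ | ⟨i, -, h1⟩
    · refine Finset.mem_union_left _ (Finset.mem_union_left _
        (Finset.mem_image.2 ⟨(i, j), Finset.mem_univ _, ?_⟩))
      ext v
      rw [h1]
      simp [p, sub_eq_zero]
    · refine Finset.mem_union_left _ (Finset.mem_union_right _
        (Finset.mem_image.2 ⟨(i, j), Finset.mem_univ _, ?_⟩))
      ext v
      rw [h1]
      simp [p, add_eq_zero_iff_eq_neg]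
    · refine Finset.mem_union_right _ (Finset.mem_image.2 ⟨i, Finset.mem_univ _, ?_⟩)
      ext v
      rw [h1]
      simp [p]
  have h1 : T1.card ≤ 9 := Finset.card_image_le.trans (by simp)
  have h2 : T2.card ≤ 9 := Finset.card_image_le.trans (by simp)
  have h3 : T3.card ≤ 3 := Finset.card_image_le.trans (by simp)
  have h4 := Finset.card_le_card hsub
  have h5 := Finset.card_union_le (T1 ∪ T2) T3
  have h6 := Finset.card_union_le T1 T2
  omega

/-- If rank three is finite, all irreducible simplicial arrangements of rank three are tame. -/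
theorem tame3 (hF : S_Face) (hT : S_Trans) (hR : S_Refl) (hG : S_Reg)
    (h : FinitelyManySporadic fun n => n = 3) :
    ∃ (C₀ : ℕ) (g : ℕ → ℕ), ∀ A : Finset (Submodule ℝ (Fin 3 → ℝ)), IsArrangement A →
      IsSimplicial A → IsIrreducible A → Tame C₀ g A := by
  obtain ⟨L, hL, hall⟩ := h
  obtain ⟨N, hN⟩ := hR
  obtain ⟨K, hK⟩ : ∃ K : ℕ, ∀ B ∈ L, B.2.card ≤ K := by
    obtain ⟨K, hK⟩ := (hL.image fun B => B.2.card).bddAbove
    exact ⟨K, fun B hB => hK ⟨B, hB, rfl⟩⟩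
  have l1 : ∀ a b c d : ℕ, a ≤ a + b + c + d := fun _ _ _ _ => by omega
  have l2 : ∀ a b c d : ℕ, b ≤ a + b + c + d := fun _ _ _ _ => by omega
  have l3 : ∀ a b c d : ℕ, c ≤ a + b + c + d := fun _ _ _ _ => by omega
  have l4 : ∀ a b c d : ℕ, d ≤ a + b + c + d := fun _ _ _ _ => by omega
  refine ⟨3 ^ K + 3 ^ 21 + (3 ^ N + 1) + (3 ^ 4 + 1),
    fun C => 3 ^ K + 3 ^ 21 + 3 ^ (3 ^ C + N) + 3 ^ (2 * 3 ^ C + 1), fun A hA hs hi => ?_⟩
  by_cases h1 : ∃ B : Finset (Submodule ℝ (Fin 3 → ℝ)),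
      (IsReflArr B ∨ ∃ k, 0 < k ∧ k < 3 ∧ IsArk k B) ∧ CombEq A B
  · obtain ⟨B, hB | ⟨k, -, -, hB⟩, hAB⟩ := h1
    · exact tame_mono (hT _ _ A B hA (hN B hB).1 hAB (hN B hB).2) (l3 _ _ _ _)
        fun n => l3 _ _ _ _
    · have h2 : A.card ≤ 3 ^ 21 :=
        (card_le_of_combEq hF hA hAB).trans (Nat.pow_le_pow_right (by norm_num) (card_ark hB))
      exact tame_mono (tame_of_card h2) (l2 _ _ _ _) fun n => l2 _ _ _ _
  by_cases h2 : ∃ B : Finset (Submodule ℝ (Fin 3 → ℝ)), IsRegular B ∧ CombEq A B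
  · obtain ⟨B, hB, hAB⟩ := h2
    exact tame_mono (hT _ _ A B hA (hG B hB).1 hAB (hG B hB).2) (l4 _ _ _ _) fun n => l4 _ _ _ _
  obtain ⟨B, hB, hAB⟩ := hall 3 rfl A ⟨hA, hs, hi, h1, h2⟩
  have h3 : A.card ≤ 3 ^ K :=
    (card_le_of_combEq hF hA hAB).trans (Nat.pow_le_pow_right (by norm_num) (hK B hB))
  exact tame_mono (tame_of_card h3) (l1 _ _ _ _) fun n => l1 _ _ _ _

theorem card_le_nl_Rt {A : Finset (Submodule ℝ (Fin r → ℝ))} (hA : IsArrangement A)
    (hs : IsSimplicial A) : A.card ≤ nl (Final.Rt A) := by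
  choose! F hF using fun H (hH : H ∈ A) => Final.exists_ker (hA.1 H hH)
  refine card_le_nl (Final.sys hA hs).finL A F
    (fun H hH => ⟨(hF H hH).1, (hF H hH).2.symm ▸ hH⟩) fun H hH H' hH' he => ?_
  have h1 : F H ∈ Submodule.span ℝ {F H'} := he ▸ Submodule.mem_span_singleton_self _
  obtain ⟨c, hc⟩ := Submodule.mem_span_singleton.1 h1
  have hc0 : c ≠ 0 := by
    rintro rfl
    exact (hF H hH).1 (by rw [← hc, zero_smul])
  rw [← (hF H hH).2, ← (hF H' hH').2, ← hc, LinearMap.ker_smul _ _ hc0]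

theorem card_le_of_bd {M : ℕ} (h : Bd r M) {A : Finset (Submodule ℝ (Fin r → ℝ))}
    (hA : IsArrangement A) (hs : IsSimplicial A) (hi : IsIrreducible A) : A.card ≤ M := by
  obtain ⟨v, hv⟩ := Final.exists_compl hA
  obtain ⟨f, w, hw, hf, -, hsign⟩ := Final.chamber hs hv
  have hch := hw.isCh hf hsign
  have hcard : (Finset.univ.image f).card = r := by
    rw [Finset.card_image_of_injective _ hw.inj, Finset.card_univ, Fintype.card_fin]
  exact (card_le_nl_Rt hA hs).trans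
    (h _ _ _ _ _ (Final.sys hA hs) hch (hw.conn hA hs hi hch) hcard)

theorem not_sporadic (hRA : S_REA) (hRD : S_RED) (hr : 3000 ≤ r)
    {A : Finset (Submodule ℝ (Fin r → ℝ))} : ¬ IsSporadic A := by
  rintro ⟨hA, hs, hi, h1, -⟩
  rcases final_of_main (N := 3000) (by norm_num)
    (fun _ _ _ _ _ _ hR h hc hS => classify_large hR h hc hS) hr A hA hs hi with h | ⟨k, hk, h⟩
  · obtain ⟨B, hB, hAB⟩ := hRA r A (by omega) h
    exact h1 ⟨B, Or.inl hB, hAB⟩
  · obtain ⟨B, hB, hAB, hB'⟩ := hRD r k A (by omega) hk h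
    by_cases h0 : k = 0 ∨ k = r
    · exact h1 ⟨B, Or.inl (hB' h0), hAB⟩
    · exact h1 ⟨B, Or.inr ⟨k, by omega, by omega, hB⟩, hAB⟩

end RGlue

theorem reduction (hF : S_Face) (hT : S_Trans) (hR : S_Refl) (hG : S_Reg) (hH : S_H3)
    (hB : S_B4) (hI : S_Ind) (hFin : S_Fin) (hRA : S_REA) (hRD : S_RED) :
    FinitelyManySporadic (fun n => 3 ≤ n) ↔ FinitelyManySporadic fun n => n = 3 := by
  constructor
  · rintro ⟨L, hL, h⟩
    exact ⟨L, hL, fun n hn => h n (by omega)⟩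
  intro h3
  obtain ⟨C₀, g, hT3⟩ := RGlue.tame3 hF hT hR hG h3
  obtain ⟨M₄, hM₄⟩ := hB C₀ g (hH C₀ g hT3)
  have hbd : ∀ n, 4 ≤ n → ∃ M, Bd n M := by
    intro n hn
    induction n, hn using Nat.le_induction with
    | base => exact ⟨M₄, hM₄⟩
    | succ n hn ih =>
      obtain ⟨M, hM⟩ := ih
      exact ⟨_, hI n M (by omega) hM⟩
  choose! M hM using hbd
  choose Ls hLs using fun n => hFin n (M n)
  obtain ⟨L, hL, hall⟩ := h3
  refine ⟨L ∪ ⋃ n ∈ Set.Iio 3000, (fun B => (⟨n, B⟩ : Σ n : ℕ, Finset (Submodule ℝ (Fin n → ℝ)))) ''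
    Ls n, hL.union ((Set.finite_Iio 3000).biUnion fun n _ => (hLs n).1.image _), ?_⟩
  intro n hn A hA
  by_cases h1 : n = 3
  · obtain ⟨B, hB, hAB⟩ := hall n h1 A hA
    exact ⟨B, Or.inl hB, hAB⟩
  by_cases h2 : 3000 ≤ n
  · exact absurd hA (RGlue.not_sporadic hRA hRD h2)
  obtain ⟨B, hB, hAB⟩ := (hLs n).2 A
    (RGlue.card_le_of_bd (hM n (by have : 3 ≤ n := hn; omega)) hA.1 hA.2.1 hA.2.2.1)
  exact ⟨⟨n, B⟩, Or.inr (Set.mem_biUnion (show n ∈ Set.Iio 3000 from not_le.1 h2)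
    ⟨B, hB, rfl⟩), hAB⟩

end Pool.Agent.SimpArr
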