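import Pool.Agent.P.MP_0b4c38_co.RIface

/-! Tameness of arrangements of rank three gives tameness of root systems of rank three. -/

set_option autoImplicit false

open Classical

namespace Pool.Agent.SimpArr

namespace RH3

theorem ncard_image_congr {α β γ : Type} (Q : Set α) (f : α → β) (g : α → γ)
    (h : ∀ a ∈ Q, ∀ b ∈ Q, f a = f b ↔ g a = g b) : (f '' Q).ncard = (g '' Q).ncard := by
  refine Set.ncard_congr (fun _ hy => g hy.choose) (fun _ hy => ⟨_, hy.choose_spec.1, rfl⟩)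
    (fun y z hy hz e => ?_) ?_
  · rw [← hy.choose_spec.2, ← hz.choose_spec.2]
    exact (h _ hy.choose_spec.1 _ hz.choose_spec.1).2 e
  · rintro _ ⟨a, ha, rfl⟩
    have hy : f a ∈ f '' Q := ⟨a, ha, rfl⟩
    exact ⟨f a, hy, (h _ hy.choose_spec.1 _ ha).1 hy.choose_spec.2⟩

variable {V : Type} [AddCommGroup V] [Module ℝ V] {ι : Type} {R : Set V} {S : Finset ι}
  {κ : Fam ι V} {r : ℕ} {e : Fin r → ι}

/-- The linear form with the coordinates of `ρ` as coefficients. -/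
noncomputable def Phi (κ : Fam ι V) (e : Fin r → ι) (ρ : V) : Final.Du r :=
  ∑ i, κ.x (e i) ρ • LinearMap.proj i

theorem Phi_apply (ρ : V) (v : Fin r → ℝ) : Phi κ e ρ v = ∑ i, κ.x (e i) ρ * v i := by
  simp [Phi]

theorem Phi_single (ρ : V) (i : Fin r) : Phi κ e ρ (Pi.single i 1) = κ.x (e i) ρ := by
  simp [Phi_apply, Pi.single_apply]

theorem Phi_smul (c : ℝ) (ρ : V) : Phi κ e (c • ρ) = c • Phi κ e ρ := by
  simp [Phi, Finset.smul_sum, mul_smul]

theorem apply_eq (h : IsCh R S κ) (he : Function.Injective e) (hS : S = Finset.univ.image e)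
    (φ : V →ₗ[ℝ] ℝ) {ρ : V} (hρ : ρ ∈ R) : φ ρ = Phi κ e ρ fun i => φ (κ.B (e i)) := by
  rw [Phi_apply]
  conv_lhs => rw [h.repr ρ hρ]
  rw [map_sum, hS, Finset.sum_image fun i _ j _ hij => he hij]
  simp

theorem ker_iff (hR : Sys R) (h : IsCh R S κ) (hS : S = Finset.univ.image e) {ρ σ : V}
    (hρ : ρ ∈ R) (hσ : σ ∈ R) : Submodule.span ℝ {ρ} = Submodule.span ℝ {σ} ↔
      LinearMap.ker (Phi κ e ρ) = LinearMap.ker (Phi κ e σ) := by
  have hne : ∀ τ ∈ R, Phi κ e τ ≠ 0 := by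
    intro τ hτ h0
    obtain ⟨i, hi, hx⟩ := h.exists_ne hR hτ
    rw [hS] at hi
    obtain ⟨j, -, rfl⟩ := Finset.mem_image.1 hi
    exact hx (by rw [← Phi_single, h0, LinearMap.zero_apply])
  constructor
  · intro hs
    obtain ⟨c, rfl⟩ := Submodule.mem_span_singleton.1
      (hs ▸ Submodule.mem_span_singleton_self ρ : ρ ∈ Submodule.span ℝ {σ})
    rw [Phi_smul, LinearMap.ker_smul _ _ fun hc => hR.ne _ hρ (by rw [hc, zero_smul])]
  · intro hk
    obtain ⟨c, hc⟩ := Final.exists_smul (hne σ hσ) hk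
    have hc0 : c ≠ 0 := by
      rintro rfl
      exact hne ρ hρ (by rw [hc, zero_smul])
    have h1 : ρ = c • σ := by
      refine h.eq_of_x hρ (hR.smul σ hσ c hc0) fun i hi => ?_
      rw [hS] at hi
      obtain ⟨j, -, rfl⟩ := Finset.mem_image.1 hi
      rw [← Phi_single, ← Phi_single, Phi_smul, hc]
    rw [h1, Submodule.span_singleton_smul_eq (IsUnit.mk0 c hc0)]

theorem finite_ker (hR : Sys R) : ((fun ρ => LinearMap.ker (Phi κ e ρ)) '' R).Finite := by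
  obtain ⟨F, hF⟩ := hR.fin
  refine ((F.finite_toSet).image fun ρ => LinearMap.ker (Phi κ e ρ)).subset ?_
  rintro _ ⟨ρ, hρ, rfl⟩
  obtain ⟨f, hf, c, rfl⟩ := hF ρ hρ
  refine ⟨f, hf, ?_⟩
  simp only
  rw [Phi_smul, LinearMap.ker_smul _ _ fun hc => hR.ne _ hρ (by rw [hc, zero_smul])]

theorem nl_eq (hR : Sys R) (h : IsCh R S κ) (hS : S = Finset.univ.image e) {Q : Set V}
    (hQ : Q ⊆ R) : nl Q = ((fun ρ => LinearMap.ker (Phi κ e ρ)) '' Q).ncard :=
  ncard_image_congr Q _ _ fun _ ha _ hb => ker_iff hR h hS (hQ ha) (hQ hb)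

theorem nl_ker (hR : Sys R) (h : IsCh R S κ) (he : Function.Injective e)
    (hS : S = Finset.univ.image e) (φ : V →ₗ[ℝ] ℝ) :
    nl {ρ | ρ ∈ R ∧ φ ρ = 0} =
      mult (finite_ker (κ := κ) (e := e) hR).toFinset fun i => φ (κ.B (e i)) := by
  rw [nl_eq hR h hS fun _ hρ => hρ.1, mult, ← Set.ncard_coe_finset]
  congr 1
  ext H
  simp only [Finset.coe_filter, Set.Finite.mem_toFinset, Set.mem_image, Set.mem_ofPred_eq]
  constructor
  · rintro ⟨ρ, ⟨hρ, h0⟩, rfl⟩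
    exact ⟨⟨ρ, hρ, rfl⟩, (apply_eq h he hS φ hρ).symm.trans h0⟩
  · rintro ⟨⟨ρ, hρ, rfl⟩, h0⟩
    exact ⟨ρ, ⟨hρ, (apply_eq h he hS φ hρ).trans h0⟩, rfl⟩

end RH3

open RH3 in
theorem t_H3 (hRB : S_RB) : S_H3 := by
  intro C₀ g hA V _ _ ι R S κ hR h hC h3
  let e : Fin 3 → ι := fun i => ((Finset.equivFinOfCardEq h3).symm i).1
  have he : Function.Injective e :=
    Subtype.val_injective.comp (Finset.equivFinOfCardEq h3).symm.injective
  have hmem : ∀ i, e i ∈ S := fun i => ((Finset.equivFinOfCardEq h3).symm i).2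
  have hS : S = Finset.univ.image e := by
    ext i
    simp only [Finset.mem_image, Finset.mem_univ, true_and]
    exact ⟨fun hi => ⟨Finset.equivFinOfCardEq h3 ⟨i, hi⟩, by simp [e]⟩, fun ⟨j, hj⟩ => hj ▸ hmem j⟩
  obtain ⟨a1, a2, a3⟩ := hRB V ι R S κ 3 e hR h hC he hS
    (finite_ker (κ := κ) (e := e) hR).toFinset fun H => by
      simp only [Set.Finite.mem_toFinset, Set.mem_image, SetLike.ext_iff, LinearMap.mem_ker,
        Phi_apply]
      exact exists_congr fun ρ => and_congr_right fun _ => forall_congr' fun v => Iff.comm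
  obtain ⟨⟨x, hx⟩, hg⟩ := hA _ a1 a2 a3
  constructor
  · have key : ∀ φ : V →ₗ[ℝ] ℝ, (∃ ρ ∈ R, φ ρ ≠ 0) → C₀ < nl {ρ | ρ ∈ R ∧ φ ρ = 0} →
        ∀ ρ ∈ R, φ ρ = 0 ↔ Phi κ e ρ x = 0 := by
      rintro φ ⟨σ, hσ, h0⟩ hlt ρ hρ
      rw [nl_ker hR h he hS] at hlt
      obtain ⟨c, hc⟩ : ∃ c : ℝ, (fun i => φ (κ.B (e i))) = c • x := by
        by_contra hn
        exact hlt.not_ge (hx _ (not_exists.1 hn))
      have hc0 : c ≠ 0 := by
        rintro rfl
        exact h0 (by rw [apply_eq h he hS φ hσ, hc, zero_smul, map_zero])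
      rw [apply_eq h he hS φ hρ, hc, map_smul, smul_eq_zero_iff_right hc0]
    intro φ ψ h1 h2 h3 h4 ρ hρ
    rw [key φ h1 h3 ρ hρ, key ψ h2 h4 ρ hρ]
  · intro C hCb
    rw [nl_eq hR h hS subset_rfl, Set.ncard_eq_toFinset_card _ (finite_ker hR)]
    refine hg C fun w hw => ?_
    have hφ : ∀ j, (∑ i, w i • κ.x (e i)) (κ.B (e j)) = w j := by
      intro j
      simp [h.dual _ (hmem _) _ (hmem _), he.eq_iff]
    obtain ⟨j, hj⟩ := Function.ne_iff.1 hw
    have h1 := hCb (∑ i, w i • κ.x (e i)) ⟨_, h.mem _ (hmem j), by rw [hφ]; exact hj⟩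
    rwa [nl_ker hR h he hS, funext hφ] at h1

end Pool.Agent.SimpArr
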