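import Pool.Agent.P.MP_0b4c38_co.RIface
import Pool.Agent.P.MP_0b4c38_co.Good

/-! In rank three many roots avoid a point of large multiplicity. -/

set_option autoImplicit false

open Classical

namespace Pool.Agent.SimpArr

namespace RK

variable {V : Type} [AddCommGroup V] [Module ℝ V] {ι : Type}
variable {R : Set V} {κ : Fam ι V} {a b c : ι}

/-- Roots of height one. -/
def PP (R : Set V) (κ : Fam ι V) (c : ι) : Set V := {ρ | ρ ∈ R ∧ κ.x c ρ = 1}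

/-- Directions of differences of roots of height one. -/
def DD (R : Set V) (κ : Fam ι V) (c : ι) : Set (Submodule ℝ V) :=
  (fun p : V × V => Submodule.span ℝ {p.1 - p.2}) '' (PP R κ c ×ˢ PP R κ c)

/-- The determinant in the coordinates `a`, `b`. -/
def ww (κ : Fam ι V) (a b : ι) (u v : V) : ℝ := κ.x a u * κ.x b v - κ.x b u * κ.x a v

theorem PP_inj : Set.InjOn (fun ρ : V => Submodule.span ℝ {ρ}) (PP R κ c) := by
  intro ρ hρ σ hσ he
  have h1 : ρ ∈ Submodule.span ℝ {σ} := by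
    have he' : Submodule.span ℝ {ρ} = Submodule.span ℝ {σ} := he
    rw [← he']
    exact Submodule.mem_span_singleton_self ρ
  obtain ⟨t, ht⟩ := Submodule.mem_span_singleton.1 h1
  have h2 := congrArg (κ.x c) ht
  rw [map_smul, hρ.2, hσ.2, smul_eq_mul, mul_one] at h2
  rw [← ht, h2, one_smul]

theorem PP_fin (hR : Sys R) : (PP R κ c).Finite :=
  Set.Finite.of_finite_image (hR.finL.mono fun _ h => h.1) PP_inj

theorem PP_le (hR : Sys R) : (PP R κ c).ncard ≤ nl {ρ | ρ ∈ R ∧ κ.x c ρ ≠ 0} :=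
  Set.ncard_le_ncard_of_injOn (fun ρ : V => Submodule.span ℝ {ρ})
    (fun ρ hρ => ⟨ρ, ⟨hρ.1, by rw [hρ.2]; exact one_ne_zero⟩, rfl⟩) PP_inj
    (hR.finL.mono fun _ h => h.1)

theorem DD_fin (hR : Sys R) : (DD R κ c).Finite := ((PP_fin hR).prod (PP_fin hR)).image _

theorem DD_le (hR : Sys R) : (DD R κ c).ncard ≤ nl {ρ | ρ ∈ R ∧ κ.x c ρ ≠ 0} ^ 2 := by
  refine (Set.ncard_image_le ((PP_fin hR).prod (PP_fin hR))).trans ?_
  rw [Set.ncard_prod, sq]
  exact Nat.mul_le_mul (PP_le hR) (PP_le hR)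

theorem loc_eq (hac : a ≠ c) (hbc : b ≠ c) :
    loc R {a, b, c} κ {a, b} = {ρ | ρ ∈ R ∧ κ.x c ρ = 0} := by
  ext ρ
  refine and_congr_right fun _ => ⟨fun h => h c (by simp) (by simp [hac.symm, hbc.symm]), ?_⟩
  intro h i hi hn
  have : i = c := by
    simp only [Finset.mem_insert, Finset.mem_singleton, not_or] at hi hn
    tauto
  rw [this, h]

theorem step1 (hR : Sys R) (h : IsCh R {a, b, c} κ) (hc : Conn R {a, b, c} κ {a, b, c})
    (hac : a ≠ c) (hbc : b ≠ c) {κJ : Fam ι V}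
    (hJ : IsCh (loc R {a, b, c} κ {a, b}) {a, b} κJ) :
    Submodule.span ℝ {κJ.B a} ∈ DD R κ c ∨ Submodule.span ℝ {κJ.B b} ∈ DD R κ c := by
  have hsub : ({a, b} : Finset ι) ⊆ {a, b, c} := by
    intro i hi
    simp only [Finset.mem_insert, Finset.mem_singleton] at hi ⊢
    tauto
  have hcS : c ∈ ({a, b, c} : Finset ι) := by simp
  have hcJ : c ∉ ({a, b} : Finset ι) := by simp [hac.symm, hbc.symm]
  obtain ⟨κ', h', hB, hx⟩ := lift_keep hR h hsub hJ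
  have hc' := conn_indep hR h h' hc
  obtain ⟨i, hi, j, hj, hjc, hadj⟩ := hc' {c} (by simp) (by simp) (by
    intro he
    have : a ∈ ({c} : Finset ι) := by rw [he]; simp
    exact hac (by simpa using this))
  obtain rfl : i = c := by simpa using hi
  have hji : j ≠ i := by simpa using hjc
  obtain ⟨d, hd, hm⟩ := h'.add_of_adj hR hcS hj hadj
  have h1 : κ.x i (κ'.B i) = 1 := by
    rw [← hx i hcS hcJ, h'.dual i hcS i hcS, if_pos rfl]
  have h0 : κ.x i (κ'.B j) = 0 := by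
    rw [← hx i hcS hcJ, h'.dual i hcS j hj, if_neg hji.symm]
  have hD : Submodule.span ℝ {κ'.B j} ∈ DD R κ i := by
    refine ⟨(κ'.B i + d • κ'.B j, κ'.B i), ⟨⟨hm, ?_⟩, h'.mem i hcS, h1⟩, ?_⟩
    · rw [map_add, map_smul, h1, h0]; simp
    · show Submodule.span ℝ {κ'.B i + d • κ'.B j - κ'.B i} = _
      rw [add_sub_cancel_left, Submodule.span_singleton_smul_eq (IsUnit.mk0 d hd.ne')]
  have hj' : j = a ∨ j = b := by
    simp only [Finset.mem_insert, Finset.mem_singleton] at hj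
    tauto
  rcases hj' with rfl | rfl
  · left; rw [← hB j (by simp)]; exact hD
  · right; rw [← hB j (by simp)]; exact hD

theorem repr2 {L : Set V} (hab : a ≠ b) (h : IsCh L {a, b} κ) {ρ : V} (hρ : ρ ∈ L) :
    ρ = κ.x a ρ • κ.B a + κ.x b ρ • κ.B b := by
  have := h.repr ρ hρ
  rwa [Finset.sum_pair hab] at this

/-- The second wall of the chamber next to a root of a system of rank two. -/
theorem step2 {L : Set V} (hL : Sys L) (hab : a ≠ b) (h : IsCh L {a, b} κ) {ρ : V} (hρ : ρ ∈ L) :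
    ∃ (κJ : Fam ι V) (μ : ℝ), IsCh L {a, b} κJ ∧ 0 < μ ∧ κJ.B a = μ • ρ ∧
      0 < ww κ a b ρ (κJ.B b) := by
  set f : V →ₗ[ℝ] ℝ := κ.x a ρ • κ.x b - κ.x b ρ • κ.x a with hf
  set ψ : V →ₗ[ℝ] ℝ := κ.x a ρ • κ.x a + κ.x b ρ • κ.x b with hψ
  have f_eq : ∀ v, f v = κ.x a ρ * κ.x b v - κ.x b ρ * κ.x a v := fun v => by simp [hf]
  have ψ_eq : ∀ v, ψ v = κ.x a ρ * κ.x a v + κ.x b ρ * κ.x b v := fun v => by simp [hψ]
  have hN : 0 < κ.x a ρ ^ 2 + κ.x b ρ ^ 2 := by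
    by_contra hn
    have h1 : κ.x a ρ = 0 := by nlinarith [sq_nonneg (κ.x a ρ), sq_nonneg (κ.x b ρ)]
    have h2 : κ.x b ρ = 0 := by nlinarith [sq_nonneg (κ.x a ρ), sq_nonneg (κ.x b ρ)]
    refine hL.ne ρ hρ ?_
    rw [repr2 hab h hρ, h1, h2]; simp
  have mul : ∀ σ ∈ L, f σ = 0 → σ = (ψ σ / (κ.x a ρ ^ 2 + κ.x b ρ ^ 2)) • ρ := by
    intro σ hσ h0
    rw [f_eq] at h0
    have e1 : κ.x a σ = ψ σ / (κ.x a ρ ^ 2 + κ.x b ρ ^ 2) * κ.x a ρ := by
      rw [ψ_eq]; field_simp; linear_combination (-κ.x b ρ) * h0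
    have e2 : κ.x b σ = ψ σ / (κ.x a ρ ^ 2 + κ.x b ρ ^ 2) * κ.x b ρ := by
      rw [ψ_eq]; field_simp; linear_combination (κ.x a ρ) * h0
    generalize ψ σ / (κ.x a ρ ^ 2 + κ.x b ρ ^ 2) = m at e1 e2
    calc σ = κ.x a σ • κ.B a + κ.x b σ • κ.B b := repr2 hab h hσ
      _ = m • (κ.x a ρ • κ.B a + κ.x b ρ • κ.B b) := by
        rw [e1, e2, smul_add, smul_smul, smul_smul]
      _ = m • ρ := by rw [← repr2 hab h hρ]
  obtain ⟨T, κT, hT, hw⟩ := hL.near f ψ (fun σ hσ h0 h1 => hL.ne σ hσ (by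
    rw [mul σ hσ h0, h1]; simp))
  have hcard : T.card = 2 := by rw [h.card_eq hT, Finset.card_pair hab]
  have fρ : f ρ = 0 := by rw [f_eq]; ring
  have hnn : ∀ t ∈ T, 0 ≤ f (κT.B t) := fun t ht => by
    rcases hw t ht with h1 | h1
    · exact h1.le
    · exact h1.1.ge
  obtain ⟨t1, ht1, h1⟩ : ∃ t1 ∈ T, ¬ 0 < f (κT.B t1) := by
    by_contra hn
    push Not at hn
    refine hL.ne ρ hρ ?_
    rw [hT.repr ρ hρ]
    exact Finset.sum_eq_zero fun t ht => by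
      rw [hT.x_zero_of_ker hnn hρ fρ ht (hn t ht), zero_smul]
  obtain ⟨t2, h12, hT2⟩ : ∃ t2, t1 ≠ t2 ∧ T = {t1, t2} := by
    obtain ⟨x, y, hxy, rfl⟩ := Finset.card_eq_two.1 hcard
    simp only [Finset.mem_insert, Finset.mem_singleton] at ht1
    rcases ht1 with rfl | rfl
    · exact ⟨y, hxy, rfl⟩
    · exact ⟨x, hxy.symm, Finset.pair_comm _ _⟩
  have ht2 : t2 ∈ T := by rw [hT2]; simp
  obtain ⟨z1, p1⟩ := (hw t1 ht1).resolve_left h1
  have m1 := mul _ (hT.mem t1 ht1) z1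
  have p2 : 0 < f (κT.B t2) := by
    refine (hw t2 ht2).resolve_right fun hh => ?_
    have m2 := mul _ (hT.mem t2 ht2) hh.1
    have d1 := hT.dual t1 ht1 t1 ht1
    have d2 := hT.dual t1 ht1 t2 ht2
    rw [if_pos rfl, m1, map_smul, smul_eq_mul] at d1
    rw [if_neg h12, m2, map_smul, smul_eq_mul] at d2
    rcases mul_eq_zero.1 d2 with h3 | h3
    · exact (div_pos hh.2 hN).ne' h3
    · rw [h3, mul_zero] at d1
      exact zero_ne_one d1
  let e : ι → V := fun i => if i = a then t1 else t2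
  have ea : e a = t1 := if_pos rfl
  have eb : e b = t2 := if_neg hab.symm
  have he : Set.BijOn e (({a, b} : Finset ι) : Set ι) (T : Set V) := by
    rw [hT2, Finset.coe_pair, Finset.coe_pair]
    refine ⟨?_, ?_, ?_⟩
    · rintro i (rfl | rfl)
      · rw [ea]; simp
      · rw [eb]; simp
    · rintro i (rfl | rfl) j (rfl | rfl) hij
      · rfl
      · rw [ea, eb] at hij; exact absurd hij h12
      · rw [ea, eb] at hij; exact absurd hij.symm h12
      · rfl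
    · rintro t (rfl | rfl)
      · exact ⟨a, by simp, ea⟩
      · exact ⟨b, by simp, eb⟩
  refine ⟨⟨fun i => κT.B (e i), fun i => κT.x (e i)⟩, _,
    Good.reidx hT e he (fun _ _ => rfl) (fun _ _ => rfl), div_pos p1 hN, ?_, ?_⟩
  · show κT.B (e a) = _
    rw [ea]; exact m1
  · show 0 < ww κ a b ρ (κT.B (e b))
    rw [eb]; rw [f_eq] at p2; exact p2

theorem step3 {L : Set V} (hL : Sys L) (hab : a ≠ b) (h : IsCh L {a, b} κ)
    {D : Set (Submodule ℝ V)}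
    (hD : ∀ κJ : Fam ι V, IsCh L {a, b} κJ →
      Submodule.span ℝ {κJ.B a} ∈ D ∨ Submodule.span ℝ {κJ.B b} ∈ D)
    {ρ : V} (hρ : ρ ∈ L) (hn : Submodule.span ℝ {ρ} ∉ D) :
    ∃ t, Submodule.span ℝ {t} ∈ D ∧ 0 < ww κ a b ρ t ∧
      ∀ σ ∈ L, ∃ u s : ℝ, 0 ≤ u * s ∧ σ = u • ρ + s • t := by
  obtain ⟨κJ, μ, hJ, hμ, hB, hw⟩ := step2 hL hab h hρ
  refine ⟨κJ.B b, (hD κJ hJ).resolve_left ?_, hw, fun σ hσ => ?_⟩
  · rwa [hB, Submodule.span_singleton_smul_eq (IsUnit.mk0 μ hμ.ne')]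
  · refine ⟨κJ.x a σ * μ, κJ.x b σ, ?_, ?_⟩
    · have : 0 ≤ κJ.x a σ * κJ.x b σ := by
        rcases hJ.sign σ hσ with h1 | h1
        · exact mul_nonneg (h1 a (by simp)) (h1 b (by simp))
        · exact mul_nonneg_of_nonpos_of_nonpos (h1 a (by simp)) (h1 b (by simp))
      nlinarith [mul_nonneg this hμ.le]
    · rw [← smul_smul, ← hB]
      exact repr2 hab hJ hσ

theorem step4 {ρ₁ ρ₂ t₁ t₂ : V} (w1 : 0 < ww κ a b ρ₁ t₁) (w2 : 0 < ww κ a b ρ₂ t₂)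
    (he : Submodule.span ℝ {t₁} = Submodule.span ℝ {t₂}) {u s u' s' : ℝ} (h1 : 0 ≤ u * s)
    (e1 : ρ₂ = u • ρ₁ + s • t₁) (h2 : 0 ≤ u' * s') (e2 : ρ₁ = u' • ρ₂ + s' • t₂) :
    Submodule.span ℝ {ρ₁} = Submodule.span ℝ {ρ₂} := by
  obtain ⟨μ, hμ⟩ := Submodule.mem_span_singleton.1
    (show t₂ ∈ Submodule.span ℝ {t₁} by rw [he]; exact Submodule.mem_span_singleton_self t₂)
  have a1 := congrArg (κ.x a) e1
  have b1 := congrArg (κ.x b) e1
  have a2 := congrArg (κ.x a) e2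
  have b2 := congrArg (κ.x b) e2
  have a3 := congrArg (κ.x a) hμ
  have b3 := congrArg (κ.x b) hμ
  simp only [map_add, map_smul, smul_eq_mul] at a1 b1 a2 b2 a3 b3
  unfold ww at w1 w2
  rw [← a3, a1] at a2
  rw [← b3, b1] at b2
  rw [← a3, ← b3, a1, b1] at w2
  set W := κ.x a ρ₁ * κ.x b t₁ - κ.x b ρ₁ * κ.x a t₁ with hW
  have k1 : 0 < u * μ * W := by
    convert w2 using 1
    rw [hW]; ring
  have k1' : 0 < u * μ := (pos_iff_pos_of_mul_pos k1).2 w1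
  have k2 : (u * u' - 1) * W = 0 := by
    rw [hW]; linear_combination (-κ.x b t₁) * a2 + κ.x a t₁ * b2
  have k3 : (u' * s + s' * μ) * W = 0 := by
    rw [hW]; linear_combination κ.x b ρ₁ * a2 - κ.x a ρ₁ * b2
  have k2' : u * u' = 1 := by
    have := (mul_eq_zero.1 k2).resolve_right w1.ne'
    linarith
  have k3' : u' * s + s' * μ = 0 := (mul_eq_zero.1 k3).resolve_right w1.ne'
  have hu : u ≠ 0 := by
    rintro rfl
    simp at k2'
  have k4 : 0 ≤ u * s' := by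
    have : u * s' = u ^ 2 * (u' * s') := by linear_combination (-u * s') * k2'
    rw [this]; positivity
  have k5 : u * s + u * s' * (u * μ) = 0 := by
    linear_combination u ^ 2 * k3' - u * s * k2'
  have k6 : u * s = 0 := by nlinarith [mul_nonneg k4 k1'.le]
  have hs : s = 0 := (mul_eq_zero.1 k6).resolve_left hu
  rw [e1, hs, zero_smul, add_zero, Submodule.span_singleton_smul_eq (IsUnit.mk0 u hu)]

theorem step5 {L : Set V} (hL : Sys L) (hab : a ≠ b) (h : IsCh L {a, b} κ)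
    {D : Set (Submodule ℝ V)} (hfin : D.Finite)
    (hD : ∀ κJ : Fam ι V, IsCh L {a, b} κJ →
      Submodule.span ℝ {κJ.B a} ∈ D ∨ Submodule.span ℝ {κJ.B b} ∈ D) :
    nl L ≤ D.ncard + D.ncard := by
  have key : ∀ l : Submodule ℝ V, ∃ ρ t : V,
      l ∈ ((fun ρ => Submodule.span ℝ {ρ}) '' L) \ D →
      ρ ∈ L ∧ Submodule.span ℝ {ρ} = l ∧ Submodule.span ℝ {t} ∈ D ∧ 0 < ww κ a b ρ t ∧
        ∀ σ ∈ L, ∃ u s : ℝ, 0 ≤ u * s ∧ σ = u • ρ + s • t := by
    intro l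
    by_cases hl : l ∈ ((fun ρ => Submodule.span ℝ {ρ}) '' L) \ D
    · obtain ⟨⟨ρ, hρ, rfl⟩, hn⟩ := hl
      obtain ⟨t, ht⟩ := step3 hL hab h hD hρ hn
      exact ⟨ρ, t, fun _ => ⟨hρ, rfl, ht⟩⟩
    · exact ⟨0, 0, fun h => absurd h hl⟩
  choose ρ t hρt using key
  have h1 : (((fun ρ => Submodule.span ℝ {ρ}) '' L) \ D).ncard ≤ D.ncard := by
    refine Set.ncard_le_ncard_of_injOn (fun l => Submodule.span ℝ {t l})
      (fun l hl => (hρt l hl).2.2.1) (fun l hl l' hl' he => ?_) hfin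
    obtain ⟨m1, e1, -, w1, r1⟩ := hρt l hl
    obtain ⟨m2, e2, -, w2, r2⟩ := hρt l' hl'
    obtain ⟨u, s, h1, q1⟩ := r1 _ m2
    obtain ⟨u', s', h2, q2⟩ := r2 _ m1
    rw [← e1, ← e2]
    exact step4 w1 w2 he h1 q1 h2 q2
  have h2 : ((fun ρ => Submodule.span ℝ {ρ}) '' L) ⊆
      (((fun ρ => Submodule.span ℝ {ρ}) '' L) \ D) ∪ D := by
    intro l hl
    by_cases hd : l ∈ D
    · exact Or.inr hd
    · exact Or.inl ⟨hl, hd⟩
  have h3 : FinL L := hL.finL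
  calc nl L ≤ ((((fun ρ => Submodule.span ℝ {ρ}) '' L) \ D) ∪ D).ncard :=
        Set.ncard_le_ncard h2 ((Set.Finite.sdiff h3).union hfin)
    _ ≤ _ := Set.ncard_union_le _ _
    _ ≤ _ := Nat.add_le_add_right h1 _

end RK

theorem t_K : S_K := by
  intro V _ _ ι R κ a b c hR h hc hab hac hbc
  have hsub : ({a, b} : Finset ι) ⊆ {a, b, c} := by
    intro i hi
    simp only [Finset.mem_insert, Finset.mem_singleton] at hi ⊢
    tauto
  have h1 := RK.step5 (hR.loc h {a, b}) hab (h.loc hsub) (RK.DD_fin (κ := κ) (c := c) hR)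
    fun κJ hJ => RK.step1 hR h hc hac hbc hJ
  rw [RK.loc_eq hac hbc] at h1
  have h2 := RK.DD_le (κ := κ) (c := c) hR
  omega

end Pool.Agent.SimpArr
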