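import Pool.Agent.P.MP_0b4c38_co.RIface

/-! Type `A` is a reflection arrangement. -/

set_option autoImplicit false

open Classical

namespace Pool.Agent.SimpArr

namespace RREA

variable {r : ℕ}

/-- The vertices of a regular simplex centred at the origin. -/
def Simp (u : Fin (r + 1) → (Fin r → ℝ)) : Prop :=
  (∀ i j, u i ⬝ᵥ u j = (if i = j then 1 else 0) - 1 / ((r : ℝ) + 1)) ∧
    ∀ v : Fin r → ℝ, (∀ k, u k ⬝ᵥ v = 0) → v = 0

theorem exists_simp (hr : 1 ≤ r) : ∃ u : Fin (r + 1) → (Fin r → ℝ), Simp u := by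
  have hr0 : (0 : ℝ) < r := by exact_mod_cast hr
  have hr1 : (0 : ℝ) < (r : ℝ) + 1 := by linarith
  obtain ⟨β, hβ⟩ : ∃ β : ℝ, β * β = 1 / ((r : ℝ) + 1) :=
    ⟨Real.sqrt (1 / ((r : ℝ) + 1)), Real.mul_self_sqrt (by positivity)⟩
  have hβ' : ((r : ℝ) + 1) * (β * β) = 1 := by
    rw [hβ]; field_simp
  have hβ0 : β ≠ 0 := by
    rintro rfl
    simp at hβ'
  obtain ⟨α, hα⟩ : ∃ α : ℝ, (r : ℝ) * α = -1 - β := ⟨(-1 - β) / r, by field_simp⟩
  have hα2 : 2 * α + r * (α * α) = -(β * β) := by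
    apply mul_left_cancel₀ hr0.ne'
    have h1 : (r : ℝ) * (2 * α + r * (α * α)) = 2 * (r * α) + (r * α) * (r * α) := by ring
    rw [h1, hα]
    linear_combination hβ'
  have h0 : ∀ v : Fin r → ℝ, ∀ c : ℝ, (fun _ : Fin r => c) ⬝ᵥ v = c * ∑ l, v l := by
    intro v c
    simp [dotProduct, Finset.mul_sum]
  have h1 : ∀ (i : Fin r) (v : Fin r → ℝ),
      ((Pi.single i 1 : Fin r → ℝ) + fun _ : Fin r => α) ⬝ᵥ v = v i + α * ∑ l, v l := by
    intro i v
    rw [add_dotProduct, single_one_dotProduct, h0]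
  have h2 : ∀ c : ℝ, ∑ _l : Fin r, c = r * c := by
    intro c
    simp
  have h3 : ∀ i : Fin r, ∑ l, ((Pi.single i 1 : Fin r → ℝ) + fun _ : Fin r => α) l = -β := by
    intro i
    simp only [Pi.add_apply, Finset.sum_add_distrib, Finset.sum_pi_single', Finset.mem_univ,
      if_true, h2]
    linarith
  refine ⟨Fin.cases (fun _ => β) fun i => Pi.single i 1 + fun _ => α, ?_, ?_⟩
  · intro i j
    refine Fin.cases ?_ (fun i => ?_) i <;> refine Fin.cases ?_ (fun j => ?_) j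
    · simp only [Fin.cases_zero, if_true]
      rw [h0, h2, ← hβ]
      linear_combination hβ'
    · simp only [Fin.cases_zero, Fin.cases_succ]
      rw [h0, h3, if_neg (Fin.succ_ne_zero j).symm, ← hβ]
      ring
    · simp only [Fin.cases_zero, Fin.cases_succ]
      rw [dotProduct_comm, h0, h3, if_neg (Fin.succ_ne_zero i), ← hβ]
      ring
    · simp only [Fin.cases_succ]
      rw [h1, h3, ← hβ, Pi.add_apply, Pi.single_apply]
      have h4 : α * -β = α + r * (α * α) := by linear_combination (-α) * hα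
      by_cases hij : i = j
      · rw [if_pos hij, if_pos (by rw [hij])]
        linarith
      · rw [if_neg hij, if_neg (fun h => hij (Fin.succ_injective _ h))]
        linarith
  · intro v hv
    have h4 := hv 0
    simp only [Fin.cases_zero] at h4
    rw [h0] at h4
    have h5 : ∑ l, v l = 0 := (mul_eq_zero.1 h4).resolve_left hβ0
    funext i
    have h6 := hv i.succ
    simp only [Fin.cases_succ] at h6
    rw [h1, h5] at h6
    simpa using h6

theorem exists_refl (a : Fin r → ℝ) (ha : a ≠ 0) :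
    ∃ g : (Fin r → ℝ) ≃ₗ[ℝ] (Fin r → ℝ), ∀ v, g v = v - (2 * (a ⬝ᵥ v) / (a ⬝ᵥ a)) • a := by
  have h0 : a ⬝ᵥ a ≠ 0 := fun h => ha (dotProduct_self_eq_zero.1 h)
  let f : Module.Dual ℝ (Fin r → ℝ) :=
    { toFun := fun v => 2 * (a ⬝ᵥ v) / (a ⬝ᵥ a)
      map_add' := fun v w => by rw [dotProduct_add]; ring
      map_smul' := fun c v => by rw [dotProduct_smul]; simp only [smul_eq_mul, RingHom.id_apply]; ring }
  have hf : f a = 2 := by
    show 2 * (a ⬝ᵥ a) / (a ⬝ᵥ a) = 2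
    field_simp
  exact ⟨Module.reflection hf, fun v => by rw [Module.reflection_apply]; rfl⟩

/-- The map permutes the vertices. -/
def Inv (u : Fin (r + 1) → (Fin r → ℝ)) (g : (Fin r → ℝ) ≃ₗ[ℝ] (Fin r → ℝ)) : Prop :=
  ∃ σ : Equiv.Perm (Fin (r + 1)), ∀ v k, u k ⬝ᵥ g v = u (σ k) ⬝ᵥ v

/-- The generating reflections. -/
def Gen (u : Fin (r + 1) → (Fin r → ℝ)) : Set ((Fin r → ℝ) ≃ₗ[ℝ] (Fin r → ℝ)) :=
  {g | ∃ i j, i ≠ j ∧ ∀ v, g v = v - (2 * ((u i - u j) ⬝ᵥ v) / ((u i - u j) ⬝ᵥ (u i - u j))) •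
    (u i - u j)}

variable {u : Fin (r + 1) → (Fin r → ℝ)}

theorem Simp.dot_sub (hu : Simp u) (i j k : Fin (r + 1)) :
    u k ⬝ᵥ (u i - u j) = (if k = i then 1 else 0) - (if k = j then 1 else 0) := by
  rw [dotProduct_sub, hu.1, hu.1]
  ring

theorem Simp.self (hu : Simp u) {i j : Fin (r + 1)} (hij : i ≠ j) :
    (u i - u j) ⬝ᵥ (u i - u j) = 2 := by
  rw [sub_dotProduct, hu.dot_sub, hu.dot_sub]
  simp [hij, hij.symm]
  norm_num

theorem Simp.ne (hu : Simp u) {i j : Fin (r + 1)} (hij : i ≠ j) : u i - u j ≠ 0 := by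
  intro h
  have h1 := hu.self hij
  rw [h] at h1
  simp at h1

theorem Simp.swap (hu : Simp u) {i j : Fin (r + 1)} (hij : i ≠ j)
    {g : (Fin r → ℝ) ≃ₗ[ℝ] (Fin r → ℝ)}
    (hg : ∀ v, g v = v - (2 * ((u i - u j) ⬝ᵥ v) / ((u i - u j) ⬝ᵥ (u i - u j))) • (u i - u j))
    (v : Fin r → ℝ) (k : Fin (r + 1)) : u k ⬝ᵥ g v = u (Equiv.swap i j k) ⬝ᵥ v := by
  rw [hg, hu.self hij, dotProduct_sub (u k) v, dotProduct_smul, hu.dot_sub, sub_dotProduct,
    smul_eq_mul]
  by_cases h1 : k = i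
  · subst h1
    simp [hij]
  · by_cases h2 : k = j
    · subst h2
      simp [h1]
    · simp [h1, h2, Equiv.swap_apply_of_ne_of_ne h1 h2]

theorem inv_of_mem (hu : Simp u) {g : (Fin r → ℝ) ≃ₗ[ℝ] (Fin r → ℝ)}
    (h : g ∈ Subgroup.closure (Gen u)) : Inv u g := by
  induction h using Subgroup.closure_induction with
  | mem x hx =>
    obtain ⟨i, j, hij, hg⟩ := hx
    exact ⟨Equiv.swap i j, hu.swap hij hg⟩
  | one => exact ⟨1, fun v k => rfl⟩
  | mul x y _ _ hx hy =>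
    obtain ⟨σ, h1⟩ := hx
    obtain ⟨τ, h2⟩ := hy
    exact ⟨τ * σ, fun v k => by rw [LinearEquiv.mul_apply, h1, h2, Equiv.Perm.mul_apply]⟩
  | inv x _ hx =>
    obtain ⟨σ, h1⟩ := hx
    refine ⟨σ⁻¹, fun v k => ?_⟩
    have h2 := h1 (x⁻¹ v) (σ⁻¹ k)
    have h3 : x (x⁻¹ v) = v := by
      rw [← LinearEquiv.mul_apply, mul_inv_cancel]; rfl
    have h4 : σ (σ⁻¹ k) = k := by simp
    rw [h3, h4] at h2
    exact h2.symm

theorem finite_inv (hu : Simp u) : {g : (Fin r → ℝ) ≃ₗ[ℝ] (Fin r → ℝ) | Inv u g}.Finite := by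
  have h1 : ∀ σ : Equiv.Perm (Fin (r + 1)),
      {g : (Fin r → ℝ) ≃ₗ[ℝ] (Fin r → ℝ) | ∀ v k, u k ⬝ᵥ g v = u (σ k) ⬝ᵥ v}.Finite := by
    intro σ
    refine Set.Subsingleton.finite fun g hg h hh => ?_
    refine LinearEquiv.ext fun v => sub_eq_zero.1 (hu.2 _ fun k => ?_)
    rw [dotProduct_sub, hg v k, hh v k, sub_self]
  refine (Set.finite_iUnion h1).subset ?_
  rintro g ⟨σ, hσ⟩
  exact Set.mem_iUnion.2 ⟨σ, hσ⟩

theorem mirror (hu : Simp u) {g : (Fin r → ℝ) ≃ₗ[ℝ] (Fin r → ℝ)} {H : Submodule ℝ (Fin r → ℝ)}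
    (hg : Inv u g) (hH : IsRefl g H) :
    ∃ i j, i ≠ j ∧ ∀ v, v ∈ H ↔ u i ⬝ᵥ v = u j ⬝ᵥ v := by
  obtain ⟨σ, h1⟩ := hg
  obtain ⟨a, ha, hr, hm⟩ := hH
  have h0 : a ⬝ᵥ a ≠ 0 := fun h => ha (dotProduct_self_eq_zero.1 h)
  obtain ⟨k, hk⟩ : ∃ k, u k ⬝ᵥ a ≠ 0 := by
    by_contra hc
    exact ha (hu.2 a fun k => by simpa using not_exists.1 hc k)
  have key : ∀ v : Fin r → ℝ, v ∈ H ↔ u k ⬝ᵥ v = u (σ k) ⬝ᵥ v := by
    intro v
    have h4 := h1 v k
    rw [hr, dotProduct_sub, dotProduct_smul, smul_eq_mul] at h4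
    rw [hm, ← h4]
    constructor
    · intro h
      rw [h]; simp
    · intro h
      have h5 : 2 * (a ⬝ᵥ v) / (a ⬝ᵥ a) * (u k ⬝ᵥ a) = 0 := by linarith
      rcases mul_eq_zero.1 h5 with h6 | h6
      · rcases div_eq_zero_iff.1 h6 with h7 | h7
        · linarith
        · exact absurd h7 h0
      · exact absurd h6 hk
  refine ⟨k, σ k, fun h => h0 ?_, key⟩
  rw [← hm, key, ← h]

theorem Simp.sum_dot (hu : Simp u) (v : Fin r → ℝ) : ∑ i, u i ⬝ᵥ v = 0 := by
  have h1 : ∑ i, u i = 0 := by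
    refine hu.2 _ fun k => ?_
    rw [dotProduct_sum]
    simp only [hu.1, Finset.sum_sub_distrib, Finset.sum_ite_eq, Finset.mem_univ, if_true,
      Finset.sum_const, Finset.card_univ, Fintype.card_fin, nsmul_eq_mul]
    push_cast
    have : (r : ℝ) + 1 ≠ 0 := by positivity
    field_simp
    ring
  rw [← sum_dotProduct, h1, zero_dotProduct]

theorem refl_arr (hu : Simp u) (B : Finset (Submodule ℝ (Fin r → ℝ)))
    (hB : ∀ H : Submodule ℝ (Fin r → ℝ), H ∈ B ↔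
      ∃ i j, i ≠ j ∧ ∀ v, v ∈ H ↔ u i ⬝ᵥ v = u j ⬝ᵥ v) : IsReflArr B := by
  refine ⟨Subgroup.closure (Gen u), ?_, ?_, ?_, ?_⟩
  · exact ((finite_inv hu).subset fun g hg => inv_of_mem hu hg).to_subtype
  · refine le_antisymm (Subgroup.closure_mono ?_) ?_
    · rintro g ⟨i, j, hij, hg⟩
      refine ⟨Subgroup.subset_closure ⟨i, j, hij, hg⟩, ?_⟩
      let H : Submodule ℝ (Fin r → ℝ) :=
        { carrier := {v | (u i - u j) ⬝ᵥ v = 0}
          add_mem' := fun {v w} hv hw => by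
            have hv' : (u i - u j) ⬝ᵥ v = 0 := hv
            have hw' : (u i - u j) ⬝ᵥ w = 0 := hw
            show (u i - u j) ⬝ᵥ (v + w) = 0
            rw [dotProduct_add, hv', hw', add_zero]
          zero_mem' := by simp
          smul_mem' := fun c v hv => by
            have hv' : (u i - u j) ⬝ᵥ v = 0 := hv
            show (u i - u j) ⬝ᵥ (c • v) = 0
            rw [dotProduct_smul, hv', smul_zero] }
      exact ⟨H, u i - u j, hu.ne hij, hg, fun v => Iff.rfl⟩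
    · exact (Subgroup.closure_le _).2 fun g hg => hg.1
  · intro v hv
    have h1 : ∀ i j, u i ⬝ᵥ v = u j ⬝ᵥ v := by
      intro i j
      by_cases hij : i = j
      · rw [hij]
      · obtain ⟨g, hg⟩ := exists_refl _ (hu.ne hij)
        have h2 := hu.swap hij hg v i
        rw [hv g (Subgroup.subset_closure ⟨i, j, hij, hg⟩), Equiv.swap_apply_left] at h2
        exact h2
    refine hu.2 v fun k => ?_
    have h2 := hu.sum_dot v
    rw [Finset.sum_congr rfl fun i _ => h1 i k] at h2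
    simp only [Finset.sum_const, Finset.card_univ, Fintype.card_fin, nsmul_eq_mul] at h2
    refine (mul_eq_zero.1 h2).resolve_left ?_
    positivity
  · intro H
    rw [hB]
    constructor
    · rintro ⟨i, j, hij, h⟩
      obtain ⟨g, hg⟩ := exists_refl _ (hu.ne hij)
      refine ⟨g, Subgroup.subset_closure ⟨i, j, hij, hg⟩, u i - u j, hu.ne hij, hg, fun v => ?_⟩
      rw [h, sub_dotProduct, sub_eq_zero]
    · rintro ⟨g, hg, hH⟩
      exact mirror hu (inv_of_mem hu hg) hH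

theorem transfer (g : (Fin r → ℝ) ≃ₗ[ℝ] (Fin r → ℝ)) (K : Submodule ℝ (Fin r → ℝ))
    (p : (Fin r → ℝ) → Prop) :
    (∀ v, v ∈ K.comap (g : (Fin r → ℝ) →ₗ[ℝ] (Fin r → ℝ)) ↔ p (g v)) ↔ ∀ v, v ∈ K ↔ p v := by
  constructor
  · intro h v
    have := h (g.symm v)
    simpa using this
  · intro h v
    rw [Submodule.mem_comap]
    exact h _

theorem exists_equiv (hu : Simp u) (g : (Fin r → ℝ) →ₗ[ℝ] (Fin (r + 1) → ℝ))
    (hg : Function.Injective g) (hs : ∀ v, ∑ i, g v i = 0) :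
    ∃ h : (Fin r → ℝ) ≃ₗ[ℝ] (Fin r → ℝ), ∀ v j, u j ⬝ᵥ h v = g v j := by
  let f : (Fin r → ℝ) →ₗ[ℝ] (Fin r → ℝ) :=
    { toFun := fun v => ∑ i, g v i • u i
      map_add' := fun v w => by
        simp only [map_add, Pi.add_apply, add_smul, Finset.sum_add_distrib]
      map_smul' := fun c v => by
        simp only [map_smul, Pi.smul_apply, smul_eq_mul, RingHom.id_apply, Finset.smul_sum,
          mul_smul] }
  have hf : ∀ v j, u j ⬝ᵥ f v = g v j := by
    intro v j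
    show u j ⬝ᵥ (∑ i, g v i • u i) = g v j
    rw [dotProduct_sum]
    simp only [dotProduct_smul, hu.1, smul_eq_mul, mul_sub, Finset.sum_sub_distrib, mul_ite,
      mul_one, mul_zero, Finset.sum_ite_eq, Finset.mem_univ, if_true]
    rw [← Finset.sum_mul, hs, zero_mul, sub_zero]
  have hi : Function.Injective f := by
    intro v w h
    refine hg (funext fun j => ?_)
    rw [← hf, ← hf, h]
  exact ⟨LinearEquiv.ofInjectiveEndo f hi, hf⟩

end RREA

theorem t_REA (hL : S_Lin) : S_REA := by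
  intro r A hr hA
  obtain ⟨g, hg, hs, hA⟩ := hA
  obtain ⟨u, hu⟩ := RREA.exists_simp hr
  obtain ⟨h, hh⟩ := RREA.exists_equiv hu g hg hs
  let B : Finset (Submodule ℝ (Fin r → ℝ)) :=
    A.image fun H => H.map (h : (Fin r → ℝ) →ₗ[ℝ] (Fin r → ℝ))
  have hB : ∀ K : Submodule ℝ (Fin r → ℝ),
      K ∈ B ↔ K.comap (h : (Fin r → ℝ) →ₗ[ℝ] (Fin r → ℝ)) ∈ A := by
    intro K
    constructor
    · intro hK
      obtain ⟨H, hH, rfl⟩ := Finset.mem_image.1 hK
      rwa [Submodule.comap_map_eq_of_injective h.injective]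
    · intro hK
      exact Finset.mem_image.2 ⟨_, hK, Submodule.map_comap_eq_of_surjective h.surjective K⟩
  refine ⟨B, RREA.refl_arr hu B fun K => ?_, hL r A B h fun H => ?_⟩
  · rw [hB, hA]
    refine exists_congr fun i => exists_congr fun j => and_congr Iff.rfl ?_
    rw [← RREA.transfer h K fun v => u i ⬝ᵥ v = u j ⬝ᵥ v]
    simp only [hh]
  · rw [hB, Submodule.comap_map_eq_of_injective h.injective]

end Pool.Agent.SimpArr
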