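import Pool.Agent.P.MP_0b4c38_co.RIface

/-! Types `D` and `B` are reflection arrangements. -/

set_option autoImplicit false

open Classical

namespace Pool.Agent.SimpArr

namespace RRED

variable {r : ℕ}

/-- Signed permutations, with an even number of signs unless `P` holds. -/
def Inv (P : Prop) (g : (Fin r → ℝ) ≃ₗ[ℝ] (Fin r → ℝ)) : Prop :=
  ∃ σ : Equiv.Perm (Fin r), ∃ ε : Fin r → ℝ, (∀ i, ε i = 1 ∨ ε i = -1) ∧ (P ∨ ∏ i, ε i = 1) ∧
    ∀ v i, g v i = ε i * v (σ i)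

/-- The roots. -/
def Root (P : Prop) (a : Fin r → ℝ) : Prop :=
  (∃ i j : Fin r, ∃ t : ℝ, i ≠ j ∧ (t = 1 ∨ t = -1) ∧
    a = Pi.single i 1 - t • (Pi.single j 1 : Fin r → ℝ)) ∨
  (P ∧ ∃ i : Fin r, a = Pi.single i 1)

/-- The generating reflections. -/
def Gen (P : Prop) : Set ((Fin r → ℝ) ≃ₗ[ℝ] (Fin r → ℝ)) :=
  {g | ∃ a, Root P a ∧ ∀ v, g v = v - (2 * (a ⬝ᵥ v) / (a ⬝ᵥ a)) • a}

theorem exists_refl (a : Fin r → ℝ) (ha : a ≠ 0) :
    ∃ g : (Fin r → ℝ) ≃ₗ[ℝ] (Fin r → ℝ), ∀ v, g v = v - (2 * (a ⬝ᵥ v) / (a ⬝ᵥ a)) • a := by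
  have h0 : a ⬝ᵥ a ≠ 0 := fun h => ha (dotProduct_self_eq_zero.1 h)
  let f : Module.Dual ℝ (Fin r → ℝ) :=
    { toFun := fun v => 2 * (a ⬝ᵥ v) / (a ⬝ᵥ a)
      map_add' := fun v w => by rw [dotProduct_add]; ring
      map_smul' := fun c v => by rw [dotProduct_smul]; simp only [smul_eq_mul, RingHom.id_apply]; ring }
  have hf : f a = 2 := by
    show 2 * (a ⬝ᵥ a) / (a ⬝ᵥ a) = 2
    field_simp
  exact ⟨Module.reflection hf, fun v => by rw [Module.reflection_apply]; rfl⟩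

theorem dot_pair (i j : Fin r) (t : ℝ) (v : Fin r → ℝ) :
    (Pi.single i 1 - t • (Pi.single j 1 : Fin r → ℝ)) ⬝ᵥ v = v i - t * v j := by
  rw [sub_dotProduct, smul_dotProduct, single_one_dotProduct, single_one_dotProduct, smul_eq_mul]

theorem pair_apply (i j l : Fin r) (t : ℝ) :
    (Pi.single i 1 - t • (Pi.single j 1 : Fin r → ℝ) : Fin r → ℝ) l =
      (if l = i then 1 else 0) - t * (if l = j then 1 else 0) := by
  simp [Pi.single_apply]

theorem pair_self {i j : Fin r} (hij : i ≠ j) {t : ℝ} (ht : t = 1 ∨ t = -1) :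
    (Pi.single i 1 - t • (Pi.single j 1 : Fin r → ℝ)) ⬝ᵥ
      (Pi.single i 1 - t • (Pi.single j 1 : Fin r → ℝ)) = 2 := by
  rw [dot_pair, pair_apply, pair_apply]
  rcases ht with rfl | rfl <;> simp [hij, hij.symm] <;> norm_num

theorem Root.ne {P : Prop} {a : Fin r → ℝ} (h : Root P a) : a ≠ 0 := by
  rcases h with ⟨i, j, t, hij, ht, rfl⟩ | ⟨_, i, rfl⟩
  · intro h0
    have := pair_self hij ht
    rw [h0] at this
    simp at this
  · intro h0
    have := congrFun h0 i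
    simp at this

theorem pair_refl {i j : Fin r} (hij : i ≠ j) {t : ℝ} (ht : t = 1 ∨ t = -1)
    {g : (Fin r → ℝ) ≃ₗ[ℝ] (Fin r → ℝ)} {a : Fin r → ℝ}
    (ha : a = Pi.single i 1 - t • (Pi.single j 1 : Fin r → ℝ))
    (hg : ∀ v, g v = v - (2 * (a ⬝ᵥ v) / (a ⬝ᵥ a)) • a) (v : Fin r → ℝ) (l : Fin r) :
    g v l = (if l = i ∨ l = j then t else 1) * v (Equiv.swap i j l) := by
  subst ha
  rw [hg, pair_self hij ht, dot_pair, Pi.sub_apply, Pi.smul_apply, pair_apply, smul_eq_mul]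
  have ht2 : t * t = 1 := by rcases ht with rfl | rfl <;> norm_num
  by_cases h1 : l = i
  · subst h1
    simp [hij]
  · by_cases h2 : l = j
    · subst h2
      simp only [h1, if_false, if_true, or_true, Equiv.swap_apply_right]
      linear_combination (-v l) * ht2
    · simp [h1, h2, Equiv.swap_apply_of_ne_of_ne h1 h2]

theorem inv_gen {P : Prop} {g : (Fin r → ℝ) ≃ₗ[ℝ] (Fin r → ℝ)} (h : g ∈ Gen P) : Inv P g := by
  obtain ⟨a, ha, hg⟩ := h
  rcases ha with ⟨i, j, t, hij, ht, ha⟩ | ⟨hP, i, rfl⟩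
  · refine ⟨Equiv.swap i j, fun l => if l = i ∨ l = j then t else 1, fun l => ?_, Or.inr ?_,
      fun v l => pair_refl hij ht ha hg v l⟩
    · by_cases hl : l = i ∨ l = j
      · simpa [hl] using ht
      · simp [hl]
    · rw [Finset.prod_eq_mul i j hij]
      · rcases ht with rfl | rfl <;> simp
      · intro c _ hc
        simp [hc.1, hc.2]
      · simp
      · simp
  · refine ⟨1, fun l => if l = i then -1 else 1, fun l => ?_, Or.inl hP, fun v l => ?_⟩
    · by_cases hl : l = i <;> simp [hl]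
    · rw [hg, single_one_dotProduct, single_one_dotProduct]
      by_cases hl : l = i
      · subst hl
        simp
        ring
      · simp [hl]

theorem inv_one (P : Prop) : Inv P (1 : (Fin r → ℝ) ≃ₗ[ℝ] (Fin r → ℝ)) :=
  ⟨1, fun _ => 1, fun _ => Or.inl rfl, Or.inr (by simp), fun v i => by simp⟩

theorem inv_mul {P : Prop} {g h : (Fin r → ℝ) ≃ₗ[ℝ] (Fin r → ℝ)} (hg : Inv P g) (hh : Inv P h) :
    Inv P (g * h) := by
  obtain ⟨σ, ε, h1, h2, h3⟩ := hg
  obtain ⟨τ, δ, k1, k2, k3⟩ := hh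
  refine ⟨τ * σ, fun i => ε i * δ (σ i), fun i => ?_, ?_, fun v i => ?_⟩
  · rcases h1 i with h | h <;> rcases k1 (σ i) with k | k <;> simp [h, k]
  · by_cases hP : P
    · exact Or.inl hP
    · right
      rw [Finset.prod_mul_distrib, Equiv.prod_comp σ δ, h2.resolve_left hP, k2.resolve_left hP,
        one_mul]
  · rw [LinearEquiv.mul_apply, h3, k3, Equiv.Perm.mul_apply, mul_assoc]

theorem inv_inv {P : Prop} {g : (Fin r → ℝ) ≃ₗ[ℝ] (Fin r → ℝ)} (hg : Inv P g) : Inv P g⁻¹ := by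
  obtain ⟨σ, ε, h1, h2, h3⟩ := hg
  refine ⟨σ⁻¹, fun i => ε (σ⁻¹ i), fun i => h1 _, ?_, fun v i => ?_⟩
  · by_cases hP : P
    · exact Or.inl hP
    · right
      rw [Equiv.prod_comp σ⁻¹ ε, h2.resolve_left hP]
  · have h4 := h3 (g⁻¹ v) (σ⁻¹ i)
    have h5 : g (g⁻¹ v) = v := by
      rw [← LinearEquiv.mul_apply, mul_inv_cancel]; rfl
    have h6 : σ (σ⁻¹ i) = i := by simp
    rw [h5, h6] at h4
    show g⁻¹ v i = ε (σ⁻¹ i) * v (σ⁻¹ i)
    rw [h4]
    rcases h1 (σ⁻¹ i) with h | h <;> rw [h] <;> ring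

theorem inv_of_mem {P : Prop} {g : (Fin r → ℝ) ≃ₗ[ℝ] (Fin r → ℝ)}
    (h : g ∈ Subgroup.closure (Gen P)) : Inv P g := by
  induction h using Subgroup.closure_induction with
  | mem x hx => exact inv_gen hx
  | one => exact inv_one P
  | mul x y _ _ hx hy => exact inv_mul hx hy
  | inv x _ hx => exact inv_inv hx

theorem finite_inv (P : Prop) : {g : (Fin r → ℝ) ≃ₗ[ℝ] (Fin r → ℝ) | Inv P g}.Finite := by
  have h1 : (Set.univ.pi fun _ : Fin r => Set.univ.pi fun _ : Fin r =>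
      ({0, 1, -1} : Set ℝ)).Finite :=
    Set.Finite.pi fun _ => Set.Finite.pi fun _ => Set.toFinite _
  refine Set.Finite.of_finite_image (f := fun g : (Fin r → ℝ) ≃ₗ[ℝ] (Fin r → ℝ) =>
    fun j : Fin r => g (Pi.single j 1)) (h1.subset ?_) ?_
  · rintro _ ⟨g, ⟨σ, ε, h1, _, h3⟩, rfl⟩ j _ i _
    show g (Pi.single j 1) i ∈ ({0, 1, -1} : Set ℝ)
    rw [h3]
    by_cases h : σ i = j
    · rcases h1 i with k | k <;> simp [h, k]
    · simp [h]
  · intro g _ h _ he
    refine LinearEquiv.toLinearMap_injective ((Pi.basisFun ℝ (Fin r)).ext fun j => ?_)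
    simpa using congrFun he j

theorem mirror {P : Prop} {g : (Fin r → ℝ) ≃ₗ[ℝ] (Fin r → ℝ)} {H : Submodule ℝ (Fin r → ℝ)}
    (hg : Inv P g) (hH : IsRefl g H) :
    (∃ i j, i ≠ j ∧ ((∀ v, v ∈ H ↔ v i = v j) ∨ (∀ v, v ∈ H ↔ v i = -v j))) ∨
      (P ∧ ∃ i : Fin r, ∀ v, v ∈ H ↔ v i = 0) := by
  obtain ⟨σ, ε, h1, h2, h3⟩ := hg
  obtain ⟨a, ha, hr, hm⟩ := hH
  have h0 : a ⬝ᵥ a ≠ 0 := fun h => ha (dotProduct_self_eq_zero.1 h)
  obtain ⟨i, hi⟩ : ∃ i, a i ≠ 0 := by
    by_contra hc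
    exact ha (funext fun i => by simpa using not_exists.1 hc i)
  have key : ∀ v : Fin r → ℝ, v ∈ H ↔ v i = ε i * v (σ i) := by
    intro v
    have h4 := h3 v i
    rw [hr, Pi.sub_apply, Pi.smul_apply, smul_eq_mul] at h4
    rw [hm, ← h4]
    constructor
    · intro h
      rw [h]; simp
    · intro h
      have h5 : 2 * (a ⬝ᵥ v) / (a ⬝ᵥ a) * a i = 0 := by linarith
      rcases mul_eq_zero.1 h5 with h6 | h6
      · rcases div_eq_zero_iff.1 h6 with h7 | h7
        · linarith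
        · exact absurd h7 h0
      · exact absurd h6 hi
  by_cases hs : σ i = i
  · have he : ε i = -1 := by
      rcases h1 i with h | h
      · exfalso
        apply h0
        rw [← hm, key, h, hs, one_mul]
      · exact h
    have key2 : ∀ v : Fin r → ℝ, v ∈ H ↔ v i = 0 := by
      intro v
      rw [key, he, hs]
      constructor <;> intro h <;> linarith
    right
    refine ⟨?_, i, key2⟩
    by_contra hP
    have hp := h2.resolve_left hP
    rw [Finset.prod_eq_single i] at hp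
    · rw [he] at hp; norm_num at hp
    · intro j _ hj
      have h5 : a ⬝ᵥ (Pi.single j 1 : Fin r → ℝ) = 0 := by
        rw [← hm, key2]
        simp [hj.symm]
      have h6 := h3 (Pi.single j 1) j
      rw [hr, h5] at h6
      by_cases hj2 : σ j = j
      · simpa [hj2] using h6.symm
      · simp [hj2] at h6
    · simp
  · left
    refine ⟨i, σ i, fun h => hs h.symm, ?_⟩
    rcases h1 i with h | h
    · left
      intro v
      rw [key, h, one_mul]
    · right
      intro v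
      rw [key, h, neg_one_mul]

theorem refl_arr (P : Prop) (hr : 2 ≤ r) (B : Finset (Submodule ℝ (Fin r → ℝ)))
    (hB : ∀ H : Submodule ℝ (Fin r → ℝ), H ∈ B ↔
      (∃ i j, i ≠ j ∧ ((∀ v, v ∈ H ↔ v i = v j) ∨ (∀ v, v ∈ H ↔ v i = -v j))) ∨
        (P ∧ ∃ i : Fin r, ∀ v, v ∈ H ↔ v i = 0)) : IsReflArr B := by
  have hgen : ∀ a : Fin r → ℝ, Root P a → ∀ H : Submodule ℝ (Fin r → ℝ),
      (∀ v, v ∈ H ↔ a ⬝ᵥ v = 0) → ∃ g ∈ Subgroup.closure (Gen (r := r) P), IsRefl g H := by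
    intro a ha H hH
    obtain ⟨g, hg⟩ := exists_refl a ha.ne
    exact ⟨g, Subgroup.subset_closure ⟨a, ha, hg⟩, a, ha.ne, hg, hH⟩
  refine ⟨Subgroup.closure (Gen P), ?_, ?_, ?_, ?_⟩
  · exact ((finite_inv P).subset fun g hg => inv_of_mem hg).to_subtype
  · refine le_antisymm (Subgroup.closure_mono ?_) ?_
    · rintro g ⟨a, ha, hg⟩
      refine ⟨Subgroup.subset_closure ⟨a, ha, hg⟩, ?_⟩
      let H : Submodule ℝ (Fin r → ℝ) :=
        { carrier := {v | a ⬝ᵥ v = 0}
          add_mem' := fun {v w} hv hw => by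
            have hv' : a ⬝ᵥ v = 0 := hv
            have hw' : a ⬝ᵥ w = 0 := hw
            show a ⬝ᵥ (v + w) = 0
            rw [dotProduct_add, hv', hw', add_zero]
          zero_mem' := by simp
          smul_mem' := fun c v hv => by
            have hv' : a ⬝ᵥ v = 0 := hv
            show a ⬝ᵥ (c • v) = 0
            rw [dotProduct_smul, hv', smul_zero] }
      exact ⟨H, a, ha.ne, hg, fun v => Iff.rfl⟩
    · exact (Subgroup.closure_le _).2 fun g hg => hg.1
  · intro v hv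
    funext i
    have : Nontrivial (Fin r) := Fin.nontrivial_iff_two_le.2 hr
    obtain ⟨j, hj⟩ := exists_ne i
    have h1 : ∀ t : ℝ, (t = 1 ∨ t = -1) → v i = t * v j := by
      intro t ht
      have ha : Root P (Pi.single i 1 - t • (Pi.single j 1 : Fin r → ℝ)) :=
        Or.inl ⟨i, j, t, hj.symm, ht, rfl⟩
      obtain ⟨g, hg⟩ := exists_refl _ ha.ne
      have h2 := pair_refl hj.symm ht rfl hg v i
      rw [hv g (Subgroup.subset_closure ⟨_, ha, hg⟩)] at h2
      simpa using h2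
    have h2 := h1 1 (Or.inl rfl)
    have h3 := h1 (-1) (Or.inr rfl)
    show v i = 0
    linarith
  · intro H
    rw [hB]
    constructor
    · rintro (⟨i, j, hij, h | h⟩ | ⟨hP, i, h⟩)
      · refine hgen _ (Or.inl ⟨i, j, 1, hij, Or.inl rfl, rfl⟩) H fun v => ?_
        rw [h, dot_pair]
        constructor <;> intro h <;> linarith
      · refine hgen _ (Or.inl ⟨i, j, -1, hij, Or.inr rfl, rfl⟩) H fun v => ?_
        rw [h, dot_pair]
        constructor <;> intro h <;> linarith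
      · refine hgen _ (Or.inr ⟨hP, i, rfl⟩) H fun v => ?_
        rw [h, single_one_dotProduct]
    · rintro ⟨g, hg, hH⟩
      exact mirror (inv_of_mem hg) hH

theorem transfer (g : (Fin r → ℝ) ≃ₗ[ℝ] (Fin r → ℝ)) (K : Submodule ℝ (Fin r → ℝ))
    (p : (Fin r → ℝ) → Prop) :
    (∀ v, v ∈ K.comap (g : (Fin r → ℝ) →ₗ[ℝ] (Fin r → ℝ)) ↔ p (g v)) ↔ ∀ v, v ∈ K ↔ p v := by
  constructor
  · intro h v
    have := h (g.symm v)
    simpa using this
  · intro h v
    rw [Submodule.mem_comap]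
    exact h _

end RRED

theorem t_RED (hL : S_Lin) : S_RED := by
  intro r k A hr hk hA
  obtain ⟨g, hg⟩ := hA
  let B : Finset (Submodule ℝ (Fin r → ℝ)) :=
    A.image fun H => H.map (g : (Fin r → ℝ) →ₗ[ℝ] (Fin r → ℝ))
  have hB : ∀ K : Submodule ℝ (Fin r → ℝ),
      K ∈ B ↔ K.comap (g : (Fin r → ℝ) →ₗ[ℝ] (Fin r → ℝ)) ∈ A := by
    intro K
    constructor
    · intro h
      obtain ⟨H, hH, rfl⟩ := Finset.mem_image.1 h
      rwa [Submodule.comap_map_eq_of_injective g.injective]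
    · intro h
      exact Finset.mem_image.2 ⟨_, h, Submodule.map_comap_eq_of_surjective g.surjective K⟩
  have hArk : IsArk k B := by
    intro K
    rw [hB, hg]
    refine or_congr (exists_congr fun i => exists_congr fun j => and_congr Iff.rfl
      (or_congr ?_ ?_)) (exists_congr fun i => and_congr Iff.rfl ?_)
    · exact RRED.transfer g K fun v => v i = v j
    · exact RRED.transfer g K fun v => v i = -v j
    · exact RRED.transfer g K fun v => v i = 0
  refine ⟨B, hArk, hL r A B g fun H => ?_, ?_⟩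
  · rw [hB, Submodule.comap_map_eq_of_injective g.injective]
  · rintro (rfl | rfl)
    · refine RRED.refl_arr False hr B fun H => ?_
      rw [hArk H]
      simp
    · refine RRED.refl_arr True hr B fun H => ?_
      rw [hArk H]
      simp

end Pool.Agent.SimpArr
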