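import Pool.Agent.P.MP_0b4c38_co.RIface

/-! Reflection arrangements of rank three are tame. -/

set_option autoImplicit false

open Classical

namespace Pool.Agent.SimpArr

namespace RRefl

open Matrix

abbrev V3 : Type := Fin 3 → ℝ

/-- The Euclidean norm. -/
noncomputable def nn (v : V3) : ℝ := ‖(WithLp.toLp 2 v : EuclideanSpace ℝ (Fin 3))‖

theorem nn_nonneg (v : V3) : 0 ≤ nn v := norm_nonneg _

theorem inner_eq (u v : V3) : inner ℝ (WithLp.toLp 2 u : EuclideanSpace ℝ (Fin 3))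
    (WithLp.toLp 2 v) = u ⬝ᵥ v := by
  rw [EuclideanSpace.inner_toLp_toLp, star_trivial, dotProduct_comm]

theorem nn_sq (v : V3) : nn v ^ 2 = v ⬝ᵥ v := by
  rw [nn, ← real_inner_self_eq_norm_sq, inner_eq]

theorem cs (u v : V3) : |u ⬝ᵥ v| ≤ nn u * nn v := by
  rw [← inner_eq]
  exact abs_real_inner_le_norm _ _

theorem nn_add (u v : V3) : nn (u + v) ≤ nn u + nn v := by
  rw [nn, WithLp.toLp_add]
  exact norm_add_le _ _

theorem nn_sub (u v : V3) : nn (u - v) ≤ nn u + nn v := by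
  rw [nn, WithLp.toLp_sub]
  exact norm_sub_le _ _

theorem nn_smul (c : ℝ) (v : V3) : nn (c • v) = |c| * nn v := by
  rw [nn, WithLp.toLp_smul, norm_smul]
  rfl

theorem nn_pos {v : V3} (h : v ≠ 0) : 0 < nn v :=
  (nn_nonneg v).lt_of_ne fun e => h (dotProduct_self_eq_zero.1 (by rw [← nn_sq, ← e]; simp))

/-- Orthogonal maps. -/
def Orth (g : V3 ≃ₗ[ℝ] V3) : Prop := ∀ u v, g u ⬝ᵥ g v = u ⬝ᵥ v

theorem Orth.nn {g : V3 ≃ₗ[ℝ] V3} (h : Orth g) (v : V3) : nn (g v) = nn v :=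
  (pow_left_inj₀ (nn_nonneg _) (nn_nonneg _) two_ne_zero).1 (by rw [nn_sq, nn_sq, h])

theorem orth_refl {g : V3 ≃ₗ[ℝ] V3} {H : Submodule ℝ V3} (h : IsRefl g H) : Orth g := by
  obtain ⟨a, ha, h, -⟩ := h
  intro u v
  have h0 : a ⬝ᵥ a ≠ 0 := fun e => ha (dotProduct_self_eq_zero.1 e)
  rw [h, h]
  simp only [sub_dotProduct, dotProduct_sub, smul_dotProduct, dotProduct_smul, smul_eq_mul,
    dotProduct_comm u a]
  field_simp
  ring

/-- The distance to the identity. -/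
noncomputable def dd (g : V3 ≃ₗ[ℝ] V3) : ℝ := sInf {c | 0 ≤ c ∧ ∀ v, nn (g v - v) ≤ c * nn v}

theorem dd_le {g : V3 ≃ₗ[ℝ] V3} {c : ℝ} (h0 : 0 ≤ c) (h : ∀ v, nn (g v - v) ≤ c * nn v) :
    dd g ≤ c := csInf_le ⟨0, fun _ hc => hc.1⟩ ⟨h0, h⟩

theorem dd_nonneg (g : V3 ≃ₗ[ℝ] V3) : 0 ≤ dd g := Real.sInf_nonneg fun _ hc => hc.1

theorem Orth.le {g : V3 ≃ₗ[ℝ] V3} (h : Orth g) (v : V3) :
    RRefl.nn (g v - v) ≤ dd g * RRefl.nn v := by
  rcases eq_or_ne v 0 with rfl | hv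
  · simp [RRefl.nn]
  rw [← div_le_iff₀ (nn_pos hv)]
  refine le_csInf ⟨2, zero_le_two, fun w => (nn_sub _ _).trans (by rw [h.nn, two_mul])⟩
    fun c hc => ?_
  rw [div_le_iff₀ (nn_pos hv)]
  exact hc.2 v

theorem Orth.pos {g : V3 ≃ₗ[ℝ] V3} (h : Orth g) (h1 : g ≠ 1) : 0 < dd g := by
  refine (dd_nonneg g).lt_of_ne fun e => h1 (LinearEquiv.ext fun v => ?_)
  have h2 := h.le v
  rw [← e, zero_mul] at h2
  by_contra h3
  exact absurd h2 (not_le.2 (nn_pos (sub_ne_zero.2 h3)))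

theorem Orth.inv {g : V3 ≃ₗ[ℝ] V3} (h : Orth g) : Orth g⁻¹ := fun u v => by
  rw [← h]
  simp

theorem Orth.mul {g h : V3 ≃ₗ[ℝ] V3} (hg : Orth g) (hh : Orth h) : Orth (g * h) :=
  fun u v => by rw [LinearEquiv.mul_apply, LinearEquiv.mul_apply, hg, hh]

theorem dd_conj {g h : V3 ≃ₗ[ℝ] V3} (hg : Orth g) (hh : Orth h) : dd (h⁻¹ * g * h) ≤ dd g := by
  refine dd_le (dd_nonneg g) fun v => ?_
  rw [← hh.nn, ← hh.nn v, map_sub]
  simpa using hg.le (h v)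

theorem dd_comm {g h : V3 ≃ₗ[ℝ] V3} (hg : Orth g) (hh : Orth h) :
    dd (g * h * (h * g)⁻¹) ≤ 2 * (dd g * dd h) := by
  have h1 := dd_nonneg g
  have h2 := dd_nonneg h
  refine dd_le (by positivity) fun v => ?_
  obtain ⟨w, rfl⟩ := (h * g).surjective v
  have e : (g * h * (h * g)⁻¹) ((h * g) w) - (h * g) w =
      (g (h w - w) - (h w - w)) - (h (g w - w) - (g w - w)) := by
    rw [← LinearEquiv.mul_apply, inv_mul_cancel_right]
    simp only [LinearEquiv.mul_apply, map_sub]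
    abel
  rw [e, (hh.mul hg).nn]
  have h3 := (hg.le _).trans (mul_le_mul_of_nonneg_left (hh.le w) h1)
  have h4 := (hh.le _).trans (mul_le_mul_of_nonneg_left (hg.le w) h2)
  linarith [nn_sub (g (h w - w) - (h w - w)) (h (g w - w) - (g w - w))]

theorem par {x y : V3} (hx : x ≠ 0) (h : x ⨯₃ y = 0) : ∃ c : ℝ, y = c • x := by
  have h0 : x ⬝ᵥ x ≠ 0 := fun e => hx (dotProduct_self_eq_zero.1 e)
  have h1 := cross_cross_eq_smul_sub_smul' x x y
  rw [h, map_zero, eq_comm, sub_eq_zero] at h1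
  exact ⟨(x ⬝ᵥ x)⁻¹ * (x ⬝ᵥ y), by rw [mul_smul, h1, inv_smul_smul₀ h0]⟩

theorem perp2 {a b y : V3} (h : a ⨯₃ b ≠ 0) (ha : a ⬝ᵥ y = 0) (hb : b ⬝ᵥ y = 0) :
    ∃ c : ℝ, y = c • a ⨯₃ b :=
  par h (by rw [cross_cross_eq_smul_sub_smul, ha, hb]; simp)

theorem fix_line {g : V3 ≃ₗ[ℝ] V3} (hg : Orth g) (hd : dd g < 1 / 2) {x : V3} (hx : x ≠ 0)
    (h : ∃ c : ℝ, g x = c • x) : g x = x := by
  obtain ⟨c, hc⟩ := h
  have h0 := nn_pos hx
  have h1 := hg.nn x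
  have h2 := hg.le x
  rw [hc, nn_smul] at h1
  rw [hc, show c • x - x = (c - 1) • x by rw [sub_smul, one_smul], nn_smul] at h2
  have h3 : |c| = 1 := mul_right_cancel₀ h0.ne' (by rw [h1, one_mul])
  have h4 : |c - 1| ≤ dd g := le_of_mul_le_mul_right h2 h0
  rcases abs_eq (zero_le_one) |>.1 h3 with rfl | rfl
  · rw [hc, one_smul]
  · norm_num at h4
    linarith

theorem fix_two {g : V3 ≃ₗ[ℝ] V3} (hg : Orth g) (hd : dd g < 1 / 2) {x y : V3}
    (h : x ⨯₃ y ≠ 0) (hx : g x = x) (hy : g y = y) : g = 1 := by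
  have key : ∀ u v, g u = u → u ⬝ᵥ g v = u ⬝ᵥ v := fun u v e => by rw [← hg u v, e]
  have hm := fix_line hg hd h (perp2 h (by rw [key _ _ hx, dot_self_cross])
    (by rw [key _ _ hy, dot_cross_self]))
  refine LinearEquiv.ext fun v => ?_
  obtain ⟨c, hc⟩ := perp2 (y := g v - v) h (by rw [dotProduct_sub, key _ _ hx, sub_self])
    (by rw [dotProduct_sub, key _ _ hy, sub_self])
  have h1 : (x ⨯₃ y) ⬝ᵥ (g v - v) = 0 := by rw [dotProduct_sub, key _ _ hm, sub_self]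
  rw [hc, dotProduct_smul, smul_eq_mul, mul_eq_zero, dotProduct_self_eq_zero] at h1
  rw [h1.resolve_right h, zero_smul, sub_eq_zero] at hc
  exact hc

theorem unit {g : V3 ≃ₗ[ℝ] V3} {H : Submodule ℝ V3} (h : IsRefl g H) :
    ∃ a : V3, nn a = 1 ∧ (∀ v, g v = v - (2 * (a ⬝ᵥ v)) • a) ∧ ∀ v, v ∈ H ↔ a ⬝ᵥ v = 0 := by
  obtain ⟨a, ha, h1, h2⟩ := h
  have h0 := nn_pos ha
  refine ⟨(nn a)⁻¹ • a, ?_, fun v => ?_, fun v => ?_⟩
  · rw [nn_smul, abs_of_pos (inv_pos.2 h0), inv_mul_cancel₀ h0.ne']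
  · rw [h1, smul_smul, smul_dotProduct, ← nn_sq, smul_eq_mul]
    congr 2
    field_simp
  · rw [h2, smul_dotProduct, smul_eq_mul, mul_eq_zero, or_iff_right (inv_pos.2 h0).ne']

section Rot

variable {s t : V3 ≃ₗ[ℝ] V3} {a b : V3} (hs : ∀ v, s v = v - (2 * (a ⬝ᵥ v)) • a)
  (ht : ∀ v, t v = v - (2 * (b ⬝ᵥ v)) • b)
include hs ht

theorem rot_dd (os : Orth s) (ha : nn a = 1) (hb : nn b = 1) (hab : nn (a - b) < 1 / 8) :
    dd (s⁻¹ * t) < 1 / 2 := by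
  refine (dd_le (c := 4 * nn (a - b)) (by linarith [nn_nonneg (a - b)]) fun v => ?_).trans_lt
    (by linarith)
  have e : s ((s⁻¹ * t) v - v) = (2 * ((a - b) ⬝ᵥ v)) • a + (2 * (b ⬝ᵥ v)) • (a - b) := by
    rw [map_sub, ← LinearEquiv.mul_apply, mul_inv_cancel_left, hs, ht, sub_dotProduct]
    module
  rw [← os.nn, e]
  refine (nn_add _ _).trans ?_
  rw [nn_smul, nn_smul, ha, abs_mul, abs_mul, abs_two]
  have h1 := cs (a - b) v
  have h2 := mul_le_mul_of_nonneg_right (cs b v) (nn_nonneg (a - b))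
  rw [hb] at h2
  linarith

theorem rot_fix (h : a ⨯₃ b ≠ 0) {v : V3} :
    (s⁻¹ * t) v = v ↔ a ⬝ᵥ v = 0 ∧ b ⬝ᵥ v = 0 := by
  rw [← s.injective.eq_iff, ← LinearEquiv.mul_apply, mul_inv_cancel_left, hs, ht, sub_right_inj]
  refine ⟨fun e => ?_, fun e => by rw [e.1, e.2]; simp⟩
  have e1 := congrArg (fun y => a ⨯₃ y) e
  have e2 := congrArg (fun y => y ⨯₃ b) e
  simp only [map_smul, LinearMap.smul_apply, cross_self, smul_zero] at e1 e2
  exact ⟨by simpa [h] using e2.symm, by simpa [h] using e1⟩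

end Rot

theorem axis {G : Subgroup (V3 ≃ₗ[ℝ] V3)} [Finite G] (hG : ∀ g ∈ G, Orth g)
    {s t : V3 ≃ₗ[ℝ] V3} {a b : V3} (hs : ∀ v, s v = v - (2 * (a ⬝ᵥ v)) • a)
    (ht : ∀ v, t v = v - (2 * (b ⬝ᵥ v)) • b) (sG : s ∈ G) (tG : t ∈ G) (ha : nn a = 1)
    (hb : nn b = 1) (hab : nn (a - b) < 1 / 8) (h : a ⨯₃ b ≠ 0) {r : V3 ≃ₗ[ℝ] V3} (rG : r ∈ G)
    {c : V3} (hr : ∀ v, r v = v - (2 * (c ⬝ᵥ v)) • c) :
    c ⬝ᵥ (a ⨯₃ b) = 0 ∨ (a ⨯₃ b) ⨯₃ c = 0 := by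
  have ρG : s⁻¹ * t ∈ G := G.mul_mem (G.inv_mem sG) tG
  have ρd := rot_dd hs ht (hG s sG) ha hb hab
  have ρ1 : s⁻¹ * t ≠ 1 := fun e => by
    have h1 := ((rot_fix hs ht h (v := a)).1 (by rw [e]; rfl)).1
    rw [← nn_sq, ha] at h1
    norm_num at h1
  have hfin : {g | g ∈ G ∧ g ≠ 1}.Finite :=
    (Set.toFinite (G : Set (V3 ≃ₗ[ℝ] V3))).subset fun g hg => hg.1
  obtain ⟨g0, ⟨g0G, g01⟩, hmin⟩ := Set.exists_min_image _ dd hfin ⟨_, ρG, ρ1⟩
  have g0d : dd g0 < 1 / 2 := (hmin _ ⟨ρG, ρ1⟩).trans_lt ρd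
  have key : ∀ k ∈ G, g0 (k (a ⨯₃ b)) = k (a ⨯₃ b) := by
    intro k kG
    have g1G : k⁻¹ * g0 * k ∈ G := G.mul_mem (G.mul_mem (G.inv_mem kG) g0G) kG
    have g1d := dd_conj (hG _ g0G) (hG _ kG)
    have hc : k⁻¹ * g0 * k * (s⁻¹ * t) = s⁻¹ * t * (k⁻¹ * g0 * k) := by
      by_contra e
      have h1 := hmin _ ⟨G.mul_mem (G.mul_mem g1G ρG) (G.inv_mem (G.mul_mem ρG g1G)),
        mt mul_inv_eq_one.1 e⟩
      have h2 := dd_comm (hG _ g1G) (hG _ ρG)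
      have h3 := (hG _ g0G).pos g01
      have h4 := mul_le_mul_of_nonneg_right g1d (dd_nonneg (s⁻¹ * t))
      nlinarith
    have h1 : (s⁻¹ * t) (a ⨯₃ b) = a ⨯₃ b :=
      (rot_fix hs ht h).2 ⟨dot_self_cross _ _, dot_cross_self _ _⟩
    have h2 : (s⁻¹ * t) ((k⁻¹ * g0 * k) (a ⨯₃ b)) = (k⁻¹ * g0 * k) (a ⨯₃ b) := by
      rw [← LinearEquiv.mul_apply, ← hc, LinearEquiv.mul_apply, h1]
    rw [rot_fix hs ht h] at h2
    have h3 := congrArg k (fix_line (hG _ g1G) (g1d.trans_lt g0d) h (perp2 h h2.1 h2.2))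
    simpa using h3
  by_contra hn
  rw [not_or] at hn
  have h1 : g0 (a ⨯₃ b) = a ⨯₃ b := key 1 G.one_mem
  have h2 := key r rG
  rw [hr, map_sub, h1, sub_right_inj, map_smul] at h2
  exact g01 (fix_two (hG _ g0G) g0d hn.2 h1
    (smul_right_injective _ (mul_ne_zero two_ne_zero hn.1) h2))

/-- The plane orthogonal to a vector. -/
def pl (u : V3) : Submodule ℝ V3 := LinearMap.ker (dotProductBilin ℝ ℝ u)

theorem eq_pl {H : Submodule ℝ V3} {c u : V3} (hc : nn c = 1) (h : ∀ v, v ∈ H ↔ c ⬝ᵥ v = 0)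
    (e : ∃ l : ℝ, c = l • u) : H = pl u := by
  obtain ⟨l, rfl⟩ := e
  have hl : l ≠ 0 := by
    rintro rfl
    simp [nn] at hc
  ext v
  rw [h, smul_dotProduct, smul_eq_mul, mul_eq_zero, or_iff_right hl]
  rfl

theorem box {a : V3} (h : nn a = 1) (i : Fin 3) : ⌊16 * a i⌋ ∈ Finset.Icc (-16 : ℤ) 16 := by
  have h1 := cs a (Pi.single i 1)
  have h2 : nn (Pi.single i 1) = 1 := by
    refine (pow_left_inj₀ (nn_nonneg _) zero_le_one two_ne_zero).1 ?_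
    rw [nn_sq]
    simp
  rw [h, h2, dotProduct_single, mul_one, mul_one, abs_le] at h1
  rw [Finset.mem_Icc, Int.le_floor, Int.floor_le_iff]
  push_cast
  constructor <;> linarith

theorem close {a b : V3} (h : ∀ i, ⌊16 * a i⌋ = ⌊16 * b i⌋) : nn (a - b) < 1 / 8 := by
  have h1 : ∀ i, (a i - b i) * (a i - b i) < 1 / 256 := fun i => by
    have := abs_lt.1 (Int.abs_sub_lt_one_of_floor_eq_floor (h i))
    nlinarith
  refine lt_of_pow_lt_pow_left₀ 2 (by norm_num) ?_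
  rw [nn_sq, dotProduct, Fin.sum_univ_three]
  simp only [Pi.sub_apply]
  linarith [h1 0, h1 1, h1 2]

end RRefl

theorem RRefl.boxT : ∃ T : Finset (Fin 3 → ℤ), T.card = 33 ^ 3 ∧
    ∀ f : Fin 3 → ℤ, (∀ i, f i ∈ Finset.Icc (-16 : ℤ) 16) → f ∈ T := by
  have h : (Finset.Icc (-16 : ℤ) 16).card = 33 := by rw [Int.card_Icc]; rfl
  generalize Finset.Icc (-16 : ℤ) 16 = I at h ⊢
  refine ⟨Fintype.piFinset fun _ : Fin 3 => I, ?_, fun f hf => Fintype.mem_piFinset.2 hf⟩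
  rw [Fintype.card_piFinset, Finset.prod_const, h, Finset.card_univ, Fintype.card_fin]

open RRefl Matrix in
theorem t_Refl : S_Refl := by
  refine ⟨33 ^ 3, fun B ⟨G, hfin, hgen, hfix, hB⟩ => ?_⟩
  have hG : ∀ g ∈ G, Orth g := fun g hg => by
    rw [hgen] at hg
    induction hg using Subgroup.closure_induction with
    | mem g hg => exact orth_refl hg.2.choose_spec
    | one => exact fun _ _ => rfl
    | mul g h _ _ h1 h2 => exact h1.mul h2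
    | inv g _ h1 => exact h1.inv
  have hU : ∀ H, ∃ (g : V3 ≃ₗ[ℝ] V3) (a : V3), H ∈ B → g ∈ G ∧ nn a = 1 ∧
      (∀ v, g v = v - (2 * (a ⬝ᵥ v)) • a) ∧ ∀ v, v ∈ H ↔ a ⬝ᵥ v = 0 := fun H => by
    by_cases h : H ∈ B
    · obtain ⟨g, h1, h2⟩ := (hB H).1 h
      obtain ⟨a, h3⟩ := unit h2
      exact ⟨g, a, fun _ => ⟨h1, h3⟩⟩
    · exact ⟨1, 0, fun h' => absurd h' h⟩
  choose s a hU using hU
  have a0 : ∀ H ∈ B, a H ≠ 0 := fun H h e => by simpa [e, nn] using (hU H h).2.1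
  refine ⟨⟨fun H h => ?_, fun v hv => hfix v fun g hg => ?_⟩, ?_⟩
  · rw [eq_pl (hU H h).2.1 (hU H h).2.2.2 ⟨1, (one_smul _ _).symm⟩, pl,
      Module.Dual.finrank_ker_add_one_of_ne_zero, Module.finrank_fin_fun]
    exact fun e => a0 H h (dotProduct_self_eq_zero.1 (LinearMap.congr_fun e (a H)))
  · rw [hgen] at hg
    induction hg using Subgroup.closure_induction with
    | mem g hg =>
      obtain ⟨h1, H, h2⟩ := hg
      obtain ⟨c, -, h3, h4⟩ := unit h2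
      rw [h3, (h4 v).1 (hv H ((hB H).2 ⟨g, h1, h2⟩))]
      simp
    | one => rfl
    | mul g h _ _ h1 h2 => rw [LinearEquiv.mul_apply, h2, h1]
    | inv g _ h1 => exact g.injective (by simpa using h1.symm)
  by_cases hc : ∃ H ∈ B, ∃ H' ∈ B, H ≠ H' ∧ nn (a H - a H') < 1 / 8
  · obtain ⟨H, h, H', h', hne, hd⟩ := hc
    have hx : a H ⨯₃ a H' ≠ 0 := fun e => hne
      ((eq_pl (hU H h).2.1 (hU H h).2.2.2 ⟨1, (one_smul _ _).symm⟩).trans
        (eq_pl (hU H' h').2.1 (hU H' h').2.2.2 (par (a0 H h) e)).symm)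
    have key : ∀ K ∈ B, a H ⨯₃ a H' ∈ K ∨ K = pl (a H ⨯₃ a H') := fun K hK =>
      (axis hG (hU H h).2.2.1 (hU H' h').2.2.1 (hU H h).1 (hU H' h').1 (hU H h).2.1
        (hU H' h').2.1 hd hx (hU K hK).1 (hU K hK).2.2.1).imp ((hU K hK).2.2.2 _).2
          fun e => eq_pl (hU K hK).2.1 (hU K hK).2.2.2 (par hx e)
    generalize a H ⨯₃ a H' = x at hx key
    refine ⟨⟨x, fun w hw => ?_⟩, fun C hC => ?_⟩
    · refine (Finset.card_le_card (t := {pl x, pl (x ⨯₃ w)}) fun K hK => ?_).trans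
        (Finset.card_le_two.trans (by norm_num))
      rw [Finset.mem_filter] at hK
      rw [Finset.mem_insert, Finset.mem_singleton]
      refine (key K hK.1).symm.imp_right fun e => eq_pl (hU K hK.1).2.1 (hU K hK.1).2.2.2
        (perp2 (fun e' => (par hx e').elim hw) ?_ ?_)
      · rw [dotProduct_comm]; exact ((hU K hK.1).2.2.2 _).1 e
      · rw [dotProduct_comm]; exact ((hU K hK.1).2.2.2 _).1 hK.2
    · refine (Finset.card_le_card (t := insert (pl x) (B.filter fun K => x ∈ K))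
        fun K hK => ?_).trans ((Finset.card_insert_le _ _).trans ?_)
      swap
      · have h1 : (B.filter fun K => x ∈ K).card ≤ C := hC x hx
        beta_reduce
        omega
      rw [Finset.mem_insert, Finset.mem_filter]
      exact (key K hK).symm.imp_right fun e => ⟨hK, e⟩
  · have hcard : B.card ≤ 33 ^ 3 := by
      obtain ⟨T, hT, hT'⟩ := boxT
      refine (Finset.card_le_card_of_injOn (fun H i => ⌊16 * a H i⌋)
        (t := T) (fun H h => ?_) fun H h H' h' e => ?_).trans hT.le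
      · exact hT' _ (box (hU H h).2.1)
      · by_contra hne
        exact hc ⟨H, h, H', h', hne, close (congrFun e)⟩
    exact ⟨⟨0, fun w _ => (Finset.card_filter_le _ _).trans hcard⟩,
      fun C _ => hcard.trans (Nat.le_add_left _ _)⟩

end Pool.Agent.SimpArr
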