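import Pool.Agent.P.MP_0b4c38_co.RGlue

/-! Tameness is a combinatorial property. -/

set_option autoImplicit false

open Classical

namespace Pool.Agent.SimpArr

namespace RTrans

variable {r s : ℕ}

theorem updeg_map {A : Finset (Submodule ℝ (Fin r → ℝ))} {B : Finset (Submodule ℝ (Fin s → ℝ))}
    (e : Face A ≃o Face B) (F : Face A) : updeg B (e F) = updeg A F := by
  unfold updeg
  have h : {F' : Face B | e F ≤ F'} = e '' {F' : Face A | F ≤ F'} := by
    ext G
    constructor
    · intro hG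
      refine ⟨e.symm G, ?_, e.apply_symm_apply G⟩
      exact (e.le_symm_apply).2 hG
    · rintro ⟨G', hG', rfl⟩
      exact e.le_iff_le.2 hG'
  rw [h, Set.ncard_image_of_injective _ e.injective]

theorem mult_neg (A : Finset (Submodule ℝ (Fin r → ℝ))) (v : Fin r → ℝ) :
    mult A (-v) = mult A v := by
  unfold mult
  congr 1
  exact Finset.filter_congr fun H _ => H.neg_mem_iff

variable {A : Finset (Submodule ℝ (Fin r → ℝ))}

theorem self_mem (v : Fin r → ℝ) : v ∈ closure (cell A v) := subset_closure fun _ _ => rfl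

theorem nonneg_of_mem {v y : Fin r → ℝ} (h : y ∈ closure (cell A v))
    {f : (Fin r → ℝ) →ₗ[ℝ] ℝ} (hf : LinearMap.ker f ∈ A) (hv : 0 ≤ f v) : 0 ≤ f y := by
  have hc : Continuous f := LinearMap.continuous_of_finiteDimensional _
  refine closure_minimal (t := {x | 0 ≤ f x}) (fun x hx => ?_)
    (isClosed_le continuous_const hc) h
  have h1 := hx f hf
  have h2 : 0 ≤ SignType.sign (f v) := sign_nonneg_iff.2 hv
  rw [← h1] at h2
  exact sign_nonneg_iff.1 h2

theorem nonneg_of_eq {v w : Fin r → ℝ} (h : faceOf A v = faceOf A w)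
    {f : (Fin r → ℝ) →ₗ[ℝ] ℝ} (hf : LinearMap.ker f ∈ A) (hv : 0 ≤ f v) : 0 ≤ f w := by
  have h1 : closure (cell A v) = closure (cell A w) := congrArg Subtype.val h
  have h2 : w ∈ closure (cell A v) := h1 ▸ self_mem w
  exact nonneg_of_mem h2 hf hv

theorem zero_of_eq {v w : Fin r → ℝ} (h : faceOf A v = faceOf A w)
    {f : (Fin r → ℝ) →ₗ[ℝ] ℝ} (hf : LinearMap.ker f ∈ A) (hv : f v = 0) : f w = 0 := by
  have h1 := nonneg_of_eq h hf hv.ge
  have hf' : LinearMap.ker (-f) ∈ A := by rwa [LinearMap.ker_neg]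
  have h2 := nonneg_of_eq h hf' (by simp [hv])
  simp only [LinearMap.neg_apply, Left.nonneg_neg_iff] at h2
  exact le_antisymm h2 h1

theorem mem_of_eq (hA : IsArrangement A) {v w : Fin r → ℝ} (h : faceOf A v = faceOf A w)
    {H : Submodule ℝ (Fin r → ℝ)} (hH : H ∈ A) (hv : v ∈ H) : w ∈ H := by
  obtain ⟨f, -, rfl⟩ := Final.exists_ker (hA.1 H hH)
  exact zero_of_eq h hH hv

theorem face_ne_neg (hA : IsArrangement A) {v : Fin r → ℝ} (hv : v ≠ 0) :
    faceOf A v ≠ faceOf A (-v) := by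
  intro h
  refine hv (hA.2 v fun H hH => ?_)
  obtain ⟨f, -, rfl⟩ := Final.exists_ker (hA.1 H hH)
  rw [LinearMap.mem_ker]
  rcases le_total 0 (f v) with h1 | h1
  · have h2 := nonneg_of_eq h hH h1
    rw [map_neg] at h2
    linarith
  · have h2 := nonneg_of_eq h.symm hH (by rw [map_neg]; linarith)
    linarith

theorem face_smul_pos (x : Fin r → ℝ) {c : ℝ} (hc : 0 < c) : faceOf A (c • x) = faceOf A x := by
  have h : cell A (c • x) = cell A x := by
    ext w
    simp only [cell, Set.mem_ofPred_eq, map_smul, smul_eq_mul, sign_mul, sign_pos hc, one_mul]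
  exact Subtype.ext (congrArg closure h)

theorem face_smul (x : Fin r → ℝ) (c : ℝ) :
    faceOf A (c • x) = faceOf A x ∨ faceOf A (c • x) = faceOf A 0 ∨
      faceOf A (c • x) = faceOf A (-x) := by
  rcases lt_trichotomy c 0 with h | h | h
  · refine Or.inr (Or.inr ?_)
    have : c • x = (-c) • (-x) := by simp
    rw [this]
    exact face_smul_pos _ (by linarith)
  · exact Or.inr (Or.inl (by rw [h, zero_smul]))
  · exact Or.inl (face_smul_pos _ h)

/-- In rank three a nonzero point on two hyperplanes spans their intersection. -/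
theorem smul_of_two {A : Finset (Submodule ℝ (Fin 3 → ℝ))} (hA : IsArrangement A)
    {x w : Fin 3 → ℝ} (hx : x ≠ 0) (h2 : 1 < mult A x) (hw : ∀ H ∈ A, x ∈ H → w ∈ H) :
    ∃ c : ℝ, w = c • x := by
  obtain ⟨H₁, h₁, H₂, h₂, hne⟩ := Finset.one_lt_card.1 h2
  obtain ⟨h₁A, hx₁⟩ := Finset.mem_filter.1 h₁
  obtain ⟨h₂A, hx₂⟩ := Finset.mem_filter.1 h₂
  have d₁ := hA.1 H₁ h₁A
  have d₂ := hA.1 H₂ h₂A
  have hlt : H₁ < H₁ ⊔ H₂ := by
    refine lt_of_le_of_ne le_sup_left fun h => hne ?_
    have h3 : H₂ ≤ H₁ := h ▸ le_sup_right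
    exact (Submodule.eq_of_le_of_finrank_le h3 (by omega)).symm
  have d₃ := Submodule.finrank_lt_finrank_of_lt hlt
  have d₄ := Submodule.finrank_sup_add_finrank_inf_eq H₁ H₂
  have hle : Submodule.span ℝ {x} ≤ H₁ ⊓ H₂ := by
    rw [Submodule.span_singleton_le_iff_mem]
    exact ⟨hx₁, hx₂⟩
  have d₅ := finrank_span_singleton (K := ℝ) hx
  have heq : Submodule.span ℝ {x} = H₁ ⊓ H₂ := Submodule.eq_of_le_of_finrank_le hle (by omega)
  have hmem : w ∈ Submodule.span ℝ {x} := heq ▸ ⟨hw H₁ h₁A hx₁, hw H₂ h₂A hx₂⟩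
  obtain ⟨c, hc⟩ := Submodule.mem_span_singleton.1 hmem
  exact ⟨c, hc.symm⟩

end RTrans

open RTrans in
theorem t_Trans (hF : S_Face) : S_Trans := by
  intro C₀ g A B hA hB hAB hT
  have hcard := RGlue.card_le_of_combEq hF hA hAB
  obtain ⟨e⟩ := hAB
  obtain ⟨⟨xB, hxB⟩, hg⟩ := hT
  obtain ⟨-, -, hAu, hAl⟩ := hF 3 A
  obtain ⟨-, -, hBu, hBl⟩ := hF 3 B
  have hAl := hAl hA.1
  have hBl := hBl hB.1
  constructor
  · by_cases hex : ∃ x : Fin 3 → ℝ, x ≠ 0 ∧ 3 ^ C₀ + 1 < mult A x
    swap
    · refine ⟨0, fun w hw => ?_⟩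
      have hw0 : w ≠ 0 := fun h => hw 0 (by rw [h, zero_smul])
      by_contra hlt
      exact hex ⟨w, hw0, not_le.1 hlt⟩
    obtain ⟨x, hx0, hx⟩ := hex
    refine ⟨x, fun w hw => ?_⟩
    by_contra hlt
    have hwm : 3 ^ C₀ + 1 < mult A w := not_le.1 hlt
    have hw0 : w ≠ 0 := fun h => hw 0 (by rw [h, zero_smul])
    have hpos : 0 < 3 ^ C₀ := by positivity
    have key : ∀ v : Fin 3 → ℝ, 3 ^ C₀ + 1 < mult A v →
        e (faceOf A v) = faceOf B xB ∨ e (faceOf A v) = faceOf B 0 ∨
          e (faceOf A v) = faceOf B (-xB) := by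
      intro v hv
      obtain ⟨u, hu⟩ := (e (faceOf A v)).2
      have hu' : e (faceOf A v) = faceOf B u := Subtype.ext hu
      have h1 := hAl v
      have h2 := updeg_map e (faceOf A v)
      have h3 := hBu u
      rw [hu'] at h2 ⊢
      have h4 : C₀ < mult B u := by
        by_contra h5
        have h6 : 3 ^ mult B u ≤ 3 ^ C₀ := Nat.pow_le_pow_right (by norm_num) (not_lt.1 h5)
        omega
      have h7 : ∃ c : ℝ, u = c • xB := by
        by_contra h8
        exact absurd (hxB u fun c hc => h8 ⟨c, hc⟩) (not_le.2 h4)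
      obtain ⟨c, rfl⟩ := h7
      exact face_smul xB c
    have cross : ∀ x' w' : Fin 3 → ℝ, (x' = x ∨ x' = -x) → (w' = w ∨ w' = -w) →
        faceOf A x' ≠ faceOf A w' := by
      intro x' w' hx' hw' h
      have h1 : ∀ H ∈ A, x ∈ H → w ∈ H := by
        intro H hH hxH
        have h2 : x' ∈ H := by
          rcases hx' with rfl | rfl
          · exact hxH
          · exact H.neg_mem hxH
        have h3 := mem_of_eq hA h hH h2
        rcases hw' with rfl | rfl
        · exact h3
        · exact H.neg_mem_iff.1 h3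
      obtain ⟨c, hc⟩ := smul_of_two hA hx0 (by omega) h1
      exact hw c hc
    have n12 : e (faceOf A x) ≠ e (faceOf A (-x)) := fun h => face_ne_neg hA hx0 (e.injective h)
    have n34 : e (faceOf A w) ≠ e (faceOf A (-w)) := fun h => face_ne_neg hA hw0 (e.injective h)
    have n13 : e (faceOf A x) ≠ e (faceOf A w) :=
      fun h => cross _ _ (Or.inl rfl) (Or.inl rfl) (e.injective h)
    have n14 : e (faceOf A x) ≠ e (faceOf A (-w)) :=
      fun h => cross _ _ (Or.inl rfl) (Or.inr rfl) (e.injective h)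
    have n23 : e (faceOf A (-x)) ≠ e (faceOf A w) :=
      fun h => cross _ _ (Or.inr rfl) (Or.inl rfl) (e.injective h)
    have n24 : e (faceOf A (-x)) ≠ e (faceOf A (-w)) :=
      fun h => cross _ _ (Or.inr rfl) (Or.inr rfl) (e.injective h)
    have k1 := key x hx
    have k2 := key (-x) (by rwa [mult_neg])
    have k3 := key w hwm
    have k4 := key (-w) (by rwa [mult_neg])
    generalize e (faceOf A x) = F₁ at *
    generalize e (faceOf A (-x)) = F₂ at *
    generalize e (faceOf A w) = F₃ at *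
    generalize e (faceOf A (-w)) = F₄ at *
    rcases k1 with k1 | k1 | k1 <;> rcases k2 with k2 | k2 | k2 <;>
      rcases k3 with k3 | k3 | k3 <;> rcases k4 with k4 | k4 | k4 <;>
      first
        | exact n12 (k1.trans k2.symm)
        | exact n13 (k1.trans k3.symm)
        | exact n14 (k1.trans k4.symm)
        | exact n23 (k2.trans k3.symm)
        | exact n24 (k2.trans k4.symm)
        | exact n34 (k3.trans k4.symm)
  · intro C hC
    have key : ∀ w : Fin 3 → ℝ, e.symm (faceOf B w) ≠ faceOf A 0 → mult B w ≤ 3 ^ C := by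
      intro w hw
      obtain ⟨u, hu⟩ := (e.symm (faceOf B w)).2
      have hu' : e.symm (faceOf B w) = faceOf A u := Subtype.ext hu
      have hu0 : u ≠ 0 := fun h => hw (by rw [hu', h])
      have h1 := hBl w
      have h2 := updeg_map e.symm (faceOf B w)
      have h3 := hAu u
      rw [hu'] at h2
      have h4 : 3 ^ mult A u ≤ 3 ^ C := Nat.pow_le_pow_right (by norm_num) (hC u hu0)
      omega
    have hBC : ∀ w : Fin 3 → ℝ, w ≠ 0 → mult B w ≤ 3 ^ C := by
      intro w hw
      by_cases h1 : e.symm (faceOf B w) = faceOf A 0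
      · have h2 : e.symm (faceOf B (-w)) ≠ faceOf A 0 := fun h =>
          face_ne_neg hB hw (e.symm.injective (h1.trans h.symm))
        have h3 := key (-w) h2
        rwa [mult_neg] at h3
      · exact key w h1
    exact hcard.trans (Nat.pow_le_pow_right (by norm_num) (hg _ hBC))

end Pool.Agent.SimpArr
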