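import Pool.Agent.P.MP_0b4c38_co.MDefs
import Pool.Agent.P.MP_0b4c38_co.MRel
import Pool.Agent.P.MP_0b4c38_co.RGlue
import Pool.Agent.P.MP_0b4c38_co.RFlat
import Pool.Agent.P.MP_0b4c38_co.RK
import Pool.Agent.P.MP_0b4c38_co.RArr
import Pool.Agent.P.MP_0b4c38_co.RH3
import Pool.Agent.P.MP_0b4c38_co.RFace
import Pool.Agent.P.MP_0b4c38_co.RFin
import Pool.Agent.P.MP_0b4c38_co.RTrans
import Pool.Agent.P.MP_0b4c38_co.RRefl
import Pool.Agent.P.MP_0b4c38_co.RReg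
import Pool.Agent.P.MP_0b4c38_co.RREA
import Pool.Agent.P.MP_0b4c38_co.RRED

/-! Arrangements whose sporadic minors of rank three have bounded size. -/

set_option autoImplicit false

open Classical

namespace Pool.Agent.SimpArr

namespace MRel

open RGlue RH3

theorem tame1 (N : ℕ) : ∃ (C₀ : ℕ) (g : ℕ → ℕ), ∀ A : Finset (Submodule ℝ (Fin 3 → ℝ)),
    IsArrangement A → IsSimplicial A → IsIrreducible A → (IsSporadic A → A.card ≤ N) →
    Tame C₀ g A := by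
  obtain ⟨K, hK⟩ := t_Refl
  have hT := t_Trans t_Face
  have l1 : ∀ a b c d : ℕ, a ≤ a + b + c + d := fun _ _ _ _ => by omega
  have l2 : ∀ a b c d : ℕ, b ≤ a + b + c + d := fun _ _ _ _ => by omega
  have l3 : ∀ a b c d : ℕ, c ≤ a + b + c + d := fun _ _ _ _ => by omega
  have l4 : ∀ a b c d : ℕ, d ≤ a + b + c + d := fun _ _ _ _ => by omega
  refine ⟨N + 3 ^ 21 + (3 ^ K + 1) + (3 ^ 4 + 1),
    fun C => N + 3 ^ 21 + 3 ^ (3 ^ C + K) + 3 ^ (2 * 3 ^ C + 1), fun A hA hs hi hN => ?_⟩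
  by_cases h1 : ∃ B : Finset (Submodule ℝ (Fin 3 → ℝ)),
      (IsReflArr B ∨ ∃ k, 0 < k ∧ k < 3 ∧ IsArk k B) ∧ CombEq A B
  · obtain ⟨B, hB | ⟨k, -, -, hB⟩, hAB⟩ := h1
    · exact tame_mono (hT _ _ A B hA (hK B hB).1 hAB (hK B hB).2) (l3 _ _ _ _)
        fun n => l3 _ _ _ _
    · have h2 : A.card ≤ 3 ^ 21 :=
        (card_le_of_combEq t_Face hA hAB).trans (Nat.pow_le_pow_right (by norm_num) (card_ark hB))
      exact tame_mono (tame_of_card h2) (l2 _ _ _ _) fun n => l2 _ _ _ _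
  by_cases h2 : ∃ B : Finset (Submodule ℝ (Fin 3 → ℝ)), IsRegular B ∧ CombEq A B
  · obtain ⟨B, hB, hAB⟩ := h2
    exact tame_mono (hT _ _ A B hA (t_Reg B hB).1 hAB (t_Reg B hB).2) (l4 _ _ _ _)
      fun n => l4 _ _ _ _
  exact tame_mono (tame_of_card (hN ⟨hA, hs, hi, h1, h2⟩)) (l1 _ _ _ _) fun n => l1 _ _ _ _

theorem tameS {V : Type} [AddCommGroup V] [Module ℝ V] {ι : Type} {R : Set V} {S : Finset ι}
    {κ : Fam ι V} {C₀ : ℕ} {g : ℕ → ℕ} (hR : Sys R) (h : IsCh R S κ) (hC : Conn R S κ S)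
    (h3 : S.card = 3)
    (hA : ∀ e : Fin 3 → ι, Function.Injective e → S = Finset.univ.image e →
      IsArrangement (finite_ker (κ := κ) (e := e) hR).toFinset →
      IsSimplicial (finite_ker (κ := κ) (e := e) hR).toFinset →
      IsIrreducible (finite_ker (κ := κ) (e := e) hR).toFinset →
      Tame C₀ g (finite_ker (κ := κ) (e := e) hR).toFinset) : TameS C₀ g R := by
  let e : Fin 3 → ι := fun i => ((Finset.equivFinOfCardEq h3).symm i).1
  have he : Function.Injective e :=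
    Subtype.val_injective.comp (Finset.equivFinOfCardEq h3).symm.injective
  have hmem : ∀ i, e i ∈ S := fun i => ((Finset.equivFinOfCardEq h3).symm i).2
  have hS : S = Finset.univ.image e := by
    ext i
    simp only [Finset.mem_image, Finset.mem_univ, true_and]
    exact ⟨fun hi => ⟨Finset.equivFinOfCardEq h3 ⟨i, hi⟩, by simp [e]⟩, fun ⟨j, hj⟩ => hj ▸ hmem j⟩
  obtain ⟨a1, a2, a3⟩ := t_RB V ι R S κ 3 e hR h hC he hS
    (finite_ker (κ := κ) (e := e) hR).toFinset fun H => by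
      simp only [Set.Finite.mem_toFinset, Set.mem_image, SetLike.ext_iff, LinearMap.mem_ker,
        Phi_apply]
      exact exists_congr fun ρ => and_congr_right fun _ => forall_congr' fun v => Iff.comm
  obtain ⟨⟨x, hx⟩, hg⟩ := hA e he hS a1 a2 a3
  constructor
  · have key : ∀ φ : V →ₗ[ℝ] ℝ, (∃ ρ ∈ R, φ ρ ≠ 0) → C₀ < nl {ρ | ρ ∈ R ∧ φ ρ = 0} →
        ∀ ρ ∈ R, φ ρ = 0 ↔ Phi κ e ρ x = 0 := by
      rintro φ ⟨σ, hσ, h0⟩ hlt ρ hρ
      rw [nl_ker hR h he hS] at hlt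
      obtain ⟨c, hc⟩ : ∃ c : ℝ, (fun i => φ (κ.B (e i))) = c • x := by
        by_contra hn
        exact hlt.not_ge (hx _ (not_exists.1 hn))
      have hc0 : c ≠ 0 := by
        rintro rfl
        exact h0 (by rw [apply_eq h he hS φ hσ, hc, zero_smul, map_zero])
      rw [apply_eq h he hS φ hρ, hc, map_smul, smul_eq_zero_iff_right hc0]
    intro φ ψ h1 h2 h3 h4 ρ hρ
    rw [key φ h1 h3 ρ hρ, key ψ h2 h4 ρ hρ]
  · intro C hCb
    rw [nl_eq hR h hS subset_rfl, Set.ncard_eq_toFinset_card _ (finite_ker hR)]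
    refine hg C fun w hw => ?_
    have hφ : ∀ j, (∑ i, w i • κ.x (e i)) (κ.B (e j)) = w j := by
      intro j
      simp [h.dual _ (hmem _) _ (hmem _), he.eq_iff]
    obtain ⟨j, hj⟩ := Function.ne_iff.1 hw
    have h1 := hCb (∑ i, w i • κ.x (e i)) ⟨_, h.mem _ (hmem j), by rw [hφ]; exact hj⟩
    rwa [nl_ker hR h he hS, funext hφ] at h1

variable {r : ℕ}

theorem isFlat_iInf {A : Finset (Submodule ℝ (Fin r → ℝ))} (P : Set (Final.Du r))
    (hP : P ⊆ Final.Rt A) : IsFlat A (⨅ ρ : P, LinearMap.ker ρ.1) := by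
  refine ⟨A.filter fun H => ∃ ρ ∈ P, H = LinearMap.ker ρ, Finset.filter_subset _ _, fun v => ?_⟩
  rw [Submodule.mem_iInf]
  constructor
  · intro hv H hH
    obtain ⟨ρ, hρ, rfl⟩ := (Finset.mem_filter.1 hH).2
    exact hv ⟨ρ, hρ⟩
  · intro hv ρ
    exact hv _ (Finset.mem_filter.2 ⟨(hP ρ.2).2, ρ.1, ρ.2, rfl⟩)

theorem isMinor_of_mnr {A : Finset (Submodule ℝ (Fin r → ℝ))} (hA : IsArrangement A)
    {Q : Set (Final.Du r)} (hm : Mnr (Final.Rt A) Q) {ι : Type} {S : Finset ι}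
    {κ : Fam ι (Final.Du r)} (hQ : Sys Q) (h : IsCh Q S κ) {e : Fin 3 → ι}
    (he : Function.Injective e) (hS : S = Finset.univ.image e) :
    IsMinor A (finite_ker (κ := κ) (e := e) hQ).toFinset := by
  obtain ⟨U, π, hk, hQe⟩ := hm
  have hmem : ∀ i, e i ∈ S := fun i => hS ▸ Finset.mem_image_of_mem e (Finset.mem_univ i)
  have hw : ∀ i, ∃ w : Fin r → ℝ, ∀ ρ : Final.Du r, κ.x (e i) (π ρ) = ρ w := fun i => by
    obtain ⟨w, hw⟩ := (Module.bijective_dual_eval ℝ (Fin r → ℝ)).2 (κ.x (e i) ∘ₗ π)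
    exact ⟨w, fun ρ => (LinearMap.congr_fun hw ρ).symm⟩
  choose w hw using hw
  let g : (Fin 3 → ℝ) →ₗ[ℝ] (Fin r → ℝ) := ∑ i, (LinearMap.proj i).smulRight (w i)
  have hg : ∀ (ρ : Final.Du r) v, ρ (g v) = Phi κ e (π ρ) v := by
    intro ρ v
    rw [Phi_apply]
    simp only [g, LinearMap.sum_apply, LinearMap.smulRight_apply, LinearMap.proj_apply, map_sum,
      map_smul, smul_eq_mul, hw, mul_comm]
  have hb : ∀ j, ∃ ρ, ρ ∈ Final.Rt A ∧ ρ ∈ U ∧ κ.B (e j) = π ρ := fun j => by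
    have := h.mem _ (hmem j)
    rw [hQe] at this
    exact this.2
  choose b hb1 hb2 hb3 using hb
  have hbg : ∀ j v, b j (g v) = v j := by
    intro j v
    rw [hg, ← hb3, Phi_apply]
    simp [h.dual _ (hmem _) _ (hmem _), he.eq_iff]
  let P : Set (Final.Du r) := {ρ | ρ ∈ Final.Rt A ∧ ρ ∈ U}
  let P' : Set (Final.Du r) := {ρ | ρ ∈ Final.Rt A ∧ ρ ∈ U ∧ π ρ = 0}
  have hrep : ∀ ρ ∈ P, π ρ = ∑ i, κ.x (e i) (π ρ) • κ.B (e i) := by
    intro ρ hρ
    by_cases h0 : π ρ = 0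
    · simp [h0]
    · have h1 : π ρ ∈ Q := by
        rw [hQe]
        exact ⟨h0, ρ, hρ.1, hρ.2, rfl⟩
      conv_lhs => rw [h.repr _ h1]
      rw [hS, Finset.sum_image fun i _ j _ hij => he hij]
  have hgY : ∀ v, g v ∈ ⨅ ρ : P', LinearMap.ker ρ.1 := by
    intro v
    rw [Submodule.mem_iInf]
    intro ρ
    rw [LinearMap.mem_ker, hg, ρ.2.2.2, Phi_apply]
    simp
  refine ⟨⨅ ρ : P, LinearMap.ker ρ.1, ⨅ ρ : P', LinearMap.ker ρ.1, g,
    isFlat_iInf P fun _ hρ => hρ.1, isFlat_iInf P' fun _ hρ => hρ.1, ?_, ?_, ?_, fun K => ?_⟩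
  · intro u v huv
    funext j
    rw [← hbg j u, huv, hbg]
  · rw [eq_bot_iff]
    rintro _ ⟨hx, v, rfl⟩
    have : v = 0 := funext fun j => by
      rw [← hbg j v]
      exact (Submodule.mem_iInf _).1 hx ⟨b j, hb1 j, hb2 j⟩
    rw [this, map_zero]
    exact Submodule.zero_mem _
  · apply le_antisymm
    · refine sup_le (le_iInf fun ρ => iInf_le_of_le ⟨ρ.1, ρ.2.1, ρ.2.2.1⟩ le_rfl) ?_
      rintro _ ⟨v, rfl⟩
      exact hgY v
    · intro y hy
      refine Submodule.mem_sup.2 ⟨y - g fun j => b j y, ?_, _, ⟨_, rfl⟩, sub_add_cancel _ _⟩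
      rw [Submodule.mem_iInf]
      rintro ⟨ρ, hρ⟩
      have e1 : ρ - ∑ i, κ.x (e i) (π ρ) • b i ∈ Submodule.span ℝ P' := by
        refine hk _ (Submodule.sub_mem _ (Submodule.subset_span hρ) (Submodule.sum_mem _
          fun i _ => Submodule.smul_mem _ _ (Submodule.subset_span ⟨hb1 i, hb2 i⟩))) ?_
        rw [map_sub, map_sum, sub_eq_zero]
        conv_lhs => rw [hrep ρ hρ]
        exact Finset.sum_congr rfl fun i _ => by rw [map_smul, hb3]
      have e2 : Submodule.span ℝ P' ≤ LinearMap.ker (Module.Dual.eval ℝ (Fin r → ℝ) y) :=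
        Submodule.span_le.2 fun σ hσ => (Submodule.mem_iInf _).1 hy ⟨σ, hσ⟩
      have e3 : (ρ - ∑ i, κ.x (e i) (π ρ) • b i) y = 0 := e2 e1
      rw [LinearMap.mem_ker, map_sub, hg, Phi_apply]
      simpa [LinearMap.sum_apply] using e3
  · rw [Set.Finite.mem_toFinset]
    constructor
    · rintro ⟨q, hq, rfl⟩
      have hq' := hq
      rw [hQe] at hq'
      obtain ⟨-, ρ, a1, a2, rfl⟩ := hq'
      refine ⟨LinearMap.ker ρ, a1.2, iInf_le_of_le ⟨ρ, a1, a2⟩ le_rfl, fun hY => ?_, ?_⟩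
      · obtain ⟨i, hi, hx⟩ := h.exists_ne hQ hq
        rw [hS] at hi
        obtain ⟨j, -, rfl⟩ := Finset.mem_image.1 hi
        have := hY (hgY (Pi.single j 1))
        rw [LinearMap.mem_ker, hg, Phi_single] at this
        exact hx this
      · ext v
        simp only [LinearMap.mem_ker, Submodule.mem_comap, hg]
    · rintro ⟨H, hH, hX, hY, rfl⟩
      obtain ⟨ρ, hρ, rfl⟩ := (Final.mem_iff hA H).1 hH
      have hU : ρ ∈ U := by
        have h1 := FiniteDimensional.mem_span_of_iInf_ker_le_ker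
          (L := fun σ : P => (σ.1 : Final.Du r)) hX
        refine (Submodule.span_le.2 ?_ : _ ≤ U) h1
        rintro _ ⟨σ, rfl⟩
        exact σ.2.2
      have h0 : π ρ ≠ 0 := fun h0 => hY (iInf_le_of_le ⟨ρ, hρ, hU, h0⟩ le_rfl)
      refine ⟨π ρ, ?_, ?_⟩
      · rw [hQe]
        exact ⟨h0, ρ, hρ, hU, rfl⟩
      · ext v
        simp only [LinearMap.mem_ker, Submodule.mem_comap, hg]

theorem isMinor_self {A : Finset (Submodule ℝ (Fin 3 → ℝ))} (hA : IsArrangement A) :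
    IsMinor A A := by
  refine ⟨⊥, ⊤, LinearMap.id, ⟨A, subset_rfl, fun v => ⟨?_, hA.2 v⟩⟩, ⟨∅, by simp, by simp⟩,
    fun _ _ h => h, by simp, by simp, fun K => ⟨fun hK => ⟨K, hK, bot_le, fun h => ?_, by simp⟩, ?_⟩⟩
  · rintro (rfl : v = 0) H _
    exact H.zero_mem
  · have h1 := hA.1 K hK
    rw [top_le_iff.1 h, finrank_top] at h1
    simp at h1
  · rintro ⟨H, hH, -, -, rfl⟩
    simpa using hH

theorem card_le {C₀ M : ℕ} {g : ℕ → ℕ} (h : Bdr C₀ g r M)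
    {A : Finset (Submodule ℝ (Fin r → ℝ))} (hA : IsArrangement A) (hs : IsSimplicial A)
    (hi : IsIrreducible A) (h3 : H3r C₀ g (Final.Rt A)) : A.card ≤ M := by
  obtain ⟨v, hv⟩ := Final.exists_compl hA
  obtain ⟨f, w, hw, hf, -, hsign⟩ := Final.chamber hs hv
  have hch := hw.isCh hf hsign
  have hcard : (Finset.univ.image f).card = r := by
    rw [Finset.card_image_of_injective _ hw.inj, Finset.card_univ, Fintype.card_fin]
  exact (card_le_nl_Rt hA hs).trans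
    (h _ _ _ _ _ h3 (Final.sys hA hs) hch (hw.conn hA hs hi hch) hcard)

end MRel

open MRel in
theorem minors (N : ℕ) :
    ∃ L : Set (Σ n : ℕ, Finset (Submodule ℝ (Fin n → ℝ))), L.Finite ∧
      ∀ n, 3 ≤ n → ∀ A : Finset (Submodule ℝ (Fin n → ℝ)), IsSporadic A →
        (∀ B, IsMinor A B → IsSporadic B → B.card ≤ N) → ∃ C ∈ L, CombEq A C.2 := by
  obtain ⟨C₀, g, hT⟩ := tame1 N
  have hbd : ∀ n, 3 ≤ n → ∃ M, ∀ A : Finset (Submodule ℝ (Fin n → ℝ)), IsSporadic A →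
      (∀ B, IsMinor A B → IsSporadic B → B.card ≤ N) → A.card ≤ M := by
    intro n hn
    rcases hn.eq_or_lt with rfl | hn
    · exact ⟨N, fun A hA hB => hB A (isMinor_self hA.1) hA⟩
    · obtain ⟨M, hM⟩ := bdr t_FL t_FB t_K C₀ g n hn
      refine ⟨M, fun A hA hB => card_le hM hA.1 hA.2.1 hA.2.2.1 ?_⟩
      intro Q hm ι S κ hQ h hC h3
      exact tameS hQ h hC h3 fun e he hS a1 a2 a3 =>
        hT _ a1 a2 a3 (hB _ (isMinor_of_mnr hA.1 hm hQ h he hS))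
  choose! M hM using hbd
  choose Ls hLs using fun n => t_Fin t_Face n (M n)
  refine ⟨⋃ n ∈ Set.Iio 3000, (fun B => (⟨n, B⟩ : Σ n : ℕ, Finset (Submodule ℝ (Fin n → ℝ)))) ''
    Ls n, (Set.finite_Iio 3000).biUnion fun n _ => (hLs n).1.image _, ?_⟩
  intro n hn A hA hB
  by_cases h2 : 3000 ≤ n
  · exact absurd hA (RGlue.not_sporadic (t_REA t_Lin) (t_RED t_Lin) h2)
  obtain ⟨B, hB', hAB⟩ := (hLs n).2 A (hM n hn A hA hB)
  exact ⟨⟨n, B⟩, Set.mem_biUnion (show n ∈ Set.Iio 3000 from not_le.1 h2) ⟨B, hB', rfl⟩, hAB⟩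

/-- The equivalence with the rank three case follows from `minors`. -/
theorem rankThree_of_minors :
    FinitelyManySporadic (fun n => 3 ≤ n) ↔ FinitelyManySporadic fun n => n = 3 := by
  constructor
  · rintro ⟨L, hL, h⟩
    exact ⟨L, hL, fun n hn => h n (by omega)⟩
  rintro ⟨L, hL, h⟩
  obtain ⟨K, hK⟩ := (hL.image fun B => B.2.card).bddAbove
  obtain ⟨L', hL', h'⟩ := minors (3 ^ K)
  refine ⟨L', hL', fun n hn A hA => h' n hn A hA fun B _ hB => ?_⟩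
  obtain ⟨C, hC, hBC⟩ := h 3 rfl B hB
  exact (RGlue.card_le_of_combEq t_Face hB.1 hBC).trans
    (Nat.pow_le_pow_right (by norm_num) (hK ⟨C, hC, rfl⟩))

end Pool.Agent.SimpArr
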