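import Pool.Agent.P.MP_0b4c38_co.RIface

/-! Reduction to rank three: bounded multiplicities in rank four. -/

set_option autoImplicit false

open Classical

namespace Pool.Agent.SimpArr

namespace RFour

variable {V : Type} [AddCommGroup V] [Module ℝ V] {ι : Type}
variable {R : Set V} {S : Finset ι} {κ : Fam ι V}

theorem nl_le_two (hR : Sys R) (h : IsCh R S κ) {a b : ι} (ha : a ∈ S) (hb : b ∈ S) (hab : a ≠ b)
    (hn : ¬ Adj R S κ a b) : nl (loc R S κ {a, b}) ≤ 2 := by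
  have hsub : ({a, b} : Finset ι) ⊆ S := by
    simp [Finset.insert_subset_iff, ha, hb]
  have hrep : ∀ ρ ∈ loc R S κ {a, b}, ρ = κ.x a ρ • κ.B a + κ.x b ρ • κ.B b := by
    intro ρ hρ
    have := h.repr_sup hsub hρ.1 hρ.2
    rwa [Finset.sum_pair hab] at this
  have he : loc R S κ {a, b} = {ρ | ρ ∈ loc R S κ {a, b} ∧ κ.x b ρ = 0} ∪
      {ρ | ρ ∈ loc R S κ {a, b} ∧ κ.x a ρ = 0} := by
    ext ρ
    constructor
    · intro hρ
      by_contra hc
      simp only [Set.mem_union, Set.mem_ofPred_eq, not_or, not_and] at hc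
      have h1 := hc.1 hρ
      have h2 := hc.2 hρ
      apply hn
      rcases h.sign ρ hρ.1 with h3 | h3
      · exact ⟨hab, ρ, hρ.1, lt_of_le_of_ne (h3 a ha) (Ne.symm h2),
          lt_of_le_of_ne (h3 b hb) (Ne.symm h1), by simpa using hρ.2⟩
      · refine ⟨hab, -ρ, hR.neg_mem hρ.1, ?_, ?_, by simpa using hρ.2.neg⟩
        · rw [map_neg]
          exact neg_pos.mpr (lt_of_le_of_ne (h3 a ha) h2)
        · rw [map_neg]
          exact neg_pos.mpr (lt_of_le_of_ne (h3 b hb) h1)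
    · rintro (hρ | hρ)
      · exact hρ.1
      · exact hρ.1
  rw [he]
  refine (nl_union_le _ _).trans ?_
  have h1 : nl {ρ | ρ ∈ loc R S κ {a, b} ∧ κ.x b ρ = 0} ≤ 1 := by
    apply nl_le_one (u := κ.B a)
    rintro ρ ⟨hρ, h0⟩
    have h2 := hrep ρ hρ
    rw [h0, zero_smul, add_zero] at h2
    refine ⟨κ.x a ρ, fun h3 => hR.ne ρ hρ.1 ?_, h2⟩
    rw [h2, h3, zero_smul]
  have h2 : nl {ρ | ρ ∈ loc R S κ {a, b} ∧ κ.x a ρ = 0} ≤ 1 := by
    apply nl_le_one (u := κ.B b)
    rintro ρ ⟨hρ, h0⟩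
    have h2 := hrep ρ hρ
    rw [h0, zero_smul, zero_add] at h2
    refine ⟨κ.x b ρ, fun h3 => hR.ne ρ hρ.1 ?_, h2⟩
    rw [h2, h3, zero_smul]
  omega

theorem proj_single (h : IsCh R S κ) {a : ι} (ha : a ∈ S) {ρ : V} (hρ : ρ ∈ R) :
    proj S κ {a} ρ = ρ - κ.x a ρ • κ.B a := by
  rw [proj_apply, Finset.sdiff_singleton_eq_erase, eq_sub_iff_add_eq,
    Finset.sum_erase_add S (fun i => κ.x i ρ • κ.B i) ha]
  exact (h.repr ρ hρ).symm

theorem big (hFB : S_FB) (hK : S_K) {C₀ : ℕ} {g : ℕ → ℕ} (H : H3 C₀ g) (hR : Sys R)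
    (h : IsCh R S κ) {a b c d : ι} (hS : ∀ i, i ∈ S ↔ i = a ∨ i = b ∨ i = c ∨ i = d)
    (hab : a ≠ b) (hac : a ≠ c) (had : a ≠ d) (hbc : b ≠ c) (hbd : b ≠ d) (hcd : c ≠ d)
    (hm : 2 * C₀ ^ 4 + C₀ + 2 < nl (loc R S κ {a, b}))
    (hadj : Adj R S κ a c ∨ Adj R S κ b c) :
    C₀ < nl {v | v ∈ con R S κ {a} ∧ κ.x d v = 0} := by
  have ha : a ∈ S := (hS a).mpr (by simp)
  have hb : b ∈ S := (hS b).mpr (by simp)
  have hc : c ∈ S := (hS c).mpr (by simp)
  have hd : d ∈ S := (hS d).mpr (by simp)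
  have hAB : Adj R S κ a b := by
    by_contra hn
    have := nl_le_two hR h ha hb hab hn
    omega
  have hU : ({a, b, c} : Finset ι) ⊆ S := by
    simp [Finset.insert_subset_iff, ha, hb, hc]
  have hB : Sys (loc R S κ {a, b, c}) := hR.loc h _
  have hcB : IsCh (loc R S κ {a, b, c}) {a, b, c} κ := h.loc hU
  have hconn0 : Conn R S κ {a, b, c} := by
    have e : ({a, b, c} : Finset ι) = insert c {a, b} := by
      ext k
      simp only [Finset.mem_insert, Finset.mem_singleton]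
      tauto
    rw [e]
    rcases hadj with h1 | h1
    · exact hAB.conn.insert (by simp) h1
    · exact hAB.conn.insert (by simp) h1
  have hconn : Conn (loc R S κ {a, b, c}) {a, b, c} κ {a, b, c} :=
    (conn_loc hU subset_rfl).mpr hconn0
  have hk := hK V ι _ κ a b c hB hcB hconn hab hac hbc
  have e1 : {ρ | ρ ∈ loc R S κ {a, b, c} ∧ κ.x c ρ = 0} = loc R S κ {a, b} := by
    ext ρ
    constructor
    · rintro ⟨hρ, h0⟩
      refine ⟨hρ.1, fun i hi hi' => ?_⟩
      by_cases hic : i = c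
      · rw [hic]; exact h0
      · apply hρ.2 i hi
        simp only [Finset.mem_insert, Finset.mem_singleton, not_or] at hi' ⊢
        exact ⟨hi'.1, hi'.2, hic⟩
    · intro hρ
      refine ⟨⟨hρ.1, hρ.2.mono ?_⟩, hρ.2 c hc ?_⟩
      · intro k hk
        simp only [Finset.mem_insert, Finset.mem_singleton] at hk ⊢
        tauto
      · simp [hac.symm, hbc.symm]
  have hT := H V ι _ _ κ hB hcB hconn (Finset.card_eq_three.mpr ⟨a, b, c, hab, hac, hbc, rfl⟩)
  have hbound : ∀ ρ ∈ {ρ | ρ ∈ loc R S κ {a, b, c} ∧ κ.x c ρ ≠ 0},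
      nl {v | v ∈ R ∧ v ∈ Submodule.span ℝ {κ.B a, ρ}} ≤ C₀ := by
    rintro ρ ⟨hρ, hρc⟩
    by_contra hlt
    rw [not_le] at hlt
    set φ : V →ₗ[ℝ] ℝ := κ.x c ρ • κ.x b - κ.x b ρ • κ.x c with hφ
    have hφa : φ (κ.B a) = 0 := by
      simp [hφ, h.x_ne hb ha hab.symm, h.x_ne hc ha hac.symm]
    have hφρ : φ ρ = 0 := by
      simp only [hφ, LinearMap.sub_apply, LinearMap.smul_apply, smul_eq_mul]
      ring
    have hφb : φ (κ.B b) ≠ 0 := by
      simpa [hφ, h.x_self hb, h.x_ne hc hb hbc.symm] using hρc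
    have hsub : {v | v ∈ R ∧ v ∈ Submodule.span ℝ {κ.B a, ρ}} ⊆
        {v | v ∈ loc R S κ {a, b, c} ∧ φ v = 0} := by
      rintro v ⟨hv, hv'⟩
      obtain ⟨s, t, rfl⟩ := Submodule.mem_span_pair.mp hv'
      refine ⟨⟨hv, fun i hi hi' => ?_⟩, ?_⟩
      · rw [map_add, map_smul, map_smul, hρ.2 i hi hi',
          h.sup_B ha (Z := {a, b, c}) (by simp) i hi hi']
        simp
      · rw [map_add, map_smul, map_smul, hφa, hφρ]
        simp
    have h1 : C₀ < nl {v | v ∈ loc R S κ {a, b, c} ∧ φ v = 0} :=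
      lt_of_lt_of_le hlt (nl_mono (hB.finL.mono fun _ hv => hv.1) hsub)
    have h2 : C₀ < nl {v | v ∈ loc R S κ {a, b, c} ∧ κ.x c v = 0} := by
      rw [e1]
      omega
    exact hρc ((hT.1 φ (κ.x c) ⟨κ.B b, hcB.mem b (by simp), hφb⟩ ⟨ρ, hρ, hρc⟩ h1 h2 ρ hρ).mp hφρ)
  have hns : ∀ ρ ∈ {ρ | ρ ∈ loc R S κ {a, b, c} ∧ κ.x c ρ ≠ 0}, ¬ Sup S κ {a} ρ := by
    rintro ρ ⟨-, hρc⟩ hs
    exact hρc (hs c hc (by simpa using hac.symm))
  have hfb := hFB V ι R S κ a _ C₀ hR h ha (fun _ hρ => hρ.1.1) hns hbound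
  have hsub2 : proj S κ {a} '' {ρ | ρ ∈ loc R S κ {a, b, c} ∧ κ.x c ρ ≠ 0} ⊆
      {v | v ∈ con R S κ {a} ∧ κ.x d v = 0} := by
    rintro _ ⟨ρ, hρ, rfl⟩
    refine ⟨⟨fun h0 => hns ρ hρ ((h.proj_eq_zero _ _).mp h0), ρ, hρ.1.1, rfl⟩, ?_⟩
    rw [h.x_proj_of ρ hd (by simpa using had.symm)]
    exact hρ.1.2 d hd (by simp [had.symm, hbd.symm, hcd.symm])
  have hle := nl_mono ((hR.con h {a}).finL.mono fun _ hv => hv.1) hsub2
  by_contra hn
  rw [not_lt] at hn
  rw [e1] at hk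
  have h3 : nl {ρ | ρ ∈ loc R S κ {a, b, c} ∧ κ.x c ρ ≠ 0} ≤ C₀ * C₀ :=
    hfb.trans (Nat.mul_le_mul_left _ (hle.trans hn))
  have h4 := Nat.pow_le_pow_left h3 2
  have h5 : (C₀ * C₀) ^ 2 = C₀ ^ 4 := by ring
  omega

theorem main (hFB : S_FB) (hK : S_K) {C₀ : ℕ} {g : ℕ → ℕ} (H : H3 C₀ g) (hR : Sys R)
    (h : IsCh R S κ) (hconn : Conn R S κ S) {a b c d : ι}
    (hS : ∀ i, i ∈ S ↔ i = a ∨ i = b ∨ i = c ∨ i = d)
    (hab : a ≠ b) (hac : a ≠ c) (had : a ≠ d) (hbc : b ≠ c) (hbd : b ≠ d) (hcd : c ≠ d)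
    (hm : 2 * C₀ ^ 4 + C₀ + 2 < nl (loc R S κ {a, b}))
    (hadj : Adj R S κ a c ∨ Adj R S κ b c) : False := by
  have ha : a ∈ S := (hS a).mpr (by simp)
  have hb : b ∈ S := (hS b).mpr (by simp)
  have hc : c ∈ S := (hS c).mpr (by simp)
  have hd : d ∈ S := (hS d).mpr (by simp)
  have hcard : (S \ {a}).card = 3 := by
    refine Finset.card_eq_three.mpr ⟨b, c, d, hbc, hbd, hcd, ?_⟩
    ext k
    simp only [Finset.mem_sdiff, hS, Finset.mem_insert, Finset.mem_singleton]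
    constructor
    · tauto
    · rintro (rfl | rfl | rfl)
      · exact ⟨by simp, hab.symm⟩
      · exact ⟨by simp, hac.symm⟩
      · exact ⟨by simp, had.symm⟩
  have hT := H V ι _ _ κ (hR.con h {a}) (h.con {a}) (Conn.con hR h subset_rfl hconn {a}) hcard
  have hBc : κ.B c ∈ con R S κ {a} :=
    (h.con {a}).mem c (Finset.mem_sdiff.mpr ⟨hc, by simpa using hac.symm⟩)
  have hBd : κ.B d ∈ con R S κ {a} :=
    (h.con {a}).mem d (Finset.mem_sdiff.mpr ⟨hd, by simpa using had.symm⟩)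
  have b1 := big hFB hK H hR h hS hab hac had hbc hbd hcd hm hadj
  have hdd : κ.x d (κ.B d) ≠ 0 := by rw [h.x_self hd]; exact one_ne_zero
  have hcc : κ.x c (κ.B c) ≠ 0 := by rw [h.x_self hc]; exact one_ne_zero
  have hdc : κ.x d (κ.B c) = 0 := h.x_ne hd hc hcd.symm
  by_cases hadj' : Adj R S κ a d ∨ Adj R S κ b d
  · have hS' : ∀ i, i ∈ S ↔ i = a ∨ i = b ∨ i = d ∨ i = c := by
      intro i
      rw [hS]
      tauto
    have b2 := big hFB hK H hR h hS' hab had hac hbd hbc hcd.symm hm hadj'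
    exact hcc ((hT.1 (κ.x d) (κ.x c) ⟨_, hBd, hdd⟩ ⟨_, hBc, hcc⟩ b1 b2 _ hBc).mp hdc)
  · rw [not_or] at hadj'
    obtain ⟨κ', co, h', -, hB, hx, hxd⟩ := cross hR h hd
    have hzero : ∀ j ∈ S, j ≠ d → ¬ Adj R S κ j d → co j = 0 := by
      intro j hj hjd hn
      obtain ⟨h1, h2⟩ := hB j hj hjd
      by_contra h0
      apply hn
      apply h.adj_of_add hj hd hjd (lt_of_le_of_ne h1 (Ne.symm h0))
      rw [← h2]
      exact h'.mem j hj
    have hca := hzero a ha had hadj'.1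
    have hcb := hzero b hb hbd hadj'.2
    have hBa : κ'.B a = κ.B a := by rw [(hB a ha had).2, hca, zero_smul, add_zero]
    have hBb : κ'.B b = κ.B b := by rw [(hB b hb hbd).2, hcb, zero_smul, add_zero]
    have hsub : ({a, b} : Finset ι) ⊆ S := by
      simp [Finset.insert_subset_iff, ha, hb]
    have hJ : ∀ j ∈ ({a, b} : Finset ι), κ'.B j = κ.B j := by
      intro j hj
      rcases Finset.mem_insert.mp hj with rfl | hj
      · exact hBa
      · rw [Finset.mem_singleton.mp hj]; exact hBb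
    have hloc : loc R S κ' {a, b} = loc R S κ {a, b} := by
      ext ρ
      constructor
      · rintro ⟨hρ, hs⟩
        refine ⟨hρ, fun i hi hi' => ?_⟩
        rw [h'.agree h hsub (fun j hj => (hJ j hj).symm) hρ hs i hi]
        exact hs i hi hi'
      · rintro ⟨hρ, hs⟩
        refine ⟨hρ, fun i hi hi' => ?_⟩
        rw [h.agree h' hsub hJ hρ hs i hi]
        exact hs i hi hi'
    have hpr : ∀ ρ ∈ R, proj S κ' {a} ρ = proj S κ {a} ρ := by
      intro ρ hρ
      rw [proj_single h' ha hρ, proj_single h ha hρ, hBa, hx a ha had]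
    have hcon : con R S κ' {a} = con R S κ {a} := by
      ext v
      constructor
      · rintro ⟨h0, ρ, hρ, rfl⟩
        exact ⟨h0, ρ, hρ, hpr ρ hρ⟩
      · rintro ⟨h0, ρ, hρ, rfl⟩
        exact ⟨h0, ρ, hρ, (hpr ρ hρ).symm⟩
    have hCD : Adj R S κ c d := by
      obtain ⟨i, hi, j, hj, hj', hij⟩ := hconn {d} (by simpa using hd) (by simp) (by
        intro e
        have : a ∈ ({d} : Finset ι) := e ▸ ha
        exact had (by simpa using this))
      rw [Finset.mem_singleton] at hi hj'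
      subst hi
      rcases (hS j).mp hj with rfl | rfl | rfl | rfl
      · exact absurd hij.symm hadj'.1
      · exact absurd hij.symm hadj'.2
      · exact hij.symm
      · exact absurd rfl hj'
    have hco : 0 < co c := by
      obtain ⟨-, ρ, hρ, p1, p2, hs⟩ := hCD
      have hs' : Sup S κ {c, d} ρ := by simpa using hs
      have := h'.nonneg hρ hc (by rwa [hx c hc hcd]) d hd
      rw [hxd ρ hρ, sum_erase_pair hc hcd hs'] at this
      by_contra hn
      have := mul_nonpos_of_nonpos_of_nonneg (not_lt.mp hn) p1.le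
      linarith
    have hna : ∀ j ∈ S, j ≠ d → co j = 0 → ¬ Adj R S κ' j d := by
      rintro j hj hjd h0 ⟨-, ρ, hρ, p1, p2, hs⟩
      have hs' : Sup S κ {j, d} ρ := by
        intro i hi hi'
        have hid : i ≠ d := by
          intro e
          exact hi' (by simp [e])
        rw [← hx i hi hid]
        exact hs i hi (by simpa using hi')
      rw [hx j hj hjd] at p1
      have := h.nonneg hρ hj p1 d hd
      rw [hxd ρ hρ, sum_erase_pair hj hjd hs', h0, zero_mul] at p2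
      linarith
    have hconn' : Conn R S κ' S := conn_indep hR h h' hconn
    have hadj2 : Adj R S κ' a c ∨ Adj R S κ' b c := by
      obtain ⟨i, hi, j, hj, hj', hij⟩ := hconn' {a, b} hsub (by simp) (by
        intro e
        have : c ∈ ({a, b} : Finset ι) := e ▸ hc
        simp [hac.symm, hbc.symm] at this)
      simp only [Finset.mem_insert, Finset.mem_singleton, not_or] at hi hj'
      rcases (hS j).mp hj with rfl | rfl | rfl | rfl
      · exact absurd rfl hj'.1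
      · exact absurd rfl hj'.2
      · rcases hi with rfl | rfl
        · exact Or.inl hij
        · exact Or.inr hij
      · rcases hi with rfl | rfl
        · exact absurd hij (hna _ ha had hca)
        · exact absurd hij (hna _ hb hbd hcb)
    have b2 := big hFB hK H hR h' hS hab hac had hbc hbd hcd (by rwa [hloc]) hadj2
    rw [hcon] at b2
    have hxB : κ'.x d (κ.B c) = co c := by
      rw [hxd _ (h.mem c hc), sum_erase_pair hc hcd (h.sup_B hc (by simp)), h.x_self hc, hdc]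
      ring
    have hne : κ'.x d (κ.B c) ≠ 0 := by rw [hxB]; exact hco.ne'
    exact hne ((hT.1 (κ.x d) (κ'.x d) ⟨_, hBd, hdd⟩ ⟨_, hBc, hne⟩ b1 b2 _ hBc).mp hdc)

end RFour

theorem t_R4 (hFB : S_FB) (hK : S_K) : S_R4 := by
  intro C₀ g H
  refine ⟨2 * C₀ ^ 4 + C₀ + 2, ?_⟩
  intro V _ _ ι R κ a b c d hR h hconn hab hac had hbc hbd hcd
  by_contra hm
  rw [not_le] at hm
  obtain ⟨i, hi, j, hj, hj', hij⟩ := hconn {a, b} (by simp [Finset.insert_subset_iff]) (by simp) (by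
    intro e
    have : c ∈ ({a, b} : Finset ι) := e ▸ (by simp)
    simp [hac.symm, hbc.symm] at this)
  simp only [Finset.mem_insert, Finset.mem_singleton, not_or] at hi hj hj'
  rcases hj with rfl | rfl | rfl | rfl
  · exact absurd rfl hj'.1
  · exact absurd rfl hj'.2
  · refine RFour.main hFB hK H hR h hconn (c := j) (d := d) (by simp) hab hac had hbc hbd hcd hm ?_
    rcases hi with rfl | rfl
    · exact Or.inl hij
    · exact Or.inr hij
  · refine RFour.main hFB hK H hR h hconn (c := j) (d := c) ?_ hab had hac hbd hbc hcd.symm hm ?_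
    · intro k
      simp only [Finset.mem_insert, Finset.mem_singleton]
      tauto
    · rcases hi with rfl | rfl
      · exact Or.inl hij
      · exact Or.inr hij

end Pool.Agent.SimpArr
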