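import Pool.Agent.P.MP_0b4c38_co.Final
import Pool.Agent.P.MP_0b4c38_co.Arr2

/-! Reduction to rank three: statements of the parts. -/

set_option autoImplicit false

open Classical

namespace Pool.Agent.SimpArr

/-- The number of lines spanned by elements of `R`. -/
noncomputable def nl {V : Type} [AddCommGroup V] [Module ℝ V] (R : Set V) : ℕ :=
  ((fun ρ => Submodule.span ℝ {ρ}) '' R).ncard

/-- Every plane spanned by two roots contains at most `C` lines of roots. -/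
def Mu2 {V : Type} [AddCommGroup V] [Module ℝ V] (R : Set V) (C : ℕ) : Prop :=
  ∀ ρ ∈ R, ∀ σ ∈ R, nl {v | v ∈ R ∧ v ∈ Submodule.span ℝ {ρ, σ}} ≤ C

/-- Tameness of a root set: at most one big point, and the size is bounded by `g` of the
largest multiplicity. -/
def TameS {V : Type} [AddCommGroup V] [Module ℝ V] (C₀ : ℕ) (g : ℕ → ℕ) (R : Set V) : Prop :=
  (∀ φ ψ : V →ₗ[ℝ] ℝ, (∃ ρ ∈ R, φ ρ ≠ 0) → (∃ ρ ∈ R, ψ ρ ≠ 0) →
      C₀ < nl {ρ | ρ ∈ R ∧ φ ρ = 0} → C₀ < nl {ρ | ρ ∈ R ∧ ψ ρ = 0} →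
      ∀ ρ ∈ R, φ ρ = 0 ↔ ψ ρ = 0) ∧
    ∀ C : ℕ, (∀ φ : V →ₗ[ℝ] ℝ, (∃ ρ ∈ R, φ ρ ≠ 0) → nl {ρ | ρ ∈ R ∧ φ ρ = 0} ≤ C) → nl R ≤ g C

/-- All irreducible systems of rank three are tame. -/
def H3 (C₀ : ℕ) (g : ℕ → ℕ) : Prop :=
  ∀ (V : Type) [AddCommGroup V] [Module ℝ V] (ι : Type) (R : Set V) (S : Finset ι) (κ : Fam ι V),
    Sys R → IsCh R S κ → Conn R S κ S → S.card = 3 → TameS C₀ g R

/-- All irreducible systems of rank `r` have at most `M` lines. -/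
def Bd (r M : ℕ) : Prop :=
  ∀ (V : Type) [AddCommGroup V] [Module ℝ V] (ι : Type) (R : Set V) (S : Finset ι) (κ : Fam ι V),
    Sys R → IsCh R S κ → Conn R S κ S → S.card = r → nl R ≤ M

/-- The number of hyperplanes through `w`. -/
noncomputable def mult {r : ℕ} (A : Finset (Submodule ℝ (Fin r → ℝ))) (w : Fin r → ℝ) : ℕ :=
  (A.filter fun H => w ∈ H).card

/-- Tameness of an arrangement. -/
def Tame {r : ℕ} (C₀ : ℕ) (g : ℕ → ℕ) (A : Finset (Submodule ℝ (Fin r → ℝ))) : Prop :=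
  (∃ x : Fin r → ℝ, ∀ w, (∀ c : ℝ, w ≠ c • x) → mult A w ≤ C₀) ∧
    ∀ C : ℕ, (∀ w, w ≠ 0 → mult A w ≤ C) → A.card ≤ g C

/-- The number of faces containing the face `F`. -/
noncomputable def updeg {r : ℕ} (A : Finset (Submodule ℝ (Fin r → ℝ))) (F : Face A) : ℕ :=
  {F' : Face A | F ≤ F'}.ncard

/-- The face of a point. -/
def faceOf {r : ℕ} (A : Finset (Submodule ℝ (Fin r → ℝ))) (v : Fin r → ℝ) : Face A :=
  ⟨closure (cell A v), v, rfl⟩

/-- Every flat is a localization at some chamber. -/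
def S_FL : Prop :=
  ∀ (V : Type) [AddCommGroup V] [Module ℝ V] (R : Set V) (U : Submodule ℝ V), Sys R →
    ∃ (T J : Finset V) (κ : Fam V V), IsCh R T κ ∧ J ⊆ T ∧ loc R T κ J = {ρ | ρ ∈ R ∧ ρ ∈ U}

/-- Fibre bound for the contraction of one simple root. -/
def S_FB : Prop :=
  ∀ (V : Type) [AddCommGroup V] [Module ℝ V] (ι : Type) (R : Set V) (S : Finset ι) (κ : Fam ι V)
    (a : ι) (Q : Set V) (C : ℕ), Sys R → IsCh R S κ → a ∈ S → Q ⊆ R → (∀ ρ ∈ Q, ¬ Sup S κ {a} ρ) →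
    (∀ ρ ∈ Q, nl {v | v ∈ R ∧ v ∈ Submodule.span ℝ {κ.B a, ρ}} ≤ C) →
    nl Q ≤ C * nl (proj S κ {a} '' Q)

/-- In an irreducible system of rank three many roots avoid a point of large multiplicity. -/
def S_K : Prop :=
  ∀ (V : Type) [AddCommGroup V] [Module ℝ V] (ι : Type) (R : Set V) (κ : Fam ι V) (a b c : ι),
    Sys R → IsCh R {a, b, c} κ → Conn R {a, b, c} κ {a, b, c} → a ≠ b → a ≠ c → b ≠ c →
    nl {ρ | ρ ∈ R ∧ κ.x c ρ = 0} ≤ 2 * nl {ρ | ρ ∈ R ∧ κ.x c ρ ≠ 0} ^ 2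

/-- Bounded multiplicities in rank four. -/
def S_R4 : Prop :=
  ∀ (C₀ : ℕ) (g : ℕ → ℕ), H3 C₀ g → ∃ C₁ : ℕ,
    ∀ (V : Type) [AddCommGroup V] [Module ℝ V] (ι : Type) (R : Set V) (κ : Fam ι V) (a b c d : ι),
      Sys R → IsCh R {a, b, c, d} κ → Conn R {a, b, c, d} κ {a, b, c, d} →
      a ≠ b → a ≠ c → a ≠ d → b ≠ c → b ≠ d → c ≠ d →
      nl (loc R {a, b, c, d} κ {a, b}) ≤ C₁

/-- Bounded size in rank four. -/
def S_B4 : Prop := ∀ (C₀ : ℕ) (g : ℕ → ℕ), H3 C₀ g → ∃ M, Bd 4 M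

/-- Induction on the rank. -/
def S_Ind : Prop := ∀ r M : ℕ, 3 ≤ r → Bd r M → Bd (r + 1) (1 + M * M)

/-- A system of rank `r` comes from an arrangement in `ℝ^r`. -/
def S_RB : Prop :=
  ∀ (V : Type) [AddCommGroup V] [Module ℝ V] (ι : Type) (R : Set V) (S : Finset ι) (κ : Fam ι V)
    (r : ℕ) (e : Fin r → ι), Sys R → IsCh R S κ → Conn R S κ S → Function.Injective e →
    S = Finset.univ.image e → ∀ A : Finset (Submodule ℝ (Fin r → ℝ)),
    (∀ H, H ∈ A ↔ ∃ ρ ∈ R, ∀ v : Fin r → ℝ, v ∈ H ↔ ∑ i, κ.x (e i) ρ * v i = 0) →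
    IsArrangement A ∧ IsSimplicial A ∧ IsIrreducible A

/-- Tameness of arrangements gives tameness of systems. -/
def S_H3 : Prop :=
  ∀ (C₀ : ℕ) (g : ℕ → ℕ),
    (∀ A : Finset (Submodule ℝ (Fin 3 → ℝ)), IsArrangement A → IsSimplicial A → IsIrreducible A →
      Tame C₀ g A) → H3 C₀ g

/-- Counting faces. -/
def S_Face : Prop :=
  ∀ (r : ℕ) (A : Finset (Submodule ℝ (Fin r → ℝ))),
    (Face A).Finite ∧ (Face A).ncard ≤ 3 ^ A.card ∧
    (∀ v, updeg A (faceOf A v) ≤ 3 ^ mult A v) ∧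
    ((∀ H ∈ A, Module.finrank ℝ H + 1 = r) → ∀ v, mult A v ≤ updeg A (faceOf A v))

/-- Finitely many classes with a bounded number of hyperplanes. -/
def S_Fin : Prop :=
  ∀ r M : ℕ, ∃ L : Set (Finset (Submodule ℝ (Fin r → ℝ))), L.Finite ∧
    ∀ A : Finset (Submodule ℝ (Fin r → ℝ)), A.card ≤ M → ∃ B ∈ L, CombEq A B

/-- Linearly isomorphic arrangements are combinatorially equivalent. -/
def S_Lin : Prop :=
  ∀ (r : ℕ) (A B : Finset (Submodule ℝ (Fin r → ℝ))) (g : (Fin r → ℝ) ≃ₗ[ℝ] (Fin r → ℝ)),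
    (∀ H : Submodule ℝ (Fin r → ℝ), H ∈ A ↔ H.map (g : (Fin r → ℝ) →ₗ[ℝ] (Fin r → ℝ)) ∈ B) →
    CombEq A B

/-- Tameness is a combinatorial property. -/
def S_Trans : Prop :=
  ∀ (C₀ : ℕ) (g : ℕ → ℕ) (A B : Finset (Submodule ℝ (Fin 3 → ℝ))), IsArrangement A →
    IsArrangement B → CombEq A B → Tame C₀ g B →
    Tame (3 ^ C₀ + 1) (fun C => 3 ^ g (3 ^ C)) A

/-- Reflection arrangements of rank three are tame. -/
def S_Refl : Prop :=
  ∃ N : ℕ, ∀ B : Finset (Submodule ℝ (Fin 3 → ℝ)), IsReflArr B →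
    IsArrangement B ∧ Tame N (fun C => C + N) B

/-- The regular families are tame. -/
def S_Reg : Prop :=
  ∀ B : Finset (Submodule ℝ (Fin 3 → ℝ)), IsRegular B →
    IsArrangement B ∧ Tame 4 (fun C => 2 * C + 1) B

/-- Type `A` is a reflection arrangement. -/
def S_REA : Prop :=
  ∀ (r : ℕ) (A : Finset (Submodule ℝ (Fin r → ℝ))), 1 ≤ r → IsTypeA A →
    ∃ B : Finset (Submodule ℝ (Fin r → ℝ)), IsReflArr B ∧ CombEq A B

/-- Types `D` and `B` are reflection arrangements. -/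
def S_RED : Prop :=
  ∀ (r k : ℕ) (A : Finset (Submodule ℝ (Fin r → ℝ))), 2 ≤ r → k ≤ r → IsTypeDB k A →
    ∃ B : Finset (Submodule ℝ (Fin r → ℝ)), IsArk k B ∧ CombEq A B ∧
      (k = 0 ∨ k = r → IsReflArr B)

section Basic

variable {V : Type} [AddCommGroup V] [Module ℝ V] {ι : Type}

/-- Finitely many lines. -/
def FinL (R : Set V) : Prop := ((fun ρ => Submodule.span ℝ {ρ}) '' R).Finite

theorem FinL.mono {Q R : Set V} (h : FinL R) (hQ : Q ⊆ R) : FinL Q :=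
  Set.Finite.subset h (Set.image_mono hQ)

theorem Sys.finL {R : Set V} (hR : Sys R) : FinL R := by
  obtain ⟨F, hF⟩ := hR.fin
  refine ((F.finite_toSet).image fun ρ => Submodule.span ℝ {ρ}).subset ?_
  rintro _ ⟨ρ, hρ, rfl⟩
  obtain ⟨f, hf, c, hc⟩ := hF ρ hρ
  have hc0 : c ≠ 0 := by
    rintro rfl
    exact hR.ne ρ hρ (by rw [hc, zero_smul])
  exact ⟨f, hf, by
    show Submodule.span ℝ {f} = Submodule.span ℝ {ρ}
    rw [hc, Submodule.span_singleton_smul_eq (IsUnit.mk0 c hc0)]⟩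

theorem nl_mono {Q R : Set V} (h : FinL R) (hQ : Q ⊆ R) : nl Q ≤ nl R :=
  Set.ncard_le_ncard (Set.image_mono hQ) h

theorem nl_union_le (Q R : Set V) : nl (Q ∪ R) ≤ nl Q + nl R := by
  unfold nl
  rw [Set.image_union]
  exact Set.ncard_union_le _ _

theorem nl_empty : nl (∅ : Set V) = 0 := by simp [nl]

/-- Nonzero multiples of one vector span at most one line. -/
theorem nl_le_one {Q : Set V} {u : V} (h : ∀ v ∈ Q, ∃ c : ℝ, c ≠ 0 ∧ v = c • u) : nl Q ≤ 1 := by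
  have h1 : ((fun ρ => Submodule.span ℝ {ρ}) '' Q) ⊆ {Submodule.span ℝ {u}} := by
    rintro _ ⟨v, hv, rfl⟩
    obtain ⟨c, hc, rfl⟩ := h v hv
    exact Submodule.span_singleton_smul_eq (IsUnit.mk0 c hc) u
  unfold nl
  simpa using Set.ncard_le_ncard h1 (Set.finite_singleton _)

theorem lines_image {W : Type} [AddCommGroup W] [Module ℝ W] (π : V →ₗ[ℝ] W) (Q : Set V) :
    ((fun ρ => Submodule.span ℝ {ρ}) '' (π '' Q)) =
      Submodule.map π '' ((fun ρ => Submodule.span ℝ {ρ}) '' Q) := by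
  rw [Set.image_image, Set.image_image]
  refine Set.image_congr fun v _ => ?_
  rw [Submodule.map_span, Set.image_singleton]

theorem FinL.image {W : Type} [AddCommGroup W] [Module ℝ W] {Q : Set V} (h : FinL Q)
    (π : V →ₗ[ℝ] W) : FinL (π '' Q) := by
  unfold FinL
  rw [lines_image]
  exact Set.Finite.image _ h

theorem nl_image_le {W : Type} [AddCommGroup W] [Module ℝ W] {Q : Set V} (h : FinL Q)
    (π : V →ₗ[ℝ] W) : nl (π '' Q) ≤ nl Q := by
  unfold nl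
  rw [lines_image]
  exact Set.ncard_image_le h

/-- Pairwise non proportional vectors give a lower bound. -/
theorem card_le_nl {Q : Set V} (h : FinL Q) {α : Type} (T : Finset α) (u : α → V)
    (hu : ∀ t ∈ T, u t ∈ Q)
    (hinj : ∀ t ∈ T, ∀ t' ∈ T, Submodule.span ℝ {u t} = Submodule.span ℝ {u t'} → t = t') :
    T.card ≤ nl Q := by
  rw [← Set.ncard_coe_finset]
  exact Set.ncard_le_ncard_of_injOn (fun t => Submodule.span ℝ {u t})
    (fun t ht => ⟨u t, hu t ht, rfl⟩) (fun t ht t' ht' he => hinj t ht t' ht' he) h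

end Basic

end Pool.Agent.SimpArr
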