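import Pool.Agent.P.MP_0b4c38_co.RIface

/-! The regular families are tame. -/

set_option autoImplicit false

open Classical

namespace Pool.Agent.SimpArr

namespace RReg

open Real

/-- The linear form with coefficients `a, b, c`. -/
noncomputable def form (a b c : ℝ) : (Fin 3 → ℝ) →ₗ[ℝ] ℝ :=
  a • LinearMap.proj 0 + b • LinearMap.proj 1 + c • LinearMap.proj 2

/-- The plane with coefficients `a, b, c`. -/
noncomputable def hyp (a b c : ℝ) : Submodule ℝ (Fin 3 → ℝ) := LinearMap.ker (form a b c)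

theorem form_apply (a b c : ℝ) (v : Fin 3 → ℝ) : form a b c v = a * v 0 + b * v 1 + c * v 2 := by
  simp [form]

theorem mem_hyp (a b c : ℝ) (v : Fin 3 → ℝ) :
    v ∈ hyp a b c ↔ a * v 0 + b * v 1 + c * v 2 = 0 := by
  rw [hyp, LinearMap.mem_ker, form_apply]

theorem finrank_hyp (a b c : ℝ) (h : a ≠ 0 ∨ b ≠ 0 ∨ c ≠ 0) :
    Module.finrank ℝ (hyp a b c) + 1 = 3 := by
  have hne : form a b c ≠ 0 := by
    intro h0
    have h1 := LinearMap.congr_fun h0 ![1, 0, 0]
    have h2 := LinearMap.congr_fun h0 ![0, 1, 0]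
    have h3 := LinearMap.congr_fun h0 ![0, 0, 1]
    rw [form_apply] at h1 h2 h3
    simp at h1 h2 h3
    rcases h with h | h | h
    · exact h h1
    · exact h h2
    · exact h h3
  have := Module.Dual.finrank_ker_add_one_of_ne_zero (f := form a b c) hne
  rw [Module.finrank_fin_fun] at this
  exact this

/-- The side lines. -/
noncomputable def side (n j : ℕ) : Submodule ℝ (Fin 3 → ℝ) :=
  hyp (cos (2 * π * j / n)) (sin (2 * π * j / n)) (-1)

/-- The symmetry axes. -/
noncomputable def axis (n j : ℕ) : Submodule ℝ (Fin 3 → ℝ) :=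
  hyp (sin (π * j / n)) (-cos (π * j / n)) 0

theorem polyLine_iff (n : ℕ) (H : Submodule ℝ (Fin 3 → ℝ)) :
    PolyLine n H ↔ ∃ j < n, H = side n j ∨ H = axis n j := by
  have e1 : ∀ j : ℕ, (∀ v, v ∈ H ↔ cos (2 * π * j / n) * v 0 + sin (2 * π * j / n) * v 1 = v 2) ↔
      H = side n j := by
    intro j
    rw [Submodule.ext_iff]
    refine forall_congr' fun v => ?_
    rw [side, mem_hyp]
    refine iff_congr Iff.rfl ⟨fun h => by linarith, fun h => by linarith⟩
  have e2 : ∀ j : ℕ, (∀ v, v ∈ H ↔ sin (π * j / n) * v 0 = cos (π * j / n) * v 1) ↔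
      H = axis n j := by
    intro j
    rw [Submodule.ext_iff]
    refine forall_congr' fun v => ?_
    rw [axis, mem_hyp]
    refine iff_congr Iff.rfl ⟨fun h => by linarith, fun h => by linarith⟩
  unfold PolyLine
  simp only [e1, e2]

theorem inf_iff (H : Submodule ℝ (Fin 3 → ℝ)) :
    (∀ v, v ∈ H ↔ v 2 = 0) ↔ H = hyp 0 0 1 := by
  rw [Submodule.ext_iff]
  refine forall_congr' fun v => ?_
  rw [mem_hyp]
  refine iff_congr Iff.rfl ⟨fun h => by linarith, fun h => by linarith⟩

theorem finrank_axis (n j : ℕ) : Module.finrank ℝ (axis n j) + 1 = 3 := by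
  apply finrank_hyp
  by_contra hc
  push Not at hc
  obtain ⟨h1, h2, -⟩ := hc
  have h3 := sin_sq_add_cos_sq (π * j / n)
  rw [h1, neg_eq_zero.mp h2] at h3
  norm_num at h3

theorem axis_eq (c s : ℝ) (w : Fin 3 → ℝ) (hcs : s ^ 2 + c ^ 2 = 1)
    (hw : 0 < w 0 ^ 2 + w 1 ^ 2) (hm : w ∈ hyp s (-c) 0) :
    hyp s (-c) 0 = hyp (w 1) (-w 0) 0 := by
  rw [mem_hyp] at hm
  have h0 : w 0 = (c * w 0 + s * w 1) * c := by linear_combination s * hm - w 0 * hcs
  have h1 : w 1 = (c * w 0 + s * w 1) * s := by linear_combination (-c) * hm - w 1 * hcs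
  have ht : c * w 0 + s * w 1 ≠ 0 := by
    intro ht
    rw [ht, zero_mul] at h0 h1
    rw [h0, h1] at hw
    norm_num at hw
  ext v
  rw [mem_hyp, mem_hyp]
  generalize c * w 0 + s * w 1 = t at h0 h1 ht
  rw [h0, h1]
  constructor
  · intro h
    linear_combination t * h
  · intro h
    have h2 : t * (s * v 0 + -c * v 1 + 0 * v 2) = 0 := by linear_combination h
    exact (mul_eq_zero.mp h2).resolve_left ht

/-- The two tangent lines through a point. -/
noncomputable def tang (w : Fin 3 → ℝ) (q : ℝ) : Submodule ℝ (Fin 3 → ℝ) :=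
  hyp ((w 2 * w 0 + q * w 1) / (w 0 ^ 2 + w 1 ^ 2)) ((w 2 * w 1 - q * w 0) / (w 0 ^ 2 + w 1 ^ 2))
    (-1)

theorem side_eq (c s : ℝ) (w : Fin 3 → ℝ) (hcs : s ^ 2 + c ^ 2 = 1)
    (hw : 0 < w 0 ^ 2 + w 1 ^ 2) (hm : w ∈ hyp c s (-1)) :
    hyp c s (-1) = tang w (√(w 0 ^ 2 + w 1 ^ 2 - w 2 ^ 2)) ∨
      hyp c s (-1) = tang w (-√(w 0 ^ 2 + w 1 ^ 2 - w 2 ^ 2)) := by
  rw [mem_hyp] at hm
  have hw2 : w 2 = c * w 0 + s * w 1 := by linarith
  have hq : w 0 ^ 2 + w 1 ^ 2 - w 2 ^ 2 = (c * w 1 - s * w 0) ^ 2 := by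
    rw [hw2]
    linear_combination (-(w 0 ^ 2 + w 1 ^ 2)) * hcs
  have hmain : hyp c s (-1) = tang w (c * w 1 - s * w 0) := by
    have e1 : (w 2 * w 0 + (c * w 1 - s * w 0) * w 1) / (w 0 ^ 2 + w 1 ^ 2) = c := by
      rw [div_eq_iff hw.ne', hw2]
      ring
    have e2 : (w 2 * w 1 - (c * w 1 - s * w 0) * w 0) / (w 0 ^ 2 + w 1 ^ 2) = s := by
      rw [div_eq_iff hw.ne', hw2]
      ring
    rw [tang, e1, e2]
  rw [hq, sqrt_sq_eq_abs]
  rcases le_total 0 (c * w 1 - s * w 0) with h | h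
  · left
    rw [abs_of_nonneg h]
    exact hmain
  · right
    rw [abs_of_nonpos h, neg_neg]
    exact hmain

theorem axis_inj (n : ℕ) (j k : ℕ) (hj : j < n) (hk : k < n) (h : axis n j = axis n k) :
    j = k := by
  have hn : (0 : ℝ) < n := by exact_mod_cast lt_of_le_of_lt (Nat.zero_le j) hj
  have hj' : (j : ℝ) < n := by exact_mod_cast hj
  have hk' : (k : ℝ) < n := by exact_mod_cast hk
  have hj0 : (0 : ℝ) ≤ j := Nat.cast_nonneg j
  have hk0 : (0 : ℝ) ≤ k := Nat.cast_nonneg k
  have hm : (![cos (π * j / n), sin (π * j / n), 0] : Fin 3 → ℝ) ∈ axis n j := by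
    rw [axis, mem_hyp]
    simp
    ring
  rw [h, axis, mem_hyp] at hm
  simp only [Matrix.cons_val_zero, Matrix.cons_val_one, Matrix.cons_val] at hm
  have hs : sin (π * k / n - π * j / n) = 0 := by
    rw [sin_sub]
    linarith
  have e : π * k / n - π * j / n = π * (((k : ℝ) - j) / n) := by ring
  have hlt : ((k : ℝ) - j) / n < 1 := by
    rw [div_lt_one hn]
    linarith
  have hgt : -1 < ((k : ℝ) - j) / n := by
    rw [lt_div_iff₀ hn]
    linarith
  rw [e, sin_eq_zero_iff_of_lt_of_lt (by nlinarith [pi_pos]) (by nlinarith [pi_pos])] at hs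
  have h1 : ((k : ℝ) - j) / n = 0 := (mul_eq_zero.mp hs).resolve_left pi_ne_zero
  have h2 : (k : ℝ) - j = 0 := (div_eq_zero_iff.mp h1).resolve_right hn.ne'
  have h3 : (j : ℝ) = k := by linarith
  exact_mod_cast h3

theorem main (B : Finset (Submodule ℝ (Fin 3 → ℝ))) (n : ℕ) (hn : 3 ≤ n)
    (h1 : ∀ H ∈ B, PolyLine n H ∨ H = hyp 0 0 1) (h2 : ∀ H, PolyLine n H → H ∈ B) :
    IsArrangement B ∧ Tame 4 (fun C => 2 * C + 1) B := by
  have hside : ∀ j < n, side n j ∈ B := fun j hj =>
    h2 _ ((polyLine_iff n _).mpr ⟨j, hj, Or.inl rfl⟩)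
  have haxis : ∀ j < n, axis n j ∈ B := fun j hj =>
    h2 _ ((polyLine_iff n _).mpr ⟨j, hj, Or.inr rfl⟩)
  have hcases : ∀ H ∈ B, (∃ j < n, H = side n j) ∨ (∃ j < n, H = axis n j) ∨ H = hyp 0 0 1 := by
    intro H hH
    rcases h1 H hH with h | h
    · obtain ⟨j, hj, h | h⟩ := (polyLine_iff n H).mp h
      · exact Or.inl ⟨j, hj, h⟩
      · exact Or.inr (Or.inl ⟨j, hj, h⟩)
    · exact Or.inr (Or.inr h)
  have hnR : (3 : ℝ) ≤ n := by exact_mod_cast hn
  refine ⟨⟨?_, ?_⟩, ⟨![0, 0, 1], ?_⟩, ?_⟩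
  · intro H hH
    rcases hcases H hH with ⟨j, -, rfl⟩ | ⟨j, -, rfl⟩ | rfl
    · exact finrank_hyp _ _ _ (Or.inr (Or.inr (by norm_num)))
    · exact finrank_axis n j
    · exact finrank_hyp _ _ _ (Or.inr (Or.inr one_ne_zero))
  · intro v hv
    have a0 := hv _ (haxis 0 (by omega))
    have a1 := hv _ (haxis 1 (by omega))
    have s0 := hv _ (hside 0 (by omega))
    rw [axis, mem_hyp] at a0 a1
    rw [side, mem_hyp] at s0
    have hv1 : v 1 = 0 := by simpa using a0
    have hsin : 0 < sin (π * ((1 : ℕ) : ℝ) / n) := by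
      apply sin_pos_of_pos_of_lt_pi
      · have := pi_pos
        positivity
      · rw [div_lt_iff₀ (by linarith)]
        push_cast
        nlinarith [pi_pos]
    have hv0 : v 0 = 0 := by
      rw [hv1] at a1
      have : sin (π * ((1 : ℕ) : ℝ) / n) * v 0 = 0 := by linarith
      exact (mul_eq_zero.mp this).resolve_left hsin.ne'
    have hv2 : v 2 = 0 := by
      rw [hv0, hv1] at s0
      linarith
    funext i
    fin_cases i
    · exact hv0
    · exact hv1
    · exact hv2
  · intro w hw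
    have hw' : 0 < w 0 ^ 2 + w 1 ^ 2 := by
      by_contra hc
      have e0 : w 0 = 0 := by nlinarith [sq_nonneg (w 0), sq_nonneg (w 1)]
      have e1 : w 1 = 0 := by nlinarith [sq_nonneg (w 0), sq_nonneg (w 1)]
      apply hw (w 2)
      funext i
      fin_cases i
      · simpa using e0
      · simpa using e1
      · simp
    have hsub : (B.filter fun H => w ∈ H) ⊆
        {tang w (√(w 0 ^ 2 + w 1 ^ 2 - w 2 ^ 2)), tang w (-√(w 0 ^ 2 + w 1 ^ 2 - w 2 ^ 2)),
          hyp (w 1) (-w 0) 0, hyp 0 0 1} := by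
      intro H hH
      rw [Finset.mem_filter] at hH
      simp only [Finset.mem_insert, Finset.mem_singleton]
      rcases hcases H hH.1 with ⟨j, -, rfl⟩ | ⟨j, -, rfl⟩ | rfl
      · rcases side_eq _ _ w (sin_sq_add_cos_sq _) hw' hH.2 with h | h
        · exact Or.inl h
        · exact Or.inr (Or.inl h)
      · exact Or.inr (Or.inr (Or.inl (axis_eq _ _ w (sin_sq_add_cos_sq _) hw' hH.2)))
      · exact Or.inr (Or.inr (Or.inr rfl))
    exact (Finset.card_le_card hsub).trans Finset.card_le_four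
  · intro C hC
    have hx : (![0, 0, 1] : Fin 3 → ℝ) ≠ 0 := by
      intro h
      have := congrFun h 2
      simp at this
    have hle : n ≤ mult B ![0, 0, 1] := by
      have := Finset.card_le_card_of_injOn (s := Finset.range n)
        (t := B.filter fun H => (![0, 0, 1] : Fin 3 → ℝ) ∈ H) (fun j => axis n j)
        (fun j hj => by
          simp only [Finset.coe_range, Set.mem_Iio] at hj
          simp only [Finset.coe_filter, Set.mem_ofPred_eq]
          refine ⟨haxis j hj, ?_⟩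
          rw [axis, mem_hyp]
          simp)
        (fun j hj k hk h => axis_inj n j k (by simpa using hj) (by simpa using hk) h)
      simpa [mult] using this
    have hsub : B ⊆ insert (hyp 0 0 1)
        ((Finset.range n).image (side n) ∪ (Finset.range n).image (axis n)) := by
      intro H hH
      simp only [Finset.mem_insert, Finset.mem_union, Finset.mem_image, Finset.mem_range]
      rcases hcases H hH with ⟨j, hj, rfl⟩ | ⟨j, hj, rfl⟩ | rfl
      · exact Or.inr (Or.inl ⟨j, hj, rfl⟩)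
      · exact Or.inr (Or.inr ⟨j, hj, rfl⟩)
      · exact Or.inl rfl
    have c1 := Finset.card_le_card hsub
    have c2 := Finset.card_insert_le (hyp 0 0 1)
      ((Finset.range n).image (side n) ∪ (Finset.range n).image (axis n))
    have c3 := Finset.card_union_le ((Finset.range n).image (side n))
      ((Finset.range n).image (axis n))
    have c4 : ((Finset.range n).image (side n)).card ≤ n := by
      simpa using Finset.card_image_le (s := Finset.range n) (f := side n)
    have c5 : ((Finset.range n).image (axis n)).card ≤ n := by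
      simpa using Finset.card_image_le (s := Finset.range n) (f := axis n)
    have c6 := hC _ hx
    show B.card ≤ 2 * C + 1
    omega

end RReg

theorem t_Reg : S_Reg := by
  intro B hB
  rcases hB with ⟨m, hm, h⟩ | ⟨m, hm, h⟩
  · exact RReg.main B m hm (fun H hH => Or.inl ((h H).mp hH)) fun H hH => (h H).mpr hH
  · refine RReg.main B (2 * m) (by omega) (fun H hH => ?_) fun H hH => (h H).mpr (Or.inl hH)
    rcases (h H).mp hH with h1 | h1
    · exact Or.inl h1
    · exact Or.inr ((RReg.inf_iff H).mp h1)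

end Pool.Agent.SimpArr
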