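import Pool.Agent.P.MP_0b4c38_co.GPLem

/-! Simplicial root systems: a large system has a long thread. -/

set_option autoImplicit false

open Classical

namespace Pool.Agent.SimpArr

variable {V : Type} [AddCommGroup V] [Module ℝ V] {ι : Type}
variable {R : Set V} {S : Finset ι} {κ : Fam ι V}

/-- Exploring `M` from `W`, the first `n` steps are forced. -/
structure Run (R : Set V) (S : Finset ι) (κ : Fam ι V) (M W : Finset ι) (z : ℕ → ι) (n : ℕ) :
    Prop where
  mem : ∀ i < n, z i ∈ M
  new : ∀ i < n, z i ∉ W ∪ (Finset.range i).image z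
  adj : ∀ i < n, ∃ w ∈ W ∪ (Finset.range i).image z, Adj R S κ w (z i)
  only : ∀ i < n, ∀ w ∈ W ∪ (Finset.range i).image z, ∀ v ∈ M,
    v ∉ W ∪ (Finset.range i).image z → Adj R S κ w v → v = z i

namespace Run

variable {M W : Finset ι} {z : ℕ → ι} {n : ℕ}

theorem succ_eq (W : Finset ι) (z : ℕ → ι) (i : ℕ) :
    W ∪ (Finset.range (i + 1)).image z = insert (z i) (W ∪ (Finset.range i).image z) := by
  rw [Finset.range_add_one, Finset.image_insert, Finset.union_insert]

theorem conn (h : Run R S κ M W z n) (hW : Conn R S κ W) :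
    ∀ i ≤ n, Conn R S κ (W ∪ (Finset.range i).image z) := by
  intro i hi
  induction i with
  | zero => simpa using hW
  | succ i ih =>
    obtain ⟨w, hw, hadj⟩ := h.adj i (by omega)
    rw [succ_eq]
    exact (ih (by omega)).insert hw hadj

theorem sub (h : Run R S κ M W z n) (hW : W ⊆ M) {i : ℕ} (hi : i ≤ n) :
    W ∪ (Finset.range i).image z ⊆ M := by
  refine Finset.union_subset hW fun v hv => ?_
  obtain ⟨j, hj, rfl⟩ := Finset.mem_image.mp hv
  exact h.mem j (by have := Finset.mem_range.mp hj; omega)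

theorem inj (h : Run R S κ M W z n) : ∀ i < n, ∀ j < n, z i = z j → i = j := by
  have key : ∀ i j, i < j → j < n → z i ≠ z j := fun i j hij hj e =>
    h.new j hj (Finset.mem_union_right _ (e ▸ Finset.mem_image_of_mem _ (Finset.mem_range.mpr hij)))
  intro i hi j hj e
  rcases lt_trichotomy i j with h1 | h1 | h1
  · exact absurd e (key i j h1 hj)
  · exact h1
  · exact absurd e.symm (key j i h1 hi)

theorem back (h : Run R S κ M W z n) {i : ℕ} (hi : i + 1 < n) {w : ι}
    (hw : w ∈ W ∪ (Finset.range (i + 1)).image z) (hadj : Adj R S κ w (z (i + 1))) : w = z i := by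
  rw [succ_eq] at hw
  rcases Finset.mem_insert.mp hw with e | hw
  · exact e
  · have := h.only i (by omega) w hw _ (h.mem _ hi) (fun hm => h.new _ hi (by
      rw [succ_eq]; exact Finset.mem_insert_of_mem hm)) hadj
    have := h.inj _ hi _ (by omega) this
    omega

theorem thread (h : Run R S κ M W z n) (hM : M ⊆ S) {s T : ℕ} (hT : s + T ≤ n)
    (hcl : ∀ i, s ≤ i → i < s + T → ∀ v ∈ S, Adj R S κ (z i) v → v ∈ M) :
    Thread R S κ (fun i => z (s + i)) T where
  inj := fun i hi j hj e => by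
    have := h.inj _ (by omega) _ (by omega) e
    omega
  mem := fun i hi => hM (h.mem _ (by omega))
  adj := fun i hi => by
    obtain ⟨w, hw, hadj⟩ := h.adj (s + i + 1) (by omega)
    rw [h.back (by omega) hw hadj] at hadj
    exact hadj
  only := fun i hi v hv hadj => by
    have hvM := hcl (s + (i + 1)) (by omega) (by omega) v hv hadj
    by_cases hm : v ∈ W ∪ (Finset.range (s + i + 2)).image z
    · rw [succ_eq] at hm
      rcases Finset.mem_insert.mp hm with e | hm
      · exact absurd e.symm hadj.1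
      · exact Or.inl (h.back (by omega) hm hadj.symm)
    · exact Or.inr (h.only (s + i + 2) (by omega) _
        (Finset.mem_union_right _ (Finset.mem_image_of_mem _ (Finset.mem_range.mpr (by omega))))
        v hvM hm hadj)

end Run

/-- Either `n` forced steps or a branching. -/
theorem run_or {M W : Finset ι} (hM : Conn R S κ M) (hWM : W ⊆ M) (hW : Conn R S κ W) {c : ι}
    (hc : c ∈ W) {n : ℕ} (hn : n ≤ (M \ W).card) : (∃ z, Run R S κ M W z n) ∨
      ∃ W', W ⊆ W' ∧ W' ⊆ M ∧ Conn R S κ W' ∧ W'.card + 1 ≤ W.card + n ∧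
        ∃ l ∈ M, ∃ r ∈ M, l ∉ W' ∧ r ∉ W' ∧ l ≠ r ∧ (∃ w ∈ W', Adj R S κ w l) ∧
          ∃ w ∈ W', Adj R S κ w r := by
  induction n with
  | zero => exact Or.inl ⟨fun _ => c, by simp, by simp, by simp, by simp⟩
  | succ n ih =>
    rcases ih (by omega) with ⟨z, hz⟩ | ⟨W', h1, h2, h3, h4, h5⟩
    swap
    · exact Or.inr ⟨W', h1, h2, h3, by omega, h5⟩
    set W' := W ∪ (Finset.range n).image z with hW'
    have hcard : W'.card ≤ W.card + n := (Finset.card_union_le _ _).trans (by
      have := Finset.card_image_le (s := Finset.range n) (f := z)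
      rw [Finset.card_range] at this
      omega)
    have hsub : W' ⊆ M := hz.sub hWM le_rfl
    obtain ⟨v, hvM, hvW⟩ : ∃ v ∈ M, v ∉ W' := by
      by_contra hcon
      push Not at hcon
      have := Finset.card_le_card (show M ⊆ W' from hcon)
      rw [Finset.card_sdiff_of_subset hWM] at hn
      omega
    obtain ⟨w, -, hw, l, hl, hlW, hadj⟩ := hM.exit (hWM hc) (Finset.mem_union_left _ hc) hvM hvW
    by_cases hu : ∀ w ∈ W', ∀ v ∈ M, v ∉ W' → Adj R S κ w v → v = l
    · left
      have him : ∀ i ≤ n, (Finset.range i).image (Function.update z n l) =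
          (Finset.range i).image z := fun i hi => Finset.image_congr fun j hj =>
        Function.update_of_ne (by have := Finset.mem_range.mp (Finset.mem_coe.mp hj); omega) _ _
      refine ⟨Function.update z n l, fun i hi => ?_, fun i hi => ?_, fun i hi => ?_,
        fun i hi => ?_⟩ <;> rcases Nat.lt_succ_iff_lt_or_eq.mp hi with hi' | rfl
      · rw [Function.update_of_ne hi'.ne]; exact hz.mem i hi'
      · rwa [Function.update_self]
      · rw [Function.update_of_ne hi'.ne, him i hi'.le]; exact hz.new i hi'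
      · rwa [Function.update_self, him i le_rfl]
      · rw [Function.update_of_ne hi'.ne, him i hi'.le]; exact hz.adj i hi'
      · rw [Function.update_self, him i le_rfl]; exact ⟨w, hw, hadj⟩
      · rw [Function.update_of_ne hi'.ne, him i hi'.le]; exact hz.only i hi'
      · rw [Function.update_self, him i le_rfl]; exact hu
    · push Not at hu
      obtain ⟨w', hw', r, hr, hrW, hadj', hne⟩ := hu
      exact Or.inr ⟨W', Finset.subset_union_left, hsub, hz.conn hW n le_rfl, by omega,
        l, hl, r, hr, hlW, hrW, hne.symm, ⟨w, hw, hadj⟩, w', hw', hadj'⟩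

theorem run_aux (hR : Sys R) (h : IsCh R S κ) {U M Z : Finset ι} (hU : U ⊆ S) {a c : ι}
    (ha : a ∈ U) (hac : a ≠ c) (hM : M ⊆ U) (haM : a ∉ M) (hcon : Conn R S κ M) (hZ : Z ⊆ U)
    (haZ : a ∉ Z) (hd : Disjoint M Z) {k : ℕ} (hf : Few R S κ U a c k) (n d : ℕ) :
    ∀ (j : ℕ) (W : Finset ι), j + d = k → c ∈ W → W ⊆ M → Conn R S κ W →
      ¬ Few R S κ (insert a (insert c (Z ∪ W.erase c))) a c j → d * (n + 1) ≤ (M \ W).card →
      ∃ W' z, c ∈ W' ∧ W' ⊆ M ∧ Conn R S κ W' ∧ Run R S κ M W' z n := by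
  have hsubU : ∀ W ⊆ M, Z ∪ W.erase c ⊆ U := fun W hW =>
    Finset.union_subset hZ ((Finset.erase_subset _ _).trans (hW.trans hM))
  induction d with
  | zero =>
    intro j W hj hc hW _ hn _
    obtain rfl : j = k := by omega
    exact absurd (hf.mono (Finset.insert_subset ha (Finset.insert_subset (hM (hW hc))
      (hsubU W hW)))) hn
  | succ d ih =>
    intro j W hj hc hW hWc hn hcard
    rcases run_or hcon hW hWc hc (n := n) (by nlinarith) with
      ⟨z, hz⟩ | ⟨W', h1, h2, h3, h4, l, hl, r, hr, hlW, hrW, hlr, ⟨w, hw, hwl⟩, w', hw', hwr⟩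
    · exact ⟨W, z, hc, hW, hWc, hz⟩
    have hc' := h1 hc
    have hsub'' : insert l (insert r W') ⊆ M :=
      Finset.insert_subset hl (Finset.insert_subset hr h2)
    have hlc : l ≠ c := fun e => hlW (e ▸ hc')
    have hrc : r ≠ c := fun e => hrW (e ▸ hc')
    have hcZ : c ∉ Z := Finset.disjoint_left.mp hd (hW hc)
    have nm : ∀ v ∈ M, v ∉ W' → v ∉ Z ∪ W'.erase c := fun v hv hv' hm => by
      rcases Finset.mem_union.mp hm with e | e
      · exact Finset.disjoint_left.mp hd hv e
      · exact hv' (Finset.mem_of_mem_erase e)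
    have lk : ∀ v ∈ M, ∀ w ∈ W', Adj R S κ w v → Link R S κ (Z ∪ W'.erase c) c v := by
      intro v hv w hw hadj
      refine link_of_conn hR h (Finset.insert_subset (hU (hM hv)) (h2.trans (hM.trans hU)))
        (h3.insert hw hadj) (Finset.mem_insert_of_mem hc') (Finset.mem_insert_self _ _) ?_
      intro i hi
      simp only [Finset.mem_insert, Finset.mem_union, Finset.mem_erase] at hi ⊢
      tauto
    refine ih (j + 1) (insert l (insert r W')) (by omega) (by simp [hc']) hsub''
      ((h3.insert hw' hwr).insert (Finset.mem_insert_of_mem hw) hwl) ?_ ?_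
    · refine step_few hR h ((Finset.insert_subset ha (Finset.insert_subset (hM (hW hc))
        (hsubU _ hsub''))).trans hU) (Z := Z ∪ W'.erase c) ?_ (by simp) (by simp)
        (l := l) (r := r) (by simp [hlc]) (by simp [hrc]) ?_ (by simp [hcZ]) (nm l hl hlW)
        (nm r hr hrW) hac (fun e => haM (e ▸ hl)) (fun e => haM (e ▸ hr)) hlc hrc hlr ?_
        (lk l hl w hw hwl) (lk r hr w' hw' hwr)
      · intro i hi
        simp only [Finset.mem_insert, Finset.mem_union, Finset.mem_erase] at hi ⊢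
        tauto
      · intro hm
        rcases Finset.mem_union.mp hm with e | e
        · exact haZ e
        · exact haM (h2 (Finset.mem_of_mem_erase e))
      · intro hf'
        refine hn (hf'.mono ?_)
        intro i hi
        have : i ∈ W → i ∈ W' := fun h => h1 h
        simp only [Finset.mem_insert, Finset.mem_union, Finset.mem_erase] at hi ⊢
        tauto
    · rw [Finset.card_sdiff_of_subset hsub'', Finset.card_insert_of_notMem (by simp [hlr, hlW]),
        Finset.card_insert_of_notMem hrW]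
      rw [Finset.card_sdiff_of_subset hW, add_mul] at hcard
      omega

/-- With few slopes, a large connected region contains a long run of forced steps. -/
theorem run (hR : Sys R) (h : IsCh R S κ) {U M Z : Finset ι} (hU : U ⊆ S) {a c : ι}
    (ha : a ∈ U) (hac : a ≠ c) (hM : M ⊆ U) (haM : a ∉ M) (hcM : c ∈ M) (hcon : Conn R S κ M)
    (hZ : Z ⊆ U) (haZ : a ∉ Z) (hd : Disjoint M Z) {k : ℕ} (hf : Few R S κ U a c k)
    (hl : Link R S κ Z a c) {n : ℕ} (hn : k * (n + 1) ≤ (M.erase c).card) :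
    ∃ W z, c ∈ W ∧ W ⊆ M ∧ Conn R S κ W ∧ Run R S κ M W z n := by
  refine run_aux hR h hU ha hac hM haM hcon hZ haZ hd hf n k 0 {c} (by simp) (by simp)
    (by simpa using hcM) (conn_singleton _) ?_ (by rwa [Finset.sdiff_singleton_eq_erase])
  simpa using hl.not_few hR

theorem window {B : Finset ℕ} {m T : ℕ} (hT : 0 < T) (hB : B.card ≤ m) :
    ∃ s, s + T ≤ (m + 1) * T ∧ ∀ i, s ≤ i → i < s + T → i ∉ B := by
  by_contra hcon
  push Not at hcon
  have : Finset.range (m + 1) ⊆ B.image fun i => i / T := by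
    intro q hq
    have hq' := Finset.mem_range.mp hq
    obtain ⟨i, h1, h2, h3⟩ := hcon (q * T) (by nlinarith)
    refine Finset.mem_image.mpr ⟨i, h3, ?_⟩
    rw [Nat.div_eq_iff hT]
    omega
  have h1 := Finset.card_le_card this
  have h2 := Finset.card_image_le (s := B) (f := fun i => i / T)
  rw [Finset.card_range] at h1
  omega

namespace GP

variable {a b c : ι} {P : Finset (Finset ι)} {L : ℕ}

theorem thread_E (h : GP R S κ a b c P L) {k T : ℕ} (hf : Few R S κ (S.erase b) a c k)
    (hc : k * (T + 1) ≤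
      ((P.filter fun Q => ¬ Touch R S κ a Q ∧ Touch R S κ c Q).biUnion id).card) :
    ∃ z, Thread R S κ z T := by
  set E := (P.filter fun Q => ¬ Touch R S κ a Q ∧ Touch R S κ c Q).biUnion id with hE
  have mE : ∀ v, v ∈ E ↔ ∃ Q ∈ P, (¬ Touch R S κ a Q ∧ Touch R S κ c Q) ∧ v ∈ Q := by
    intro v
    simp [hE, and_assoc]
  obtain ⟨Z, hZS, haZ, hbZ, hcZ, hl, -, hZ⟩ := h.link
  have hcE : c ∉ E := fun hm => by
    obtain ⟨Q, hQ, -, hv⟩ := (mE _).mp hm
    exact (h.sub Q hQ).2.2.2 hv
  have hM : insert c E ⊆ S.erase b := Finset.insert_subset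
    (Finset.mem_erase.mpr ⟨h.bc.symm, h.hc⟩) fun v hv => by
      obtain ⟨Q, hQ, -, hv⟩ := (mE _).mp hv
      exact h.sub_erase hQ hv
  obtain ⟨W, z, hcW, hW, hWc, hz⟩ := run h.sys h.ch (Finset.erase_subset b S) (M := insert c E)
    (Z := Z) (Finset.mem_erase.mpr ⟨h.ab, h.ha⟩) h.ac hM
    (by
      intro hm
      rcases Finset.mem_insert.mp hm with e | hm
      · exact h.ac e
      · obtain ⟨Q, hQ, -, hv⟩ := (mE _).mp hm
        exact (h.sub Q hQ).2.1 hv)
    (Finset.mem_insert_self _ _)
    (conn_star _ (fun Q hQ => h.connQ Q (Finset.mem_filter.mp hQ).1)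
      fun Q hQ => (Finset.mem_filter.mp hQ).2.2)
    (fun v hv => Finset.mem_erase.mpr ⟨fun e => hbZ (e ▸ hv), hZS hv⟩) haZ
    (by
      rw [Finset.disjoint_insert_left]
      refine ⟨hcZ, Finset.disjoint_left.mpr fun v hv hvZ => ?_⟩
      obtain ⟨Q, hQ, h1, hv⟩ := (mE _).mp hv
      exact Finset.disjoint_left.mp (h.disj_link hZ hQ (Or.inl h1.1)) hv (by simp [hvZ]))
    hf hl (n := T) (by rwa [Finset.erase_insert hcE])
  refine ⟨_, hz.thread (hM.trans (Finset.erase_subset _ _)) (s := 0) (by omega)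
    fun i _ hi v hv hadj => ?_⟩
  rcases Finset.mem_insert.mp (hz.mem i (by omega)) with e | hm
  · exact absurd (Finset.mem_union_left _ (e ▸ hcW)) (hz.new i (by omega))
  · obtain ⟨Q, hQ, h1, hzQ⟩ := (mE _).mp hm
    rcases h.nbr hQ hzQ hv hadj with e | e | e | e
    · exact Finset.mem_insert_of_mem ((mE _).mpr ⟨Q, hQ, h1, e⟩)
    · exact absurd ⟨_, hzQ, e ▸ hadj.symm⟩ h1.1
    · exact (h.not_both hQ ⟨_, hzQ, e ▸ hadj.symm⟩ h1.2).elim
    · exact e ▸ Finset.mem_insert_self _ _

theorem thread_K (h : GP R S κ a b c P L) {k k' T : ℕ} (hT : 0 < T)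
    (hf : Few R S κ (S.erase b) a c k) (hf' : Few R S κ (S.erase c) a b k')
    (hc : k * ((2 * k' + 1) * T + 1) ≤
      ((P.filter fun Q => Touch R S κ a Q ∧ ¬ Touch R S κ c Q).biUnion id).card) :
    ∃ z, Thread R S κ z T := by
  set K := (P.filter fun Q => Touch R S κ a Q ∧ ¬ Touch R S κ c Q).biUnion id with hK
  have mK : ∀ v, v ∈ K ↔ ∃ Q ∈ P, (Touch R S κ a Q ∧ ¬ Touch R S κ c Q) ∧ v ∈ Q := by
    intro v
    simp [hK, and_assoc]
  obtain ⟨Z, hZS, haZ, hbZ, hcZ, hl, -, hZ⟩ := h.link
  have haK : a ∉ K := fun hm => by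
    obtain ⟨Q, hQ, -, hv⟩ := (mK _).mp hm
    exact (h.sub Q hQ).2.1 hv
  have hM : insert a K ⊆ S.erase b := Finset.insert_subset
    (Finset.mem_erase.mpr ⟨h.ab, h.ha⟩) fun v hv => by
      obtain ⟨Q, hQ, -, hv⟩ := (mK _).mp hv
      exact h.sub_erase hQ hv
  have hM' : insert a K ⊆ S.erase c := Finset.insert_subset
    (Finset.mem_erase.mpr ⟨h.ac, h.ha⟩) fun v hv => by
      obtain ⟨Q, hQ, -, hv⟩ := (mK _).mp hv
      exact h.swap.sub_erase hQ hv
  have hbM : b ∉ insert a K := fun hm => (Finset.mem_erase.mp (hM hm)).1 rfl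
  obtain ⟨W, z, haW, hW, hWc, hz⟩ := run h.sys h.ch (Finset.erase_subset b S) (M := insert a K)
    (Z := Z) (Finset.mem_erase.mpr ⟨h.bc.symm, h.hc⟩) h.ac.symm hM
    (fun hm => (Finset.mem_erase.mp (hM' hm)).1 rfl) (Finset.mem_insert_self _ _)
    (conn_star _ (fun Q hQ => h.connQ Q (Finset.mem_filter.mp hQ).1)
      fun Q hQ => (Finset.mem_filter.mp hQ).2.1)
    (fun v hv => Finset.mem_erase.mpr ⟨fun e => hbZ (e ▸ hv), hZS hv⟩) hcZ
    (by
      rw [Finset.disjoint_insert_left]
      refine ⟨haZ, Finset.disjoint_left.mpr fun v hv hvZ => ?_⟩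
      obtain ⟨Q, hQ, h1, hv⟩ := (mK _).mp hv
      exact Finset.disjoint_left.mp (h.disj_link hZ hQ (Or.inr h1.2)) hv (by simp [hvZ]))
    (hf.symm h.sys) hl.symm (n := (2 * k' + 1) * T) (by rwa [Finset.erase_insert haK])
  set n := (2 * k' + 1) * T with hn
  set B := (Finset.range n).filter fun i => Adj R S κ b (z i) with hB
  have mB : ∀ i, i ∈ B ↔ i < n ∧ Adj R S κ b (z i) := by
    intro i
    simp [hB]
  have hcard : B.card ≤ 2 * k' := by
    by_contra hcon
    have hne : B.Nonempty := Finset.card_pos.mp (by omega)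
    set i0 := B.min' hne with hi0
    have h0 := (mB i0).mp (B.min'_mem hne)
    obtain ⟨B1, hB1, c1⟩ := Finset.exists_subset_card_eq (s := B.erase i0) (n := k')
      (by rw [Finset.card_erase_of_mem (B.min'_mem hne)]; omega)
    obtain ⟨B2, hB2, c2⟩ := Finset.exists_subset_card_eq (s := B.erase i0 \ B1) (n := k')
      (by rw [Finset.card_sdiff_of_subset hB1, Finset.card_erase_of_mem (B.min'_mem hne)]; omega)
    have hB2' : B2 ⊆ B.erase i0 := hB2.trans Finset.sdiff_subset
    set W1 := W ∪ (Finset.range (i0 + 1)).image z with hW1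
    have hW1M : W1 ⊆ insert a K := hz.sub hW (by omega)
    have gt : ∀ i ∈ B.erase i0, i0 < i ∧ i < n ∧ Adj R S κ b (z i) := fun i hi => by
      obtain ⟨h1, h2⟩ := Finset.mem_erase.mp hi
      exact ⟨lt_of_le_of_ne (B.min'_le i h2) (Ne.symm h1), (mB i).mp h2⟩
    have sY : ∀ X ⊆ B.erase i0, X.image z ⊆ S.erase c := fun X hX v hv => by
      obtain ⟨i, hi, rfl⟩ := Finset.mem_image.mp hv
      exact hM' (hz.mem i (gt i (hX hi)).2.1)
    have dY : ∀ X ⊆ B.erase i0, Disjoint (X.image z) (insert a (insert b (W1.erase a))) := by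
      intro X hX
      rw [Finset.disjoint_left]
      intro v hv hv'
      obtain ⟨i, hi, rfl⟩ := Finset.mem_image.mp hv
      obtain ⟨g1, g2, -⟩ := gt i (hX hi)
      have hnew := hz.new i g2
      simp only [Finset.mem_insert, Finset.mem_erase] at hv'
      rcases hv' with e | e | e
      · exact hnew (Finset.mem_union_left _ (e ▸ haW))
      · exact hbM (e ▸ hz.mem i g2)
      · exact hnew (Finset.union_subset_union_right
          (Finset.image_subset_image (Finset.range_subset_range.mpr (by omega))) e.2)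
    have cY : ∀ X ⊆ B.erase i0, Conn R S κ ({b} ∪ X.image z) := by
      intro X hX
      have := conn_star (R := R) (S := S) (κ := κ) (x := b) (X.image fun i => {z i})
        (by
          intro Q hQ
          obtain ⟨i, -, rfl⟩ := Finset.mem_image.mp hQ
          exact conn_singleton _)
        (by
          intro Q hQ
          obtain ⟨i, hi, rfl⟩ := Finset.mem_image.mp hQ
          exact ⟨_, Finset.mem_singleton_self _, (gt i (hX hi)).2.2⟩)
      convert this using 1
      ext v
      simp [eq_comm]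
    have kY : ∀ X ⊆ B.erase i0, (X.image z).card = X.card := fun X hX =>
      Finset.card_image_of_injOn fun i hi j hj e =>
        hz.inj i (gt i (hX hi)).2.1 j (gt j (hX hj)).2.1 e
    refine grow2 h.sys h.ch (Finset.erase_subset c S) (Z := W1.erase a) (W := {b})
      (Y := B1.image z) (Y' := B2.image z) (Finset.mem_erase.mpr ⟨h.ac, h.ha⟩)
      (Finset.mem_erase.mpr ⟨h.bc, h.hb⟩) h.ab
      ((Finset.erase_subset _ _).trans (hW1M.trans hM')) (Finset.notMem_erase _ _)
      (fun hm => hbM (hW1M (Finset.mem_of_mem_erase hm))) (by simp) (by simp) (conn_singleton _)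
      (sY _ hB1) (sY _ hB2') ?_ (dY _ hB1) (dY _ hB2') (cY _ hB1) (cY _ hB2')
      (by rw [kY _ hB1, c1]) (by rw [kY _ hB2', c2]) ?_ hf'
    · rw [Finset.disjoint_left]
      intro v hv hv'
      obtain ⟨i, hi, rfl⟩ := Finset.mem_image.mp hv
      obtain ⟨j, hj, e⟩ := Finset.mem_image.mp hv'
      have := hz.inj j (gt j (hB2' hj)).2.1 i (gt i (hB1 hi)).2.1 e
      exact (Finset.mem_sdiff.mp (hB2 hj)).2 (this ▸ hi)
    · refine link_of_conn h.sys h.ch (Y := insert b W1)
        (Finset.insert_subset h.hb (hW1M.trans (hM.trans (Finset.erase_subset _ _))))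
        ((hz.conn hWc (i0 + 1) (by omega)).insert (Finset.mem_union_right _
          (Finset.mem_image_of_mem _ (Finset.mem_range.mpr (Nat.lt_succ_self i0)))) h0.2.symm)
        (Finset.mem_insert_of_mem (Finset.mem_union_left _ haW)) (Finset.mem_insert_self _ _) ?_
      intro v hv
      simp only [Finset.mem_insert, Finset.mem_erase] at hv ⊢
      tauto
  obtain ⟨s, hs, hwin⟩ := window hT hcard
  refine ⟨_, hz.thread (hM.trans (Finset.erase_subset _ _)) (s := s) hs
    fun i h1 hi v hv hadj => ?_⟩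
  rcases Finset.mem_insert.mp (hz.mem i (by omega)) with e | hm
  · exact absurd (Finset.mem_union_left _ (e ▸ haW)) (hz.new i (by omega))
  · obtain ⟨Q, hQ, h2, hzQ⟩ := (mK _).mp hm
    rcases h.nbr hQ hzQ hv hadj with e | e | e | e
    · exact Finset.mem_insert_of_mem ((mK _).mpr ⟨Q, hQ, h2, e⟩)
    · exact e ▸ Finset.mem_insert_self _ _
    · exact absurd ((mB i).mpr ⟨by omega, e ▸ hadj.symm⟩) (hwin i h1 hi)
    · exact absurd ⟨_, hzQ, e ▸ hadj.symm⟩ h2.2

end GP

theorem stage1 {a b c : ι} {P : Finset (Finset ι)} (h : GP R S κ a b c P 1)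
    (hb : Few R S κ (S.erase c) a b 1) (hc : Few R S κ (S.erase b) a c 3)
    (hS : 3000 ≤ S.card) : ∃ z : ℕ → ι, Thread R S κ z 123 := by
  by_contra hcon
  have e1 := mt (h.thread_E (T := 123) hc) hcon
  have e2 := mt (h.swap.thread_E (T := 123) hb) hcon
  have e3 := mt (h.thread_K (T := 123) (by norm_num) hc hb) hcon
  have e4 := mt (h.swap.thread_K (T := 123) (by norm_num) hb hc) hcon
  set E1 := (P.filter fun Q => ¬ Touch R S κ a Q ∧ Touch R S κ c Q).biUnion id with hE1
  set E2 := (P.filter fun Q => ¬ Touch R S κ a Q ∧ Touch R S κ b Q).biUnion id with hE2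
  set E3 := (P.filter fun Q => Touch R S κ a Q ∧ ¬ Touch R S κ c Q).biUnion id with hE3
  set E4 := (P.filter fun Q => Touch R S κ a Q ∧ ¬ Touch R S κ b Q).biUnion id with hE4
  have hsub : S ⊆ insert a (insert b (insert c (E1 ∪ E2 ∪ E3 ∪ E4))) := by
    intro v hv
    simp only [Finset.mem_insert, Finset.mem_union, hE1, hE2, hE3, hE4, Finset.mem_biUnion,
      Finset.mem_filter, id]
    rcases h.cover v hv with e | e | e | ⟨Q, hQ, hvQ⟩
    · tauto
    · tauto
    · tauto
    · have t1 := h.touch hQ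
      have t2 := h.not_both hQ
      right; right; right
      by_cases ha : Touch R S κ a Q
      · by_cases hc' : Touch R S κ c Q
        · exact Or.inr ⟨Q, ⟨hQ, ha, fun hb' => t2 hb' hc'⟩, hvQ⟩
        · exact Or.inl (Or.inr ⟨Q, ⟨hQ, ha, hc'⟩, hvQ⟩)
      · by_cases hc' : Touch R S κ c Q
        · exact Or.inl (Or.inl (Or.inl ⟨Q, ⟨hQ, ha, hc'⟩, hvQ⟩))
        · exact Or.inl (Or.inl (Or.inr ⟨Q, ⟨hQ, ha, by tauto⟩, hvQ⟩))
  have c1 := Finset.card_le_card hsub
  have c2 := Finset.card_insert_le a (insert b (insert c (E1 ∪ E2 ∪ E3 ∪ E4)))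
  have c3 := Finset.card_insert_le b (insert c (E1 ∪ E2 ∪ E3 ∪ E4))
  have c4 := Finset.card_insert_le c (E1 ∪ E2 ∪ E3 ∪ E4)
  have c5 := Finset.card_union_le (E1 ∪ E2 ∪ E3) E4
  have c6 := Finset.card_union_le (E1 ∪ E2) E3
  have c7 := Finset.card_union_le E1 E2
  omega

end Pool.Agent.SimpArr
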