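import Pool.Agent.P.MP_0b4c38_co.Stage1
import Pool.Agent.P.MP_0b4c38_co.Good
import Pool.Agent.P.MP_0b4c38_co.LemAB
import Pool.Agent.P.MP_0b4c38_co.PathA

/-! Simplicial root systems: from a thread to the good configuration. -/

set_option autoImplicit false

open Classical

namespace Pool.Agent.SimpArr

variable {V : Type} [AddCommGroup V] [Module ℝ V] {ι : Type}
variable {R : Set V} {S : Finset ι} {κ : Fam ι V}

/-- The decomposition of `J` into connected parts. -/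
structure Parts (R : Set V) (S : Finset ι) (κ : Fam ι V) (J : Finset ι) (P : Finset (Finset ι)) :
    Prop where
  cover : ∀ v ∈ J, ∃ Q ∈ P, v ∈ Q
  sub : ∀ Q ∈ P, Q ⊆ J ∧ Q.Nonempty ∧ Conn R S κ Q
  sep : ∀ Q ∈ P, ∀ Q' ∈ P, Q ≠ Q' → Disjoint Q Q' ∧ Sep R S κ Q Q'

theorem Parts.closed {J : Finset ι} {P : Finset (Finset ι)} (h : Parts R S κ J P) {Q : Finset ι}
    (hQ : Q ∈ P) {v w : ι} (hv : v ∈ Q) (hw : w ∈ J) (hadj : Adj R S κ v w) : w ∈ Q := by
  obtain ⟨Q', hQ', hw'⟩ := h.cover w hw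
  by_contra hn
  exact (h.sep Q hQ Q' hQ' fun e => hn (e ▸ hw')).2 v hv w hw' hadj

theorem Parts.subset {J : Finset ι} {P : Finset (Finset ι)} (h : Parts R S κ J P) {Q Y : Finset ι}
    (hQ : Q ∈ P) (hY : Y ⊆ J) (hc : Conn R S κ Y) {v : ι} (hv : v ∈ Y) (hvQ : v ∈ Q) : Y ⊆ Q := by
  intro w hw
  by_contra hn
  obtain ⟨i, -, hi, j, hj, hjQ, hadj⟩ := hc.exit hv hvQ hw hn
  exact hjQ (h.closed hQ hi (hY hj) hadj)

theorem Parts.mem_of_closed {J : Finset ι} {P : Finset (Finset ι)} (h : Parts R S κ J P)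
    {Y : Finset ι} (hY : Y ⊆ J) (hc : Conn R S κ Y) (hne : Y.Nonempty)
    (hcl : ∀ v ∈ Y, ∀ w ∈ J, Adj R S κ v w → w ∈ Y) : Y ∈ P := by
  obtain ⟨v, hv⟩ := hne
  obtain ⟨Q, hQ, hvQ⟩ := h.cover v (hY hv)
  have : Q = Y := by
    refine Finset.Subset.antisymm (fun w hw => ?_) (h.subset hQ hY hc hv hvQ)
    by_contra hn
    obtain ⟨i, -, hi, j, hj, hjY, hadj⟩ := (h.sub Q hQ).2.2.exit hvQ hv hw hn
    exact hjY (hcl i hi j ((h.sub Q hQ).1 hj) hadj)
  exact this ▸ hQ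

/-- The good lemma applied to a set `J` with known parts. -/
theorem Parts.good (hR : Sys R) (h : IsCh R S κ) (hc : Conn R S κ S) {J : Finset ι} (hJ : J ⊆ S)
    (h3 : (S \ J).card = 3) {P : Finset (Finset ι)} (hP : Parts R S κ J P) {L : ℕ} (hL : 1 ≤ L)
    (hcard : ∀ Q ∈ P, L ≤ Q.card) :
    ∃ (κ' : Fam ι V) (a b c : ι), GP R S κ' a b c P L ∧ (∀ j ∈ J, κ'.B j = κ.B j) ∧
      Few R S κ' (S.erase c) a b 1 ∧ Few R S κ' (S.erase b) a c 3 := by
  obtain ⟨κ', a, b, c, h', hB, hS, ab, ac, bc, hl, f1, f2⟩ := SimpArr.good hR h hc hJ h3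
  have hm : ∀ v, (v ∈ S ∧ v ∉ J) ↔ (v = a ∨ v = b ∨ v = c) := fun v => by
    rw [← Finset.mem_sdiff, hS]; simp
  refine ⟨κ', a, b, c, ⟨hR, h', conn_indep hR h h' hc, ((hm a).mpr (by simp)).1,
    ((hm b).mpr (by simp)).1, ((hm c).mpr (by simp)).1, ab, ac, bc, fun v hv => ?_,
    fun Q hQ => ?_, fun Q hQ => conn_agree h h' hJ hB (hP.sub Q hQ).1 (hP.sub Q hQ).2.2, hcard, hL,
    fun Q hQ Q' hQ' hne => ⟨(hP.sep Q hQ Q' hQ' hne).1, sep_agree h h' hJ hB (hP.sub Q hQ).1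
      (hP.sub Q' hQ').1 (hP.sep Q hQ Q' hQ' hne).2⟩, ?_⟩, hB, f1, f2⟩
  · by_cases hvJ : v ∈ J
    · exact Or.inr (Or.inr (Or.inr (hP.cover v hvJ)))
    · have := (hm v).mp ⟨hv, hvJ⟩
      tauto
  · have hQJ := (hP.sub Q hQ).1
    exact ⟨hQJ.trans hJ, fun e => ((hm a).mpr (by simp)).2 (hQJ e),
      fun e => ((hm b).mpr (by simp)).2 (hQJ e), fun e => ((hm c).mpr (by simp)).2 (hQJ e)⟩
  · rwa [← hS, Finset.sdiff_sdiff_eq_self hJ]

theorem Thread.nbr {z : ℕ → ι} {n : ℕ} (h : Thread R S κ z n) {i : ℕ} (h1 : 1 ≤ i)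
    (h2 : i + 1 < n) {v : ι} (hv : v ∈ S) (hadj : Adj R S κ (z i) v) :
    v = z (i - 1) ∨ v = z (i + 1) := by
  obtain ⟨i, rfl⟩ : ∃ i', i = i' + 1 := ⟨i - 1, by omega⟩
  exact h.only i (by omega) v hv hadj

theorem Thread.conn {z : ℕ → ι} {n : ℕ} (h : Thread R S κ z n) {p q : ℕ} (hq : q ≤ n) :
    Conn R S κ ((Finset.Ico p q).image z) := conn_Ico fun i _ _ => h.adj i (by omega)

theorem Thread.path {z : ℕ → ι} {n : ℕ} (h : Thread R S κ z n) {p m : ℕ} (hp : 1 ≤ p)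
    (hm : p + m < n) : Path R S κ (fun i => z (p + i)) m where
  inj := fun i hi j hj e => by
    have := h.inj _ (by omega) _ (by omega) e
    omega
  mem := fun i hi => h.mem _ (by omega)
  adj := fun i hi => h.adj (p + i) (by omega)
  only := fun i hi j hj hadj => by
    rcases h.nbr (i := p + i) (by omega) (by omega) (h.mem _ (by omega)) hadj with e | e
    · have := h.inj _ (by omega) _ (by omega) e
      omega
    · have := h.inj _ (by omega) _ (by omega) e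
      omega

theorem image_shift (z : ℕ → ι) (p m : ℕ) :
    (Finset.range m).image (fun i => z (p + i)) = (Finset.Ico p (p + m)).image z := by
  ext v
  simp only [Finset.mem_image, Finset.mem_range, Finset.mem_Ico]
  constructor
  · rintro ⟨i, hi, rfl⟩
    exact ⟨_, by omega, rfl⟩
  · rintro ⟨i, hi, rfl⟩
    exact ⟨i - p, by omega, by rw [show p + (i - p) = i by omega]⟩

/-- Removing three equally spaced nodes of a thread. -/
theorem Thread.parts (hR : Sys R) (h : IsCh R S κ) (hc : Conn R S κ S) {z : ℕ → ι} {n L : ℕ}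
    (hz : Thread R S κ z n) (hL : 1 ≤ L) (hn : 4 * L + 3 ≤ n) :
    ∃ (J : Finset ι) (P : Finset (Finset ι)), J ⊆ S ∧ (S \ J).card = 3 ∧ Parts R S κ J P ∧
      (∀ Q ∈ P, L ≤ Q.card) ∧ (∀ v, v ∈ J ↔ v ∈ S ∧ v ≠ z L ∧ v ≠ z (2 * L + 1) ∧ v ≠ z (3 * L + 2)) ∧
      (Finset.Ico (L + 1) (2 * L + 1)).image z ∈ P ∧
      (Finset.Ico (2 * L + 2) (3 * L + 2)).image z ∈ P := by
  set J := S \ {z L, z (2 * L + 1), z (3 * L + 2)} with hJ
  have hJS : J ⊆ S := Finset.sdiff_subset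
  have mJ : ∀ v, v ∈ J ↔ v ∈ S ∧ v ≠ z L ∧ v ≠ z (2 * L + 1) ∧ v ≠ z (3 * L + 2) := fun v => by
    simp [hJ, not_or]
  obtain ⟨P, p1, p2, p3⟩ := exists_parts hR h J hJS
  have hP : Parts R S κ J P := ⟨p1, p2, p3⟩
  have ne : ∀ i < n, ∀ j < n, i ≠ j → z i ≠ z j := fun i hi j hj hij e => hij (hz.inj i hi j hj e)
  have subJ : ∀ p q, q ≤ n → (¬ (p ≤ L ∧ L < q)) → (¬ (p ≤ 2 * L + 1 ∧ 2 * L + 1 < q)) →
      (¬ (p ≤ 3 * L + 2 ∧ 3 * L + 2 < q)) → (Finset.Ico p q).image z ⊆ J := by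
    intro p q hq h1 h2 h3 v hv
    obtain ⟨i, hi, rfl⟩ := Finset.mem_image.mp hv
    have := Finset.mem_Ico.mp hi
    exact (mJ _).mpr ⟨hz.mem i (by omega), ne _ (by omega) _ (by omega) (by omega),
      ne _ (by omega) _ (by omega) (by omega), ne _ (by omega) _ (by omega) (by omega)⟩
  have big : ∀ Q ∈ P, ∀ p i, p + L ≤ n → (¬ (p ≤ L ∧ L < p + L)) →
      (¬ (p ≤ 2 * L + 1 ∧ 2 * L + 1 < p + L)) → (¬ (p ≤ 3 * L + 2 ∧ 3 * L + 2 < p + L)) →
      p ≤ i → i < p + L → z i ∈ Q → L ≤ Q.card := by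
    intro Q hQ p i h0 h1 h2 h3 h4 h5 hi
    have := Finset.card_le_card (hP.subset hQ (subJ p (p + L) h0 h1 h2 h3) (hz.conn h0)
      ((mem_image_Ico hz.inj h0 (by omega)).mpr ⟨h4, h5⟩) hi)
    rw [card_image_Ico hz.inj h0] at this
    omega
  have mid : ∀ p, 1 ≤ p → p + L < n → z (p - 1) ∉ J → z (p + L) ∉ J →
      (Finset.Ico p (p + L)).image z ⊆ J → (Finset.Ico p (p + L)).image z ∈ P := by
    intro p h1 h2 h3 h4 h5
    refine hP.mem_of_closed h5 (hz.conn h2.le)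
      ⟨z p, (mem_image_Ico hz.inj h2.le (by omega)).mpr (by omega)⟩ fun v hv w hw hadj => ?_
    obtain ⟨i, hi, rfl⟩ := Finset.mem_image.mp hv
    have := Finset.mem_Ico.mp hi
    rcases hz.nbr (i := i) (by omega) (by omega) (hJS hw) hadj with rfl | rfl
    · refine (mem_image_Ico hz.inj h2.le (by omega)).mpr ?_
      by_cases e : i = p
      · exact absurd (e ▸ hw) h3
      · omega
    · refine (mem_image_Ico hz.inj h2.le (by omega)).mpr ?_
      by_cases e : i + 1 = p + L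
      · exact absurd (e ▸ hw) h4
      · omega
  refine ⟨J, P, hJS, ?_, hP, fun Q hQ => ?_, mJ, ?_, ?_⟩
  · rw [hJ, Finset.sdiff_sdiff_eq_self, Finset.card_insert_of_notMem, Finset.card_pair]
    · exact ne _ (by omega) _ (by omega) (by omega)
    · simp only [Finset.mem_insert, Finset.mem_singleton, not_or]
      exact ⟨ne _ (by omega) _ (by omega) (by omega), ne _ (by omega) _ (by omega) (by omega)⟩
    · intro v hv
      simp only [Finset.mem_insert, Finset.mem_singleton] at hv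
      rcases hv with rfl | rfl | rfl <;> exact hz.mem _ (by omega)
  · obtain ⟨hQJ, ⟨u, hu⟩, -⟩ := hP.sub Q hQ
    obtain ⟨i, hiS, hi, j, hj, hjQ, hadj⟩ := hc.exit (hJS (hQJ hu)) hu (hz.mem L (by omega))
      (fun hm => ((mJ _).mp (hQJ hm)).2.1 rfl)
    have hjJ : j ∉ J := fun hm => hjQ (hP.closed hQ hi hm hadj)
    rw [mJ] at hjJ
    have : j = z L ∨ j = z (2 * L + 1) ∨ j = z (3 * L + 2) := by tauto
    rcases this with rfl | rfl | rfl
    · rcases hz.nbr hL (by omega) hiS hadj.symm with rfl | rfl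
      · exact big Q hQ 0 _ (by omega) (by omega) (by omega) (by omega) (by omega) (by omega) hi
      · exact big Q hQ (L + 1) _ (by omega) (by omega) (by omega) (by omega) (by omega)
          (by omega) hi
    · rcases hz.nbr (by omega) (by omega) hiS hadj.symm with rfl | rfl
      · exact big Q hQ (L + 1) _ (by omega) (by omega) (by omega) (by omega) (by omega)
          (by omega) hi
      · exact big Q hQ (2 * L + 2) _ (by omega) (by omega) (by omega) (by omega) (by omega)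
          (by omega) hi
    · rcases hz.nbr (by omega) (by omega) hiS hadj.symm with rfl | rfl
      · exact big Q hQ (2 * L + 2) _ (by omega) (by omega) (by omega) (by omega) (by omega)
          (by omega) hi
      · exact big Q hQ (3 * L + 3) _ (by omega) (by omega) (by omega) (by omega) (by omega)
          (by omega) hi
  · have := mid (L + 1) (by omega) (by omega) (fun hm => ((mJ _).mp hm).2.1 (by simp))
      (fun hm => ((mJ _).mp hm).2.2.1 (by congr 1; omega))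
      (subJ _ _ (by omega) (by omega) (by omega) (by omega))
    rwa [show L + 1 + L = 2 * L + 1 by omega] at this
  · have := mid (2 * L + 2) (by omega) (by omega) (fun hm => ((mJ _).mp hm).2.2.1 (by simp))
      (fun hm => ((mJ _).mp hm).2.2.2 (by congr 1; omega))
      (subJ _ _ (by omega) (by omega) (by omega) (by omega))
    rwa [show 2 * L + 2 + L = 3 * L + 2 by omega] at this

namespace GP

variable {a b c : ι} {P : Finset (Finset ι)} {L : ℕ}

theorem scale (h : GP R S κ a b c P L) {μ : ι → ℝ} (hμ : ∀ i, 0 < μ i) :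
    GP R S (κ.scale μ) a b c P L where
  sys := h.sys
  ch := h.ch.scale h.sys hμ
  conn := (conn_scale hμ).mpr h.conn
  ha := h.ha
  hb := h.hb
  hc := h.hc
  ab := h.ab
  ac := h.ac
  bc := h.bc
  cover := h.cover
  sub := h.sub
  connQ := fun Q hQ => (conn_scale hμ).mpr (h.connQ Q hQ)
  card := h.card
  hL := h.hL
  sep := fun Q hQ Q' hQ' hne => ⟨(h.sep Q hQ Q' hQ' hne).1,
    (sep_scale hμ).mpr (h.sep Q hQ Q' hQ' hne).2⟩
  nolink := fun hl => h.nolink ((link_scale hμ).mp hl)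

/-- If some part touches `a` and not `b`, the side of `b` lies on a path of type `A`. -/
theorem caseG (h : GP R S κ a b c P L) (hf : Few R S κ (S.erase c) a b 1) {Q2 : Finset ι}
    (hQ2 : Q2 ∈ P) (h1 : Touch R S κ a Q2) (h2 : ¬ Touch R S κ b Q2) :
    ∃ (μ : ι → ℝ) (t : ℕ → ι) (n α : ℕ) (ε : ℕ → V), (∀ i, 0 < μ i) ∧
      APath R S (κ.scale μ) t n ε ∧ α < n ∧ t α = a ∧ Q2 = (Finset.range α).image t ∧
      insert b ((P.filter fun Q => Touch R S κ b Q).biUnion id) = (Finset.Ioo α n).image t ∧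
      (Finset.range n).image t =
        insert a (insert b ((P.filter fun Q => Touch R S κ b Q).biUnion id) ∪ Q2) := by
  set S1 := insert b ((P.filter fun Q => Touch R S κ b Q).biUnion id) with hS1
  have m1 : ∀ v, v ∈ S1 ↔ v = b ∨ ∃ Q ∈ P, Touch R S κ b Q ∧ v ∈ Q := fun v => by
    simp [hS1, and_assoc]
  obtain ⟨-, haQ2, hbQ2, -⟩ := h.sub Q2 hQ2
  have haS1 : a ∉ S1 := fun hm => by
    rcases (m1 _).mp hm with e | ⟨Q, hQ, -, hv⟩
    · exact h.ab e
    · exact (h.sub Q hQ).2.1 hv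
  have hS1c : S1 ⊆ S.erase c := fun v hv => by
    rcases (m1 _).mp hv with rfl | ⟨Q, hQ, -, hv⟩
    · exact Finset.mem_erase.mpr ⟨h.bc, h.hb⟩
    · exact h.swap.sub_erase hQ hv
  set C := insert a (S1 ∪ Q2) with hC
  have hCc : C ⊆ S.erase c := Finset.insert_subset (Finset.mem_erase.mpr ⟨h.ac, h.ha⟩)
    (Finset.union_subset hS1c (h.swap.sub_erase hQ2))
  have hCS : C ⊆ S := hCc.trans (Finset.erase_subset _ _)
  have s1 : S1 ⊆ C := fun v hv => Finset.mem_insert_of_mem (Finset.mem_union_left _ hv)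
  have s2 : Q2 ⊆ C := fun v hv => Finset.mem_insert_of_mem (Finset.mem_union_right _ hv)
  have hb1 : b ∈ S1 := Finset.mem_insert_self _ _
  have c1 : Conn R S κ S1 := conn_star _ (fun Q hQ => h.connQ Q (Finset.mem_filter.mp hQ).1)
    fun Q hQ => (Finset.mem_filter.mp hQ).2
  have hcon : Conn R S κ C := by
    obtain ⟨Z, -, -, -, -, -, hZc, hZ⟩ := h.swap.link
    have hZ1 : Z ⊆ S1 := fun v hv => by
      rcases hZ with rfl | ⟨hZ, -, hZb⟩
      · simp at hv
      · exact (m1 _).mpr (Or.inr ⟨Z, hZ, hZb, hv⟩)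
    have := (hZc.union c1 (Finset.mem_insert_of_mem (Finset.mem_insert_self _ _)) hb1).union
      (h1.conn (h.connQ Q2 hQ2)) (Finset.mem_union_left _ (Finset.mem_insert_self _ _))
      (Finset.mem_insert_self _ _)
    convert this using 1
    ext v
    have e1 : v ∈ Z → v ∈ S1 := fun hv => hZ1 hv
    have e2 : v = b → v ∈ S1 := fun hv => hv ▸ hb1
    simp only [hC, Finset.mem_insert, Finset.mem_union]
    tauto
  have hd : Disjoint S1 Q2 := Finset.disjoint_left.mpr fun v hv hv' => by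
    rcases (m1 _).mp hv with rfl | ⟨Q, hQ, hbQ, hv⟩
    · exact hbQ2 hv'
    · exact Finset.disjoint_left.mp (h.sep Q hQ Q2 hQ2 fun e => h2 (e ▸ hbQ)).1 hv hv'
  have hsep : Sep R S κ S1 Q2 := fun v hv w hw hadj => by
    rcases (m1 _).mp hv with rfl | ⟨Q, hQ, hbQ, hv⟩
    · exact h2 ⟨w, hw, hadj⟩
    · exact (h.sep Q hQ Q2 hQ2 fun e => h2 (e ▸ hbQ)).2 v hv w hw hadj
  have he : C.erase a = S1 ∪ Q2 := Finset.erase_insert (by simp [haS1, haQ2])
  have hRL := h.sys.loc h.ch C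
  have hL := h.ch.loc hCS
  have hcL := (conn_loc hCS subset_rfl).mpr hcon
  have hsL := (sep_loc hCS s1 s2).mpr hsep
  obtain ⟨t0, n, lam, hp⟩ := lemB hRL hL hcL (Finset.mem_insert_self _ _) he hd hsL hb1
    (h.nonempty hQ2) (hf.loc hCc)
  obtain ⟨μ, t, α, ε, hμ, hp', e1, hα, e2, e3, e4⟩ := hp.split hRL hL hcL
    (Finset.mem_insert_self _ _) he hd hsL ⟨b, hb1⟩ (h.nonempty hQ2)
  have : loc R S κ C = loc R S (κ.scale μ) C := by
    ext ρ
    exact ⟨fun hρ => ⟨hρ.1, (sup_scale hμ).mpr hρ.2⟩, fun hρ => ⟨hρ.1, (sup_scale hμ).mp hρ.2⟩⟩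
  rw [this] at hp'
  exact ⟨μ, t, n, α, ε, hμ, hp'.of_loc hCS, hα, e2, e3, e4, e1⟩

theorem card_le_one (_h : GP R S κ a b c P L) (p : Finset ι → Prop) [DecidablePred p]
    (hp : ∀ Q ∈ P, ∀ Q' ∈ P, p Q → p Q' → Q = Q') : (P.filter p).card ≤ 1 :=
  Finset.card_le_one.mpr fun Q hQ Q' hQ' => hp Q (Finset.mem_filter.mp hQ).1 Q'
    (Finset.mem_filter.mp hQ').1 (Finset.mem_filter.mp hQ).2 (Finset.mem_filter.mp hQ').2

theorem stage2 (h : GP R S κ a b c P 30) (hb : Few R S κ (S.erase c) a b 1)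
    (hc : Few R S κ (S.erase b) a c 3) (h3 : 3 ≤ P.card) {w w' : ℕ → ι} {N : ℕ} (hN : 30 ≤ N)
    (hw : Path R S κ w N) (hw' : Path R S κ w' N) (hP : (Finset.range N).image w ∈ P)
    (hP' : (Finset.range N).image w' ∈ P)
    (hne : (Finset.range N).image w ≠ (Finset.range N).image w') :
    ∃ (κ' : Fam ι V) (z : ℕ → ι), IsCh R S κ' ∧ Pend R S κ' z 28 := by
  by_cases hG : ∃ Q2 ∈ P, Touch R S κ a Q2 ∧ ¬ Touch R S κ b Q2
  · obtain ⟨Q2, hQ2, h1, h2⟩ := hG
    obtain ⟨μ, t, n, α, ε, hμ, hp, hα, e1, e2, e3, e4⟩ := h.caseG hb hQ2 h1 h2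
    obtain ⟨Qb, hQb, hbQ⟩ : ∃ Q ∈ P, Touch R S κ b Q := by
      by_contra hcon
      push Not at hcon
      have k1 := h.card_le_one (fun Q => Touch R S κ a Q) fun Q hQ Q' hQ' p p' =>
        h.swap.two_a (by norm_num) hb hQ hQ' p p' (hcon Q hQ) (hcon Q' hQ')
      have k2 := h.card_le_one (fun Q => ¬ Touch R S κ a Q) fun Q hQ Q' hQ' p p' =>
        h.two_c (by norm_num) hc hQ hQ' (by have := h.touch hQ; have := hcon Q hQ; tauto)
          (by have := h.touch hQ'; have := hcon Q' hQ'; tauto) p p'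
      have := Finset.card_filter_add_card_filter_not (s := P) fun Q => Touch R S κ a Q
      omega
    set S1 := insert b ((P.filter fun Q => Touch R S κ b Q).biUnion id) with hS1
    have m1 : ∀ v, v ∈ S1 ↔ v = b ∨ ∃ Q ∈ P, Touch R S κ b Q ∧ v ∈ Q := fun v => by
      simp [hS1, and_assoc]
    have hlen : α + 30 < n := by
      have c1 : Qb.card ≤ S1.card :=
        Finset.card_le_card fun v hv => (m1 v).mpr (Or.inr ⟨Qb, hQb, hbQ, hv⟩)
      have c2 := h.card Qb hQb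
      have c3 := Finset.card_image_le (s := Finset.Ioo α n) (f := t)
      rw [← e3, Nat.card_Ioo] at c3
      omega
    have hch := h.ch.scale h.sys hμ
    refine ⟨κ.scale μ, _, hch, (hp.path hch).rev.pend (by omega) (by omega)
      fun i hi v hv hadj => ?_⟩
    rw [image_rev, e4]
    rw [adj_scale hμ] at hadj
    have hm : t (n - 1 - i) ∈ S1 := by
      rw [e3]
      exact Finset.mem_image_of_mem _ (Finset.mem_Ioo.mpr (by omega))
    simp only [Finset.mem_insert, Finset.mem_union, m1]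
    rcases (m1 _).mp hm with e | ⟨Q, hQ, hbQ', hv'⟩
    · rw [e] at hadj
      rcases h.cover v hv with e' | e' | e' | ⟨Q, hQ, hvQ⟩
      · tauto
      · tauto
      · exact absurd (e' ▸ hadj) h.not_adj
      · exact Or.inr (Or.inl (Or.inr ⟨Q, hQ, ⟨v, hvQ, hadj⟩, hvQ⟩))
    · rcases h.nbr hQ hv' hv hadj with e' | e' | e' | e'
      · exact Or.inr (Or.inl (Or.inr ⟨Q, hQ, hbQ', e'⟩))
      · tauto
      · tauto
      · exact (h.not_both hQ hbQ' ⟨_, hv', e' ▸ hadj.symm⟩).elim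
  · push Not at hG
    have key : ∀ u : ℕ → ι, Path R S κ u N → (Finset.range N).image u ∈ P →
        ¬ Touch R S κ a ((Finset.range N).image u) → ∃ z, Pend R S κ z 28 := by
      intro u hu hm hn
      rcases h.touch hm with e | e | e
      · exact absurd e hn
      · exact h.swap.pend (hb.le (by norm_num)) hu hN hm hn e
      · exact h.pend hc hu hN hm hn e
    by_cases t1 : Touch R S κ a ((Finset.range N).image w)
    · by_cases t2 : Touch R S κ a ((Finset.range N).image w')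
      · exact absurd (h.two_a (by norm_num) hc hP hP' t1 t2
          (h.not_both hP (hG _ hP t1)) (h.not_both hP' (hG _ hP' t2))) hne
      · obtain ⟨z, hz⟩ := key w' hw' hP' t2
        exact ⟨κ, z, h.ch, hz⟩
    · obtain ⟨z, hz⟩ := key w hw hP t1
      exact ⟨κ, z, h.ch, hz⟩

theorem stage3 (h : GP R S κ a b c P 6) (hb : Few R S κ (S.erase c) a b 1)
    (hc : Few R S κ (S.erase b) a c 3) (h4 : 4 ≤ P.card) :
    ∃ (κ' : Fam ι V) (t : ℕ → ι) (n : ℕ) (ε : ℕ → V) (α β : ℕ) (E : Finset ι),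
      G4 R S κ' t n ε α β c E := by
  have u1 : ∀ Q ∈ P, ∀ Q' ∈ P, (Touch R S κ a Q ∧ ¬ Touch R S κ c Q) →
      (Touch R S κ a Q' ∧ ¬ Touch R S κ c Q') → Q = Q' := fun Q hQ Q' hQ' p p' =>
    h.two_a (by norm_num) hc hQ hQ' p.1 p'.1 p.2 p'.2
  have u2 : ∀ Q ∈ P, ∀ Q' ∈ P, (Touch R S κ a Q ∧ ¬ Touch R S κ b Q) →
      (Touch R S κ a Q' ∧ ¬ Touch R S κ b Q') → Q = Q' := fun Q hQ Q' hQ' p p' =>
    h.swap.two_a (by norm_num) hb hQ hQ' p.1 p'.1 p.2 p'.2
  have u3 : ∀ Q ∈ P, ∀ Q' ∈ P, (¬ Touch R S κ a Q ∧ Touch R S κ b Q) →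
      (¬ Touch R S κ a Q' ∧ Touch R S κ b Q') → Q = Q' := fun Q hQ Q' hQ' p p' =>
    h.swap.two_c (by norm_num) hb hQ hQ' p.2 p'.2 p.1 p'.1
  have u4 : ∀ Q ∈ P, ∀ Q' ∈ P, (¬ Touch R S κ a Q ∧ Touch R S κ c Q) →
      (¬ Touch R S κ a Q' ∧ Touch R S κ c Q') → Q = Q' := fun Q hQ Q' hQ' p p' =>
    h.two_c (by norm_num) hc hQ hQ' p.2 p'.2 p.1 p'.1
  have k1 := h.card_le_one _ u1
  have k2 := h.card_le_one (fun Q => Touch R S κ a Q ∧ Touch R S κ c Q)
    fun Q hQ Q' hQ' p p' => u2 Q hQ Q' hQ' ⟨p.1, fun e => h.not_both hQ e p.2⟩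
      ⟨p'.1, fun e => h.not_both hQ' e p'.2⟩
  have k3 := h.card_le_one _ u3
  have k4 := h.card_le_one _ u4
  have hcov : P ⊆ (P.filter fun Q => Touch R S κ a Q ∧ ¬ Touch R S κ c Q) ∪
      (P.filter fun Q => Touch R S κ a Q ∧ Touch R S κ c Q) ∪
      (P.filter fun Q => ¬ Touch R S κ a Q ∧ Touch R S κ b Q) ∪
      (P.filter fun Q => ¬ Touch R S κ a Q ∧ Touch R S κ c Q) := by
    intro Q hQ
    have := h.touch hQ
    simp only [Finset.mem_union, Finset.mem_filter]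
    tauto
  have c0 := Finset.card_le_card hcov
  have c1 := Finset.card_union_le ((P.filter fun Q => Touch R S κ a Q ∧ ¬ Touch R S κ c Q) ∪
      (P.filter fun Q => Touch R S κ a Q ∧ Touch R S κ c Q) ∪
      (P.filter fun Q => ¬ Touch R S κ a Q ∧ Touch R S κ b Q))
      (P.filter fun Q => ¬ Touch R S κ a Q ∧ Touch R S κ c Q)
  have c2 := Finset.card_union_le ((P.filter fun Q => Touch R S κ a Q ∧ ¬ Touch R S κ c Q) ∪
      (P.filter fun Q => Touch R S κ a Q ∧ Touch R S κ c Q))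
      (P.filter fun Q => ¬ Touch R S κ a Q ∧ Touch R S κ b Q)
  have c3 := Finset.card_union_le (P.filter fun Q => Touch R S κ a Q ∧ ¬ Touch R S κ c Q)
      (P.filter fun Q => Touch R S κ a Q ∧ Touch R S κ c Q)
  obtain ⟨Db, hDb⟩ : (P.filter fun Q => Touch R S κ a Q ∧ ¬ Touch R S κ c Q).Nonempty :=
    Finset.card_pos.mp (by omega)
  obtain ⟨Dc, hDc⟩ : (P.filter fun Q => Touch R S κ a Q ∧ Touch R S κ c Q).Nonempty :=
    Finset.card_pos.mp (by omega)
  obtain ⟨E, hE⟩ : (P.filter fun Q => ¬ Touch R S κ a Q ∧ Touch R S κ c Q).Nonempty :=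
    Finset.card_pos.mp (by omega)
  obtain ⟨hDb, aDb, cDb⟩ := Finset.mem_filter.mp hDb
  obtain ⟨hDc, aDc, cDc⟩ := Finset.mem_filter.mp hDc
  obtain ⟨hE, aE, cE⟩ := Finset.mem_filter.mp hE
  have bDc : ¬ Touch R S κ b Dc := fun e => h.not_both hDc e cDc
  have bE : ¬ Touch R S κ b E := fun e => h.not_both hE e cE
  have bDb : Touch R S κ b Db := by
    by_contra e
    exact cDb (u2 Db hDb Dc hDc ⟨aDb, e⟩ ⟨aDc, bDc⟩ ▸ cDc)
  obtain ⟨μ, t, n, α, ε, hμ, hp, hα, e1, e2, e3, e4⟩ := h.caseG hb hDc aDc bDc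
  set S1 := insert b ((P.filter fun Q => Touch R S κ b Q).biUnion id) with hS1
  have m1 : ∀ v, v ∈ S1 ↔ v = b ∨ ∃ Q ∈ P, Touch R S κ b Q ∧ v ∈ Q := fun v => by
    simp [hS1, and_assoc]
  have hch := h.ch.scale h.sys hμ
  have hpath := hp.path hch
  have mI : ∀ v ∈ S1, ∃ i, α < i ∧ i < n ∧ t i = v := fun v hv => by
    rw [e3] at hv
    obtain ⟨i, hi, e⟩ := Finset.mem_image.mp hv
    exact ⟨i, (Finset.mem_Ioo.mp hi).1, (Finset.mem_Ioo.mp hi).2, e⟩
  obtain ⟨β, hβ1, hβ2, hβ⟩ := mI b ((m1 _).mpr (Or.inl rfl))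
  have sDb : ∀ v ∈ Db, v ∈ S1 := fun v hv => (m1 v).mpr (Or.inr ⟨Db, hDb, bDb, hv⟩)
  have mW : ∀ v, v ∈ (Finset.range n).image t ↔ v = a ∨ v ∈ S1 ∨ v ∈ Dc := fun v => by
    rw [e4]; simp
  have mW' : ∀ i < n, t i = a ∨ t i ∈ S1 ∨ t i ∈ Dc := fun i hi =>
    (mW _).mp (Finset.mem_image_of_mem _ (Finset.mem_range.mpr hi))
  have hEne : ∀ Q ∈ P, Touch R S κ b Q ∨ Q = Dc → Q ≠ E := by
    rintro Q hQ (e | e) rfl
    · exact bE e
    · exact aE (e ▸ aDc)
  have hcS1 : ∀ v ∈ S1, v ≠ c ∧ ¬ Adj R S κ c v := fun v hv => by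
    rcases (m1 _).mp hv with rfl | ⟨Q, hQ, hbQ, hv⟩
    · exact ⟨h.bc, fun e => h.not_adj e.symm⟩
    · exact ⟨fun e => (h.sub Q hQ).2.2.2 (e ▸ hv), fun e => h.not_both hQ hbQ ⟨v, hv, e⟩⟩
  refine ⟨κ.scale μ, t, n, ε, α, β, E, h.sys, hch, (conn_scale hμ).mpr h.conn, hp, ?_,
    fun i hi => ?_, (h.sub E hE).2.2.2, fun i hi => ?_, ?_, (conn_scale hμ).mpr (h.connQ E hE),
    (by have := h.card E hE; omega), ?_, ?_, hβ2, fun i h1 h2 => ?_, ?_⟩
  · ext v
    simp only [Finset.mem_insert, Finset.mem_union, mW, m1]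
    constructor
    · intro hv
      rcases h.cover v hv with e | e | e | ⟨Q, hQ, hvQ⟩
      · tauto
      · tauto
      · tauto
      · by_cases tb : Touch R S κ b Q
        · exact Or.inr (Or.inl (Or.inr (Or.inl (Or.inr ⟨Q, hQ, tb, hvQ⟩))))
        · by_cases ta : Touch R S κ a Q
          · exact Or.inr (Or.inl (Or.inr (Or.inr (u2 Q hQ Dc hDc ⟨ta, tb⟩ ⟨aDc, bDc⟩ ▸ hvQ))))
          · have := h.touch hQ
            exact Or.inr (Or.inr (u4 Q hQ E hE ⟨ta, by tauto⟩ ⟨aE, cE⟩ ▸ hvQ))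
    · rintro (rfl | (rfl | (rfl | ⟨Q, hQ, -, hv⟩) | hv) | hv)
      · exact h.hc
      · exact h.ha
      · exact h.hb
      · exact (h.sub Q hQ).1 hv
      · exact (h.sub Dc hDc).1 hv
      · exact (h.sub E hE).1 hv
  · rcases mW' i hi with e | e | e
    · exact e ▸ h.ac
    · exact (hcS1 _ e).1
    · exact fun e' => (h.sub Dc hDc).2.2.2 (e' ▸ e)
  · intro hm
    rcases mW' i hi with e | e | e
    · exact (h.sub E hE).2.1 (e ▸ hm)
    · rcases (m1 _).mp e with e | ⟨Q, hQ, hbQ, hv⟩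
      · exact (h.sub E hE).2.2.1 (e ▸ hm)
      · exact Finset.disjoint_left.mp (h.sep Q hQ E hE (hEne Q hQ (Or.inl hbQ))).1 hv hm
    · exact Finset.disjoint_left.mp (h.sep Dc hDc E hE (hEne Dc hDc (Or.inr rfl))).1 e hm
  · rw [sep_scale hμ]
    intro v hv w hw hadj
    rcases (mW v).mp hv with e | e | e
    · exact aE ⟨w, hw, e ▸ hadj⟩
    · rcases (m1 _).mp e with e | ⟨Q, hQ, hbQ, hv⟩
      · exact bE ⟨w, hw, e ▸ hadj⟩
      · exact (h.sep Q hQ E hE (hEne Q hQ (Or.inl hbQ))).2 v hv w hw hadj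
    · exact (h.sep Dc hDc E hE (hEne Dc hDc (Or.inr rfl))).2 v e w hw hadj
  · have c1 := h.card Dc hDc
    have c2 := Finset.card_image_le (s := Finset.range α) (f := t)
    rw [← e2, Finset.card_range] at c2
    omega
  · obtain ⟨y, hy, hay⟩ := aDb
    obtain ⟨i, i1, i2, rfl⟩ := mI y (sDb y hy)
    have hi : i = α + 1 := by
      have := hpath.only α hα i i2 (by rw [e1, adj_scale hμ]; exact hay)
      omega
    subst hi
    have hbD : ∀ j, t j ∈ Db → j ≠ β := fun j hj e => (h.sub Db hDb).2.2.1 (by rwa [e, hβ] at hj)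
    have hsub : Db ⊆ (Finset.Ico (α + 1) β).image t := by
      intro v hv
      by_contra hn
      obtain ⟨u, -, hu, u', hu', hu'', hadj⟩ := (h.connQ Db hDb).exit hy
        ((mem_image_Ico hpath.inj hβ2.le i2).mpr (by have := hbD _ hy; omega)) hv hn
      obtain ⟨j, hj, rfl⟩ := Finset.mem_image.mp hu
      obtain ⟨j', j1, j2, rfl⟩ := mI u' (sDb u' hu')
      have := Finset.mem_Ico.mp hj
      have := hpath.only j (by omega) j' j2 ((adj_scale hμ).mpr hadj)
      have := hbD _ hu'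
      exact hu'' ((mem_image_Ico hpath.inj hβ2.le j2).mpr (by omega))
    have c1 := Finset.card_le_card hsub
    have c2 := h.card Db hDb
    rw [card_image_Ico hpath.inj hβ2.le] at c1
    omega
  · rw [adj_scale hμ]
    refine (hcS1 _ ?_).2
    rw [e3]
    exact Finset.mem_image_of_mem _ (Finset.mem_Ioo.mpr ⟨h1, h2⟩)
  · rw [hβ, e1]
    exact few_scale h.sys hμ hc

end GP

/-- A large irreducible system has a good configuration. -/
theorem exists_G4 (hR : Sys R) (h : IsCh R S κ) (hc : Conn R S κ S) (hS : 3000 ≤ S.card) :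
    ∃ (κ' : Fam ι V) (t : ℕ → ι) (n : ℕ) (ε : ℕ → V) (α β : ℕ) (c : ι) (E : Finset ι),
      G4 R S κ' t n ε α β c E := by
  obtain ⟨T, hT, cT⟩ := Finset.exists_subset_card_eq (s := S) (n := 3) (by omega)
  obtain ⟨P, p1, p2, p3⟩ := exists_parts hR h (S \ T) Finset.sdiff_subset
  obtain ⟨κ1, a, b, c, g1, -, f1, f1'⟩ := Parts.good hR h hc Finset.sdiff_subset
    (by rw [Finset.sdiff_sdiff_eq_self hT, cT]) ⟨p1, p2, p3⟩ le_rfl
    fun Q hQ => Finset.card_pos.mpr (p2 Q hQ).2.1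
  obtain ⟨z, hz⟩ := stage1 g1 f1 f1' hS
  obtain ⟨J, P, hJ, h3, hP, hcard, mJ, m1, m2⟩ := hz.parts hR g1.ch g1.conn (L := 30)
    (by norm_num) (by norm_num)
  obtain ⟨κ2, a, b, c, g2, hB, f2, f2'⟩ := Parts.good hR g1.ch g1.conn hJ h3 hP (by norm_num) hcard
  have tr : ∀ w : ℕ → ι, Path R S κ1 w 30 → (Finset.range 30).image w ∈ P → Path R S κ2 w 30 := by
    intro w hw hm
    have hJ' : ∀ i < 30, w i ∈ J := fun i hi =>
      (hP.sub _ hm).1 (Finset.mem_image_of_mem _ (Finset.mem_range.mpr hi))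
    exact ⟨hw.inj, hw.mem, fun i hi => (adj_agree g1.ch g2.ch hJ hB (hJ' _ (by omega))
      (hJ' _ hi)).mpr (hw.adj i hi), fun i hi j hj e => hw.only i hi j hj
      ((adj_agree g1.ch g2.ch hJ hB (hJ' _ hi) (hJ' _ hj)).mp e)⟩
  have n1 : (Finset.range 30).image (fun i => z (31 + i)) ∈ P := by rw [image_shift]; exact m1
  have n2 : (Finset.range 30).image (fun i => z (62 + i)) ∈ P := by rw [image_shift]; exact m2
  have ne12 : (Finset.Ico 31 61).image z ≠ (Finset.Ico 62 92).image z := fun e => by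
    have : z 31 ∈ (Finset.Ico 62 92).image z :=
      e ▸ (mem_image_Ico hz.inj (by norm_num) (by norm_num)).mpr (by norm_num)
    have := (mem_image_Ico hz.inj (by norm_num) (by norm_num)).mp this
    omega
  have c3 : 3 ≤ P.card := by
    obtain ⟨Q, hQ, hv⟩ := hP.cover (z 0) ((mJ _).mpr ⟨hz.mem 0 (by norm_num),
      fun e => by have := hz.inj _ (by norm_num) _ (by norm_num) e; omega,
      fun e => by have := hz.inj _ (by norm_num) _ (by norm_num) e; omega,
      fun e => by have := hz.inj _ (by norm_num) _ (by norm_num) e; omega⟩)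
    have q1 : Q ≠ (Finset.Ico 31 61).image z := fun e => by
      have := (mem_image_Ico hz.inj (by norm_num) (by norm_num)).mp (e ▸ hv)
      omega
    have q2 : Q ≠ (Finset.Ico 62 92).image z := fun e => by
      have := (mem_image_Ico hz.inj (by norm_num) (by norm_num)).mp (e ▸ hv)
      omega
    have := Finset.card_le_card (s := {Q, (Finset.Ico 31 61).image z, (Finset.Ico 62 92).image z})
      (t := P) (Finset.insert_subset hQ (Finset.insert_subset m1 (by simpa using m2)))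
    rwa [Finset.card_insert_of_notMem (by simp only [Finset.mem_insert, Finset.mem_singleton, not_or]; exact ⟨q1, q2⟩), Finset.card_pair ne12] at this
  obtain ⟨κ3, z', h3', hz', hz0⟩ := g2.stage2 f2 f2' c3 le_rfl
    (tr _ (hz.path (by norm_num) (by norm_num)) n1) (tr _ (hz.path (by norm_num) (by norm_num)) n2)
    n1 n2 (by rw [image_shift, image_shift]; exact ne12)
  have hc3 := conn_indep hR h h3' hc
  obtain ⟨J', P', hJ', h3'', hP', hcard', mJ', m1', m2'⟩ := hz'.parts hR h3' hc3 (L := 6)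
    (by norm_num) (by norm_num)
  obtain ⟨κ4, a, b, c, g4, -, f4, f4'⟩ := Parts.good hR h3' hc3 hJ' h3'' hP' (by norm_num) hcard'
  have ne : ∀ i < 28, ∀ j < 28, i ≠ j → z' i ≠ z' j := fun i hi j hj hij e =>
    hij (hz'.inj i hi j hj e)
  have m0 : (Finset.Ico 0 6).image z' ∈ P' := by
    refine hP'.mem_of_closed (fun v hv => ?_) (hz'.conn (by norm_num))
      ⟨z' 0, (mem_image_Ico hz'.inj (by norm_num) (by norm_num)).mpr (by norm_num)⟩
      fun v hv w hw hadj => ?_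
    · obtain ⟨i, hi, rfl⟩ := Finset.mem_image.mp hv
      have := Finset.mem_Ico.mp hi
      exact (mJ' _).mpr ⟨hz'.mem i (by omega), ne _ (by omega) _ (by omega) (by omega),
        ne _ (by omega) _ (by omega) (by omega), ne _ (by omega) _ (by omega) (by omega)⟩
    · obtain ⟨i, hi, rfl⟩ := Finset.mem_image.mp hv
      have := Finset.mem_Ico.mp hi
      rcases Nat.eq_zero_or_pos i with rfl | hi0
      · rw [hz0 w (hJ' hw) hadj]
        exact (mem_image_Ico hz'.inj (by norm_num) (by norm_num)).mpr (by norm_num)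
      · rcases hz'.nbr hi0 (by omega) (hJ' hw) hadj with rfl | rfl
        · exact (mem_image_Ico hz'.inj (by norm_num) (by omega)).mpr (by omega)
        · refine (mem_image_Ico hz'.inj (by norm_num) (by omega)).mpr ?_
          by_cases e : i + 1 = 6
          · exact absurd (by rw [e]) ((mJ' _).mp hw).2.1
          · omega
  have c4 : 4 ≤ P'.card := by
    obtain ⟨Q, hQ, hv⟩ := hP'.cover (z' 21) ((mJ' _).mpr ⟨hz'.mem 21 (by norm_num),
      ne _ (by omega) _ (by omega) (by omega), ne _ (by omega) _ (by omega) (by omega),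
      ne _ (by omega) _ (by omega) (by omega)⟩)
    have dq : ∀ (X : Finset ι) (i p q : ℕ), z' i ∈ X → i < 28 → q ≤ 28 → ¬ (p ≤ i ∧ i < q) →
        X ≠ (Finset.Ico p q).image z' := fun X i p q hi h1 h2 h3 e =>
      h3 ((mem_image_Ico hz'.inj h2 h1).mp (e ▸ hi))
    have i0 : z' 0 ∈ (Finset.Ico 0 6).image z' :=
      (mem_image_Ico hz'.inj (by norm_num) (by norm_num)).mpr (by norm_num)
    have i1 : z' 7 ∈ (Finset.Ico 7 13).image z' :=
      (mem_image_Ico hz'.inj (by norm_num) (by norm_num)).mpr (by norm_num)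
    have := Finset.card_le_card (s := {Q, (Finset.Ico 0 6).image z', (Finset.Ico 7 13).image z',
      (Finset.Ico 14 20).image z'}) (t := P') (Finset.insert_subset hQ (Finset.insert_subset m0
        (Finset.insert_subset m1' (by simpa using m2'))))
    rwa [Finset.card_insert_of_notMem, Finset.card_insert_of_notMem,
      Finset.card_pair (dq _ 7 _ _ i1 (by omega) (by omega) (by omega))] at this
    · simp only [Finset.mem_insert, Finset.mem_singleton, not_or]
      exact ⟨dq _ 0 _ _ i0 (by omega) (by omega) (by omega),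
        dq _ 0 _ _ i0 (by omega) (by omega) (by omega)⟩
    · simp only [Finset.mem_insert, Finset.mem_singleton, not_or]
      exact ⟨dq _ 21 _ _ hv (by omega) (by omega) (by omega),
        dq _ 21 _ _ hv (by omega) (by omega) (by omega),
        dq _ 21 _ _ hv (by omega) (by omega) (by omega)⟩
  obtain ⟨κ5, t, n, ε, α, β, E, hG⟩ := g4.stage3 f4 f4' c4
  exact ⟨κ5, t, n, ε, α, β, c, E, hG⟩

end Pool.Agent.SimpArr
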