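import Pool.Agent.P.MP_0b4c38_co.Growth

/-! Simplicial root systems: two nodes and three parts, the shape of the Coxeter graph. -/

set_option autoImplicit false

open Classical

namespace Pool.Agent.SimpArr

variable {V : Type} [AddCommGroup V] [Module ℝ V] {ι : Type}
variable {R : Set V} {S : Finset ι} {κ : Fam ι V}

namespace Tri

variable {a c : ι} {C D E : Finset ι}

theorem swap (h : Tri R S κ a c C D E) : Tri R S κ c a C D E :=
  { h with
    cover := h.cover.trans (Finset.insert_comm _ _ _)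
    ac := h.ac.symm
    aJ := h.cJ
    cJ := h.aJ
    few := h.few.symm h.sys }

theorem p12 (h : Tri R S κ a c C D E) : Tri R S κ a c D C E :=
  { sys := h.sys, ch := h.ch, conn := h.conn, ac := h.ac, few := h.few
    cover := by rw [Finset.union_comm D C]; exact h.cover
    aJ := by rw [Finset.union_comm D C]; exact h.aJ
    cJ := by rw [Finset.union_comm D C]; exact h.cJ
    dCD := h.dCD.symm, dCE := h.dDE, dDE := h.dCE
    sCD := h.sCD.symm, sCE := h.sDE, sDE := h.sCE
    connC := h.connD, connD := h.connC, connE := h.connE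
    cardC := h.cardD, cardD := h.cardC, cardE := h.cardE }

theorem p23 (h : Tri R S κ a c C D E) : Tri R S κ a c C E D :=
  { sys := h.sys, ch := h.ch, conn := h.conn, ac := h.ac, few := h.few
    cover := by rw [Finset.union_right_comm C E D]; exact h.cover
    aJ := by rw [Finset.union_right_comm C E D]; exact h.aJ
    cJ := by rw [Finset.union_right_comm C E D]; exact h.cJ
    dCD := h.dCE, dCE := h.dCD, dDE := h.dDE.symm
    sCD := h.sCE, sCE := h.sCD, sDE := h.sDE.symm
    connC := h.connC, connD := h.connE, connE := h.connD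
    cardC := h.cardC, cardD := h.cardE, cardE := h.cardD }

theorem p3 (h : Tri R S κ a c C D E) : Tri R S κ a c E C D := h.p23.p12

theorem mem_S (h : Tri R S κ a c C D E) {i : ι} :
    i ∈ S ↔ i = a ∨ i = c ∨ i ∈ C ∨ i ∈ D ∨ i ∈ E := by
  rw [h.cover]
  simp only [Finset.mem_insert, Finset.mem_union, or_assoc]

theorem ha (h : Tri R S κ a c C D E) : a ∈ S := h.mem_S.mpr (Or.inl rfl)

theorem hc (h : Tri R S κ a c C D E) : c ∈ S := h.swap.ha

theorem sub (h : Tri R S κ a c C D E) : C ⊆ S := fun _ hi =>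
  h.mem_S.mpr (Or.inr (Or.inr (Or.inl hi)))

theorem aC (h : Tri R S κ a c C D E) : a ∉ C := fun h' =>
  h.aJ (Finset.mem_union_left _ (Finset.mem_union_left _ h'))

theorem cC (h : Tri R S κ a c C D E) : c ∉ C := h.swap.aC

theorem ne_a (h : Tri R S κ a c C D E) {j : ι} (hj : j ∈ C) : j ≠ a := fun e => h.aC (e ▸ hj)

theorem ne_c (h : Tri R S κ a c C D E) {j : ι} (hj : j ∈ C) : j ≠ c := fun e => h.cC (e ▸ hj)

theorem exitC (h : Tri R S κ a c C D E) {y i : ι} (hy : y ∈ C) (hi : i ∈ S) (hiC : i ∉ C)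
    (hadj : Adj R S κ y i) : i = a ∨ i = c := by
  rcases h.mem_S.mp hi with e | e | e | e | e
  · exact Or.inl e
  · exact Or.inr e
  · exact absurd e hiC
  · exact absurd hadj (h.sCD y hy i e)
  · exact absurd hadj (h.sCE y hy i e)

/-- `u` is attached to the part `Y`. -/
def At (R : Set V) (S : Finset ι) (κ : Fam ι V) (u : ι) (Y : Finset ι) : Prop :=
  ∃ y ∈ Y, Adj R S κ u y

theorem at_or (h : Tri R S κ a c C D E) : At R S κ a C ∨ At R S κ c C := by
  obtain ⟨i, hi, j, hj, hjC, hadj⟩ := h.conn C h.sub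
    (Finset.card_pos.mp (by have := h.cardC; omega)) fun e => h.aC (e ▸ h.ha)
  rcases h.exitC hi hj hjC hadj with rfl | rfl
  · exact Or.inl ⟨i, hi, hadj.symm⟩
  · exact Or.inr ⟨i, hi, hadj.symm⟩

theorem conn_at {u : ι} {W Y : Finset ι} (hW : Conn R S κ W) (hu : u ∈ W) (hY : Conn R S κ Y)
    (hat : At R S κ u Y) : Conn R S κ (W ∪ Y) := by
  obtain ⟨y, hy, hadj⟩ := hat
  exact hW.union_adj hY hu hy hadj

theorem dis (h : Tri R S κ a c C D E) {Z : Finset ι} (hZ : Z ⊆ C) :
    Disjoint D (insert a (insert c Z)) := by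
  rw [Finset.disjoint_insert_right, Finset.disjoint_insert_right]
  exact ⟨h.p12.aC, h.p12.cC, (h.dCD.mono_left hZ).symm⟩

theorem grow (h : Tri R S κ a c C D E) {Z : Finset ι} (hZ : Z ⊆ C) (hl : Link R S κ Z a c)
    (h1 : At R S κ c D) (h2 : At R S κ c E) : False :=
  grow2 h.sys h.ch (U := S) (Z := Z) (W := {c}) (Y := D) (Y' := E) subset_rfl h.ha h.hc h.ac
    (hZ.trans h.sub) (fun e => h.aC (hZ e)) (fun e => h.cC (hZ e)) (Finset.mem_singleton_self c)
    (by simp) (conn_singleton c) h.p12.sub h.p3.sub h.dDE (h.dis hZ) (h.p23.dis hZ)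
    (conn_at (conn_singleton c) (Finset.mem_singleton_self c) h.connD h1)
    (conn_at (conn_singleton c) (Finset.mem_singleton_self c) h.connE h2) h.cardD h.cardE hl h.few

theorem grow_adj (h : Tri R S κ a c C D E) (hl : Adj R S κ a c) :
    ¬ (At R S κ c D ∧ At R S κ c E) := fun h' =>
  h.grow (Finset.empty_subset _) hl.2 h'.1 h'.2

theorem grow_at (h : Tri R S κ a c C D E) (h1 : At R S κ a C) (h2 : At R S κ c C) :
    ¬ (At R S κ c D ∧ At R S κ c E) := fun h' => by
  obtain ⟨y, hy, hadj⟩ := h1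
  obtain ⟨z, hz, hadj'⟩ := h2
  refine h.grow subset_rfl (link_of_conn h.sys h.ch (Y := insert a (insert c C))
    (Finset.insert_subset h.ha (Finset.insert_subset h.hc h.sub))
    ((h.connC.insert hz hadj'.symm).insert (Finset.mem_insert_of_mem hy) hadj.symm)
    (by simp) (by simp) subset_rfl) h'.1 h'.2

theorem not_adj (h : Tri R S κ a c C D E) : ¬ Adj R S κ a c := fun hl => by
  have h1 := h.grow_adj hl
  have h2 := h.p12.grow_adj hl
  have h3 := h.p3.grow_adj hl
  have h4 := h.swap.grow_adj hl.symm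
  have h5 := h.p12.swap.grow_adj hl.symm
  have h6 := h.p3.swap.grow_adj hl.symm
  have h7 := h.at_or
  have h8 := h.p12.at_or
  have h9 := h.p3.at_or
  tauto

theorem both_aux (h : Tri R S κ a c C D E) {i j : ι} (hi : i ∈ C) (hj : j ∈ S)
    (hadj : Adj R S κ i j) (hja : j ≠ a) (h1 : At R S κ a C) (h2 : j ∈ C → ¬ At R S κ a C) :
    At R S κ a C ∧ At R S κ c C := by
  rcases h.exitC hi hj (fun e => h2 e h1) hadj with e | e
  · exact absurd e hja
  · exact ⟨h1, i, hi, (e ▸ hadj).symm⟩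

theorem both (h : Tri R S κ a c C D E) : (At R S κ a C ∧ At R S κ c C) ∨
    (At R S κ a D ∧ At R S κ c D) ∨ (At R S κ a E ∧ At R S κ c E) := by
  let P : ι → Prop := fun i => i = a ∨ (i ∈ C ∧ At R S κ a C) ∨ (i ∈ D ∧ At R S κ a D) ∨
    (i ∈ E ∧ At R S κ a E)
  have hcP : ¬ P c := by
    rintro (e | e | e | e)
    exacts [h.ac e.symm, h.cC e.1, h.p12.cC e.1, h.p3.cC e.1]
  obtain ⟨i, hi, j, hj, hjA, hadj⟩ := h.conn (S.filter P) (Finset.filter_subset _ _)
    ⟨a, Finset.mem_filter.mpr ⟨h.ha, Or.inl rfl⟩⟩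
    fun e => hcP (Finset.mem_filter.mp (e.symm ▸ h.hc : c ∈ S.filter P)).2
  have hjP : ¬ P j := fun e => hjA (Finset.mem_filter.mpr ⟨hj, e⟩)
  simp only [P, not_or, not_and] at hjP
  obtain ⟨j1, j2, j3, j4⟩ := hjP
  rcases (Finset.mem_filter.mp hi).2 with e | e | e | e
  · subst e
    rcases h.mem_S.mp hj with e | e | e | e | e
    · exact absurd e j1
    · exact absurd (e ▸ hadj) h.not_adj
    · exact absurd ⟨j, e, hadj⟩ (j2 e)
    · exact absurd ⟨j, e, hadj⟩ (j3 e)
    · exact absurd ⟨j, e, hadj⟩ (j4 e)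
  · exact Or.inl (h.both_aux e.1 hj hadj j1 e.2 j2)
  · exact Or.inr (Or.inl (h.p12.both_aux e.1 hj hadj j1 e.2 j3))
  · exact Or.inr (Or.inr (h.p3.both_aux e.1 hj hadj j1 e.2 j4))

theorem chain (h : Tri R S κ a c C D E) :
    ¬ (At R S κ a C ∧ At R S κ a D ∧ At R S κ a E) ∧
      (At R S κ a C → At R S κ c C → At R S κ a D ∨ At R S κ a E) := by
  have h1 := h.grow_at
  have h2 := h.swap.grow_at
  have h3 := h.p12.swap.grow_at
  have h4 := h.p3.swap.grow_at
  have h5 := h.both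
  have h6 := h.p12.at_or
  have h7 := h.p3.at_or
  tauto

/-- The two attaching points on a path are far apart. -/
theorem far_aux (h : Tri R S κ a c C D E) {y : ℕ → ι} {l : ℕ}
    (hy : C = (Finset.range l).image y) (hinj : ∀ i < l, ∀ j < l, y i = y j → i = j)
    (hadj : ∀ i, i + 1 < l → Adj R S κ (y i) (y (i + 1))) {i j : ℕ} (hi : i < l) (hj : j < l)
    (h1 : Adj R S κ a (y i)) (h2 : Adj R S κ c (y j)) (h3 : At R S κ a D) :
    l ≤ max i j - min i j + 3 := by
  by_contra hcon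
  set Z := (Finset.Ico (min i j) (max i j + 1)).image y with hZ
  have hZC : Z ⊆ C := by
    rw [hy]
    exact Finset.image_subset_image fun k hk =>
      Finset.mem_range.mpr (by have := Finset.mem_Ico.mp hk; omega)
  have hiZ : y i ∈ Z := Finset.mem_image_of_mem _ (Finset.mem_Ico.mpr ⟨by omega, by omega⟩)
  have hjZ : y j ∈ Z := Finset.mem_image_of_mem _ (Finset.mem_Ico.mpr ⟨by omega, by omega⟩)
  have hcZ : Conn R S κ Z := conn_Ico fun k _ hk => hadj k (by omega)
  have hW : Conn R S κ (insert a Z) := hcZ.insert hiZ h1.symm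
  have hcard : 3 ≤ (C \ Z).card := by
    have e1 : C.card = l := by
      rw [hy, Finset.card_image_of_injOn fun p hp q hq =>
        hinj p (by simpa using hp) q (by simpa using hq), Finset.card_range]
    have e2 : Z.card ≤ max i j + 1 - min i j := Finset.card_image_le.trans (by simp)
    have e3 := Finset.le_card_sdiff Z C
    omega
  refine grow2 h.sys h.ch (U := S) (Z := Z) (W := insert a Z) (Y := C \ Z) (Y' := D) (k := 3)
    subset_rfl h.hc h.ha h.ac.symm (hZC.trans h.sub) (fun e => h.cC (hZC e))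
    (fun e => h.aC (hZC e)) (Finset.mem_insert_self _ _) subset_rfl hW
    (Finset.sdiff_subset.trans h.sub) h.p12.sub (h.dCD.mono_left Finset.sdiff_subset) ?_
    (h.swap.dis hZC) ?_ (conn_at hW (Finset.mem_insert_self _ _) h.connD h3) hcard h.cardD ?_
    (h.few.symm h.sys)
  · rw [Finset.disjoint_insert_right, Finset.disjoint_insert_right]
    exact ⟨fun e => h.cC (Finset.sdiff_subset e), fun e => h.aC (Finset.sdiff_subset e),
      Finset.sdiff_disjoint⟩
  · rw [Finset.insert_union, Finset.union_sdiff_of_subset hZC]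
    exact h.connC.insert (hZC hiZ) h1.symm
  · exact link_of_conn h.sys h.ch (Y := insert c (insert a Z))
      (Finset.insert_subset h.hc (Finset.insert_subset h.ha (hZC.trans h.sub)))
      (hW.insert (Finset.mem_insert_of_mem hjZ) h2.symm) (by simp) (by simp) subset_rfl

theorem far (h : Tri R S κ a c C D E) {y : ℕ → ι} {l : ℕ}
    (hy : C = (Finset.range l).image y) (hinj : ∀ i < l, ∀ j < l, y i = y j → i = j)
    (hadj : ∀ i, i + 1 < l → Adj R S κ (y i) (y (i + 1))) {i j : ℕ} (hi : i < l) (hj : j < l)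
    (h1 : Adj R S κ a (y i)) (h2 : Adj R S κ c (y j)) : l ≤ max i j - min i j + 3 := by
  have hm : ∀ k < l, y k ∈ C := fun k hk => by
    rw [hy]; exact Finset.mem_image_of_mem _ (Finset.mem_range.mpr hk)
  rcases h.chain.2 ⟨_, hm i hi, h1⟩ ⟨_, hm j hj, h2⟩ with h3 | h3
  · exact h.far_aux hy hinj hadj hi hj h1 h2 h3
  · exact h.p23.far_aux hy hinj hadj hi hj h1 h2 h3

theorem adj_of_root (h : Tri R S κ a c C D E) {y : ι} (hy : y ∈ C) {ρ : V} (hρ : ρ ∈ R)
    (h1 : κ.x a ρ ≠ 0) (h2 : κ.x y ρ ≠ 0) (h3 : ∀ j ∈ C, j ≠ y → κ.x j ρ = 0)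
    (h4 : κ.x c ρ = 0 ∨ ¬ Adj R S κ c y) : Adj R S κ a y := by
  by_contra hn
  have hs := sup_of_sep h.sys h.ch (A := {y}) (A' := (S \ C).filter fun i => κ.x i ρ ≠ 0)
    (by simp [hy]) ?_ hρ ?_ (h.sub hy) (Finset.mem_singleton_self y) h2
  · exact h1 (hs a h.ha (by simpa using (h.ne_a hy).symm))
  · intro i hi j hj hadj
    rw [Finset.mem_singleton.mp hi] at hadj
    obtain ⟨hj1, hj2⟩ := Finset.mem_filter.mp hj
    obtain ⟨hj3, hj4⟩ := Finset.mem_sdiff.mp hj1
    rcases h.exitC hy hj3 hj4 hadj with rfl | rfl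
    · exact hn hadj.symm
    · exact h4.elim hj2 fun h5 => h5 hadj.symm
  · intro i hi hi'
    simp only [Finset.mem_union, Finset.mem_singleton, Finset.mem_filter, Finset.mem_sdiff,
      not_or, not_and, not_not, and_imp] at hi'
    by_cases hiC : i ∈ C
    · exact h3 i hiC hi'.1
    · exact hi'.2 hi hiC

theorem zero_of_not_at (h : Tri R S κ a c C D E) (hn : ¬ At R S κ a C) {ρ : V} (hρ : ρ ∈ R)
    (h1 : κ.x a ρ ≠ 0) (h2 : κ.x c ρ = 0) : ∀ j ∈ C, κ.x j ρ = 0 := by
  have hs := sup_of_sep h.sys h.ch (A := (S \ C).erase c) (A' := C)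
    (Finset.sdiff_disjoint.mono_left (Finset.erase_subset _ _)) ?_ hρ ?_ h.ha
    (Finset.mem_erase.mpr ⟨h.ac, Finset.mem_sdiff.mpr ⟨h.ha, h.aC⟩⟩) h1
  · exact fun j hj => hs j (h.sub hj) (by simp [hj])
  · intro i hi j hj hadj
    obtain ⟨hi1, hi2⟩ := Finset.mem_erase.mp hi
    obtain ⟨hi3, hi4⟩ := Finset.mem_sdiff.mp hi2
    rcases h.exitC hj hi3 hi4 hadj.symm with rfl | e
    · exact hn ⟨j, hj, hadj⟩
    · exact hi1 e
  · intro i hi hi'
    by_cases e : i = c
    · rw [e, h2]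
    · exfalso
      apply hi'
      by_cases hiC : i ∈ C <;> simp [hiC, hi, e]

end Tri

end Pool.Agent.SimpArr
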