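import Pool.Agent.P.MP_0b4c38_co.TriAux1

/-! Simplicial root systems: two nodes and three parts, lifts of the sectors. -/

set_option autoImplicit false

open Classical

namespace Pool.Agent.SimpArr

variable {V : Type} [AddCommGroup V] [Module ℝ V] {ι : Type}
variable {R : Set V} {S : Finset ι} {κ : Fam ι V}

namespace Tri

variable {a c u v : ι} {C D E Y : Finset ι} {π : V →ₗ[ℝ] ℝ × ℝ} {s : ℝ} {d e : ℝ × ℝ}
  {κ' : Fam ι V}

/-- The determinant of two plane vectors. -/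
def det (d e : ℝ × ℝ) : ℝ := d.1 * e.2 - d.2 * e.1

/-- All roots lie in the double cone spanned by the directions `d` and `e`. -/
structure Sec (R : Set V) (π : V →ₗ[ℝ] ℝ × ℝ) (d e : ℝ × ℝ) : Prop where
  ne : det d e ≠ 0
  exd : ∃ ρ ∈ R, π ρ = d
  exe : ∃ ρ ∈ R, π ρ = e
  cone : ∀ ρ ∈ R, 0 ≤ det (π ρ) e * det d (π ρ)

theorem Sec.symm (h : Sec R π d e) : Sec R π e d :=
  ⟨fun h0 => h.ne (by unfold det at h0 ⊢; linarith), h.exe, h.exd, fun ρ hρ => by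
    have := h.cone ρ hρ
    unfold det at this ⊢
    linarith⟩

theorem Sec.neg (hR : Sys R) (h : Sec R π d (-e)) : Sec R π (-d) e := by
  refine ⟨fun h0 => h.ne ?_, ?_, ?_, fun ρ hρ => ?_⟩
  · simp only [det, Prod.fst_neg, Prod.snd_neg] at h0 ⊢; linarith
  · obtain ⟨ρ, hρ, h1⟩ := h.exd
    exact ⟨-ρ, hR.neg_mem hρ, by rw [map_neg, h1]⟩
  · obtain ⟨ρ, hρ, h1⟩ := h.exe
    exact ⟨-ρ, hR.neg_mem hρ, by rw [map_neg, h1, neg_neg]⟩
  · have := h.cone ρ hρ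
    simp only [det, Prod.fst_neg, Prod.snd_neg] at this ⊢; linarith

theorem Sec.neg' (hR : Sys R) (h : Sec R π d e) : Sec R π (-d) (-e) :=
  Sec.neg hR (by rwa [neg_neg])

/-- The coordinates in `Y` do not vary on the roots of direction `d`. -/
def NV (R : Set V) (κ : Fam ι V) (π : V →ₗ[ℝ] ℝ × ℝ) (Y : Finset ι) (d : ℝ × ℝ) : Prop :=
  ∀ ρ ∈ R, ∀ ρ' ∈ R, π ρ = d → π ρ' = d → ∀ j ∈ Y, κ.x j ρ = κ.x j ρ'

theorem NV.neg (hR : Sys R) (h : NV R κ π Y d) : NV R κ π Y (-d) := by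
  intro ρ hρ ρ' hρ' h1 h2 j hj
  have := h (-ρ) (hR.neg_mem hρ) (-ρ') (hR.neg_mem hρ') (by rw [map_neg, h1, neg_neg])
    (by rw [map_neg, h2, neg_neg]) j hj
  rw [map_neg, map_neg] at this
  linarith

theorem NV.of_neg (hR : Sys R) (h : NV R κ π Y (-d)) : NV R κ π Y d := by
  simpa using h.neg hR

/-- The intrinsic form of an edge between the node of direction `d` and `y`. -/
def Att (R : Set V) (κ : Fam ι V) (π : V →ₗ[ℝ] ℝ × ℝ) (Y : Finset ι) (s : ℝ) (d : ℝ × ℝ)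
    (y : ι) : Prop :=
  ∃ ρ ∈ R, ∃ ρ' ∈ R, π ρ = d ∧ π ρ' = d ∧
    (∀ σ ∈ R, π σ = d → ∀ j ∈ Y, s * κ.x j ρ ≤ s * κ.x j σ) ∧
    κ.x y ρ' ≠ κ.x y ρ ∧ ∀ j ∈ Y, j ≠ y → κ.x j ρ' = κ.x j ρ

theorem Att.neg (hR : Sys R) {y : ι} (h : Att R κ π Y s d y) : Att R κ π Y (-s) (-d) y := by
  obtain ⟨ρ, hρ, ρ', hρ', h1, h2, h3, h4, h5⟩ := h
  refine ⟨-ρ, hR.neg_mem hρ, -ρ', hR.neg_mem hρ', by rw [map_neg, h1], by rw [map_neg, h2],
    fun σ hσ h6 j hj => ?_, by simpa using h4, fun j hj hjy => by simpa using h5 j hj hjy⟩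
  have := h3 (-σ) (hR.neg_mem hσ) (by rw [map_neg, h6, neg_neg]) j hj
  simp only [map_neg] at this ⊢
  linarith

theorem Att.not_nv {y : ι} (h : Att R κ π Y s d y) (hy : y ∈ Y) : ¬ NV R κ π Y d := by
  obtain ⟨ρ, hρ, ρ', hρ', h1, h2, -, h4, -⟩ := h
  exact fun hn => h4 (hn ρ' hρ' ρ hρ h2 h1 y hy)

/-- A chamber over the sector spanned by `d` and `e`. -/
structure Lift (R : Set V) (S : Finset ι) (κ : Fam ι V) (π : V →ₗ[ℝ] ℝ × ℝ) (u v : ι) (s : ℝ)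
    (d e : ℝ × ℝ) (κ' : Fam ι V) : Prop where
  ch0 : IsCh R S κ
  ch : IsCh R S κ'
  hu : u ∈ S
  hv : v ∈ S
  uv : u ≠ v
  s1 : s * s = 1
  ne : det d e ≠ 0
  B : ∀ j ∈ S, j ≠ u → j ≠ v → κ'.B j = s • κ.B j
  pi : ∀ ρ ∈ R, π ρ = κ'.x u ρ • d + κ'.x v ρ • e

theorem Lift.symm (L : Lift R S κ π u v s d e κ') : Lift R S κ π v u s e d κ' :=
  ⟨L.ch0, L.ch, L.hv, L.hu, L.uv.symm, L.s1, fun h0 => L.ne (by unfold det at h0 ⊢; linarith),
    fun j hj h1 h2 => L.B j hj h2 h1, fun ρ hρ => by rw [L.pi ρ hρ, add_comm]⟩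

theorem Lift.det_eq (L : Lift R S κ π u v s d e κ') {ρ : V} (hρ : ρ ∈ R) :
    det (π ρ) e = κ'.x u ρ * det d e := by
  rw [L.pi ρ hρ]
  simp only [det, Prod.fst_add, Prod.snd_add, Prod.smul_fst, Prod.smul_snd, smul_eq_mul]
  ring

theorem Lift.x_dir (L : Lift R S κ π u v s d e κ') {ρ : V} (hρ : ρ ∈ R) (h : π ρ = d) :
    κ'.x u ρ = 1 ∧ κ'.x v ρ = 0 := by
  have h1 := L.det_eq hρ
  have h2 := L.symm.det_eq hρ
  rw [h] at h1 h2
  refine ⟨mul_right_cancel₀ L.ne (by linarith), mul_right_cancel₀ L.symm.ne ?_⟩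
  rw [← h2]; unfold det; ring

theorem Lift.dir_of (L : Lift R S κ π u v s d e κ') {ρ : V} (hρ : ρ ∈ R) (h1 : κ'.x u ρ = 1)
    (h2 : κ'.x v ρ = 0) : π ρ = d := by
  rw [L.pi ρ hρ, h1, h2, one_smul, zero_smul, add_zero]

theorem Lift.piB (L : Lift R S κ π u v s d e κ') : π (κ'.B u) = d :=
  L.dir_of (L.ch.mem u L.hu) (L.ch.x_self L.hu) (L.ch.x_ne L.hv L.hu L.uv.symm)

theorem expand (h : IsCh R S κ') (hu : u ∈ S) (hv : v ∈ S) (huv : u ≠ v) {j : ι} (hj : j ∈ S)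
    (hju : j ≠ u) (hjv : j ≠ v) (f : V →ₗ[ℝ] ℝ)
    (hf : ∀ i ∈ S, i ≠ u → i ≠ v → i ≠ j → f (κ'.B i) = 0) {ρ : V} (hρ : ρ ∈ R) :
    f ρ = κ'.x u ρ * f (κ'.B u) + κ'.x v ρ * f (κ'.B v) + κ'.x j ρ * f (κ'.B j) := by
  rw [h.apply_eq hρ f, ← Finset.sum_subset (s₁ := {u, v, j})
    (Finset.insert_subset hu (Finset.insert_subset hv (Finset.singleton_subset_iff.mpr hj))),
    Finset.sum_insert (by simp [huv, hju.symm]), Finset.sum_pair hjv.symm, add_assoc]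
  intro i hi hi'
  simp only [Finset.mem_insert, Finset.mem_singleton, not_or] at hi'
  rw [hf i hi hi'.1 hi'.2.1 hi'.2.2, mul_zero]

theorem Lift.key (L : Lift R S κ π u v s d e κ') {ρ : V} (hρ : ρ ∈ R) (h : π ρ = d) {j : ι}
    (hj : j ∈ S) (hju : j ≠ u) (hjv : j ≠ v) :
    s * κ.x j ρ = s * κ.x j (κ'.B u) + κ'.x j ρ := by
  have h1 := expand L.ch L.hu L.hv L.uv hj hju hjv (κ.x j) (fun i hi h1 h2 h3 => by
    rw [L.B i hi h1 h2, map_smul, L.ch0.x_ne hj hi h3.symm, smul_zero]) hρ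
  rw [(L.x_dir hρ h).1, (L.x_dir hρ h).2, L.B j hj hju hjv, map_smul, L.ch0.x_self hj] at h1
  rw [h1]
  simp only [smul_eq_mul]
  linear_combination (κ'.x j ρ) * L.s1

theorem Lift.s_ne (L : Lift R S κ π u v s d e κ') : s ≠ 0 := fun h => by
  have := L.s1
  rw [h] at this
  norm_num at this

theorem Lift.att (L : Lift R S κ π u v s d e κ') (T : Tri R S κ' u v C D E) {y : ι} (hy : y ∈ C)
    (h : Adj R S κ' u y) : Att R κ π C s d y := by
  obtain ⟨t, ht, hm⟩ := L.ch.add_of_adj T.sys L.hu (T.sub hy) h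
  have hx : ∀ j ∈ S, κ'.x j (κ'.B u + t • κ'.B y) =
      (if j = u then 1 else 0) + t * (if j = y then 1 else 0) := fun j hj => by
    rw [map_add, map_smul, L.ch.dual j hj u L.hu, L.ch.dual j hj y (T.sub hy), smul_eq_mul]
  have hd : π (κ'.B u + t • κ'.B y) = d := L.dir_of hm
    (by rw [hx u L.hu]; simp [(T.ne_a hy).symm])
    (by rw [hx v L.hv]; simp [(T.ne_c hy).symm, L.uv.symm])
  have hk : ∀ j ∈ C, s * κ.x j (κ'.B u + t • κ'.B y) = s * κ.x j (κ'.B u) +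
      t * (if j = y then 1 else 0) := fun j hj => by
    rw [L.key hm hd (T.sub hj) (T.ne_a hj) (T.ne_c hj), hx j (T.sub hj), if_neg (T.ne_a hj),
      zero_add]
  refine ⟨_, L.ch.mem u L.hu, _, hm, L.piB, hd, fun σ hσ h1 j hj => ?_, fun h1 => ?_,
    fun j hj hjy => ?_⟩
  · rw [L.key hσ h1 (T.sub hj) (T.ne_a hj) (T.ne_c hj)]
    have := L.ch.nonneg hσ L.hu (by rw [(L.x_dir hσ h1).1]; exact one_pos) j (T.sub hj)
    linarith
  · have := hk y hy
    rw [h1, if_pos rfl] at this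
    linarith
  · have := hk j hj
    rw [if_neg hjy, mul_zero, add_zero] at this
    exact mul_left_cancel₀ L.s_ne this

theorem Lift.adj (L : Lift R S κ π u v s d e κ') (T : Tri R S κ' u v C D E) {y : ι} (hy : y ∈ C)
    (h : Att R κ π C s d y) : Adj R S κ' u y := by
  obtain ⟨ρ, hρ, ρ', hρ', h1, h2, h3, h4, h5⟩ := h
  have h6 : ∀ j ∈ C, s * κ.x j ρ' = s * κ.x j ρ + κ'.x j ρ' := fun j hj => by
    have e1 := L.key hρ h1 (T.sub hj) (T.ne_a hj) (T.ne_c hj)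
    have e2 := L.key hρ' h2 (T.sub hj) (T.ne_a hj) (T.ne_c hj)
    have e3 := h3 _ (L.ch.mem u L.hu) L.piB j hj
    have e4 := L.ch.nonneg hρ L.hu (by rw [(L.x_dir hρ h1).1]; exact one_pos) j (T.sub hj)
    linarith
  refine T.adj_of_root hy hρ' (by rw [(L.x_dir hρ' h2).1]; exact one_ne_zero) (fun h0 => ?_)
    (fun j hj hjy => ?_) (Or.inl (L.x_dir hρ' h2).2)
  · have := h6 y hy
    rw [h0, add_zero] at this
    exact h4 (mul_left_cancel₀ L.s_ne this)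
  · have := h6 j hj
    rw [h5 j hj hjy] at this
    linarith

theorem Lift.nv (L : Lift R S κ π u v s d e κ') (T : Tri R S κ' u v C D E)
    (h : ¬ At R S κ' u C) : NV R κ π C d := by
  have key : ∀ ρ ∈ R, π ρ = d → ∀ j ∈ C, s * κ.x j ρ = s * κ.x j (κ'.B u) := fun ρ hρ h1 j hj => by
    rw [L.key hρ h1 (T.sub hj) (T.ne_a hj) (T.ne_c hj), T.zero_of_not_at h hρ
      (by rw [(L.x_dir hρ h1).1]; exact one_ne_zero) (L.x_dir hρ h1).2 j hj, add_zero]
  intro ρ hρ ρ' hρ' h1 h2 j hj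
  exact mul_left_cancel₀ L.s_ne ((key ρ hρ h1 j hj).trans (key ρ' hρ' h2 j hj).symm)

theorem Lift.not_at (L : Lift R S κ π u v s d e κ') (T : Tri R S κ' u v C D E)
    (h : NV R κ π C d) : ¬ At R S κ' u C := fun ⟨_, hy, hadj⟩ => (L.att T hy hadj).not_nv hy h

/-- The projection to the plane of the two nodes. -/
def pr (κ : Fam ι V) (a c : ι) : V →ₗ[ℝ] ℝ × ℝ := (κ.x a).prod (κ.x c)

theorem pr_apply (w : V) : pr κ a c w = (κ.x a w, κ.x c w) := rfl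

theorem ratio (h : Tri R S κ a c C D E) {ρ : V} (hρ : ρ ∈ R) (h0 : κ.x c ρ ≠ 0) :
    κ.x a ρ / κ.x c ρ = 0 ∨ Slope R S κ S a c (κ.x a ρ / κ.x c ρ) := by
  have hm := h.sys.smul ρ hρ _ (inv_ne_zero h0)
  have h1 : κ.x c ((κ.x c ρ)⁻¹ • ρ) = 1 := by rw [map_smul, smul_eq_mul, inv_mul_cancel₀ h0]
  have h2 : κ.x a ((κ.x c ρ)⁻¹ • ρ) = κ.x a ρ / κ.x c ρ := by
    rw [map_smul, smul_eq_mul, div_eq_inv_mul]
  have h3 := h.ch.nonneg hm h.hc (by rw [h1]; exact one_pos) a h.ha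
  rw [h2] at h3
  rcases h3.eq_or_lt with h4 | h4
  · exact Or.inl h4.symm
  · exact Or.inr ⟨h4, _, hm, sup_self _, h1, h2⟩

theorem few5 (h : Tri R S κ a c C D E) (T : Finset (ℝ × ℝ))
    (h1 : ∀ w ∈ T, ∃ ρ ∈ R, pr κ a c ρ = w) (h2 : ∀ w ∈ T, ∀ w' ∈ T, w ≠ w' → det w w' ≠ 0) :
    T.card ≤ 5 := by
  let f : ℝ × ℝ → ℝ := fun w => if w.2 = 0 then -1 else w.1 / w.2
  have hf : ∀ w ∈ T, w.2 ≠ 0 → w.1 / w.2 = 0 ∨ Slope R S κ S a c (w.1 / w.2) := fun w hw h0 => by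
    obtain ⟨ρ, hρ, rfl⟩ := h1 w hw
    exact h.ratio hρ h0
  have hf0 : ∀ w ∈ T, w.2 ≠ 0 → 0 ≤ w.1 / w.2 := fun w hw h0 =>
    (hf w hw h0).elim (fun e => e.ge) fun e => e.1.le
  have hinj : Set.InjOn f T := fun w hw w' hw' he => by
    by_contra hne
    apply h2 w hw w' hw' hne
    simp only [f] at he
    unfold det
    split_ifs at he with e1 e2 e2
    · rw [e1, e2]; ring
    · linarith [hf0 w' hw' e2]
    · linarith [hf0 w hw e1]
    · rw [div_eq_div_iff e1 e2] at he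
      linarith
  have h3 := h.few (T.image f \ {-1, 0}) fun t ht => by
    obtain ⟨ht1, ht2⟩ := Finset.mem_sdiff.mp ht
    obtain ⟨w, hw, rfl⟩ := Finset.mem_image.mp ht1
    simp only [Finset.mem_insert, Finset.mem_singleton, not_or, f] at ht2 ⊢
    by_cases e1 : w.2 = 0
    · exact absurd (if_pos e1) ht2.1
    · rw [if_neg e1] at ht2 ⊢
      exact (hf w hw e1).resolve_left ht2.2
  have h4 := Finset.le_card_sdiff {-1, 0} (T.image f)
  have h5 : ({-1, 0} : Finset ℝ).card ≤ 2 := Finset.card_le_two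
  rw [Finset.card_image_of_injOn hinj] at h4
  omega

theorem Lift.few (h : Tri R S κ a c C D E) (L : Lift R S κ (pr κ a c) u v s d e κ') :
    Few R S κ' S u v 3 := by
  intro T hT
  have hne := L.ne
  let g : ℝ → ℝ × ℝ := fun t => if t < 0 then d else t • d + e
  have hdet : ∀ t t' : ℝ, 0 ≤ t → (t' = -1 ∨ 0 ≤ t') → t ≠ t' → det (g t) (g t') ≠ 0 := by
    intro t t' ht ht' htt h0
    rcases ht' with rfl | ht'
    · simp only [g, if_neg (not_lt.mpr ht), if_pos (neg_one_lt_zero (R := ℝ)), det, Prod.fst_add,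
        Prod.snd_add, Prod.smul_fst, Prod.smul_snd, smul_eq_mul] at h0
      exact hne (by unfold det; linarith)
    · simp only [g, if_neg (not_lt.mpr ht), if_neg (not_lt.mpr ht'), det, Prod.fst_add,
        Prod.snd_add, Prod.smul_fst, Prod.smul_snd, smul_eq_mul] at h0
      exact mul_ne_zero (sub_ne_zero.mpr htt) hne (by unfold det; linarith)
  have hmem : ∀ t ∈ insert (-1 : ℝ) (insert 0 T), t = -1 ∨ 0 ≤ t := fun t ht => by
    rcases Finset.mem_insert.mp ht with e | ht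
    · exact Or.inl e
    · rcases Finset.mem_insert.mp ht with e | ht
      · exact Or.inr e.ge
      · exact Or.inr (hT t ht).1.le
  have hdet' : ∀ t ∈ insert (-1 : ℝ) (insert 0 T), ∀ t' ∈ insert (-1 : ℝ) (insert 0 T), t ≠ t' →
      det (g t) (g t') ≠ 0 := fun t ht t' ht' htt => by
    rcases hmem t ht with e | e
    · have := hdet t' t ((hmem t' ht').resolve_left fun e' => htt (e.trans e'.symm)) (Or.inl e)
        htt.symm
      exact fun h0 => this (by unfold det at h0 ⊢; linarith)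
    · exact hdet t t' e (hmem t' ht') htt
  have h5 := h.few5 ((insert (-1 : ℝ) (insert 0 T)).image g) (fun w hw => by
      obtain ⟨t, ht, rfl⟩ := Finset.mem_image.mp hw
      rcases Finset.mem_insert.mp ht with rfl | ht
      · exact ⟨_, L.ch.mem u L.hu, by rw [L.piB]; simp [g]⟩
      · rcases Finset.mem_insert.mp ht with rfl | ht
        · exact ⟨_, L.ch.mem v L.hv, by rw [L.symm.piB]; simp [g]⟩
        · obtain ⟨h1, ρ, hρ, -, h2, h3⟩ := hT t ht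
          exact ⟨ρ, hρ, by rw [L.pi ρ hρ, h2, h3]; simp [g, h1.le]⟩)
    (fun w hw w' hw' hne => by
      obtain ⟨t, ht, rfl⟩ := Finset.mem_image.mp hw
      obtain ⟨t', ht', rfl⟩ := Finset.mem_image.mp hw'
      exact hdet' t ht t' ht' fun e => hne (e ▸ rfl))
  rw [Finset.card_image_of_injOn fun t ht t' ht' he => by
      by_contra hne
      exact hdet' t ht t' ht' hne (by rw [he]; unfold det; ring),
    Finset.card_insert_of_notMem, Finset.card_insert_of_notMem] at h5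
  · omega
  · exact fun h0 => lt_irrefl _ (hT 0 h0).1
  · intro h0
    rcases Finset.mem_insert.mp h0 with e | e
    · norm_num at e
    · linarith [(hT _ e).1]

end Tri

end Pool.Agent.SimpArr
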